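import Pool.Agent.Lib.MP_0430e4_lc.L3.COSA

/-!
# COSC: the cost of a block with an edge between fixed vertices

PROOF. See /team-store/L3_PROOF.md, (C7). Potential `Pt Q = 2 * cost A ∅ (C ∩ Q) - k * |vs Q ∩ A|`. Start with `Q = {e}`, `e` the edge without end in `A` (`kap_fixed`: the cost is 0, no vertex of `A`). While `Q ≠ b`: `conf_conn` gives `v`, `J`, `J ∩ Q ≠ ∅`, so `v ∈ vs Q` and
`J \ nw ≠ ∅`; `step` with `B = ∅` (nothing crosses), `Q' = Q ∪ J`. Strong induction on `|b \ Q|`.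
-/

set_option autoImplicit false

namespace Pool.Agent.Lib.MP_0430e4_lc.L3

open Finset

variable {ι : Type*} [DecidableEq ι] {n : ℕ}

theorem cosc_ind {ε : Type*} [DecidableEq ε] {P : Finset ε → Prop} {g : Finset ε}
    (step : ∀ Q ⊆ g, Q ≠ g → P Q → ∃ Q', Q ⊂ Q' ∧ Q' ⊆ g ∧ P Q') :
    ∀ m : ℕ, ∀ Q ⊆ g, (g \ Q).card = m → P Q → P g := by
  intro m
  induction m using Nat.strong_induction_on with
  | _ m ih =>
    intro Q hQ hm hP
    by_cases h : Q = g
    · rw [← h]; exact hP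
    · obtain ⟨Q', h1, h2, h3⟩ := step Q hQ h hP
      refine ih (g \ Q').card ?_ Q' h2 rfl h3
      rw [← hm]
      apply card_lt_card
      refine ⟨sdiff_subset_sdiff (Finset.Subset.refl _) h1.1, fun h4 => h1.2 ?_⟩
      intro x hx
      by_contra hxQ
      exact (mem_sdiff.1 (h4 (mem_sdiff.2 ⟨h2 hx, hxQ⟩))).2 hx

/-- (C7) -/
theorem costp {A : Finset ι} {k : ℕ} {C : Fin n → Finset (Sym2 ι)} {b : Finset (Sym2 ι)}
    (hb : ∀ e ∈ b, ¬ e.IsDiag) (hC : ∀ i, C i ⊆ b) (hlab : ∀ e ∈ b, k ≤ oc C {e})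
    (hne : cum (cf k C) b ≠ 0) (he : ∃ e ∈ b, Disjoint e.toFinset A) :
    (k : ℤ) * (vs b ∩ A).card ≤ 2 * cost A ∅ C := by
  have hnx : ∀ N : Finset (Sym2 ι), xed A ∅ N = ∅ := by
    intro N
    rw [← subset_empty]; intro x hx
    have := (mem_filter.1 hx).2.2
    simp at this
  have key := cosc_ind (g := b)
    (P := fun Q => Q.Nonempty ∧ (k : ℤ) * (vs Q ∩ A).card ≤ 2 * cost A ∅ (fun i => C i ∩ Q)) (by
      rintro Q hQ hQb ⟨hQn, hP⟩
      obtain ⟨v, J, hJb, hJ, h1, h2⟩ := conf_conn hne (Q := Q)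
        (by rw [inter_eq_right.2 hQ]; exact hQn)
        (fun h => hQb (Finset.Subset.antisymm hQ h))
      obtain ⟨f, hf⟩ := h1
      obtain ⟨hf1, hf2⟩ := mem_inter.1 hf
      have hs := step (A := A) (B := ∅) (disjoint_empty_right _) (fun i e he => hb e (hC i he))
        (Q := Q) hJ (fun e he => hb e (hJb he)) (fun e he => hlab e (hJb he)) (hnx _)
        (Or.inl (mem_vs.2 ⟨f, hf2, hJ.1 f hf1⟩))
        ⟨f, mem_sdiff.2 ⟨hf1, fun h => (mem_sdiff.1 (mem_filter.1 h).1).2 hf2⟩⟩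
      refine ⟨Q ∪ J, ⟨subset_union_left, fun h => h2 (subset_union_right.trans h)⟩,
        union_subset hQ hJb, hQn.mono subset_union_left, ?_⟩
      rw [union_empty] at hs
      have hc : (vs (Q ∪ J) ∩ A).card ≤ (vs Q ∩ A).card + ((vs (Q ∪ J) \ vs Q) ∩ A).card := by
        refine (card_le_card ?_).trans (card_union_le _ _)
        intro x hx
        simp only [mem_union, mem_inter, mem_sdiff] at hx ⊢
        tauto
      have hc' : (k : ℤ) * (vs (Q ∪ J) ∩ A).card ≤
          k * (vs Q ∩ A).card + k * ((vs (Q ∪ J) \ vs Q) ∩ A).card := by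
        rw [← mul_add]
        exact mul_le_mul_of_nonneg_left (by exact_mod_cast hc) (Int.natCast_nonneg _)
      linarith)
  obtain ⟨e, heb, hed⟩ := he
  have hstart := key _ {e} (singleton_subset_iff.2 heb) rfl (by
    refine ⟨singleton_nonempty e, ?_⟩
    have h1 : vs {e} ∩ A = ∅ := by
      rw [vs, singleton_biUnion]
      exact disjoint_iff_inter_eq_empty.1 hed
    have h2 : ∀ i, kap A ∅ (C i ∩ {e}) = 0 := by
      intro i
      by_cases h : e ∈ C i
      · rw [inter_singleton_of_mem h]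
        exact kap_fixed (hb e heb) (by rwa [union_empty])
      · rw [inter_singleton_of_notMem h]
        simp [kap]
    rw [h1, cost, sum_congr rfl fun i _ => h2 i]
    simp)
  have h3 : (fun i => C i ∩ b) = C := funext fun i => inter_eq_left.2 (hC i)
  rw [h3] at hstart
  exact hstart.2

end Pool.Agent.Lib.MP_0430e4_lc.L3
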