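import Pool.Agent.Lib.MP_0430e4_lc.L3.COSB
import Pool.Agent.Lib.MP_0430e4_lc.L3.COSC

/-!
# COSTK: the cost lemmas (collection)
-/
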