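import Pool.Agent.Lib.MP_0430e4_lc.L3.BDR

/-!
# KBR: rules for the kernel bounds

PROOF. `kb_mono`, `kb_add`, `kb_sum`: triangle inequality in square roots. `kb_mul`: replace `p` by `H p`. `kb_triv`: Cauchy-Schwarz on the sum over `A ∪ B`: `(∑ K p q)² ≤ r² (∑ |p| |q|)²` and `∑ |p| |q| = (sm A |p|) (sm B |q|)`.
`kb_comp`: `K z = G z * a z * b z` where `a` does not depend on `B`, `b` not on `A`, `G` only on the coordinates outside `(A \ A') ∪ (B \ B')`. Put `P = sm (A \ A') (a p)`, `Q = sm (B \ B') (b q)`; `sm (A ∪ B) (G a b p q) = sm (A' ∪ B') (G P Q)`,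
`P² ≤ sm (A \ A') (1[p ≠ 0] a²) * sm (A \ A') (p²)`, `sm A' (sm (A \ A') p²) = sm A p²`.
-/

set_option autoImplicit false

namespace Pool.Agent.Lib.MP_0430e4_lc.L3

open Finset

variable {ι : Type*} [Fintype ι] [DecidableEq ι] {Γ : Type*} [Fintype Γ] [DecidableEq Γ]
  {A B : Finset ι} {x : ι → Γ}

/-- Normalised form of the kernel bounds. -/
def KN (A B : Finset ι) (K : (ι → Γ) → ℝ) (r : ℝ) (x : ι → Γ) : Prop :=
  KB A B K (r ^ 2 * (Fintype.card Γ : ℝ) ^ (A.card + B.card)) x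

theorem kbr_nn (A B : Finset ι) (p q : (ι → Γ) → ℝ) (x : ι → Γ) :
    0 ≤ sm A (fun z => p z ^ 2) x * sm B (fun z => q z ^ 2) x :=
  mul_nonneg (sm_nonneg fun _ => sq_nonneg _) (sm_nonneg fun _ => sq_nonneg _)

theorem kb_mono {K : (ι → Γ) → ℝ} {c c' : ℝ} (h : KB A B K c x) (hc : c ≤ c') : KB A B K c' x := by
  intro p q hp hq
  exact (h p q hp hq).trans (mul_le_mul_of_nonneg_right hc (kbr_nn A B p q x))

theorem kn_mono {K : (ι → Γ) → ℝ} {r r' : ℝ} (h : KN A B K r x) (h0 : 0 ≤ r) (hr : r ≤ r') :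
    KN A B K r' x := by
  unfold KN at *
  exact kb_mono h (mul_le_mul_of_nonneg_right (pow_le_pow_left₀ h0 hr 2) (by positivity))

theorem kb_congr {K K' : (ι → Γ) → ℝ} {c : ℝ} (h : KB A B K c x)
    (hK : ∀ z, (∀ v, v ∉ A ∪ B → z v = x v) → K z = K' z) : KB A B K' c x := by
  intro p q hp hq
  have e : sm (A ∪ B) (fun z => K' z * p z * q z) x = sm (A ∪ B) (fun z => K z * p z * q z) x := by
    apply sm_congr
    intro z hz
    rw [hK z hz]
  rw [e]
  exact h p q hp hq

theorem kn_congr {K K' : (ι → Γ) → ℝ} {r : ℝ} (h : KN A B K r x)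
    (hK : ∀ z, (∀ v, v ∉ A ∪ B → z v = x v) → K z = K' z) : KN A B K' r x := by
  unfold KN at *
  exact kb_congr h hK

theorem kn_add {K K' : (ι → Γ) → ℝ} {r r' : ℝ} (h0 : 0 ≤ r) (h0' : 0 ≤ r') (h : KN A B K r x)
    (h' : KN A B K' r' x) : KN A B (fun z => K z + K' z) (r + r') x := by
  intro p q hp hq
  have h1 := h p q hp hq
  have h2 := h' p q hp hq
  set s : ℝ := sm A (fun z => p z ^ 2) x * sm B (fun z => q z ^ 2) x with hs
  have hs0 : 0 ≤ s := kbr_nn A B p q x
  set N : ℝ := (Fintype.card Γ : ℝ) ^ (A.card + B.card) with hN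
  have hN0 : 0 ≤ N := by positivity
  set X : ℝ := sm (A ∪ B) (fun z => K z * p z * q z) x with hX
  set X' : ℝ := sm (A ∪ B) (fun z => K' z * p z * q z) x with hX'
  have e : sm (A ∪ B) (fun z => (K z + K' z) * p z * q z) x = X + X' := by
    rw [hX, hX', ← sm_add]
    apply sm_congr
    intro z _
    ring
  have cross : X * X' ≤ r * r' * (N * s) := by
    apply le_of_abs_le
    apply abs_le_of_sq_le_sq
    · calc (X * X') ^ 2 = X ^ 2 * X' ^ 2 := by ring
        _ ≤ (r ^ 2 * N * s) * (r' ^ 2 * N * s) :=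
            mul_le_mul h1 h2 (sq_nonneg _) (by positivity)
        _ = (r * r' * (N * s)) ^ 2 := by ring
    · positivity
  calc sm (A ∪ B) (fun z => (K z + K' z) * p z * q z) x ^ 2 = (X + X') ^ 2 := by rw [e]
    _ = X ^ 2 + 2 * (X * X') + X' ^ 2 := by ring
    _ ≤ r ^ 2 * N * s + 2 * (r * r' * (N * s)) + r' ^ 2 * N * s := by linarith
    _ = (r + r') ^ 2 * N * s := by ring

theorem kn_sum {κ : Type*} (s : Finset κ) {K : κ → (ι → Γ) → ℝ} {r : κ → ℝ}
    (h0 : ∀ j ∈ s, 0 ≤ r j) (h : ∀ j ∈ s, KN A B (K j) (r j) x) :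
    KN A B (fun z => ∑ j ∈ s, K j z) (∑ j ∈ s, r j) x := by
  classical
  induction s using Finset.induction_on with
  | empty =>
    intro p q _ _
    have e : sm (A ∪ B) (fun z => (∑ j ∈ (∅ : Finset κ), K j z) * p z * q z) x = 0 := by
      unfold sm
      apply Finset.sum_eq_zero
      intro z _
      rw [sum_empty]
      ring
    calc sm (A ∪ B) (fun z => (∑ j ∈ (∅ : Finset κ), K j z) * p z * q z) x ^ 2 = 0 := by
          rw [e]; ring
      _ ≤ _ := mul_nonneg (by positivity) (kbr_nn A B p q x)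
  | insert a s ha ih =>
    have h1 := ih (fun j hj => h0 j (mem_insert_of_mem hj))
      (fun j hj => h j (mem_insert_of_mem hj))
    have h2 := h a (mem_insert_self _ _)
    rw [sum_insert ha]
    refine kn_congr (kn_add (h0 a (mem_insert_self _ _))
      (sum_nonneg fun j hj => h0 j (mem_insert_of_mem hj)) h2 h1) ?_
    intro z _
    rw [sum_insert ha]

theorem kn_smul {K : (ι → Γ) → ℝ} {r : ℝ} (h : KN A B K r x) (c : ℝ) :
    KN A B (fun z => c * K z) (|c| * r) x := by
  intro p q hp hq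
  have h1 := h p q hp hq
  have e : sm (A ∪ B) (fun z => (c * K z) * p z * q z) x =
      c * sm (A ∪ B) (fun z => K z * p z * q z) x := by
    rw [← sm_const_mul]
    apply sm_congr
    intro z _
    ring
  calc sm (A ∪ B) (fun z => (c * K z) * p z * q z) x ^ 2
      = c ^ 2 * sm (A ∪ B) (fun z => K z * p z * q z) x ^ 2 := by rw [e]; ring
    _ ≤ c ^ 2 * (r ^ 2 * (Fintype.card Γ : ℝ) ^ (A.card + B.card) *
          (sm A (fun z => p z ^ 2) x * sm B (fun z => q z ^ 2) x)) :=
        mul_le_mul_of_nonneg_left h1 (sq_nonneg _)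
    _ = _ := by rw [mul_pow, sq_abs]; ring

/-- multiplication by bounded functions of one side -/
theorem kn_mul {K H H' : (ι → Γ) → ℝ} {r s s' : ℝ} (h0 : 0 ≤ r) (h : KN A B K r x) (hs : 0 ≤ s)
    (hs' : 0 ≤ s')
    (hH : Ind B H) (hH' : Ind A H') (hHs : ∀ z, |H z| ≤ s) (hHs' : ∀ z, |H' z| ≤ s') :
    KN A B (fun z => H z * H' z * K z) (s * s' * r) x := by
  intro p q hp hq
  have h1 := h (fun z => H z * p z) (fun z => H' z * q z)
    (fun y z hyz => by dsimp only; rw [hH y z hyz, hp y z hyz])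
    (fun y z hyz => by dsimp only; rw [hH' y z hyz, hq y z hyz])
  have e : sm (A ∪ B) (fun z => (H z * H' z * K z) * p z * q z) x =
      sm (A ∪ B) (fun z => K z * (H z * p z) * (H' z * q z)) x := by
    apply sm_congr
    intro z _
    ring
  have eA : sm A (fun z => (H z * p z) ^ 2) x ≤ s ^ 2 * sm A (fun z => p z ^ 2) x := by
    rw [← sm_const_mul]
    apply sm_mono
    intro z _
    rw [mul_pow]
    apply mul_le_mul_of_nonneg_right _ (sq_nonneg _)
    rw [← sq_abs (H z)]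
    exact pow_le_pow_left₀ (abs_nonneg _) (hHs z) 2
  have eB : sm B (fun z => (H' z * q z) ^ 2) x ≤ s' ^ 2 * sm B (fun z => q z ^ 2) x := by
    rw [← sm_const_mul]
    apply sm_mono
    intro z _
    rw [mul_pow]
    apply mul_le_mul_of_nonneg_right _ (sq_nonneg _)
    rw [← sq_abs (H' z)]
    exact pow_le_pow_left₀ (abs_nonneg _) (hHs' z) 2
  have nA : 0 ≤ sm A (fun z => p z ^ 2) x := sm_nonneg fun _ => sq_nonneg _
  have nB' : 0 ≤ sm B (fun z => (H' z * q z) ^ 2) x := sm_nonneg fun _ => sq_nonneg _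
  have hN : 0 ≤ r ^ 2 * (Fintype.card Γ : ℝ) ^ (A.card + B.card) := by positivity
  calc sm (A ∪ B) (fun z => (H z * H' z * K z) * p z * q z) x ^ 2
      = sm (A ∪ B) (fun z => K z * (H z * p z) * (H' z * q z)) x ^ 2 := by rw [e]
    _ ≤ r ^ 2 * (Fintype.card Γ : ℝ) ^ (A.card + B.card) *
        (sm A (fun z => (H z * p z) ^ 2) x * sm B (fun z => (H' z * q z) ^ 2) x) := h1
    _ ≤ r ^ 2 * (Fintype.card Γ : ℝ) ^ (A.card + B.card) *
        ((s ^ 2 * sm A (fun z => p z ^ 2) x) * (s' ^ 2 * sm B (fun z => q z ^ 2) x)) := by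
        apply mul_le_mul_of_nonneg_left _ hN
        exact mul_le_mul eA eB nB' (by positivity)
    _ = _ := by ring

theorem kbr_prod (hAB : Disjoint A B) {p q : (ι → Γ) → ℝ} (hp : Ind B p) (hq : Ind A q) :
    sm (A ∪ B) (fun z => p z * q z) x = sm A p x * sm B q x := by
  rw [sm_union hAB]
  have e1 : sm A (fun z => sm B (fun y => p y * q y) z) x = sm A (fun z => sm B q z * p z) x := by
    apply sm_congr
    intro z _
    rw [sm_mul hp, mul_comm]
  rw [e1, sm_mul (ind_sm_of hq), mul_comm]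

theorem kn_triv (hAB : Disjoint A B) {K : (ι → Γ) → ℝ} {r : ℝ} (h0 : 0 ≤ r)
    (h : ∀ z, |K z| ≤ r) : KN A B K r x := by
  intro p q hp hq
  have cs := sm_cs (A ∪ B) K (fun z => p z * q z) x
  have e : sm (A ∪ B) (fun z => K z * p z * q z) x = sm (A ∪ B) (fun z => K z * (p z * q z)) x := by
    apply sm_congr
    intro z _
    ring
  have e1 : sm (A ∪ B) (fun z => K z ^ 2) x ≤
      r ^ 2 * (Fintype.card Γ : ℝ) ^ (A.card + B.card) := by
    calc sm (A ∪ B) (fun z => K z ^ 2) x ≤ sm (A ∪ B) (fun z => r ^ 2 * (1 : ℝ)) x := by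
          apply sm_mono
          intro z _
          rw [mul_one, ← sq_abs (K z)]
          exact pow_le_pow_left₀ (abs_nonneg _) (h z) 2
      _ = r ^ 2 * sm (A ∪ B) (fun _ => (1 : ℝ)) x := sm_const_mul _ _ _ _
      _ = _ := by rw [sm_one, card_union_of_disjoint hAB]
  have e2 : sm (A ∪ B) (fun z => (p z * q z) ^ 2) x =
      sm A (fun z => p z ^ 2) x * sm B (fun z => q z ^ 2) x := by
    have e3 : sm (A ∪ B) (fun z => (p z * q z) ^ 2) x =
        sm (A ∪ B) (fun z => p z ^ 2 * q z ^ 2) x := by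
      apply sm_congr
      intro z _
      ring
    rw [e3]
    exact kbr_prod hAB (fun y z hyz => by rw [hp y z hyz])
      (fun y z hyz => by rw [hq y z hyz])
  calc sm (A ∪ B) (fun z => K z * p z * q z) x ^ 2
      = sm (A ∪ B) (fun z => K z * (p z * q z)) x ^ 2 := by rw [e]
    _ ≤ sm (A ∪ B) (fun z => K z ^ 2) x * sm (A ∪ B) (fun z => (p z * q z) ^ 2) x := cs
    _ ≤ r ^ 2 * (Fintype.card Γ : ℝ) ^ (A.card + B.card) *
        (sm A (fun z => p z ^ 2) x * sm B (fun z => q z ^ 2) x) := by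
        rw [e2]
        exact mul_le_mul_of_nonneg_right e1 (kbr_nn A B p q x)

/-- one side of the composition -/
theorem kbr_side {A' : Finset ι} (hA : A' ⊆ A) {a p : (ι → Γ) → ℝ} {ca : ℝ}
    (hpa : ∀ z, (∀ v, v ∉ A → z v = x v) →
      sm (A \ A') (fun y => if p y = 0 then 0 else a y ^ 2) z ≤ ca) :
    sm A' (fun z => sm (A \ A') (fun y => a y * p y) z ^ 2) x ≤
      ca * sm A (fun z => p z ^ 2) x := by
  have e0 : A' ∪ (A \ A') = A := union_sdiff_of_subset hA
  have e1 : sm A (fun z => p z ^ 2) x = sm A' (fun z => sm (A \ A') (fun y => p y ^ 2) z) x := by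
    rw [← sm_union disjoint_sdiff, e0]
  rw [e1, ← sm_const_mul]
  apply sm_mono
  intro z hz
  have hz' : ∀ v, v ∉ A → z v = x v := fun v hv => hz v (fun h => hv (hA h))
  have e2 : sm (A \ A') (fun y => a y * p y) z =
      sm (A \ A') (fun y => (if p y = 0 then 0 else a y) * p y) z := by
    apply sm_congr
    intro y _
    split_ifs with h
    · rw [h]; ring
    · rfl
  have e3 : sm (A \ A') (fun y => (if p y = 0 then 0 else a y) ^ 2) z ≤ ca := by
    refine le_trans (le_of_eq (sm_congr ?_)) (hpa z hz')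
    intro y _
    split_ifs
    · ring
    · rfl
  calc sm (A \ A') (fun y => a y * p y) z ^ 2
      = sm (A \ A') (fun y => (if p y = 0 then 0 else a y) * p y) z ^ 2 := by rw [e2]
    _ ≤ sm (A \ A') (fun y => (if p y = 0 then 0 else a y) ^ 2) z *
        sm (A \ A') (fun y => p y ^ 2) z := sm_cs _ _ _ _
    _ ≤ ca * sm (A \ A') (fun y => p y ^ 2) z :=
        mul_le_mul_of_nonneg_right e3 (sm_nonneg fun _ => sq_nonneg _)

/-- composition -/
theorem kb_comp (hAB : Disjoint A B) {A' B' : Finset ι} (hA : A' ⊆ A) (hB : B' ⊆ B)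
    {G a b : (ι → Γ) → ℝ} {c ca cb : ℝ} (hc : 0 ≤ c) (hca : 0 ≤ ca) (hcb : 0 ≤ cb)
    (hG : Ind ((A \ A') ∪ (B \ B')) G) (ha : Ind B a) (hb : Ind A b) (h : KB A' B' G c x)
    {p q : (ι → Γ) → ℝ} (hp : Ind B p) (hq : Ind A q)
    (hpa : ∀ z, (∀ v, v ∉ A → z v = x v) →
      sm (A \ A') (fun y => if p y = 0 then 0 else a y ^ 2) z ≤ ca)
    (hqb : ∀ z, (∀ v, v ∉ B → z v = x v) →
      sm (B \ B') (fun y => if q y = 0 then 0 else b y ^ 2) z ≤ cb) :
    sm (A ∪ B) (fun z => G z * a z * b z * p z * q z) x ^ 2 ≤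
      c * ca * cb * (sm A (fun z => p z ^ 2) x * sm B (fun z => q z ^ 2) x) := by
  set R := (A \ A') ∪ (B \ B') with hR
  have hAB1 : Disjoint (A \ A') (B \ B') :=
    (hAB.mono sdiff_subset sdiff_subset)
  have hdR : Disjoint (A' ∪ B') R := by
    rw [hR, disjoint_union_left, disjoint_union_right, disjoint_union_right]
    exact ⟨⟨disjoint_sdiff, hAB.mono hA sdiff_subset⟩,
      ⟨(hAB.mono sdiff_subset hB).symm, disjoint_sdiff⟩⟩
  have hU : (A' ∪ B') ∪ R = A ∪ B := by
    rw [hR]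
    ext v
    simp only [mem_union, mem_sdiff]
    constructor
    · rintro ((h1 | h1) | (h1 | h1))
      · exact Or.inl (hA h1)
      · exact Or.inr (hB h1)
      · exact Or.inl h1.1
      · exact Or.inr h1.1
    · rintro (h1 | h1)
      · by_cases h2 : v ∈ A'
        · exact Or.inl (Or.inl h2)
        · exact Or.inr (Or.inl ⟨h1, h2⟩)
      · by_cases h2 : v ∈ B'
        · exact Or.inl (Or.inr h2)
        · exact Or.inr (Or.inr ⟨h1, h2⟩)
  have hap : Ind B (fun y => a y * p y) := fun y z hyz => by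
    dsimp only; rw [ha y z hyz, hp y z hyz]
  have hbq : Ind A (fun y => b y * q y) := fun y z hyz => by
    dsimp only; rw [hb y z hyz, hq y z hyz]
  have e1 : sm (A ∪ B) (fun z => G z * a z * b z * p z * q z) x =
      sm (A' ∪ B') (fun z => G z * sm (A \ A') (fun y => a y * p y) z *
        sm (B \ B') (fun y => b y * q y) z) x := by
    rw [← hU, sm_union hdR]
    apply sm_congr
    intro z _
    have e2 : sm R (fun z => G z * a z * b z * p z * q z) z =
        sm R (fun z => G z * ((a z * p z) * (b z * q z))) z := by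
      apply sm_congr
      intro y _
      ring
    rw [e2, sm_mul hG, hR,
      kbr_prod hAB1 (ind_mono hap sdiff_subset) (ind_mono hbq sdiff_subset)]
    ring
  have h1 := h (fun z => sm (A \ A') (fun y => a y * p y) z)
    (fun z => sm (B \ B') (fun y => b y * q y) z)
    (ind_mono (ind_sm_of hap) hB) (ind_mono (ind_sm_of hbq) hA)
  have h2 := kbr_side hA hpa
  have h3 := kbr_side hB hqb
  have nA : 0 ≤ sm A (fun z => p z ^ 2) x := sm_nonneg fun _ => sq_nonneg _
  have nB' : 0 ≤ sm B' (fun z => sm (B \ B') (fun y => b y * q y) z ^ 2) x :=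
    sm_nonneg fun _ => sq_nonneg _
  calc sm (A ∪ B) (fun z => G z * a z * b z * p z * q z) x ^ 2
      = _ := by rw [e1]
    _ ≤ c * (sm A' (fun z => sm (A \ A') (fun y => a y * p y) z ^ 2) x *
        sm B' (fun z => sm (B \ B') (fun y => b y * q y) z ^ 2) x) := h1
    _ ≤ c * ((ca * sm A (fun z => p z ^ 2) x) * (cb * sm B (fun z => q z ^ 2) x)) := by
        apply mul_le_mul_of_nonneg_left _ hc
        exact mul_le_mul h2 h3 nB' (mul_nonneg hca nA)
    _ = _ := by ring

end Pool.Agent.Lib.MP_0430e4_lc.L3
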