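import Pool.Agent.Lib.MP_0430e4_lc.L3.PKA
import Pool.Agent.Lib.MP_0430e4_lc.L3.KBR
import Pool.Agent.Lib.MP_0430e4_lc.L3.COSTK

/-!
# BDP: the blocks are small

PROOF. `symm`, `dep`, `one`: clear (`ub P (vw x) {e} = 1 + P.φ (xe (vw x) e)`, `|P.φ| ≤ 1/2` on good words). `bd`: let `R ⊆ (S₀ ∪ vs b) \ S₀`, so `R ⊆ vs b`. If the fixed vertices of `vs b` (outside `R`) are not good in `x` the sum is 0. Otherwise
`|ub P (vw z) b| ≤ (1 + Λ) ^ m * |Vb P (vw z) b|`, and `sm R (Vb ^ 2) ≤ c` for every `c` with `KB R ∅ Vb c x` (apply it to `p = Vb`, `q = 1`; `sm ∅ (1) = 1`; `T ^ 2 ≤ c * T`). `nre` with `A = R`, `B = ∅`, `g = b`, `K = Kx + 1`, `f e = P.f`,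
`c C = cum (cf P.k C) b` (`cum_bound`: at most `C₀`, `perm_cf`), `θ = P.k * R.card` by `costp` if `R ≠ ∅` (the edge inside `S₀` has no end in `R`), `θ = 2 * P.k / 3` by `costp0` if `R = ∅`. So
`c = (C₀ Lc)² * 2 ^ |R| * ε ^ (k |R|) * N ^ |R|`, and `(2 M ε ^ k) ^ |R| ≤ 2 ^ m * M * ε ^ k` (`M ε ^ k ≤ 1`). Use `h1`, `h2`. The constant: `C = C₀ * 2 ^ m`.
-/

set_option autoImplicit false

namespace Pool.Agent.Lib.MP_0430e4_lc.L3

open Finset
open Lin (W wt chw evW EW al flat SymW)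
open L2 (Ev OP)

theorem bdp_xe {ι : Type*} {n : ℕ} {e : Sym2 ι} {z x : ι → Ev n} (h : ∀ v ∈ e, z v = x v) :
    xe (vw z) e = xe (vw x) e := by
  induction e using Sym2.ind with
  | _ u v =>
    show (vw z) u + (vw z) v = (vw x) u + (vw x) v
    unfold vw
    rw [h u (Sym2.mem_mk_left u v), h v (Sym2.mem_mk_right u v)]

theorem bdp_vs {ι : Type*} [DecidableEq ι] {b : Finset (Sym2 ι)} {e : Sym2 ι} (he : e ∈ b) {v : ι}
    (hv : v ∈ e) : v ∈ vs b :=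
  Finset.mem_biUnion.2 ⟨e, he, Sym2.mem_toFinset.2 hv⟩

theorem bdp_dep {ι : Type*} [Fintype ι] [DecidableEq ι] {n : ℕ} (P : Pm n) (b : Finset (Sym2 ι)) :
    Dep (vs b) (fun z : ι → Ev n => ub P (vw z) b) := by
  intro x z hxz
  have h1 : ∀ e ∈ b, xe (vw z) e = xe (vw x) e := fun e he =>
    bdp_xe fun v hv => hxz v (bdp_vs he hv)
  have h2 : Vb P (vw z) b = Vb P (vw x) b := by
    unfold Vb Ls
    refine Finset.sum_congr rfl fun C hC => ?_
    congr 1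
    refine Finset.prod_congr rfl fun i _ => Finset.prod_congr rfl fun e he => ?_
    rw [h1 e (Finset.mem_powerset.1 (Fintype.mem_piFinset.1 hC i) he)]
  show ub P (vw z) b = ub P (vw x) b
  unfold ub
  rw [h2]
  have h3 : ∏ e ∈ b, (1 + P.φ (xe (vw z) e)) = ∏ e ∈ b, (1 + P.φ (xe (vw x) e)) :=
    Finset.prod_congr rfl fun e he => by rw [h1 e he]
  have h4 : ∏ e ∈ b, (1 + P.ψ (xe (vw z) e)) = ∏ e ∈ b, (1 + P.ψ (xe (vw x) e)) :=
    Finset.prod_congr rfl fun e he => by rw [h1 e he]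
  rw [h3, h4]

theorem bdp_card {ι : Type*} [Fintype ι] [DecidableEq ι] {m : ℕ} (h : Fintype.card ι ^ 2 ≤ m)
    (g : Finset (Sym2 ι)) : g.card ≤ m := by
  refine le_trans ?_ h
  refine (Finset.card_le_univ g).trans ?_
  have h1 : Fintype.card (Sym2 ι) ≤ Fintype.card (ι × ι) :=
    Fintype.card_le_of_surjective (fun p : ι × ι => s(p.1, p.2)) (by
      intro e
      induction e using Sym2.ind with
      | _ u v => exact ⟨(u, v), rfl⟩)
  rw [Fintype.card_prod] at h1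
  rw [sq]
  exact h1

theorem bdp_cf {ι : Type*} [DecidableEq ι] {n : ℕ} (k : ℕ) (C : Fin n → Finset (Sym2 ι))
    (g : Finset (Sym2 ι)) : |cf k C g| ≤ 1 := by
  unfold cf
  split_ifs <;> simp

theorem bdp_abs {ι : Type*} {n : ℕ} {P : Pm n} {d : ℕ} {a : ℕ → ℝ} {ε D Λ ρ : ℝ} {KV Kx : ℕ}
    (hP : Pk n P d a ε D Λ ρ KV Kx) {m : ℕ} {F : Finset (Sym2 ι)} (hF : F.card ≤ m)
    (z : ι → Ev n) : |∏ e ∈ F, (1 + P.ψ (xe (vw z) e))| ≤ (1 + Λ) ^ m := by
  have hΛ := hP.Λ1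
  have hΛ1 : (1 : ℝ) ≤ 1 + Λ := by linarith
  rw [Finset.abs_prod]
  calc ∏ e ∈ F, |1 + P.ψ (xe (vw z) e)| ≤ ∏ e ∈ F, (1 + Λ) :=
        Finset.prod_le_prod (fun _ _ => abs_nonneg _) fun e _ => hP.abs_one_ψ (xe_even z e)
    _ = (1 + Λ) ^ F.card := by rw [Finset.prod_const]
    _ ≤ _ := pow_le_pow_right₀ hΛ1 hF

/-- a kernel bound with `B = ∅` bounds the mean square -/
theorem bdp_sq {ι : Type*} [Fintype ι] [DecidableEq ι] {Γ : Type*} [Fintype Γ] [DecidableEq Γ]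
    {R : Finset ι} {V : (ι → Γ) → ℝ} {c : ℝ} (hc : 0 ≤ c) {x : ι → Γ} (h : KB R ∅ V c x) :
    sm R (fun z => V z ^ 2) x ≤ c := by
  have h1 := h V (fun _ => 1) (by
    intro x z hxz
    have : z = x := funext fun v => hxz v (by simp)
    rw [this]) (fun _ _ _ => rfl)
  have e1 : sm (R ∪ ∅) (fun z => V z * V z * 1) x = sm R (fun z => V z ^ 2) x := by
    rw [Finset.union_empty]
    exact sm_congr fun z _ => by ring
  have e2 : sm ∅ (fun _ : ι → Γ => (1 : ℝ) ^ 2) x = 1 := by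
    rw [sm_empty, one_pow]
  rw [e1, e2, mul_one] at h1
  have h0 : 0 ≤ sm R (fun z => V z ^ 2) x := sm_nonneg fun z => by positivity
  rcases h0.eq_or_lt with h2 | h2
  · rw [← h2]; exact hc
  · rw [sq] at h1
    exact le_of_mul_le_mul_right h1 h2

theorem bdp_num {m r : ℕ} {L Λ M η e K N : ℝ} (hL : 0 ≤ L) (hΛ : 1 ≤ Λ) (hM : 1 ≤ M)
    (he : 0 ≤ e) (he1 : M * e ≤ 1) (hr : 1 ≤ r) (hrm : r ≤ m) (hN : 0 ≤ N)
    (h1 : (L * (1 + Λ) ^ (3 * m)) ^ 2 * (M * e) ≤ η ^ 2) :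
    ((1 + Λ) ^ m) ^ 2 * ((K * L) ^ 2 * 2 ^ r * e ^ r * N ^ r) ≤
      (K * 2 ^ m * η) ^ 2 * (N / M) ^ r := by
  have hM0 : 0 < M := by linarith
  have hΛ1 : (1 : ℝ) ≤ 1 + Λ := by linarith
  have h2 : (2 : ℝ) ^ r ≤ (2 ^ m) ^ 2 := by
    rw [← pow_mul]
    exact pow_le_pow_right₀ (by norm_num) (by omega)
  have h3 : (M * e) ^ r ≤ M * e := by
    calc (M * e) ^ r ≤ (M * e) ^ 1 := pow_le_pow_of_le_one (by positivity) he1 hr
      _ = M * e := pow_one _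
  have h6 : (L * (1 + Λ) ^ m) ^ 2 ≤ (L * (1 + Λ) ^ (3 * m)) ^ 2 := by
    refine pow_le_pow_left₀ (by positivity) ?_ 2
    exact mul_le_mul_of_nonneg_left (pow_le_pow_right₀ hΛ1 (by omega)) hL
  have h4 : (L * (1 + Λ) ^ m) ^ 2 * (M * e) ^ r ≤ η ^ 2 :=
    le_trans (mul_le_mul h6 h3 (by positivity) (by positivity)) h1
  have e1 : (N / M) ^ r = N ^ r * (M ^ r)⁻¹ := by rw [div_pow, div_eq_mul_inv]
  rw [e1]
  have e2 : ((1 + Λ) ^ m) ^ 2 * ((K * L) ^ 2 * 2 ^ r * e ^ r * N ^ r) =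
      K ^ 2 * N ^ r * (M ^ r)⁻¹ * (2 ^ r * ((L * (1 + Λ) ^ m) ^ 2 * (M * e) ^ r)) := by
    rw [mul_pow M e]
    field_simp
  rw [e2]
  calc K ^ 2 * N ^ r * (M ^ r)⁻¹ * (2 ^ r * ((L * (1 + Λ) ^ m) ^ 2 * (M * e) ^ r)) ≤
        K ^ 2 * N ^ r * (M ^ r)⁻¹ * ((2 ^ m) ^ 2 * η ^ 2) := by
          refine mul_le_mul_of_nonneg_left ?_ (by positivity)
          exact mul_le_mul h2 h4 (by positivity) (by positivity)
    _ = _ := by ring

theorem bdp_num0 {m q : ℕ} {L Λ η ε K : ℝ} (hL : 0 ≤ L) (hΛ : 1 ≤ Λ)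
    (hε : 0 ≤ ε) (h1 : (L * (1 + Λ) ^ (3 * m)) ^ 2 * ε ^ q ≤ η ^ 2) :
    ((1 + Λ) ^ m) ^ 2 * ((K * L) ^ 2 * ε ^ q) ≤ (K * 2 ^ m * η) ^ 2 := by
  have hΛ1 : (1 : ℝ) ≤ 1 + Λ := by linarith
  have h6 : (L * (1 + Λ) ^ m) ^ 2 ≤ (L * (1 + Λ) ^ (3 * m)) ^ 2 := by
    refine pow_le_pow_left₀ (by positivity) ?_ 2
    exact mul_le_mul_of_nonneg_left (pow_le_pow_right₀ hΛ1 (by omega)) hL
  have h4 : (L * (1 + Λ) ^ m) ^ 2 * ε ^ q ≤ η ^ 2 :=
    le_trans (mul_le_mul_of_nonneg_right h6 (by positivity)) h1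
  have h5 : (1 : ℝ) ≤ (2 ^ m) ^ 2 := one_le_pow₀ (one_le_pow₀ (by norm_num))
  calc _ = K ^ 2 * (1 * ((L * (1 + Λ) ^ m) ^ 2 * ε ^ q)) := by ring
    _ ≤ K ^ 2 * ((2 ^ m) ^ 2 * η ^ 2) := by
        refine mul_le_mul_of_nonneg_left ?_ (by positivity)
        exact mul_le_mul h5 h4 (by positivity) (by positivity)
    _ = _ := by ring

/-- the mean square of a block function, the other vertices are fixed and good -/
theorem bdp_nre {K : ℝ} {m : ℕ} (hK1 : 1 ≤ K)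
    (hK : ∀ {ε : Type} [DecidableEq ε] (c : Finset ε → ℝ) (g : Finset ε), g.card ≤ m →
      (∀ b ⊆ g, |c b| ≤ 1) → |cum c g| ≤ K)
    {ι : Type} [Fintype ι] [DecidableEq ι] (hcard : Fintype.card ι ^ 2 ≤ m) {n : ℕ} {P : Pm n}
    {d : ℕ} {a : ℕ → ℝ} {ε D Λ ρ : ℝ} {KV Kx : ℕ} (hP : Pk n P d a ε D Λ ρ KV Kx)
    {b : Finset (Sym2 ι)} (hb : ∀ e ∈ b, ¬ e.IsDiag) {R : Finset ι}
    {θ : ℕ} (hθ : ∀ C : Fin n → Finset (Sym2 ι), (∀ i, C i ⊆ b) → cum (cf P.k C) b ≠ 0 →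
      (∀ e ∈ b, P.k ≤ oc C {e}) → (θ : ℤ) ≤ 2 * cost R ∅ C) {x : ι → Ev n}
    (hx : gd (okw n d) x (vs b \ R)) :
    sm R (fun z : ι → Ev n => Vb P (vw z) b ^ 2) x ≤
      (K * Lc n m (Kx + 1) D ε) ^ 2 * 2 ^ R.card * ε ^ θ *
        (Fintype.card (Ev n) : ℝ) ^ R.card := by
  have hm : b.card ≤ m := bdp_card hcard b
  have hε := hP.ε0
  have hn := nre hP.n0 (A := R) (B := ∅) (Finset.disjoint_empty_right _) hb hm hP.ε0 hP.ε1 hP.D1
    (c₀ := K) (by linarith) (K := Kx + 1) (f := fun _ => P.f)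
    (c := fun C => cum (cf P.k C) b)
    (fun _ _ j => hP.f_le j) (fun _ _ j hj => hP.f_zero hj)
    (fun C => hK _ b hm fun b' _ => bdp_cf _ _ _)
    (fun C σ => by simp only [perm_cf])
    (θ := θ)
    (fun C hC hc hf => hθ C hC hc fun e he => (hP.f_low (hf e he)).1)
    x
    (by
      intro u hu v hv hu' hv' huv
      rw [Finset.union_empty] at hu' hv'
      exact hP.okw_abs (hx u (Finset.mem_sdiff.2 ⟨hu, hu'⟩) v (Finset.mem_sdiff.2 ⟨hv, hv'⟩) huv))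
  rw [Finset.card_empty, add_zero] at hn
  exact bdp_sq (by positivity) hn

theorem bdp (m : ℕ) : ∃ C : ℝ, 1 ≤ C ∧
    ∀ {ι : Type} [Fintype ι] [DecidableEq ι] (_ : Fintype.card ι ^ 2 ≤ m) {n : ℕ} {P : Pm n} {d : ℕ}
      {a : ℕ → ℝ} {ε D Λ ρ : ℝ} {KV Kx : ℕ} (_ : Pk n P d a ε D Λ ρ KV Kx) {t : ℕ} {M η : ℝ}
      {Ks : ℕ → ℕ} (_ : Nk n m t P.k ε D Λ ρ M η KV Kx Ks),
      Blk (okw n d) M (C * η) (fun (z : ι → Ev n) b => ub P (vw z) b) := by
  obtain ⟨K, hK1, hK⟩ := cum_bound m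
  refine ⟨K * 2 ^ m, one_le_mul_of_one_le_of_one_le hK1 (one_le_pow₀ (by norm_num)), ?_⟩
  intro ι _ _ hcard n P d a ε D Λ ρ KV Kx hP t M η Ks hN
  have hM := hN.M1
  have hη := hN.η0
  have hΛ := hP.Λ1
  have hε := hP.ε0
  have hK0 : 0 ≤ K := by linarith
  have hL : 1 ≤ Lc n m (Kx + 1) D ε := one_le_Lc hP.D1
  refine ⟨fun _ _ h => okw_symm h, bdp_dep P, ?_, ?_⟩
  · intro x S hx e he
    have h1 : ub P (vw x) {e} = 1 + P.φ (xe (vw x) e) := by
      unfold ub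
      rw [if_pos (Finset.card_singleton e), Finset.prod_singleton]
    have h2 : |P.φ (xe (vw x) e)| ≤ 1 / 2 := by
      obtain ⟨h3, h4⟩ := Finset.mem_filter.1 he
      have hev := xe_even x e
      induction e using Sym2.ind with
      | _ u v =>
        have huv : u ≠ v := fun h => h4 (Sym2.mk_isDiag_iff.2 h)
        have h5 := hx u (Finset.mem_sym2_iff.1 h3 u (Sym2.mem_mk_left u v)) v
          (Finset.mem_sym2_iff.1 h3 v (Sym2.mem_mk_right u v)) huv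
        exact (hP.good _ hev h5.1 h5.2).1
    rw [h1]
    have h3 := abs_le.1 h2
    constructor <;> linarith [h3.1, h3.2]
  · intro S₀ b hb2 hb he R hR x
    obtain ⟨e, heb, heS⟩ := he
    have hRb : R ⊆ vs b := by
      intro v hv
      have h1 := Finset.mem_sdiff.1 (hR hv)
      exact (Finset.mem_union.1 h1.1).resolve_left h1.2
    have hRS : Disjoint S₀ R := by
      rw [Finset.disjoint_left]
      intro v h1 h2
      exact (Finset.mem_sdiff.1 (hR h2)).2 h1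
    have hRm : R.card ≤ m := by
      refine (Finset.card_le_univ R).trans (le_trans ?_ hcard)
      exact Nat.le_self_pow (by norm_num) _
    have hpos : (0 : ℝ) ≤ (K * 2 ^ m * η) ^ 2 * ((Fintype.card (Ev n) : ℝ) / M) ^ R.card := by
      positivity
    by_cases hgx : gd (okw n d) x (vs b \ R)
    · refine le_trans (sm_mono
        (G := fun z : ι → Ev n => ((1 + Λ) ^ m) ^ 2 * Vb P (vw z) b ^ 2) fun z _ => ?_) ?_
      · have h2 : ub P (vw z) b ^ 2 ≤ ((1 + Λ) ^ m) ^ 2 * Vb P (vw z) b ^ 2 := by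
          unfold ub
          rw [if_neg (by omega), mul_pow, mul_comm]
          refine mul_le_mul_of_nonneg_right ?_ (by positivity)
          rw [← sq_abs]
          exact pow_le_pow_left₀ (abs_nonneg _) (bdp_abs hP (bdp_card hcard b) z) 2
        split_ifs
        · exact h2
        · positivity
      rw [sm_const_mul]
      rcases R.eq_empty_or_nonempty with h0 | h0
      · have h2 := bdp_nre hK1 hK hcard hP hb (R := ∅) (θ := 2 * P.k / 3) (by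
          intro C hC hc hl
          have := costp0 hb hb2 hC hl hc
          omega) (x := x) (by rw [← h0]; exact hgx)
        rw [h0]
        rw [Finset.card_empty, pow_zero, pow_zero, mul_one, mul_one] at h2
        rw [Finset.card_empty, pow_zero, mul_one]
        exact (mul_le_mul_of_nonneg_left h2 (by positivity)).trans
          (bdp_num0 (by linarith) hΛ hε.le hN.h2)
      · have h2 := bdp_nre hK1 hK hcard hP hb (R := R) (θ := P.k * R.card) (by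
          intro C hC hc hl
          have h3 := costp (A := R) hb hC hl hc ⟨e, heb, Finset.disjoint_of_subset_left heS hRS⟩
          rw [Finset.inter_eq_right.2 hRb] at h3
          push_cast
          exact h3) hgx
        rw [pow_mul] at h2
        exact (mul_le_mul_of_nonneg_left h2 (by positivity)).trans
          (bdp_num (by linarith) hΛ hM (by positivity) hN.mek h0.card_pos hRm (by positivity)
            hN.h1)
    · have h0 : sm R (fun _ : ι → Ev n => (0 : ℝ)) x = 0 := by simp [sm]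
      refine le_trans (le_of_eq (Eq.trans (sm_congr (G := fun _ => 0) fun z hz => ?_) h0)) hpos
      rw [if_neg]
      intro h
      refine hgx ?_
      have h3 : gd (okw n d) z (vs b \ R) :=
        gd_mono h (Finset.sdiff_subset.trans Finset.subset_union_right)
      exact (gd_congr fun v hv => (hz v (Finset.mem_sdiff.1 hv).2)).1 h3

end Pool.Agent.Lib.MP_0430e4_lc.L3
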