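import Pool.Agent.Lib.MP_0430e4_lc.L3.SMR

/-!
# BDR: rules for the bounds `Bd`

PROOF. `bd_mul` (chain rule): let `R ⊆ (S₂ ∪ S₃) \ S₀`, `R₂ = R ∩ S₂`, `R₃ = R \ S₂ ⊆ S₃ \ S₀'` (since `S₀' ⊆ S₀ ∪ S₂`). `sm_union`, `1[gd (S₂ ∪ S₃)] f² g² ≤ (1[gd S₂] f²) (1[gd S₃] g²)`, the first factor does not depend on `R₃`
(`sm_mul`), `sm R₃ (1[gd S₃] g²) ≤ c'² (N/M)^|R₃|`, then `sm R₂ (1[gd S₂] f²) ≤ c² (N/M)^|R₂|`. `bd_add`: Minkowski. `bd_abs`: `R = ∅`.
-/

set_option autoImplicit false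

namespace Pool.Agent.Lib.MP_0430e4_lc.L3

open Finset

variable {ι : Type*} [Fintype ι] [DecidableEq ι] {Γ : Type*} [Fintype Γ] [DecidableEq Γ]
  {ok : Γ → Γ → Prop} {M : ℝ} {S₀ S₁ : Finset ι}

theorem bdr_pow_nonneg (hM : 0 < M) (k : ℕ) : 0 ≤ ((Fintype.card Γ : ℝ) / M) ^ k :=
  pow_nonneg (div_nonneg (Nat.cast_nonneg _) hM.le) k

theorem bd_mono {c c' : ℝ} {F : (ι → Γ) → ℝ} (hM : 0 < M) (h : Bd ok M S₀ S₁ c F) (hc : 0 ≤ c)
    (hcc : c ≤ c') : Bd ok M S₀ S₁ c' F := by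
  intro R hR x
  refine (h R hR x).trans ?_
  exact mul_le_mul_of_nonneg_right (pow_le_pow_left₀ hc hcc 2) (bdr_pow_nonneg hM _)

/-- fewer variables -/
theorem bd_base {S₀' : Finset ι} {c : ℝ} {F : (ι → Γ) → ℝ} (h : Bd ok M S₀ S₁ c F)
    (hS : S₀ ⊆ S₀') : Bd ok M S₀' S₁ c F := by
  intro R hR x
  exact h R (hR.trans (sdiff_subset_sdiff (Subset.refl _) hS)) x

/-- more fixed vertices -/
theorem bd_union {c : ℝ} {F : (ι → Γ) → ℝ} (hM : 0 < M) (h : Bd ok M S₀ S₁ c F) (T : Finset ι) :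
    Bd ok M (S₀ ∪ T) (S₁ ∪ T) c F := by
  intro R hR x
  have hR' : R ⊆ S₁ \ S₀ := by
    intro v hv
    have := mem_sdiff.1 (hR hv)
    rw [mem_union, mem_union] at this
    rw [mem_sdiff]
    tauto
  refine le_trans (sm_mono ?_) (h R hR' x)
  intro z _
  split_ifs with h1 h2
  · exact le_rfl
  · exact absurd (gd_mono h1 subset_union_left) h2
  · exact sq_nonneg _
  · exact le_rfl

theorem bd_congr {c : ℝ} {F G : (ι → Γ) → ℝ} (h : Bd ok M S₀ S₁ c F)
    (hFG : ∀ x, gd ok x S₁ → F x = G x) : Bd ok M S₀ S₁ c G := by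
  intro R hR x
  refine le_trans (le_of_eq (sm_congr ?_)) (h R hR x)
  intro z _
  split_ifs with h1
  · rw [hFG z h1]
  · rfl

theorem bd_zero (hM : 0 < M) (c : ℝ) : Bd ok M S₀ S₁ c (fun _ : ι → Γ => 0) := by
  classical
  intro R hR x
  have h0 : sm R (fun z : ι → Γ => if gd ok z S₁ then (0 : ℝ) ^ 2 else 0) x = 0 := by
    unfold sm
    apply Finset.sum_eq_zero
    intro z _
    split_ifs <;> simp
  calc _ = sm R (fun z : ι → Γ => if gd ok z S₁ then (0 : ℝ) ^ 2 else 0) x := by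
        apply sm_congr
        intro z _
        split_ifs <;> rfl
    _ = 0 := h0
    _ ≤ _ := mul_nonneg (sq_nonneg _) (bdr_pow_nonneg hM _)

theorem bd_self {c : ℝ} {F : (ι → Γ) → ℝ} (h : ∀ x, gd ok x S₁ → |F x| ≤ c) :
    Bd ok M S₁ S₁ c F := by
  intro R hR x
  have hR0 : R = ∅ := by
    rw [sdiff_self] at hR
    exact subset_empty.1 hR
  subst hR0
  rw [sm_empty, card_empty, pow_zero, mul_one]
  split_ifs with h1
  · rw [← sq_abs (F x)]
    exact pow_le_pow_left₀ (abs_nonneg _) (h x h1) 2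
  · exact sq_nonneg _

theorem bd_abs {c : ℝ} (hc : 0 ≤ c) {F : (ι → Γ) → ℝ} (h : Bd ok M S₀ S₁ c F) {x : ι → Γ}
    (hx : gd ok x S₁) : |F x| ≤ c := by
  have h1 := h ∅ (empty_subset _) x
  rw [sm_empty, card_empty, pow_zero, mul_one] at h1
  rw [if_pos hx] at h1
  exact abs_le_of_sq_le_sq h1 hc

theorem bd_add {c c' : ℝ} {F G : (ι → Γ) → ℝ} (hM : 0 < M) (hc : 0 ≤ c) (hc' : 0 ≤ c')
    (h : Bd ok M S₀ S₁ c F) (h' : Bd ok M S₀ S₁ c' G) :
    Bd ok M S₀ S₁ (c + c') (fun x => F x + G x) := by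
  classical
  intro R hR x
  have hF := h R hR x
  have hG := h' R hR x
  set t : ℝ := ((Fintype.card Γ : ℝ) / M) ^ R.card with ht
  have ht0 : 0 ≤ t := bdr_pow_nonneg hM _
  set F' : (ι → Γ) → ℝ := fun z => if gd ok z S₁ then F z else 0 with hF'
  set G' : (ι → Γ) → ℝ := fun z => if gd ok z S₁ then G z else 0 with hG'
  have eF : sm R (fun z => F' z ^ 2) x ≤ c ^ 2 * t := by
    refine le_trans (le_of_eq (sm_congr ?_)) hF
    intro z _
    simp only [hF']
    split_ifs <;> simp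
  have eG : sm R (fun z => G' z ^ 2) x ≤ c' ^ 2 * t := by
    refine le_trans (le_of_eq (sm_congr ?_)) hG
    intro z _
    simp only [hG']
    split_ifs <;> simp
  have cs := sm_cs R F' G' x
  have nF : 0 ≤ sm R (fun z => F' z ^ 2) x := sm_nonneg fun z => sq_nonneg _
  have nG : 0 ≤ sm R (fun z => G' z ^ 2) x := sm_nonneg fun z => sq_nonneg _
  have cross : sm R (fun z => F' z * G' z) x ≤ c * c' * t := by
    apply le_of_abs_le
    apply abs_le_of_sq_le_sq
    · calc sm R (fun z => F' z * G' z) x ^ 2 ≤ _ := cs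
        _ ≤ (c ^ 2 * t) * (c' ^ 2 * t) :=
            mul_le_mul eF eG nG (mul_nonneg (sq_nonneg _) ht0)
        _ = (c * c' * t) ^ 2 := by ring
    · positivity
  have e1 : sm R (fun z => if gd ok z S₁ then (F z + G z) ^ 2 else 0) x =
      sm R (fun z => F' z ^ 2) x + sm R (fun z => 2 * (F' z * G' z)) x +
        sm R (fun z => G' z ^ 2) x := by
    rw [← sm_add, ← sm_add]
    apply sm_congr
    intro z _
    simp only [hF', hG']
    split_ifs
    · ring
    · simp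
  calc _ = sm R (fun z => if gd ok z S₁ then (F z + G z) ^ 2 else 0) x := by
        apply sm_congr
        intro z _
        split_ifs <;> rfl
    _ = _ := e1
    _ = sm R (fun z => F' z ^ 2) x + 2 * sm R (fun z => F' z * G' z) x +
        sm R (fun z => G' z ^ 2) x := by rw [sm_const_mul]
    _ ≤ c ^ 2 * t + 2 * (c * c' * t) + c' ^ 2 * t := by linarith
    _ = (c + c') ^ 2 * t := by ring

theorem bd_sum {κ : Type*} (s : Finset κ) {c : ℝ} {F : κ → (ι → Γ) → ℝ} (hM : 0 < M) (hc : 0 ≤ c)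
    (h : ∀ j ∈ s, Bd ok M S₀ S₁ c (F j)) :
    Bd ok M S₀ S₁ (s.card * c) (fun x => ∑ j ∈ s, F j x) := by
  classical
  induction s using Finset.induction_on with
  | empty => 
    simp only [sum_empty, card_empty, Nat.cast_zero, zero_mul]
    exact bd_zero hM 0
  | insert a s ha ih =>
    have h1 := ih fun j hj => h j (mem_insert_of_mem hj)
    have h2 := h a (mem_insert_self _ _)
    have h3 := bd_add hM hc (mul_nonneg (Nat.cast_nonneg _) hc) h2 h1
    have e : ((insert a s).card : ℝ) * c = c + s.card * c := by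
      rw [card_insert_of_notMem ha]; push_cast; ring
    rw [e]
    refine bd_congr h3 ?_
    intro x _
    rw [sum_insert ha]

/-- multiplication by a bounded function -/
theorem bd_bdd {c C : ℝ} {F G : (ι → Γ) → ℝ} (hM : 0 < M) (hC : 0 ≤ C)
    (h : Bd ok M S₀ S₁ c F) (hG : ∀ x, gd ok x S₁ → |G x| ≤ C) :
    Bd ok M S₀ S₁ (C * c) (fun x => G x * F x) := by
  classical
  intro R hR x
  have hF := h R hR x
  set t : ℝ := ((Fintype.card Γ : ℝ) / M) ^ R.card with ht
  calc _ ≤ sm R (fun z => C ^ 2 * (if gd ok z S₁ then F z ^ 2 else 0)) x := by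
        apply sm_mono
        intro z _
        split_ifs with h1
        · rw [mul_pow]
          apply mul_le_mul_of_nonneg_right _ (sq_nonneg _)
          rw [← sq_abs (G z)]
          exact pow_le_pow_left₀ (abs_nonneg _) (hG z h1) 2
        · simp
    _ = C ^ 2 * sm R (fun z => if gd ok z S₁ then F z ^ 2 else 0) x := sm_const_mul _ _ _ _
    _ ≤ C ^ 2 * (c ^ 2 * t) := mul_le_mul_of_nonneg_left hF (sq_nonneg _)
    _ = (C * c) ^ 2 * t := by ring

/-- the chain rule -/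
theorem bd_mul {S₀' S₂ S₃ : Finset ι} {c c' : ℝ} {f g : (ι → Γ) → ℝ} (hM : 0 < M)
    (hf : Dep S₂ f) (hg : Dep S₃ g) (h : Bd ok M S₀ S₂ c f) (h' : Bd ok M S₀' S₃ c' g)
    (hS : S₀' ⊆ S₀ ∪ S₂) : Bd ok M S₀ (S₂ ∪ S₃) (c * c') (fun x => f x * g x) := by
  classical
  intro R hR x
  set R₂ := R ∩ S₂ with hR₂
  set R₃ := R \ S₂ with hR₃
  have hu : R₂ ∪ R₃ = R := by
    rw [hR₂, hR₃, union_comm]
    exact sdiff_union_inter R S₂
  have hd : Disjoint R₂ R₃ := by
    rw [hR₂, hR₃]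
    exact (disjoint_sdiff_inter R S₂).symm
  have hcard : R.card = R₂.card + R₃.card := by rw [← hu, card_union_of_disjoint hd]
  have hR₂' : R₂ ⊆ S₂ \ S₀ := by
    intro v hv
    rw [hR₂, mem_inter] at hv
    have := mem_sdiff.1 (hR hv.1)
    rw [mem_sdiff]
    exact ⟨hv.2, this.2⟩
  have hR₃' : R₃ ⊆ S₃ \ S₀' := by
    intro v hv
    rw [hR₃, mem_sdiff] at hv
    have h1 := mem_sdiff.1 (hR hv.1)
    rw [mem_sdiff]
    refine ⟨(mem_union.1 h1.1).resolve_left hv.2, fun h2 => ?_⟩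
    rcases mem_union.1 (hS h2) with h3 | h3
    · exact h1.2 h3
    · exact hv.2 h3
  set f' : (ι → Γ) → ℝ := fun z => if gd ok z S₂ then f z ^ 2 else 0 with hf'
  set g' : (ι → Γ) → ℝ := fun z => if gd ok z S₃ then g z ^ 2 else 0 with hg'
  have nf : ∀ z, 0 ≤ f' z := by
    intro z
    simp only [hf']
    split_ifs
    · exact sq_nonneg _
    · exact le_rfl
  have ng : ∀ z, 0 ≤ g' z := by
    intro z
    simp only [hg']
    split_ifs
    · exact sq_nonneg _
    · exact le_rfl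
  have hind : Ind R₃ f' := by
    intro y z hyz
    have hv : ∀ v ∈ S₂, z v = y v := by
      intro v hv
      apply hyz
      rw [hR₃, mem_sdiff]
      exact fun h => h.2 hv
    simp only [hf']
    have e1 := hf y z hv
    by_cases h1 : gd ok y S₂
    · rw [if_pos h1, if_pos ((gd_congr hv).2 h1), e1]
    · rw [if_neg h1, if_neg (fun h2 => h1 ((gd_congr hv).1 h2))]
  have hA : sm R₂ f' x ≤ c ^ 2 * ((Fintype.card Γ : ℝ) / M) ^ R₂.card := by
    refine le_trans (le_of_eq (sm_congr ?_)) (h R₂ hR₂' x)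
    intro z _
    simp only [hf']
  have hB : ∀ z, sm R₃ g' z ≤ c' ^ 2 * ((Fintype.card Γ : ℝ) / M) ^ R₃.card := by
    intro z
    refine le_trans (le_of_eq (sm_congr ?_)) (h' R₃ hR₃' z)
    intro z _
    simp only [hg']
  calc _ ≤ sm R (fun z => f' z * g' z) x := by
        apply sm_mono
        intro z _
        split_ifs with h1
        · simp only [hf', hg']
          rw [if_pos (gd_mono h1 subset_union_left), if_pos (gd_mono h1 subset_union_right),
            mul_pow]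
        · exact mul_nonneg (nf z) (ng z)
    _ = sm (R₂ ∪ R₃) (fun z => f' z * g' z) x := by rw [hu]
    _ = sm R₂ (fun z => sm R₃ (fun y => f' y * g' y) z) x := sm_union hd _ _
    _ = sm R₂ (fun z => f' z * sm R₃ g' z) x := by
        apply sm_congr
        intro z _
        exact sm_mul hind g' z
    _ ≤ sm R₂ (fun z => (c' ^ 2 * ((Fintype.card Γ : ℝ) / M) ^ R₃.card) * f' z) x := by
        apply sm_mono
        intro z _
        rw [mul_comm]
        exact mul_le_mul_of_nonneg_right (hB z) (nf z)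
    _ = (c' ^ 2 * ((Fintype.card Γ : ℝ) / M) ^ R₃.card) * sm R₂ f' x := sm_const_mul _ _ _ _
    _ ≤ (c' ^ 2 * ((Fintype.card Γ : ℝ) / M) ^ R₃.card) *
          (c ^ 2 * ((Fintype.card Γ : ℝ) / M) ^ R₂.card) :=
        mul_le_mul_of_nonneg_left hA (mul_nonneg (sq_nonneg _) (bdr_pow_nonneg hM _))
    _ = (c * c') ^ 2 * ((Fintype.card Γ : ℝ) / M) ^ R.card := by
        rw [hcard, pow_add]
        ring

end Pool.Agent.Lib.MP_0430e4_lc.L3
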