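import Pool.Agent.Lib.MP_0430e4_lc.L3.Defs

/-!
# COLK: inequalities for the cost of a column

PROOF. See /team-store/L3_PROOF.md, section 6, (C1)-(C3). `par (F ∪ N) = par F ∆ par N` for disjoint `F`, `N`; `(par F).card` is even;
`par {s(u,v)} = {u, v}`. In `kap_step` the other ends `w` of the edges of `N₁` are different, not in `vs F`, not in `vs N₂`, so they are in `par (F ∪ N₁ ∪ N₂)`.
(C1): `F` bipartite between `A` and `B`: if `par F` meets both sides, `kap = |F|` and `|par F| ≤ 2 |F|`; if `par F ∩ A = ∅` and `par F ≠ ∅`: all degrees in `A` are even, so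
`|F| ≥ 2`, `|par F| ≤ |F|` and `kap = |F| - 1`; if `par F = ∅`: `|F| ≥ 2`, `kap = |F| - 2`.
(C2): start with `xed A B F` (C1; if it is empty use `kap_nonneg`) and note `|xed| ≤ 2 kap (xed)` (cases as before), then add the other edges of `F` one by one (`kap_step` with `N₁ = ∅`).
-/

set_option autoImplicit false

namespace Pool.Agent.Lib.MP_0430e4_lc.L3

open Finset

variable {ι : Type*} [DecidableEq ι]

theorem mem_vs {g : Finset (Sym2 ι)} {v : ι} : v ∈ vs g ↔ ∃ e ∈ g, v ∈ e := by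
  simp only [vs, mem_biUnion, Sym2.mem_toFinset]

theorem colk_mem_dl {F : Finset (Sym2 ι)} {v : ι} {e : Sym2 ι} : e ∈ dl F v ↔ e ∈ F ∧ v ∈ e := by
  simp only [dl, mem_filter]

theorem colk_mem_par {F : Finset (Sym2 ι)} {v : ι} : v ∈ par F ↔ Odd (dl F v).card := by
  simp only [par, mem_filter, and_iff_right_iff_imp]
  intro h
  obtain ⟨e, he⟩ := card_pos.1 h.pos
  rw [colk_mem_dl] at he
  exact mem_vs.2 ⟨e, he.1, he.2⟩

theorem colk_par_vs {F : Finset (Sym2 ι)} {v : ι} (h : v ∈ par F) : v ∈ vs F :=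
  (mem_filter.1 h).1

theorem colk_dl_union {F N : Finset (Sym2 ι)} (h : Disjoint F N) (v : ι) :
    (dl (F ∪ N) v).card = (dl F v).card + (dl N v).card := by
  rw [dl, filter_union]
  exact card_union_of_disjoint (disjoint_filter_filter h)

theorem colk_par_union {F N : Finset (Sym2 ι)} (h : Disjoint F N) :
    par (F ∪ N) = symmDiff (par F) (par N) := by
  ext v
  rw [mem_symmDiff, colk_mem_par, colk_mem_par, colk_mem_par, colk_dl_union h, Nat.odd_add,
    ← Nat.not_odd_iff_even]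
  tauto

theorem colk_par_empty : par (∅ : Finset (Sym2 ι)) = ∅ := by
  simp [par, vs]

theorem colk_par_single {e : Sym2 ι} (he : ¬ e.IsDiag) : par {e} = e.toFinset := by
  ext v
  rw [colk_mem_par, dl, filter_singleton, Sym2.mem_toFinset]
  by_cases h : v ∈ e
  · simp [h]
  · simp [h]

theorem colk_card_tf {e : Sym2 ι} (he : ¬ e.IsDiag) : e.toFinset.card = 2 :=
  Sym2.card_toFinset_of_not_isDiag e he

theorem colk_symm_card (X Y : Finset ι) :
    (symmDiff X Y).card + 2 * (X ∩ Y).card = X.card + Y.card := by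
  have h1 : (symmDiff X Y).card = (X \ Y).card + (Y \ X).card := by
    rw [symmDiff_def, sup_eq_union]
    exact card_union_of_disjoint (disjoint_sdiff_sdiff)
  have h2 := card_sdiff_add_card_inter X Y
  have h3 := card_sdiff_add_card_inter Y X
  rw [inter_comm Y X] at h3
  omega

theorem colk_cnt {F : Finset (Sym2 ι)} (S : Finset ι) (hF : ∀ e ∈ F, ¬ e.IsDiag) :
    ∃ m, (par F ∩ S).card + 2 * m = ∑ e ∈ F, (e.toFinset ∩ S).card := by
  induction F using Finset.induction_on with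
  | empty => exact ⟨0, by simp [colk_par_empty]⟩
  | insert e F he ih =>
    obtain ⟨m, hm⟩ := ih (fun x hx => hF x (mem_insert_of_mem hx))
    have hd : Disjoint F {e} := disjoint_singleton_right.2 he
    have h1 : par (insert e F) ∩ S = symmDiff (par F ∩ S) (e.toFinset ∩ S) := by
      rw [insert_eq, union_comm, colk_par_union hd, colk_par_single (hF e (mem_insert_self _ _))]
      ext v
      simp only [mem_inter, mem_symmDiff]
      tauto
    have h2 := colk_symm_card (par F ∩ S) (e.toFinset ∩ S)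
    rw [sum_insert he, h1]
    exact ⟨m + (par F ∩ S ∩ (e.toFinset ∩ S)).card, by omega⟩

theorem colk_vl_le (A B : Finset ι) (F : Finset (Sym2 ι)) : vl A B F ≤ 2 := by
  unfold vl
  split_ifs <;> omega

theorem kap_nonneg {A B : Finset ι} (hAB : Disjoint A B) {F : Finset (Sym2 ι)}
    (hF : ∀ e ∈ F, ¬ e.IsDiag) : 0 ≤ kap A B F := by
  unfold kap
  split_ifs with h
  · exact le_rfl
  · have h2 := colk_vl_le A B F
    rcases Nat.lt_or_ge 1 F.card with hc | hc
    · omega
    · have h1 : F.card = 1 := le_antisymm hc (card_pos.2 (nonempty_iff_ne_empty.2 h))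
      obtain ⟨e, rfl⟩ := card_eq_one.1 h1
      have he := hF e (mem_singleton_self _)
      have : vl A B {e} ≤ 1 := by
        unfold vl
        rw [colk_par_single he, colk_card_tf he]
        split_ifs <;> simp_all
      rw [h1]
      omega

/-- facts about crossing graphs -/
theorem colk_cross {A B : Finset ι} (hAB : Disjoint A B) {F : Finset (Sym2 ι)}
    (hF : ∀ e ∈ F, ¬ e.IsDiag) (hx : xed A B F = F) :
    (∀ e ∈ F, (e.toFinset ∩ A).card = 1 ∧ (e.toFinset ∩ B).card = 1) ∧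
      (par F).card = (par F ∩ A).card + (par F ∩ B).card := by
  have h1 : ∀ e ∈ F, (e.toFinset ∩ A).card = 1 ∧ (e.toFinset ∩ B).card = 1 ∧
      e.toFinset ⊆ A ∪ B := by
    intro e he
    have h2 := colk_card_tf (hF e he)
    rw [← hx] at he
    have h3 := (mem_filter.1 he).2
    have h4 := card_pos.2 h3.1
    have h5 := card_pos.2 h3.2
    have h6 : Disjoint (e.toFinset ∩ A) (e.toFinset ∩ B) :=
      disjoint_of_subset_left inter_subset_right (disjoint_of_subset_right inter_subset_right hAB)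
    have h7 : (e.toFinset ∩ A).card + (e.toFinset ∩ B).card = (e.toFinset ∩ (A ∪ B)).card := by
      rw [inter_union_distrib_left, card_union_of_disjoint h6]
    have h8 : (e.toFinset ∩ (A ∪ B)).card ≤ e.toFinset.card := card_le_card inter_subset_left
    refine ⟨by omega, by omega, ?_⟩
    have h9 : e.toFinset ∩ (A ∪ B) = e.toFinset :=
      eq_of_subset_of_card_le inter_subset_left (by omega)
    rw [← h9]; exact inter_subset_right
  refine ⟨fun e he => ⟨(h1 e he).1, (h1 e he).2.1⟩, ?_⟩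
  have h6 : Disjoint (par F ∩ A) (par F ∩ B) :=
    disjoint_of_subset_left inter_subset_right (disjoint_of_subset_right inter_subset_right hAB)
  rw [← card_union_of_disjoint h6, ← inter_union_distrib_left]
  congr 1
  symm
  apply inter_eq_left.2
  intro v hv
  obtain ⟨e, he, hve⟩ := mem_vs.1 (colk_par_vs hv)
  exact (h1 e he).2.2 (Sym2.mem_toFinset.2 hve)

theorem colk_cross_two {A B : Finset ι} (hAB : Disjoint A B) {F : Finset (Sym2 ι)}
    (hF : ∀ e ∈ F, ¬ e.IsDiag) (hx : xed A B F = F) (hne : F ≠ ∅) (hp : par F = ∅) :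
    4 ≤ F.card := by
  obtain ⟨h1, h2⟩ := colk_cross hAB hF hx
  obtain ⟨m, hm⟩ := colk_cnt A hF
  rw [hp, empty_inter, card_empty, sum_congr rfl (fun e he => (h1 e he).1)] at hm
  simp only [sum_const, smul_eq_mul, mul_one] at hm
  have h3 : 0 < F.card := card_pos.2 (nonempty_iff_ne_empty.2 hne)
  by_contra hcon
  have h4 : F.card = 2 := by omega
  obtain ⟨e, e', hee, rfl⟩ := card_eq_two.1 h4
  have hd : Disjoint ({e} : Finset (Sym2 ι)) {e'} := by simpa using hee
  have h5 : par ({e} ∪ {e'} : Finset (Sym2 ι)) = ∅ := hp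
  rw [colk_par_union hd, colk_par_single (hF e (by simp)), colk_par_single (hF e' (by simp))] at h5
  have h6 : e.toFinset = e'.toFinset := by
    rw [← bot_eq_empty, symmDiff_eq_bot] at h5; exact h5
  apply hee
  apply Sym2.ext
  intro x
  rw [← Sym2.mem_toFinset, ← Sym2.mem_toFinset, h6]

/-- (C1) -/
theorem kap_xed {A B : Finset ι} (hAB : Disjoint A B) {F : Finset (Sym2 ι)}
    (hF : ∀ e ∈ F, ¬ e.IsDiag) (hx : xed A B F = F) : ((par F).card : ℤ) ≤ 2 * kap A B F := by
  obtain ⟨h1, h2⟩ := colk_cross hAB hF hx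
  obtain ⟨m, hm⟩ := colk_cnt A hF
  obtain ⟨m', hm'⟩ := colk_cnt B hF
  rw [sum_congr rfl (fun e he => (h1 e he).1)] at hm
  rw [sum_congr rfl (fun e he => (h1 e he).2)] at hm'
  simp only [sum_const, smul_eq_mul, mul_one] at hm hm'
  by_cases hne : F = ∅
  · subst hne
    simp [colk_par_empty, kap]
  have h3 : 0 < F.card := card_pos.2 (nonempty_iff_ne_empty.2 hne)
  unfold kap vl
  rw [if_neg hne]
  by_cases ha : par F ∩ A = ∅
  · by_cases hb : par F ∩ B = ∅
    · rw [ha, hb] at h2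
      simp only [card_empty, add_zero] at h2
      rw [if_neg (by simp [h2]), if_pos ha, if_pos hb, h2]
      rw [ha, card_empty] at hm
      omega
    · rw [if_neg (by simp [hb]), if_pos ha, if_neg hb]
      rw [ha, card_empty] at hm h2
      omega
  · by_cases hb : par F ∩ B = ∅
    · rw [if_neg (by simp [ha]), if_neg ha, if_pos hb]
      rw [hb, card_empty] at hm' h2
      omega
    · rw [if_neg (by simp [ha]), if_neg ha, if_neg hb]
      omega

theorem colk_kap_xed_card {A B : Finset ι} (hAB : Disjoint A B) {F : Finset (Sym2 ι)}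
    (hF : ∀ e ∈ F, ¬ e.IsDiag) (hx : xed A B F = F) : (F.card : ℤ) ≤ 2 * kap A B F := by
  obtain ⟨h1, h2⟩ := colk_cross hAB hF hx
  obtain ⟨m, hm⟩ := colk_cnt A hF
  obtain ⟨m', hm'⟩ := colk_cnt B hF
  rw [sum_congr rfl (fun e he => (h1 e he).1)] at hm
  rw [sum_congr rfl (fun e he => (h1 e he).2)] at hm'
  simp only [sum_const, smul_eq_mul, mul_one] at hm hm'
  by_cases hne : F = ∅
  · subst hne
    simp [kap]
  have h3 : 0 < F.card := card_pos.2 (nonempty_iff_ne_empty.2 hne)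
  unfold kap vl
  rw [if_neg hne]
  by_cases ha : par F ∩ A = ∅
  · by_cases hb : par F ∩ B = ∅
    · rw [ha, hb] at h2
      simp only [card_empty, add_zero] at h2
      have h4 := colk_cross_two hAB hF hx hne (card_eq_zero.1 h2)
      rw [if_neg (by simp [h2]), if_pos ha, if_pos hb]
      omega
    · rw [if_neg (by simp [hb]), if_pos ha, if_neg hb]
      rw [ha, card_empty] at hm
      omega
  · by_cases hb : par F ∩ B = ∅
    · rw [if_neg (by simp [ha]), if_neg ha, if_pos hb]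
      rw [hb, card_empty] at hm'
      omega
    · rw [if_neg (by simp [ha]), if_neg ha, if_neg hb]
      omega

/-- one non-crossing edge -/
theorem colk_add_one {A B : Finset ι} (hAB : Disjoint A B) {F : Finset (Sym2 ι)} {e : Sym2 ι}
    (hF : ∀ x ∈ F, ¬ x.IsDiag) (he : ¬ e.IsDiag) (hx : xed A B {e} = ∅) :
    kap A B F ≤ kap A B (F ∪ {e}) := by
  by_cases hmem : e ∈ F
  · rw [union_eq_left.2 (singleton_subset_iff.2 hmem)]
  have hd : Disjoint F {e} := disjoint_singleton_right.2 hmem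
  have hF' : ∀ x ∈ F ∪ {e}, ¬ x.IsDiag := by
    intro x hx'
    rcases mem_union.1 hx' with h | h
    · exact hF x h
    · rw [mem_singleton.1 h]; exact he
  by_cases hne : F = ∅
  · rw [show kap A B F = 0 by simp [kap, hne]]
    exact kap_nonneg hAB hF'
  have hx' : ¬ ((e.toFinset ∩ A).Nonempty ∧ (e.toFinset ∩ B).Nonempty) := by
    intro h
    have : e ∈ xed A B {e} := mem_filter.2 ⟨mem_singleton_self _, h⟩
    rw [hx] at this
    exact absurd this (notMem_empty _)
  have hc : (F ∪ {e}).card = F.card + 1 := by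
    rw [card_union_of_disjoint hd, card_singleton]
  have hne' : F ∪ {e} ≠ ∅ := by
    intro h
    rw [h] at hc
    simp at hc
  unfold kap
  rw [if_neg hne, if_neg hne', hc]
  have hpar : par (F ∪ {e}) = symmDiff (par F) e.toFinset := by
    rw [colk_par_union hd, colk_par_single he]
  have key : vl A B (F ∪ {e}) ≤ vl A B F + 1 := by
    by_contra hcon
    have h2 := colk_vl_le A B (F ∪ {e})
    have h3 : vl A B (F ∪ {e}) = 2 := by omega
    have h4 : vl A B F = 0 := by omega
    have h5 : par (F ∪ {e}) ∩ A = ∅ ∧ par (F ∪ {e}) ∩ B = ∅ := by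
      unfold vl at h3
      split_ifs at h3 <;> simp_all
    have h6 : par F ∩ A ≠ ∅ ∧ par F ∩ B ≠ ∅ := by
      unfold vl at h4
      split_ifs at h4 <;> simp_all
    apply hx'
    have h7 : ∀ S : Finset ι, par (F ∪ {e}) ∩ S = ∅ → par F ∩ S ≠ ∅ → (e.toFinset ∩ S).Nonempty := by
      intro S hS hS'
      obtain ⟨v, hv⟩ := nonempty_iff_ne_empty.2 hS'
      refine ⟨v, mem_inter.2 ⟨?_, (mem_inter.1 hv).2⟩⟩
      by_contra hve
      have : v ∈ par (F ∪ {e}) ∩ S := by
        rw [hpar, mem_inter, mem_symmDiff]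
        exact ⟨Or.inl ⟨(mem_inter.1 hv).1, hve⟩, (mem_inter.1 hv).2⟩
      rw [hS] at this
      exact absurd this (notMem_empty _)
    exact ⟨h7 A h5.1 h6.1, h7 B h5.2 h6.2⟩
  omega

/-- adding non-crossing edges -/
theorem colk_add {A B : Finset ι} (hAB : Disjoint A B) {F N : Finset (Sym2 ι)}
    (hF : ∀ x ∈ F, ¬ x.IsDiag) (hN : ∀ x ∈ N, ¬ x.IsDiag) (hx : xed A B N = ∅) :
    kap A B F ≤ kap A B (F ∪ N) := by
  induction N using Finset.induction_on with
  | empty => rw [union_empty]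
  | insert e N he ih =>
    have h1 : xed A B N = ∅ := by
      rw [← subset_empty, ← hx]
      exact filter_subset_filter _ (subset_insert _ _)
    have h2 : xed A B {e} = ∅ := by
      rw [← subset_empty, ← hx]
      exact filter_subset_filter _ (singleton_subset_iff.2 (mem_insert_self _ _))
    have h3 := ih (fun x hx => hN x (mem_insert_of_mem hx)) h1
    have hF' : ∀ x ∈ F ∪ N, ¬ x.IsDiag := by
      intro x hx'
      rcases mem_union.1 hx' with h | h
      · exact hF x h
      · exact hN x (mem_insert_of_mem h)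
    have h4 := colk_add_one hAB hF' (hN e (mem_insert_self _ _)) h2
    rw [show F ∪ insert e N = F ∪ N ∪ {e} by
      rw [insert_eq, union_comm {e} N, union_assoc]]
    exact h3.trans h4

/-- (C2) -/
theorem kap_xed_card {A B : Finset ι} (hAB : Disjoint A B) {F : Finset (Sym2 ι)}
    (hF : ∀ e ∈ F, ¬ e.IsDiag) : ((xed A B F).card : ℤ) ≤ 2 * kap A B F := by
  have hX : ∀ e ∈ xed A B F, ¬ e.IsDiag := fun e he => hF e (mem_filter.1 he).1
  have h1 := colk_kap_xed_card hAB hX (by simp [xed, filter_filter])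
  have h2 := colk_add hAB hX (N := F \ xed A B F) (fun e he => hF e (mem_sdiff.1 he).1) (by
    rw [← subset_empty]
    intro e he
    have h := mem_filter.1 he
    exact absurd (mem_filter.2 ⟨(mem_sdiff.1 h.1).1, h.2⟩) (mem_sdiff.1 h.1).2)
  have hsub : xed A B F ⊆ F := filter_subset _ _
  rw [union_sdiff_of_subset hsub] at h2
  linarith

theorem colk_vl_A {A B : Finset ι} {F : Finset (Sym2 ι)} (h : par F ∩ A ≠ ∅) :
    vl A B F = if par F ∩ B = ∅ then 1 else 0 := by
  unfold vl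
  rw [if_neg (fun h' => h h'.1), if_neg h, zero_add]

theorem colk_vl_comm (A B : Finset ι) (F : Finset (Sym2 ι)) : vl A B F = vl B A F := by
  unfold vl
  by_cases h1 : par F ∩ A = ∅ <;> by_cases h2 : par F ∩ B = ∅ <;> simp [h1, h2]

theorem colk_kap_comm (A B : Finset ι) (F : Finset (Sym2 ι)) : kap A B F = kap B A F := by
  unfold kap
  rw [colk_vl_comm]

theorem colk_xed_comm (A B : Finset ι) (F : Finset (Sym2 ι)) : xed A B F = xed B A F := by
  unfold xed
  ext e
  simp only [mem_filter]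
  tauto

theorem colk_new {F N₁ N₂ : Finset (Sym2 ι)} {v w : ι} {e : Sym2 ι} (hN : ∀ x ∈ N₁, v ∈ x)
    (he : e ∈ N₁) (hw : w ∈ e) (hwv : w ≠ v) (h1 : w ∉ vs F) (h2 : w ∉ vs N₂) :
    w ∈ par (F ∪ (N₁ ∪ N₂)) := by
  rw [colk_mem_par]
  have : dl (F ∪ (N₁ ∪ N₂)) w = {e} := by
    ext x
    rw [colk_mem_dl, mem_union, mem_union, mem_singleton]
    constructor
    · rintro ⟨hx | hx | hx, hwx⟩
      · exact absurd (mem_vs.2 ⟨x, hx, hwx⟩) h1
      · have a1 := (Sym2.mem_and_mem_iff hwv).1 ⟨hwx, hN x hx⟩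
        have a2 := (Sym2.mem_and_mem_iff hwv).1 ⟨hw, hN e he⟩
        rw [a1, a2]
      · exact absurd (mem_vs.2 ⟨x, hx, hwx⟩) h2
    · rintro rfl
      exact ⟨Or.inr (Or.inl he), hw⟩
  rw [this, card_singleton]
  exact odd_one

theorem colk_step_A {A B : Finset ι} (hAB : Disjoint A B) {F N₁ N₂ : Finset (Sym2 ι)} {v w : ι}
    {e : Sym2 ι} (hN : ∀ e ∈ N₁ ∪ N₂, v ∈ e ∧ ¬ e.IsDiag)
    (hx : xed A B (N₁ ∪ N₂) = ∅) (hd1 : Disjoint F (N₁ ∪ N₂)) (hd2 : Disjoint N₁ N₂)
    (hnew : ∀ e ∈ N₁, ∀ w ∈ e, w ≠ v → w ∈ A ∪ B ∧ w ∉ vs F ∧ w ∉ vs N₂)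
    (he : e ∈ N₁) (hwe : w ∈ e) (hwv : w ≠ v) (hwA : w ∈ A) :
    kap A B F + N₁.card - (if F ∪ N₂ = ∅ then 1 else 0) ≤ kap A B (F ∪ (N₁ ∪ N₂)) := by
  obtain ⟨-, hw1, hw2⟩ := hnew e he w hwe hwv
  have hwp : w ∈ par (F ∪ (N₁ ∪ N₂)) :=
    colk_new (fun x hx => (hN x (mem_union_left _ hx)).1) he hwe hwv hw1 hw2
  have hpA : par (F ∪ (N₁ ∪ N₂)) ∩ A ≠ ∅ :=
    nonempty_iff_ne_empty.1 ⟨w, mem_inter.2 ⟨hwp, hwA⟩⟩
  have hG : F ∪ (N₁ ∪ N₂) ≠ ∅ :=
    nonempty_iff_ne_empty.1 ⟨e, mem_union_right _ (mem_union_left _ he)⟩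
  have hcard : (F ∪ (N₁ ∪ N₂)).card = F.card + (N₁.card + N₂.card) := by
    rw [card_union_of_disjoint hd1, card_union_of_disjoint hd2]
  have hvl := colk_vl_A (B := B) hpA
  have hvl1 : vl A B (F ∪ (N₁ ∪ N₂)) ≤ 1 := by
    rw [hvl]; split_ifs <;> omega
  by_cases hF0 : F = ∅
  · have hk : kap A B F = 0 := by simp [kap, hF0]
    rw [hk]
    unfold kap
    rw [if_neg hG, hcard]
    by_cases hN2 : N₂ = ∅
    · rw [if_pos (by rw [hF0, hN2, union_empty])]
      omega
    · have : 0 < N₂.card := card_pos.2 (nonempty_iff_ne_empty.2 hN2)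
      rw [if_neg (by rw [hF0, empty_union]; exact hN2)]
      omega
  · have hu : F ∪ N₂ ≠ ∅ := by
      intro h
      exact hF0 (union_eq_empty.1 h).1
    rw [if_neg hu]
    unfold kap
    rw [if_neg hF0, if_neg hG, hcard]
    have key : vl A B (F ∪ (N₁ ∪ N₂)) ≤ vl A B F + N₂.card := by
      by_cases hN2 : N₂ = ∅
      · subst hN2
        rw [union_empty] at *
        by_contra hcon
        have h4 : vl A B F = 0 := by omega
        have h5 : vl A B (F ∪ N₁) = 1 := by simp at hcon; omega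
        have h6 : par (F ∪ N₁) ∩ B = ∅ := by
          by_contra h7
          rw [hvl, if_neg h7] at h5
          omega
        have h7 : par F ∩ B ≠ ∅ := by
          intro h8
          unfold vl at h4
          split_ifs at h4
        obtain ⟨u, hu'⟩ := nonempty_iff_ne_empty.2 h7
        obtain ⟨hu1, hu2⟩ := mem_inter.1 hu'
        have h8 : u ∉ par (F ∪ N₁) := by
          intro h9
          have : u ∈ par (F ∪ N₁) ∩ B := mem_inter.2 ⟨h9, hu2⟩
          rw [h6] at this
          exact absurd this (notMem_empty _)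
        rw [colk_par_union hd1, mem_symmDiff] at h8
        have h9 : u ∈ par N₁ := by tauto
        obtain ⟨x, hx1, hx2⟩ := mem_vs.1 (colk_par_vs h9)
        have h10 : u = v := by
          by_contra h11
          exact (hnew x hx1 u hx2 h11).2.1 (colk_par_vs hu1)
        have h12 : e ∈ xed A B N₁ := by
          refine mem_filter.2 ⟨he, ⟨w, mem_inter.2 ⟨Sym2.mem_toFinset.2 hwe, hwA⟩⟩,
            ⟨v, mem_inter.2 ⟨Sym2.mem_toFinset.2 (hN e he).1, ?_⟩⟩⟩
          rw [← h10]; exact hu2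
        rw [hx] at h12
        exact absurd h12 (notMem_empty _)
      · have : 0 < N₂.card := card_pos.2 (nonempty_iff_ne_empty.2 hN2)
        omega
    push_cast
    omega

/-- (C3) -/
theorem kap_step {A B : Finset ι} (hAB : Disjoint A B) {F N₁ N₂ : Finset (Sym2 ι)} {v : ι}
    (hF : ∀ e ∈ F, ¬ e.IsDiag) (hN : ∀ e ∈ N₁ ∪ N₂, v ∈ e ∧ ¬ e.IsDiag)
    (hx : xed A B (N₁ ∪ N₂) = ∅) (hd1 : Disjoint F (N₁ ∪ N₂)) (hd2 : Disjoint N₁ N₂)
    (hnew : ∀ e ∈ N₁, ∀ w ∈ e, w ≠ v → w ∈ A ∪ B ∧ w ∉ vs F ∧ w ∉ vs N₂) :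
    kap A B F ≤ kap A B (F ∪ (N₁ ∪ N₂)) ∧
      (N₁.Nonempty → kap A B F + N₁.card - (if F ∪ N₂ = ∅ then 1 else 0) ≤
        kap A B (F ∪ (N₁ ∪ N₂))) := by
  refine ⟨colk_add hAB hF (fun e he => (hN e he).2) hx, ?_⟩
  rintro ⟨e, he⟩
  obtain ⟨w, hw⟩ : ∃ w, e = s(v, w) := by
    obtain ⟨w, hw⟩ := (hN e (mem_union_left _ he)).1
    exact ⟨w, hw⟩
  have hwe : w ∈ e := by rw [hw]; exact Sym2.mem_mk_right _ _
  have hwv : w ≠ v := by
    rintro rfl
    exact (hN e (mem_union_left _ he)).2 (by rw [hw]; exact rfl)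
  rcases mem_union.1 (hnew e he w hwe hwv).1 with h | h
  · exact colk_step_A hAB hN hx hd1 hd2 hnew he hwe hwv h
  · rw [colk_kap_comm A B F, colk_kap_comm A B]
    exact colk_step_A hAB.symm hN (by rw [colk_xed_comm]; exact hx) hd1 hd2
      (by rw [union_comm B A]; exact hnew) he hwe hwv h

theorem colk_mixed_par {A B : Finset ι} {F : Finset (Sym2 ι)} {v : ι}
    (hv : v ∉ A ∪ B) (hF : ∀ e ∈ F, v ∈ e ∧ ¬ e.IsDiag) {S : Finset ι} (hS : S ⊆ A ∪ B) :
    par F ∩ S = ∅ ↔ (F.filter fun e => (e.toFinset ∩ S).Nonempty) = ∅ := by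
  constructor
  · intro h
    by_contra h1
    obtain ⟨e, he⟩ := nonempty_iff_ne_empty.2 h1
    obtain ⟨he1, w, hw⟩ := mem_filter.1 he
    rw [mem_inter, Sym2.mem_toFinset] at hw
    have hwv : w ≠ v := fun h2 => hv (h2 ▸ hS hw.2)
    have h3 : w ∈ par (∅ ∪ (F ∪ ∅)) :=
      colk_new (fun x hx => (hF x hx).1) he1 hw.1 hwv (by simp [vs]) (by simp [vs])
    rw [empty_union, union_empty] at h3
    have : w ∈ par F ∩ S := mem_inter.2 ⟨h3, hw.2⟩
    rw [h] at this
    exact absurd this (notMem_empty _)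
  · intro h
    by_contra h1
    obtain ⟨w, hw⟩ := nonempty_iff_ne_empty.2 h1
    rw [mem_inter] at hw
    obtain ⟨e, he, hwe⟩ := mem_vs.1 (colk_par_vs hw.1)
    have : e ∈ F.filter fun e => (e.toFinset ∩ S).Nonempty :=
      mem_filter.2 ⟨he, w, mem_inter.2 ⟨Sym2.mem_toFinset.2 hwe, hw.2⟩⟩
    rw [h] at this
    exact absurd this (notMem_empty _)

/-- the columns of a mixed conflict -/
theorem kap_mixed {A B : Finset ι} (hAB : Disjoint A B) {F : Finset (Sym2 ι)} {v : ι}
    (hv : v ∉ A ∪ B) (hF : ∀ e ∈ F, v ∈ e ∧ ¬ e.IsDiag)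
    (hnew : ∀ e ∈ F, ∀ w ∈ e, w ≠ v → w ∈ A ∪ B) (hne : F.Nonempty) :
    kap A B F = F.card - (if (F.filter fun e => (e.toFinset ∩ A).Nonempty) = ∅ then 1 else 0) -
      (if (F.filter fun e => (e.toFinset ∩ B).Nonempty) = ∅ then 1 else 0) := by
  have hA := colk_mixed_par hv hF (S := A) subset_union_left
  have hB := colk_mixed_par hv hF (S := B) subset_union_right
  have hnot : ¬ (par F ∩ A = ∅ ∧ par F ∩ B = ∅ ∧ (par F).card = 2) := by
    rintro ⟨h1, h2, -⟩
    obtain ⟨e, he⟩ := hne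
    obtain ⟨w, hw⟩ : ∃ w, e = s(v, w) := by
      obtain ⟨w, hw⟩ := (hF e he).1
      exact ⟨w, hw⟩
    have hwe : w ∈ e := by rw [hw]; exact Sym2.mem_mk_right _ _
    have hwv : w ≠ v := by
      rintro rfl
      exact (hF e he).2 (by rw [hw]; exact rfl)
    rw [hA] at h1
    rw [hB] at h2
    rcases mem_union.1 (hnew e he w hwe hwv) with h | h
    · have : e ∈ F.filter fun e => (e.toFinset ∩ A).Nonempty :=
        mem_filter.2 ⟨he, w, mem_inter.2 ⟨Sym2.mem_toFinset.2 hwe, h⟩⟩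
      rw [h1] at this
      exact absurd this (notMem_empty _)
    · have : e ∈ F.filter fun e => (e.toFinset ∩ B).Nonempty :=
        mem_filter.2 ⟨he, w, mem_inter.2 ⟨Sym2.mem_toFinset.2 hwe, h⟩⟩
      rw [h2] at this
      exact absurd this (notMem_empty _)
  unfold kap vl
  rw [if_neg (nonempty_iff_ne_empty.1 hne), if_neg hnot, if_congr hA rfl rfl, if_congr hB rfl rfl]
  push_cast
  ring

/-- columns inside a star, all vertices fixed -/
theorem kap_star {F : Finset (Sym2 ι)} {v : ι} (hF : ∀ e ∈ F, v ∈ e ∧ ¬ e.IsDiag)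
    (h2 : 2 ≤ F.card) : (F.card : ℤ) ≤ 3 * kap ∅ ∅ F := by
  have hne : F ≠ ∅ := by
    rintro rfl
    simp at h2
  unfold kap
  rw [if_neg hne]
  have hv := colk_vl_le ∅ ∅ F
  by_cases h3 : F.card = 2
  · obtain ⟨e, e', hee, rfl⟩ := card_eq_two.1 h3
    have hd : Disjoint ({e} : Finset (Sym2 ι)) {e'} := by simpa using hee
    have he := hF e (by simp)
    have he' := hF e' (by simp)
    have hp : par ({e, e'} : Finset (Sym2 ι)) = symmDiff e.toFinset e'.toFinset := by
      rw [← colk_par_single he.2, ← colk_par_single he'.2, ← colk_par_union hd]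
      rfl
    have hc := colk_symm_card e.toFinset e'.toFinset
    rw [colk_card_tf he.2, colk_card_tf he'.2] at hc
    have h4 : 0 < (e.toFinset ∩ e'.toFinset).card :=
      card_pos.2 ⟨v, mem_inter.2 ⟨Sym2.mem_toFinset.2 he.1, Sym2.mem_toFinset.2 he'.1⟩⟩
    have h5 : (e.toFinset ∩ e'.toFinset).card ≠ 2 := by
      intro h6
      have h7 : e.toFinset ∩ e'.toFinset = e.toFinset :=
        eq_of_subset_of_card_le inter_subset_left (by rw [h6, colk_card_tf he.2])
      have h8 : e.toFinset ∩ e'.toFinset = e'.toFinset :=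
        eq_of_subset_of_card_le inter_subset_right (by rw [h6, colk_card_tf he'.2])
      apply hee
      apply Sym2.ext
      intro x
      rw [← Sym2.mem_toFinset, ← Sym2.mem_toFinset, ← h7, h8]
    have h6 : (par ({e, e'} : Finset (Sym2 ι))).card = 2 := by
      rw [hp]
      omega
    have h7 : vl ∅ ∅ ({e, e'} : Finset (Sym2 ι)) = 1 := by
      unfold vl
      rw [if_pos ⟨inter_empty _, inter_empty _, h6⟩]
    rw [h7, h3]
    norm_num
  · omega

/-- a single edge with both ends fixed -/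
theorem kap_fixed {A B : Finset ι} {e : Sym2 ι} (he : ¬ e.IsDiag) (h : Disjoint e.toFinset (A ∪ B)) :
    kap A B {e} = 0 := by
  rw [disjoint_union_right] at h
  unfold kap vl
  rw [if_neg (singleton_ne_empty e), colk_par_single he, colk_card_tf he,
    if_pos ⟨disjoint_iff_inter_eq_empty.1 h.1, disjoint_iff_inter_eq_empty.1 h.2, rfl⟩,
    card_singleton]
  norm_num

end Pool.Agent.Lib.MP_0430e4_lc.L3
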