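import Pool.Agent.Lib.MP_0430e4_lc.L3.CUM

/-!
# CONN: conflicts connect the blocks

PROOF. `free_iff`: a set `J` at `v` with `oc C J < k` contains a minimal one. `conf_conn`: otherwise every minimal conflict `J ⊆ b` is inside `b ∩ Q` or inside `b \ Q`, so
`cf k C h = cf k C (h ∩ (b ∩ Q)) * cf k C (h ∩ (b \ Q))` for all `h ⊆ b` by `free_iff`, and `cum_split` gives `cum (cf k C) b = 0`.
`free_xed`: write `cum (cf k C) = v_c + v_n` (`v_c b = cum .. b` if `Cr A B b`, else 0). By `sexp_add` for `v_c = cum + (- v_n)` the number `sexp v_c g` is the sum of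
`sexp (cum ..) X * sexp (- v_n) (g \ X) = cf k C X * sexp (- v_n) (g \ X)`; `sexp (- v_n) (g \ X) = 0` if `g \ X` contains an edge of `xed A B g` (`sexp_eq_zero`), and
`cf k C X = 0` if `X ⊇ xed A B g` and `xed A B g` is not free.
-/

set_option autoImplicit false

namespace Pool.Agent.Lib.MP_0430e4_lc.L3

open Finset

variable {ι : Type*} [DecidableEq ι] {n : ℕ}

theorem cf_empty (k : ℕ) (C : Fin n → Finset (Sym2 ι)) : cf k C ∅ = 1 := by
  unfold cf
  rw [if_pos]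
  intro v J hJ hne
  obtain ⟨e, he⟩ := hne
  have h1 := mem_filter.1 (hJ he)
  exact absurd h1.1 (notMem_empty e)

theorem CONN_min {k : ℕ} {C : Fin n → Finset (Sym2 ι)} (J : Finset (Sym2 ι)) :
    J.Nonempty → oc C J < k → ∃ J' ⊆ J, J'.Nonempty ∧ oc C J' < k ∧
      ∀ J'' ⊂ J', J''.Nonempty → k ≤ oc C J'' := by
  induction J using Finset.strongInduction with
  | H J ih =>
    intro h1 h2
    by_cases h : ∀ J'' ⊂ J, J''.Nonempty → k ≤ oc C J''
    · exact ⟨J, subset_rfl, h1, h2, h⟩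
    · push Not at h
      obtain ⟨J₁, h3, h4, h5⟩ := h
      obtain ⟨J', h6, h7⟩ := ih J₁ h3 h4 h5
      exact ⟨J', h6.trans h3.subset, h7⟩

theorem free_iff {k : ℕ} {C : Fin n → Finset (Sym2 ι)} {g : Finset (Sym2 ι)} :
    Free k C g ↔ ∀ v J, J ⊆ g → ¬ Conf k C v J := by
  constructor
  · rintro h v J hJ ⟨h1, h2, h3, -⟩
    have h4 := h v J (fun e he => mem_filter.2 ⟨hJ he, h1 e he⟩) h2
    omega
  · intro h v J hJ hne
    by_contra hlt
    obtain ⟨J', h1, h2, h3, h4⟩ := CONN_min J hne (not_le.1 hlt)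
    refine h v J' (fun e he => (mem_filter.1 (hJ (h1 he))).1) ⟨?_, h2, h3, h4⟩
    intro e he
    exact (mem_filter.1 (hJ (h1 he))).2

theorem free_mono {k : ℕ} {C : Fin n → Finset (Sym2 ι)} {g g' : Finset (Sym2 ι)} (h : g' ⊆ g)
    (hg : Free k C g) : Free k C g' := by
  intro v J hJ hne
  exact hg v J (hJ.trans (filter_subset_filter _ h)) hne

theorem CONN_cf {k : ℕ} {C : Fin n → Finset (Sym2 ι)} {g : Finset (Sym2 ι)} (h : cf k C g ≠ 0) :
    Free k C g := by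
  by_contra h1
  apply h
  unfold cf
  rw [if_neg h1]

theorem conf_conn {k : ℕ} {C : Fin n → Finset (Sym2 ι)} {b Q : Finset (Sym2 ι)}
    (hb : cum (cf k C) b ≠ 0) (h1 : (b ∩ Q).Nonempty) (h2 : ¬ b ⊆ Q) :
    ∃ v J, J ⊆ b ∧ Conf k C v J ∧ (J ∩ Q).Nonempty ∧ ¬ J ⊆ Q := by
  by_contra hcon
  apply hb
  have hu : (b ∩ Q) ∪ (b \ Q) = b := by
    ext x
    rw [mem_union, mem_inter, mem_sdiff]
    tauto
  rw [← hu]
  refine cum_split (cf_empty k C) ?_ h1 ?_ ?_
  · rw [disjoint_left]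
    intro x hx hx'
    exact (mem_sdiff.1 hx').2 (mem_inter.1 hx).2
  · obtain ⟨x, hx, hx'⟩ := not_subset.1 h2
    exact ⟨x, mem_sdiff.2 ⟨hx, hx'⟩⟩
  · rw [hu]
    intro h hh
    have key : Free k C h ↔ Free k C (h ∩ (b ∩ Q)) ∧ Free k C (h ∩ (b \ Q)) := by
      constructor
      · intro hf
        exact ⟨free_mono inter_subset_left hf, free_mono inter_subset_left hf⟩
      · rintro ⟨f1, f2⟩
        rw [free_iff]
        intro v J hJ hc
        by_cases hJQ : (J ∩ Q).Nonempty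
        · have h3 : J ⊆ Q := by
            by_contra h3
            exact hcon ⟨v, J, hJ.trans hh, hc, hJQ, h3⟩
          exact free_iff.1 f1 v J (subset_inter hJ (subset_inter (hJ.trans hh) h3)) hc
        · refine free_iff.1 f2 v J (subset_inter hJ fun x hx => ?_) hc
          refine mem_sdiff.2 ⟨hh (hJ hx), fun hxQ => hJQ ⟨x, mem_inter.2 ⟨hx, hxQ⟩⟩⟩
    unfold cf
    by_cases f1 : Free k C (h ∩ (b ∩ Q))
    · by_cases f2 : Free k C (h ∩ (b \ Q))
      · rw [if_pos (key.2 ⟨f1, f2⟩), if_pos f1, if_pos f2, mul_one]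
      · rw [if_neg fun hf => f2 (key.1 hf).2, if_neg f2, mul_zero]
    · rw [if_neg fun hf => f1 (key.1 hf).1, if_neg f1, zero_mul]

theorem free_xed {A B : Finset ι} {k : ℕ} {C : Fin n → Finset (Sym2 ι)} {g : Finset (Sym2 ι)}
    (h : sexp (fun b => if Cr A B b then cum (cf k C) b else 0) g ≠ 0) :
    Free k C (xed A B g) := by
  have h1 : (fun b => if Cr A B b then cum (cf k C) b else 0)
      = fun b => cum (cf k C) b + (if Cr A B b then 0 else -cum (cf k C) b) := by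
    funext b
    by_cases hb : Cr A B b
    · rw [if_pos hb, if_pos hb, add_zero]
    · rw [if_neg hb, if_neg hb, add_neg_cancel]
  rw [h1, sexp_add] at h
  obtain ⟨X, hX, hX'⟩ := exists_ne_zero_of_sum_ne_zero h
  have h2 : sexp (cum (cf k C)) X ≠ 0 := left_ne_zero_of_mul hX'
  have h3 := right_ne_zero_of_mul hX'
  rw [sexp_cum (cf_empty k C)] at h2
  refine free_mono ?_ (CONN_cf h2)
  intro e he
  by_contra heX
  apply h3
  unfold xed at he
  obtain ⟨he1, ⟨a, ha⟩, ⟨c, hc⟩⟩ := mem_filter.1 he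
  refine sexp_eq_zero (mem_sdiff.2 ⟨he1, heX⟩) fun b _ heb => ?_
  rw [if_pos]
  refine ⟨⟨a, ?_⟩, ⟨c, ?_⟩⟩
  · obtain ⟨ha1, ha2⟩ := mem_inter.1 ha
    exact mem_inter.2 ⟨mem_biUnion.2 ⟨e, heb, ha1⟩, ha2⟩
  · obtain ⟨hc1, hc2⟩ := mem_inter.1 hc
    exact mem_inter.2 ⟨mem_biUnion.2 ⟨e, heb, hc1⟩, hc2⟩

end Pool.Agent.Lib.MP_0430e4_lc.L3
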