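import Pool.Agent.Lib.MP_0430e4_lc.L3.STEP
import Pool.Agent.Lib.MP_0430e4_lc.L3.CONN

/-!
# COSA: the cost of crossing graphs, of the crossing labels, and with all vertices fixed

PROOF. See /team-store/L3_PROOF.md, section 6.
`cost_xed`: `2 * cost ≥ ∑ i, |par (C i ∩ Q)| = ∑ v ∈ vs Q, oc C (dl Q v) ≥ k * |vs Q|` by `kap_xed` (`C i ∩ Q` is again a crossing graph), `dl Q v` is nonempty for `v ∈ vs Q`.
`costp0`: some minimal conflict `J ⊆ b` exists (`conf_conn` with `Q = {e}`), `2 ≤ |J|` by the labels; `m_i = |C i ∩ J|`: the number of `i` with `m_i = 1` is at most `oc C J < k`, `∑ m_i ≥ 2 k`, so `∑ (m_i ≥ 2) m_i > k` and `3 kap ≥ m_i` there (`kap_star`), `kap = 0` for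
`m_i = 1` (`kap_fixed`); then add the other edges of `b` one by one (`step_edge`; `A = B = ∅`, nothing crosses).
`costx`: `kap_xed_card` and `∑ i, |xed A B (C i)| = ∑ e ∈ xed A B g, oc C {e}`.
-/

set_option autoImplicit false

namespace Pool.Agent.Lib.MP_0430e4_lc.L3

open Finset

variable {ι : Type*} [DecidableEq ι] {n : ℕ}

theorem cosa_oc_single (C : Fin n → Finset (Sym2 ι)) (e : Sym2 ι) :
    oc C {e} = (univ.filter fun i => e ∈ C i).card := by
  unfold oc
  congr 1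
  ext i
  simp only [mem_filter, mem_univ, true_and]
  by_cases h : e ∈ C i
  · rw [inter_singleton_of_mem h]; simp [h]
  · rw [inter_singleton_of_notMem h]; simp [h]

theorem cosa_double {α β : Type*} (s : Finset α) (t : Finset β) (P : α → β → Prop)
    [∀ a b, Decidable (P a b)] :
    ∑ a ∈ s, (t.filter fun b => P a b).card = ∑ b ∈ t, (s.filter fun a => P a b).card := by
  simp_rw [card_filter]
  exact sum_comm

theorem cost_xed {A B : Finset ι} (hAB : Disjoint A B) {k : ℕ} {C : Fin n → Finset (Sym2 ι)}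
    {Q : Finset (Sym2 ι)} (hQ : ∀ e ∈ Q, ¬ e.IsDiag) (hx : xed A B Q = Q) (hfree : Free k C Q) :
    (k : ℤ) * (vs Q).card ≤ 2 * cost A B (fun i => C i ∩ Q) := by
  have h1 : ∀ i, ((par (C i ∩ Q)).card : ℤ) ≤ 2 * kap A B (C i ∩ Q) := by
    intro i
    apply kap_xed hAB (fun e he => hQ e (mem_inter.1 he).2)
    apply Finset.Subset.antisymm (filter_subset _ _)
    intro e he
    have : e ∈ xed A B Q := by rw [hx]; exact (mem_inter.1 he).2
    exact mem_filter.2 ⟨he, (mem_filter.1 this).2⟩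
  have h2 : ∀ i, par (C i ∩ Q) = (vs Q).filter fun v => Odd (C i ∩ dl Q v).card := by
    intro i
    have h3 : ∀ v, dl (C i ∩ Q) v = C i ∩ dl Q v := by
      intro v
      ext e
      simp only [dl, mem_filter, mem_inter]
      tauto
    ext v
    simp only [par, mem_filter, h3]
    constructor
    · rintro ⟨h4, h5⟩
      obtain ⟨e, he, hv⟩ := mem_vs.1 h4
      exact ⟨mem_vs.2 ⟨e, (mem_inter.1 he).2, hv⟩, h5⟩
    · rintro ⟨-, h5⟩
      obtain ⟨e, he⟩ := card_pos.1 h5.pos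
      obtain ⟨he1, he2⟩ := mem_inter.1 he
      obtain ⟨he3, he4⟩ := mem_filter.1 he2
      exact ⟨mem_vs.2 ⟨e, mem_inter.2 ⟨he1, he3⟩, he4⟩, h5⟩
  have h3 : ∑ i, (par (C i ∩ Q)).card = ∑ v ∈ vs Q, oc C (dl Q v) := by
    simp_rw [h2]
    exact cosa_double univ (vs Q) fun i v => Odd (C i ∩ dl Q v).card
  have h4 : k * (vs Q).card ≤ ∑ v ∈ vs Q, oc C (dl Q v) := by
    rw [mul_comm, ← smul_eq_mul, ← sum_const]
    apply sum_le_sum
    intro v hv
    obtain ⟨e, he, hve⟩ := mem_vs.1 hv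
    exact hfree v _ (Finset.Subset.refl _) ⟨e, mem_filter.2 ⟨he, hve⟩⟩
  calc (k : ℤ) * (vs Q).card ≤ ((∑ i, (par (C i ∩ Q)).card : ℕ) : ℤ) := by
        rw [h3]; exact_mod_cast h4
    _ = ∑ i, ((par (C i ∩ Q)).card : ℤ) := by push_cast; rfl
    _ ≤ ∑ i, 2 * kap A B (C i ∩ Q) := sum_le_sum fun i _ => h1 i
    _ = 2 * cost A B (fun i => C i ∩ Q) := by rw [cost, mul_sum]

theorem cosa_mono {A B : Finset ι} (hAB : Disjoint A B) {C : Fin n → Finset (Sym2 ι)}
    {Q : Finset (Sym2 ι)} (hC : ∀ i, ∀ e ∈ C i, ¬ e.IsDiag)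
    (hx : ∀ i, xed A B (C i \ Q) = ∅) :
    cost A B (fun i => C i ∩ Q) ≤ cost A B C := by
  unfold cost
  apply sum_le_sum
  intro i _
  have h := colk_add hAB (F := C i ∩ Q) (N := C i \ Q) (fun e he => hC i e (mem_inter.1 he).1)
    (fun e he => hC i e (mem_sdiff.1 he).1) (hx i)
  rwa [union_comm, sdiff_union_inter] at h

/-- (C7), all vertices fixed -/
theorem costp0 {k : ℕ} {C : Fin n → Finset (Sym2 ι)} {b : Finset (Sym2 ι)}
    (hb : ∀ e ∈ b, ¬ e.IsDiag) (hb2 : 2 ≤ b.card) (hC : ∀ i, C i ⊆ b)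
    (hlab : ∀ e ∈ b, k ≤ oc C {e}) (hne : cum (cf k C) b ≠ 0) :
    (k : ℤ) ≤ 3 * cost ∅ ∅ C := by
  obtain ⟨e, he⟩ : b.Nonempty := card_pos.1 (by omega)
  obtain ⟨v, J, hJb, hJ, h1, h2⟩ := conf_conn hne (Q := {e})
    ⟨e, mem_inter.2 ⟨he, mem_singleton_self _⟩⟩ (fun h => by
      have := card_le_card h
      rw [card_singleton] at this
      omega)
  have hJ2 : 2 ≤ J.card := by
    obtain ⟨f, hf⟩ := h1
    obtain ⟨hf1, hf2⟩ := mem_inter.1 hf
    rw [mem_singleton] at hf2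
    subst hf2
    by_contra hcon
    apply h2
    have : J.card ≤ 1 := by omega
    intro x hx
    exact mem_singleton.2 (card_le_one.1 this x hx f hf1)
  obtain ⟨hJv, -, hJk, -⟩ := hJ
  have h3 : ∀ i, ((C i ∩ J).card : ℤ) - (if Odd (C i ∩ J).card then 1 else 0) ≤
      3 * kap ∅ ∅ (C i ∩ J) := by
    intro i
    rcases Nat.lt_or_ge 1 (C i ∩ J).card with hc | hc
    · have h4 := kap_star (F := C i ∩ J) (v := v) (fun x hx =>
        ⟨hJv x (mem_inter.1 hx).2, hb x (hJb (mem_inter.1 hx).2)⟩) hc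
      split_ifs <;> linarith
    · have h4 := kap_nonneg (A := ∅) (B := ∅) (disjoint_empty_left _) (F := C i ∩ J)
        (fun x hx => hb x (hJb (mem_inter.1 hx).2))
      rcases Nat.le_one_iff_eq_zero_or_eq_one.1 hc with h5 | h5
      · rw [h5]; simp; linarith
      · rw [h5]; simp; linarith
  have h4 : ∑ i, (C i ∩ J).card = ∑ e ∈ J, oc C {e} := by
    have h5 : ∀ i, C i ∩ J = J.filter fun e => e ∈ C i := by
      intro i; ext x; simp only [mem_inter, mem_filter]; tauto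
    simp_rw [cosa_oc_single, h5]
    exact cosa_double univ J fun i e => e ∈ C i
  have h5 : 2 * k ≤ ∑ i, (C i ∩ J).card := by
    rw [h4]
    calc 2 * k ≤ J.card * k := Nat.mul_le_mul_right _ hJ2
      _ = ∑ e ∈ J, k := by rw [sum_const, smul_eq_mul]
      _ ≤ _ := sum_le_sum fun e he => hlab e (hJb he)
  have h6 : ∑ i, (if Odd (C i ∩ J).card then (1 : ℤ) else 0) = (oc C J : ℤ) := by
    rw [oc, card_filter]; push_cast; rfl
  have h7 : (k : ℤ) ≤ 3 * cost ∅ ∅ (fun i => C i ∩ J) := by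
    have h8 : ∑ i, (((C i ∩ J).card : ℤ) - (if Odd (C i ∩ J).card then 1 else 0)) ≤
        ∑ i, 3 * kap ∅ ∅ (C i ∩ J) := sum_le_sum fun i _ => h3 i
    rw [sum_sub_distrib, h6, ← mul_sum] at h8
    have h9 : (2 * k : ℤ) ≤ ∑ i, ((C i ∩ J).card : ℤ) := by exact_mod_cast h5
    have h10 : (oc C J : ℤ) < k := by exact_mod_cast hJk
    unfold cost
    linarith
  have h8 := cosa_mono (A := ∅) (B := ∅) (disjoint_empty_left _) (C := C) (Q := J)
    (fun i e he => hb e (hC i he)) (fun i => by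
      rw [← subset_empty]; intro x hx
      have := (mem_filter.1 hx).2.1
      simp at this)
  linarith

/-- (C8) -/
theorem costx {A B : Finset ι} (hAB : Disjoint A B) {C : Fin n → Finset (Sym2 ι)}
    {g : Finset (Sym2 ι)} (hg : ∀ e ∈ g, ¬ e.IsDiag) (hC : ∀ i, C i ⊆ g) :
    (∑ e ∈ xed A B g, (oc C {e} : ℤ)) ≤ 2 * cost A B C := by
  have h1 : ∑ e ∈ xed A B g, oc C {e} = ∑ i, (xed A B (C i)).card := by
    have h2 : ∀ i, xed A B (C i) = (xed A B g).filter fun e => e ∈ C i := by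
      intro i
      ext e
      simp only [xed, mem_filter]
      constructor
      · rintro ⟨a, b⟩; exact ⟨⟨hC i a, b⟩, a⟩
      · rintro ⟨⟨-, b⟩, a⟩; exact ⟨a, b⟩
    simp_rw [cosa_oc_single, h2]
    exact (cosa_double univ (xed A B g) fun i e => e ∈ C i).symm
  calc (∑ e ∈ xed A B g, (oc C {e} : ℤ)) = ((∑ e ∈ xed A B g, oc C {e} : ℕ) : ℤ) := by
        push_cast; rfl
    _ = ∑ i, ((xed A B (C i)).card : ℤ) := by rw [h1]; push_cast; rfl
    _ ≤ ∑ i, 2 * kap A B (C i) :=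
        sum_le_sum fun i _ => kap_xed_card hAB (fun e he => hg e (hC i he))
    _ = 2 * cost A B C := by rw [cost, mul_sum]

end Pool.Agent.Lib.MP_0430e4_lc.L3
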