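import Pool.Agent.Lib.MP_0430e4_lc.L3.COSA

/-!
# COSB: the cost of the labellings of the main term

PROOF. See /team-store/L3_PROOF.md, (C6).
By `exists_part` there is a partition `π` of `g`, all blocks cross and have `cum (cf k C) b ≠ 0`. Potential `Pt Q = 2 * cost (C ∩ Q) - k * |vs Q ∩ (A ∪ B)|`.
`Pt (xed A B g) ≥ 0` by `free_xed` and `cost_xed`. Claim: if `xed A B g ⊆ Q ⊂ g` and `Pt Q ≥ 0` there is `Q ⊂ Q' ⊆ g` with `Pt Q' ≥ 0` (then strong induction on `|g \ Q|`).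
Take `e ∈ g \ Q` in the block `b`. If `b ∩ Q ≠ ∅`: `conf_conn` gives `v`, `J`; `step` (`v ∈ vs Q`, `J ∩ Q ⊆ J \ nw`), `Q' = Q ∪ J`. If `b ∩ Q = ∅`: `b` has no edge in `xed A B g`, a single block would be crossing, so `|b| ≥ 2`. If some edge of `b` has both ends outside
`A ∪ B`: `step_edge`, no new vertex of `A ∪ B`. Otherwise `b₁ = {e ∈ b : e meets A}` and `b₂ = {e ∈ b : e meets B}` are disjoint with union `b`, both nonempty since `b` is crossing; `conf_conn` with `Q := b₁` gives a minimal conflict `J ⊆ b` at `v` meeting `b₁` and `b₂`;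
`v ∉ A ∪ B` (otherwise an edge of `J` would cross). If `J \ nw A B J Q v ≠ ∅` use `step`, otherwise all other ends are new: `step_mixed`.
-/

set_option autoImplicit false

namespace Pool.Agent.Lib.MP_0430e4_lc.L3

open Finset

variable {ι : Type*} [DecidableEq ι] {n : ℕ}

theorem cosb_ind {ε : Type*} [DecidableEq ε] {P : Finset ε → Prop} {g : Finset ε}
    (step : ∀ Q ⊆ g, Q ≠ g → P Q → ∃ Q', Q ⊂ Q' ∧ Q' ⊆ g ∧ P Q') :
    ∀ m : ℕ, ∀ Q ⊆ g, (g \ Q).card = m → P Q → P g := by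
  intro m
  induction m using Nat.strong_induction_on with
  | _ m ih =>
    intro Q hQ hm hP
    by_cases h : Q = g
    · rw [← h]; exact hP
    · obtain ⟨Q', h1, h2, h3⟩ := step Q hQ h hP
      refine ih (g \ Q').card ?_ Q' h2 rfl h3
      rw [← hm]
      apply card_lt_card
      refine ⟨sdiff_subset_sdiff (Finset.Subset.refl _) h1.1, fun h4 => h1.2 ?_⟩
      intro x hx
      by_contra hxQ
      exact (mem_sdiff.1 (h4 (mem_sdiff.2 ⟨h2 hx, hxQ⟩))).2 hx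

theorem cosb_pt {A B : Finset ι} {k : ℕ} {C : Fin n → Finset (Sym2 ι)} {Q J : Finset (Sym2 ι)}
    (hP : (k : ℤ) * (vs Q ∩ (A ∪ B)).card ≤ 2 * cost A B (fun i => C i ∩ Q))
    (hs : 2 * cost A B (fun i => C i ∩ Q) + k * ((vs (Q ∪ J) \ vs Q) ∩ (A ∪ B)).card ≤
      2 * cost A B (fun i => C i ∩ (Q ∪ J))) :
    (k : ℤ) * (vs (Q ∪ J) ∩ (A ∪ B)).card ≤ 2 * cost A B (fun i => C i ∩ (Q ∪ J)) := by
  have hc : (vs (Q ∪ J) ∩ (A ∪ B)).card ≤
      (vs Q ∩ (A ∪ B)).card + ((vs (Q ∪ J) \ vs Q) ∩ (A ∪ B)).card := by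
    refine (card_le_card ?_).trans (card_union_le _ _)
    intro x hx
    simp only [mem_union, mem_inter, mem_sdiff] at hx ⊢
    tauto
  have hc' : (k : ℤ) * (vs (Q ∪ J) ∩ (A ∪ B)).card ≤
      k * (vs Q ∩ (A ∪ B)).card + k * ((vs (Q ∪ J) \ vs Q) ∩ (A ∪ B)).card := by
    rw [← mul_add]
    exact mul_le_mul_of_nonneg_left (by exact_mod_cast hc) (Int.natCast_nonneg _)
  linarith

theorem cosb_new {A B : Finset ι} {k : ℕ} {C : Fin n → Finset (Sym2 ι)}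
    {g b Q : Finset (Sym2 ι)} (hAB : Disjoint A B) (hg : ∀ e ∈ g, ¬ e.IsDiag)
    (hC : ∀ i, C i ⊆ g) (hlab : ∀ e ∈ g, k ≤ oc C {e}) (hbg : b ⊆ g) (hcr : Cr A B b)
    (hcum : cum (cf k C) b ≠ 0) (hxQ : xed A B g ⊆ Q) (hbQ : b ∩ Q = ∅)
    (hP : (k : ℤ) * (vs Q ∩ (A ∪ B)).card ≤ 2 * cost A B (fun i => C i ∩ Q)) :
    ∃ J, J ⊆ b ∧ J.Nonempty ∧
      (k : ℤ) * (vs (Q ∪ J) ∩ (A ∪ B)).card ≤ 2 * cost A B (fun i => C i ∩ (Q ∪ J)) := by
  have hC' : ∀ i, ∀ e ∈ C i, ¬ e.IsDiag := fun i e he => hg e (hC i he)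
  have hnx : ∀ e ∈ b, ¬ ((e.toFinset ∩ A).Nonempty ∧ (e.toFinset ∩ B).Nonempty) := by
    intro e he h
    have h1 : e ∈ Q := hxQ (mem_filter.2 ⟨hbg he, h⟩)
    have : e ∈ b ∩ Q := mem_inter.2 ⟨he, h1⟩
    rw [hbQ] at this
    exact absurd this (notMem_empty _)
  by_cases hf : ∃ f ∈ b, Disjoint f.toFinset (A ∪ B)
  · obtain ⟨f, hfb, hfd⟩ := hf
    refine ⟨{f}, singleton_subset_iff.2 hfb, singleton_nonempty f, ?_⟩
    have h1 := step_edge (Q := Q) hAB hC' (hg f (hbg hfb)) (e := f) (by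
      rw [← subset_empty]; intro x hx
      obtain ⟨hx1, hx2⟩ := mem_filter.1 hx
      rw [mem_singleton] at hx1
      subst hx1
      exact absurd hx2 (hnx x hfb))
    have h2 : vs (Q ∪ {f}) ∩ (A ∪ B) = vs Q ∩ (A ∪ B) := by
      rw [vs, union_biUnion, singleton_biUnion, union_inter_distrib_right,
        disjoint_iff_inter_eq_empty.1 hfd, union_empty, vs]
    rw [h2]
    linarith
  · have hmeet : ∀ e ∈ b, (e.toFinset ∩ A).Nonempty ∨ (e.toFinset ∩ B).Nonempty := by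
      intro e he
      by_contra hcon
      rw [not_or, not_nonempty_iff_eq_empty, not_nonempty_iff_eq_empty] at hcon
      exact hf ⟨e, he, by
        rw [disjoint_iff_inter_eq_empty, inter_union_distrib_left, hcon.1, hcon.2, union_empty]⟩
    obtain ⟨⟨a, ha⟩, ⟨c, hc⟩⟩ := hcr
    obtain ⟨ha1, ha2⟩ := mem_inter.1 ha
    obtain ⟨hc1, hc2⟩ := mem_inter.1 hc
    obtain ⟨e1, he1, hae1⟩ := mem_vs.1 ha1
    obtain ⟨e2, he2, hce2⟩ := mem_vs.1 hc1
    have hb1 : e1 ∈ b.filter fun e => (e.toFinset ∩ A).Nonempty :=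
      mem_filter.2 ⟨he1, a, mem_inter.2 ⟨Sym2.mem_toFinset.2 hae1, ha2⟩⟩
    obtain ⟨v, J, hJb, hJ, h1, h2⟩ := conf_conn hcum
      (Q := b.filter fun e => (e.toFinset ∩ A).Nonempty)
      ⟨e1, mem_inter.2 ⟨he1, hb1⟩⟩ (fun h => hnx e2 he2 ⟨(mem_filter.1 (h he2)).2,
        c, mem_inter.2 ⟨Sym2.mem_toFinset.2 hce2, hc2⟩⟩)
    obtain ⟨f1, hf1⟩ := h1
    obtain ⟨hf1J, hf1b⟩ := mem_inter.1 hf1
    have hf1A := (mem_filter.1 hf1b).2
    obtain ⟨f2, hf2J, hf2n⟩ := not_subset.1 h2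
    have hf2B : (f2.toFinset ∩ B).Nonempty := by
      rcases hmeet f2 (hJb hf2J) with h | h
      · exact absurd (mem_filter.2 ⟨hJb hf2J, h⟩) hf2n
      · exact h
    have hv : v ∉ A ∪ B := by
      intro hv
      rcases mem_union.1 hv with h | h
      · exact hnx f2 (hJb hf2J)
          ⟨⟨v, mem_inter.2 ⟨Sym2.mem_toFinset.2 (hJ.1 f2 hf2J), h⟩⟩, hf2B⟩
      · exact hnx f1 (hJb hf1J)
          ⟨hf1A, ⟨v, mem_inter.2 ⟨Sym2.mem_toFinset.2 (hJ.1 f1 hf1J), h⟩⟩⟩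
    have hJd : ∀ e ∈ J, ¬ e.IsDiag := fun e he => hg e (hbg (hJb he))
    have hJl : ∀ e ∈ J, k ≤ oc C {e} := fun e he => hlab e (hbg (hJb he))
    refine ⟨J, hJb, ⟨f1, hf1J⟩, cosb_pt hP ?_⟩
    by_cases hold : (J \ nw A B J Q v).Nonempty
    · refine step hAB hC' hJ hJd hJl ?_ (Or.inr hv) hold
      rw [← subset_empty]; intro x hx
      obtain ⟨hx1, hx2⟩ := mem_filter.1 hx
      exact absurd hx2 (hnx x (hJb (mem_sdiff.1 hx1).1))
    · rw [not_nonempty_iff_eq_empty, sdiff_eq_empty_iff_subset] at hold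
      refine step_mixed hAB hC' hJ hJd hJl ?_ hv ?_ ⟨f1, hf1J, hf1A⟩ ⟨f2, hf2J, hf2B⟩
      · rw [disjoint_iff_inter_eq_empty, ← subset_empty, ← hbQ]
        exact inter_subset_inter hJb (Finset.Subset.refl _)
      · intro e he w hw hwv
        obtain ⟨-, w', hw'⟩ := mem_filter.1 (hold he)
        obtain ⟨hw'1, hw'2, hw'3, hw'4⟩ := mem_filter.1 hw'
        rw [Sym2.mem_toFinset] at hw'1
        have e1 := (Sym2.mem_and_mem_iff hw'2).1 ⟨hw'1, hJ.1 e he⟩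
        rw [e1, Sym2.mem_iff] at hw
        rcases hw with rfl | rfl
        · exact ⟨hw'3, hw'4⟩
        · exact absurd rfl hwv

/-- (C6) -/
theorem costk {A B : Finset ι} (hAB : Disjoint A B) {k : ℕ} {C : Fin n → Finset (Sym2 ι)}
    {g : Finset (Sym2 ι)} (hg : ∀ e ∈ g, ¬ e.IsDiag) (hC : ∀ i, C i ⊆ g)
    (hlab : ∀ e ∈ g, k ≤ oc C {e})
    (hne : sexp (fun b => if Cr A B b then cum (cf k C) b else 0) g ≠ 0) :
    (k : ℤ) * (vs g ∩ (A ∪ B)).card ≤ 2 * cost A B C := by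
  have hC' : ∀ i, ∀ e ∈ C i, ¬ e.IsDiag := fun i e he => hg e (hC i he)
  obtain ⟨π, hπ, hπ2⟩ := exists_part hne
  obtain ⟨-, hdisj, hun⟩ := mem_parts.1 hπ
  have hblock : ∀ b ∈ π, b ⊆ g ∧ Cr A B b ∧ cum (cf k C) b ≠ 0 := by
    intro b hb
    have h1 := hπ2 b hb
    refine ⟨?_, ?_⟩
    · rw [← hun]
      intro x hx
      exact mem_biUnion.2 ⟨b, hb, hx⟩
    · split_ifs at h1 with h2
      · exact ⟨h2, h1⟩
      · exact absurd rfl h1
  have key := cosb_ind (g := g)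
    (P := fun Q => xed A B g ⊆ Q ∧
      (k : ℤ) * (vs Q ∩ (A ∪ B)).card ≤ 2 * cost A B (fun i => C i ∩ Q)) (by
      rintro Q hQ hQg ⟨hxQ, hP⟩
      obtain ⟨e, heg, heQ⟩ := not_subset.1 (fun h => hQg (Finset.Subset.antisymm hQ h))
      have he2 : e ∈ π.biUnion id := by rw [hun]; exact heg
      obtain ⟨b, hbπ, heb⟩ := mem_biUnion.1 he2
      obtain ⟨hbg, hcr, hcum⟩ := hblock b hbπ
      simp only [id] at heb
      by_cases hbQ : (b ∩ Q).Nonempty
      · obtain ⟨v, J, hJb, hJ, h1, h2⟩ := conf_conn hcum hbQ (fun h => heQ (h heb))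
        obtain ⟨f, hf⟩ := h1
        obtain ⟨hf1, hf2⟩ := mem_inter.1 hf
        have hs := step hAB hC' (Q := Q) hJ (fun e he => hg e (hbg (hJb he)))
          (fun e he => hlab e (hbg (hJb he))) (by
            rw [← subset_empty]; intro x hx
            obtain ⟨hx1, hx2⟩ := mem_filter.1 hx
            obtain ⟨hx3, hx4⟩ := mem_sdiff.1 hx1
            exact absurd (hxQ (mem_filter.2 ⟨hbg (hJb hx3), hx2⟩)) hx4)
          (Or.inl (mem_vs.2 ⟨f, hf2, hJ.1 f hf1⟩))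
          ⟨f, mem_sdiff.2 ⟨hf1, fun h => (mem_sdiff.1 (mem_filter.1 h).1).2 hf2⟩⟩
        exact ⟨Q ∪ J, ⟨subset_union_left, fun h => h2 (subset_union_right.trans h)⟩,
          union_subset hQ (hJb.trans hbg), hxQ.trans subset_union_left, cosb_pt hP hs⟩
      · rw [not_nonempty_iff_eq_empty] at hbQ
        obtain ⟨J, hJb, hJn, hs⟩ := cosb_new hAB hg hC hlab hbg hcr hcum hxQ hbQ hP
        refine ⟨Q ∪ J, ⟨subset_union_left, fun h => ?_⟩,
          union_subset hQ (hJb.trans hbg), hxQ.trans subset_union_left, hs⟩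
        obtain ⟨x, hx⟩ := hJn
        have : x ∈ b ∩ Q := mem_inter.2 ⟨hJb hx, h (mem_union_right _ hx)⟩
        rw [hbQ] at this
        exact absurd this (notMem_empty _))
  have hx1 : ∀ e ∈ xed A B g, ¬ e.IsDiag := fun e he => hg e (mem_filter.1 he).1
  have h0 := cost_xed hAB hx1 (C := C) (by simp [xed, filter_filter]) (free_xed hne)
  have hfin := key _ (xed A B g) (filter_subset _ _) rfl
    ⟨Finset.Subset.refl _, by
      refine le_trans (mul_le_mul_of_nonneg_left ?_ (Int.natCast_nonneg _)) h0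
      exact_mod_cast card_le_card inter_subset_left⟩
  have h3 : (fun i => C i ∩ g) = C := funext fun i => inter_eq_left.2 (hC i)
  rw [h3] at hfin
  exact hfin.2

end Pool.Agent.Lib.MP_0430e4_lc.L3
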