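import Pool.Agent.Lib.MP_0430e4_lc.L3.KLS

/-!
# KTB: telescoping over the single crossing edges

PROOF. Telescoping in the order of `idx`: `∏ (e ∈ S) φ - ∏ (e ∈ S) flat = ∑ (e ∈ S) (∏ (idx e' < idx e) flat e') * (φ - flat) e * (∏ (idx e' > idx e) φ e')`; `kls` with `e₀ = e`, `s e' = Bn n (Ks (idx e'))` for `idx e' < idx e` (`Pk.abs_flat`), `1` elsewhere,
`ρ = 2 / √ C(n, Ks (idx e) + 1)` (`Pk.sharp_op`); the product over `e' ∈ S`, `idx e' < idx e` is at most the product over all `i < idx e` (`Bn ≥ 1`, `idx` injective on `g`). Use `h4` and `(√M)⁻¹ ^ (2 t) ≤ (√M)⁻¹ ^ (|A| + |B|)`.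
-/

set_option autoImplicit false

namespace Pool.Agent.Lib.MP_0430e4_lc.L3

open Finset
open Lin (W wt chw evW EW al flat SymW)
open L2 (Ev OP)

variable {ι : Type*} [Fintype ι] [DecidableEq ι] {n : ℕ} {A B : Finset ι}
  {P : Pm n} {d : ℕ} {a : ℕ → ℝ} {ε D Λ ρ : ℝ} {KV Kx : ℕ} {m t : ℕ} {M η : ℝ} {Ks : ℕ → ℕ}

theorem ktb_num {X M η : ℝ} {t s : ℕ} (hX : 0 ≤ X) (hM : 1 ≤ M) (hη : 0 ≤ η) (hs : s ≤ 2 * t)
    (h : X ^ 2 * M ^ (2 * t) ≤ η ^ 2) : X ≤ η * (Real.sqrt M)⁻¹ ^ s := by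
  have hM0 : 0 ≤ M := by linarith
  have hsq : 1 ≤ Real.sqrt M := Real.one_le_sqrt.2 hM
  have h1 : (X * Real.sqrt M ^ (2 * t)) ^ 2 ≤ η ^ 2 := by
    calc (X * Real.sqrt M ^ (2 * t)) ^ 2 = X ^ 2 * (Real.sqrt M ^ 2) ^ (2 * t) := by ring
      _ = X ^ 2 * M ^ (2 * t) := by rw [Real.sq_sqrt hM0]
      _ ≤ η ^ 2 := h
  have h2 : X * Real.sqrt M ^ (2 * t) ≤ η := (sq_le_sq₀ (by positivity) hη).1 h1
  have h3 : X * Real.sqrt M ^ s ≤ η :=
    le_trans (mul_le_mul_of_nonneg_left (pow_le_pow_right₀ hsq hs) hX) h2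
  rw [inv_pow, ← div_eq_mul_inv, le_div_iff₀ (by positivity)]
  exact h3

/-- telescoping -/
theorem ktb_tele {α : Type*} [DecidableEq α] (idx : α → ℕ) (u v : α → ℝ) (S : Finset α)
    (hidx : Set.InjOn idx S) :
    (∏ e ∈ S, u e) - ∏ e ∈ S, v e = ∑ e ∈ S, (u e - v e) *
      ((∏ e' ∈ S.filter (fun e' => idx e' < idx e), v e') *
        ∏ e' ∈ S.filter (fun e' => idx e < idx e'), u e') := by
  revert hidx
  refine Finset.induction_on_max_value idx S (fun _ => by simp) ?_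
  · intro a s ha hmax ih hidx
    have hinj : Set.InjOn idx s := hidx.mono (by simp)
    have hlt : ∀ e ∈ s, idx e < idx a := by
      intro e he
      refine lt_of_le_of_ne (hmax e he) fun h => ?_
      have := hidx (by simp [he]) (by simp) h
      rw [this] at he
      exact ha he
    rw [Finset.prod_insert ha, Finset.prod_insert ha, Finset.sum_insert ha]
    have e1 : (insert a s).filter (fun e' => idx e' < idx a) = s := by
      ext e
      simp only [Finset.mem_filter, Finset.mem_insert]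
      constructor
      · rintro ⟨rfl | h, h'⟩
        · exact absurd h' (lt_irrefl _)
        · exact h
      · intro h
        exact ⟨Or.inr h, hlt e h⟩
    have e2 : (insert a s).filter (fun e' => idx a < idx e') = ∅ := by
      ext e
      simp only [Finset.mem_filter, Finset.mem_insert, Finset.notMem_empty, iff_false]
      rintro ⟨rfl | h, h'⟩
      · exact lt_irrefl _ h'
      · exact absurd h' (not_lt.2 (hlt e h).le)
    have e3 : ∑ e ∈ s, (u e - v e) *
        ((∏ e' ∈ (insert a s).filter (fun e' => idx e' < idx e), v e') *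
          ∏ e' ∈ (insert a s).filter (fun e' => idx e < idx e'), u e') =
        u a * ∑ e ∈ s, (u e - v e) *
        ((∏ e' ∈ s.filter (fun e' => idx e' < idx e), v e') *
          ∏ e' ∈ s.filter (fun e' => idx e < idx e'), u e') := by
      rw [Finset.mul_sum]
      refine Finset.sum_congr rfl fun e he => ?_
      rw [Finset.filter_insert, if_neg (not_lt.2 (hlt e he).le), Finset.filter_insert,
        if_pos (hlt e he), Finset.prod_insert (by simp [ha])]
      ring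
    rw [e1, e2, e3, ← ih hinj, Finset.prod_empty]
    ring

theorem ktb_prod_le {α : Type*} [DecidableEq α] (idx : α → ℕ) {S : Finset α}
    (hidx : Set.InjOn idx S) {b : ℕ → ℝ} (hb : ∀ i, 1 ≤ b i) {j : ℕ}
    (hj : ∀ e ∈ S, idx e < j) : ∏ e ∈ S, b (idx e) ≤ ∏ i ∈ range j, b i := by
  have h1 : ∏ e ∈ S, b (idx e) = ∏ i ∈ S.image idx, b i := (Finset.prod_image hidx).symm
  have hsub : S.image idx ⊆ range j := by
    intro i hi
    obtain ⟨e, he, rfl⟩ := Finset.mem_image.1 hi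
    exact mem_range.2 (hj e he)
  rw [h1, ← Finset.prod_sdiff hsub]
  have h2 : 1 ≤ ∏ i ∈ range j \ S.image idx, b i :=
    Finset.prod_induction _ (fun x => 1 ≤ x) (fun a b ha hb => one_le_mul_of_one_le_of_one_le ha hb)
      le_rfl fun i _ => hb i
  exact le_mul_of_one_le_left (Finset.prod_nonneg fun i _ => by linarith [hb i]) h2

theorem ktb_term (hP : Pk n P d a ε D Λ ρ KV Kx) (hN : Nk n m t P.k ε D Λ ρ M η KV Kx Ks)
    (hAB : Disjoint A B) (hA : A.card ≤ t) (hB : B.card ≤ t)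
    {g : Finset (Sym2 ι)} (hg : ∀ e ∈ g, ¬ e.IsDiag) (hm : g.card ≤ m)
    {idx : Sym2 ι → ℕ} (hidx : Set.InjOn idx g) (hidm : ∀ e ∈ g, idx e < m)
    {S : Finset (Sym2 ι)} (hS : S ⊆ xed A B g)
    {c : (Fin n → Finset (Sym2 ι)) → ℝ} {c₀ : ℝ} (hc₀ : 0 ≤ c₀) (hc : ∀ C, |c C| ≤ c₀)
    {e₀ : Sym2 ι} (he₀ : e₀ ∈ S) (x : ι → Ev n) :
    KN A B (fun z : ι → Ev n => Ls (g \ S) (fun _ => P.f) c (xe (vw z)) *
      ((P.φ (xe (vw z) e₀) - flat (Ks (idx e₀)) P.φ (xe (vw z) e₀)) *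
      ((∏ e ∈ S.filter (fun e => idx e < idx e₀), flat (Ks (idx e)) P.φ (xe (vw z) e)) *
        ∏ e ∈ S.filter (fun e => idx e₀ < idx e), P.φ (xe (vw z) e))))
      (c₀ * ((1 + Λ) ^ (2 * m))⁻¹ * η * (Real.sqrt M)⁻¹ ^ (A.card + B.card)) x := by
  classical
  have hM : 1 ≤ M := hN.M1
  have hBn := one_le_Bn n KV
  have hΛ := hP.Λ1
  have hΛ1 : (1 : ℝ) ≤ 1 + Λ := by linarith
  have hxg : xed A B g ⊆ g := Finset.filter_subset _ _
  have hSg : S ⊆ g := hS.trans hxg
  have hinjS : Set.InjOn idx S := hidx.mono (by exact_mod_cast hSg)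
  have hKsx : ∀ e ∈ g, Ks (idx e) ≤ Kx := fun e he => (hN.ks _ (hidm e he)).2
  have hKn : ∀ e ∈ g, Ks (idx e) ≤ n := fun e he => by
    have h1 := hKsx e he
    have h2 := hP.Kx2
    omega
  have he₀g : e₀ ∈ g := hSg he₀
  set ρ' : ℝ := 2 / Real.sqrt (n.choose (Ks (idx e₀) + 1)) with hρ'
  have hρ0 : 0 ≤ ρ' := by positivity
  have hk := kls (A := A) (B := B) hAB hg (g' := g \ S) Finset.sdiff_subset
    (fun e w => if e ∈ S then (if idx e < idx e₀ then flat (Ks (idx e)) P.φ w else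
      if e = e₀ then P.φ w - flat (Ks (idx e₀)) P.φ w else P.φ w) else 1)
    (s := fun e => if e ∈ S ∧ idx e < idx e₀ then Bn n (Ks (idx e)) else 1)
    (fun e _ => by
      split_ifs
      · linarith [one_le_Bn n (Ks (idx e))]
      · norm_num) (e₀ := e₀) (hS he₀) (ρ := ρ') hρ0
    (by
      intro e he hne w hw
      by_cases h1 : e ∈ S
      · by_cases h2 : idx e < idx e₀
        · rw [if_pos h1, if_pos h2, if_pos ⟨h1, h2⟩]
          exact hP.abs_flat (hKn e he) w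
        · rw [if_pos h1, if_neg h2, if_neg hne, if_neg (fun h => h2 h.2)]
          exact hP.abs_φ hw
      · rw [if_neg h1, if_neg (fun h => h1 h.1), abs_one])
    (by simpa [he₀] using hP.sharp_op (hKsx e₀ he₀g))
    (f := P.f) (BV := Bn n KV) hBn hP.sum_f hc₀ hc x
  have hdis : Disjoint (S.filter (fun e => idx e < idx e₀)) (S.filter (fun e => idx e₀ < idx e)) := by
    rw [Finset.disjoint_left]
    intro e h1 h2
    have := (Finset.mem_filter.1 h1).2
    have := (Finset.mem_filter.1 h2).2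
    omega
  have hprod : ∏ e ∈ g.erase e₀, (if e ∈ S ∧ idx e < idx e₀ then Bn n (Ks (idx e)) else 1) ≤
      ∏ i ∈ range (idx e₀), Bn n (Ks i) := by
    have h1 : ∏ e ∈ g.erase e₀, (if e ∈ S ∧ idx e < idx e₀ then Bn n (Ks (idx e)) else 1) =
        ∏ e ∈ S.filter (fun e => idx e < idx e₀), Bn n (Ks (idx e)) := by
      rw [← Finset.prod_filter]
      refine Finset.prod_congr ?_ fun _ _ => rfl
      ext e
      simp only [Finset.mem_filter, Finset.mem_erase]
      constructor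
      · rintro ⟨_, h⟩
        exact h
      · rintro h
        exact ⟨⟨fun h' => by rw [h'] at h; exact lt_irrefl _ h.2, hSg h.1⟩, h⟩
    rw [h1]
    exact ktb_prod_le idx (b := fun i => Bn n (Ks i)) 
      (hinjS.mono (by exact_mod_cast Finset.filter_subset _ _)) (fun i => one_le_Bn _ _)
      fun e he => (Finset.mem_filter.1 he).2
  have hpos : (0 : ℝ) ≤ ∏ e ∈ g.erase e₀,
      (if e ∈ S ∧ idx e < idx e₀ then Bn n (Ks (idx e)) else 1) := by
    refine Finset.prod_nonneg fun e _ => ?_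
    split_ifs
    · linarith [one_le_Bn n (Ks (idx e))]
    · norm_num
  refine kn_mono (kn_congr hk ?_) ?_ ?_
  · intro z _
    have e1 : ∏ e ∈ g, (if e ∈ S then (if idx e < idx e₀ then
        flat (Ks (idx e)) P.φ (xe (vw z) e) else
      if e = e₀ then P.φ (xe (vw z) e) - flat (Ks (idx e₀)) P.φ (xe (vw z) e) else
        P.φ (xe (vw z) e)) else 1) =
      (P.φ (xe (vw z) e₀) - flat (Ks (idx e₀)) P.φ (xe (vw z) e₀)) *
      ((∏ e ∈ S.filter (fun e => idx e < idx e₀), flat (Ks (idx e)) P.φ (xe (vw z) e)) *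
        ∏ e ∈ S.filter (fun e => idx e₀ < idx e), P.φ (xe (vw z) e)) := by
      rw [← Finset.prod_subset hSg (fun e _ he => if_neg he), ← Finset.mul_prod_erase S _ he₀]
      congr 1
      · rw [if_pos he₀, if_neg (lt_irrefl _), if_pos rfl]
      · have e2 : S.erase e₀ = S.filter (fun e => idx e < idx e₀) ∪
            S.filter (fun e => idx e₀ < idx e) := by
          ext e
          simp only [Finset.mem_erase, Finset.mem_union, Finset.mem_filter]
          constructor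
          · rintro ⟨h1, h2⟩
            have h3 : idx e ≠ idx e₀ := fun h => h1 (hinjS h2 he₀ h)
            rcases lt_or_gt_of_ne h3 with h | h
            · exact Or.inl ⟨h2, h⟩
            · exact Or.inr ⟨h2, h⟩
          · rintro (⟨h1, h2⟩ | ⟨h1, h2⟩)
            · exact ⟨fun h => by rw [h] at h2; exact lt_irrefl _ h2, h1⟩
            · exact ⟨fun h => by rw [h] at h2; exact lt_irrefl _ h2, h1⟩
        rw [e2, Finset.prod_union hdis]
        congr 1
        · refine Finset.prod_congr rfl fun e he => ?_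
          have h := Finset.mem_filter.1 he
          rw [if_pos h.1, if_pos h.2]
        · refine Finset.prod_congr rfl fun e he => ?_
          have h := Finset.mem_filter.1 he
          rw [if_pos h.1, if_neg (not_lt.2 h.2.le), if_neg]
          intro h'
          rw [h'] at h
          exact lt_irrefl _ h.2
    rw [e1]
  · positivity
  · have h0 : (1 + Λ) ^ (3 * m) * Bn n KV ^ m * (∏ i ∈ range (idx e₀), Bn n (Ks i)) * ρ' ≤
        η * (Real.sqrt M)⁻¹ ^ (A.card + B.card) := by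
      refine ktb_num ?_ hM hN.η0 (by omega) (hN.h4 (idx e₀) (hidm e₀ he₀g))
      have : (0 : ℝ) ≤ ∏ i ∈ range (idx e₀), Bn n (Ks i) :=
        Finset.prod_nonneg fun i _ => by linarith [one_le_Bn n (Ks i)]
      positivity
    have hR : (0 : ℝ) ≤ ∏ i ∈ range (idx e₀), Bn n (Ks i) := hpos.trans hprod
    have h2 : Bn n KV ^ g.card ≤ Bn n KV ^ m := pow_le_pow_right₀ hBn hm
    have h3 : (1 + Λ) ^ (2 * m) * (Bn n KV ^ m * (ρ' * ∏ i ∈ range (idx e₀), Bn n (Ks i))) ≤
        η * (Real.sqrt M)⁻¹ ^ (A.card + B.card) := by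
      refine le_trans ?_ h0
      have h5 : (1 + Λ) ^ (2 * m) ≤ (1 + Λ) ^ (3 * m) := pow_le_pow_right₀ hΛ1 (by omega)
      calc _ ≤ (1 + Λ) ^ (3 * m) * (Bn n KV ^ m * (ρ' * ∏ i ∈ range (idx e₀), Bn n (Ks i))) :=
            mul_le_mul_of_nonneg_right h5 (by positivity)
        _ = _ := by ring
    have h4 : Bn n KV ^ m * (ρ' * ∏ i ∈ range (idx e₀), Bn n (Ks i)) ≤
        ((1 + Λ) ^ (2 * m))⁻¹ * (η * (Real.sqrt M)⁻¹ ^ (A.card + B.card)) := by
      rw [le_inv_mul_iff₀ (by positivity)]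
      exact h3
    calc c₀ * Bn n KV ^ g.card * (ρ' * ∏ e ∈ g.erase e₀,
          (if e ∈ S ∧ idx e < idx e₀ then Bn n (Ks (idx e)) else 1))
        ≤ c₀ * (Bn n KV ^ m * (ρ' * ∏ i ∈ range (idx e₀), Bn n (Ks i))) := by
          rw [mul_assoc]
          refine mul_le_mul_of_nonneg_left ?_ hc₀
          exact mul_le_mul h2 (mul_le_mul_of_nonneg_left hprod hρ0) (mul_nonneg hρ0 hpos)
            (by positivity)
      _ ≤ c₀ * (((1 + Λ) ^ (2 * m))⁻¹ * (η * (Real.sqrt M)⁻¹ ^ (A.card + B.card))) :=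
          mul_le_mul_of_nonneg_left h4 hc₀
      _ = _ := by ring

theorem ktb (hP : Pk n P d a ε D Λ ρ KV Kx) (hN : Nk n m t P.k ε D Λ ρ M η KV Kx Ks)
    (hAB : Disjoint A B) (hA : A.card ≤ t) (hB : B.card ≤ t)
    {g : Finset (Sym2 ι)} (hg : ∀ e ∈ g, ¬ e.IsDiag) (hm : g.card ≤ m)
    {idx : Sym2 ι → ℕ} (hidx : Set.InjOn idx g) (hidm : ∀ e ∈ g, idx e < m)
    {S : Finset (Sym2 ι)} (hS : S ⊆ xed A B g)
    {c : (Fin n → Finset (Sym2 ι)) → ℝ} {c₀ : ℝ} (hc₀ : 0 ≤ c₀) (hc : ∀ C, |c C| ≤ c₀)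
    (x : ι → Ev n) :
    KN A B (fun z : ι → Ev n => Ls (g \ S) (fun _ => P.f) c (xe (vw z)) *
      ((∏ e ∈ S, P.φ (xe (vw z) e)) - ∏ e ∈ S, flat (Ks (idx e)) P.φ (xe (vw z) e)))
      (m * c₀ * ((1 + Λ) ^ (2 * m))⁻¹ * η * (Real.sqrt M)⁻¹ ^ (A.card + B.card)) x := by
  classical
  have hΛ := hP.Λ1
  have hη := hN.η0
  have hxg : xed A B g ⊆ g := Finset.filter_subset _ _
  have hSg : S ⊆ g := hS.trans hxg
  have hinjS : Set.InjOn idx S := hidx.mono (by exact_mod_cast hSg)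
  have hsum := kn_sum (A := A) (B := B) (x := x) S
    (K := fun e₀ (z : ι → Ev n) => Ls (g \ S) (fun _ => P.f) c (xe (vw z)) *
      ((P.φ (xe (vw z) e₀) - flat (Ks (idx e₀)) P.φ (xe (vw z) e₀)) *
      ((∏ e ∈ S.filter (fun e => idx e < idx e₀), flat (Ks (idx e)) P.φ (xe (vw z) e)) *
        ∏ e ∈ S.filter (fun e => idx e₀ < idx e), P.φ (xe (vw z) e))))
    (r := fun _ => c₀ * ((1 + Λ) ^ (2 * m))⁻¹ * η * (Real.sqrt M)⁻¹ ^ (A.card + B.card))
    (fun _ _ => by positivity)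
    (fun e₀ he₀ => ktb_term hP hN hAB hA hB hg hm hidx hidm hS hc₀ hc he₀ x)
  refine kn_mono (kn_congr hsum ?_) ?_ ?_
  · intro z _
    rw [ktb_tele idx (fun e => P.φ (xe (vw z) e)) (fun e => flat (Ks (idx e)) P.φ (xe (vw z) e)) S
      hinjS, Finset.mul_sum]
  · exact Finset.sum_nonneg fun _ _ => by positivity
  · rw [Finset.sum_const, nsmul_eq_mul]
    have h1 : (S.card : ℝ) ≤ m := by
      exact_mod_cast (Finset.card_le_card hSg).trans hm
    calc _ ≤ m * (c₀ * ((1 + Λ) ^ (2 * m))⁻¹ * η * (Real.sqrt M)⁻¹ ^ (A.card + B.card)) :=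
          mul_le_mul_of_nonneg_right h1 (by positivity)
      _ = _ := by ring

end Pool.Agent.Lib.MP_0430e4_lc.L3
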