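import Pool.Agent.Lib.MP_0430e4_lc.L3.PKA
import Pool.Agent.Lib.MP_0430e4_lc.L3.KBR
import Pool.Agent.Lib.MP_0430e4_lc.L3.COSTK

/-!
# KTC: large labels at the crossing edges

PROOF. `flat (Ks (idx e)) P.φ (X e) = Ls {e} (fun _ j => if j ≤ Ks (idx e) then a j else 0) 1 X` (`Pk.single_flat`), and `(if j ≤ Ks then a j else 0) = P.f j + hi e j`, `hi e j = if KV ≤ j ∧ j ≤ Ks (idx e) then a j else 0`.
`Ls_union` (several times, or `prod_Ls`): the product is `Ls g F c X` with `F e = P.f` on `g \ S`, `P.f + hi e` on `S`; expand the product of the `F e` inside `Ls`: `∑ (Y ⊆ S) Ls g (F_Y) c`, `F_Y e = hi e` on `Y`, `P.f` elsewhere; `Y = ∅` is the term subtracted.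
For `Y ≠ ∅`: `nre` with `K = Kx + 1`, `θ = KV` (`costx`: `2 cost ≥ ∑ (e ∈ xed A B g) oc C {e} ≥ KV`), `|F_Y e j| ≤ (D ε) ^ j`. The square of the bound is `(c₀ Lc)² 2 ^ (|A|+|B|) ε ^ KV ≤ (c₀ Lc)² 2 ^ (2t) (ε ^ k) ^ (2 t)` and
`(M ε ^ k) ^ (2 t) ≤ M ε ^ k`; `h1`. The invariance `hperm` of `c` is used in `nre`. At most `2 ^ m` sets `Y`.
-/

set_option autoImplicit false

namespace Pool.Agent.Lib.MP_0430e4_lc.L3

open Finset
open Lin (W wt chw evW EW al flat SymW)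
open L2 (Ev OP)

theorem ktc_num {m s t : ℕ} {L Λ M η e X c r : ℝ} (hL : 0 ≤ L) (hΛ : 1 ≤ Λ) (hM : 1 ≤ M)
    (he : 0 ≤ e) (he1 : M * e ≤ 1) (hX : X ≤ e ^ s) (hX0 : 0 ≤ X) (hs : 1 ≤ s)
    (hst : s ≤ 2 * t)
    (h1 : (L * (1 + Λ) ^ (3 * m)) ^ 2 * (M * e) ≤ η ^ 2)
    (hr : r = c * 2 ^ t * ((1 + Λ) ^ (2 * m))⁻¹ * η * (Real.sqrt M)⁻¹ ^ s) :
    (c * L) ^ 2 * 2 ^ s * X ≤ r ^ 2 := by
  have hM0 : 0 < M := by linarith
  have hΛ1 : (1 : ℝ) ≤ 1 + Λ := by linarith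
  have hp : (0 : ℝ) < (1 + Λ) ^ (2 * m) := by positivity
  have e1 : r ^ 2 = c ^ 2 * (2 : ℝ) ^ (2 * t) * (((1 + Λ) ^ (2 * m)) ^ 2)⁻¹ * η ^ 2 * (M ^ s)⁻¹ := by
    have h5 : ((Real.sqrt M)⁻¹ ^ s) ^ 2 = (M ^ s)⁻¹ := by
      rw [← pow_mul, mul_comm s 2, pow_mul, inv_pow, Real.sq_sqrt hM0.le, inv_pow]
    rw [hr]
    calc _ = c ^ 2 * (2 : ℝ) ^ (2 * t) * (((1 + Λ) ^ (2 * m)) ^ 2)⁻¹ * η ^ 2 *
          ((Real.sqrt M)⁻¹ ^ s) ^ 2 := by ring
      _ = _ := by rw [h5]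
  have h2 : (2 : ℝ) ^ s ≤ 2 ^ (2 * t) := pow_le_pow_right₀ (by norm_num) hst
  have h3 : M ^ s * X ≤ M * e := by
    calc M ^ s * X ≤ M ^ s * e ^ s := mul_le_mul_of_nonneg_left hX (by positivity)
      _ = (M * e) ^ s := by rw [mul_pow]
      _ ≤ (M * e) ^ 1 := pow_le_pow_of_le_one (by positivity) he1 hs
      _ = M * e := pow_one _
  have h4 : (L * (1 + Λ) ^ (2 * m)) ^ 2 * (M ^ s * X) ≤ η ^ 2 := by
    have h6 : (L * (1 + Λ) ^ (2 * m)) ^ 2 ≤ (L * (1 + Λ) ^ (3 * m)) ^ 2 := by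
      refine pow_le_pow_left₀ (by positivity) ?_ 2
      exact mul_le_mul_of_nonneg_left (pow_le_pow_right₀ hΛ1 (by omega)) hL
    calc _ ≤ (L * (1 + Λ) ^ (3 * m)) ^ 2 * (M * e) :=
          mul_le_mul h6 h3 (by positivity) (by positivity)
      _ ≤ η ^ 2 := h1
  rw [e1]
  have h7 : L ^ 2 * X ≤ (((1 + Λ) ^ (2 * m)) ^ 2)⁻¹ * η ^ 2 * (M ^ s)⁻¹ := by
    rw [← div_eq_mul_inv, le_div_iff₀ (by positivity), mul_comm _ (η ^ 2), ← div_eq_mul_inv,
      le_div_iff₀ (by positivity)]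
    calc L ^ 2 * X * M ^ s * ((1 + Λ) ^ (2 * m)) ^ 2 = (L * (1 + Λ) ^ (2 * m)) ^ 2 * (M ^ s * X) := by
          ring
      _ ≤ _ := h4
  calc (c * L) ^ 2 * 2 ^ s * X = c ^ 2 * (2 ^ s * (L ^ 2 * X)) := by ring
    _ ≤ c ^ 2 * (2 ^ (2 * t) * ((((1 + Λ) ^ (2 * m)) ^ 2)⁻¹ * η ^ 2 * (M ^ s)⁻¹)) := by
        refine mul_le_mul_of_nonneg_left ?_ (by positivity)
        exact mul_le_mul h2 h7 (by positivity) (by positivity)
    _ = _ := by ring

theorem ktc_union {α : Type*} [DecidableEq α] {n : ℕ} {g' : Finset α} (F : α → ℕ → ℝ)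
    {c : (Fin n → Finset α) → ℝ} (hc : Loc g' c) (X : α → W n) (S : Finset α)
    (hd : Disjoint g' S) :
    Ls g' F c X * ∏ e ∈ S, Ls {e} F (fun _ => 1) X = Ls (g' ∪ S) F c X := by
  induction S using Finset.induction_on with
  | empty => simp
  | insert e S he ih =>
    have hd1 : Disjoint g' S := Finset.disjoint_of_subset_right (Finset.subset_insert _ _) hd
    have hd2 : Disjoint (g' ∪ S) {e} := by
      rw [Finset.disjoint_singleton_right, Finset.mem_union, not_or]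
      exact ⟨Finset.disjoint_right.1 hd (Finset.mem_insert_self _ _), he⟩
    have hloc : Loc (g' ∪ S) c := by
      intro C
      rw [hc C, hc fun i => C i ∩ (g' ∪ S)]
      congr 1
      funext i
      rw [Finset.inter_assoc, Finset.inter_eq_right.2 Finset.subset_union_left]
    have h1 : Loc (n := n) {e} (fun _ : Fin n → Finset α => (1 : ℝ)) := fun _ => rfl
    rw [Finset.prod_insert he, mul_left_comm, ih hd1, mul_comm, Ls_union hd2 F hloc h1 X]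
    have e1 : g' ∪ S ∪ {e} = g' ∪ insert e S := by
      rw [Finset.union_assoc, Finset.union_comm S, ← Finset.insert_eq]
    rw [e1]
    refine Ls_congr (fun _ _ => rfl) fun C _ _ => ?_
    rw [mul_one]

theorem ktc_single_add {α : Type*} [DecidableEq α] {n : ℕ} (e : α) (F G H : α → ℕ → ℝ)
    (h : ∀ j, F e j = G e j + H e j) (X : α → W n) :
    Ls {e} F (fun _ => 1) X = Ls {e} G (fun _ => 1) X + Ls {e} H (fun _ => 1) X := by
  rw [Ls_single, Ls_single, Ls_single, ← Finset.sum_add_distrib]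
  refine Finset.sum_congr rfl fun w _ => ?_
  rw [h]
  ring

theorem ktc_split (y : ℝ) {j KV K : ℕ} (hK : KV ≤ K) :
    (if j ≤ K then y else 0) =
      (if KV ≤ j ∧ j ≤ K then y else 0) + if j < KV then y else 0 := by
  by_cases h1 : j < KV
  · rw [if_pos (by omega), if_neg (by omega), if_pos h1, zero_add]
  · by_cases h2 : j ≤ K
    · rw [if_pos h2, if_pos ⟨by omega, h2⟩, if_neg h1, add_zero]
    · rw [if_neg h2, if_neg (by omega), if_neg h1, add_zero]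

theorem ktc_term {ι : Type*} [Fintype ι] [DecidableEq ι] {n : ℕ} {A B : Finset ι}
    {P : Pm n} {d : ℕ} {a : ℕ → ℝ} {ε D Λ ρ : ℝ} {KV Kx : ℕ} {m t : ℕ} {M η : ℝ} {Ks : ℕ → ℕ}
    (hP : Pk n P d a ε D Λ ρ KV Kx) (hN : Nk n m t P.k ε D Λ ρ M η KV Kx Ks)
    (hAB : Disjoint A B) (hA : A.card ≤ t) (hB : B.card ≤ t)
    {g : Finset (Sym2 ι)} (hg : ∀ e ∈ g, ¬ e.IsDiag) (hm : g.card ≤ m)
    {idx : Sym2 ι → ℕ} (hidm : ∀ e ∈ g, idx e < m)
    {S : Finset (Sym2 ι)} (hS : S ⊆ xed A B g)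
    {c : (Fin n → Finset (Sym2 ι)) → ℝ} {c₀ : ℝ} (hc₀ : 0 ≤ c₀) (hc : ∀ C, |c C| ≤ c₀)
    (hloc : Loc (g \ S) c) (hperm : ∀ C (σ : Equiv.Perm (Fin n)), c (C ∘ σ) = c C)
    {hi : Sym2 ι → ℕ → ℝ}
    (hhi : ∀ e j, hi e j = if KV ≤ j ∧ j ≤ Ks (idx e) then a j else 0)
    {Y : Finset (Sym2 ι)} (hY : Y ⊆ S) (hY0 : Y.Nonempty)
    (x : ι → Ev n) (hx : gd (okw n d) x (vs g \ (A ∪ B))) :
    KN A B (fun z : ι → Ev n => Ls (g \ S) (fun _ => P.f) c (xe (vw z)) *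
      ((∏ e ∈ Y, Ls {e} hi (fun _ => 1) (xe (vw z))) *
        ∏ e ∈ S \ Y, Ls {e} (fun _ => P.f) (fun _ => 1) (xe (vw z))))
      (c₀ * 2 ^ t * ((1 + Λ) ^ (2 * m))⁻¹ * η * (Real.sqrt M)⁻¹ ^ (A.card + B.card)) x := by
  classical
  have hM := hN.M1
  have hη := hN.η0
  have hΛ := hP.Λ1
  have hε0 := hP.ε0
  have hε1 := hP.ε1
  have hxg : xed A B g ⊆ g := Finset.filter_subset _ _
  have hSg : S ⊆ g := hS.trans hxg
  have hYg : Y ⊆ g := hY.trans hSg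
  obtain ⟨e₀, he₀⟩ := hY0
  have hDε : 0 ≤ D * ε := by
    have := hP.D1
    positivity
  have hn := nre hP.n0 hAB hg hm hP.ε0 hP.ε1 hP.D1 hc₀
    (K := Kx + 1) (f := fun e => if e ∈ Y then hi e else P.f) (c := c)
    (by
      intro e he j
      by_cases h : e ∈ Y
      · rw [if_pos h, hhi]
        split_ifs with h'
        · exact hP.a1 j (h'.2.trans (hN.ks _ (hidm e he)).2)
        · rw [abs_zero]; positivity
      · rw [if_neg h]
        exact hP.f_le j)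
    (by
      intro e he j hj
      by_cases h : e ∈ Y
      · rw [if_pos h, hhi, if_neg]
        rintro ⟨_, h'⟩
        have := (hN.ks _ (hidm e he)).2
        omega
      · rw [if_neg h]
        exact hP.f_zero hj)
    hc hperm
    (θ := KV)
    (by
      intro C hC _ hf
      have h1 := costx hAB hg hC
      refine le_trans ?_ h1
      have h2 := hf e₀ (hYg he₀)
      rw [if_pos he₀, hhi] at h2
      have h3 : KV ≤ oc C {e₀} := by
        by_contra h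
        exact h2 (if_neg fun h' => h h'.1)
      have h4 : (oc C {e₀} : ℤ) ≤ ∑ e ∈ xed A B g, (oc C {e} : ℤ) :=
        Finset.single_le_sum (f := fun e => (oc C {e} : ℤ)) (fun _ _ => by positivity)
          (hS (hY he₀))
      exact le_trans (by exact_mod_cast h3) h4)
    x
    (by
      intro u hu v hv hu' hv' huv
      exact hP.okw_abs (hx u (Finset.mem_sdiff.2 ⟨hu, hu'⟩) v (Finset.mem_sdiff.2 ⟨hv, hv'⟩) huv))
  have hL : 1 ≤ Lc n m (Kx + 1) D ε := one_le_Lc hP.D1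
  have hAne : 1 ≤ A.card := by
    obtain ⟨v, hv⟩ := (Finset.mem_filter.1 (hS (hY he₀))).2.1
    exact Finset.card_pos.2 ⟨v, (Finset.mem_inter.1 hv).2⟩
  unfold KN
  refine kb_mono (kb_congr hn fun z _ => ?_) ?_
  · have e1 : Ls (g \ S) (fun _ => P.f) c (xe (vw z)) =
        Ls (g \ S) (fun e => if e ∈ Y then hi e else P.f) c (xe (vw z)) := by
      refine Ls_congr (fun e he => ?_) fun _ _ _ => rfl
      rw [if_neg fun h => (Finset.mem_sdiff.1 he).2 (hY h)]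
    have e2 : (∏ e ∈ Y, Ls {e} hi (fun _ => 1) (xe (vw z))) *
        ∏ e ∈ S \ Y, Ls {e} (fun _ => P.f) (fun _ => 1) (xe (vw z)) =
        ∏ e ∈ S, Ls {e} (fun e => if e ∈ Y then hi e else P.f) (fun _ => 1) (xe (vw z)) := by
      rw [← Finset.prod_sdiff hY, mul_comm]
      congr 1
      · refine Finset.prod_congr rfl fun e he => Ls_congr (fun e' he' => ?_) fun _ _ _ => rfl
        rw [Finset.mem_singleton.1 he', if_neg (Finset.mem_sdiff.1 he).2]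
      · refine Finset.prod_congr rfl fun e he => Ls_congr (fun e' he' => ?_) fun _ _ _ => rfl
        rw [Finset.mem_singleton.1 he', if_pos he]
    rw [e1, e2, ktc_union _ hloc _ S Finset.sdiff_disjoint, Finset.sdiff_union_of_subset hSg]
  · refine mul_le_mul_of_nonneg_right ?_ (by positivity)
    refine ktc_num (m := m) (s := A.card + B.card) (t := t) (Λ := Λ) (M := M) (η := η)
      (e := ε ^ P.k) (by linarith) hΛ hM (by positivity) hN.mek ?_ (by positivity) (by omega)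
      (by omega) hN.h1 ?_
    · rw [← pow_mul]
      refine pow_le_pow_of_le_one hε0.le hε1 (le_trans ?_ hN.kv)
      calc P.k * (A.card + B.card) ≤ P.k * (2 * t) := Nat.mul_le_mul_left _ (by omega)
        _ = 2 * t * P.k := by ring
    · ring

theorem ktc {ι : Type*} [Fintype ι] [DecidableEq ι] {n : ℕ} {A B : Finset ι}
    {P : Pm n} {d : ℕ} {a : ℕ → ℝ} {ε D Λ ρ : ℝ} {KV Kx : ℕ} {m t : ℕ} {M η : ℝ} {Ks : ℕ → ℕ}
    (ht : 1 ≤ t)
    (hP : Pk n P d a ε D Λ ρ KV Kx) (hN : Nk n m t P.k ε D Λ ρ M η KV Kx Ks)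
    (hAB : Disjoint A B) (hA : A.card ≤ t) (hB : B.card ≤ t)
    {g : Finset (Sym2 ι)} (hg : ∀ e ∈ g, ¬ e.IsDiag) (hm : g.card ≤ m)
    {idx : Sym2 ι → ℕ} (hidm : ∀ e ∈ g, idx e < m)
    {S : Finset (Sym2 ι)} (hS : S ⊆ xed A B g)
    {c : (Fin n → Finset (Sym2 ι)) → ℝ} {c₀ : ℝ} (hc₀ : 0 ≤ c₀) (hc : ∀ C, |c C| ≤ c₀)
    (hloc : Loc (g \ S) c) (hperm : ∀ C (σ : Equiv.Perm (Fin n)), c (C ∘ σ) = c C)
    (x : ι → Ev n) (hx : gd (okw n d) x (vs g \ (A ∪ B))) :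
    KN A B (fun z : ι → Ev n => Ls (g \ S) (fun _ => P.f) c (xe (vw z)) *
      ((∏ e ∈ S, flat (Ks (idx e)) P.φ (xe (vw z) e)) -
        ∏ e ∈ S, Ls {e} (fun _ => P.f) (fun _ => 1) (xe (vw z))))
      (2 ^ m * 2 ^ t * c₀ * ((1 + Λ) ^ (2 * m))⁻¹ * η * (Real.sqrt M)⁻¹ ^ (A.card + B.card)) x := by
  classical
  have hM := hN.M1
  have hη := hN.η0
  have hΛ := hP.Λ1
  have hxg : xed A B g ⊆ g := Finset.filter_subset _ _
  have hSg : S ⊆ g := hS.trans hxg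
  set hi : Sym2 ι → ℕ → ℝ := fun e j => if KV ≤ j ∧ j ≤ Ks (idx e) then a j else 0 with hhi
  have hsum := kn_sum (A := A) (B := B) (x := x) (S.powerset.erase ∅)
    (K := fun Y (z : ι → Ev n) => Ls (g \ S) (fun _ => P.f) c (xe (vw z)) *
      ((∏ e ∈ Y, Ls {e} hi (fun _ => 1) (xe (vw z))) *
        ∏ e ∈ S \ Y, Ls {e} (fun _ => P.f) (fun _ => 1) (xe (vw z))))
    (r := fun _ => c₀ * 2 ^ t * ((1 + Λ) ^ (2 * m))⁻¹ * η *
      (Real.sqrt M)⁻¹ ^ (A.card + B.card))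
    (fun _ _ => by positivity)
    (fun Y hY => ktc_term hP hN hAB hA hB hg hm hidm hS hc₀ hc hloc hperm (fun _ _ => rfl)
      (Finset.mem_powerset.1 (Finset.mem_of_mem_erase hY))
      (Finset.nonempty_iff_ne_empty.2 (Finset.ne_of_mem_erase hY)) x hx)
  refine kn_mono (kn_congr hsum ?_) ?_ ?_
  · intro z _
    have e1 : ∏ e ∈ S, flat (Ks (idx e)) P.φ (xe (vw z) e) =
        ∏ e ∈ S, (Ls {e} hi (fun _ => 1) (xe (vw z)) +
          Ls {e} (fun _ => P.f) (fun _ => 1) (xe (vw z))) := by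
      refine Finset.prod_congr rfl fun e he => ?_
      rw [hP.single_flat e (Ks (idx e)) (xe (vw z))]
      refine ktc_single_add e _ _ _ (fun j => ?_) _
      have hK := (hN.ks _ (hidm e (hSg he))).1
      have := ktc_split (a j) (j := j) hK
      rw [← hP.f j] at this
      exact this
    rw [e1, Finset.prod_add, ← Finset.add_sum_erase _ _ (Finset.empty_mem_powerset _),
      Finset.prod_empty, Finset.sdiff_empty, one_mul, add_sub_cancel_left, Finset.mul_sum]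
  · exact Finset.sum_nonneg fun _ _ => by positivity
  · rw [Finset.sum_const, nsmul_eq_mul]
    have h1 : ((S.powerset.erase ∅).card : ℝ) ≤ 2 ^ m := by
      have : (S.powerset.erase ∅).card ≤ 2 ^ m := by
        refine (Finset.card_le_card (Finset.erase_subset _ _)).trans ?_
        rw [Finset.card_powerset]
        exact Nat.pow_le_pow_right (by norm_num) ((Finset.card_le_card hSg).trans hm)
      exact_mod_cast this
    calc _ ≤ 2 ^ m * (c₀ * 2 ^ t * ((1 + Λ) ^ (2 * m))⁻¹ * η *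
          (Real.sqrt M)⁻¹ ^ (A.card + B.card)) := mul_le_mul_of_nonneg_right h1 (by positivity)
      _ = _ := by ring

end Pool.Agent.Lib.MP_0430e4_lc.L3
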