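import Pool.Agent.Lib.MP_0430e4_lc.L3.PKA
import Pool.Agent.Lib.MP_0430e4_lc.L3.KBR
import Pool.Agent.Lib.MP_0430e4_lc.L3.COSTK

/-!
# KTD: the main term

PROOF. By `sexp_Ls` (with `v b C = if Cr A B b then cum (cf P.k C) b else 0`; `Ls` of the zero function is 0) the kernel is `Ls g (fun _ => P.f) kg X`, `kg C = sexp (v · C) g`, `|kg| ≤ 2 ^ (2 ^ m) * c₁ ^ m` (`cum_bound`, `abs_sexp_le`), invariant (`perm_cf`),
`nre` with `K = Kx + 1`, `θ = P.k * (|A| + |B|)` (`costk`; `vs g ∩ (A ∪ B) = A ∪ B`; labels at least `P.k` by `Pk.f_low`): the square of the bound is `(C Lc)² 2 ^ (|A| + |B|) ε ^ (k (|A| + |B|))`, and `(M ε ^ k) ^ (|A| + |B|) ≤ M ε ^ k`; `h1`.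
-/

set_option autoImplicit false

namespace Pool.Agent.Lib.MP_0430e4_lc.L3

open Finset
open Lin (W wt chw evW EW al flat SymW)
open L2 (Ev OP)

theorem ktd_num {m s t : ℕ} {L Λ M η e X c r : ℝ} (hL : 0 ≤ L) (hΛ : 1 ≤ Λ) (hM : 1 ≤ M)
    (he : 0 ≤ e) (he1 : M * e ≤ 1) (hX : X ≤ e ^ s) (hX0 : 0 ≤ X) (hs : 1 ≤ s)
    (hst : s ≤ 2 * t)
    (h1 : (L * (1 + Λ) ^ (3 * m)) ^ 2 * (M * e) ≤ η ^ 2)
    (hr : r = c * 2 ^ t * ((1 + Λ) ^ (2 * m))⁻¹ * η * (Real.sqrt M)⁻¹ ^ s) :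
    (c * L) ^ 2 * 2 ^ s * X ≤ r ^ 2 := by
  have hM0 : 0 < M := by linarith
  have hΛ1 : (1 : ℝ) ≤ 1 + Λ := by linarith
  have hp : (0 : ℝ) < (1 + Λ) ^ (2 * m) := by positivity
  have e1 : r ^ 2 = c ^ 2 * (2 : ℝ) ^ (2 * t) * (((1 + Λ) ^ (2 * m)) ^ 2)⁻¹ * η ^ 2 * (M ^ s)⁻¹ := by
    have h5 : ((Real.sqrt M)⁻¹ ^ s) ^ 2 = (M ^ s)⁻¹ := by
      rw [← pow_mul, mul_comm s 2, pow_mul, inv_pow, Real.sq_sqrt hM0.le, inv_pow]
    rw [hr]
    calc _ = c ^ 2 * (2 : ℝ) ^ (2 * t) * (((1 + Λ) ^ (2 * m)) ^ 2)⁻¹ * η ^ 2 *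
          ((Real.sqrt M)⁻¹ ^ s) ^ 2 := by ring
      _ = _ := by rw [h5]
  have h2 : (2 : ℝ) ^ s ≤ 2 ^ (2 * t) := pow_le_pow_right₀ (by norm_num) hst
  have h3 : M ^ s * X ≤ M * e := by
    calc M ^ s * X ≤ M ^ s * e ^ s := mul_le_mul_of_nonneg_left hX (by positivity)
      _ = (M * e) ^ s := by rw [mul_pow]
      _ ≤ (M * e) ^ 1 := pow_le_pow_of_le_one (by positivity) he1 hs
      _ = M * e := pow_one _
  have h4 : (L * (1 + Λ) ^ (2 * m)) ^ 2 * (M ^ s * X) ≤ η ^ 2 := by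
    have h6 : (L * (1 + Λ) ^ (2 * m)) ^ 2 ≤ (L * (1 + Λ) ^ (3 * m)) ^ 2 := by
      refine pow_le_pow_left₀ (by positivity) ?_ 2
      exact mul_le_mul_of_nonneg_left (pow_le_pow_right₀ hΛ1 (by omega)) hL
    calc _ ≤ (L * (1 + Λ) ^ (3 * m)) ^ 2 * (M * e) :=
          mul_le_mul h6 h3 (by positivity) (by positivity)
      _ ≤ η ^ 2 := h1
  rw [e1]
  have h7 : L ^ 2 * X ≤ (((1 + Λ) ^ (2 * m)) ^ 2)⁻¹ * η ^ 2 * (M ^ s)⁻¹ := by
    rw [← div_eq_mul_inv, le_div_iff₀ (by positivity), mul_comm _ (η ^ 2), ← div_eq_mul_inv,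
      le_div_iff₀ (by positivity)]
    calc L ^ 2 * X * M ^ s * ((1 + Λ) ^ (2 * m)) ^ 2 = (L * (1 + Λ) ^ (2 * m)) ^ 2 * (M ^ s * X) := by
          ring
      _ ≤ _ := h4
  calc (c * L) ^ 2 * 2 ^ s * X = c ^ 2 * (2 ^ s * (L ^ 2 * X)) := by ring
    _ ≤ c ^ 2 * (2 ^ (2 * t) * ((((1 + Λ) ^ (2 * m)) ^ 2)⁻¹ * η ^ 2 * (M ^ s)⁻¹)) := by
        refine mul_le_mul_of_nonneg_left ?_ (by positivity)
        exact mul_le_mul h2 h7 (by positivity) (by positivity)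
    _ = _ := by ring

theorem ktd_abs_cf {ι : Type*} [DecidableEq ι] {n : ℕ} (k : ℕ) (C : Fin n → Finset (Sym2 ι))
    (g : Finset (Sym2 ι)) : |cf k C g| ≤ 1 := by
  unfold cf
  split_ifs <;> simp

theorem ktd_Ls_zero {ε' : Type*} [DecidableEq ε'] {n : ℕ} (g : Finset ε') (f : ε' → ℕ → ℝ)
    (X : ε' → W n) : Ls g f (fun _ => 0) X = 0 := by
  unfold Ls
  simp

theorem ktd (m : ℕ) : ∃ C₁ : ℝ, 1 ≤ C₁ ∧
    ∀ {ι : Type} [Fintype ι] [DecidableEq ι] {n : ℕ} {A B : Finset ι}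
    {P : Pm n} {d : ℕ} {a : ℕ → ℝ} {ε D Λ ρ : ℝ} {KV Kx : ℕ} {t : ℕ} {M η : ℝ} {Ks : ℕ → ℕ}
    (_ : 1 ≤ t)
    (_ : Pk n P d a ε D Λ ρ KV Kx) (_ : Nk n m t P.k ε D Λ ρ M η KV Kx Ks)
    (_ : Disjoint A B) (_ : A.card ≤ t) (_ : B.card ≤ t) (_ : A.Nonempty) (_ : B.Nonempty)
    {g : Finset (Sym2 ι)} (_ : ∀ e ∈ g, ¬ e.IsDiag) (_ : g.card ≤ m) (_ : A ⊆ vs g) (_ : B ⊆ vs g)
    (x : ι → Ev n) (_ : gd (okw n d) x (vs g \ (A ∪ B))),
    KN A B (fun z : ι → Ev n => sexp (fun b => if Cr A B b then Vb P (vw z) b else 0) g)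
      (C₁ * 2 ^ t * ((1 + Λ) ^ (2 * m))⁻¹ * η * (Real.sqrt M)⁻¹ ^ (A.card + B.card)) x := by
  obtain ⟨K, hK1, hK⟩ := cum_bound m
  refine ⟨2 ^ (2 ^ m) * K ^ m, ?_, ?_⟩
  · exact one_le_mul_of_one_le_of_one_le (one_le_pow₀ (by norm_num)) (one_le_pow₀ hK1)
  intro ι _ _ n A B P d a ε D Λ ρ KV Kx t M η Ks ht hP hN hAB hA hB hA0 hB0 g hg hm hAg hBg x hx
  have hM := hN.M1
  have hη := hN.η0
  have hΛ := hP.Λ1
  have hK0 : 0 ≤ K := by linarith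
  have hkg : ∀ z : ι → Ev n, sexp (fun b => if Cr A B b then Vb P (vw z) b else 0) g =
      Ls g (fun _ => P.f) (fun C => sexp (fun b => if Cr A B b then cum (cf P.k C) b else 0) g)
        (xe (vw z)) := by
    intro z
    rw [← sexp_Ls g (fun _ => P.f) (v := fun b C => if Cr A B b then cum (cf P.k C) b else 0) ?_
      (xe (vw z))]
    · refine sexp_congr fun b _ _ => ?_
      by_cases h : Cr A B b
      · simp only [if_pos h]
        rfl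
      · simp only [if_neg h]
        exact (ktd_Ls_zero _ _ _).symm
    · intro b _
      by_cases h : Cr A B b
      · simp only [if_pos h]
        exact loc_cum P.k b
      · simp only [if_neg h]
        exact fun _ => rfl
  set s := A.card + B.card with hs
  have hvs : vs g ∩ (A ∪ B) = A ∪ B := Finset.inter_eq_right.2 (Finset.union_subset hAg hBg)
  have hcard : (A ∪ B).card = s := Finset.card_union_of_disjoint hAB
  have hn := nre hP.n0 hAB hg hm hP.ε0 hP.ε1 hP.D1 (c₀ := 2 ^ (2 ^ m) * K ^ m) (by positivity)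
    (K := Kx + 1) (f := fun _ => P.f)
    (c := fun C => sexp (fun b => if Cr A B b then cum (cf P.k C) b else 0) g)
    (fun _ _ j => hP.f_le j) (fun _ _ j hj => hP.f_zero hj)
    (by
      intro C
      refine (abs_sexp_le hK1 ?_).trans ?_
      · intro b hb _
        split_ifs
        · exact hK _ b ((Finset.card_le_card hb).trans hm) fun b' _ => ktd_abs_cf _ _ _
        · rw [abs_zero]; exact hK0
      · refine mul_le_mul ?_ (pow_le_pow_right₀ hK1 hm) (by positivity) (by positivity)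
        exact pow_le_pow_right₀ (by norm_num) (Nat.pow_le_pow_right (by norm_num) hm))
    (by
      intro C σ
      simp only [perm_cf])
    (θ := P.k * s)
    (by
      intro C hC hc hf
      have h := costk hAB hg hC (fun e he => (hP.f_low (hf e he)).1) hc
      rw [hvs, hcard] at h
      push_cast
      exact h)
    x
    (by
      intro u hu v hv hu' hv' huv
      exact hP.okw_abs (hx u (Finset.mem_sdiff.2 ⟨hu, hu'⟩) v (Finset.mem_sdiff.2 ⟨hv, hv'⟩) huv))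
  have hA1 : 1 ≤ A.card := hA0.card_pos
  have hL : 1 ≤ Lc n m (Kx + 1) D ε := one_le_Lc hP.D1
  have hε0 := hP.ε0
  unfold KN
  refine kb_mono (kb_congr hn fun z _ => (hkg z).symm) ?_
  refine mul_le_mul_of_nonneg_right ?_ (by positivity)
  refine ktd_num (m := m) (s := s) (t := t) (Λ := Λ) (M := M) (η := η) (e := ε ^ P.k)
    (by linarith) hΛ hM (by positivity) hN.mek ?_ (by positivity) (by omega) (by omega)
    hN.h1 ?_
  · rw [← pow_mul]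
  · ring

end Pool.Agent.Lib.MP_0430e4_lc.L3
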