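import Pool.Agent.Lib.MP_0430e4_lc.L3.KTA
import Pool.Agent.Lib.MP_0430e4_lc.L3.KTB
import Pool.Agent.Lib.MP_0430e4_lc.L3.KTC
import Pool.Agent.Lib.MP_0430e4_lc.L3.KTD

/-!
# CRH: the crossing kernels are small

PROOF. Let `g ⊆ ed (I ∪ A ∪ B)` be nonempty, `A' = vs g ∩ A`, `B' = vs g ∩ B`; `Cr A B b = Cr A' B' b` for `b ⊆ g`. If `A'` or `B'` is empty then all `ucr` are 0 and the kernel is 0. Expand `sexp (ucr ..) g` over `π ∈ parts g` with all blocks crossing. A single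
crossing block is an edge of `xed A' B' g`; `S = S π` is the set of these edges, `big π` the blocks with at least two edges, their union is `g \ S`, and by `prod_Ls` the term of `π` is
`H z * (Ls (g \ S) f c X * (∏ e ∈ xed A' B' g \ S, (1 + ψ)) * ∏ e ∈ S, φ)`, `c C = ∏ b ∈ big π, cum (cf P.k C) b` (`Loc (g \ S)`, permutation invariant, `|c| ≤ c₁ ^ m`), `H z = ∏ e ∈ g \ xed A' B' g, (1 + ψ (x_e))`, the same for all `π`: product of a function
that does not depend on `B'` and one that does not depend on `A'`, each at most `(1 + Λ) ^ m` (`kn_mul`). The bracket is `kta + ktb + ktc + (Ls (g \ S) f c X * ∏ e ∈ S, Ls {e} f 1 X)`, and the sum over `π` of the last terms is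
`sexp (b ↦ if Cr A' B' b then Vb P (vw z) b else 0) g` (for a single edge `Vb P (vw z) {e} = Ls {e} f 1 X`, since `cum (cf k C) {e} = cf k C {e} = 1` when `P.f (oc C {e}) ≠ 0`: `Ls_congr`): `ktd`. At most `2 ^ (2 ^ m)` partitions. `idx`: an enumeration of `g`.
-/

set_option autoImplicit false

namespace Pool.Agent.Lib.MP_0430e4_lc.L3

open Finset
open Lin (W wt chw evW EW al flat SymW)
open L2 (Ev OP)

theorem vb_single {n : ℕ} {P : Pm n} {d : ℕ} {a : ℕ → ℝ} {ε D Λ ρ : ℝ} {KV Kx : ℕ}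
    (hP : Pk n P d a ε D Λ ρ KV Kx) {ι : Type*} [DecidableEq ι] (x : ι → W n) (e : Sym2 ι) :
    Vb P x {e} = Ls {e} (fun _ => P.f) (fun _ => 1) (xe x) := by
  unfold Vb
  refine Ls_congr (fun _ _ => rfl) fun C _ hf => ?_
  have h1 := (hP.f_low (hf e (Finset.mem_singleton_self e))).1
  rw [cum_singleton (cf_empty _ _)]
  unfold cf
  rw [if_pos]
  intro v J hJ hJ0
  have : J = {e} := (Finset.subset_singleton_iff.1
    (hJ.trans (Finset.filter_subset _ _))).resolve_left hJ0.ne_empty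
  rw [this]
  exact h1

section crhaux

variable {ι : Type*} [DecidableEq ι]

theorem crh_vs_mono {b g : Finset (Sym2 ι)} (h : b ⊆ g) : vs b ⊆ vs g :=
  Finset.biUnion_subset_biUnion_of_subset_left _ h

theorem crh_Cr {A B : Finset ι} {b g : Finset (Sym2 ι)} (h : b ⊆ g) :
    Cr (vs g ∩ A) (vs g ∩ B) b ↔ Cr A B b := by
  unfold Cr
  rw [← Finset.inter_assoc, ← Finset.inter_assoc, Finset.inter_eq_left.2 (crh_vs_mono h)]

/-- The union of the single blocks. -/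
def crhS (π : Finset (Finset (Sym2 ι))) : Finset (Sym2 ι) :=
  (π.filter fun b => b.card = 1).biUnion id

/-- The blocks with at least two edges. -/
def crhT (π : Finset (Finset (Sym2 ι))) : Finset (Finset (Sym2 ι)) :=
  π.filter fun b => ¬ b.card = 1

theorem crh_dis {g : Finset (Sym2 ι)} {π : Finset (Finset (Sym2 ι))} (hπ : π ∈ parts g) :
    Disjoint (crhS π) ((crhT π).biUnion id) := by
  obtain ⟨_, h2, _⟩ := mem_parts.1 hπ
  rw [Finset.disjoint_left]
  intro e he he'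
  obtain ⟨b, hb, heb⟩ := Finset.mem_biUnion.1 he
  obtain ⟨b', hb', heb'⟩ := Finset.mem_biUnion.1 he'
  rw [Finset.mem_filter] at hb
  have hb'' := Finset.mem_filter.1 hb'
  have hne : b ≠ b' := fun h => hb''.2 (h ▸ hb.2)
  exact Finset.disjoint_left.1 (h2 b hb.1 b' hb''.1 hne) heb heb'

theorem crh_union {g : Finset (Sym2 ι)} {π : Finset (Finset (Sym2 ι))} (hπ : π ∈ parts g) :
    crhS π ∪ (crhT π).biUnion id = g := by
  obtain ⟨_, _, h3⟩ := mem_parts.1 hπ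
  conv_rhs => rw [← h3]
  unfold crhS crhT
  rw [← Finset.union_biUnion, Finset.filter_union_filter_not_eq]

theorem crh_big {g : Finset (Sym2 ι)} {π : Finset (Finset (Sym2 ι))} (hπ : π ∈ parts g) :
    (crhT π).biUnion id = g \ crhS π := by
  rw [← crh_union hπ, Finset.union_sdiff_left]
  exact (Finset.sdiff_eq_self_of_disjoint (crh_dis hπ).symm).symm

theorem crh_sub {g : Finset (Sym2 ι)} {π : Finset (Finset (Sym2 ι))} (hπ : π ∈ parts g)
    {b : Finset (Sym2 ι)} (hb : b ∈ π) : b ⊆ g := by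
  obtain ⟨_, _, h3⟩ := mem_parts.1 hπ
  rw [← h3]
  exact Finset.subset_biUnion_of_mem id hb

theorem crh_S_xed {A B : Finset ι} {g : Finset (Sym2 ι)} {π : Finset (Finset (Sym2 ι))}
    (hπ : π ∈ parts g) (hcr : ∀ b ∈ π, Cr A B b) : crhS π ⊆ xed A B g := by
  intro e he
  obtain ⟨b, hb, heb⟩ := Finset.mem_biUnion.1 he
  rw [Finset.mem_filter] at hb
  obtain ⟨e', he'⟩ := Finset.card_eq_one.1 hb.2
  have h1 := hcr b hb.1
  have h2 : e ∈ b := heb
  rw [he', Finset.mem_singleton] at h2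
  unfold Cr at h1
  have h3 : vs b = e.toFinset := by
    rw [he', ← h2]
    unfold vs
    rw [Finset.singleton_biUnion]
  rw [h3] at h1
  exact Finset.mem_filter.2 ⟨crh_sub hπ hb.1 heb, h1⟩

theorem crh_prod_S {g : Finset (Sym2 ι)} {π : Finset (Finset (Sym2 ι))} (hπ : π ∈ parts g)
    (F : Sym2 ι → ℝ) :
    ∏ b ∈ π.filter (fun b => b.card = 1), ∏ e ∈ b, F e = ∏ e ∈ crhS π, F e := by
  obtain ⟨_, h2, _⟩ := mem_parts.1 hπ
  unfold crhS
  rw [Finset.prod_biUnion]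
  · rfl
  · intro b hb b' hb' hne
    exact h2 b (Finset.mem_filter.1 hb).1 b' (Finset.mem_filter.1 hb').1 hne

theorem crh_prod_T {g : Finset (Sym2 ι)} {π : Finset (Finset (Sym2 ι))} (hπ : π ∈ parts g)
    (F : Sym2 ι → ℝ) :
    ∏ b ∈ crhT π, ∏ e ∈ b, F e = ∏ e ∈ g \ crhS π, F e := by
  obtain ⟨_, h2, _⟩ := mem_parts.1 hπ
  rw [← crh_big hπ, Finset.prod_biUnion]
  · rfl
  · intro b hb b' hb' hne
    exact h2 b (Finset.mem_filter.1 hb).1 b' (Finset.mem_filter.1 hb').1 hne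

/-- The coefficient of the big blocks. -/
noncomputable def crhc {n : ℕ} (k : ℕ) (π : Finset (Finset (Sym2 ι)))
    (C : Fin n → Finset (Sym2 ι)) : ℝ := ∏ b ∈ crhT π, cum (cf k C) b

theorem crh_loc {n : ℕ} (k : ℕ) {g : Finset (Sym2 ι)} {π : Finset (Finset (Sym2 ι))}
    (hπ : π ∈ parts g) : Loc (n := n) (g \ crhS π) (crhc k π) := by
  intro C
  unfold crhc
  refine Finset.prod_congr rfl fun b hb => ?_
  have hbs : b ⊆ g \ crhS π := by
    rw [← crh_big hπ]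
    exact Finset.subset_biUnion_of_mem id hb
  have h1 := loc_cum k b C
  have h2 := loc_cum k b fun i => C i ∩ (g \ crhS π)
  dsimp only at h1 h2
  rw [h1, h2]
  congr 2
  funext i
  rw [Finset.inter_assoc, Finset.inter_eq_right.2 hbs]

theorem crh_prod_Ls {n : ℕ} (P : Pm n) {g : Finset (Sym2 ι)} {π : Finset (Finset (Sym2 ι))}
    (hπ : π ∈ parts g) (x : ι → W n) :
    ∏ b ∈ crhT π, Vb P x b = Ls (g \ crhS π) (fun _ => P.f) (crhc P.k π) (xe x) := by
  obtain ⟨_, h2, _⟩ := mem_parts.1 hπ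
  unfold Vb
  rw [prod_Ls (crhT π) (fun b hb b' hb' hne =>
      h2 b (Finset.mem_filter.1 hb).1 b' (Finset.mem_filter.1 hb').1 hne) (fun _ => P.f)
      (v := fun b C => cum (cf P.k C) b) (fun b _ => loc_cum P.k b), crh_big hπ]
  rfl

theorem crh_term {n : ℕ} (P : Pm n) {A B : Finset ι} {g : Finset (Sym2 ι)}
    {π : Finset (Finset (Sym2 ι))}
    (hπ : π ∈ parts g) (hcr : ∀ b ∈ π, Cr A B b) (x : ι → W n) :
    ∏ b ∈ π, ucr A B (ub P x) b = (∏ e ∈ g \ crhS π, (1 + P.ψ (xe x e))) *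
      (Ls (g \ crhS π) (fun _ => P.f) (crhc P.k π) (xe x) *
        ∏ e ∈ crhS π, P.φ (xe x e)) := by
  rw [← Finset.prod_filter_mul_prod_filter_not π (fun b => b.card = 1)]
  have e1 : ∏ b ∈ π.filter (fun b => b.card = 1), ucr A B (ub P x) b =
      ∏ e ∈ crhS π, P.φ (xe x e) := by
    rw [← crh_prod_S hπ]
    refine Finset.prod_congr rfl fun b hb => ?_
    rw [Finset.mem_filter] at hb
    unfold ucr ub
    rw [if_pos (hcr b hb.1), if_pos hb.2, if_pos hb.2]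
    obtain ⟨e, he⟩ := Finset.card_eq_one.1 hb.2
    rw [he, Finset.prod_singleton, Finset.prod_singleton]
    ring
  have e2 : ∏ b ∈ π.filter (fun b => ¬ b.card = 1), ucr A B (ub P x) b =
      (∏ b ∈ crhT π, Vb P x b) * ∏ b ∈ crhT π, ∏ e ∈ b, (1 + P.ψ (xe x e)) := by
    rw [← Finset.prod_mul_distrib]
    refine Finset.prod_congr rfl fun b hb => ?_
    have hb := Finset.mem_filter.1 hb
    unfold ucr ub
    rw [if_pos (hcr b hb.1), if_neg hb.2, if_neg hb.2]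
  rw [e1, e2, crh_prod_T hπ, crh_prod_Ls P hπ]
  ring

theorem crh_main {n : ℕ} {P : Pm n} {d : ℕ} {a : ℕ → ℝ} {ε D Λ ρ : ℝ} {KV Kx : ℕ}
    (hP : Pk n P d a ε D Λ ρ KV Kx) {A B : Finset ι} {g : Finset (Sym2 ι)}
    {π : Finset (Finset (Sym2 ι))}
    (hπ : π ∈ parts g) (hcr : ∀ b ∈ π, Cr A B b) (x : ι → W n) :
    ∏ b ∈ π, (if Cr A B b then Vb P x b else 0) =
      Ls (g \ crhS π) (fun _ => P.f) (crhc P.k π) (xe x) *
        ∏ e ∈ crhS π, Ls {e} (fun _ => P.f) (fun _ => 1) (xe x) := by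
  rw [← Finset.prod_filter_mul_prod_filter_not π (fun b => b.card = 1)]
  have e1 : ∏ b ∈ π.filter (fun b => b.card = 1), (if Cr A B b then Vb P x b else 0) =
      ∏ e ∈ crhS π, Ls {e} (fun _ => P.f) (fun _ => 1) (xe x) := by
    rw [← crh_prod_S hπ]
    refine Finset.prod_congr rfl fun b hb => ?_
    rw [Finset.mem_filter] at hb
    rw [if_pos (hcr b hb.1)]
    obtain ⟨e, he⟩ := Finset.card_eq_one.1 hb.2
    rw [he, Finset.prod_singleton, vb_single hP]
  have e2 : ∏ b ∈ π.filter (fun b => ¬ b.card = 1), (if Cr A B b then Vb P x b else 0) =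
      ∏ b ∈ crhT π, Vb P x b := by
    refine Finset.prod_congr rfl fun b hb => ?_
    have hb := Finset.mem_filter.1 hb
    rw [if_pos (hcr b hb.1)]
  rw [e1, e2, crh_prod_Ls P hπ]
  ring

omit [DecidableEq ι] in
theorem crh_xe {n : ℕ} {e : Sym2 ι} {z x : ι → Ev n} (h : ∀ v ∈ e, z v = x v) :
    xe (vw z) e = xe (vw x) e := by
  induction e using Sym2.ind with
  | _ u v =>
    show (vw z) u + (vw z) v = (vw x) u + (vw x) v
    unfold vw
    rw [h u (Sym2.mem_mk_left u v), h v (Sym2.mem_mk_right u v)]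

theorem crh_ind {n : ℕ} (P : Pm n) {R : Finset ι} {F : Finset (Sym2 ι)}
    (h : ∀ e ∈ F, Disjoint e.toFinset R) :
    Ind R (fun z : ι → Ev n => ∏ e ∈ F, (1 + P.ψ (xe (vw z) e))) := by
  intro x z hxz
  refine Finset.prod_congr rfl fun e he => ?_
  rw [crh_xe (z := z) (x := x)]
  intro v hv
  exact hxz v (Finset.disjoint_left.1 (h e he) (Sym2.mem_toFinset.2 hv))

omit [DecidableEq ι] in
theorem crh_abs {n : ℕ} {P : Pm n} {d : ℕ} {a : ℕ → ℝ} {ε D Λ ρ : ℝ} {KV Kx : ℕ}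
    (hP : Pk n P d a ε D Λ ρ KV Kx) {m : ℕ} {F : Finset (Sym2 ι)} (hF : F.card ≤ m)
    (z : ι → Ev n) : |∏ e ∈ F, (1 + P.ψ (xe (vw z) e))| ≤ (1 + Λ) ^ m := by
  have hΛ := hP.Λ1
  have hΛ1 : (1 : ℝ) ≤ 1 + Λ := by linarith
  rw [Finset.abs_prod]
  calc ∏ e ∈ F, |1 + P.ψ (xe (vw z) e)| ≤ ∏ e ∈ F, (1 + Λ) :=
        Finset.prod_le_prod (fun _ _ => abs_nonneg _) fun e _ => hP.abs_one_ψ (xe_even z e)
    _ = (1 + Λ) ^ F.card := by rw [Finset.prod_const]
    _ ≤ _ := pow_le_pow_right₀ hΛ1 hF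

theorem crh_expand {n : ℕ} {P : Pm n} {d : ℕ} {a : ℕ → ℝ} {ε D Λ ρ : ℝ} {KV Kx : ℕ}
    (hP : Pk n P d a ε D Λ ρ KV Kx) {A B : Finset ι} {g : Finset (Sym2 ι)}
    (Ks : ℕ → ℕ) (idx : Sym2 ι → ℕ) (x : ι → W n) :
    sexp (ucr A B (ub P x)) g = (∏ e ∈ g \ xed A B g, (1 + P.ψ (xe x e))) *
      ((∑ π ∈ (parts g).filter (fun π => ∀ b ∈ π, Cr A B b),
        (Ls (g \ crhS π) (fun _ => P.f) (crhc P.k π) (xe x) *
          ((∏ e ∈ xed A B g \ crhS π, (1 + P.ψ (xe x e))) - 1) * ∏ e ∈ crhS π, P.φ (xe x e) +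
        (Ls (g \ crhS π) (fun _ => P.f) (crhc P.k π) (xe x) *
          ((∏ e ∈ crhS π, P.φ (xe x e)) - ∏ e ∈ crhS π, flat (Ks (idx e)) P.φ (xe x e)) +
        Ls (g \ crhS π) (fun _ => P.f) (crhc P.k π) (xe x) *
          ((∏ e ∈ crhS π, flat (Ks (idx e)) P.φ (xe x e)) -
            ∏ e ∈ crhS π, Ls {e} (fun _ => P.f) (fun _ => 1) (xe x))))) +
      sexp (fun b => if Cr A B b then Vb P x b else 0) g) := by
  have e1 : sexp (ucr A B (ub P x)) g =
      ∑ π ∈ (parts g).filter (fun π => ∀ b ∈ π, Cr A B b), ∏ b ∈ π, ucr A B (ub P x) b := by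
    unfold sexp
    symm
    refine Finset.sum_subset (Finset.filter_subset _ _) fun π hπ hπ' => ?_
    have h1 : ¬ ∀ b ∈ π, Cr A B b := fun h => hπ' (Finset.mem_filter.2 ⟨hπ, h⟩)
    push Not at h1
    obtain ⟨b, hb, hcr⟩ := h1
    refine Finset.prod_eq_zero hb ?_
    unfold ucr
    rw [if_neg hcr]
  have e2 : sexp (fun b => if Cr A B b then Vb P x b else 0) g =
      ∑ π ∈ (parts g).filter (fun π => ∀ b ∈ π, Cr A B b),
        ∏ b ∈ π, (if Cr A B b then Vb P x b else 0) := by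
    unfold sexp
    symm
    refine Finset.sum_subset (Finset.filter_subset _ _) fun π hπ hπ' => ?_
    have h1 : ¬ ∀ b ∈ π, Cr A B b := fun h => hπ' (Finset.mem_filter.2 ⟨hπ, h⟩)
    push Not at h1
    obtain ⟨b, hb, hcr⟩ := h1
    refine Finset.prod_eq_zero hb ?_
    rw [if_neg hcr]
  rw [e1, e2, ← Finset.sum_add_distrib, Finset.mul_sum]
  refine Finset.sum_congr rfl fun π hπ => ?_
  obtain ⟨hπ, hcr⟩ := Finset.mem_filter.1 hπ
  rw [crh_term P hπ hcr, crh_main hP hπ hcr]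
  have hS := crh_S_xed hπ hcr
  have hxg : xed A B g ⊆ g := Finset.filter_subset _ _
  have e3 : ∏ e ∈ g \ crhS π, (1 + P.ψ (xe x e)) =
      (∏ e ∈ g \ xed A B g, (1 + P.ψ (xe x e))) *
        ∏ e ∈ xed A B g \ crhS π, (1 + P.ψ (xe x e)) := by
    have h1 : g \ crhS π = (g \ xed A B g) ∪ (xed A B g \ crhS π) := by
      ext e
      simp only [Finset.mem_sdiff, Finset.mem_union]
      constructor
      · rintro ⟨h1, h2⟩
        by_cases h : e ∈ xed A B g
        · exact Or.inr ⟨h, h2⟩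
        · exact Or.inl ⟨h1, h⟩
      · rintro (⟨h1, h2⟩ | ⟨h1, h2⟩)
        · exact ⟨h1, fun h => h2 (hS h)⟩
        · exact ⟨hxg h1, h2⟩
    rw [h1, Finset.prod_union]
    rw [Finset.disjoint_left]
    intro e h1 h2
    exact (Finset.mem_sdiff.1 h1).2 (Finset.mem_sdiff.1 h2).1
  rw [e3]
  ring

end crhaux

theorem crh_card {ι : Type*} [Fintype ι] [DecidableEq ι] {m : ℕ} (h : Fintype.card ι ^ 2 ≤ m)
    (g : Finset (Sym2 ι)) : g.card ≤ m := by
  refine le_trans ?_ h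
  refine (Finset.card_le_univ g).trans ?_
  have h1 : Fintype.card (Sym2 ι) ≤ Fintype.card (ι × ι) :=
    Fintype.card_le_of_surjective (fun p : ι × ι => s(p.1, p.2)) (by
      intro e
      induction e using Sym2.ind with
      | _ u v => exact ⟨(u, v), rfl⟩)
  rw [Fintype.card_prod] at h1
  rw [sq]
  exact h1

/-- the bound for fixed nonempty `A`, `B` inside `vs g` -/
theorem crh_core (m t : ℕ) : ∃ C : ℝ, 1 ≤ C ∧
    ∀ {ι : Type} [Fintype ι] [DecidableEq ι] {n : ℕ} {P : Pm n} {d : ℕ}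
      {a : ℕ → ℝ} {ε D Λ ρ : ℝ} {KV Kx : ℕ} (_ : 1 ≤ t) (_ : Pk n P d a ε D Λ ρ KV Kx) {M η : ℝ}
      {Ks : ℕ → ℕ} (_ : Nk n m t P.k ε D Λ ρ M η KV Kx Ks) {A B : Finset ι}
      (_ : Disjoint A B) (_ : A.card ≤ t) (_ : B.card ≤ t) (_ : A.Nonempty) (_ : B.Nonempty)
      {g : Finset (Sym2 ι)} (_ : ∀ e ∈ g, ¬ e.IsDiag) (_ : g.card ≤ m) (_ : A ⊆ vs g)
      (_ : B ⊆ vs g) (x : ι → Ev n) (_ : gd (okw n d) x (vs g \ (A ∪ B))),
      KN A B (fun z : ι → Ev n => sexp (ucr A B (ub P (vw z))) g)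
        (C * η * (Real.sqrt M)⁻¹ ^ (A.card + B.card)) x := by
  obtain ⟨C₁, hC₁, H₁⟩ := ktd m
  obtain ⟨K, hK1, hK⟩ := cum_bound m
  have hK0 : 0 ≤ K := by linarith
  refine ⟨2 ^ (2 ^ m) * (2 ^ m * K ^ (2 ^ m) + (m * K ^ (2 ^ m) + 2 ^ m * 2 ^ t * K ^ (2 ^ m))) +
    C₁ * 2 ^ t, ?_, ?_⟩
  · have h1 : (1 : ℝ) ≤ C₁ * 2 ^ t :=
      one_le_mul_of_one_le_of_one_le hC₁ (one_le_pow₀ (by norm_num))
    have h2 : (0 : ℝ) ≤ 2 ^ (2 ^ m) * (2 ^ m * K ^ (2 ^ m) +
        (m * K ^ (2 ^ m) + 2 ^ m * 2 ^ t * K ^ (2 ^ m))) := by positivity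
    linarith
  intro ι _ _ n P d a ε D Λ ρ KV Kx ht hP M η Ks hN A B hAB hA hB hA0 hB0 g hg hm hAg hBg x hx
  have hη := hN.η0
  have hΛ := hP.Λ1
  have hC₁0 : 0 ≤ C₁ := by linarith
  have hΛp : (0 : ℝ) < (1 + Λ) ^ (2 * m) := by positivity
  set c₀ : ℝ := K ^ (2 ^ m) with hc₀
  have hc₀0 : 0 ≤ c₀ := by positivity
  set R : ℝ := ((1 + Λ) ^ (2 * m))⁻¹ * η * (Real.sqrt M)⁻¹ ^ (A.card + B.card) with hR
  have hR0 : 0 ≤ R := by positivity
  set idx : Sym2 ι → ℕ := fun e => if h : e ∈ g then (g.equivFin ⟨e, h⟩ : ℕ) else 0 with hidx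
  have hinj : Set.InjOn idx g := by
    intro e he e' he' hee
    rw [Finset.mem_coe] at he he'
    simp only [hidx] at hee
    rw [dif_pos he, dif_pos he'] at hee
    have := g.equivFin.injective (Fin.ext hee)
    exact congrArg Subtype.val this
  have hidm : ∀ e ∈ g, idx e < m := by
    intro e he
    simp only [hidx]
    rw [dif_pos he]
    exact lt_of_lt_of_le (g.equivFin ⟨e, he⟩).2 hm
  have hcb : ∀ (π : Finset (Finset (Sym2 ι))), π ∈ parts g → ∀ C : Fin n → Finset (Sym2 ι),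
      |crhc P.k π C| ≤ c₀ := by
    intro π hπ C
    unfold crhc
    rw [Finset.abs_prod]
    have h1 : (crhT π).card ≤ 2 ^ m := by
      have h2 : crhT π ⊆ g.powerset := fun b hb =>
        Finset.mem_powerset.2 (crh_sub hπ (Finset.mem_filter.1 hb).1)
      refine (Finset.card_le_card h2).trans ?_
      rw [Finset.card_powerset]
      exact Nat.pow_le_pow_right (by norm_num) hm
    calc ∏ b ∈ crhT π, |cum (cf P.k C) b| ≤ ∏ b ∈ crhT π, K := by
          refine Finset.prod_le_prod (fun _ _ => abs_nonneg _) fun b hb => ?_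
          exact hK _ b ((Finset.card_le_card (crh_sub hπ (Finset.mem_filter.1 hb).1)).trans hm)
            fun b' _ => ktd_abs_cf _ _ _
      _ = K ^ (crhT π).card := by rw [Finset.prod_const]
      _ ≤ _ := pow_le_pow_right₀ hK1 h1
  set Q := (parts g).filter (fun π => ∀ b ∈ π, Cr A B b) with hQ
  have hterm : ∀ π ∈ Q, KN A B (fun z : ι → Ev n =>
        (Ls (g \ crhS π) (fun _ => P.f) (crhc P.k π) (xe (vw z)) *
          ((∏ e ∈ xed A B g \ crhS π, (1 + P.ψ (xe (vw z) e))) - 1) *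
            ∏ e ∈ crhS π, P.φ (xe (vw z) e) +
        (Ls (g \ crhS π) (fun _ => P.f) (crhc P.k π) (xe (vw z)) *
          ((∏ e ∈ crhS π, P.φ (xe (vw z) e)) -
            ∏ e ∈ crhS π, flat (Ks (idx e)) P.φ (xe (vw z) e)) +
        Ls (g \ crhS π) (fun _ => P.f) (crhc P.k π) (xe (vw z)) *
          ((∏ e ∈ crhS π, flat (Ks (idx e)) P.φ (xe (vw z) e)) -
            ∏ e ∈ crhS π, Ls {e} (fun _ => P.f) (fun _ => 1) (xe (vw z))))))
      (2 ^ m * c₀ * ((1 + Λ) ^ (2 * m))⁻¹ * η * (Real.sqrt M)⁻¹ ^ (A.card + B.card) +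
        (m * c₀ * ((1 + Λ) ^ (2 * m))⁻¹ * η * (Real.sqrt M)⁻¹ ^ (A.card + B.card) +
        2 ^ m * 2 ^ t * c₀ * ((1 + Λ) ^ (2 * m))⁻¹ * η *
          (Real.sqrt M)⁻¹ ^ (A.card + B.card))) x := by
    intro π hπ
    obtain ⟨hπ, hcr⟩ := Finset.mem_filter.1 hπ
    have hS := crh_S_xed hπ hcr
    refine kn_add (by positivity) (by positivity)
      (kta hP hN hAB hA hB hg hm hS hc₀0 (hcb π hπ) x) ?_
    refine kn_add (by positivity) (by positivity)
      (ktb hP hN hAB hA hB hg hm hinj hidm hS hc₀0 (hcb π hπ) x)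
      (ktc ht hP hN hAB hA hB hg hm hidm hS hc₀0 (hcb π hπ) (crh_loc P.k hπ) ?_ x hx)
    intro C σ
    unfold crhc
    simp only [perm_cf]
  have hsum := kn_sum Q (fun _ _ => by positivity) hterm
  have hall := kn_add (by exact Finset.sum_nonneg fun _ _ => by positivity) (by positivity) hsum
    (H₁ ht hP hN hAB hA hB hA0 hB0 hg hm hAg hBg x hx)
  have hmul := kn_mul (H := fun z : ι → Ev n =>
      ∏ e ∈ (g \ xed A B g).filter (fun e => Disjoint e.toFinset B), (1 + P.ψ (xe (vw z) e)))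
    (H' := fun z : ι → Ev n =>
      ∏ e ∈ (g \ xed A B g).filter (fun e => ¬ Disjoint e.toFinset B), (1 + P.ψ (xe (vw z) e)))
    (s := (1 + Λ) ^ m) (s' := (1 + Λ) ^ m)
    (add_nonneg (Finset.sum_nonneg fun _ _ => by positivity) (by positivity)) hall
    (by positivity) (by positivity)
    (crh_ind P fun e he => (Finset.mem_filter.1 he).2)
    (crh_ind P fun e he => by
      obtain ⟨h1, h2⟩ := Finset.mem_filter.1 he
      by_contra h3
      refine (Finset.mem_sdiff.1 h1).2 (Finset.mem_filter.2 ⟨(Finset.mem_sdiff.1 h1).1, ?_, ?_⟩)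
      · exact Finset.not_disjoint_iff_nonempty_inter.1 h3
      · exact Finset.not_disjoint_iff_nonempty_inter.1 h2)
    (fun z => crh_abs hP ((Finset.card_le_card
      ((Finset.filter_subset _ _).trans Finset.sdiff_subset)).trans hm) z)
    (fun z => crh_abs hP ((Finset.card_le_card
      ((Finset.filter_subset _ _).trans Finset.sdiff_subset)).trans hm) z)
  refine kn_mono (kn_congr hmul ?_) ?_ ?_
  · intro z _
    rw [crh_expand hP Ks idx (vw z),
      ← Finset.prod_filter_mul_prod_filter_not (g \ xed A B g) (fun e => Disjoint e.toFinset B)]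
    congr!
  · have := Finset.sum_nonneg (s := Q) (f := fun _ => (2 ^ m * c₀ * ((1 + Λ) ^ (2 * m))⁻¹ * η *
      (Real.sqrt M)⁻¹ ^ (A.card + B.card) +
        (m * c₀ * ((1 + Λ) ^ (2 * m))⁻¹ * η * (Real.sqrt M)⁻¹ ^ (A.card + B.card) +
        2 ^ m * 2 ^ t * c₀ * ((1 + Λ) ^ (2 * m))⁻¹ * η *
          (Real.sqrt M)⁻¹ ^ (A.card + B.card)))) (fun _ _ => by positivity)
    positivity
  · rw [Finset.sum_const, nsmul_eq_mul]
    have hQc : (Q.card : ℝ) ≤ 2 ^ (2 ^ m) := by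
      have : Q.card ≤ 2 ^ (2 ^ m) := by
        refine (Finset.card_le_card (Finset.filter_subset _ _)).trans ((card_parts_le g).trans ?_)
        exact Nat.pow_le_pow_right (by norm_num) (Nat.pow_le_pow_right (by norm_num) hm)
      exact_mod_cast this
    have e1 : (1 + Λ) ^ m * (1 + Λ) ^ m * ((1 + Λ) ^ (2 * m))⁻¹ = 1 := by
      rw [← pow_add, ← two_mul]
      exact mul_inv_cancel₀ hΛp.ne'
    calc _ = ((1 + Λ) ^ m * (1 + Λ) ^ m * ((1 + Λ) ^ (2 * m))⁻¹) *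
          ((Q.card : ℝ) * (2 ^ m * c₀ + (m * c₀ + 2 ^ m * 2 ^ t * c₀)) + C₁ * 2 ^ t) * η *
            (Real.sqrt M)⁻¹ ^ (A.card + B.card) := by ring
      _ = ((Q.card : ℝ) * (2 ^ m * c₀ + (m * c₀ + 2 ^ m * 2 ^ t * c₀)) + C₁ * 2 ^ t) * η *
            (Real.sqrt M)⁻¹ ^ (A.card + B.card) := by rw [e1, one_mul]
      _ ≤ _ := by
          refine mul_le_mul_of_nonneg_right (mul_le_mul_of_nonneg_right ?_ hη) (by positivity)
          have := mul_le_mul_of_nonneg_right hQc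
            (by positivity : (0 : ℝ) ≤ 2 ^ m * c₀ + (m * c₀ + 2 ^ m * 2 ^ t * c₀))
          linarith

theorem crh (m t : ℕ) (ht : 1 ≤ t) : ∃ C : ℝ, 1 ≤ C ∧
    ∀ {ι : Type} [Fintype ι] [DecidableEq ι] (_ : Fintype.card ι ^ 2 ≤ m) {n : ℕ} {P : Pm n} {d : ℕ}
      {a : ℕ → ℝ} {ε D Λ ρ : ℝ} {KV Kx : ℕ} (_ : Pk n P d a ε D Λ ρ KV Kx) {M η : ℝ}
      {Ks : ℕ → ℕ} (_ : Nk n m t P.k ε D Λ ρ M η KV Kx Ks) {I A B : Finset ι} (_ : Disjoint I A)
      (_ : Disjoint I B) (_ : Disjoint A B) (_ : A.card ≤ t) (_ : B.card ≤ t),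
      Crh (okw n d) M (C * η) (fun (z : ι → Ev n) b => ub P (vw z) b) I A B := by
  obtain ⟨C, hC, H⟩ := crh_core m t
  refine ⟨C, hC, ?_⟩
  intro ι _ _ hcard n P d a ε D Λ ρ KV Kx hP M η Ks hN I A B hIA hIB hAB hA hB g hg0 hg x hx
  have hη := hN.η0
  have hM : 0 < M := lt_of_lt_of_le one_pos hN.M1
  have hm : g.card ≤ m := crh_card hcard g
  have hC0 : 0 ≤ C := by linarith
  have hnd : ∀ e ∈ g, ¬ e.IsDiag := fun e he => (Finset.mem_filter.1 (hg he)).2
  have hvs : vs g ⊆ I ∪ A ∪ B := by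
    intro v hv
    obtain ⟨e, he, hve⟩ := Finset.mem_biUnion.1 hv
    have h1 := (Finset.mem_filter.1 (hg he)).1
    exact Finset.mem_sym2_iff.1 h1 v (Sym2.mem_toFinset.1 hve)
  set A' := vs g ∩ A with hA'
  set B' := vs g ∩ B with hB'
  have hAB' : Disjoint A' B' := Finset.disjoint_of_subset_left Finset.inter_subset_right
    (Finset.disjoint_of_subset_right Finset.inter_subset_right hAB)
  have hucr : ∀ z : ι → Ev n, sexp (ucr A B (ub P (vw z))) g =
      sexp (ucr A' B' (ub P (vw z))) g := by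
    intro z
    refine sexp_congr fun b hb _ => ?_
    unfold ucr
    by_cases h : Cr A B b
    · rw [if_pos h, if_pos ((crh_Cr hb).2 h)]
    · rw [if_neg h, if_neg fun h' => h ((crh_Cr hb).1 h')]
  by_cases hne : A'.Nonempty ∧ B'.Nonempty
  · have h1 := H ht hP hN hAB' ((Finset.card_le_card Finset.inter_subset_right).trans hA)
      ((Finset.card_le_card Finset.inter_subset_right).trans hB) hne.1 hne.2 hnd hm
      Finset.inter_subset_left Finset.inter_subset_left x (gd_mono hx ?_)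
    · refine kb_mono (kb_congr h1 fun z _ => (hucr z).symm) (le_of_eq ?_)
      have e1 : (Real.sqrt M)⁻¹ ^ 2 = M⁻¹ := by
        rw [inv_pow, Real.sq_sqrt hM.le]
      rw [div_eq_mul_inv, mul_pow (Fintype.card (Ev n) : ℝ), mul_pow (C * η), ← pow_mul,
        mul_comm _ 2, pow_mul, e1]
      ring
    · intro v hv
      obtain ⟨h1, h2⟩ := Finset.mem_sdiff.1 hv
      rcases Finset.mem_union.1 (hvs h1) with h | h
      · rcases Finset.mem_union.1 h with h | h
        · exact h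
        · exact absurd (Finset.mem_union_left _ (Finset.mem_inter.2 ⟨h1, h⟩)) h2
      · exact absurd (Finset.mem_union_right _ (Finset.mem_inter.2 ⟨h1, h⟩)) h2
  · have h0 : ∀ z : ι → Ev n, sexp (ucr A B (ub P (vw z))) g = 0 := by
      intro z
      obtain ⟨e, he⟩ := hg0
      refine sexp_eq_zero he fun b hb _ => ?_
      unfold ucr
      rw [if_neg]
      intro h
      refine hne ⟨h.1.mono ?_, h.2.mono ?_⟩
      · exact Finset.inter_subset_inter (crh_vs_mono hb) (Finset.Subset.refl _)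
      · exact Finset.inter_subset_inter (crh_vs_mono hb) (Finset.Subset.refl _)
    have h1 : KN A' B' (fun _ : ι → Ev n => (0 : ℝ)) 0 x :=
      kn_triv hAB' le_rfl fun z => by rw [abs_zero]
    refine kb_mono (kb_congr h1 fun z _ => (h0 z).symm) ?_
    have : (0 : ℝ) ≤ (C * η) ^ 2 * ((Fintype.card (Ev n) : ℝ) / M) ^ (A'.card + B'.card) := by
      positivity
    simpa using this

end Pool.Agent.Lib.MP_0430e4_lc.L3
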