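import Pool.Agent.Lib.MP_0430e4_lc.L3.SEXP

/-!
# CUM: cumulants

PROOF. `cum_eq`: `Finset.strongInduction_eq`. `sexp_cum`: strong induction on `g`, `sexp_rec` at the element `h.choose` of `cum_eq`:
the term `b = g` is `cum c g * sexp (cum c) ∅ = cum c g`. `cum_congr`, `cum_bound` (constants `K (m + 1) = 1 + 2 ^ (m + 1) * K m`): strong induction.
`cum_unique`: the values `v g = sexp v g - ∑ (e ∈ b ≠ g) v b * sexp v (g \ b)` are determined. `cum_split`: let `v' b = cum c b` if `b ⊆ g₁` or `b ⊆ g₂`, else 0;
by `sexp_add` `sexp v' h = sexp (cum c) (h ∩ g₁) * sexp (cum c) (h ∩ g₂) = c h` for all `h ⊆ g`, so `v' g = cum c g` by uniqueness, but `v' g = 0`.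
-/

set_option autoImplicit false

namespace Pool.Agent.Lib.MP_0430e4_lc.L3

open Finset

theorem cum_eq {ε : Type*} [DecidableEq ε] (c : Finset ε → ℝ) {g : Finset ε} (h : g.Nonempty) :
    cum c g = c g - ∑ b ∈ g.powerset.filter fun b => h.choose ∈ b ∧ b ≠ g,
      cum c b * c (g \ b) := by
  have h1 := sum_attach (g.powerset.filter fun b => h.choose ∈ b ∧ b ≠ g)
    (fun b => cum c b * c (g \ b))
  rw [← h1]
  unfold cum
  rw [Finset.strongInduction_eq, dif_pos h]

theorem cum_empty {ε : Type*} [DecidableEq ε] (c : Finset ε → ℝ) : cum c ∅ = 0 := by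
  unfold cum
  rw [Finset.strongInduction_eq, dif_neg]
  exact not_nonempty_empty

theorem sexp_cum {ε : Type*} [DecidableEq ε] {c : Finset ε → ℝ} (h : c ∅ = 1) (g : Finset ε) :
    sexp (cum c) g = c g := by
  induction g using Finset.strongInduction with
  | H g ih =>
    rcases g.eq_empty_or_nonempty with rfl | hg
    · rw [sexp_empty, h]
    · have he : hg.choose ∈ g := hg.choose_spec
      rw [sexp_rec (cum c) he]
      have hm : g ∈ g.powerset.filter (fun b => hg.choose ∈ b) :=
        mem_filter.2 ⟨mem_powerset_self g, he⟩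
      rw [← add_sum_erase _ _ hm, Finset.sdiff_self, sexp_empty, mul_one, cum_eq c hg]
      have h1 : (g.powerset.filter (fun b => hg.choose ∈ b)).erase g =
          g.powerset.filter fun b => hg.choose ∈ b ∧ b ≠ g := by
        ext b
        simp only [mem_erase, mem_filter, mem_powerset]
        tauto
      rw [h1]
      have h2 : ∑ b ∈ g.powerset.filter (fun b => hg.choose ∈ b ∧ b ≠ g),
          cum c b * sexp (cum c) (g \ b) =
          ∑ b ∈ g.powerset.filter (fun b => hg.choose ∈ b ∧ b ≠ g), cum c b * c (g \ b) := by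
        refine sum_congr rfl fun b hb => ?_
        obtain ⟨_, hb1, _⟩ := mem_filter.1 hb
        rw [ih (g \ b)]
        rw [Finset.ssubset_iff_subset_ne]
        refine ⟨sdiff_subset, fun h => ?_⟩
        have : hg.choose ∈ g \ b := by
          rw [h]
          exact he
        exact (mem_sdiff.1 this).2 hb1
      rw [h2]
      ring

theorem cum_unique {ε : Type*} [DecidableEq ε] {v v' : Finset ε → ℝ} {g : Finset ε}
    (h : ∀ b ⊆ g, sexp v b = sexp v' b) (hg : g.Nonempty) : v g = v' g :=
  sexp_log_unique h g subset_rfl hg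

theorem cum_congr {ε : Type*} [DecidableEq ε] {c c' : Finset ε → ℝ} {g : Finset ε}
    (h : ∀ b ⊆ g, c b = c' b) : cum c g = cum c' g := by
  induction g using Finset.strongInduction with
  | H g ih =>
    rcases g.eq_empty_or_nonempty with rfl | hg
    · rw [cum_empty, cum_empty]
    · rw [cum_eq c hg, cum_eq c' hg, h g subset_rfl]
      congr 1
      refine sum_congr rfl fun b hb => ?_
      obtain ⟨hb0, _, hb2⟩ := mem_filter.1 hb
      rw [mem_powerset] at hb0
      rw [ih b (Finset.ssubset_iff_subset_ne.2 ⟨hb0, hb2⟩) fun b' hb' => h b' (hb'.trans hb0),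
        h (g \ b) sdiff_subset]

theorem cum_singleton {ε : Type*} [DecidableEq ε] {c : Finset ε → ℝ} (h : c ∅ = 1) (e : ε) :
    cum c {e} = c {e} := by
  rw [← sexp_cum h {e}, sexp_rec (cum c) (mem_singleton_self e)]
  have h1 : ({e} : Finset ε).powerset.filter (fun b => e ∈ b) = {{e}} := by
    ext b
    simp only [mem_filter, mem_powerset, mem_singleton]
    constructor
    · rintro ⟨h1, h2⟩
      rcases subset_singleton_iff.1 h1 with h3 | h3
      · rw [h3] at h2
        exact absurd h2 (notMem_empty _)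
      · exact h3
    · rintro rfl
      exact ⟨subset_rfl, mem_singleton_self e⟩
  rw [h1, sum_singleton, Finset.sdiff_self, sexp_empty, mul_one]

theorem cum_split {ε : Type*} [DecidableEq ε] {c : Finset ε → ℝ} (h0 : c ∅ = 1)
    {g₁ g₂ : Finset ε} (hd : Disjoint g₁ g₂) (h1 : g₁.Nonempty) (h2 : g₂.Nonempty)
    (h : ∀ b ⊆ g₁ ∪ g₂, c b = c (b ∩ g₁) * c (b ∩ g₂)) : cum c (g₁ ∪ g₂) = 0 := by
  classical
  set v₁ : Finset ε → ℝ := fun b => if b ⊆ g₁ then cum c b else 0 with hv₁
  set v₂ : Finset ε → ℝ := fun b => if b ⊆ g₂ then cum c b else 0 with hv₂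
  have hs : ∀ b ⊆ g₁ ∪ g₂, sexp (cum c) b = sexp (fun b => v₁ b + v₂ b) b := by
    intro b hb
    rw [sexp_cum h0, sexp_add, h b hb]
    have hX : b ∩ g₁ ∈ b.powerset := mem_powerset.2 inter_subset_left
    rw [sum_eq_single_of_mem _ hX]
    · have e1 : b \ (b ∩ g₁) = b ∩ g₂ := by
        ext x
        simp only [mem_sdiff, mem_inter]
        constructor
        · rintro ⟨hx, hx'⟩
          refine ⟨hx, ?_⟩
          rcases mem_union.1 (hb hx) with h | h
          · exact absurd ⟨hx, h⟩ hx'
          · exact h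
        · rintro ⟨hx, hx'⟩
          exact ⟨hx, fun h => disjoint_left.1 hd h.2 hx'⟩
      rw [e1]
      congr 1
      · rw [← sexp_cum h0 (b ∩ g₁)]
        refine sexp_congr fun d hd' _ => ?_
        rw [hv₁]
        simp only
        rw [if_pos (hd'.trans inter_subset_right)]
      · rw [← sexp_cum h0 (b ∩ g₂)]
        refine sexp_congr fun d hd' _ => ?_
        rw [hv₂]
        simp only
        rw [if_pos (hd'.trans inter_subset_right)]
    · intro X hXb hX'
      rw [mem_powerset] at hXb
      by_cases hX1 : X ⊆ g₁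
      · have h5 : ¬ b \ X ⊆ g₂ := by
          intro h5
          apply hX'
          refine subset_antisymm (subset_inter hXb hX1) fun x hx => ?_
          by_contra hxX
          exact disjoint_left.1 hd (mem_inter.1 hx).2
            (h5 (mem_sdiff.2 ⟨(mem_inter.1 hx).1, hxX⟩))
        have h6 : sexp v₂ (b \ X) = 0 := by
          obtain ⟨x, hx, hx'⟩ := not_subset.1 h5
          refine sexp_eq_zero hx fun b' _ hb' => ?_
          rw [hv₂]
          simp only
          rw [if_neg]
          exact fun hh => hx' (hh hb')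
        rw [h6, mul_zero]
      · have h6 : sexp v₁ X = 0 := by
          obtain ⟨x, hx, hx'⟩ := not_subset.1 hX1
          refine sexp_eq_zero hx fun b' _ hb' => ?_
          rw [hv₁]
          simp only
          rw [if_neg]
          exact fun hh => hx' (hh hb')
        rw [h6, zero_mul]
  have h3 := cum_unique hs (h1.mono subset_union_left)
  rw [h3, hv₁, hv₂]
  simp only
  obtain ⟨x, hx⟩ := h1
  obtain ⟨y, hy⟩ := h2
  rw [if_neg, if_neg, add_zero]
  · intro hh
    exact disjoint_left.1 hd hx (hh (mem_union_left _ hx))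
  · intro hh
    exact disjoint_left.1 hd (hh (mem_union_right _ hy)) hy

/-- The bound for cumulants of a function with values in `[-1, 1]`. -/
noncomputable def cumB : ℕ → ℝ
  | 0 => 1
  | m + 1 => 1 + 2 ^ (m + 1) * cumB m

theorem one_le_cumB (m : ℕ) : 1 ≤ cumB m := by
  induction m with
  | zero => exact le_rfl
  | succ m ih =>
    unfold cumB
    have : 0 ≤ cumB m := by linarith
    have : 0 ≤ (2 : ℝ) ^ (m + 1) * cumB m := by positivity
    linarith

theorem cumB_le_succ (m : ℕ) : cumB m ≤ cumB (m + 1) := by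
  have h1 := one_le_cumB m
  rw [cumB]
  have h3 : (1 : ℝ) ≤ 2 ^ (m + 1) := one_le_pow₀ (by norm_num)
  nlinarith

theorem cumB_mono : Monotone cumB := monotone_nat_of_le_succ cumB_le_succ

theorem abs_cum_le {ε : Type*} [DecidableEq ε] (c : Finset ε → ℝ) (g : Finset ε)
    (hc : ∀ b ⊆ g, |c b| ≤ 1) : |cum c g| ≤ cumB g.card := by
  induction g using Finset.strongInduction with
  | H g ih =>
    rcases g.eq_empty_or_nonempty with rfl | hg
    · rw [cum_empty, abs_zero]
      exact zero_le_one.trans (one_le_cumB _)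
    · rw [cum_eq c hg]
      obtain ⟨m, hm⟩ : ∃ m, g.card = m + 1 := ⟨g.card - 1, by
        have := card_pos.2 hg
        omega⟩
      rw [hm, cumB]
      have h1 : |∑ b ∈ g.powerset.filter (fun b => hg.choose ∈ b ∧ b ≠ g),
          cum c b * c (g \ b)| ≤ 2 ^ (m + 1) * cumB m := by
        calc _ ≤ ∑ b ∈ g.powerset.filter (fun b => hg.choose ∈ b ∧ b ≠ g), cumB m := by
              refine (abs_sum_le_sum_abs _ _).trans (sum_le_sum fun b hb => ?_)
              obtain ⟨hb0, _, hb2⟩ := mem_filter.1 hb
              rw [mem_powerset] at hb0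
              have hss : b ⊂ g := Finset.ssubset_iff_subset_ne.2 ⟨hb0, hb2⟩
              have hlt := card_lt_card hss
              rw [abs_mul]
              have h3 := (ih b hss fun b' hb' => hc b' (hb'.trans hb0)).trans
                (cumB_mono (show b.card ≤ m by omega))
              have h4 := hc (g \ b) sdiff_subset
              calc _ ≤ cumB m * 1 := mul_le_mul h3 h4 (abs_nonneg _)
                    (zero_le_one.trans (one_le_cumB m))
                _ = cumB m := mul_one _
          _ = ((g.powerset.filter (fun b => hg.choose ∈ b ∧ b ≠ g)).card : ℝ) * cumB m := by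
              rw [sum_const, nsmul_eq_mul]
          _ ≤ 2 ^ (m + 1) * cumB m := by
              refine mul_le_mul_of_nonneg_right ?_ (zero_le_one.trans (one_le_cumB m))
              have h4 := card_filter_le g.powerset (fun b => hg.choose ∈ b ∧ b ≠ g)
              rw [card_powerset, hm] at h4
              exact_mod_cast h4
      calc _ ≤ |c g| + |∑ b ∈ g.powerset.filter (fun b => hg.choose ∈ b ∧ b ≠ g),
            cum c b * c (g \ b)| := abs_sub _ _
        _ ≤ _ := add_le_add (hc g subset_rfl) h1

theorem cum_bound (m : ℕ) : ∃ K : ℝ, 1 ≤ K ∧ ∀ {ε : Type} [DecidableEq ε] (c : Finset ε → ℝ)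
    (g : Finset ε), g.card ≤ m → (∀ b ⊆ g, |c b| ≤ 1) → |cum c g| ≤ K :=
  ⟨cumB m, one_le_cumB m, fun c g hg h => (abs_cum_le c g h).trans (cumB_mono hg)⟩

end Pool.Agent.Lib.MP_0430e4_lc.L3
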