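import Pool.Agent.Lib.MP_0430e4_lc.Lin.COR
import Pool.Agent.Lib.MP_0430e4_lc.Lin.XBase

/-!
# FNC2: removing the low frequencies

PROOF. `Lin.correction` with `r = 1`: a word `y : W n` is the configuration `X i _ = y i`, `sup`, `cnt X u` for the nonzero vector `u` of `Fin 1 → ZMod 2` is `wt y`, `evC n 1`, `EC`, `fc`, `ch` are `evW n`, `EW`, `al`, `chw` under this bijection; `Lag` has one factor. The
function `a` obtained is invariant under permutations, so it is a function `b` of the weight (for `j ≤ n` evaluate at a word of weight `j`, 0 otherwise). `u Ξ = al (fun x => a (wt x)) (word of Ξ)`.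
(Or directly: adapt the proof of `Lin.correction`: `b = - ∑ j, (1_{wt = x j} / card) * EW-pairing of the low part with lag j`.)
-/

set_option autoImplicit false

namespace Pool.Agent.Lib.MP_0430e4_lc.L3

open Finset Filter
open Lin (W wt chw evW EW al flat SymW lag)
open Lin (U Cf cnt evC EC fc ch Lag SymC)

/-- the configuration with one row -/
def fnc2_c {n : ℕ} (y : W n) : Cf n 1 := fun i _ => y i

/-- the row of a configuration with one row -/
def fnc2_d {n : ℕ} (X : Cf n 1) : W n := fun i => X i 0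

theorem fnc2_cd {n : ℕ} (X : Cf n 1) : fnc2_c (fnc2_d X) = X := by
  funext i j
  have : j = 0 := Subsingleton.elim _ _
  rw [this]
  rfl

theorem fnc2_dc {n : ℕ} (y : W n) : fnc2_d (fnc2_c y) = y := rfl

theorem fnc2_sup {n : ℕ} (y : W n) : (Lin.sup (fnc2_c y)).card = wt y := by
  unfold Lin.sup wt
  congr 1
  refine filter_congr fun i _ => not_congr ⟨fun h => congrFun h 0, fun h => funext fun j => h⟩

theorem fnc2_u {u : U 1} (hu : u ≠ 0) : u 0 = 1 := by
  have h1 : u 0 ≠ 0 := by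
    intro h
    apply hu
    funext j
    have : j = 0 := Subsingleton.elim _ _
    rw [this, h]
    rfl
  have h2 : ∀ a : ZMod 2, a ≠ 0 → a = 1 := by decide
  exact h2 _ h1

theorem fnc2_cnt {n : ℕ} (y : W n) {u : U 1} (hu : u ≠ 0) : cnt (fnc2_c y) u = wt y := by
  unfold cnt wt
  congr 1
  refine filter_congr fun i _ => ⟨fun h => ?_, fun h => ?_⟩
  · have h1 := congrFun h 0
    change y i = u 0 at h1
    rw [h1, fnc2_u hu]
    exact one_ne_zero
  · funext j
    have : j = 0 := Subsingleton.elim _ _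
    rw [this]
    change y i = u 0
    rw [fnc2_u hu]
    have h2 : ∀ a : ZMod 2, a ≠ 0 → a = 1 := by decide
    exact h2 _ h

theorem fnc2_ev {n : ℕ} (y : W n) : fnc2_c y ∈ evC n 1 ↔ y ∈ evW n := by
  unfold evC evW
  rw [mem_filter, mem_filter]
  refine and_congr (by simp) ⟨fun h => ?_, fun h => ?_⟩
  · have h1 := congrFun h 0
    rw [Finset.sum_apply] at h1
    exact h1
  · funext j
    rw [Finset.sum_apply]
    exact h

theorem fnc2_EC {n : ℕ} (f : Cf n 1 → ℝ) : EC f = EW fun y => f (fnc2_c y) := by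
  unfold EC EW
  rw [one_mul]
  congr 1
  refine Finset.sum_nbij' fnc2_d fnc2_c ?_ ?_ ?_ ?_ ?_
  · intro X hX
    rw [← fnc2_ev, fnc2_cd]
    exact hX
  · intro y hy
    exact (fnc2_ev y).2 hy
  · intro X _
    exact fnc2_cd X
  · intro y _
    rfl
  · intro X _
    rw [fnc2_cd]

theorem fnc2_ch {n : ℕ} (w y : W n) : ch (fnc2_c w) (fnc2_c y) = chw w y := by
  unfold ch chw
  refine prod_congr rfl fun i _ => ?_
  congr 1
  simp [dotProduct, fnc2_c]

theorem fnc2_fc {n : ℕ} (f : Cf n 1 → ℝ) (w : W n) :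
    fc f (fnc2_c w) = al (fun y => f (fnc2_c y)) w := by
  unfold fc al
  rw [fnc2_EC]
  congr 1
  funext y
  rw [fnc2_ch]

/-- the nonzero vector -/
def fnc2_one : {u : U 1 // u ≠ 0} := ⟨fun _ => 1, fun h => one_ne_zero (congrFun h 0)⟩

theorem fnc2_uniq (u : {u : U 1 // u ≠ 0}) : u = fnc2_one := by
  apply Subtype.ext
  funext j
  have : j = 0 := Subsingleton.elim _ _
  rw [this]
  exact fnc2_u u.2

instance fnc2_inst : Unique {u : U 1 // u ≠ 0} := ⟨⟨fnc2_one⟩, fnc2_uniq⟩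

theorem fnc2 {n k : ℕ} (hn : 1 ≤ n) (hk : 2 * k < n) (x : Fin (k + 1) → ℕ)
    (hx : Function.Injective x) (hev : ∀ i, Even (x i)) (a : ℕ → ℝ) {θ : ℝ} (hθ : 0 ≤ θ)
    (ha : ∑ w ∈ univ.filter (fun w : W n => wt w ≤ k), al (fun y => a (wt y)) w ^ 2 ≤ θ ^ 2)
    {Lm pm : ℝ} (hLm : 0 ≤ Lm)
    (hL : ∀ j, EW (fun y : W n => lag (fun i => (x i : ℝ)) j (wt y) ^ 2) ≤ Lm ^ 2) (hpm : 0 < pm)
    (hp : ∀ j, pm * 2 ^ (n - 1) ≤ (n.choose (x j) : ℝ)) :
    ∃ b : ℕ → ℝ, (∀ j, b j ≠ 0 → ∃ i, j = x i) ∧ (∀ j, |b j| ≤ θ * Lm / pm) ∧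
      ∀ w : W n, wt w ≤ k → al (fun y => a (wt y) + b (wt y)) w = 0 := by
  classical
  have hsw : SymW (fun y : W n => a (wt y)) := by
    intro p y
    change a (wt (y ∘ p)) = a (wt y)
    congr 1
    unfold wt
    refine card_bij' (fun i _ => p i) (fun i _ => p.symm i) ?_ ?_ ?_ ?_
    · intro i hi
      rw [mem_filter] at hi ⊢
      exact ⟨mem_univ _, hi.2⟩
    · intro i hi
      rw [mem_filter] at hi ⊢
      refine ⟨mem_univ _, ?_⟩
      simpa using hi.2
    · intro i _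
      simp
    · intro i _
      simp
  set u : Cf n 1 → ℝ := fun Ξ => al (fun y => a (wt y)) (fnc2_d Ξ) with hu
  have hus : SymC u := by
    intro p X
    change al (fun y => a (wt y)) (fnc2_d X ∘ p) = al (fun y => a (wt y)) (fnc2_d X)
    exact Lin.al_comp hsw _ p
  have hu2 : ∑ Ξ ∈ univ.filter (fun Ξ : Cf n 1 => (Lin.sup Ξ).card ≤ k), u Ξ ^ 2 ≤ θ ^ 2 := by
    refine le_trans (le_of_eq ?_) ha
    refine Finset.sum_nbij' fnc2_d fnc2_c ?_ ?_ ?_ ?_ ?_
    · intro X hX
      rw [mem_filter] at hX ⊢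
      refine ⟨mem_univ _, ?_⟩
      rw [← fnc2_sup, fnc2_cd]
      exact hX.2
    · intro y hy
      rw [mem_filter] at hy ⊢
      refine ⟨mem_univ _, ?_⟩
      rw [fnc2_sup]
      exact hy.2
    · intro X _
      exact fnc2_cd X
    · intro y _
      rfl
    · intro X _
      rfl
  have hLag : ∀ (j : {u : U 1 // u ≠ 0} → Fin (k + 1)) (y : W n),
      Lag (fun i => (x i : ℝ)) j (fnc2_c y) = lag (fun i => (x i : ℝ)) (j fnc2_one) (wt y) := by
    intro j y
    unfold Lag
    rw [Fintype.prod_unique]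
    change lag (fun i => (x i : ℝ)) (j fnc2_one) ((cnt (fnc2_c y) fnc2_one.1 : ℕ) : ℝ) = _
    rw [fnc2_cnt y fnc2_one.2]
  have hL' : ∀ j : {u : U 1 // u ≠ 0} → Fin (k + 1),
      EC (fun X : Cf n 1 => Lag (fun i => (x i : ℝ)) j X ^ 2) ≤ Lm ^ 2 := by
    intro j
    rw [fnc2_EC]
    simp only [hLag]
    exact hL _
  have hp' : ∀ j : {u : U 1 // u ≠ 0} → Fin (k + 1), pm * 2 ^ (1 * (n - 1)) ≤
      ((univ.filter fun X : Cf n 1 => ∀ u : {u : U 1 // u ≠ 0}, cnt X u = x (j u)).card : ℝ) := by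
    intro j
    rw [one_mul]
    refine (hp (j fnc2_one)).trans ?_
    have h1 := Lin.xchoose_le (n := n) (x (j fnc2_one))
    refine le_trans (Nat.cast_le.2 h1) ?_
    have h2 : (univ.filter fun y : W n => wt y = x (j fnc2_one)).card ≤
        (univ.filter fun X : Cf n 1 => ∀ u : {u : U 1 // u ≠ 0}, cnt X u = x (j u)).card := by
      refine card_le_card_of_injOn fnc2_c ?_ ?_
      · intro y hy
        rw [mem_coe, mem_filter] at hy ⊢
        refine ⟨mem_univ _, fun u => ?_⟩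
        rw [fnc2_cnt y u.2, fnc2_uniq u]
        exact hy.2
      · intro y _ z _ h
        have := congrArg fnc2_d h
        exact this
    exact_mod_cast h2
  obtain ⟨A, hA1, hA2, hA3, hA4⟩ := Lin.correction hn hk x hx hev u hus hθ hu2 hLm hL' hpm hp'
  have hAw : SymW (fun y : W n => A (fnc2_c y)) := by
    intro p y
    exact hA1 p (fnc2_c y)
  have hex : ∀ j : ℕ, ∃ c : ℝ, (∀ y : W n, wt y = j → A (fnc2_c y) = c) ∧
      ((∀ y : W n, wt y ≠ j) → c = 0) ∧ (∀ y : W n, wt y = j → c = A (fnc2_c y)) := by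
    intro j
    by_cases h : ∃ y : W n, wt y = j
    · obtain ⟨y, hy⟩ := h
      refine ⟨A (fnc2_c y), fun z hz => ?_, fun h => absurd hy (h y), fun z hz => ?_⟩
      · exact Lin.xradial hAw (hz.trans hy.symm)
      · exact Lin.xradial hAw (hy.trans hz.symm)
    · refine ⟨0, fun z hz => absurd ⟨z, hz⟩ h, fun _ => rfl, fun z hz => absurd ⟨z, hz⟩ h⟩
  choose b hb1 hb2 hb3 using hex
  refine ⟨b, ?_, ?_, ?_⟩
  · intro j hj
    by_contra hcon
    by_cases h : ∃ y : W n, wt y = j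
    · obtain ⟨y, hy⟩ := h
      rw [hb3 j y hy] at hj
      obtain ⟨_, i, hi⟩ := hA2 _ hj
      apply hcon
      refine ⟨i fnc2_one, ?_⟩
      rw [← hi fnc2_one, fnc2_cnt y fnc2_one.2, hy]
    · exact hj (hb2 j fun y hy => h ⟨y, hy⟩)
  · intro j
    by_cases h : ∃ y : W n, wt y = j
    · obtain ⟨y, hy⟩ := h
      rw [hb3 j y hy]
      exact hA4 _
    · rw [hb2 j fun y hy => h ⟨y, hy⟩, abs_zero]
      positivity
  · intro w hw
    have h1 := hA3 (fnc2_c w) (by rw [fnc2_sup]; exact hw)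
    rw [fnc2_fc] at h1
    have h2 : u (fnc2_c w) = al (fun y => a (wt y)) w := rfl
    rw [h2] at h1
    have h3 : (fun y : W n => b (wt y)) = fun y => A (fnc2_c y) := by
      funext y
      exact hb3 _ y rfl
    have h4 : al (fun y => a (wt y) + b (wt y)) w =
        al (fun y => a (wt y)) w + al (fun y => b (wt y)) w := by
      unfold al EW
      rw [← add_div, ← sum_add_distrib]
      congr 1
      refine sum_congr rfl fun y _ => ?_
      ring
    rw [h4, h3, h1]
    ring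

end Pool.Agent.Lib.MP_0430e4_lc.L3
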