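import Pool.Agent.Lib.MP_0430e4_lc.Lin.COR

/-!
# FNE: binomial coefficients near the middle

PROOF. For even `x` with `n/2 - ε n / 4 ≤ x ≤ n / 2`: `C(n, x) ≥ 2 ^ n / (n + 1) * exp (- ε² n)` for small `ε`: e.g. `C(n, x) ≥ C(n, n/2) * ∏ (j = x+1 .. n/2) j / (n - j + 1)`, each factor is at least `1 - ε` (for large `n`), at most `ε n / 4` factors;
`C(n, n/2) ≥ 2 ^ n / (n + 1)`; `(1 - ε) ^ (ε n / 4) ≥ exp (- ε² n / 2)`.
-/

set_option autoImplicit false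

namespace Pool.Agent.Lib.MP_0430e4_lc.L3

open Finset Filter
open Lin (W wt chw evW EW al flat SymW lag)

theorem fne_one {n : ℕ} {ε : ℝ} (h0 : 0 < ε) (h1 : ε < 1 / 2) {j : ℕ}
    (hx : (n : ℝ) / 2 - ε * n / 4 ≤ j) (hj : ((j + 1 : ℕ) : ℝ) ≤ n / 2) :
    (1 - ε) * (n.choose (j + 1) : ℝ) ≤ n.choose j := by
  have hn : (0 : ℝ) ≤ n := Nat.cast_nonneg n
  have hjn : j ≤ n := by
    have : (j : ℝ) ≤ n := by push_cast at hj; linarith
    exact_mod_cast this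
  have e : (n.choose (j + 1) : ℝ) * (j + 1) = n.choose j * (n - j) := by
    have := Nat.choose_succ_right_eq n j
    have h2 : ((n.choose (j + 1) * (j + 1) : ℕ) : ℝ) = ((n.choose j * (n - j) : ℕ) : ℝ) := by
      rw [this]
    push_cast [Nat.cast_sub hjn] at h2
    exact h2
  have hj1 : (0 : ℝ) < (j : ℝ) + 1 := by positivity
  have hc : (0 : ℝ) ≤ n.choose j := Nat.cast_nonneg _
  have key : (1 - ε) * ((n : ℝ) - j) ≤ j + 1 := by
    have a1 : (n : ℝ) - j ≤ n / 2 + ε * n / 4 := by linarith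
    have a2 : (1 - ε) * ((n : ℝ) - j) ≤ (1 - ε) * (n / 2 + ε * n / 4) :=
      mul_le_mul_of_nonneg_left a1 (by linarith)
    have a3 : (1 - ε) * ((n : ℝ) / 2 + ε * n / 4) ≤ n / 2 - ε * n / 4 := by
      have : 0 ≤ ε ^ 2 * n := by positivity
      nlinarith
    linarith
  have h3 : (1 - ε) * (n.choose (j + 1) : ℝ) * (j + 1) ≤ n.choose j * (j + 1) := by
    calc (1 - ε) * (n.choose (j + 1) : ℝ) * (j + 1)
        = (1 - ε) * ((n.choose (j + 1) : ℝ) * (j + 1)) := by ring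
      _ = (n.choose j : ℝ) * ((1 - ε) * (n - j)) := by rw [e]; ring
      _ ≤ n.choose j * (j + 1) := mul_le_mul_of_nonneg_left key hc
  exact le_of_mul_le_mul_right h3 hj1

theorem fne_iter {n : ℕ} {ε : ℝ} (h0 : 0 < ε) (h1 : ε < 1 / 2) {x : ℕ}
    (hx : (n : ℝ) / 2 - ε * n / 4 ≤ x) (k : ℕ) (hk : ((x + k : ℕ) : ℝ) ≤ n / 2) :
    (1 - ε) ^ k * (n.choose (x + k) : ℝ) ≤ n.choose x := by
  induction k with
  | zero => simp
  | succ k ih =>
    have h2 : ((x + k : ℕ) : ℝ) ≤ n / 2 := by push_cast at hk ⊢; linarith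
    have h3 := ih h2
    have h4 : (n : ℝ) / 2 - ε * n / 4 ≤ ((x + k : ℕ) : ℝ) := by
      push_cast
      have : (0 : ℝ) ≤ k := Nat.cast_nonneg k
      linarith
    have h5 := fne_one h0 h1 h4 (by exact_mod_cast hk)
    calc (1 - ε) ^ (k + 1) * (n.choose (x + (k + 1)) : ℝ)
        = (1 - ε) ^ k * ((1 - ε) * (n.choose (x + k + 1) : ℝ)) := by
          rw [pow_succ]; ring_nf
      _ ≤ (1 - ε) ^ k * n.choose (x + k) :=
          mul_le_mul_of_nonneg_left h5 (pow_nonneg (by linarith) _)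
      _ ≤ n.choose x := h3

theorem fne_mid (n : ℕ) : (2 : ℝ) ^ n ≤ (n + 1) * n.choose (n / 2) := by
  have h : 2 ^ n ≤ (n + 1) * n.choose (n / 2) := by
    rw [← Nat.sum_range_choose n]
    calc ∑ m ∈ range (n + 1), n.choose m ≤ ∑ m ∈ range (n + 1), n.choose (n / 2) :=
          sum_le_sum fun m _ => Nat.choose_le_middle m n
      _ = (n + 1) * n.choose (n / 2) := by simp
  exact_mod_cast h

theorem fne_exp {ε : ℝ} (h0 : 0 < ε) (h1 : ε < 1 / 2) : Real.exp (-(2 * ε)) ≤ 1 - ε := by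
  have h2 : 1 + 2 * ε ≤ Real.exp (2 * ε) := by
    have := Real.add_one_le_exp (2 * ε); linarith
  rw [Real.exp_neg]
  have h3 : (Real.exp (2 * ε))⁻¹ ≤ (1 + 2 * ε)⁻¹ := by
    apply inv_anti₀ (by linarith) h2
  refine h3.trans ?_
  rw [inv_le_iff_one_le_mul₀ (by linarith)]
  nlinarith

theorem fnb_choose : ∃ ε₀ : ℝ, 0 < ε₀ ∧ ∀ ε : ℝ, 0 < ε → ε < ε₀ →
    ∀ᶠ n : ℕ in atTop, ∀ x : ℕ, (n : ℝ) / 2 - ε * n / 4 ≤ x → (x : ℝ) ≤ n / 2 →
      Real.exp (-(ε ^ 2 * n)) * 2 ^ (n - 1) ≤ (n.choose x : ℝ) := by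
  refine ⟨1 / 2, by norm_num, fun ε h0 h1 => ?_⟩
  have hlim : ∀ᶠ n : ℕ in atTop, (n : ℝ) + 1 ≤ 2 * Real.exp (ε ^ 2 * n / 2) := by
    filter_upwards [eventually_ge_atTop ⌈4 / ε ^ 4⌉₊] with n hn
    have h2 : 4 / ε ^ 4 ≤ (n : ℝ) := Nat.ceil_le.mp hn
    have h3 : 4 ≤ (n : ℝ) * ε ^ 4 := by rwa [div_le_iff₀ (by positivity)] at h2
    have hn0 : (0 : ℝ) ≤ n := Nat.cast_nonneg n
    have h4 := Real.quadratic_le_exp_of_nonneg (x := ε ^ 2 * n / 2) (by positivity)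
    have h5 : (n : ℝ) * 4 ≤ n * (n * ε ^ 4) := mul_le_mul_of_nonneg_left h3 hn0
    have h6 : 0 ≤ ε ^ 2 * (n : ℝ) := by positivity
    nlinarith
  filter_upwards [hlim, eventually_ge_atTop 1] with n hn hn1 x hx1 hx2
  have hxm : x ≤ n / 2 := by
    have : (x : ℝ) * 2 ≤ n := by linarith
    have h2 : x * 2 ≤ n := by exact_mod_cast this
    omega
  obtain ⟨k, hk⟩ := Nat.exists_eq_add_of_le hxm
  have hk2 : ((x + k : ℕ) : ℝ) ≤ n / 2 := by
    rw [← hk]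
    exact Nat.cast_div_le
  have h3 := fne_iter h0 h1 hx1 k hk2
  rw [← hk] at h3
  have hkb : (k : ℝ) ≤ ε * n / 4 := by push_cast at hk2; linarith
  have h4 : Real.exp (-(ε ^ 2 * n / 2)) ≤ (1 - ε) ^ k := by
    calc Real.exp (-(ε ^ 2 * n / 2)) ≤ Real.exp (k * (-(2 * ε))) := by
          apply Real.exp_le_exp.mpr
          nlinarith
      _ = Real.exp (-(2 * ε)) ^ k := by rw [Real.exp_nat_mul]
      _ ≤ (1 - ε) ^ k := pow_le_pow_left₀ (Real.exp_pos _).le (fne_exp h0 h1) _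
  have h5 := fne_mid n
  have hnpos : (0 : ℝ) < (n : ℝ) + 1 := by positivity
  have e2 : (2 : ℝ) ^ n = 2 * 2 ^ (n - 1) := by
    rw [← pow_succ']; congr 1; omega
  have e3 : Real.exp (-(ε ^ 2 * n)) * Real.exp (ε ^ 2 * n / 2) = Real.exp (-(ε ^ 2 * n / 2)) := by
    rw [← Real.exp_add]; congr 1; ring
  have h6 : (Real.exp (-(ε ^ 2 * n)) * 2 ^ (n - 1)) * (n + 1) ≤
      (n.choose x : ℝ) * (n + 1) := by
    calc (Real.exp (-(ε ^ 2 * n)) * 2 ^ (n - 1)) * (n + 1)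
        ≤ (Real.exp (-(ε ^ 2 * n)) * 2 ^ (n - 1)) * (2 * Real.exp (ε ^ 2 * n / 2)) :=
          mul_le_mul_of_nonneg_left hn (by positivity)
      _ = Real.exp (-(ε ^ 2 * n / 2)) * 2 ^ n := by rw [← e3, e2]; ring
      _ ≤ (1 - ε) ^ k * ((n + 1) * n.choose (n / 2)) := by
          apply mul_le_mul h4 h5 (by positivity) (pow_nonneg (by linarith) _)
      _ = ((1 - ε) ^ k * n.choose (n / 2)) * (n + 1) := by ring
      _ ≤ (n.choose x : ℝ) * (n + 1) := mul_le_mul_of_nonneg_right h3 hnpos.le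
  exact le_of_mul_le_mul_right h6 hnpos

end Pool.Agent.Lib.MP_0430e4_lc.L3
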