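import Pool.Agent.Lib.MP_0430e4_lc.L3.FNB
import Pool.Agent.Lib.MP_0430e4_lc.L3.FNE
import Pool.Agent.Lib.MP_0430e4_lc.L3.FNC2
import Pool.Agent.Lib.MP_0430e4_lc.Lin.NEAR
import Pool.Agent.Lib.MP_0430e4_lc.Lin.NUM
import Pool.Agent.Lib.MP_0430e4_lc.L2.OPB

/-!
# FNP: the function `ψ`

PROOF of `fun_psi`: `fnb_lag`, `fnb_choose`, `fnc2` with `a₁ = -1` on the bad weights, `0` elsewhere: the square sum of all `al a₁ w` over the words of weight `≤ K < n / 2` is at most `2 * EW (a₁²) ≤ 4` (Parseval), `θ = 2`, so `|b| ≤ 2 * exp ((C + 1) ε² n)`,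
`Λ = exp (C' ε² n)`, and `L2.al_sharp_le` for `ψ / Λ` (`EW ≤ 1`, `flat K = 0` since all coefficients of weight `≤ K` vanish).
-/

set_option autoImplicit false

namespace Pool.Agent.Lib.MP_0430e4_lc.L3

open Finset Filter
open Lin (W wt chw evW EW al flat SymW lag)

theorem fnp_wt {n : ℕ} (w : W n) (p : Equiv.Perm (Fin n)) : wt (w ∘ p) = wt w := by
  unfold wt
  refine card_bij (fun i _ => p i) ?_ ?_ ?_
  · intro i hi
    rw [mem_filter] at hi ⊢
    exact ⟨mem_univ _, hi.2⟩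
  · intro i _ j _ hij
    exact p.injective hij
  · intro i hi
    rw [mem_filter] at hi
    exact ⟨p.symm i, mem_filter.mpr ⟨mem_univ _, by simpa using hi.2⟩, by simp⟩

theorem fnp_al {n K : ℕ} (hn : 0 < n) (hK : 2 * K + 2 ≤ n) {b : ℕ → ℝ} {Λ : ℝ} (hΛ : 0 < Λ)
    (hb : ∀ j, |b j| ≤ Λ) (h0 : ∀ w : W n, wt w ≤ K → al (fun y => b (wt y)) w = 0) (w : W n) :
    |al (fun y => b (wt y)) w| ≤ 2 * Λ / Real.sqrt (n.choose (K + 1)) := by
  set φ : W n → ℝ := fun y => b (wt y) / Λ with hφ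
  have hal : ∀ v, al φ v = al (fun y => b (wt y)) v / Λ := by
    intro v
    unfold al
    rw [eq_div_iff hΛ.ne', mul_comm, ← Lin.EW_mul_left]
    refine Lin.EW_congr fun x _ => ?_
    rw [hφ]
    field_simp
  have hs : SymW φ := by
    intro p x
    show b (wt (x ∘ p)) / Λ = b (wt x) / Λ
    rw [fnp_wt]
  have hE : EW (fun x => φ x ^ 2) ≤ 1 := by
    rw [← Lin.EW_const hn 1]
    refine Lin.EW_mono fun x _ => ?_
    rw [hφ]
    simp only
    rw [div_pow, div_le_one (by positivity), ← sq_abs]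
    exact pow_le_pow_left₀ (abs_nonneg _) (hb _) 2
  have hfl : ∀ x, flat K φ x = 0 := by
    intro x
    unfold flat
    refine sum_eq_zero fun v hv => ?_
    rw [hal, h0 v (mem_filter.mp hv).2]
    simp
  have h1 := L2.al_sharp_le hn hs hE hK w
  simp only [hfl, sub_zero] at h1
  have h2 : al (fun x => φ x) w = al (fun y => b (wt y)) w / Λ := hal w
  rw [h2, abs_div, abs_of_pos hΛ, div_le_iff₀ hΛ] at h1
  refine h1.trans (le_of_eq ?_)
  ring

theorem fun_psi {c : ℝ} (hc : 1 ≤ c) : ∃ C ε₀ : ℝ, 0 < C ∧ 0 < ε₀ ∧ ∀ ε : ℝ, 0 < ε → ε < ε₀ →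
    ∀ᶠ n : ℕ in atTop, ∀ K : ℕ, (K : ℝ) ≤ c * ε ^ 2 * n →
      ∃ b : ℕ → ℝ,
        (∀ w, (w < ⌈(1 / 2 - ε) * n⌉₊ ∨ n < w + ⌈(1 / 2 - ε) * n⌉₊) → b w = -1) ∧
        (∀ w, ⌈(1 / 2 - ε) * n⌉₊ ≤ w → w + ⌈(1 / 2 - ε) * n⌉₊ ≤ n →
          |b w| ≤ Real.exp (C * ε ^ 2 * n)) ∧
        ∀ w : W n, |al (fun x => b (wt x)) w| ≤
          2 * Real.exp (C * ε ^ 2 * n) / Real.sqrt (n.choose (K + 1)) := by
  obtain ⟨C₁, ε₁, hC₁, hε₁, hlag⟩ := fnb_lag hc
  obtain ⟨ε₂, hε₂, hch⟩ := fnb_choose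
  have hc0 : 0 < c := by linarith
  refine ⟨C₁ + 2, min (min ε₁ ε₂) (1 / (4 * c)), by positivity,
    lt_min (lt_min hε₁ hε₂) (by positivity), fun ε h0 h1 => ?_⟩
  have h11 : ε < ε₁ := h1.trans_le ((min_le_left _ _).trans (min_le_left _ _))
  have h12 : ε < ε₂ := h1.trans_le ((min_le_left _ _).trans (min_le_right _ _))
  have h13 : ε < 1 / (4 * c) := h1.trans_le (min_le_right _ _)
  have hεc : 4 * c * ε < 1 := by
    rw [lt_div_iff₀ (by positivity)] at h13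
    linarith
  have hε1 : ε < 1 / 4 := by nlinarith
  filter_upwards [hlag ε h0 h11, hch ε h0 h12, eventually_ge_atTop ⌈16 / ε ^ 2⌉₊,
    eventually_ge_atTop 16] with n hnl hnc hn hn16 K hK
  have hn1 : 1 ≤ n := by omega
  have hn0 : (0 : ℝ) < n := by exact_mod_cast hn1
  have hn16' : (16 : ℝ) ≤ n := by exact_mod_cast hn16
  have hn2 : 16 ≤ ε ^ 2 * n := by
    have h2 : 16 / ε ^ 2 ≤ (n : ℝ) := Nat.ceil_le.mp hn
    rw [div_le_iff₀ (by positivity)] at h2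
    linarith
  have hn3 : 16 ≤ ε * n := by
    have : ε ^ 2 * n ≤ ε * n := by
      apply mul_le_mul_of_nonneg_right _ hn0.le
      nlinarith
    linarith
  set d : ℕ := ⌈(1 / 2 - ε) * n⌉₊ with hd
  have hd1 : (d : ℝ) < (1 / 2 - ε) * n + 1 := by
    apply Nat.ceil_lt_add_one
    have : 0 ≤ 1 / 2 - ε := by linarith
    positivity
  have hK2 : 2 * K + 2 ≤ n := by
    have h3 : c * ε ^ 2 * n ≤ n / 16 := by
      have : c * ε ^ 2 ≤ 1 / 16 := by nlinarith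
      nlinarith
    have : (2 * K + 2 : ℝ) ≤ n := by nlinarith
    exact_mod_cast this
  obtain ⟨x, hxi, hxe, hxb, hxl⟩ := hnl K hK
  set a : ℕ → ℝ := fun w => if w < d ∨ n < w + d then -1 else 0 with ha
  have ha1 : ∀ w, a w ^ 2 ≤ 1 := by
    intro w; rw [ha]; simp only; split_ifs <;> norm_num
  have hsum : ∑ w ∈ univ.filter (fun w : W n => wt w ≤ K), al (fun y => a (wt y)) w ^ 2 ≤
      2 ^ 2 := by
    calc _ ≤ ∑ w : W n, al (fun y => a (wt y)) w ^ 2 :=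
          sum_le_sum_of_subset_of_nonneg (filter_subset _ _) fun _ _ _ => sq_nonneg _
      _ = 2 * EW (fun y => a (wt y) ^ 2) := Lin.parsevalW hn1 _
      _ ≤ 2 * EW (fun _ : W n => (1 : ℝ)) := by
          apply mul_le_mul_of_nonneg_left _ (by norm_num)
          exact Lin.EW_mono fun y _ => ha1 _
      _ ≤ 2 ^ 2 := by rw [Lin.EW_const hn1]; norm_num
  obtain ⟨b, hb1, hb2, hb3⟩ := fnc2 (n := n) (k := K) hn1 (by omega) x hxi hxe a
    (θ := 2) (by norm_num) hsum (Lm := Real.exp (C₁ * ε ^ 2 * n)) (Real.exp_pos _).le hxl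
    (pm := Real.exp (-(ε ^ 2 * n))) (Real.exp_pos _)
    (fun j => hnc (x j) (hxb j).1 (hxb j).2)
  have hgood : ∀ i, d ≤ x i ∧ x i + d ≤ n := by
    intro i
    obtain ⟨g1, g2⟩ := hxb i
    constructor
    · have : (d : ℝ) ≤ x i := by nlinarith
      exact_mod_cast this
    · have : (x i : ℝ) + d ≤ n := by nlinarith
      exact_mod_cast this
  have hbad0 : ∀ w, (w < d ∨ n < w + d) → b w = 0 := by
    intro w hw
    by_contra hne
    obtain ⟨i, rfl⟩ := hb1 w hne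
    have := hgood i
    omega
  have hexp : 2 * Real.exp (C₁ * ε ^ 2 * n) / Real.exp (-(ε ^ 2 * n)) ≤
      Real.exp ((C₁ + 2) * ε ^ 2 * n) := by
    rw [div_le_iff₀ (Real.exp_pos _), ← Real.exp_add]
    have h2 : (2 : ℝ) ≤ Real.exp (ε ^ 2 * n) := by
      have := Real.add_one_le_exp (ε ^ 2 * n)
      linarith
    calc 2 * Real.exp (C₁ * ε ^ 2 * n) ≤ Real.exp (ε ^ 2 * n) * Real.exp (C₁ * ε ^ 2 * n) :=
          mul_le_mul_of_nonneg_right h2 (Real.exp_pos _).le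
      _ = Real.exp ((C₁ + 2) * ε ^ 2 * n + -(ε ^ 2 * n)) := by
          rw [← Real.exp_add]; congr 1; ring
  have hone : 1 ≤ Real.exp ((C₁ + 2) * ε ^ 2 * n) := Real.one_le_exp (by positivity)
  have hbb : ∀ w, |a w + b w| ≤ Real.exp ((C₁ + 2) * ε ^ 2 * n) := by
    intro w
    by_cases hw : w < d ∨ n < w + d
    · have e1 : a w = -1 := by rw [ha]; simp only; rw [if_pos hw]
      rw [e1, hbad0 w hw]
      simpa using hone
    · have e1 : a w = 0 := by rw [ha]; simp only; rw [if_neg hw]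
      rw [e1, zero_add]
      exact (hb2 w).trans hexp
  refine ⟨fun w => a w + b w, fun w hw => ?_, fun w _ _ => hbb w, fun w => ?_⟩
  · show a w + b w = -1
    rw [hbad0 w hw, add_zero, ha]
    simp only
    rw [if_pos hw]
  · exact fnp_al hn1 hK2 (Real.exp_pos _) hbb hb3 w

end Pool.Agent.Lib.MP_0430e4_lc.L3
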