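import Pool.Agent.Lib.MP_0430e4_lc.L3.NUB

/-!
# NUH: numerical conditions, high part

PROOF. `l = log (1/ε)`; `MM ≤ exp (3 ε² l n)`. `cj m t j = 40 m t 6 ^ j`. By `nua_Bn` (for `c = 8 t` and all `c = cj m t j`, `j ≤ m`) the exponents divided by `ε² n`, up to a constant while `l` is large: `log (Bn n (Kt (8 t))) ^ m = 16 m t l`,
`log ∏ (i < j) Bn n (Kt (cj i)) = 2 l ∑ (i < j) cj i ≤ (2/5) (cj j) l` (`∑ (i < j) 6 ^ i = (6 ^ j - 1) / 5`), `log √C(n, Kt (cj j) + 1) = (cj j) l`, `log MM ^ t ≤ 3 t l`, `log (1 + Λ) ^ (3 m) ≤ 3 m (CL + 1)`.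
`nuh_j`: `16 m t + 3 t + (2/5) cj j < cj j` since `(3/5) * 40 m t = 24 m t > 19 m t`. `nuh_ψ`: `16 m t + 3 t < cj m`. Everything is squared. For fixed small `ε` the bound is `exp (- c' ε² l n)` times a constant, so it is at most `η²` for large `n`.
-/

set_option autoImplicit false

namespace Pool.Agent.Lib.MP_0430e4_lc.L3

open Finset Filter

theorem nuh_Bn_nonneg (n K : ℕ) : 0 ≤ Bn n K := by
  unfold Bn
  exact sum_nonneg fun _ _ => Nat.cast_nonneg _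

theorem nuh_MM {ζ ε : ℝ} (hζ : 0 < ζ) (hζ1 : ζ ≤ 1 / 2) (n : ℕ)
    (h1 : ε ^ 2 * Real.log (1 / ε) ≤ Tensor.ell (1 / 2 - ε) * Real.log 2)
    (h2 : Tensor.ell (1 / 2 - ε) * Real.log 2 ≤ 3 * (ε ^ 2 * Real.log (1 / ε)))
    (hl : 0 ≤ Real.log (1 / ε)) :
    MM ζ ε n ≤ Real.exp (ε ^ 2 * n * (3 * Real.log (1 / ε))) := by
  unfold MM
  refine Real.exp_le_exp.2 ?_
  have h3 : 0 ≤ ε ^ 2 * Real.log (1 / ε) := mul_nonneg (sq_nonneg _) hl
  have h4 : (1 - ζ) * (Tensor.ell (1 / 2 - ε) * Real.log 2) ≤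
      3 * (ε ^ 2 * Real.log (1 / ε)) := by nlinarith
  calc _ ≤ (n : ℝ) * (3 * (ε ^ 2 * Real.log (1 / ε))) :=
        mul_le_mul_of_nonneg_left h4 (Nat.cast_nonneg n)
    _ = _ := by ring

theorem nuh_asm {m t : ℕ} {E CL l B P G Ch M C₁ C₂ C₃ p c : ℝ} (hE : 0 ≤ E) (hCL : 0 ≤ CL)
    (hB0 : 0 ≤ B) (hP0 : 0 ≤ P) (hG0 : 0 ≤ G) (hM0 : 0 ≤ M)
    (hB : B ≤ Real.exp (E * (16 * t * l + C₁))) (hP : P ≤ Real.exp (E * (p * l + C₂)))
    (hG : G ≤ Real.exp (CL * E)) (hCh : Real.exp (E * (2 * c * l - C₃)) ≤ Ch)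
    (hM : M ≤ Real.exp (E * (3 * l)))
    (hcoef : 16 * m * t + p + 3 * t - c ≤ -2) (hl1 : 1 ≤ l)
    (hl : 3 * m * CL + m * C₁ + C₂ + CL + C₃ / 2 ≤ l) :
    ((1 + Real.exp (CL * E)) ^ (3 * m) * B ^ m * P * (2 * G / Real.sqrt Ch)) ^ 2 * M ^ (2 * t) ≤
      (2 ^ (3 * m + 1)) ^ 2 * Real.exp (-(2 * E)) := by
  have a1 : (1 + Real.exp (CL * E)) ^ (3 * m) ≤ 2 ^ (3 * m) * Real.exp (3 * m * (CL * E)) := by
    have h1 : 1 + Real.exp (CL * E) ≤ 2 * Real.exp (CL * E) := by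
      have := Real.one_le_exp (mul_nonneg hCL hE)
      linarith
    calc _ ≤ (2 * Real.exp (CL * E)) ^ (3 * m) := pow_le_pow_left₀ (by positivity) h1 _
      _ = _ := by
          rw [mul_pow, ← Real.exp_nat_mul]
          push_cast
          ring_nf
  have a2 : B ^ m ≤ Real.exp (m * (E * (16 * t * l + C₁))) := by
    rw [Real.exp_nat_mul]
    exact pow_le_pow_left₀ hB0 hB m
  have a3 : (Real.sqrt Ch)⁻¹ ≤ Real.exp (-(E * (2 * c * l - C₃) / 2)) := by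
    rw [Real.exp_neg]
    refine inv_anti₀ (Real.exp_pos _) ?_
    refine Real.le_sqrt_of_sq_le ?_
    rw [← Real.exp_nat_mul]
    refine le_trans (le_of_eq ?_) hCh
    congr 1
    push_cast
    ring
  have a4 : M ^ (2 * t) ≤ Real.exp (2 * t * (E * (3 * l))) := by
    have := pow_le_pow_left₀ hM0 hM (2 * t)
    rw [← Real.exp_nat_mul] at this
    push_cast at this
    exact this
  have hs : 0 ≤ (Real.sqrt Ch)⁻¹ := inv_nonneg.2 (Real.sqrt_nonneg _)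
  have hX : (1 + Real.exp (CL * E)) ^ (3 * m) * B ^ m * P * (2 * G / Real.sqrt Ch) ≤
      (2 ^ (3 * m) * Real.exp (3 * m * (CL * E))) * Real.exp (m * (E * (16 * t * l + C₁))) *
        Real.exp (E * (p * l + C₂)) *
        (2 * Real.exp (CL * E) * Real.exp (-(E * (2 * c * l - C₃) / 2))) := by
    rw [div_eq_mul_inv]
    gcongr
  have hX0 : 0 ≤ (1 + Real.exp (CL * E)) ^ (3 * m) * B ^ m * P * (2 * G / Real.sqrt Ch) := by
    positivity
  calc _ ≤ ((2 ^ (3 * m) * Real.exp (3 * m * (CL * E))) *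
        Real.exp (m * (E * (16 * t * l + C₁))) * Real.exp (E * (p * l + C₂)) *
        (2 * Real.exp (CL * E) * Real.exp (-(E * (2 * c * l - C₃) / 2)))) ^ 2 *
          Real.exp (2 * t * (E * (3 * l))) :=
        mul_le_mul (pow_le_pow_left₀ hX0 hX 2) a4 (by positivity) (by positivity)
    _ = (2 ^ (3 * m + 1)) ^ 2 * Real.exp (2 * E * ((16 * m * t + p + 3 * t - c) * l +
          (3 * m * CL + m * C₁ + C₂ + CL + C₃ / 2))) := by
        have e1 : 2 * E * ((16 * m * t + p + 3 * t - c) * l +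
          (3 * m * CL + m * C₁ + C₂ + CL + C₃ / 2)) =
          (3 * m * (CL * E) + m * (E * (16 * t * l + C₁)) + E * (p * l + C₂) + CL * E +
            -(E * (2 * c * l - C₃) / 2)) + (3 * m * (CL * E) + m * (E * (16 * t * l + C₁)) +
            E * (p * l + C₂) + CL * E + -(E * (2 * c * l - C₃) / 2)) +
            2 * t * (E * (3 * l)) := by ring
        rw [e1]
        simp only [Real.exp_add]
        ring
    _ ≤ _ := by
        refine mul_le_mul_of_nonneg_left (Real.exp_le_exp.2 ?_) (by positivity)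
        have h1 : (16 * m * t + p + 3 * t - c) * l ≤ -2 * l :=
          mul_le_mul_of_nonneg_right hcoef (by linarith)
        have h2 : (16 * m * t + p + 3 * t - c) * l +
          (3 * m * CL + m * C₁ + C₂ + CL + C₃ / 2) ≤ -1 := by linarith
        have h3 := mul_le_mul_of_nonneg_left h2 (by linarith : 0 ≤ 2 * E)
        linarith

theorem nuh_decay {A a η : ℝ} (ha : 0 < a) (hη : 0 < η) :
    ∀ᶠ n : ℕ in atTop, A * Real.exp (-(a * n)) ≤ η ^ 2 := by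
  have h1 : Tendsto (fun n : ℕ => A * Real.exp (-(a * n))) atTop (nhds (A * 0)) := by
    refine Tendsto.const_mul A ?_
    refine Real.tendsto_exp_atBot.comp ?_
    refine tendsto_neg_atTop_atBot.comp ?_
    exact Tendsto.const_mul_atTop ha tendsto_natCast_atTop_atTop
  rw [mul_zero] at h1
  have h2 : (0 : ℝ) < η ^ 2 := by positivity
  filter_upwards [h1.eventually (gt_mem_nhds h2)] with n hn
  exact hn.le

theorem nuh_log {K : ℝ} : ∃ ε₀ : ℝ, 0 < ε₀ ∧ ε₀ < 1 ∧ ∀ ε : ℝ, 0 < ε → ε < ε₀ →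
    K ≤ Real.log (1 / ε) ∧ 1 ≤ Real.log (1 / ε) := by
  refine ⟨Real.exp (-(max K 1)), Real.exp_pos _, ?_, ?_⟩
  · rw [Real.exp_lt_one_iff]
    have := le_max_right K 1
    linarith
  · intro ε h0 h1
    have h2 : max K 1 ≤ Real.log (1 / ε) := by
      rw [one_div, Real.log_inv]
      have h3 := Real.log_lt_log h0 h1
      rw [Real.log_exp] at h3
      linarith
    exact ⟨(le_max_left _ _).trans h2, (le_max_right _ _).trans h2⟩

theorem nuh_psi (t m : ℕ) (ht : 1 ≤ t) (hm : 1 ≤ m) {ζ η CL : ℝ} (hζ : 0 < ζ) (hζ1 : ζ ≤ 1 / 2)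
    (hη : 0 < η) (hCL : 0 < CL) :
    ∃ ε₀ : ℝ, 0 < ε₀ ∧ ∀ ε : ℝ, 0 < ε → ε < ε₀ → ∀ᶠ n : ℕ in atTop,
      ((1 + Real.exp (CL * ε ^ 2 * n)) ^ (3 * m) * Bn n (Kt (8 * t) ε n) ^ m *
        (2 * Real.exp (CL * ε ^ 2 * n) / Real.sqrt (n.choose (Kt (cj m t m) ε n + 1)))) ^ 2 *
        MM ζ ε n ^ (2 * t) ≤ η ^ 2 := by
  have ht' : (1 : ℝ) ≤ t := by exact_mod_cast ht
  have hm' : (1 : ℝ) ≤ m := by exact_mod_cast hm
  have hc : 0 < cj m t m := by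
    unfold cj
    positivity
  obtain ⟨C₁, e₁, _, he₁, h₁⟩ := nua_Bn (c := 8 * (t : ℝ)) (by positivity)
  obtain ⟨C₃, e₃, _, he₃, h₃⟩ := nua_Bn hc
  obtain ⟨e₂, he₂, _, h₂⟩ := Lin.ell_near
  obtain ⟨e₄, he₄, he₄', h₄⟩ := nuh_log (K := 3 * m * CL + m * C₁ + 0 + CL + C₃ / 2)
  refine ⟨min (min e₁ e₂) (min e₃ e₄), lt_min (lt_min he₁ he₂) (lt_min he₃ he₄),
    fun ε h0 hε => ?_⟩
  have k1 : ε < e₁ := lt_of_lt_of_le hε ((min_le_left _ _).trans (min_le_left _ _))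
  have k2 : ε < e₂ := lt_of_lt_of_le hε ((min_le_left _ _).trans (min_le_right _ _))
  have k3 : ε < e₃ := lt_of_lt_of_le hε ((min_le_right _ _).trans (min_le_left _ _))
  have k4 : ε < e₄ := lt_of_lt_of_le hε ((min_le_right _ _).trans (min_le_right _ _))
  obtain ⟨q1, q2⟩ := h₂ ε h0 k2
  obtain ⟨q3, q4⟩ := h₄ ε h0 k4
  filter_upwards [h₁ ε h0 k1, h₃ ε h0 k3,
    nuh_decay (A := (2 ^ (3 * m + 1)) ^ 2) (a := 2 * ε ^ 2) (by positivity) hη] with n r1 r3 r4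
  refine le_trans ?_ r4
  have key := nuh_asm (m := m) (t := t) (E := ε ^ 2 * n) (CL := CL) (l := Real.log (1 / ε))
    (B := Bn n (Kt (8 * t) ε n)) (P := 1) (G := Real.exp (CL * (ε ^ 2 * n)))
    (Ch := n.choose (Kt (cj m t m) ε n + 1)) (M := MM ζ ε n) (C₁ := C₁) (C₂ := 0) (C₃ := C₃)
    (p := 0) (c := cj m t m) (by positivity) hCL.le (nuh_Bn_nonneg _ _) zero_le_one
    (Real.exp_pos _).le (Real.exp_pos _).le ?_ ?_ le_rfl ?_ (nuh_MM hζ hζ1 n q1 q2 (by linarith))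
    ?_ q4 q3
  · rw [mul_one, show CL * (ε ^ 2 * (n : ℝ)) = CL * ε ^ 2 * n by ring,
      show -(2 * (ε ^ 2 * (n : ℝ))) = -(2 * ε ^ 2 * n) by ring] at key
    exact key
  · refine r1.1.trans (le_of_eq ?_)
    congr 1
    ring
  · simp
  · exact r3.2
  · unfold cj
    have h6 : (1 : ℝ) ≤ 6 ^ m := one_le_pow₀ (by norm_num)
    have h7 : (40 : ℝ) * m * t * 1 ≤ 40 * m * t * 6 ^ m :=
      mul_le_mul_of_nonneg_left h6 (by positivity)
    have h8 : (1 : ℝ) ≤ m * t := by nlinarith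
    have h9 : (t : ℝ) ≤ m * t := by nlinarith
    nlinarith

theorem nuh_prod (t m : ℕ) (ht : 1 ≤ t) (hm : 1 ≤ m) (j : ℕ) : ∃ C ε₀ : ℝ, 0 < ε₀ ∧
    ∀ ε : ℝ, 0 < ε → ε < ε₀ → ∀ᶠ n : ℕ in atTop,
      ∏ i ∈ range j, Bn n (Kt (cj m t i) ε n) ≤
        Real.exp (ε ^ 2 * n * ((16 * m * t * (6 ^ j - 1)) * Real.log (1 / ε) + C)) := by
  have ht' : (1 : ℝ) ≤ t := by exact_mod_cast ht
  have hm' : (1 : ℝ) ≤ m := by exact_mod_cast hm
  induction j with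
  | zero =>
    refine ⟨0, 1, one_pos, fun ε _ _ => Eventually.of_forall fun n => ?_⟩
    simp
  | succ j ih =>
    obtain ⟨C, e, he, h⟩ := ih
    have hc : 0 < cj m t j := by
      unfold cj
      positivity
    obtain ⟨C', e', _, he', h'⟩ := nua_Bn hc
    refine ⟨C + C', min e e', lt_min he he', fun ε h0 hε => ?_⟩
    filter_upwards [h ε h0 (lt_of_lt_of_le hε (min_le_left _ _)),
      h' ε h0 (lt_of_lt_of_le hε (min_le_right _ _))] with n r1 r2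
    rw [prod_range_succ]
    refine (mul_le_mul r1 r2.1 (nuh_Bn_nonneg _ _) (Real.exp_pos _).le).trans (le_of_eq ?_)
    rw [← Real.exp_add]
    congr 1
    unfold cj
    ring

theorem nuh_j (t m : ℕ) (ht : 1 ≤ t) (hm : 1 ≤ m) {ζ η CL : ℝ} (hζ : 0 < ζ) (hζ1 : ζ ≤ 1 / 2)
    (hη : 0 < η) (hCL : 0 < CL) (j : ℕ) :
    ∃ ε₀ : ℝ, 0 < ε₀ ∧ ∀ ε : ℝ, 0 < ε → ε < ε₀ → ∀ᶠ n : ℕ in atTop,
      ((1 + Real.exp (CL * ε ^ 2 * n)) ^ (3 * m) * Bn n (Kt (8 * t) ε n) ^ m *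
        (∏ i ∈ range j, Bn n (Kt (cj m t i) ε n)) *
        (2 / Real.sqrt (n.choose (Kt (cj m t j) ε n + 1)))) ^ 2 * MM ζ ε n ^ (2 * t) ≤ η ^ 2 := by
  have ht' : (1 : ℝ) ≤ t := by exact_mod_cast ht
  have hm' : (1 : ℝ) ≤ m := by exact_mod_cast hm
  have hc : 0 < cj m t j := by
    unfold cj
    positivity
  obtain ⟨C₁, e₁, _, he₁, h₁⟩ := nua_Bn (c := 8 * (t : ℝ)) (by positivity)
  obtain ⟨C₃, e₃, _, he₃, h₃⟩ := nua_Bn hc
  obtain ⟨C₂, e₅, he₅, h₅⟩ := nuh_prod t m ht hm j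
  obtain ⟨e₂, he₂, _, h₂⟩ := Lin.ell_near
  obtain ⟨e₄, he₄, he₄', h₄⟩ := nuh_log (K := 3 * m * CL + m * C₁ + C₂ + CL + C₃ / 2)
  refine ⟨min (min (min e₁ e₂) (min e₃ e₄)) e₅,
    lt_min (lt_min (lt_min he₁ he₂) (lt_min he₃ he₄)) he₅, fun ε h0 hε => ?_⟩
  have k5 : ε < e₅ := lt_of_lt_of_le hε (min_le_right _ _)
  have hε' := lt_of_lt_of_le hε (min_le_left _ _)
  have k1 : ε < e₁ := lt_of_lt_of_le hε' ((min_le_left _ _).trans (min_le_left _ _))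
  have k2 : ε < e₂ := lt_of_lt_of_le hε' ((min_le_left _ _).trans (min_le_right _ _))
  have k3 : ε < e₃ := lt_of_lt_of_le hε' ((min_le_right _ _).trans (min_le_left _ _))
  have k4 : ε < e₄ := lt_of_lt_of_le hε' ((min_le_right _ _).trans (min_le_right _ _))
  obtain ⟨q1, q2⟩ := h₂ ε h0 k2
  obtain ⟨q3, q4⟩ := h₄ ε h0 k4
  filter_upwards [h₁ ε h0 k1, h₃ ε h0 k3, h₅ ε h0 k5,
    nuh_decay (A := (2 ^ (3 * m + 1)) ^ 2) (a := 2 * ε ^ 2) (by positivity) hη] with n r1 r3 r5 r4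
  refine le_trans ?_ r4
  have key := nuh_asm (m := m) (t := t) (E := ε ^ 2 * n) (CL := CL) (l := Real.log (1 / ε))
    (B := Bn n (Kt (8 * t) ε n)) (P := ∏ i ∈ range j, Bn n (Kt (cj m t i) ε n)) (G := 1)
    (Ch := n.choose (Kt (cj m t j) ε n + 1)) (M := MM ζ ε n) (C₁ := C₁) (C₂ := C₂) (C₃ := C₃)
    (p := 16 * m * t * (6 ^ j - 1)) (c := cj m t j) (by positivity) hCL.le (nuh_Bn_nonneg _ _)
    (prod_nonneg fun _ _ => nuh_Bn_nonneg _ _) zero_le_one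
    (Real.exp_pos _).le ?_ r5 (Real.one_le_exp (by positivity)) ?_
    (nuh_MM hζ hζ1 n q1 q2 (by linarith)) ?_ q4 q3
  · rw [mul_one, show CL * (ε ^ 2 * (n : ℝ)) = CL * ε ^ 2 * n by ring,
      show -(2 * (ε ^ 2 * (n : ℝ))) = -(2 * ε ^ 2 * n) by ring] at key
    exact key
  · refine r1.1.trans (le_of_eq ?_)
    congr 1
    ring
  · exact r3.2
  · unfold cj
    have h6 : (1 : ℝ) ≤ 6 ^ j := one_le_pow₀ (by norm_num)
    have h7 : (24 : ℝ) * m * t * 1 ≤ 24 * m * t * 6 ^ j :=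
      mul_le_mul_of_nonneg_left h6 (by positivity)
    have h8 : (1 : ℝ) ≤ m * t := by nlinarith
    have h9 : (t : ℝ) ≤ m * t := by nlinarith
    nlinarith

end Pool.Agent.Lib.MP_0430e4_lc.L3
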