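import Pool.Agent.Lib.MP_0430e4_lc.L3.NUK
import Pool.Agent.Lib.MP_0430e4_lc.L3.NUH

/-!
# NUA: the numerical conditions (assembly)
-/

set_option autoImplicit false

namespace Pool.Agent.Lib.MP_0430e4_lc.L3

open Finset Filter

theorem nua_exists_min (m : ℕ) (e : ℕ → ℝ) (he : ∀ j, 0 < e j) :
    ∃ ε₀ : ℝ, 0 < ε₀ ∧ ∀ j < m, ε₀ ≤ e j := by
  induction m with
  | zero => exact ⟨1, one_pos, fun j hj => absurd hj (Nat.not_lt_zero j)⟩
  | succ m ih =>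
    obtain ⟨ε₀, h0, h1⟩ := ih
    refine ⟨min ε₀ (e m), lt_min h0 (he m), fun j hj => ?_⟩
    rcases Nat.lt_succ_iff_lt_or_eq.1 hj with h | h
    · exact (min_le_left _ _).trans (h1 j h)
    · rw [h]
      exact min_le_right _ _

/-- The numerical conditions for the choice of the parameters. -/
theorem nua (t m : ℕ) (ht : 1 ≤ t) (hm : 1 ≤ m) {ζ η CL D : ℝ} (hζ : 0 < ζ) (hζ1 : ζ ≤ 1 / 2)
    (hη : 0 < η) (hCL : 0 < CL) (hD : 1 ≤ D) :
    ∃ ε₀ : ℝ, 0 < ε₀ ∧ ∀ ε : ℝ, 0 < ε → ε < ε₀ → ∀ᶠ n : ℕ in atTop,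
      Nk n m t (kk ζ ε n) ε D (Real.exp (CL * ε ^ 2 * n))
        (2 * Real.exp (CL * ε ^ 2 * n) / Real.sqrt (n.choose (Kt (cj m t m) ε n + 1)))
        (MM ζ ε n) η (Kt (8 * t) ε n) (Kt (cj m t m) ε n) (fun j => Kt (cj m t j) ε n) := by
  have htR : (1 : ℝ) ≤ t := by exact_mod_cast ht
  have hmR : (1 : ℝ) ≤ m := by exact_mod_cast hm
  obtain ⟨e1, h1, H1⟩ := nul_k t hζ hζ1
  obtain ⟨e2, h2, H2⟩ := nul_h (c := cj m t m) m hζ hζ1 hη hCL hD (by unfold cj; positivity)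
  obtain ⟨e3, h3, H3⟩ := nuh_psi t m ht hm hζ hζ1 hη hCL
  choose e4 h4 H4 using fun j => nuh_j t m ht hm hζ hζ1 hη hCL j
  obtain ⟨e5, h5, H5⟩ := nua_exists_min m e4 h4
  refine ⟨min (min e1 e2) (min e3 e5), lt_min (lt_min h1 h2) (lt_min h3 h5), fun ε h0 hε => ?_⟩
  have g1 : ε < e1 := lt_of_lt_of_le hε ((min_le_left _ _).trans (min_le_left _ _))
  have g2 : ε < e2 := lt_of_lt_of_le hε ((min_le_left _ _).trans (min_le_right _ _))
  have g3 : ε < e3 := lt_of_lt_of_le hε ((min_le_right _ _).trans (min_le_left _ _))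
  have g5 : ε < e5 := lt_of_lt_of_le hε ((min_le_right _ _).trans (min_le_right _ _))
  have G4 : ∀ᶠ n : ℕ in atTop, ∀ j ∈ range m,
      ((1 + Real.exp (CL * ε ^ 2 * n)) ^ (3 * m) * Bn n (Kt (8 * t) ε n) ^ m *
        (∏ i ∈ range j, Bn n (Kt (cj m t i) ε n)) *
        (2 / Real.sqrt (n.choose (Kt (cj m t j) ε n + 1)))) ^ 2 * MM ζ ε n ^ (2 * t) ≤ η ^ 2 := by
    rw [Finset.eventually_all]
    intro j hj
    exact H4 j ε h0 (lt_of_lt_of_le g5 (H5 j (mem_range.1 hj)))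
  filter_upwards [H1 ε h0 g1, H2 ε h0 g2, H3 ε h0 g3, G4] with n a1 a2 a3 a4
  refine ⟨a1.2.2, hη.le, a1.1, ?_, a1.2.1, a2.1, a2.2, a3, fun j hj => a4 j (mem_range.2 hj)⟩
  intro j hj
  have hε2 : 0 ≤ ε ^ 2 * n := by positivity
  have h6 : (1 : ℝ) ≤ 6 ^ j := one_le_pow₀ (by norm_num)
  have h7 : (6 : ℝ) ^ j ≤ 6 ^ m := pow_le_pow_right₀ (by norm_num) hj.le
  constructor
  · apply Nat.floor_le_floor
    have : (8 : ℝ) * t ≤ cj m t j := by
      unfold cj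
      have e1 : (1 : ℝ) ≤ m * 6 ^ j := by nlinarith
      have e2 : (t : ℝ) ≤ m * 6 ^ j * t := by nlinarith
      nlinarith
    calc 8 * (t : ℝ) * ε ^ 2 * n = 8 * t * (ε ^ 2 * n) := by ring
      _ ≤ cj m t j * (ε ^ 2 * n) := mul_le_mul_of_nonneg_right this hε2
      _ = _ := by ring
  · apply Nat.floor_le_floor
    have : cj m t j ≤ cj m t m := by
      unfold cj
      exact mul_le_mul_of_nonneg_left h7 (by positivity)
    calc cj m t j * ε ^ 2 * n = cj m t j * (ε ^ 2 * n) := by ring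
      _ ≤ cj m t m * (ε ^ 2 * n) := mul_le_mul_of_nonneg_right this hε2
      _ = _ := by ring

end Pool.Agent.Lib.MP_0430e4_lc.L3
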