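import Pool.Agent.Lib.MP_0430e4_lc.L3.FND
import Pool.Agent.Lib.MP_0430e4_lc.L3.FNP
import Pool.Agent.Lib.MP_0430e4_lc.L3.NUA
import Pool.Agent.Lib.MP_0430e4_lc.Lin.CNT

/-!
# DAT: the data exist

PROOF. `c = cj m t m`, `D = √c`; `fun_phi` with `z = ζ / 2`, `k = kk ζ ε n`; `fun_psi` with this `c` (constant `CL`), `K = Kx = Kt c ε n`; `nua`. `P.φ x = a (wt x)`, `P.ψ x = b (wt x)`, `P.k = k`, the coefficients `α j = al P.φ (word with j ones at the first positions)`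
(`P.φ` is symmetric), `P.f j = if j < KV then α j else 0`. `a1`: `|al P.φ w| ≤ C(n, wt w) ^ (-1/2)` for `2 wt w ≤ n` since `EW (P.φ ^ 2) ≤ 1` (as in `L2.al_sharp_le`: `C(n,j) |α j|² ≤ EW φ² ≤ 1` for `2 j < n`), `C(n, j) ≥ (n / j) ^ j` (`Lin.choose_ge_pow`), so
`|α j| ≤ (j / n) ^ (j / 2) ≤ (c ε²) ^ (j / 2) = (D ε) ^ j` for `j ≤ Kx ≤ c ε² n`. `band`: `d ≥ (1/2 - ε) n`. `op`: `L2.op_of_al`. `bad`, `good`: clear.
-/

set_option autoImplicit false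

namespace Pool.Agent.Lib.MP_0430e4_lc.L3

open Finset Filter
open Lin (W wt chw evW EW al flat SymW lag)
open L2 (Ev OP)

open Classical in
/-- the coefficient at the words of weight `j` -/
noncomputable def dat_a {n : ℕ} (φ : W n → ℝ) (j : ℕ) : ℝ :=
  if h : ∃ w : W n, wt w = j then al φ h.choose else 0

theorem dat_coef {n : ℕ} {φ : W n → ℝ} (hs : SymW φ) (w : W n) : al φ w = dat_a φ (wt w) := by
  unfold dat_a
  have h : ∃ v : W n, wt v = wt w := ⟨w, rfl⟩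
  rw [dif_pos h]
  exact Lin.al_radial hs h.choose_spec.symm

theorem dat_zero {n : ℕ} {φ : W n → ℝ} {k : ℕ} (h : ∀ w : W n, wt w < k → al φ w = 0) {j : ℕ}
    (hj : j < k) : dat_a φ j = 0 := by
  unfold dat_a
  split_ifs with h1
  · exact h _ (by rw [h1.choose_spec]; exact hj)
  · rfl

theorem dat_bound {n : ℕ} (hn : 0 < n) {φ : W n → ℝ} (hs : SymW φ)
    (hE : ∀ x ∈ evW n, |φ x| ≤ 1) {Kx : ℕ} (hK : 2 * Kx + 2 ≤ n) {D ε : ℝ} (hD : 0 ≤ D)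
    (hε : 0 ≤ ε) (hKx : (Kx : ℝ) / n ≤ (D * ε) ^ 2) {j : ℕ} (hj : j ≤ Kx) :
    |dat_a φ j| ≤ (D * ε) ^ j := by
  have hDε : 0 ≤ D * ε := mul_nonneg hD hε
  unfold dat_a
  split_ifs with h1
  · obtain ⟨w, hw⟩ : ∃ w, w = h1.choose := ⟨_, rfl⟩
    have hwj : wt w = j := by
      rw [hw]
      exact h1.choose_spec
    rw [← hw]
    have hEW : EW (fun x => φ x ^ 2) ≤ 1 ^ 2 := by
      rw [one_pow]
      refine le_trans (Lin.EW_mono (g := fun _ => (1 : ℝ)) fun x hx => ?_)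
        (le_of_eq (Lin.EW_const hn 1))
      have := hE x hx
      rw [← sq_abs]
      exact pow_le_one₀ (abs_nonneg _) this
    have h2 := Lin.ao_sq_le hn hs hEW (w := w) (M := Kx) (by omega) (by omega)
    have h3 : Lin.ao φ w = al φ w := by
      unfold Lin.ao
      rw [if_pos (by omega), one_mul]
    rw [h3, one_pow, one_mul, hwj] at h2
    have h4 : ((Kx : ℝ) / n) ^ j ≤ ((D * ε) ^ j) ^ 2 := by
      rw [← pow_mul, mul_comm j 2, pow_mul]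
      exact pow_le_pow_left₀ (by positivity) hKx j
    exact abs_le_of_sq_le_sq (h2.trans h4) (by positivity)
  · rw [abs_zero]
    positivity

theorem dat (t : ℕ) (ht : 1 ≤ t) {ζ η : ℝ} (hζ : 0 < ζ) (hζ1 : ζ ≤ 1 / 2) (hη : 0 < η) :
    ∃ ε₀ : ℝ, 0 < ε₀ ∧ ε₀ < 1 / 2 ∧ ∀ ε : ℝ, 0 < ε → ε < ε₀ → ∀ᶠ n : ℕ in atTop, Even n →
      ∃ (P : Pm n) (a : ℕ → ℝ) (D Λ ρ : ℝ) (KV Kx : ℕ) (Ks : ℕ → ℕ),
        Pk n P ⌈(1 / 2 - ε) * n⌉₊ a ε D Λ ρ KV Kx ∧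
        Nk n ((2 * t) ^ 2) t P.k ε D Λ ρ (MM ζ ε n) η KV Kx Ks := by
  obtain ⟨m, hm⟩ : ∃ m, m = (2 * t) ^ 2 := ⟨_, rfl⟩
  have hm1 : 1 ≤ m := by
    rw [hm]
    exact Nat.one_le_pow _ _ (by omega)
  have htR : (1 : ℝ) ≤ t := by exact_mod_cast ht
  have hmR : (1 : ℝ) ≤ m := by exact_mod_cast hm1
  obtain ⟨c, hc⟩ : ∃ c, c = cj m t m := ⟨_, rfl⟩
  have hc1 : 1 ≤ c := by
    rw [hc]
    unfold cj
    have h6 : (1 : ℝ) ≤ 6 ^ m := one_le_pow₀ (by norm_num)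
    have h7 : (1 : ℝ) ≤ 40 * m * t := by nlinarith
    nlinarith
  obtain ⟨D, hD⟩ : ∃ D, D = Real.sqrt c := ⟨_, rfl⟩
  have hD1 : 1 ≤ D := by
    rw [hD, Real.one_le_sqrt]
    exact hc1
  have hD2 : D ^ 2 = c := by
    rw [hD, Real.sq_sqrt (by linarith)]
  obtain ⟨e1, he1, H1⟩ := fun_phi (half_pos hζ) (by linarith)
  obtain ⟨CL, e2, hCL, he2, H2⟩ := fun_psi hc1
  obtain ⟨e3, he3, H3⟩ := nua t m ht hm1 hζ hζ1 hη hCL hD1
  refine ⟨min (min e1 e2) (min e3 (1 / (4 * c))), lt_min (lt_min he1 he2)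
    (lt_min he3 (by positivity)), ?_, fun ε h0 hε => ?_⟩
  · refine lt_of_le_of_lt ((min_le_right _ _).trans (min_le_right _ _)) ?_
    rw [div_lt_div_iff₀ (by positivity) (by norm_num)]
    linarith
  have g1 : ε < e1 := lt_of_lt_of_le hε ((min_le_left _ _).trans (min_le_left _ _))
  have g2 : ε < e2 := lt_of_lt_of_le hε ((min_le_left _ _).trans (min_le_right _ _))
  have g3 : ε < e3 := lt_of_lt_of_le hε ((min_le_right _ _).trans (min_le_left _ _))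
  have g4 : ε < 1 / (4 * c) := lt_of_lt_of_le hε ((min_le_right _ _).trans (min_le_right _ _))
  have g5 : ε * (4 * c) < 1 := (lt_div_iff₀ (by positivity)).1 g4
  have hε4 : ε ≤ 1 / 4 := by nlinarith
  have hcε : c * ε ^ 2 ≤ 1 / 4 := by nlinarith
  filter_upwards [H1 ε h0 g1, H2 ε h0 g2, H3 ε h0 g3, eventually_ge_atTop 4] with n a1 a2 a3 hn hev
  have hn0 : 0 < n := by omega
  have hnR : (0 : ℝ) < n := by exact_mod_cast hn0
  have hn4 : (4 : ℝ) ≤ n := by exact_mod_cast hn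
  obtain ⟨Kx, hKx⟩ : ∃ Kx, Kx = Kt c ε n := ⟨_, rfl⟩
  have hKxR : (Kx : ℝ) ≤ c * ε ^ 2 * n := by
    rw [hKx]
    exact Nat.floor_le (by positivity)
  have hl0 : 0 < Real.log (1 / ε) := by
    apply Real.log_pos
    rw [lt_div_iff₀ h0]
    linarith
  have hell : 0 ≤ Tensor.ell (1 / 2 - ε) := Tensor.ell_nonneg (by linarith)
  have hl2 : 0 < Real.log 2 := Real.log_pos (by norm_num)
  have hk : (kk ζ ε n : ℝ) ≤
      (1 - ζ / 2) * (Tensor.ell (1 / 2 - ε) * Real.log 2 / Real.log (1 / ε)) * n := by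
    unfold kk
    apply Nat.floor_le
    have h1 : 0 ≤ 1 - ζ / 2 := by linarith
    positivity
  obtain ⟨φ, hφ1, hφ2, hφ3⟩ := a1 hev (kk ζ ε n) hk
  obtain ⟨ψ, hψ1, hψ2, hψ3⟩ := a2 Kx hKxR
  have hsym : SymW (fun x : W n => φ (wt x)) := fun p x => by
    simp only [Lin.wt_comp]
  have habs : ∀ x ∈ evW n, |(fun x : W n => φ (wt x)) x| ≤ 1 := by
    intro x _
    by_cases h : ⌈(1 / 2 - ε) * n⌉₊ ≤ wt x ∧ wt x + ⌈(1 / 2 - ε) * n⌉₊ ≤ n
    · exact (hφ2 _ h.1 h.2).trans (by norm_num)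
    · have : φ (wt x) = -1 := hφ1 _ (by omega)
      simp only [this, abs_neg, abs_one, le_refl]
  have hKx2 : 2 * Kx + 2 ≤ n := by
    have h1 : (2 : ℝ) * Kx + 2 ≤ n := by nlinarith
    exact_mod_cast h1
  refine ⟨⟨fun x => φ (wt x), fun x => ψ (wt x), kk ζ ε n,
    fun j => if j < Kt (8 * t) ε n then dat_a (fun x : W n => φ (wt x)) j else 0⟩,
    dat_a (fun x : W n => φ (wt x)), D, Real.exp (CL * ε ^ 2 * n),
    2 * Real.exp (CL * ε ^ 2 * n) / Real.sqrt (n.choose (Kx + 1)), Kt (8 * t) ε n, Kx,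
    fun j => Kt (cj m t j) ε n, ?_, ?_⟩
  · refine ⟨hn0, h0, by linarith, hD1, Real.one_le_exp (by positivity), by positivity, ?_, ?_, ?_,
      ?_, hsym, dat_coef hsym, ?_, ?_, fun j => rfl, ?_, hKx2, ?_⟩
    · apply Nat.one_le_iff_ne_zero.2
      apply (Nat.ceil_pos.2 _).ne'
      exact mul_pos (by linarith) hnR
    · have := Nat.le_ceil ((1 / 2 - ε) * (n : ℝ))
      linarith
    · intro w _ h
      exact ⟨hφ1 _ (by omega), hψ1 _ (by omega)⟩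
    · intro w _ h1 h2
      exact ⟨hφ2 _ h1 h2, hψ2 _ h1 h2⟩
    · intro j hj
      exact dat_zero hφ3 hj
    · intro j hj
      refine dat_bound hn0 hsym habs hKx2 (by linarith) h0.le ?_ hj
      rw [div_le_iff₀ hnR, mul_pow, hD2]
      exact hKxR
    · have := a3.ks 0 (by omega)
      rw [hKx, hc]
      exact this.1.trans this.2
    · exact L2.op_of_al hn0 (fun x : W n => ψ (wt x)) hψ3
  · rw [hKx, hc, ← hm]
    exact a3

end Pool.Agent.Lib.MP_0430e4_lc.L3
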