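import Pool.Agent.Lib.MP_0430e4_lc.L3.TEN

/-!
# DFT: extraction of the labellings of one type

PROOF. Expand `∏ i, ∑ F ∈ G, ..` into the sum over `C ∈ Fintype.piFinset (fun _ => G)` (`Finset.prod_univ_sum`), group the factors `ρ F * e (θ F)` by the value of `C i`: the product is
`∏ F ∈ G.erase o, (ρ F * e (θ F)) ^ cn C F`. Sum over `θ`: for every `F ∈ G.erase o` the sum over `θ F` of `e (θ F * (cn C F - τ F))` is `n + 1` if `cn C F = τ F` (both are at most `n`, so equality in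
`ZMod (n + 1)` is equality), else `0` (`AddChar.sum_mulShift` or `AddChar.sum_eq_zero_of_ne_one`, `ZMod.stdAddChar` is primitive); `θ F` for the other `F` contributes the factor `n + 1`.
`Finset.prod_univ_sum` again for the product over `F`.
-/

set_option autoImplicit false

namespace Pool.Agent.Lib.MP_0430e4_lc.L3

open Finset

/-- The number of positions with column `F`. -/
def cn {κ : Type*} [DecidableEq κ] {n : ℕ} (C : Fin n → κ) (F : κ) : ℕ :=
  (univ.filter fun i => C i = F).card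

theorem dft_cn_le {κ : Type*} [DecidableEq κ] {n : ℕ} (C : Fin n → κ) (F : κ) : cn C F ≤ n := by
  unfold cn
  refine (card_le_univ _).trans ?_
  rw [Fintype.card_fin]

/-- the product over the positions, grouped by the columns -/
theorem dft_group {κ : Type*} [DecidableEq κ] {G : Finset κ} {o : κ} (ho : o ∈ G) {n : ℕ}
    (w : κ → ℂ) (hw : w o = 1) {C : Fin n → κ} (hC : ∀ i, C i ∈ G) :
    ∏ i, w (C i) = ∏ F ∈ G.erase o, w F ^ cn C F := by
  have h1 : ∏ i, w (C i) = ∏ F ∈ G, w F ^ cn C F := by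
    rw [← Finset.prod_fiberwise_of_maps_to' (fun i _ => hC i) w]
    refine Finset.prod_congr rfl fun F _ => ?_
    rw [Finset.prod_const]
    rfl
  rw [h1, ← Finset.mul_prod_erase G _ ho, hw, one_pow, one_mul]

theorem dft_sum {n : ℕ} (r : ℂ) {c t : ℕ} (hc : c ≤ n) (ht : t ≤ n) :
    ∑ θ : ZMod (n + 1), ZMod.stdAddChar (-(θ * (t : ZMod (n + 1)))) *
      (r * ZMod.stdAddChar θ) ^ c = if c = t then r ^ t * ((n : ℂ) + 1) else 0 := by
  have e1 : ∀ θ : ZMod (n + 1), (ZMod.stdAddChar (-(θ * (t : ZMod (n + 1)))) : ℂ) *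
      (r * ZMod.stdAddChar θ) ^ c =
      r ^ c * ZMod.stdAddChar (θ * ((c : ZMod (n + 1)) - (t : ZMod (n + 1)))) := by
    intro θ
    rw [mul_pow, ← AddChar.map_nsmul_eq_pow]
    have : θ * ((c : ZMod (n + 1)) - (t : ZMod (n + 1))) = -(θ * (t : ZMod (n + 1))) + c • θ := by
      rw [nsmul_eq_mul]
      ring
    rw [this, AddChar.map_add_eq_mul]
    ring
  rw [Finset.sum_congr rfl fun θ _ => e1 θ, ← Finset.mul_sum,
    AddChar.sum_mulShift _ (ZMod.isPrimitive_stdAddChar (n + 1))]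
  have e2 : ((c : ZMod (n + 1)) - (t : ZMod (n + 1)) = 0) ↔ c = t := by
    rw [sub_eq_zero, ZMod.natCast_eq_natCast_iff', Nat.mod_eq_of_lt (Nat.lt_succ_of_le hc),
      Nat.mod_eq_of_lt (Nat.lt_succ_of_le ht)]
  by_cases h : c = t
  · rw [if_pos (e2.2 h), if_pos h, ZMod.card, h]
    push_cast
    ring
  · rw [if_neg (fun h' => h (e2.1 h')), if_neg h, Nat.cast_zero, mul_zero]

theorem dft_theta {κ : Type*} [Fintype κ] [DecidableEq κ] (G' : Finset κ) {n : ℕ}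
    (C : Fin n → κ) (ρ : κ → ℂ) {τ : κ → ℕ} (hτ : ∀ F, τ F ≤ n) :
    ∑ θ : κ → ZMod (n + 1), (∏ F ∈ G', ZMod.stdAddChar (-(θ F * (τ F : ZMod (n + 1))))) *
      ∏ F ∈ G', (ρ F * ZMod.stdAddChar (θ F)) ^ cn C F =
    if (∀ F ∈ G', cn C F = τ F) then (∏ F ∈ G', ρ F ^ τ F) * ((n : ℂ) + 1) ^ Fintype.card κ
      else 0 := by
  set g : κ → ZMod (n + 1) → ℂ := fun F θ => if F ∈ G' then
    ZMod.stdAddChar (-(θ * (τ F : ZMod (n + 1)))) * (ρ F * ZMod.stdAddChar θ) ^ cn C F else 1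
    with hg
  have e1 : ∀ θ : κ → ZMod (n + 1),
      (∏ F ∈ G', (ZMod.stdAddChar (-(θ F * (τ F : ZMod (n + 1)))) : ℂ)) *
        ∏ F ∈ G', (ρ F * ZMod.stdAddChar (θ F)) ^ cn C F = ∏ F, g F (θ F) := by
    intro θ
    rw [← Finset.prod_mul_distrib, hg]
    simp only [Finset.prod_ite_mem, Finset.univ_inter]
  rw [Finset.sum_congr rfl fun θ _ => e1 θ]
  have e2 : ∑ θ : κ → ZMod (n + 1), ∏ F, g F (θ F) = ∏ F, ∑ t : ZMod (n + 1), g F t := by
    rw [Finset.prod_univ_sum, Fintype.piFinset_univ]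
  have e3 : ∀ F, ∑ t : ZMod (n + 1), g F t = if F ∈ G' then
      (if cn C F = τ F then ρ F ^ τ F * ((n : ℂ) + 1) else 0) else ((n : ℂ) + 1) := by
    intro F
    by_cases hF : F ∈ G'
    · simp only [hg, if_pos hF]
      exact dft_sum (ρ F) (dft_cn_le C F) (hτ F)
    · simp only [hg, if_neg hF]
      rw [Finset.sum_const, Finset.card_univ, ZMod.card, nsmul_eq_mul, mul_one]
      push_cast
      ring
  rw [e2, Finset.prod_congr rfl fun F _ => e3 F]
  by_cases h : ∀ F ∈ G', cn C F = τ F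
  · rw [if_pos h]
    have e4 : ∀ F, (if F ∈ G' then (if cn C F = τ F then ρ F ^ τ F * ((n : ℂ) + 1) else 0)
        else ((n : ℂ) + 1)) = (if F ∈ G' then ρ F ^ τ F else 1) * ((n : ℂ) + 1) := by
      intro F
      by_cases hF : F ∈ G'
      · rw [if_pos hF, if_pos hF, if_pos (h F hF)]
      · rw [if_neg hF, if_neg hF, one_mul]
    rw [Finset.prod_congr rfl fun F _ => e4 F, Finset.prod_mul_distrib, Finset.prod_const,
      Finset.card_univ]
    simp only [Finset.prod_ite_mem, Finset.univ_inter]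
  · rw [if_neg h]
    push Not at h
    obtain ⟨F, hF, hne⟩ := h
    refine Finset.prod_eq_zero (Finset.mem_univ F) ?_
    rw [if_pos hF, if_neg hne]

theorem dft {κ : Type*} [Fintype κ] [DecidableEq κ] (G : Finset κ) {o : κ} (ho : o ∈ G) {n : ℕ}
    (a : Fin n → κ → ℂ) {ρ : κ → ℝ} (hρ : ∀ F, 0 < ρ F) {τ : κ → ℕ} (hτ : ∀ F, τ F ≤ n) :
    ∑ C ∈ (Fintype.piFinset fun _ : Fin n => G).filter (fun C => ∀ F ∈ G.erase o, cn C F = τ F),
      ∏ i, a i (C i) =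
    (∏ F ∈ G.erase o, ((ρ F : ℂ)⁻¹) ^ τ F) * (((n : ℂ) + 1) ^ Fintype.card κ)⁻¹ *
      ∑ θ : κ → ZMod (n + 1), (∏ F ∈ G.erase o, ZMod.stdAddChar (-(θ F * (τ F : ZMod (n + 1))))) *
        ∏ i, ∑ F ∈ G, (if F = o then 1 else (ρ F : ℂ) * ZMod.stdAddChar (θ F)) * a i F := by
  have hn : ((n : ℂ) + 1) ≠ 0 := by
    have : ((n + 1 : ℕ) : ℂ) ≠ 0 := Nat.cast_ne_zero.2 (Nat.succ_ne_zero n)
    push_cast at this
    exact this
  have hρ0 : ∀ F, (ρ F : ℂ) ≠ 0 := fun F => Complex.ofReal_ne_zero.2 (hρ F).ne'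
  have e1 : ∀ θ : κ → ZMod (n + 1),
      ∏ i, ∑ F ∈ G, (if F = o then 1 else (ρ F : ℂ) * ZMod.stdAddChar (θ F)) * a i F =
      ∑ C ∈ Fintype.piFinset fun _ : Fin n => G,
        (∏ F ∈ G.erase o, ((ρ F : ℂ) * ZMod.stdAddChar (θ F)) ^ cn C F) * ∏ i, a i (C i) := by
    intro θ
    rw [Finset.prod_univ_sum]
    refine Finset.sum_congr rfl fun C hC => ?_
    rw [Finset.prod_mul_distrib, dft_group ho
      (fun F => if F = o then (1 : ℂ) else (ρ F : ℂ) * ZMod.stdAddChar (θ F)) (if_pos rfl)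
      (fun i => Fintype.mem_piFinset.1 hC i)]
    congr 1
    refine Finset.prod_congr rfl fun F hF => ?_
    rw [if_neg (Finset.ne_of_mem_erase hF)]
  have e2 : ∑ θ : κ → ZMod (n + 1),
      (∏ F ∈ G.erase o, (ZMod.stdAddChar (-(θ F * (τ F : ZMod (n + 1)))) : ℂ)) *
        ∏ i, ∑ F ∈ G, (if F = o then 1 else (ρ F : ℂ) * ZMod.stdAddChar (θ F)) * a i F =
      ∑ C ∈ Fintype.piFinset fun _ : Fin n => G, (∏ i, a i (C i)) *
        (if (∀ F ∈ G.erase o, cn C F = τ F) then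
          (∏ F ∈ G.erase o, (ρ F : ℂ) ^ τ F) * ((n : ℂ) + 1) ^ Fintype.card κ else 0) := by
    have s1 : ∀ θ : κ → ZMod (n + 1),
        (∏ F ∈ G.erase o, (ZMod.stdAddChar (-(θ F * (τ F : ZMod (n + 1)))) : ℂ)) *
          ∏ i, ∑ F ∈ G, (if F = o then 1 else (ρ F : ℂ) * ZMod.stdAddChar (θ F)) * a i F =
        ∑ C ∈ Fintype.piFinset fun _ : Fin n => G, (∏ i, a i (C i)) *
          ((∏ F ∈ G.erase o, (ZMod.stdAddChar (-(θ F * (τ F : ZMod (n + 1)))) : ℂ)) *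
            ∏ F ∈ G.erase o, ((ρ F : ℂ) * ZMod.stdAddChar (θ F)) ^ cn C F) := by
      intro θ
      rw [e1, Finset.mul_sum]
      refine Finset.sum_congr rfl fun C _ => ?_
      ring
    rw [Finset.sum_congr rfl fun θ _ => s1 θ, Finset.sum_comm]
    refine Finset.sum_congr rfl fun C _ => ?_
    rw [← Finset.mul_sum, dft_theta (G.erase o) C (fun F => (ρ F : ℂ)) hτ]
  rw [e2, Finset.mul_sum, Finset.sum_filter]
  refine Finset.sum_congr rfl fun C _ => ?_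
  by_cases h : ∀ F ∈ G.erase o, cn C F = τ F
  · rw [if_pos h, if_pos h]
    have h1 : (∏ F ∈ G.erase o, ((ρ F : ℂ)⁻¹) ^ τ F) * ∏ F ∈ G.erase o, (ρ F : ℂ) ^ τ F = 1 := by
      rw [← Finset.prod_mul_distrib]
      refine Finset.prod_eq_one fun F _ => ?_
      rw [← mul_pow, inv_mul_cancel₀ (hρ0 F), one_pow]
    have h2 : (((n : ℂ) + 1) ^ Fintype.card κ)⁻¹ * ((n : ℂ) + 1) ^ Fintype.card κ = 1 :=
      inv_mul_cancel₀ (pow_ne_zero _ hn)
    calc ∏ i, a i (C i)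
        = ((∏ F ∈ G.erase o, ((ρ F : ℂ)⁻¹) ^ τ F) * ∏ F ∈ G.erase o, (ρ F : ℂ) ^ τ F) *
          ((((n : ℂ) + 1) ^ Fintype.card κ)⁻¹ * ((n : ℂ) + 1) ^ Fintype.card κ) *
            ∏ i, a i (C i) := by rw [h1, h2, one_mul, one_mul]
      _ = _ := by ring
  · rw [if_neg h, if_neg h, mul_zero, mul_zero]

theorem norm_char {n : ℕ} (a : ZMod (n + 1)) : ‖(ZMod.stdAddChar a : ℂ)‖ = 1 :=
  AddChar.norm_apply _ _

end Pool.Agent.Lib.MP_0430e4_lc.L3
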