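import Pool.Agent.Lib.MP_0430e4_lc.L2.Defs

/-!
# The Lasserre hierarchy near relative distance 1/2, constant 1: definitions

Text of the proof: `/team-store/L3_PROOF.md`.

`ι` is a set of vertices, the edges are the elements of `Sym2 ι` that are not diagonal, a graph is a
finite set of edges, `x : ι → W n` a configuration of words. A labelling of a graph `g` is given by its
columns `C : Fin n → Finset (Sym2 ι)`, `C i ⊆ g`.
-/

set_option autoImplicit false

namespace Pool.Agent.Lib.MP_0430e4_lc.L3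

open Finset
open Lin (W wt chw evW EW al sg SymW)
open L2 (Ev OP)

section sexp

variable {ε : Type*} [DecidableEq ε]

/-- The partitions of `g` into nonempty blocks. -/
def parts (g : Finset ε) : Finset (Finset (Finset ε)) :=
  g.powerset.powerset.filter fun π =>
    ∅ ∉ π ∧ (∀ b ∈ π, ∀ b' ∈ π, b ≠ b' → Disjoint b b') ∧ π.biUnion id = g

/-- The set exponential. -/
noncomputable def sexp (v : Finset ε → ℝ) (g : Finset ε) : ℝ := ∑ π ∈ parts g, ∏ b ∈ π, v b

/-- The cumulants: the inverse of `sexp`. -/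
noncomputable def cum (c : Finset ε → ℝ) : Finset ε → ℝ :=
  Finset.strongInduction (p := fun _ => ℝ) fun g ih =>
    if h : g.Nonempty then
      c g - ∑ b ∈ (g.powerset.filter fun b => h.choose ∈ b ∧ b ≠ g).attach,
        ih b.1 (Finset.ssubset_iff_subset_ne.2
          ⟨mem_powerset.1 (mem_filter.1 b.2).1, (mem_filter.1 b.2).2.2⟩) * c (g \ b.1)
    else 0

/-- `oc C J`: the number of columns that contain an odd number of elements of `J`, that is the
weight of the sum of the labels of the edges in `J`. -/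
def oc {n : ℕ} (C : Fin n → Finset ε) (J : Finset ε) : ℕ :=
  (univ.filter fun i => Odd (C i ∩ J).card).card

/-- The labelled sum: the sum over the labellings `C` of `g` of `c C` times the product of the
coefficients `f e (weight of the label of e)` and of the characters. -/
noncomputable def Ls {n : ℕ} (g : Finset ε) (f : ε → ℕ → ℝ) (c : (Fin n → Finset ε) → ℝ)
    (X : ε → W n) : ℝ :=
  ∑ C ∈ Fintype.piFinset (fun _ : Fin n => g.powerset),
    c C * (∏ e ∈ g, f e (oc C {e})) * ∏ i, ∏ e ∈ C i, sg (X e i)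

/-- The label of the edge `e`. -/
def lab {n : ℕ} (C : Fin n → Finset ε) (e : ε) : W n := fun i => if e ∈ C i then 1 else 0

end sexp

section graph

variable {ι : Type*} [DecidableEq ι]

/-- All pairs of different elements of `S`. -/
def ed (S : Finset ι) : Finset (Sym2 ι) := S.sym2.filter fun e => ¬ e.IsDiag

/-- The vertices of `g`. -/
def vs (g : Finset (Sym2 ι)) : Finset ι := g.biUnion Sym2.toFinset

/-- The edges of `g` at `v`. -/
def dl (g : Finset (Sym2 ι)) (v : ι) : Finset (Sym2 ι) := g.filter fun e => v ∈ e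

/-- The vertices of odd degree. -/
def par (F : Finset (Sym2 ι)) : Finset ι := (vs F).filter fun v => Odd (dl F v).card

/-- The edges of `g` with an end in `A` and an end in `B`. -/
def xed (A B : Finset ι) (g : Finset (Sym2 ι)) : Finset (Sym2 ι) :=
  g.filter fun e => (e.toFinset ∩ A).Nonempty ∧ (e.toFinset ∩ B).Nonempty

/-- The number of free sides of a column. -/
def vl (A B : Finset ι) (F : Finset (Sym2 ι)) : ℕ :=
  if par F ∩ A = ∅ ∧ par F ∩ B = ∅ ∧ (par F).card = 2 then 1
  else (if par F ∩ A = ∅ then 1 else 0) + (if par F ∩ B = ∅ then 1 else 0)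

/-- The cost of a column. -/
def kap (A B : Finset ι) (F : Finset (Sym2 ι)) : ℤ := if F = ∅ then 0 else (F.card : ℤ) - vl A B F

/-- The cost of a labelling. -/
def cost {n : ℕ} (A B : Finset ι) (C : Fin n → Finset (Sym2 ι)) : ℤ := ∑ i, kap A B (C i)

/-- The labelling `C` of the graph `g` is free: at every vertex all nonempty partial sums of the
labels have weight at least `k`. -/
def Free {n : ℕ} (k : ℕ) (C : Fin n → Finset (Sym2 ι)) (g : Finset (Sym2 ι)) : Prop :=
  ∀ v, ∀ J ⊆ dl g v, J.Nonempty → k ≤ oc C J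

open Classical in
/-- The indicator function of the free labellings. -/
noncomputable def cf {n : ℕ} (k : ℕ) (C : Fin n → Finset (Sym2 ι)) (g : Finset (Sym2 ι)) : ℝ :=
  if Free k C g then 1 else 0

/-- `J` is a minimal conflict at the vertex `v`. -/
def Conf {n : ℕ} (k : ℕ) (C : Fin n → Finset (Sym2 ι)) (v : ι) (J : Finset (Sym2 ι)) : Prop :=
  (∀ e ∈ J, v ∈ e) ∧ J.Nonempty ∧ oc C J < k ∧ ∀ J' ⊂ J, J'.Nonempty → k ≤ oc C J'

/-- The block `b` meets `A` and `B`. -/
def Cr (A B : Finset ι) (b : Finset (Sym2 ι)) : Prop := (vs b ∩ A).Nonempty ∧ (vs b ∩ B).Nonempty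

instance (A B : Finset ι) (b : Finset (Sym2 ι)) : Decidable (Cr A B b) := by
  unfold Cr
  infer_instance

/-- The crossing blocks, with `1` subtracted for the single edges. -/
noncomputable def ucr (A B : Finset ι) (u : Finset (Sym2 ι) → ℝ) (b : Finset (Sym2 ι)) : ℝ :=
  if Cr A B b then (if b.card = 1 then u b - 1 else u b) else 0

/-- The blocks inside `I ∪ A` that contain an edge inside `I` and meet `A`. -/
noncomputable def ust (I A : Finset ι) (u : Finset (Sym2 ι) → ℝ) (b : Finset (Sym2 ι)) : ℝ :=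
  if vs b ⊆ I ∪ A ∧ (vs b ∩ A).Nonempty ∧ (b ∩ ed I).Nonempty then u b else 0

/-- The conditional kernel. -/
noncomputable def CC (u : Finset (Sym2 ι) → ℝ) (I A B : Finset ι) : ℝ :=
  sexp u (ed (I ∪ A ∪ B)) * sexp u (ed I) / (sexp u (ed (I ∪ A)) * sexp u (ed (I ∪ B)))

/-- The Moebius transform of the conditional kernel. -/
noncomputable def KK (u : Finset (Sym2 ι) → ℝ) (I A B : Finset ι) : ℝ :=
  ∑ A' ∈ A.powerset, ∑ B' ∈ B.powerset, (-1) ^ ((A \ A').card + (B \ B').card) * CC u I A' B'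

/-- The quotient of two weights. -/
noncomputable def rho (u : Finset (Sym2 ι) → ℝ) (F : Finset (Sym2 ι)) (S : Finset ι) : ℝ :=
  sexp u (ed S \ F) / sexp u (ed S)

/-- The Moebius transform on the interval from `S₀` to `S₁`. -/
noncomputable def mob (S₀ S₁ : Finset ι) (g : Finset ι → ℝ) : ℝ :=
  ∑ S ∈ S₁.powerset.filter (fun S => S₀ ⊆ S), (-1) ^ (S₁ \ S).card * g S

/-- The word of an edge. -/
def xe {n : ℕ} (x : ι → W n) : Sym2 ι → W n :=
  Sym2.lift ⟨fun a b => x a + x b, fun _ _ => add_comm _ _⟩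

end graph

/-- The data of the construction. -/
structure Pm (n : ℕ) where
  /-- the pair function -/
  φ : W n → ℝ
  /-- the function of high frequency -/
  ψ : W n → ℝ
  /-- the threshold for the labels -/
  k : ℕ
  /-- the coefficients, by weight, below the upper threshold -/
  f : ℕ → ℝ

section weights

variable {ι : Type*} [DecidableEq ι] {n : ℕ}

/-- The function of a block. -/
noncomputable def Vb (P : Pm n) (x : ι → W n) (b : Finset (Sym2 ι)) : ℝ :=
  Ls b (fun _ => P.f) (fun C => cum (cf P.k C) b) (xe x)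

/-- The weight of a block. -/
noncomputable def ub (P : Pm n) (x : ι → W n) (b : Finset (Sym2 ι)) : ℝ :=
  if b.card = 1 then ∏ e ∈ b, (1 + P.φ (xe x e)) else Vb P x b * ∏ e ∈ b, (1 + P.ψ (xe x e))

end weights

section sums

variable {ι : Type*} [Fintype ι] [DecidableEq ι] {Γ : Type*} [Fintype Γ] [DecidableEq Γ]

/-- The sum over the coordinates in `R`, the others are those of `x`. -/
def sm {M : Type*} [AddCommMonoid M] (R : Finset ι) (F : (ι → Γ) → M) (x : ι → Γ) : M :=
  ∑ z ∈ univ.filter (fun z : ι → Γ => ∀ v, v ∉ R → z v = x v), F z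

/-- `F` does not depend on the coordinates in `R`. -/
def Ind {M : Type*} (R : Finset ι) (F : (ι → Γ) → M) : Prop :=
  ∀ x z : ι → Γ, (∀ v, v ∉ R → z v = x v) → F z = F x

/-- `F` depends only on the coordinates in `S`. -/
def Dep {M : Type*} (S : Finset ι) (F : (ι → Γ) → M) : Prop :=
  ∀ x z : ι → Γ, (∀ v ∈ S, z v = x v) → F z = F x

/-- All pairs of the words at `S` are good. -/
def gd (ok : Γ → Γ → Prop) (x : ι → Γ) (S : Finset ι) : Prop :=
  ∀ u ∈ S, ∀ v ∈ S, u ≠ v → ok (x u) (x v)

open Classical in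
/-- The bound for functions: the mean square over some of the coordinates outside `S₀` is at most
`c ^ 2` divided by `M` to the number of these coordinates. -/
def Bd (ok : Γ → Γ → Prop) (M : ℝ) (S₀ S₁ : Finset ι) (c : ℝ) (F : (ι → Γ) → ℝ) : Prop :=
  ∀ R ⊆ S₁ \ S₀, ∀ x, sm R (fun z => if gd ok z S₁ then F z ^ 2 else 0) x ≤
    c ^ 2 * ((Fintype.card Γ : ℝ) / M) ^ R.card

/-- The bound for kernels. -/
def KB (A B : Finset ι) (K : (ι → Γ) → ℝ) (c : ℝ) (x : ι → Γ) : Prop :=
  ∀ p q : (ι → Γ) → ℝ, Ind B p → Ind A q →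
    sm (A ∪ B) (fun z => K z * p z * q z) x ^ 2 ≤
      c * (sm A (fun z => p z ^ 2) x * sm B (fun z => q z ^ 2) x)

/-- The hypotheses on the functions of the blocks. -/
structure Blk (ok : Γ → Γ → Prop) (M η : ℝ) (u : (ι → Γ) → Finset (Sym2 ι) → ℝ) : Prop where
  symm : ∀ a b, ok a b → ok b a
  dep : ∀ b, Dep (vs b) (fun x => u x b)
  one : ∀ x S, gd ok x S → ∀ e ∈ ed S, 1 / 2 ≤ u x {e} ∧ u x {e} ≤ 3 / 2
  bd : ∀ S₀ b, 2 ≤ b.card → (∀ e ∈ b, ¬ e.IsDiag) → (∃ e ∈ b, e.toFinset ⊆ S₀) →
    Bd ok M S₀ (S₀ ∪ vs b) η (fun x => u x b)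

/-- The hypothesis on the crossing kernels. -/
def Crh (ok : Γ → Γ → Prop) (M η : ℝ) (u : (ι → Γ) → Finset (Sym2 ι) → ℝ) (I A B : Finset ι) :
    Prop :=
  ∀ g : Finset (Sym2 ι), g.Nonempty → g ⊆ ed (I ∪ A ∪ B) → ∀ x, gd ok x I →
    KB (vs g ∩ A) (vs g ∩ B) (fun z => sexp (ucr A B (u z)) g)
      (η ^ 2 * ((Fintype.card Γ : ℝ) / M) ^ ((vs g ∩ A).card + (vs g ∩ B).card)) x

end sums

/-- Good pairs of even words: the distance is between `d` and `n - d`. -/
def okw (n d : ℕ) (a b : Ev n) : Prop :=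
  d ≤ wt ((a : W n) + (b : W n)) ∧ wt ((a : W n) + (b : W n)) + d ≤ n

end Pool.Agent.Lib.MP_0430e4_lc.L3
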