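import Pool.Agent.Lib.MP_0430e4_lc.Lin.LV1

/-!
# FNA: the sharp function of level one, two-sided

PROOF. Adapt `Lin.lv_key`, `Lin.lv_exists`, `Lin.level1` (file Lin/LV1.lean): the set `w < d` is replaced by `w < d ∨ n < w + d`, `d = ⌈δ n⌉₊`. `fna_coef`: for `k ≤ δ n` the bound is `Hier.coef_all`; for `n - k ≤ δ n` apply it to `b' j = if j ≤ n then b (n - j) else 0`:
`n` is even, so `b' j = 0` for odd `j`, `Fp n b' z = Fp n b (-z)`, `Nb n b' = Nb n b` (`Finset.sum_range_reflect`). The norm `Nb` splits into the small part (`k` in the set, each at most `C Nb exp (- n ε2)`) and the rest, exactly as in `lv_key`.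
-/

set_option autoImplicit false

namespace Pool.Agent.Lib.MP_0430e4_lc.L3

open Finset Filter
open Lin (W wt chw evW EW al flat SymW)
open Lin (lvb lv_odd lv_Fp_le lv_wt_le exists_small)

theorem fna_coef {R δ : ℝ} (h : LPLOW.CoefBound R δ) : ∃ C ε : ℝ, 0 < C ∧ 0 < ε ∧
    ∀ (n : ℕ), Even n → ∀ (b : ℕ → ℝ), (∀ k, Odd k → b k = 0) →
    (∀ z : ℂ, ‖z‖ ≤ 1 → ‖LPLOW.Fp n b z‖ ≤ Real.exp (n * R) * LPLOW.Nb n b) →
    ∀ k ≤ n, ((k : ℝ) ≤ δ * n ∨ ((n - k : ℕ) : ℝ) ≤ δ * n) →
      |b k| ≤ C * LPLOW.Nb n b * Real.exp (-(n * ε)) := by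
  obtain ⟨C, ε, hC, hε, hb⟩ := h
  refine ⟨C, ε, hC, hε, fun n hn b hodd hF k hk hor => ?_⟩
  rcases hor with h1 | h1
  · exact hb n b hodd hF k hk h1
  · have hN : LPLOW.Nb n (fun j => if j ≤ n then b (n - j) else 0) = LPLOW.Nb n b := by
      unfold LPLOW.Nb
      rw [← Finset.sum_range_reflect (fun j => |b j|) (n + 1)]
      refine sum_congr rfl fun j hj => ?_
      have hj' : j ≤ n := Nat.lt_succ_iff.1 (mem_range.1 hj)
      simp only [if_pos hj']
      congr 2
    have hFp : ∀ z : ℂ, LPLOW.Fp n (fun j => if j ≤ n then b (n - j) else 0) z =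
        LPLOW.Fp n b (-z) := by
      intro z
      unfold LPLOW.Fp
      rw [← Finset.sum_range_reflect
        (fun j => (b j : ℂ) * ((1 - -z) ^ j * (1 + -z) ^ (n - j))) (n + 1)]
      refine sum_congr rfl fun j hj => ?_
      have hj' : j ≤ n := Nat.lt_succ_iff.1 (mem_range.1 hj)
      simp only [if_pos hj']
      have h2 : n + 1 - 1 - j = n - j := by omega
      have h3 : n - (n - j) = j := by omega
      rw [h2, h3]
      have h4 : (1 : ℂ) - -z = 1 + z := by ring
      have h5 : (1 : ℂ) + -z = 1 - z := by ring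
      rw [h4, h5]
      ring
    have h2 := hb n (fun j => if j ≤ n then b (n - j) else 0) (by
      intro j hj
      by_cases hjn : j ≤ n
      · rw [if_pos hjn]
        refine hodd _ ?_
        exact Nat.Even.sub_odd hjn hn hj
      · rw [if_neg hjn]) (by
      intro z hz
      rw [hFp, hN]
      exact hF _ (by rwa [norm_neg])) (n - k) (Nat.sub_le _ _) h1
    rw [hN, if_pos (Nat.sub_le _ _)] at h2
    have h3 : n - (n - k) = k := by omega
    rwa [h3] at h2

/-- The main inequality: polynomials with small coefficients in a set. -/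
theorem fna_key {R R2 C ε2 : ℝ} (hC : 0 < C) (hε2 : 0 < ε2) {n : ℕ} (P : ℕ → Prop)
    [DecidablePred P]
    (hb : ∀ (b : ℕ → ℝ), (∀ k, Odd k → b k = 0) →
      (∀ z : ℂ, ‖z‖ ≤ 1 → ‖LPLOW.Fp n b z‖ ≤ Real.exp (n * R2) * LPLOW.Nb n b) →
      ∀ k ≤ n, P k → |b k| ≤ C * LPLOW.Nb n b * Real.exp (-(n * ε2)))
    (hn : 1 ≤ n) (hn1 : 2 ≤ Real.exp (n * (R2 - R)))
    (hn2 : 2 * (n + 1) * C * Real.exp (-(n * (ε2 / 2))) ≤ 1) (h : W n → ℝ) :
    ∑ w ∈ (range (n + 1)).filter P, lvb n h w ≤ Real.exp (-(n * R)) * ∑ y, |h y| +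
      Real.exp (-(n * (ε2 / 2))) *
        ∑ w ∈ (range (n + 1)).filter (fun w => ¬ P w), |lvb n h w| := by
  by_contra hcon
  rw [not_le] at hcon
  set κ : ℝ := Real.exp (-(n * (ε2 / 2))) with hκ
  set N : ℝ := LPLOW.Nb n (lvb n h) with hN
  have hκ0 : 0 < κ := Real.exp_pos _
  have hlow : ∑ w ∈ (range (n + 1)).filter P, |lvb n h w| ≤ N := by
    rw [hN]
    unfold LPLOW.Nb
    exact sum_le_sum_of_subset_of_nonneg (filter_subset _ _) fun _ _ _ => abs_nonneg _
  have hlow' : ∑ w ∈ (range (n + 1)).filter P, lvb n h w ≤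
      ∑ w ∈ (range (n + 1)).filter P, |lvb n h w| :=
    sum_le_sum fun _ _ => le_abs_self _
  have hS0 : 0 ≤ ∑ y, |h y| := sum_nonneg fun _ _ => abs_nonneg _
  have hH0 : 0 ≤ ∑ w ∈ (range (n + 1)).filter (fun w => ¬ P w), |lvb n h w| :=
    sum_nonneg fun _ _ => abs_nonneg _
  have hE0 : 0 < Real.exp (-(n * R)) := Real.exp_pos _
  -- the size of `h`
  have g1 : Real.exp (-(n * R)) * ∑ y, |h y| < N := by
    have := mul_nonneg hκ0.le hH0
    linarith
  have hN0 : 0 < N := lt_of_le_of_lt (mul_nonneg hE0.le hS0) g1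
  have g2 : ∑ y, |h y| ≤ Real.exp (n * R) * N := by
    have h1 := mul_le_mul_of_nonneg_left g1.le (Real.exp_pos (n * R)).le
    rw [← mul_assoc, ← Real.exp_add] at h1
    have h2 : (n : ℝ) * R + -(n * R) = 0 := by ring
    rw [h2, Real.exp_zero, one_mul] at h1
    exact h1
  have g3 : ∀ z : ℂ, ‖z‖ ≤ 1 → ‖LPLOW.Fp n (lvb n h) z‖ ≤ Real.exp (n * R2) * N := by
    intro z hz
    refine (lv_Fp_le hn h hz).trans ?_
    have h1 : Real.exp (n * R2) = Real.exp (n * (R2 - R)) * Real.exp (n * R) := by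
      rw [← Real.exp_add]
      congr 1
      ring
    rw [h1]
    have h2 : 0 < Real.exp (n * R) * N := mul_pos (Real.exp_pos _) hN0
    calc 2 * ∑ y, |h y| ≤ 2 * (Real.exp (n * R) * N) := by linarith
      _ ≤ Real.exp (n * (R2 - R)) * (Real.exp (n * R) * N) :=
          mul_le_mul_of_nonneg_right hn1 h2.le
      _ = _ := by ring
  have g4 : ∀ w ∈ (range (n + 1)).filter P, |lvb n h w| ≤ C * N * Real.exp (-(n * ε2)) := by
    intro w hw
    exact hb _ (fun k hk => lv_odd h hk) g3 w (Nat.lt_succ_iff.1 (mem_range.1 (mem_filter.1 hw).1))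
      (mem_filter.1 hw).2
  have g5 : ∑ w ∈ (range (n + 1)).filter P, |lvb n h w| ≤
      (n + 1) * (C * N * Real.exp (-(n * ε2))) := by
    refine (sum_le_card_nsmul _ _ _ g4).trans ?_
    rw [nsmul_eq_mul]
    refine mul_le_mul_of_nonneg_right ?_ (by positivity)
    have hc : ((range (n + 1)).filter P).card ≤ n + 1 := by
      refine (card_filter_le _ _).trans ?_
      rw [card_range]
    exact_mod_cast hc
  have g6 : Real.exp (-(n * ε2)) = κ * κ := by
    rw [hκ, ← Real.exp_add]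
    congr 1
    ring
  have g7 : N = ∑ w ∈ (range (n + 1)).filter P, |lvb n h w| +
      ∑ w ∈ (range (n + 1)).filter (fun w => ¬ P w), |lvb n h w| := by
    rw [hN]
    unfold LPLOW.Nb
    rw [← sum_filter_add_sum_filter_not (range (n + 1)) P]
  have g8 : κ * ∑ w ∈ (range (n + 1)).filter (fun w => ¬ P w), |lvb n h w| <
      (n + 1) * (C * N * Real.exp (-(n * ε2))) := by
    have := mul_nonneg hE0.le hS0
    linarith
  have hκ1 : κ ≤ 1 := by
    rw [hκ, Real.exp_le_one_iff]
    have : 0 ≤ (n : ℝ) * (ε2 / 2) := by positivity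
    linarith
  have g9 : κ * N < 2 * ((n + 1) * (C * N * Real.exp (-(n * ε2)))) := by
    have h1 : κ * ∑ w ∈ (range (n + 1)).filter P, |lvb n h w| ≤
        1 * ((n + 1) * (C * N * Real.exp (-(n * ε2)))) :=
      mul_le_mul hκ1 g5 (sum_nonneg fun _ _ => abs_nonneg _) zero_le_one
    have h2 : κ * N = κ * ∑ w ∈ (range (n + 1)).filter P, |lvb n h w| +
        κ * ∑ w ∈ (range (n + 1)).filter (fun w => ¬ P w), |lvb n h w| := by
      rw [← mul_add, ← g7]
    linarith
  rw [g6] at g9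
  have g10 : 2 * (n + 1) * C * κ * (κ * N) ≤ 1 * (κ * N) :=
    mul_le_mul_of_nonneg_right hn2 (mul_pos hκ0 hN0).le
  have g11 : 2 * ((n + 1) * (C * N * (κ * κ))) = 2 * (n + 1) * C * κ * (κ * N) := by ring
  linarith

theorem fna_exists {R R2 C ε2 : ℝ} (hC : 0 < C) (hε2 : 0 < ε2) {n : ℕ} (P : ℕ → Prop)
    [DecidablePred P]
    (hb : ∀ (b : ℕ → ℝ), (∀ k, Odd k → b k = 0) →
      (∀ z : ℂ, ‖z‖ ≤ 1 → ‖LPLOW.Fp n b z‖ ≤ Real.exp (n * R2) * LPLOW.Nb n b) →
      ∀ k ≤ n, P k → |b k| ≤ C * LPLOW.Nb n b * Real.exp (-(n * ε2)))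
    (hn : 1 ≤ n) (hn1 : 2 ≤ Real.exp (n * (R2 - R)))
    (hn2 : 2 * (n + 1) * C * Real.exp (-(n * (ε2 / 2))) ≤ 1) :
    ∃ a : ℕ → ℝ,
      (∀ w, P w → a w = -1) ∧
      (∀ w, ¬ P w → |a w| ≤ Real.exp (-(n * (ε2 / 2)))) ∧
      ∀ w : W n, |al (fun x => a (wt x)) w| ≤ Real.exp (-(n * R)) := by
  obtain ⟨e, he1, he2⟩ := exists_small
    (I := Fin (n + 1)) (J := W n)
    (fun y w => if P (w : ℕ) then 0 else
      (∑ x ∈ (evW n).filter (fun x => wt x = w), chw y x) / 2 ^ (n - 1))
    (fun y => (∑ x ∈ (evW n).filter (fun x => P (wt x)), chw y x) / 2 ^ (n - 1))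
    (κ := Real.exp (-(n * (ε2 / 2)))) (η := Real.exp (-(n * R)))
    (Real.exp_pos _).le (Real.exp_pos _).le (by
      intro h
      have hk := fna_key hC hε2 P hb hn hn1 hn2 h
      have h1 : ∑ y, h y * ((∑ x ∈ (evW n).filter (fun x => P (wt x)), chw y x) / 2 ^ (n - 1)) =
          ∑ w ∈ (range (n + 1)).filter P, lvb n h w := by
        unfold lvb
        rw [← sum_div]
        have h2 : ∑ w ∈ (range (n + 1)).filter P,
            ∑ x ∈ (evW n).filter (fun x => wt x = w), ∑ y, h y * chw y x =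
            ∑ x ∈ (evW n).filter (fun x => P (wt x)), ∑ y, h y * chw y x := by
          rw [← Finset.sum_fiberwise_of_maps_to (s := (evW n).filter (fun x => P (wt x)))
            (t := (range (n + 1)).filter P) (g := wt) (fun x hx => mem_filter.2
              ⟨mem_range.2 (Nat.lt_succ_of_le (lv_wt_le x)), (mem_filter.1 hx).2⟩)]
          refine sum_congr rfl fun w hw => sum_congr ?_ fun _ _ => rfl
          rw [filter_filter]
          ext x
          simp only [mem_filter]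
          have hPw := (mem_filter.1 hw).2
          constructor
          · rintro ⟨q1, q2⟩
            exact ⟨q1, by rw [q2]; exact hPw, q2⟩
          · rintro ⟨q1, _, q2⟩
            exact ⟨q1, q2⟩
        rw [h2, sum_comm, sum_div]
        refine sum_congr rfl fun y _ => ?_
        rw [← mul_sum, mul_div_assoc]
      have h3 : ∑ i : Fin (n + 1), |∑ y, h y * (if P (i : ℕ) then 0 else
          (∑ x ∈ (evW n).filter (fun x => wt x = i), chw y x) / 2 ^ (n - 1))| =
          ∑ w ∈ (range (n + 1)).filter (fun w => ¬ P w), |lvb n h w| := by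
        rw [sum_filter, ← Fin.sum_univ_eq_sum_range (fun w => if ¬ P w then |lvb n h w| else 0)]
        refine sum_congr rfl fun i _ => ?_
        by_cases hi : P (i : ℕ)
        · rw [if_neg (not_not.2 hi)]
          simp only [if_pos hi, mul_zero, sum_const_zero, abs_zero]
        · rw [if_pos hi]
          simp only [if_neg hi]
          congr 1
          unfold lvb
          rw [sum_comm, sum_div]
          refine sum_congr rfl fun y _ => ?_
          rw [← mul_sum, mul_div_assoc]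
      rw [h1, h3]
      exact hk)
  refine ⟨fun w => if P w then -1 else if hw : w < n + 1 then e ⟨w, hw⟩ else 0, ?_, ?_, ?_⟩
  · intro w hw
    simp only [if_pos hw]
  · intro w hw
    simp only [if_neg hw]
    by_cases h : w < n + 1
    · rw [dif_pos h]
      exact he1 _
    · rw [dif_neg h, abs_zero]
      exact (Real.exp_pos _).le
  · intro y
    have h1 := he2 y
    refine le_trans (le_of_eq ?_) h1
    congr 1
    have h2 : ∑ i : Fin (n + 1), (if P (i : ℕ) then 0 else
        (∑ x ∈ (evW n).filter (fun x => wt x = i), chw y x) / 2 ^ (n - 1)) * e i =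
        (∑ x ∈ (evW n).filter (fun x => ¬ P (wt x)),
          (if hw : wt x < n + 1 then e ⟨wt x, hw⟩ else 0) * chw y x) / 2 ^ (n - 1) := by
      rw [← Finset.sum_fiberwise_of_maps_to (s := (evW n).filter (fun x => ¬ P (wt x)))
        (t := (univ : Finset (Fin (n + 1))))
        (g := fun x => ⟨wt x, Nat.lt_succ_of_le (lv_wt_le x)⟩) (fun x _ => mem_univ _), sum_div]
      refine sum_congr rfl fun i _ => ?_
      by_cases hi : P (i : ℕ)
      · rw [if_pos hi, zero_mul, filter_eq_empty_iff.2 ?_, sum_empty, zero_div]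
        intro x hx hxi
        have q1 := (mem_filter.1 hx).2
        have q2 : wt x = i := congrArg Fin.val hxi
        rw [q2] at q1
        exact q1 hi
      · rw [if_neg hi, div_mul_eq_mul_div, sum_mul, filter_filter]
        congr 1
        refine sum_congr ?_ ?_
        · ext x
          simp only [mem_filter]
          constructor
          · rintro ⟨q1, q2⟩
            exact ⟨q1, by rw [q2]; exact hi, Fin.ext q2⟩
          · rintro ⟨q1, _, q2⟩
            exact ⟨q1, congrArg Fin.val q2⟩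
        · intro x hx
          have q2 : wt x = i := congrArg Fin.val (mem_filter.1 hx).2.2
          have q3 : wt x < n + 1 := Nat.lt_succ_of_le (lv_wt_le x)
          rw [dif_pos q3, mul_comm]
          congr 2
          exact Fin.ext q2.symm
    rw [h2]
    unfold al EW
    rw [← sub_div]
    congr 1
    rw [← sum_filter_add_sum_filter_not (evW n) (fun x => P (wt x))]
    have h3 : ∑ x ∈ (evW n).filter (fun x => P (wt x)),
        (if P (wt x) then -1 else if hw : wt x < n + 1 then e ⟨wt x, hw⟩ else 0) * chw y x =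
        - ∑ x ∈ (evW n).filter (fun x => P (wt x)), chw y x := by
      rw [← sum_neg_distrib]
      refine sum_congr rfl fun x hx => ?_
      rw [if_pos (mem_filter.1 hx).2, neg_one_mul]
    have h4 : ∑ x ∈ (evW n).filter (fun x => ¬ P (wt x)),
        (if P (wt x) then -1 else if hw : wt x < n + 1 then e ⟨wt x, hw⟩ else 0) * chw y x =
        ∑ x ∈ (evW n).filter (fun x => ¬ P (wt x)),
          (if hw : wt x < n + 1 then e ⟨wt x, hw⟩ else 0) * chw y x := by
      refine sum_congr rfl fun x hx => ?_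
      rw [if_neg (mem_filter.1 hx).2]
    rw [h3, h4]
    ring

theorem level1_two {δ R : ℝ} (h0 : 0 < δ) (h1 : δ < 1 / 2)
    (hR : R < Tensor.ell δ * Real.log 2) :
    ∃ ε : ℝ, 0 < ε ∧ ∀ᶠ n : ℕ in atTop, Even n → ∃ a : ℕ → ℝ,
      (∀ w, (w < ⌈δ * n⌉₊ ∨ n < w + ⌈δ * n⌉₊) → a w = -1) ∧
      (∀ w, ⌈δ * n⌉₊ ≤ w → w + ⌈δ * n⌉₊ ≤ n → |a w| ≤ Real.exp (-(n * ε))) ∧
      ∀ w : W n, |al (fun x => a (wt x)) w| ≤ Real.exp (-(n * R)) := by
  obtain ⟨R2, hR1, hR2⟩ := exists_between hR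
  obtain ⟨C, ε2, hC, hε2, hb⟩ := fna_coef (Hier.coef_all h0 h1 hR2)
  refine ⟨ε2 / 2, by linarith, ?_⟩
  have e1 : ∀ᶠ n : ℕ in atTop, 2 ≤ Real.exp (n * (R2 - R)) := by
    have : Tendsto (fun n : ℕ => Real.exp (n * (R2 - R))) atTop atTop :=
      Real.tendsto_exp_atTop.comp
        (tendsto_natCast_atTop_atTop.atTop_mul_const (by linarith))
    exact this.eventually_ge_atTop 2
  have e2 : ∀ᶠ n : ℕ in atTop, 2 * (n + 1) * C * Real.exp (-(n * (ε2 / 2))) ≤ 1 := by
    have t1 : Tendsto (fun n : ℕ => (n : ℝ) * (ε2 / 2)) atTop atTop :=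
      tendsto_natCast_atTop_atTop.atTop_mul_const (by linarith)
    have t2 := (Real.tendsto_pow_mul_exp_neg_atTop_nhds_zero 1).comp t1
    have t3 := (Real.tendsto_pow_mul_exp_neg_atTop_nhds_zero 0).comp t1
    have t4 : Tendsto (fun n : ℕ => 2 * C * (2 / ε2) * (((n : ℝ) * (ε2 / 2)) ^ 1 *
        Real.exp (-((n : ℝ) * (ε2 / 2)))) + 2 * C * (((n : ℝ) * (ε2 / 2)) ^ 0 *
        Real.exp (-((n : ℝ) * (ε2 / 2))))) atTop (nhds (2 * C * (2 / ε2) * 0 + 2 * C * 0)) :=
      (t2.const_mul _).add (t3.const_mul _)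
    have t5 : ∀ n : ℕ, 2 * C * (2 / ε2) * (((n : ℝ) * (ε2 / 2)) ^ 1 *
        Real.exp (-((n : ℝ) * (ε2 / 2)))) + 2 * C * (((n : ℝ) * (ε2 / 2)) ^ 0 *
        Real.exp (-((n : ℝ) * (ε2 / 2)))) = 2 * (n + 1) * C * Real.exp (-(n * (ε2 / 2))) := by
      intro n
      field_simp
    have t6 : Tendsto (fun n : ℕ => 2 * ((n : ℝ) + 1) * C * Real.exp (-(n * (ε2 / 2)))) atTop
        (nhds 0) := by
      have := t4
      simp only [t5] at this
      simpa using this
    exact (t6.eventually (eventually_lt_nhds (show (0 : ℝ) < 1 by norm_num))).mono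
      fun n hn => hn.le
  filter_upwards [e1, e2, eventually_ge_atTop 1] with n g1 g2 g3 hev
  obtain ⟨a, ha1, ha2, ha3⟩ := fna_exists (R := R) (R2 := R2) hC hε2 (n := n)
    (fun w => w < ⌈δ * n⌉₊ ∨ n < w + ⌈δ * n⌉₊) (by
      intro b hodd hF k hk hP
      refine hb n hev b hodd hF k hk ?_
      rcases hP with q | q
      · exact Or.inl (Nat.lt_ceil.1 q).le
      · refine Or.inr ?_
        have q1 : n - k < ⌈δ * n⌉₊ := by omega
        exact (Nat.lt_ceil.1 q1).le) g3 g1 g2
  refine ⟨a, ha1, fun w w1 w2 => ha2 w ?_, ha3⟩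
  omega

end Pool.Agent.Lib.MP_0430e4_lc.L3
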