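import Pool.Agent.Lib.MP_0430e4_lc.Lin.COR

/-!
# FNB: interpolation nodes near `n / 2`

PROOF. `m = ⌊n / 4⌋`, `h = ⌊ε n / (16 k)⌋`, `x i = 2 * (m - k h + i h)`: all nodes are in `[n/2 - ε n / 4, n/2]` for large `n`, and `k h ≥ ε n / 32` for `k ≤ c ε² n`, `ε ≤ 1 / (32 c)`. By `Lin.abs_lag_le` with `b = ε n / 4`,
`|lag j z| ≤ (8 e (1 + |z - n/2| / b)) ^ k ≤ exp (4 k) exp (k |z - n/2| / b)`, and the exponential moments of `wt - n/2` over all words are Gaussian.
-/

set_option autoImplicit false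

namespace Pool.Agent.Lib.MP_0430e4_lc.L3

open Finset Filter
open Lin (W wt chw evW EW al flat SymW lag)

theorem fnb_cols {n : ℕ} (g : ZMod 2 → ℝ) : ∑ x : W n, ∏ i, g (x i) = (g 0 + g 1) ^ n := by
  have h := Finset.prod_univ_sum (fun _ : Fin n => (univ : Finset (ZMod 2))) (fun _ a => g a)
  rw [Fintype.piFinset_univ] at h
  rw [← h, prod_const, card_univ, Fintype.card_fin]
  congr 1
  have h4 : (univ : Finset (ZMod 2)) = {0, 1} := by decide
  rw [h4, sum_pair (by decide)]

theorem fnb_exp1 {n : ℕ} (t : ℝ) :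
    ∑ x : W n, Real.exp (t * ((wt x : ℝ) - n / 2)) ≤ 2 ^ n * Real.exp (t ^ 2 * n / 8) := by
  have h1 : ∀ x : W n, Real.exp (t * ((wt x : ℝ) - n / 2)) =
      ∏ i, (fun a : ZMod 2 => Real.exp (t * ((if a ≠ 0 then 1 else 0) - 1 / 2))) (x i) := by
    intro x
    rw [← Real.exp_sum]
    congr 1
    rw [← mul_sum, sum_sub_distrib]
    congr 2
    · unfold wt
      rw [Finset.card_filter]
      push_cast
      rfl
    · rw [sum_const, card_univ, Fintype.card_fin, nsmul_eq_mul]
      ring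
  rw [sum_congr rfl fun x _ => h1 x,
    fnb_cols (fun a : ZMod 2 => Real.exp (t * ((if a ≠ 0 then 1 else 0) - 1 / 2)))]
  have h2 : Real.exp (t * ((if (0 : ZMod 2) ≠ 0 then 1 else 0) - 1 / 2)) +
      Real.exp (t * ((if (1 : ZMod 2) ≠ 0 then 1 else 0) - 1 / 2)) ≤ 2 * Real.exp (t ^ 2 / 8) := by
    have h3 := Real.cosh_le_exp_half_sq (t / 2)
    rw [Real.cosh_eq] at h3
    have e1 : t * ((if (0 : ZMod 2) ≠ 0 then 1 else 0) - 1 / 2) = -(t / 2) := by
      rw [if_neg (by simp)]; ring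
    have e2 : t * ((if (1 : ZMod 2) ≠ 0 then 1 else 0) - 1 / 2) = t / 2 := by
      rw [if_pos (by decide)]; ring
    have e3 : (t / 2) ^ 2 / 2 = t ^ 2 / 8 := by ring
    rw [e1, e2]
    rw [e3] at h3
    linarith
  calc _ ≤ (2 * Real.exp (t ^ 2 / 8)) ^ n := by
        apply pow_le_pow_left₀ (by positivity)
        exact h2
    _ = _ := by
        rw [mul_pow, ← Real.exp_nat_mul]
        congr 2
        ring

theorem fnb_exp2 {n : ℕ} (t : ℝ) :
    ∑ x : W n, Real.exp (t * |(wt x : ℝ) - n / 2|) ≤ 2 ^ n * (2 * Real.exp (t ^ 2 * n / 8)) := by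
  have e1 := fnb_exp1 (n := n) t
  have e2 := fnb_exp1 (n := n) (-t)
  rw [neg_sq] at e2
  calc _ ≤ ∑ x : W n, (Real.exp (t * ((wt x : ℝ) - n / 2))
        + Real.exp (-t * ((wt x : ℝ) - n / 2))) := by
        apply sum_le_sum
        intro X _
        have p1 := Real.exp_pos (t * ((wt X : ℝ) - n / 2))
        have p2 := Real.exp_pos (-t * ((wt X : ℝ) - n / 2))
        rcases le_total 0 ((wt X : ℝ) - n / 2) with h0 | h0
        · rw [abs_of_nonneg h0]
          linarith
        · rw [abs_of_nonpos h0, mul_neg, ← neg_mul]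
          linarith
    _ ≤ _ := by
        rw [sum_add_distrib]
        linarith

theorem fnb_EW {n : ℕ} (hn : 1 ≤ n) {f : W n → ℝ} (hf : ∀ x, 0 ≤ f x) {B : ℝ}
    (h : ∑ x : W n, f x ≤ 2 ^ n * B) : EW f ≤ 2 * B := by
  unfold EW
  rw [div_le_iff₀ (by positivity)]
  have h1 : ∑ x ∈ evW n, f x ≤ ∑ x : W n, f x :=
    sum_le_sum_of_subset_of_nonneg (subset_univ _) fun x _ _ => hf x
  have e2 : (2 : ℝ) ^ n = 2 * 2 ^ (n - 1) := by
    rw [← pow_succ']; congr 1; omega
  rw [e2] at h
  linarith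

theorem fnb_lagsq {n : ℕ} (hn : 1 ≤ n) {k a h : ℕ} (hk : 1 ≤ k) (hh : 1 ≤ h) {b : ℝ} (hb : 0 < b)
    (x : Fin (k + 1) → ℝ) (hx : ∀ i, x i = 2 * ((a : ℝ) + i * h))
    (hxb : ∀ i, |x i - n / 2| ≤ b) (j : Fin (k + 1)) :
    EW (fun y : W n => lag x j (wt y) ^ 2) ≤
      (Real.exp 1 * b / (h * k)) ^ (2 * k) * (4 * Real.exp ((2 * k / b) ^ 2 * n / 8)) := by
  have hk0 : (0 : ℝ) < k := by exact_mod_cast hk
  have hh0 : (0 : ℝ) < h := by exact_mod_cast hh
  set B : ℝ := Real.exp 1 * b / (h * k) with hB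
  have hB0 : 0 < B := by positivity
  set t : ℝ := 2 * k / b with ht
  have hlag : ∀ z : ℝ, lag x j z ^ 2 ≤ B ^ (2 * k) * Real.exp (t * |z - n / 2|) := by
    intro z
    have h1 := Lin.abs_lag_le hk hh x hx hxb j z
    have h2 : (Real.exp 1 * (|z - n / 2| + b) / (h * k)) ^ k
        ≤ B ^ k * Real.exp (k / b * |z - n / 2|) := by
      have e1 : Real.exp 1 * (|z - n / 2| + b) / (h * k)
          = B * (|z - n / 2| / b + 1) := by
        rw [hB]
        field_simp
      rw [e1, mul_pow]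
      apply mul_le_mul_of_nonneg_left _ (by positivity)
      calc (|z - n / 2| / b + 1) ^ k ≤ Real.exp (|z - n / 2| / b) ^ k :=
            pow_le_pow_left₀ (by positivity) (Real.add_one_le_exp _) k
        _ = _ := by
            rw [← Real.exp_nat_mul]
            congr 1
            ring
    calc lag x j z ^ 2 = |lag x j z| ^ 2 := (sq_abs _).symm
      _ ≤ (B ^ k * Real.exp (k / b * |z - n / 2|)) ^ 2 :=
          pow_le_pow_left₀ (abs_nonneg _) (h1.trans h2) 2
      _ = _ := by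
          rw [mul_pow, ← pow_mul, ← Real.exp_nat_mul, ht]
          congr 2
          · ring
          · push_cast
            ring
  have hs : ∑ y : W n, lag x j (wt y) ^ 2 ≤
      2 ^ n * (B ^ (2 * k) * (2 * Real.exp (t ^ 2 * n / 8))) := by
    calc ∑ y : W n, lag x j (wt y) ^ 2
        ≤ ∑ y : W n, B ^ (2 * k) * Real.exp (t * |(wt y : ℝ) - n / 2|) :=
          sum_le_sum fun y _ => hlag _
      _ = B ^ (2 * k) * ∑ y : W n, Real.exp (t * |(wt y : ℝ) - n / 2|) := by rw [mul_sum]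
      _ ≤ B ^ (2 * k) * (2 ^ n * (2 * Real.exp (t ^ 2 * n / 8))) :=
          mul_le_mul_of_nonneg_left (fnb_exp2 t) (by positivity)
      _ = _ := by ring
  refine (fnb_EW hn (fun y => sq_nonneg _) hs).trans (le_of_eq ?_)
  ring

theorem fnb_lag {c : ℝ} (hc : 1 ≤ c) : ∃ C ε₀ : ℝ, 0 < C ∧ 0 < ε₀ ∧ ∀ ε : ℝ, 0 < ε → ε < ε₀ →
    ∀ᶠ n : ℕ in atTop, ∀ k : ℕ, (k : ℝ) ≤ c * ε ^ 2 * n →
      ∃ x : Fin (k + 1) → ℕ, Function.Injective x ∧ (∀ i, Even (x i)) ∧
        (∀ i, (n : ℝ) / 2 - ε * n / 4 ≤ x i ∧ (x i : ℝ) ≤ n / 2) ∧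
        ∀ j, EW (fun y : W n => lag (fun i => (x i : ℝ)) j (wt y) ^ 2) ≤
          Real.exp (C * ε ^ 2 * n) ^ 2 := by
  refine ⟨9 * c ^ 2, 1 / (32 * c), by positivity, by positivity, fun ε h0 h1 => ?_⟩
  have hc0 : 0 < c := by linarith
  have hεc : 32 * c * ε < 1 := by
    rw [lt_div_iff₀ (by positivity)] at h1
    linarith
  have hε1 : ε < 1 / 32 := by nlinarith
  filter_upwards [eventually_ge_atTop ⌈16 / ε ^ 2⌉₊, eventually_ge_atTop 1] with n hn hn1 k hk
  have hn0 : (0 : ℝ) < n := by exact_mod_cast hn1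
  have hn2 : 16 ≤ ε ^ 2 * n := by
    have h2 : 16 / ε ^ 2 ≤ (n : ℝ) := Nat.ceil_le.mp hn
    rw [div_le_iff₀ (by positivity)] at h2
    linarith
  have hn3 : 16 ≤ ε * n := by
    have : ε ^ 2 * n ≤ ε * n := by
      apply mul_le_mul_of_nonneg_right _ hn0.le
      nlinarith
    linarith
  have h4 : 4 * Real.exp 0 ≤ Real.exp (2 * (ε ^ 2 * n)) := by
    rw [Real.exp_zero]
    have := Real.add_one_le_exp (2 * (ε ^ 2 * n))
    linarith
  rw [Real.exp_zero, mul_one] at h4
  set m : ℕ := n / 4 with hm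
  have hm1 : (m : ℝ) ≤ n / 4 := by
    have := @Nat.cast_div_le ℝ _ _ _ n 4
    exact_mod_cast this
  have hm2 : (n : ℝ) / 4 - 1 ≤ m := by
    have : n < (m + 1) * 4 := by omega
    have h5 : (n : ℝ) < (m + 1) * 4 := by exact_mod_cast this
    linarith
  have htot : Real.exp (9 * c ^ 2 * ε ^ 2 * n) ^ 2 = Real.exp (18 * c ^ 2 * (ε ^ 2 * n)) := by
    rw [← Real.exp_nat_mul]
    congr 1
    push_cast
    ring
  have hc2 : 1 ≤ c ^ 2 := by nlinarith
  have hcc : c ≤ c ^ 2 := by nlinarith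
  have hεn : 0 < ε ^ 2 * n := by positivity
  rcases Nat.eq_zero_or_pos k with rfl | hk1
  · refine ⟨fun _ => 2 * m, fun i j _ => Subsingleton.elim (α := Fin 1) i j,
      fun _ => even_two_mul _, fun _ => ⟨?_, ?_⟩, fun j => ?_⟩
    · push_cast; linarith
    · push_cast; linarith
    · rw [htot]
      have hl : ∀ y : W n, lag (fun _ : Fin (0 + 1) => (((2 * m : ℕ)) : ℝ)) j (wt y) ^ 2 ≤ 1 := by
        intro y
        unfold lag
        have : (univ.erase j : Finset (Fin (0 + 1))) = ∅ := by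
          rw [← Finset.card_eq_zero, card_erase_of_mem (mem_univ _), card_univ, Fintype.card_fin]
        rw [this, prod_empty]
        norm_num
      have hs : ∑ y : W n, lag (fun _ : Fin (0 + 1) => (((2 * m : ℕ)) : ℝ)) j (wt y) ^ 2 ≤
          2 ^ n * 1 := by
        calc _ ≤ ∑ y : W n, (1 : ℝ) := sum_le_sum fun y _ => hl y
          _ = 2 ^ n * 1 := by simp [ZMod.card]
      refine (fnb_EW hn1 (fun y => sq_nonneg _) hs).trans ?_
      have h6 : Real.exp (2 * (ε ^ 2 * n)) ≤ Real.exp (18 * c ^ 2 * (ε ^ 2 * n)) := by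
        apply Real.exp_le_exp.mpr
        nlinarith
      linarith
  · have hk0 : (0 : ℝ) < k := by exact_mod_cast hk1
    have hk1' : (1 : ℝ) ≤ k := by exact_mod_cast hk1
    have hkε : (k : ℝ) * 32 ≤ ε * n := by
      have h6 : 32 * (c * ε ^ 2 * n) ≤ ε * n := by
        have e : 32 * (c * ε ^ 2 * n) = (32 * c * ε) * (ε * n) := by ring
        rw [e]
        have : 0 < ε * (n : ℝ) := by positivity
        nlinarith
      linarith
    set h : ℕ := ⌊ε * n / (16 * k)⌋₊ with hh
    have hh1 : (h : ℝ) * (16 * k) ≤ ε * n := by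
      have := Nat.floor_le (show 0 ≤ ε * n / (16 * k) by positivity)
      rwa [le_div_iff₀ (by positivity)] at this
    have hh2 : ε * n ≤ ((h : ℝ) + 1) * (16 * k) := by
      have := (Nat.lt_floor_add_one (ε * n / (16 * k))).le
      rwa [div_le_iff₀ (by positivity)] at this
    have hh3 : ε * n ≤ (h : ℝ) * k * 32 := by nlinarith
    have hhpos : 1 ≤ h := by
      rcases Nat.eq_zero_or_pos h with hz | hz
      · rw [hz] at hh3
        simp at hh3
        nlinarith
      · exact hz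
    have hh0 : (0 : ℝ) < h := by exact_mod_cast hhpos
    have hkh : k * h ≤ m := by
      have h7 : (k : ℝ) * h * 16 ≤ ε * n := by linarith
      have h8 : ε * n ≤ n / 4 * 1 := by nlinarith
      have h9 : (k : ℝ) * h ≤ m := by nlinarith
      exact_mod_cast h9
    have hnode : ∀ i : Fin (k + 1), ((2 * (m - k * h + i * h) : ℕ) : ℝ) =
        2 * (((m - k * h : ℕ) : ℝ) + i * h) := by
      intro i; push_cast; ring
    have hcast : ((m - k * h : ℕ) : ℝ) = m - k * h := by
      rw [Nat.cast_sub hkh]; push_cast; ring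
    have hi0 : ∀ i : Fin (k + 1), (0 : ℝ) ≤ (i : ℕ) := fun i => Nat.cast_nonneg _
    have hik : ∀ i : Fin (k + 1), ((i : ℕ) : ℝ) ≤ k := fun i => by
      exact_mod_cast Nat.le_of_lt_succ i.2
    have hlo : ∀ i : Fin (k + 1), (n : ℝ) / 2 - ε * n / 4 ≤ 2 * (((m - k * h : ℕ) : ℝ) + i * h) := by
      intro i
      rw [hcast]
      have := mul_nonneg (hi0 i) hh0.le
      nlinarith
    have hup : ∀ i : Fin (k + 1), 2 * (((m - k * h : ℕ) : ℝ) + i * h) ≤ (n : ℝ) / 2 := by
      intro i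
      rw [hcast]
      have := mul_le_mul_of_nonneg_right (hik i) hh0.le
      nlinarith
    refine ⟨fun i => 2 * (m - k * h + i * h), ?_, fun i => even_two_mul _,
      fun i => ⟨?_, ?_⟩, fun j => ?_⟩
    · intro i j hij
      simp only at hij
      have h8 : (i : ℕ) * h = j * h := by omega
      exact Fin.ext (Nat.eq_of_mul_eq_mul_right hhpos h8)
    · rw [hnode]; exact hlo i
    · rw [hnode]; exact hup i
    · rw [htot]
      have hb0 : 0 < ε * n / 4 := by positivity
      refine (fnb_lagsq hn1 hk1 hhpos hb0 _ hnode (fun i => ?_) j).trans ?_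
      · rw [hnode, abs_le]
        constructor
        · have := hlo i; linarith
        · have := hup i; linarith
      · have b1 : Real.exp 1 * (ε * n / 4) / (h * k) ≤ Real.exp 4 := by
          rw [div_le_iff₀ (by positivity)]
          have h8 : (8 : ℝ) ≤ Real.exp 3 := by
            have h9 := Real.add_one_le_exp (1 : ℝ)
            have h10 : Real.exp 3 = Real.exp 1 ^ 3 := by
              rw [← Real.exp_nat_mul]; norm_num
            rw [h10]
            calc (8 : ℝ) = 2 ^ 3 := by norm_num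
              _ ≤ Real.exp 1 ^ 3 := pow_le_pow_left₀ (by norm_num) (by linarith) 3
          have h11 : Real.exp 4 = Real.exp 1 * Real.exp 3 := by
            rw [← Real.exp_add]; norm_num
          rw [h11]
          have h12 : ε * n / 4 ≤ Real.exp 3 * (h * k) := by
            have : 0 < (h : ℝ) * k := by positivity
            nlinarith
          have := mul_le_mul_of_nonneg_left h12 (Real.exp_pos 1).le
          linarith
        have b2 : (Real.exp 1 * (ε * n / 4) / (h * k)) ^ (2 * k) ≤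
            Real.exp (8 * (c * (ε ^ 2 * n))) := by
          calc (Real.exp 1 * (ε * n / 4) / (h * k)) ^ (2 * k) ≤ Real.exp 4 ^ (2 * k) :=
                pow_le_pow_left₀ (by positivity) b1 _
            _ = Real.exp (8 * k) := by
                rw [← Real.exp_nat_mul]; congr 1; push_cast; ring
            _ ≤ _ := by
                apply Real.exp_le_exp.mpr
                nlinarith
        have b3 : (2 * (k : ℝ) / (ε * n / 4)) ^ 2 * n / 8 ≤ 8 * (c ^ 2 * (ε ^ 2 * n)) := by
          have e1 : (2 * (k : ℝ) / (ε * n / 4)) ^ 2 * n / 8 = 8 * ((k : ℝ) ^ 2 / (ε ^ 2 * n)) := by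
            field_simp
            ring
          rw [e1]
          apply mul_le_mul_of_nonneg_left _ (by norm_num)
          rw [div_le_iff₀ hεn]
          calc (k : ℝ) ^ 2 ≤ (c * ε ^ 2 * n) ^ 2 := pow_le_pow_left₀ hk0.le hk 2
            _ = _ := by ring
        calc (Real.exp 1 * (ε * n / 4) / (h * k)) ^ (2 * k) *
              (4 * Real.exp ((2 * (k : ℝ) / (ε * n / 4)) ^ 2 * n / 8))
            ≤ Real.exp (8 * (c * (ε ^ 2 * n))) *
              (Real.exp (2 * (ε ^ 2 * n)) * Real.exp (8 * (c ^ 2 * (ε ^ 2 * n)))) := by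
              apply mul_le_mul b2 _ (by positivity) (Real.exp_pos _).le
              exact mul_le_mul h4 (Real.exp_le_exp.mpr b3) (Real.exp_pos _).le (Real.exp_pos _).le
          _ = Real.exp (8 * (c * (ε ^ 2 * n)) + (2 * (ε ^ 2 * n) + 8 * (c ^ 2 * (ε ^ 2 * n)))) := by
              rw [← Real.exp_add, ← Real.exp_add]
          _ ≤ _ := by
              apply Real.exp_le_exp.mpr
              have q1 := mul_le_mul_of_nonneg_right hcc hεn.le
              have q2 := mul_le_mul_of_nonneg_right hc2 hεn.le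
              nlinarith

end Pool.Agent.Lib.MP_0430e4_lc.L3
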