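import Pool.Agent.Lib.MP_0430e4_lc.L3.CUM

/-!
# FNI: partitions and cumulants under injections

PROOF. `parts_image`: the partitions of the image are the images of the partitions (`b ↦ b.image τ` is a bijection between the subsets of `g` and of `g.image τ`). `sexp_image`: reindex. `cum_image`: strong induction over `g` with `sexp_cum` and `sexp_rec`, or: `v' b = cum c (b.image τ)` satisfies
`sexp v' b = sexp (cum c) (b.image τ) = c (b.image τ) = c' b = sexp (cum c') b` for all `b ⊆ g` (`c ∅ = c' ∅ = 1`), so `v' g = cum c' g` by `cum_unique` (`g` empty: both 0).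
-/

set_option autoImplicit false

namespace Pool.Agent.Lib.MP_0430e4_lc.L3

open Finset

theorem fni_mem {ε : Type*} [DecidableEq ε] {g : Finset ε} {π : Finset (Finset ε)} :
    π ∈ parts g ↔ (∀ b ∈ π, b ⊆ g) ∧ ∅ ∉ π ∧
      (∀ b ∈ π, ∀ b' ∈ π, b ≠ b' → Disjoint b b') ∧ π.biUnion id = g := by
  unfold parts
  rw [mem_filter, mem_powerset]
  constructor
  · rintro ⟨h1, h2⟩
    exact ⟨fun b hb => mem_powerset.1 (h1 hb), h2⟩
  · rintro ⟨h1, h2⟩
    exact ⟨fun b hb => mem_powerset.2 (h1 b hb), h2⟩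

theorem fni_inj {ε κ : Type*} [DecidableEq ε] [DecidableEq κ] {τ : ε → κ} {g : Finset ε}
    (hτ : Set.InjOn τ g) {b b' : Finset ε} (hb : b ⊆ g) (hb' : b' ⊆ g)
    (h : b.image τ = b'.image τ) : b = b' := by
  have key : ∀ {s t : Finset ε}, s ⊆ g → t ⊆ g → s.image τ = t.image τ → s ⊆ t := by
    intro s t hs ht hst x hx
    have h1 : τ x ∈ t.image τ := by
      rw [← hst]
      exact mem_image_of_mem _ hx
    obtain ⟨y, hy, hyx⟩ := mem_image.1 h1
    have h2 : y = x := hτ (ht hy) (hs hx) hyx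
    rw [← h2]
    exact hy
  exact Finset.Subset.antisymm (key hb hb' h) (key hb' hb h.symm)

theorem fni_inv {ε κ : Type*} [DecidableEq ε] [DecidableEq κ] {τ : ε → κ} {g : Finset ε}
    {b : Finset κ} (hb : b ⊆ g.image τ) : (g.filter fun x => τ x ∈ b).image τ = b := by
  ext y
  rw [mem_image]
  constructor
  · rintro ⟨x, hx, rfl⟩
    exact (mem_filter.1 hx).2
  · intro hy
    obtain ⟨x, hx, hxy⟩ := mem_image.1 (hb hy)
    exact ⟨x, mem_filter.2 ⟨hx, hxy ▸ hy⟩, hxy⟩

theorem fni_fwd {ε κ : Type*} [DecidableEq ε] [DecidableEq κ] {τ : ε → κ} {g : Finset ε}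
    (hτ : Set.InjOn τ g) {π : Finset (Finset ε)} (h : π ∈ parts g) :
    π.image (fun b => b.image τ) ∈ parts (g.image τ) := by
  obtain ⟨h1, h2, h3, h4⟩ := fni_mem.1 h
  refine fni_mem.2 ⟨?_, ?_, ?_, ?_⟩
  · intro b' hb'
    obtain ⟨b, hb, rfl⟩ := mem_image.1 hb'
    exact image_subset_image (h1 b hb)
  · intro h5
    obtain ⟨b, hb, hb0⟩ := mem_image.1 h5
    rw [image_eq_empty] at hb0
    exact h2 (hb0 ▸ hb)
  · intro a' ha' b' hb' hne
    obtain ⟨a, ha, rfl⟩ := mem_image.1 ha'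
    obtain ⟨b, hb, rfl⟩ := mem_image.1 hb'
    have hab : a ≠ b := fun hh => hne (by rw [hh])
    have hd := h3 a ha b hb hab
    rw [Finset.disjoint_left] at hd ⊢
    intro y hy hy'
    obtain ⟨x, hx, hxy⟩ := mem_image.1 hy
    obtain ⟨x', hx', hxy'⟩ := mem_image.1 hy'
    have h5 : x = x' := hτ (h1 a ha hx) (h1 b hb hx') (hxy.trans hxy'.symm)
    exact hd hx (h5 ▸ hx')
  · ext y
    rw [mem_biUnion, mem_image]
    constructor
    · rintro ⟨b', hb', hy⟩
      obtain ⟨b, hb, rfl⟩ := mem_image.1 hb'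
      obtain ⟨x, hx, hxy⟩ := mem_image.1 hy
      exact ⟨x, h1 b hb hx, hxy⟩
    · rintro ⟨x, hx, rfl⟩
      rw [← h4] at hx
      obtain ⟨b, hb, hxb⟩ := mem_biUnion.1 hx
      exact ⟨b.image τ, mem_image_of_mem _ hb, mem_image_of_mem _ hxb⟩

theorem fni_bwd {ε κ : Type*} [DecidableEq ε] [DecidableEq κ] {τ : ε → κ} {g : Finset ε}
    {π : Finset (Finset κ)} (h : π ∈ parts (g.image τ)) :
    ∃ ρ ∈ parts g, ρ.image (fun b => b.image τ) = π := by
  obtain ⟨h1, h2, h3, h4⟩ := fni_mem.1 h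
  refine ⟨π.image (fun b => g.filter fun x => τ x ∈ b), fni_mem.2 ⟨?_, ?_, ?_, ?_⟩, ?_⟩
  · intro b' hb'
    obtain ⟨b, -, rfl⟩ := mem_image.1 hb'
    exact filter_subset _ _
  · intro h5
    obtain ⟨b, hb, hb0⟩ := mem_image.1 h5
    have h6 := fni_inv (h1 b hb)
    rw [hb0, image_empty] at h6
    exact h2 (h6 ▸ hb)
  · intro a' ha' b' hb' hne
    obtain ⟨a, ha, rfl⟩ := mem_image.1 ha'
    obtain ⟨b, hb, rfl⟩ := mem_image.1 hb'
    have hab : a ≠ b := fun hh => hne (by rw [hh])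
    have hd := h3 a ha b hb hab
    rw [Finset.disjoint_left] at hd ⊢
    intro x hx hx'
    exact hd (mem_filter.1 hx).2 (mem_filter.1 hx').2
  · ext x
    rw [mem_biUnion]
    constructor
    · rintro ⟨b', hb', hx⟩
      obtain ⟨b, -, rfl⟩ := mem_image.1 hb'
      exact (mem_filter.1 hx).1
    · intro hx
      have h5 : τ x ∈ π.biUnion id := by
        rw [h4]
        exact mem_image_of_mem _ hx
      obtain ⟨b, hb, hxb⟩ := mem_biUnion.1 h5
      exact ⟨_, mem_image_of_mem _ hb, mem_filter.2 ⟨hx, hxb⟩⟩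
  · rw [image_image]
    ext b
    rw [mem_image]
    constructor
    · rintro ⟨a, ha, hab⟩
      have h5 : a = b := by
        rw [← hab]
        exact (fni_inv (h1 a ha)).symm
      exact h5 ▸ ha
    · intro hb
      exact ⟨b, hb, fni_inv (h1 b hb)⟩

theorem parts_image {ε κ : Type*} [DecidableEq ε] [DecidableEq κ] {τ : ε → κ} {g : Finset ε}
    (hτ : Set.InjOn τ g) : parts (g.image τ) = (parts g).image (fun π => π.image (fun b => b.image τ)) := by
  ext π
  rw [mem_image]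
  constructor
  · intro h
    exact fni_bwd h
  · rintro ⟨ρ, hρ, rfl⟩
    exact fni_fwd hτ hρ

theorem sexp_image {ε κ : Type*} [DecidableEq ε] [DecidableEq κ] {τ : ε → κ} {g : Finset ε}
    (hτ : Set.InjOn τ g) (v : Finset κ → ℝ) (v' : Finset ε → ℝ)
    (h : ∀ b ⊆ g, v (b.image τ) = v' b) : sexp v (g.image τ) = sexp v' g := by
  unfold sexp
  rw [parts_image hτ, sum_image]
  · refine sum_congr rfl fun π hπ => ?_
    obtain ⟨h1, -⟩ := fni_mem.1 hπ
    rw [prod_image]
    · exact prod_congr rfl fun b hb => h b (h1 b hb)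
    · intro a ha b hb hab
      exact fni_inj hτ (h1 a ha) (h1 b hb) hab
  · intro π hπ ρ hρ hπρ
    obtain ⟨h1, -⟩ := fni_mem.1 hπ
    obtain ⟨h2, -⟩ := fni_mem.1 hρ
    have key : ∀ {s t : Finset (Finset ε)}, (∀ b ∈ s, b ⊆ g) → (∀ b ∈ t, b ⊆ g) →
        s.image (fun b => b.image τ) = t.image (fun b => b.image τ) → s ⊆ t := by
      intro s t hs ht hst b hb
      have h3 : b.image τ ∈ t.image (fun b => b.image τ) := by
        rw [← hst]
        exact mem_image_of_mem (fun b : Finset ε => b.image τ) hb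
      obtain ⟨a, ha, hab⟩ := mem_image.1 h3
      have h4 : a = b := fni_inj hτ (ht a ha) (hs b hb) hab
      exact h4 ▸ ha
    exact Finset.Subset.antisymm (key h1 h2 hπρ) (key h2 h1 hπρ.symm)

theorem cum_image {ε κ : Type*} [DecidableEq ε] [DecidableEq κ] {τ : ε → κ} {g : Finset ε}
    (hτ : Set.InjOn τ g) (c : Finset κ → ℝ) (c' : Finset ε → ℝ) (h0 : c' ∅ = 1)
    (h : ∀ b ⊆ g, c (b.image τ) = c' b) : cum c (g.image τ) = cum c' g := by
  rcases Finset.eq_empty_or_nonempty g with rfl | hg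
  · rw [image_empty, cum_empty, cum_empty]
  have hc0 : c ∅ = 1 := by
    have := h ∅ (empty_subset _)
    rw [image_empty] at this
    rw [this, h0]
  have key : ∀ b ⊆ g, sexp (fun b => cum c (b.image τ)) b = sexp (cum c') b := by
    intro b hb
    rw [← sexp_image (hτ.mono (by exact_mod_cast hb)) (cum c) (fun b => cum c (b.image τ))
      (fun _ _ => rfl), sexp_cum hc0, h b hb, sexp_cum h0]
  exact cum_unique key hg

end Pool.Agent.Lib.MP_0430e4_lc.L3
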