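import Pool.Agent.Lib.MP_0430e4_lc.L3.CUM

/-!
# LSX: labelled sums

PROOF. `Ls_union`: bijection `C ↦ (C i ∩ g₁, C i ∩ g₂)` between the columns inside `g₁ ∪ g₂` and pairs; `oc C {e}` only depends on whether `e ∈ C i`.
`sexp_Ls`: expand `sexp` over the partitions of `g`, apply `Ls_union` inductively to the blocks of a partition (induction over the `Finset` of blocks, `Ls` of the
empty graph is `c (fun _ => ∅)`), interchange the sums. `Ls_single`: the labellings of `{e}` are the words, `oc C {e}` is the weight. `Ls_chw`: interchange the products over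
`i` and `e`. `Ls_abs`: triangle inequality and `∑ C, ∏ e, |f e (oc C {e})| = ∏ e, ∑ w : W n, |f e (wt w)|`.
-/

set_option autoImplicit false

namespace Pool.Agent.Lib.MP_0430e4_lc.L3

open Finset
open Lin (W wt chw evW EW al sg SymW)

variable {ε : Type*} [DecidableEq ε] {n : ℕ}

/-- The value depends only on the columns inside `b`. -/
def Loc (b : Finset ε) (v : (Fin n → Finset ε) → ℝ) : Prop :=
  ∀ C, v C = v fun i => C i ∩ b

theorem LSX_mem {g : Finset ε} {C : Fin n → Finset ε} :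
    C ∈ Fintype.piFinset (fun _ : Fin n => g.powerset) ↔ ∀ i, C i ⊆ g := by
  rw [Fintype.mem_piFinset]
  exact forall_congr' fun i => mem_powerset

theorem LSX_odd (s : Finset ε) (e : ε) : Odd (s ∩ {e}).card ↔ e ∈ s := by
  by_cases h : e ∈ s
  · rw [inter_singleton_of_mem h, card_singleton]
    exact ⟨fun _ => h, fun _ => odd_one⟩
  · rw [inter_singleton_of_notMem h, card_empty]
    exact ⟨fun h1 => absurd h1 (by decide), fun h1 => absurd h1 h⟩

theorem LSX_oc (C : Fin n → Finset ε) (e : ε) :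
    oc C {e} = (univ.filter fun i => e ∈ C i).card := by
  unfold oc
  congr 1
  refine filter_congr fun i _ => LSX_odd (C i) e

theorem LSX_oc_congr {C C' : Fin n → Finset ε} {e : ε} (h : ∀ i, e ∈ C i ↔ e ∈ C' i) :
    oc C {e} = oc C' {e} := by
  rw [LSX_oc, LSX_oc]
  congr 1
  exact filter_congr fun i _ => h i

theorem LSX_oc_inter {C : Fin n → Finset ε} {J g : Finset ε} (h : J ⊆ g) :
    oc (fun i => C i ∩ g) J = oc C J := by
  unfold oc
  congr 1
  refine filter_congr fun i _ => ?_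
  rw [inter_assoc, inter_eq_right.2 h]

theorem LSX_oc_perm (C : Fin n → Finset ε) (σ : Equiv.Perm (Fin n)) (J : Finset ε) :
    oc (C ∘ σ) J = oc C J := by
  unfold oc
  refine card_equiv σ fun i => ?_
  rw [mem_filter, mem_filter]
  exact ⟨fun h => ⟨mem_univ _, h.2⟩, fun h => ⟨mem_univ _, h.2⟩⟩

theorem LSX_loc_mono {b U : Finset ε} (hb : b ⊆ U) {v : (Fin n → Finset ε) → ℝ} (h : Loc b v) :
    Loc U v := by
  intro C
  rw [h C, h fun i => C i ∩ U]
  congr 1
  funext i
  rw [inter_assoc, inter_eq_right.2 hb]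

theorem Ls_congr {g : Finset ε} {f f' : ε → ℕ → ℝ} {c c' : (Fin n → Finset ε) → ℝ} {X : ε → W n}
    (hf : ∀ e ∈ g, f e = f' e)
    (hc : ∀ C, (∀ i, C i ⊆ g) → (∀ e ∈ g, f e (oc C {e}) ≠ 0) → c C = c' C) :
    Ls g f c X = Ls g f' c' X := by
  unfold Ls
  refine sum_congr rfl fun C hC => ?_
  have hC' := LSX_mem.1 hC
  have h1 : ∏ e ∈ g, f e (oc C {e}) = ∏ e ∈ g, f' e (oc C {e}) :=
    prod_congr rfl fun e he => by rw [hf e he]
  by_cases h : ∀ e ∈ g, f e (oc C {e}) ≠ 0
  · rw [hc C hC' h, h1]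
  · push Not at h
    obtain ⟨e, he, h2⟩ := h
    have h3 : ∏ e ∈ g, f e (oc C {e}) = 0 := prod_eq_zero he h2
    rw [← h1, h3, mul_zero, mul_zero]

theorem Ls_union {g₁ g₂ : Finset ε} (hd : Disjoint g₁ g₂) (f : ε → ℕ → ℝ)
    {c₁ c₂ : (Fin n → Finset ε) → ℝ} (h1 : Loc g₁ c₁) (h2 : Loc g₂ c₂) (X : ε → W n) :
    Ls g₁ f c₁ X * Ls g₂ f c₂ X = Ls (g₁ ∪ g₂) f (fun C => c₁ C * c₂ C) X := by
  unfold Ls
  rw [sum_mul_sum, ← sum_product']
  have e1 : ∀ {A B : Finset ε}, A ⊆ g₁ → B ⊆ g₂ → (A ∪ B) ∩ g₁ = A := by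
    intro A B hA hB
    ext x
    rw [mem_inter, mem_union]
    constructor
    · rintro ⟨h | h, h'⟩
      · exact h
      · exact absurd (hB h) (disjoint_left.1 hd h')
    · exact fun h => ⟨Or.inl h, hA h⟩
  have e2 : ∀ {A B : Finset ε}, A ⊆ g₁ → B ⊆ g₂ → (A ∪ B) ∩ g₂ = B := by
    intro A B hA hB
    ext x
    rw [mem_inter, mem_union]
    constructor
    · rintro ⟨h | h, h'⟩
      · exact absurd h' (disjoint_left.1 hd (hA h))
      · exact h
    · exact fun h => ⟨Or.inr h, hB h⟩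
  refine sum_nbij' (fun p => fun i => p.1 i ∪ p.2 i)
    (fun C => (fun i => C i ∩ g₁, fun i => C i ∩ g₂)) ?_ ?_ ?_ ?_ ?_
  · intro p hp
    obtain ⟨ha, hb⟩ := mem_product.1 hp
    exact LSX_mem.2 fun i => union_subset_union (LSX_mem.1 ha i) (LSX_mem.1 hb i)
  · intro C _
    exact mem_product.2 ⟨LSX_mem.2 fun i => inter_subset_right,
      LSX_mem.2 fun i => inter_subset_right⟩
  · intro p hp
    obtain ⟨ha, hb⟩ := mem_product.1 hp
    refine Prod.ext ?_ ?_
    · funext i
      exact e1 (LSX_mem.1 ha i) (LSX_mem.1 hb i)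
    · funext i
      exact e2 (LSX_mem.1 ha i) (LSX_mem.1 hb i)
  · intro C hC
    funext i
    change C i ∩ g₁ ∪ C i ∩ g₂ = C i
    rw [← inter_union_distrib_left]
    exact inter_eq_left.2 (LSX_mem.1 hC i)
  · intro p hp
    obtain ⟨ha, hb⟩ := mem_product.1 hp
    have ha' := LSX_mem.1 ha
    have hb' := LSX_mem.1 hb
    have k1 : c₁ (fun i => p.1 i ∪ p.2 i) = c₁ p.1 := by
      rw [h1 fun i => p.1 i ∪ p.2 i]
      congr 1
      funext i
      exact e1 (ha' i) (hb' i)
    have k2 : c₂ (fun i => p.1 i ∪ p.2 i) = c₂ p.2 := by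
      rw [h2 fun i => p.1 i ∪ p.2 i]
      congr 1
      funext i
      exact e2 (ha' i) (hb' i)
    have k3 : ∏ e ∈ g₁, f e (oc (fun i => p.1 i ∪ p.2 i) {e}) = ∏ e ∈ g₁, f e (oc p.1 {e}) := by
      refine prod_congr rfl fun e he => ?_
      rw [LSX_oc_congr (C' := p.1) fun i => ?_]
      rw [mem_union]
      exact ⟨fun h => h.resolve_right fun h' => disjoint_left.1 hd he (hb' i h'), Or.inl⟩
    have k4 : ∏ e ∈ g₂, f e (oc (fun i => p.1 i ∪ p.2 i) {e}) = ∏ e ∈ g₂, f e (oc p.2 {e}) := by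
      refine prod_congr rfl fun e he => ?_
      rw [LSX_oc_congr (C' := p.2) fun i => ?_]
      rw [mem_union]
      exact ⟨fun h => h.resolve_left fun h' => disjoint_left.1 hd (ha' i h') he, Or.inr⟩
    have k5 : ∏ i, ∏ e ∈ p.1 i ∪ p.2 i, sg (X e i)
        = (∏ i, ∏ e ∈ p.1 i, sg (X e i)) * ∏ i, ∏ e ∈ p.2 i, sg (X e i) := by
      rw [← prod_mul_distrib]
      refine prod_congr rfl fun i _ => ?_
      exact prod_union (disjoint_of_subset_left (ha' i) (disjoint_of_subset_right (hb' i) hd))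
    simp only
    rw [k1, k2, prod_union hd, k3, k4, k5]
    ring

theorem LSX_empty (f : ε → ℕ → ℝ) (c : (Fin n → Finset ε) → ℝ) (X : ε → W n) :
    Ls ∅ f c X = c fun _ => ∅ := by
  unfold Ls
  have h1 : Fintype.piFinset (fun _ : Fin n => (∅ : Finset ε).powerset) = {fun _ => ∅} := by
    ext C
    rw [LSX_mem, mem_singleton]
    constructor
    · intro h
      funext i
      exact subset_empty.1 (h i)
    · rintro rfl i
      exact subset_rfl
  rw [h1, sum_singleton, prod_empty]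
  simp

theorem prod_Ls (π : Finset (Finset ε)) (hπ : ∀ b ∈ π, ∀ b' ∈ π, b ≠ b' → Disjoint b b')
    (f : ε → ℕ → ℝ) {v : Finset ε → (Fin n → Finset ε) → ℝ} (hv : ∀ b ∈ π, Loc b (v b))
    (X : ε → W n) :
    ∏ b ∈ π, Ls b f (v b) X = Ls (π.biUnion id) f (fun C => ∏ b ∈ π, v b C) X := by
  induction π using Finset.induction_on with
  | empty => rw [prod_empty, biUnion_empty, LSX_empty, prod_empty]
  | insert b π hb ih =>
    rw [prod_insert hb, ih (fun a ha a' ha' => hπ a (mem_insert_of_mem ha) a' (mem_insert_of_mem ha'))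
      (fun a ha => hv a (mem_insert_of_mem ha)), biUnion_insert, id_eq, Ls_union]
    · refine Ls_congr (fun _ _ => rfl) fun C _ _ => ?_
      rw [prod_insert hb]
    · rw [disjoint_biUnion_right]
      intro a ha
      refine hπ b (mem_insert_self b π) a (mem_insert_of_mem ha) ?_
      rintro rfl
      exact hb ha
    · exact hv b (mem_insert_self b π)
    · intro C
      refine prod_congr rfl fun a ha => ?_
      exact LSX_loc_mono (subset_biUnion_of_mem id ha) (hv a (mem_insert_of_mem ha)) C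

theorem sexp_Ls (g : Finset ε) (f : ε → ℕ → ℝ) {v : Finset ε → (Fin n → Finset ε) → ℝ}
    (hv : ∀ b ⊆ g, Loc b (v b)) (X : ε → W n) :
    sexp (fun b => Ls b f (v b) X) g = Ls g f (fun C => sexp (fun b => v b C) g) X := by
  have h1 : sexp (fun b => Ls b f (v b) X) g
      = ∑ π ∈ parts g, Ls g f (fun C => ∏ b ∈ π, v b C) X := by
    unfold sexp
    refine sum_congr rfl fun π hπ => ?_
    obtain ⟨h2, h3, h4⟩ := mem_parts.1 hπ
    obtain ⟨h5, -, -, -⟩ := mem_parts'.1 hπ
    rw [prod_Ls π h3 f (fun b hb => hv b (h5 b hb)) X, h4]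
  rw [h1]
  unfold Ls sexp
  rw [sum_comm]
  refine sum_congr rfl fun C _ => ?_
  rw [sum_mul, sum_mul]

theorem LSX_zm2 (a : ZMod 2) : a = 0 ∨ a = 1 := by
  revert a
  decide

theorem LSX_wt (C : Fin n → Finset ε) (e : ε) : oc C {e} = wt (lab C e) := by
  rw [LSX_oc]
  unfold wt
  congr 1
  refine filter_congr fun i _ => ?_
  unfold lab
  by_cases h : e ∈ C i
  · rw [if_pos h]
    exact ⟨fun _ => one_ne_zero, fun _ => h⟩
  · rw [if_neg h]
    exact ⟨fun h' => absurd h' h, fun h' => absurd rfl h'⟩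

theorem LSX_sg0 : sg 0 = 1 := by
  unfold sg
  rw [if_pos rfl]

theorem LSX_lab (C : Fin n → Finset ε) (e : ε) (i : Fin n) (x : ZMod 2) :
    sg (lab C e i * x) = if e ∈ C i then sg x else 1 := by
  unfold lab
  by_cases h : e ∈ C i
  · rw [if_pos h, if_pos h, one_mul]
  · rw [if_neg h, if_neg h, zero_mul, LSX_sg0]

theorem LSX_chw {g : Finset ε} {C : Fin n → Finset ε} (hC : ∀ i, C i ⊆ g) (X : ε → W n) :
    ∏ i, ∏ e ∈ C i, sg (X e i) = ∏ e ∈ g, chw (lab C e) (X e) := by
  unfold chw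
  rw [prod_comm]
  refine prod_congr rfl fun i _ => ?_
  simp_rw [LSX_lab]
  rw [prod_ite_mem, inter_eq_right.2 (hC i)]

theorem Ls_single (e : ε) (f : ε → ℕ → ℝ) (X : ε → W n) :
    Ls {e} f (fun _ => 1) X = ∑ w : W n, f e (wt w) * chw w (X e) := by
  unfold Ls
  refine sum_nbij' (fun C => lab C e) (fun w => fun i => if w i = 1 then {e} else ∅) ?_ ?_ ?_ ?_ ?_
  · intro C _
    exact mem_univ _
  · intro w _
    refine LSX_mem.2 fun i => ?_
    split_ifs
    · exact subset_rfl
    · exact empty_subset _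
  · intro C hC
    funext i
    unfold lab
    have h1 := LSX_mem.1 hC i
    by_cases h : e ∈ C i
    · rw [if_pos h, if_pos rfl]
      exact (subset_antisymm h1 (singleton_subset_iff.2 h)).symm
    · rw [if_neg h, if_neg (by decide)]
      symm
      rw [eq_empty_iff_forall_notMem]
      intro x hx
      have h2 := mem_singleton.1 (h1 hx)
      rw [h2] at hx
      exact h hx
  · intro w _
    funext i
    change (if e ∈ (if w i = 1 then ({e} : Finset ε) else ∅) then (1 : ZMod 2) else 0) = w i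
    rcases LSX_zm2 (w i) with h | h
    · rw [h, if_neg (by decide : ¬ (0 : ZMod 2) = 1), if_neg (notMem_empty _)]
    · rw [h, if_pos rfl, if_pos (mem_singleton_self e)]
  · intro C hC
    rw [prod_singleton, one_mul, LSX_wt, LSX_chw (LSX_mem.1 hC), prod_singleton]

theorem Ls_chw (g : Finset ε) (f : ε → ℕ → ℝ) (c : (Fin n → Finset ε) → ℝ) (X : ε → W n) :
    Ls g f c X = ∑ C ∈ Fintype.piFinset (fun _ : Fin n => g.powerset),
      c C * (∏ e ∈ g, f e (oc C {e})) * ∏ e ∈ g, chw (lab C e) (X e) := by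
  unfold Ls
  refine sum_congr rfl fun C hC => ?_
  rw [LSX_chw (LSX_mem.1 hC)]

theorem LSX_prod (g : Finset ε) (f : ε → ℕ → ℝ) (X : ε → W n) :
    ∏ e ∈ g, Ls {e} f (fun _ => 1) X = Ls g f (fun _ => 1) X := by
  induction g using Finset.induction_on with
  | empty => rw [prod_empty, LSX_empty]
  | insert e g he ih =>
    rw [prod_insert he, ih, Ls_union (disjoint_singleton_left.2 he) f (fun _ => rfl)
      (fun _ => rfl), insert_eq]
    refine Ls_congr (fun _ _ => rfl) fun C _ _ => ?_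
    rw [one_mul]

theorem Ls_abs (g : Finset ε) (f : ε → ℕ → ℝ) {c : (Fin n → Finset ε) → ℝ} {c₀ : ℝ}
    (hc : ∀ C, |c C| ≤ c₀) :
    ∑ C ∈ Fintype.piFinset (fun _ : Fin n => g.powerset), |c C * ∏ e ∈ g, f e (oc C {e})| ≤
      c₀ * ∏ e ∈ g, ∑ w : W n, |f e (wt w)| := by
  have h1 : ∏ e ∈ g, ∑ w : W n, |f e (wt w)| =
      ∑ C ∈ Fintype.piFinset (fun _ : Fin n => g.powerset), ∏ e ∈ g, |f e (oc C {e})| := by
    have h2 := LSX_prod g (fun e m => |f e m|) (fun _ => (0 : W n))
    have h3 : ∀ e, Ls {e} (fun e m => |f e m|) (fun _ => 1) (fun _ => (0 : W n))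
        = ∑ w : W n, |f e (wt w)| := by
      intro e
      rw [Ls_single]
      refine sum_congr rfl fun w _ => ?_
      have h4 : chw w (0 : W n) = 1 := by
        unfold chw
        refine prod_eq_one fun i _ => ?_
        rw [Pi.zero_apply, mul_zero, LSX_sg0]
      rw [h4, mul_one]
    simp_rw [h3] at h2
    rw [h2]
    unfold Ls
    refine sum_congr rfl fun C _ => ?_
    have h5 : ∏ i, ∏ e ∈ C i, sg ((0 : W n) i) = 1 := by
      refine prod_eq_one fun i _ => prod_eq_one fun e _ => ?_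
      rw [Pi.zero_apply, LSX_sg0]
    rw [h5, one_mul, mul_one]
  rw [h1, mul_sum]
  refine sum_le_sum fun C _ => ?_
  rw [abs_mul, abs_prod]
  exact mul_le_mul_of_nonneg_right (hc C) (prod_nonneg fun e _ => abs_nonneg _)

theorem LSX_cf {ι : Type*} [DecidableEq ι] (k : ℕ) {g b : Finset (Sym2 ι)} (hb : b ⊆ g)
    (C : Fin n → Finset (Sym2 ι)) : cf k C b = cf k (fun i => C i ∩ g) b := by
  have h1 : Free k C b ↔ Free k (fun i => C i ∩ g) b := by
    unfold Free
    refine forall_congr' fun v => forall_congr' fun J => forall_congr' fun hJ => ?_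
    rw [LSX_oc_inter ((hJ.trans (filter_subset _ _)).trans hb)]
  unfold cf
  by_cases h : Free k C b
  · rw [if_pos h, if_pos (h1.1 h)]
  · rw [if_neg h, if_neg fun h' => h (h1.2 h')]

/-- `cf` and its cumulants depend only on the columns inside the graph. -/
theorem loc_cf {ι : Type*} [DecidableEq ι] (k : ℕ) (g : Finset (Sym2 ι)) :
    Loc (n := n) g (fun C => cf k C g) := by
  intro C
  exact LSX_cf k subset_rfl C

theorem loc_cum {ι : Type*} [DecidableEq ι] (k : ℕ) (g : Finset (Sym2 ι)) :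
    Loc (n := n) g (fun C => cum (cf k C) g) := by
  intro C
  exact cum_congr fun b hb => LSX_cf k hb C

/-- invariance under permutations of the positions -/
theorem perm_cf {ι : Type*} [DecidableEq ι] (k : ℕ) (C : Fin n → Finset (Sym2 ι))
    (σ : Equiv.Perm (Fin n)) : cf k (C ∘ σ) = cf k C := by
  funext g
  have h1 : Free k (C ∘ σ) g ↔ Free k C g := by
    unfold Free
    refine forall_congr' fun v => forall_congr' fun J => forall_congr' fun hJ => ?_
    rw [LSX_oc_perm]
  unfold cf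
  by_cases h : Free k C g
  · rw [if_pos h, if_pos (h1.2 h)]
  · rw [if_neg h, if_neg fun h' => h (h1.1 h')]

end Pool.Agent.Lib.MP_0430e4_lc.L3
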