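import Pool.Agent.Lib.MP_0430e4_lc.L3.NRM

/-!
# NRE: the norm lemma on even words

PROOF. Extend `p`, `q : (ι → Ev n) → ℝ` by zero: `p' z = p z` if `z v` is even for all `v ∈ A` (and `x v` for the other `v`), else 0. `Fintype.card (Ev n) = 2 ^ (n - 1)`, so
`(2 ^ n) ^ (|A| + |B|) = 2 ^ (|A| + |B|) * card (Ev n) ^ (|A| + |B|)`. Convenient: use `kb_iff` for both sides.
-/

set_option autoImplicit false

namespace Pool.Agent.Lib.MP_0430e4_lc.L3

open Finset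
open Lin (W wt sg)
open L2 (Ev)

/-- The words of a configuration of even words. -/
def vw {ι : Type*} {n : ℕ} (x : ι → Ev n) : ι → W n := fun v => (x v : W n)

theorem nre_card {n : ℕ} (hn : 0 < n) : (Fintype.card (Ev n) : ℝ) = 2 ^ (n - 1) := by
  rw [Fintype.card_coe]
  exact Lin.card_evW hn

open Classical in
/-- Extension by zero of a function on tuples of even words. -/
noncomputable def nre_ext {κ : Type*} {n : ℕ} (p : (κ → Ev n) → ℝ) (a : κ → W n) : ℝ :=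
  if h : ∀ v, a v ∈ Lin.evW n then p (fun v => ⟨a v, h v⟩) else 0

theorem nre_ext_vw {κ : Type*} {n : ℕ} (p : (κ → Ev n) → ℝ) (a : κ → Ev n) :
    nre_ext p (vw a) = p a := by
  have h : ∀ v, vw a v ∈ Lin.evW n := fun v => (a v).2
  unfold nre_ext
  rw [dif_pos h]
  rfl

theorem nre_ext_zero {κ : Type*} {n : ℕ} (p : (κ → Ev n) → ℝ) {a : κ → W n}
    (ha : a ∉ Set.range (vw : (κ → Ev n) → κ → W n)) : nre_ext p a = 0 := by
  unfold nre_ext
  rw [dif_neg]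
  intro h
  exact ha ⟨fun v => ⟨a v, h v⟩, rfl⟩

theorem nre_vw_inj {κ : Type*} {n : ℕ} : Function.Injective (vw : (κ → Ev n) → κ → W n) := by
  intro a b h
  funext v
  exact Subtype.ext (congrFun h v)

theorem nre_gl {ι : Type*} [DecidableEq ι] {n : ℕ} (A B : Finset ι) (x : ι → Ev n)
    (a : {v // v ∈ A} → Ev n) (b : {v // v ∈ B} → Ev n) :
    gl A B (vw x) (vw a) (vw b) = vw (gl A B x a b) := by
  funext v
  unfold vw gl
  by_cases h1 : v ∈ A
  · simp only [dif_pos h1]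
  · by_cases h2 : v ∈ B
    · simp only [dif_neg h1, dif_pos h2]
    · simp only [dif_neg h1, dif_neg h2]

theorem nre {ι : Type*} [Fintype ι] [DecidableEq ι] {n : ℕ} (hn : 0 < n) {A B : Finset ι}
    (hAB : Disjoint A B) {g : Finset (Sym2 ι)} (hg : ∀ e ∈ g, ¬ e.IsDiag) {m : ℕ}
    (hm : g.card ≤ m)
    {ε D c₀ : ℝ} (hε : 0 < ε) (hε1 : ε ≤ 1) (hD : 1 ≤ D) (hc₀ : 0 ≤ c₀) {K : ℕ}
    {f : Sym2 ι → ℕ → ℝ} {c : (Fin n → Finset (Sym2 ι)) → ℝ}
    (hf : ∀ e ∈ g, ∀ j, |f e j| ≤ (D * ε) ^ j) (hf0 : ∀ e ∈ g, ∀ j, K ≤ j → f e j = 0)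
    (hc : ∀ C, |c C| ≤ c₀) (hperm : ∀ C (σ : Equiv.Perm (Fin n)), c (C ∘ σ) = c C) {θ : ℕ}
    (hθ : ∀ C : Fin n → Finset (Sym2 ι), (∀ i, C i ⊆ g) → c C ≠ 0 →
      (∀ e ∈ g, f e (oc C {e}) ≠ 0) → (θ : ℤ) ≤ 2 * cost A B C)
    (x : ι → Ev n)
    (hx : ∀ u ∈ vs g, ∀ v ∈ vs g, u ∉ A ∪ B → v ∉ A ∪ B → u ≠ v →
      |(n : ℝ) - 2 * wt ((x u : W n) + (x v : W n))| ≤ 2 * ε * n) :
    KB A B (fun z : ι → Ev n => Ls g f c (xe (vw z)))
      ((c₀ * Lc n m K D ε) ^ 2 * 2 ^ (A.card + B.card) * ε ^ θ *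
        (Fintype.card (Ev n) : ℝ) ^ (A.card + B.card)) x := by
  have h0 := nrm hAB hg hm hε hε1 hD hc₀ hf hf0 hc hperm hθ (vw x) hx
  rw [kb_iff hAB] at h0
  rw [kb_iff hAB]
  intro p q
  have h1 := h0 (nre_ext p) (nre_ext q)
  have hp : ∑ a, nre_ext p a ^ 2 = ∑ a, p a ^ 2 := by
    symm
    refine Fintype.sum_of_injective vw nre_vw_inj _ _ ?_ ?_
    · intro a ha
      rw [nre_ext_zero p ha]
      norm_num
    · intro a
      rw [nre_ext_vw]
  have hq : ∑ b, nre_ext q b ^ 2 = ∑ b, q b ^ 2 := by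
    symm
    refine Fintype.sum_of_injective vw nre_vw_inj _ _ ?_ ?_
    · intro b hb
      rw [nre_ext_zero q hb]
      norm_num
    · intro b
      rw [nre_ext_vw]
  have hpq : (∑ a, ∑ b, Ls g f c (xe (gl A B (vw x) a b)) * nre_ext p a * nre_ext q b) =
      ∑ a, ∑ b, Ls g f c (xe (vw (gl A B x a b))) * p a * q b := by
    symm
    refine Fintype.sum_of_injective vw nre_vw_inj _ _ ?_ ?_
    · intro a ha
      refine sum_eq_zero fun b _ => ?_
      rw [nre_ext_zero p ha]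
      ring
    · intro a
      refine Fintype.sum_of_injective vw nre_vw_inj _ _ ?_ ?_
      · intro b hb
        rw [nre_ext_zero q hb]
        ring
      · intro b
        rw [nre_ext_vw, nre_ext_vw, nre_gl]
  rw [hp, hq, hpq] at h1
  refine h1.trans (le_of_eq ?_)
  have h2 : (2 : ℝ) ^ n = 2 * (Fintype.card (Ev n) : ℝ) := by
    rw [nre_card hn, ← pow_succ']
    congr 1
    omega
  rw [h2, mul_pow]
  ring

theorem card_Ev {n : ℕ} (hn : 0 < n) : (Fintype.card (Ev n) : ℝ) = 2 ^ (n - 1) :=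
  nre_card hn

end Pool.Agent.Lib.MP_0430e4_lc.L3
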