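import Pool.Agent.Lib.MP_0430e4_lc.L3.KSA
import Pool.Agent.Lib.MP_0430e4_lc.L3.FNI
import Pool.Agent.Lib.MP_0430e4_lc.L3.LSX
import Pool.Agent.Lib.MP_0430e4_lc.L3.CONN
import Pool.Agent.Lib.MP_0430e4_lc.L3.NRE

/-!
# FNC: functoriality of the weights, vanishing on bad sets

PROOF. For `τ : ι → κ` injective on `T` the map `Sym2.map τ` is injective on `ed T`, `(ed T).image (Sym2.map τ) = ed (T.image τ)`, `xe y (Sym2.map τ e) = xe (y ∘ τ) e`, `Sym2.map τ e` contains `τ v` iff `v ∈ e` (for `v ∈ T`, `e ∈ ed T`).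
`ub_map`: `Vb P y (b.image (Sym2.map τ)) = Vb P (y ∘ τ) b` for `b ⊆ ed T`: bijection of the labellings (`C i ↦ (C i).image (Sym2.map τ)`), `cum` of `cf` is transported (induction over `b`, or: `cum` is characterised by `sexp_cum`,
`cum_unique`; partitions of the image are the images of the partitions), the `Free` condition is transported. `sexp_map`: `parts` of the image. `wt_bad`: the edge `e = s(u, v)` of `T` with `x u`, `x v` not good: `P.φ (xe x e) = -1`, `P.ψ (xe x e) = -1`, so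
`ub P x b = 0` for all `b ∋ e`; `sexp_eq_zero`.
-/

set_option autoImplicit false

namespace Pool.Agent.Lib.MP_0430e4_lc.L3

open Finset
open Lin (W wt sg evW)
open L2 (Ev)

theorem fnc_mem_ed {ι : Type*} [DecidableEq ι] {S : Finset ι} {a b : ι} :
    s(a, b) ∈ ed S ↔ a ∈ S ∧ b ∈ S ∧ a ≠ b := by
  unfold ed
  rw [mem_filter, Finset.mk_mem_sym2_iff, Sym2.mk_isDiag_iff]
  tauto

theorem ed_image {ι κ : Type*} [DecidableEq ι] [DecidableEq κ] {τ : ι → κ} {T : Finset ι}
    (hτ : Set.InjOn τ T) : ed (T.image τ) = (ed T).image (Sym2.map τ) := by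
  ext e
  induction e using Sym2.ind with
  | _ x y =>
    rw [fnc_mem_ed]
    constructor
    · rintro ⟨hx, hy, hxy⟩
      obtain ⟨a, ha, rfl⟩ := mem_image.1 hx
      obtain ⟨b, hb, rfl⟩ := mem_image.1 hy
      exact mem_image.2 ⟨s(a, b), fnc_mem_ed.2 ⟨ha, hb, fun h => hxy (by rw [h])⟩,
        by rw [Sym2.map_mk]⟩
    · intro h0
      obtain ⟨e, he, h⟩ := mem_image.1 h0
      induction e using Sym2.ind with
      | _ a b =>
        obtain ⟨ha, hb, hab⟩ := fnc_mem_ed.1 he
        rw [Sym2.map_mk] at h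
        have h1 : s(τ a, τ b) ∈ ed (T.image τ) :=
          fnc_mem_ed.2 ⟨mem_image_of_mem _ ha, mem_image_of_mem _ hb, fun h' => hab (hτ ha hb h')⟩
        have h2 : s(x, y) ∈ ed (T.image τ) := h ▸ h1
        exact fnc_mem_ed.1 h2

theorem injOn_map {ι κ : Type*} [DecidableEq ι] [DecidableEq κ] {τ : ι → κ} {T : Finset ι}
    (hτ : Set.InjOn τ T) : Set.InjOn (Sym2.map τ) (ed T) := by
  intro e he e' he' h
  rw [mem_coe] at he he'
  induction e using Sym2.ind with
  | _ a b =>
    induction e' using Sym2.ind with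
    | _ c d =>
      obtain ⟨ha, hb, _⟩ := fnc_mem_ed.1 he
      obtain ⟨hc, hd, _⟩ := fnc_mem_ed.1 he'
      rw [Sym2.map_mk, Sym2.map_mk, Sym2.eq_iff] at h
      rw [Sym2.eq_iff]
      rcases h with ⟨h1, h2⟩ | ⟨h1, h2⟩
      · exact Or.inl ⟨hτ ha hc h1, hτ hb hd h2⟩
      · exact Or.inr ⟨hτ ha hd h1, hτ hb hc h2⟩

theorem fnc_xe {ι κ : Type*} [DecidableEq ι] [DecidableEq κ] {n : ℕ} (τ : ι → κ) (y : κ → W n)
    (e : Sym2 ι) : xe y (Sym2.map τ e) = xe (y ∘ τ) e := by
  induction e using Sym2.ind with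
  | _ a b => rfl

theorem fnc_mem {ι κ : Type*} [DecidableEq ι] [DecidableEq κ] {τ : ι → κ} {T : Finset ι}
    (hτ : Set.InjOn τ T) {e : Sym2 ι} (he : e ∈ ed T) {v : ι} (hv : v ∈ T)
    (h : τ v ∈ Sym2.map τ e) : v ∈ e := by
  induction e using Sym2.ind with
  | _ a b =>
    obtain ⟨ha, hb, _⟩ := fnc_mem_ed.1 he
    rw [Sym2.map_mk, Sym2.mem_iff] at h
    rw [Sym2.mem_iff]
    rcases h with h | h
    · exact Or.inl (hτ hv ha h)
    · exact Or.inr (hτ hv hb h)

theorem fnc_oc {ι κ : Type*} [DecidableEq ι] [DecidableEq κ] {n : ℕ} {m : ι → κ}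
    {b : Finset ι} (hm : Set.InjOn m b) {C : Fin n → Finset ι} (hC : ∀ i, C i ⊆ b)
    {J : Finset ι} (hJ : J ⊆ b) : oc (fun i => (C i).image m) (J.image m) = oc C J := by
  unfold oc
  congr 1
  refine filter_congr fun i _ => ?_
  have h : (C i).image m ∩ J.image m = (C i ∩ J).image m := by
    ext e
    rw [mem_inter, mem_image, mem_image, mem_image]
    constructor
    · rintro ⟨⟨a, ha, rfl⟩, ⟨a', ha', h⟩⟩
      have : a' = a := hm (hJ ha') (hC i ha) h
      subst this
      exact ⟨a', mem_inter.2 ⟨ha, ha'⟩, rfl⟩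
    · rintro ⟨a, ha, rfl⟩
      exact ⟨⟨a, (mem_inter.1 ha).1, rfl⟩, ⟨a, (mem_inter.1 ha).2, rfl⟩⟩
  rw [h, card_image_of_injOn (hm.mono (by
    intro a ha
    exact hC i (mem_inter.1 ha).1))]

theorem fnc_free {ι κ : Type*} [DecidableEq ι] [DecidableEq κ] {n : ℕ} {τ : ι → κ}
    {T : Finset ι} (hτ : Set.InjOn τ T) {b : Finset (Sym2 ι)} (hb : b ⊆ ed T)
    {C : Fin n → Finset (Sym2 ι)} (hC : ∀ i, C i ⊆ b) (k : ℕ) {h : Finset (Sym2 ι)} (hh : h ⊆ b) :
    cf k (fun i => (C i).image (Sym2.map τ)) (h.image (Sym2.map τ)) = cf k C h := by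
  have hm : Set.InjOn (Sym2.map τ) b := (injOn_map hτ).mono (by
    intro e he
    exact hb he)
  unfold cf
  have hiff : Free k (fun i => (C i).image (Sym2.map τ)) (h.image (Sym2.map τ)) ↔ Free k C h := by
    constructor
    · intro hF v J hJ hJn
      obtain ⟨e, he⟩ := hJn
      have he1 := mem_filter.1 (hJ he)
      have hJb : J ⊆ b := fun e he => hh (mem_filter.1 (hJ he)).1
      have h1 := hF (τ v) (J.image (Sym2.map τ)) (by
        intro e' he'
        obtain ⟨e, he, rfl⟩ := mem_image.1 he'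
        have he2 := mem_filter.1 (hJ he)
        refine mem_filter.2 ⟨mem_image_of_mem _ he2.1, ?_⟩
        exact Sym2.mem_map.2 ⟨v, he2.2, rfl⟩) ⟨_, mem_image_of_mem _ he⟩
      rwa [fnc_oc hm hC hJb] at h1
    · intro hF w J' hJ' hJn
      set J := h.filter (fun e => Sym2.map τ e ∈ J') with hJdef
      have hJJ : J' = J.image (Sym2.map τ) := by
        ext e'
        rw [mem_image]
        constructor
        · intro he'
          obtain ⟨e, he, rfl⟩ := mem_image.1 (mem_filter.1 (hJ' he')).1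
          exact ⟨e, mem_filter.2 ⟨he, he'⟩, rfl⟩
        · rintro ⟨e, he, rfl⟩
          exact (mem_filter.1 he).2
      have hJb : J ⊆ b := fun e he => hh (mem_filter.1 he).1
      obtain ⟨e', he'⟩ := hJn
      have h0 := mem_filter.1 (hJ' he')
      obtain ⟨e, he, rfl⟩ := mem_image.1 h0.1
      obtain ⟨v, hv, hvw⟩ := Sym2.mem_map.1 h0.2
      have hvT : v ∈ T := by
        have h3 := hb (hh he)
        induction e using Sym2.ind with
        | _ a c =>
          obtain ⟨ha, hc, _⟩ := fnc_mem_ed.1 h3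
          rcases Sym2.mem_iff.1 hv with rfl | rfl
          · exact ha
          · exact hc
      have h4 : J ⊆ dl h v := by
        intro e1 he1
        have h5 := mem_filter.1 he1
        refine mem_filter.2 ⟨h5.1, ?_⟩
        have h6 := (mem_filter.1 (hJ' h5.2)).2
        rw [← hvw] at h6
        exact fnc_mem hτ (hb (hh h5.1)) hvT h6
      have h7 := hF v J h4 ⟨e, mem_filter.2 ⟨he, he'⟩⟩
      rw [hJJ, fnc_oc hm hC hJb]
      exact h7
  by_cases hF : Free k C h
  · rw [if_pos hF, if_pos (hiff.2 hF)]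
  · rw [if_neg hF, if_neg (fun h' => hF (hiff.1 h'))]

theorem fnc_Vb {ι κ : Type*} [DecidableEq ι] [DecidableEq κ] {n : ℕ} (P : Pm n) {τ : ι → κ}
    {T : Finset ι} (hτ : Set.InjOn τ T) (y : κ → W n) {b : Finset (Sym2 ι)} (hb : b ⊆ ed T) :
    Vb P y (b.image (Sym2.map τ)) = Vb P (y ∘ τ) b := by
  have hm : Set.InjOn (Sym2.map τ) b := (injOn_map hτ).mono (by
    intro e he
    exact hb he)
  unfold Vb Ls
  symm
  refine Finset.sum_bij (fun C _ => fun i => (C i).image (Sym2.map τ)) ?_ ?_ ?_ ?_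
  · intro C hC
    rw [Fintype.mem_piFinset] at hC ⊢
    intro i
    exact mem_powerset.2 (image_subset_image (mem_powerset.1 (hC i)))
  · intro C hC C' hC' h
    rw [Fintype.mem_piFinset] at hC hC'
    funext i
    have h1 : (C i).image (Sym2.map τ) = (C' i).image (Sym2.map τ) := congrFun h i
    have hCi := mem_powerset.1 (hC i)
    have hCi' := mem_powerset.1 (hC' i)
    ext e
    constructor
    · intro he
      obtain ⟨e', he', h2⟩ := mem_image.1 (h1 ▸ mem_image_of_mem (Sym2.map τ) he)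
      rwa [← hm (hCi' he') (hCi he) h2]
    · intro he
      obtain ⟨e', he', h2⟩ := mem_image.1 (h1.symm ▸ mem_image_of_mem (Sym2.map τ) he)
      rwa [← hm (hCi he') (hCi' he) h2]
  · intro C' hC'
    rw [Fintype.mem_piFinset] at hC'
    refine ⟨fun i => b.filter (fun e => Sym2.map τ e ∈ C' i), ?_, ?_⟩
    · rw [Fintype.mem_piFinset]
      intro i
      exact mem_powerset.2 (filter_subset _ _)
    · funext i
      ext e'
      rw [mem_image]
      constructor
      · rintro ⟨e, he, rfl⟩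
        exact (mem_filter.1 he).2
      · intro he'
        obtain ⟨e, he, rfl⟩ := mem_image.1 (mem_powerset.1 (hC' i) he')
        exact ⟨e, mem_filter.2 ⟨he, he'⟩, rfl⟩
  · intro C hC
    rw [Fintype.mem_piFinset] at hC
    have hC' : ∀ i, C i ⊆ b := fun i => mem_powerset.1 (hC i)
    congr 1
    · congr 1
      · refine (cum_image hm (cf P.k (fun i => (C i).image (Sym2.map τ))) (cf P.k C)
          (cf_empty _ _) ?_).symm
        intro h hh
        exact fnc_free hτ hb hC' P.k hh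
      · rw [prod_image hm]
        refine prod_congr rfl fun e he => ?_
        have h1 := fnc_oc hm hC' (singleton_subset_iff.2 he)
        rw [image_singleton] at h1
        rw [h1]
    · refine prod_congr rfl fun i _ => ?_
      rw [prod_image (hm.mono (by
        intro e he
        exact hC' i he))]
      refine prod_congr rfl fun e _ => ?_
      rw [fnc_xe]

theorem ub_map {ι κ : Type*} [DecidableEq ι] [DecidableEq κ] {n : ℕ} (P : Pm n) {τ : ι → κ}
    {T : Finset ι} (hτ : Set.InjOn τ T) (y : κ → W n) {b : Finset (Sym2 ι)} (hb : b ⊆ ed T) :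
    ub P y (b.image (Sym2.map τ)) = ub P (y ∘ τ) b := by
  have hm : Set.InjOn (Sym2.map τ) b := (injOn_map hτ).mono (by
    intro e he
    exact hb he)
  unfold ub
  rw [card_image_of_injOn hm, fnc_Vb P hτ y hb, prod_image hm, prod_image hm]
  congr 1
  · refine prod_congr rfl fun e _ => ?_
    rw [fnc_xe]
  · congr 1
    refine prod_congr rfl fun e _ => ?_
    rw [fnc_xe]

theorem wt_map {ι κ : Type*} [DecidableEq ι] [DecidableEq κ] {n : ℕ} (P : Pm n) {τ : ι → κ}
    {T : Finset ι} (hτ : Set.InjOn τ T) (y : κ → W n) :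
    sexp (ub P y) (ed (T.image τ)) = sexp (ub P (y ∘ τ)) (ed T) := by
  rw [ed_image hτ]
  exact sexp_image (injOn_map hτ) _ _ (fun b hb => ub_map P hτ y hb)

theorem fnc_add_mem {n : ℕ} {x y : W n} (hx : x ∈ evW n) (hy : y ∈ evW n) : x + y ∈ evW n := by
  unfold evW at *
  rw [mem_filter] at *
  refine ⟨mem_univ _, ?_⟩
  simp only [Pi.add_apply, sum_add_distrib, hx.2, hy.2, add_zero]

/-- a bad pair -/
theorem wt_bad {ι : Type*} [DecidableEq ι] {n d : ℕ} {P : Pm n}
    (hφ : ∀ w ∈ evW n, ¬ (d ≤ wt w ∧ wt w + d ≤ n) → P.φ w = -1 ∧ P.ψ w = -1) {x : ι → Ev n}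
    {T : Finset ι} {u v : ι} (hu : u ∈ T) (hv : v ∈ T) (huv : u ≠ v)
    (hbad : ¬ okw n d (x u) (x v)) : sexp (ub P (vw x)) (ed T) = 0 := by
  refine sexp_eq_zero (fnc_mem_ed.2 ⟨hu, hv, huv⟩) ?_
  intro b _ he
  have h1 := hφ ((x u : W n) + (x v : W n)) (fnc_add_mem (x u).2 (x v).2) hbad
  have h2 : xe (vw x) s(u, v) = (x u : W n) + (x v : W n) := rfl
  unfold ub
  split_ifs
  · refine prod_eq_zero he ?_
    rw [h2, h1.1]
    norm_num
  · have h3 : ∏ e ∈ b, (1 + P.ψ (xe (vw x) e)) = 0 := by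
      refine prod_eq_zero he ?_
      rw [h2, h1.2]
      norm_num
    rw [h3, mul_zero]

end Pool.Agent.Lib.MP_0430e4_lc.L3
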