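import Pool.Agent.Lib.MP_0430e4_lc.L3.FNA
import Pool.Agent.Lib.MP_0430e4_lc.L3.FNB
import Pool.Agent.Lib.MP_0430e4_lc.L3.FNE
import Pool.Agent.Lib.MP_0430e4_lc.L3.FNC2
import Pool.Agent.Lib.MP_0430e4_lc.Lin.NEAR
import Pool.Agent.Lib.MP_0430e4_lc.Lin.NUM
import Pool.Agent.Lib.MP_0430e4_lc.L2.OPB

/-!
# FND: the function `φ`

PROOF of `fun_phi`. `L = ell (1/2 - ε) * log 2`, `l = log (1 / ε)`, `ε² l ≤ L ≤ 3 ε² l` (`Lin.ell_near`), so `k ≤ 3 ε² n`. If `k = 0` there is nothing to remove. Otherwise `level1_two` with `R = (1 - z/4) L` gives `a₁`; the square sum of its coefficients of weight `≤ k - 1` is at most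
`(∑ (q ≤ k - 1) C(n, q)) * exp (- 2 n R) =: θ²`; `∑ (q ≤ k-1) C(n,q) ≤ exp (x (1 + log (n / x)))` for every real `x ≥ k - 1`, `0 < x ≤ n`, with `x = (1 - z) (L / l) n ≥ ε² n / 2`:
`≤ exp ((1 - z) (L/l) n (1 + log (2 / ε²))) = exp ((1 - z) L n (2 + (1 + log 2) / l))`. So `θ² ≤ exp (- z L n)` if `l` is large. `fnb_lag` (`c = 4`), `fnb_choose`: `Lm / pm ≤ exp ((C + 1) ε² n) ≤ exp (z L n / 4)` if `l ≥ 4 (C + 1) / z`. `fnc2`: `|b| ≤ exp (- z L n / 4) ≤ 1 / 4`,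
`b` lives on the nodes, which are good weights (`⌈(1/2 - ε) n⌉₊ ≤ n/2 - ε n / 4` and `⌈(1/2 - ε) n⌉₊ ≤ n / 2` for large `n`). `a = a₁ + b`.
-/

set_option autoImplicit false

namespace Pool.Agent.Lib.MP_0430e4_lc.L3

open Finset Filter
open Lin (W wt chw evW EW al flat SymW lag)

/-- The tail of the binomial coefficients, real threshold. -/
theorem fnd_sum {n k : ℕ} {x : ℝ} (hx : 0 < x) (hk : (k : ℝ) ≤ x) (hxn : x ≤ n) :
    ∑ q ∈ range (k + 1), (n.choose q : ℝ) ≤ Real.exp (x * (1 + Real.log (n / x))) := by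
  have hn0 : (0 : ℝ) < n := lt_of_lt_of_le hx hxn
  obtain ⟨t, ht⟩ : ∃ t : ℝ, t = x / n := ⟨_, rfl⟩
  have ht0 : 0 < t := by rw [ht]; positivity
  have ht1 : t ≤ 1 := by rw [ht, div_le_one hn0]; exact hxn
  have hkn : k ≤ n := by exact_mod_cast hk.trans hxn
  have h1 : ∀ q ∈ range (k + 1), (n.choose q : ℝ) ≤ t ^ (-x) * (t ^ q * (n.choose q : ℝ)) := by
    intro q hq
    rw [mem_range] at hq
    have hqx : (q : ℝ) ≤ x := le_trans (by exact_mod_cast Nat.lt_succ_iff.1 hq) hk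
    have h2 : 1 ≤ t ^ (-x) * t ^ q := by
      rw [← Real.rpow_natCast t q, ← Real.rpow_add ht0]
      exact Real.one_le_rpow_of_pos_of_le_one_of_nonpos ht0 ht1 (by linarith)
    have h3 : (0 : ℝ) ≤ n.choose q := by positivity
    calc (n.choose q : ℝ) = 1 * n.choose q := (one_mul _).symm
      _ ≤ (t ^ (-x) * t ^ q) * n.choose q := mul_le_mul_of_nonneg_right h2 h3
      _ = _ := by ring
  have h4 : ∑ q ∈ range (k + 1), t ^ q * (n.choose q : ℝ) ≤ (t + 1) ^ n := by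
    rw [add_pow]
    have : ∑ q ∈ range (k + 1), t ^ q * (n.choose q : ℝ)
        ≤ ∑ q ∈ range (n + 1), t ^ q * (n.choose q : ℝ) := by
      refine sum_le_sum_of_subset_of_nonneg ?_ fun i _ _ => by positivity
      intro i hi
      rw [mem_range] at hi ⊢
      omega
    refine this.trans (le_of_eq (sum_congr rfl fun q _ => ?_))
    rw [one_pow, mul_one]
  have h5 : (t + 1) ^ n ≤ Real.exp x := by
    have h6 : (t + 1) ^ n ≤ Real.exp t ^ n :=
      pow_le_pow_left₀ (by linarith) (Real.add_one_le_exp t) n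
    refine h6.trans (le_of_eq ?_)
    rw [← Real.exp_nat_mul, ht]
    congr 1
    field_simp
  have h7 : t ^ (-x) = Real.exp (x * Real.log (n / x)) := by
    rw [Real.rpow_def_of_pos ht0, ht]
    congr 1
    rw [Real.log_div hx.ne' hn0.ne', Real.log_div hn0.ne' hx.ne']
    ring
  calc ∑ q ∈ range (k + 1), (n.choose q : ℝ)
      ≤ ∑ q ∈ range (k + 1), t ^ (-x) * (t ^ q * (n.choose q : ℝ)) := sum_le_sum h1
    _ = t ^ (-x) * ∑ q ∈ range (k + 1), t ^ q * (n.choose q : ℝ) := by rw [mul_sum]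
    _ ≤ t ^ (-x) * Real.exp x := by
        refine mul_le_mul_of_nonneg_left (h4.trans h5) ?_
        positivity
    _ = _ := by
        rw [h7, ← Real.exp_add]
        congr 1
        ring

/-- `exp (- n c) ≤ 1 / 4` for large `n`. -/
theorem fnd_small {c : ℝ} (hc : 0 < c) : ∀ᶠ n : ℕ in atTop, Real.exp (-(n * c)) ≤ 1 / 4 := by
  have h1 : Tendsto (fun n : ℕ => Real.exp (-((n : ℝ) * c))) atTop (nhds 0) := by
    refine Real.tendsto_exp_atBot.comp ?_
    refine tendsto_neg_atTop_atBot.comp ?_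
    exact (tendsto_natCast_atTop_atTop (R := ℝ)).atTop_mul_const hc
  exact (h1.eventually (ge_mem_nhds (by norm_num : (0 : ℝ) < 1 / 4))).mono fun n h => h

/-- The numerical part: the size of the correction. -/
theorem fnd_num {z ε L l C n x : ℝ} (hz : 0 < z) (hz1 : z ≤ 1 / 2) (hε : 0 < ε) (hl : 1 ≤ l)
    (hleq : l = Real.log (1 / ε)) (hlz : 4 / z ≤ l)
    (hL1 : ε ^ 2 * l ≤ L) (hlC : 4 * (C + 1) / z ≤ l) (hn : 0 < n)
    (hx : x = (1 - z) * (L / l) * n) :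
    x * (1 + Real.log (n / x)) / 2 - (1 - z / 4) * L * n + (C + 1) * ε ^ 2 * n
      ≤ -(z / 4 * L * n) := by
  have hl0 : 0 < l := by linarith
  have hL0 : 0 < L := lt_of_lt_of_le (by positivity) hL1
  have hx0 : 0 < x := by
    rw [hx]
    have : 0 < 1 - z := by linarith
    positivity
  have h1 : ε ^ 2 ≤ L / l := by rw [le_div_iff₀ hl0]; exact hL1
  have h2 : n / x ≤ 2 / ε ^ 2 := by
    rw [div_le_div_iff₀ hx0 (by positivity), hx]
    have h3 : (1 / 2) * ε ^ 2 ≤ (1 - z) * (L / l) :=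
      mul_le_mul (by linarith) h1 (by positivity) (by linarith)
    nlinarith
  have h3 : Real.log (n / x) ≤ 1 + 2 * l := by
    refine (Real.log_le_log (by positivity) h2).trans ?_
    rw [Real.log_div (by norm_num) (by positivity), Real.log_pow, hleq, one_div, Real.log_inv]
    have := Real.log_two_lt_d9
    push_cast
    linarith
  have h4 : x * (1 + Real.log (n / x)) ≤ (1 - z) * L * n * (2 + 2 / l) := by
    calc x * (1 + Real.log (n / x)) ≤ x * (2 + 2 * l) :=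
          mul_le_mul_of_nonneg_left (by linarith) hx0.le
      _ = _ := by
          rw [hx]
          field_simp
          ring
  have h5 : 2 / l ≤ z / 2 := by
    rw [div_le_iff₀ hl0]
    rw [div_le_iff₀ hz] at hlz
    linarith
  have h6 : (1 - z) * L * n * (2 + 2 / l) ≤ (1 - z) * L * n * (2 + z / 2) := by
    refine mul_le_mul_of_nonneg_left (by linarith) ?_
    have : 0 < 1 - z := by linarith
    positivity
  have h7 : (C + 1) * ε ^ 2 * n ≤ z / 4 * L * n := by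
    refine mul_le_mul_of_nonneg_right ?_ hn.le
    rw [div_le_iff₀ hz] at hlC
    calc (C + 1) * ε ^ 2 ≤ (z / 4 * l) * ε ^ 2 :=
          mul_le_mul_of_nonneg_right (by linarith) (by positivity)
      _ = z / 4 * (ε ^ 2 * l) := by ring
      _ ≤ z / 4 * L := mul_le_mul_of_nonneg_left hL1 (by positivity)
  have h8 : 0 < z * z * (L * n) := by positivity
  nlinarith [mul_pos hz (mul_pos hL0 hn)]

theorem fun_phi {z : ℝ} (hz : 0 < z) (hz1 : z ≤ 1 / 2) : ∃ ε₀ : ℝ, 0 < ε₀ ∧ ∀ ε : ℝ, 0 < ε →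
    ε < ε₀ → ∀ᶠ n : ℕ in atTop, Even n → ∀ k : ℕ,
      (k : ℝ) ≤ (1 - z) * (Tensor.ell (1 / 2 - ε) * Real.log 2 / Real.log (1 / ε)) * n →
      ∃ a : ℕ → ℝ,
        (∀ w, (w < ⌈(1 / 2 - ε) * n⌉₊ ∨ n < w + ⌈(1 / 2 - ε) * n⌉₊) → a w = -1) ∧
        (∀ w, ⌈(1 / 2 - ε) * n⌉₊ ≤ w → w + ⌈(1 / 2 - ε) * n⌉₊ ≤ n → |a w| ≤ 1 / 2) ∧
        ∀ w : W n, wt w < k → al (fun x => a (wt x)) w = 0 := by
  obtain ⟨C, e1, hC, he1, hlag⟩ := fnb_lag (c := 4) (by norm_num)
  obtain ⟨e2, he2, hch⟩ := fnb_choose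
  obtain ⟨e3, he3, he3', hell⟩ := Lin.ell_near
  obtain ⟨M, hM⟩ : ∃ M : ℝ, M = max 1 (max (4 / z) (4 * (C + 1) / z)) := ⟨_, rfl⟩
  refine ⟨min (min e1 e2) (min e3 (min (1 / 8) (Real.exp (-M)))), ?_, ?_⟩
  · refine lt_min (lt_min he1 he2) (lt_min he3 (lt_min (by norm_num) (Real.exp_pos _)))
  intro ε hε hεlt
  have hε1 : ε < e1 := hεlt.trans_le ((min_le_left _ _).trans (min_le_left _ _))
  have hε2 : ε < e2 := hεlt.trans_le ((min_le_left _ _).trans (min_le_right _ _))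
  have hε3 : ε < e3 := hεlt.trans_le ((min_le_right _ _).trans (min_le_left _ _))
  have hε4 : ε < 1 / 8 :=
    hεlt.trans_le ((min_le_right _ _).trans ((min_le_right _ _).trans (min_le_left _ _)))
  have hε5 : ε < Real.exp (-M) :=
    hεlt.trans_le ((min_le_right _ _).trans ((min_le_right _ _).trans (min_le_right _ _)))
  obtain ⟨l, hl⟩ : ∃ l : ℝ, l = Real.log (1 / ε) := ⟨_, rfl⟩
  have hlM : M ≤ l := by
    rw [hl, one_div, Real.log_inv]
    have := Real.log_lt_log hε hε5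
    rw [Real.log_exp] at this
    linarith
  have hl1 : 1 ≤ l := (by rw [hM]; exact le_max_left _ _ : (1 : ℝ) ≤ M).trans hlM
  have hlz : 4 / z ≤ l :=
    (by rw [hM]; exact (le_max_left _ _).trans (le_max_right _ _) : (4 / z : ℝ) ≤ M).trans hlM
  have hlC : 4 * (C + 1) / z ≤ l :=
    (by rw [hM]; exact (le_max_right _ _).trans (le_max_right _ _) :
      (4 * (C + 1) / z : ℝ) ≤ M).trans hlM
  obtain ⟨L, hLdef⟩ : ∃ L : ℝ, L = Tensor.ell (1 / 2 - ε) * Real.log 2 := ⟨_, rfl⟩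
  obtain ⟨hL1, hL2⟩ := hell ε hε hε3
  rw [← hl, ← hLdef] at hL1 hL2
  have hl0 : 0 < l := by linarith
  have hL0 : 0 < L := lt_of_lt_of_le (by positivity) hL1
  obtain ⟨R, hR⟩ : ∃ R : ℝ, R = (1 - z / 4) * L := ⟨_, rfl⟩
  have hRL : R < Tensor.ell (1 / 2 - ε) * Real.log 2 := by
    rw [← hLdef, hR]
    nlinarith [mul_pos hz hL0]
  obtain ⟨ε', hε', hlev⟩ := level1_two (δ := 1 / 2 - ε) (by linarith) (by linarith) hRL
  filter_upwards [hlev, hlag ε hε hε1, hch ε hε hε2, fnd_small hε',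
    fnd_small (c := z / 4 * L) (by positivity), eventually_ge_atTop (⌈2 / ε⌉₊ + 1)]
    with n hlev hlag hch hs1 hs2 hnbig
  intro hev k hk
  rw [← hLdef, ← hl] at hk
  obtain ⟨a₁, ha1, ha2, ha3⟩ := hlev hev
  have hnε : 2 / ε ≤ n := by
    have h1 : 2 / ε ≤ ⌈2 / ε⌉₊ := Nat.le_ceil _
    have h2 : ((⌈2 / ε⌉₊ : ℕ) : ℝ) ≤ n := by exact_mod_cast (by omega : ⌈2 / ε⌉₊ ≤ n)
    linarith
  have hn0 : (0 : ℝ) < n := lt_of_lt_of_le (by positivity) hnε
  have hnε' : 2 ≤ ε * n := by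
    rw [div_le_iff₀ hε] at hnε
    linarith
  have hd : ((⌈(1 / 2 - ε) * n⌉₊ : ℕ) : ℝ) < (1 / 2 - ε) * n + 1 :=
    Nat.ceil_lt_add_one (by
      have : 0 < 1 / 2 - ε := by linarith
      positivity)
  rcases Nat.eq_zero_or_pos k with hk0 | hk0
  · refine ⟨a₁, ha1, fun w hw1 hw2 => ?_, fun w hw => by omega⟩
    have := ha2 w hw1 hw2
    linarith
  -- the low frequencies
  obtain ⟨k', rfl⟩ : ∃ k', k = k' + 1 := ⟨k - 1, by omega⟩
  have hx0 : 0 < (1 - z) * (L / l) * n := by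
    have : 0 < 1 - z := by linarith
    positivity
  have hLl : L / l ≤ 3 * ε ^ 2 := by
    rw [div_le_iff₀ hl0]
    linarith
  have hx3 : (1 - z) * (L / l) * n ≤ 3 * ε ^ 2 * n := by
    refine mul_le_mul_of_nonneg_right ?_ hn0.le
    have : 0 < L / l := by positivity
    nlinarith
  have hk'x : (k' : ℝ) ≤ (1 - z) * (L / l) * n := by
    push_cast at hk
    linarith
  have hε2' : ε ^ 2 ≤ 1 / 64 := by nlinarith
  have hk'4 : (k' : ℝ) ≤ 4 * ε ^ 2 * n := by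
    have : 0 < ε ^ 2 * n := by positivity
    linarith
  obtain ⟨x, hxinj, hxev, hxr, hLag⟩ := hlag k' hk'4
  have hk'n : 2 * k' < n := by
    have h4 := mul_le_mul_of_nonneg_right hε2' hn0.le
    have h1 : (2 : ℝ) * k' < n := by linarith
    exact_mod_cast h1
  obtain ⟨S, hS⟩ : ∃ S : ℝ, S = (1 - z) * (L / l) * n := ⟨_, rfl⟩
  obtain ⟨θ, hθ⟩ : ∃ θ : ℝ, θ = Real.exp (S * (1 + Real.log (n / S)) / 2 - n * R) := ⟨_, rfl⟩
  have hθ0 : 0 < θ := by rw [hθ]; exact Real.exp_pos _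
  have hsum : ∑ w ∈ univ.filter (fun w : W n => wt w ≤ k'), al (fun y => a₁ (wt y)) w ^ 2
      ≤ θ ^ 2 := by
    have h1 : ∑ w ∈ univ.filter (fun w : W n => wt w ≤ k'), al (fun y => a₁ (wt y)) w ^ 2
        ≤ ∑ w ∈ univ.filter (fun w : W n => wt w ≤ k'), Real.exp (-(n * R)) ^ 2 := by
      refine sum_le_sum fun w _ => ?_
      rw [← sq_abs]
      exact pow_le_pow_left₀ (abs_nonneg _) (ha3 w) 2
    rw [sum_const, nsmul_eq_mul, Lin.card_wt_le] at h1
    have h2 := fnd_sum (n := n) (k := k') (x := S) (by rw [hS]; exact hx0) (by rw [hS]; exact hk'x)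
      (by
        rw [hS]
        refine hx3.trans ?_
        have h4 := mul_le_mul_of_nonneg_right hε2' hn0.le
        linarith)
    have h3 : Real.exp (S * (1 + Real.log (n / S))) * Real.exp (-(n * R)) ^ 2 = θ ^ 2 := by
      rw [hθ, ← Real.exp_nat_mul, ← Real.exp_nat_mul, ← Real.exp_add]
      congr 1
      push_cast
      ring
    rw [← h3]
    refine h1.trans ?_
    push_cast
    exact mul_le_mul_of_nonneg_right h2 (by positivity)
  have hpm : ∀ j, Real.exp (-(ε ^ 2 * n)) * 2 ^ (n - 1) ≤ (n.choose (x j) : ℝ) := fun j =>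
    hch (x j) (hxr j).1 (hxr j).2
  obtain ⟨b, hb1, hb2, hb3⟩ := fnc2 (n := n) (k := k') (by omega) hk'n x hxinj hxev a₁ hθ0.le hsum
    (Real.exp_pos (C * ε ^ 2 * n)).le hLag (Real.exp_pos (-(ε ^ 2 * n))) hpm
  have hsize : θ * Real.exp (C * ε ^ 2 * n) / Real.exp (-(ε ^ 2 * n)) ≤ 1 / 4 := by
    refine le_trans ?_ hs2
    rw [hθ, ← Real.exp_add, ← Real.exp_sub, Real.exp_le_exp]
    have := fnd_num (n := (n : ℝ)) (x := S) hz hz1 hε hl1 hl hlz hL1 hlC hn0 hS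
    rw [hR]
    refine le_trans (le_of_eq ?_) (this.trans (le_of_eq ?_))
    · ring
    · ring
  have hnode : ∀ j, b j ≠ 0 → ⌈(1 / 2 - ε) * n⌉₊ ≤ j ∧ j + ⌈(1 / 2 - ε) * n⌉₊ ≤ n := by
    intro j hj
    obtain ⟨i, rfl⟩ := hb1 j hj
    obtain ⟨hi1, hi2⟩ := hxr i
    constructor
    · have : ((⌈(1 / 2 - ε) * n⌉₊ : ℕ) : ℝ) ≤ x i := by linarith
      exact_mod_cast this
    · have : ((x i + ⌈(1 / 2 - ε) * n⌉₊ : ℕ) : ℝ) ≤ n := by
        push_cast
        linarith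
      exact_mod_cast this
  refine ⟨fun w => a₁ w + b w, ?_, ?_, ?_⟩
  · intro w hw
    have hb0 : b w = 0 := by
      by_contra hne
      have := hnode w hne
      omega
    show a₁ w + b w = -1
    rw [ha1 w hw, hb0, add_zero]
  · intro w hw1 hw2
    have h1 := ha2 w hw1 hw2
    have h2 := hb2 w
    calc |a₁ w + b w| ≤ |a₁ w| + |b w| := abs_add_le _ _
      _ ≤ 1 / 4 + 1 / 4 := add_le_add (h1.trans hs1) (h2.trans hsize)
      _ = 1 / 2 := by norm_num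
  · intro w hw
    exact hb3 w (by omega)

end Pool.Agent.Lib.MP_0430e4_lc.L3
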