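import Pool.Agent.Lib.MP_0430e4_lc.L3.KSA

/-!
# IDN: the identity for the weight of `I ∪ A ∪ B`

PROOF. `u = ucr A B u + (u - ucr A B u)` and `sexp_add`: `sexp u E = ∑ g, sexp (ucr A B u) g * sexp un (E \ g)`, `E = ed (I ∪ A ∪ B)`, `un b = 1` for a single crossing edge, `0` for the crossing blocks with at least two edges, `u b` for the others.
For `G ⊆ E`: `sexp un G = sexp un (G ∩ (ed (I ∪ A) ∪ ed (I ∪ B)))`, since an edge of `E` outside `ed (I ∪ A) ∪ ed (I ∪ B)` is crossing, lies only in the block `{e}` of nonzero weight, which is 1 (`sexp_rec`).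
For nonempty `b ⊆ ed (I ∪ A) ∪ ed (I ∪ B)` not crossing exactly one of the following holds: `b ⊆ ed (I ∪ B)`; or `b ⊆ ed (I ∪ A)`, `b` meets `A`, `b ∩ ed I ≠ ∅` (weight `ust`); or `b ⊆ ed (I ∪ A) \ ed I`. So `un = ust I A u + uA + uB` on these sets,
`uA b = u b` if `b ⊆ ed (I ∪ A) \ ed I` (0 for `b = ∅`), `uB b = u b` if `b ⊆ ed (I ∪ B)`. `sexp_add` twice; `sexp uA X * sexp uB Y` with `X ∪ Y = G \ h` (disjoint) is nonzero only for `X = (G \ h) ∩ (ed (I ∪ A) \ ed I)`,
`Y = (G \ h) ∩ ed (I ∪ B)` (`sexp_eq_zero`), `sexp_congr`. (Checked numerically.)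
-/

set_option autoImplicit false

namespace Pool.Agent.Lib.MP_0430e4_lc.L3

open Finset

section general

variable {ε : Type*} [DecidableEq ε]

/-- Removing elements that are in no other block than the singleton of weight one. -/
theorem idn_remove (v : Finset ε → ℝ) (D : Finset ε) : ∀ G : Finset ε,
    (∀ e ∈ D, v {e} = 1) → (∀ e ∈ D, ∀ b ⊆ G, e ∈ b → b ≠ {e} → v b = 0) →
    sexp v G = sexp v (G \ D) := by
  induction D using Finset.induction_on with
  | empty => intro G _ _; simp
  | insert a D ha ih =>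
    intro G h1 h2
    have hG : sexp v G = sexp v (G \ D) :=
      ih G (fun e he => h1 e (mem_insert_of_mem he)) fun e he => h2 e (mem_insert_of_mem he)
    rw [hG]
    by_cases haG : a ∈ G \ D
    · have e1 : G \ insert a D = (G \ D) \ {a} := by
        ext y; simp only [mem_sdiff, mem_insert, mem_singleton]; tauto
      rw [e1, sexp_rec v haG]
      rw [Finset.sum_eq_single {a}]
      · rw [h1 a (mem_insert_self _ _), one_mul]
      · intro b hb hne
        rw [mem_filter, mem_powerset] at hb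
        rw [h2 a (mem_insert_self _ _) b (hb.1.trans sdiff_subset) hb.2 hne, zero_mul]
      · intro hb
        exfalso
        apply hb
        rw [mem_filter, mem_powerset, singleton_subset_iff]
        exact ⟨haG, mem_singleton_self _⟩
    · have e1 : G \ insert a D = G \ D := by
        ext y
        simp only [mem_sdiff, mem_insert, not_or]
        constructor
        · rintro ⟨hy, -, hyD⟩; exact ⟨hy, hyD⟩
        · rintro ⟨hy, hyD⟩
          refine ⟨hy, ?_, hyD⟩
          rintro rfl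
          exact haG (mem_sdiff.2 ⟨hy, hyD⟩)
      rw [e1]

/-- The product of two set exponentials carried by disjoint sets. -/
theorem idn_two (u vA vB : Finset ε → ℝ) (P Q G : Finset ε) (hPQ : Disjoint P Q) (hG : G ⊆ P ∪ Q)
    (hA : ∀ b ⊆ P, b.Nonempty → vA b = u b) (hA' : ∀ b, b.Nonempty → ¬ b ⊆ P → vA b = 0)
    (hB : ∀ b ⊆ Q, b.Nonempty → vB b = u b) (hB' : ∀ b, b.Nonempty → ¬ b ⊆ Q → vB b = 0) :
    sexp (fun b => vA b + vB b) G = sexp u (G ∩ P) * sexp u (G ∩ Q) := by
  rw [sexp_add, Finset.sum_eq_single (G ∩ P)]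
  · have e1 : G \ (G ∩ P) = G ∩ Q := by
      ext y
      simp only [mem_sdiff, mem_inter, not_and]
      constructor
      · rintro ⟨hy, hyP⟩
        refine ⟨hy, ?_⟩
        rcases mem_union.1 (hG hy) with h | h
        · exact absurd h (hyP hy)
        · exact h
      · rintro ⟨hy, hyQ⟩
        exact ⟨hy, fun _ hyP => (Finset.disjoint_left.1 hPQ) hyP hyQ⟩
    rw [e1]
    congr 1
    · exact sexp_congr fun b hb hne => hA b (hb.trans inter_subset_right) hne
    · exact sexp_congr fun b hb hne => hB b (hb.trans inter_subset_right) hne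
  · intro X hX hne
    rw [mem_powerset] at hX
    by_cases hXP : X ⊆ P
    · -- then some element of `G ∩ P` is not in `X`
      obtain ⟨e, he, heX⟩ : ∃ e ∈ G ∩ P, e ∉ X := by
        by_contra hcon
        push Not at hcon
        apply hne
        apply Subset.antisymm
        · exact subset_inter hX hXP
        · exact hcon
      rw [mem_inter] at he
      have : sexp vB (G \ X) = 0 := by
        refine sexp_eq_zero (e := e) (mem_sdiff.2 ⟨he.1, heX⟩) fun b _ heb => ?_
        refine hB' b ⟨e, heb⟩ fun hbQ => ?_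
        exact (Finset.disjoint_left.1 hPQ) he.2 (hbQ heb)
      rw [this, mul_zero]
    · obtain ⟨e, heX, heP⟩ := Finset.not_subset.1 hXP
      have : sexp vA X = 0 := by
        refine sexp_eq_zero (e := e) heX fun b _ heb => ?_
        exact hA' b ⟨e, heb⟩ fun hbP => heP (hbP heb)
      rw [this, zero_mul]
  · intro h
    exact absurd (mem_powerset.2 inter_subset_left) h

end general

variable {ι : Type*} [Fintype ι] [DecidableEq ι]

omit [Fintype ι] in
lemma idn_mem_vs {b : Finset (Sym2 ι)} {v : ι} : v ∈ vs b ↔ ∃ e ∈ b, v ∈ e.toFinset := by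
  unfold vs
  rw [mem_biUnion]

theorem idn (u : Finset (Sym2 ι) → ℝ) {I A B : Finset ι} (hIA : Disjoint I A) (hIB : Disjoint I B)
    (hAB : Disjoint A B) :
    sexp u (ed (I ∪ A ∪ B)) = ∑ g ∈ (ed (I ∪ A ∪ B)).powerset, ∑ h ∈ (ed (I ∪ A) \ g).powerset,
      sexp (ucr A B u) g * sexp (ust I A u) h * sexp u (((ed (I ∪ A) \ ed I) \ g) \ h) *
        sexp u ((ed (I ∪ B) \ g) \ h) := by
  set un : Finset (Sym2 ι) → ℝ := fun b => u b - ucr A B u b with hun
  have hsum : sexp u (ed (I ∪ A ∪ B)) = sexp (fun b => ucr A B u b + un b) (ed (I ∪ A ∪ B)) :=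
    sexp_congr fun b _ _ => by simp only [hun]; ring
  rw [hsum, sexp_add]
  refine Finset.sum_congr rfl fun g hg => ?_
  rw [mem_powerset] at hg
  simp only [mul_assoc]
  rw [← Finset.mul_sum]
  congr 1
  -- facts on edges
  have hA_of : ∀ e : Sym2 ι, e ∈ ed (I ∪ A) → ∀ v ∈ e.toFinset, v ∉ B := by
    intro e he v hv hvB
    rcases mem_union.1 ((mem_ed.1 he).1 hv) with h | h
    · exact (Finset.disjoint_left.1 hIB) h hvB
    · exact (Finset.disjoint_left.1 hAB) h hvB
  have hB_of : ∀ e : Sym2 ι, e ∈ ed (I ∪ B) → ∀ v ∈ e.toFinset, v ∉ A := by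
    intro e he v hv hvA
    rcases mem_union.1 ((mem_ed.1 he).1 hv) with h | h
    · exact (Finset.disjoint_left.1 hIA) h hvA
    · exact (Finset.disjoint_left.1 hAB) hvA h
  have hPQ : Disjoint (ed (I ∪ A) \ ed I) (ed (I ∪ B)) := by
    rw [Finset.disjoint_left]
    intro e he heB
    rw [mem_sdiff] at he
    apply he.2
    rw [mem_ed]
    refine ⟨fun v hv => ?_, (mem_ed.1 he.1).2⟩
    rcases mem_union.1 ((mem_ed.1 he.1).1 hv) with h | h
    · exact h
    · exact absurd h (hB_of e heB v hv)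
  -- Step 2: remove the crossing edges
  set D := ed (I ∪ A ∪ B) \ (ed (I ∪ A) ∪ ed (I ∪ B)) with hD
  have hDcr : ∀ e ∈ D, ∀ b : Finset (Sym2 ι), e ∈ b → Cr A B b := by
    intro e he b heb
    rw [hD, mem_sdiff, mem_union, not_or] at he
    obtain ⟨h1, h2, h3⟩ := he
    rw [mem_ed] at h1 h2 h3
    have h4 : ¬ e.toFinset ⊆ I ∪ A := fun h => h2 ⟨h, h1.2⟩
    have h5 : ¬ e.toFinset ⊆ I ∪ B := fun h => h3 ⟨h, h1.2⟩
    obtain ⟨v, hv, hvn⟩ := Finset.not_subset.1 h4
    obtain ⟨w, hw, hwn⟩ := Finset.not_subset.1 h5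
    have hv' := h1.1 hv
    have hw' := h1.1 hw
    constructor
    · refine ⟨w, mem_inter.2 ⟨idn_mem_vs.2 ⟨e, heb, hw⟩, ?_⟩⟩
      simp only [mem_union, not_or] at hwn hw'
      tauto
    · refine ⟨v, mem_inter.2 ⟨idn_mem_vs.2 ⟨e, heb, hv⟩, ?_⟩⟩
      simp only [mem_union, not_or] at hvn hv'
      tauto
  have hrem : sexp un (ed (I ∪ A ∪ B) \ g) = sexp un ((ed (I ∪ A ∪ B) \ g) \ D) := by
    refine idn_remove un D _ (fun e he => ?_) fun e he b hb heb hne => ?_
    · have h1 := hDcr e he {e} (mem_singleton_self e)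
      simp only [hun, ucr, if_pos h1, card_singleton, if_true]
      ring
    · have h1 := hDcr e he b heb
      have h2 : b.card ≠ 1 := by
        intro hc
        obtain ⟨a, ha⟩ := card_eq_one.1 hc
        rw [ha, mem_singleton] at heb
        exact hne (by rw [ha, heb])
      simp only [hun, ucr, if_pos h1, if_neg h2]
      ring
  rw [hrem]
  set G := (ed (I ∪ A ∪ B) \ g) \ D with hG
  have hGsub : G ⊆ (ed (I ∪ A) \ ed I) ∪ ed (I ∪ B) := by
    intro e he
    rw [hG, mem_sdiff, mem_sdiff] at he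
    obtain ⟨⟨h1, h2⟩, h3⟩ := he
    have h4 : e ∈ ed (I ∪ A) ∪ ed (I ∪ B) := by
      by_contra hcon
      exact h3 (mem_sdiff.2 ⟨h1, hcon⟩)
    rw [mem_union] at h4 ⊢
    rcases h4 with h4 | h4
    · by_cases hI : e ∈ ed I
      · right; exact ed_mono subset_union_left hI
      · left; exact mem_sdiff.2 ⟨h4, hI⟩
    · right; exact h4
  -- Step 3
  set vA : Finset (Sym2 ι) → ℝ := fun b => if b ⊆ ed (I ∪ A) \ ed I then u b else 0 with hvA
  set vB : Finset (Sym2 ι) → ℝ := fun b => if b ⊆ ed (I ∪ B) then u b else 0 with hvB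
  have hsplit : ∀ b ⊆ G, b.Nonempty → un b = ust I A u b + (vA b + vB b) := by
    intro b hb hne
    have hbG : ∀ e ∈ b, e ∈ ed (I ∪ A) ∪ ed (I ∪ B) := by
      intro e he
      rcases mem_union.1 (hGsub (hb he)) with h | h
      · exact mem_union_left _ (mem_sdiff.1 h).1
      · exact mem_union_right _ h
    have hsubA : vs b ⊆ I ∪ A → b ⊆ ed (I ∪ A) := by
      intro h
      refine subset_ed (fun e he => ?_) h
      rcases mem_union.1 (hbG e he) with h' | h'
      · exact (mem_ed.1 h').2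
      · exact (mem_ed.1 h').2
    by_cases hcr : Cr A B b
    · obtain ⟨⟨w, hw⟩, ⟨v, hv⟩⟩ := hcr
      rw [mem_inter] at hw hv
      have hcr : Cr A B b := ⟨⟨w, mem_inter.2 hw⟩, ⟨v, mem_inter.2 hv⟩⟩
      have h1 : b.card ≠ 1 := by
        intro hc
        obtain ⟨a, ha⟩ := card_eq_one.1 hc
        rw [ha] at hw hv
        obtain ⟨e, he, hwe⟩ := idn_mem_vs.1 hw.1
        obtain ⟨e', he', hve⟩ := idn_mem_vs.1 hv.1
        rw [mem_singleton] at he he'
        subst he
        subst he'
        have h2 := hbG _ (by rw [ha]; exact mem_singleton_self _)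
        rcases mem_union.1 h2 with h2 | h2
        · exact hA_of _ h2 v hve hv.2
        · exact hB_of _ h2 w hwe hw.2
      have h2 : ¬ b ⊆ ed (I ∪ A) \ ed I := by
        intro h
        obtain ⟨e, he, hve⟩ := idn_mem_vs.1 hv.1
        exact hA_of e (mem_sdiff.1 (h he)).1 v hve hv.2
      have h3 : ¬ b ⊆ ed (I ∪ B) := by
        intro h
        obtain ⟨e, he, hwe⟩ := idn_mem_vs.1 hw.1
        exact hB_of e (h he) w hwe hw.2
      have h4 : ¬ (vs b ⊆ I ∪ A ∧ (vs b ∩ A).Nonempty ∧ (b ∩ ed I).Nonempty) := by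
        rintro ⟨h, -, -⟩
        obtain ⟨e, he, hve⟩ := idn_mem_vs.1 hv.1
        exact hA_of e (hsubA h he) v hve hv.2
      simp only [hun, ucr, if_pos hcr, if_neg h1, ust, if_neg h4, hvA, if_neg h2, hvB, if_neg h3]
      ring
    · have hu : un b = u b := by simp only [hun, ucr, if_neg hcr, sub_zero]
      rw [hu]
      by_cases hbA : (vs b ∩ A).Nonempty
      · have hbB : ¬ (vs b ∩ B).Nonempty := fun h => hcr ⟨hbA, h⟩
        have hb1 : b ⊆ ed (I ∪ A) := by
          intro e he
          rcases mem_union.1 (hbG e he) with h | h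
          · exact h
          · rw [mem_ed] at h ⊢
            refine ⟨fun v hv => ?_, h.2⟩
            rcases mem_union.1 (h.1 hv) with h' | h'
            · exact mem_union_left _ h'
            · exact absurd ⟨v, mem_inter.2 ⟨idn_mem_vs.2 ⟨e, he, hv⟩, h'⟩⟩ hbB
        have h3 : ¬ b ⊆ ed (I ∪ B) := by
          intro h
          obtain ⟨w, hw⟩ := hbA
          rw [mem_inter] at hw
          obtain ⟨e, he, hwe⟩ := idn_mem_vs.1 hw.1
          exact hB_of e (h he) w hwe hw.2
        have hvs : vs b ⊆ I ∪ A := vs_subset hb1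
        by_cases hI : (b ∩ ed I).Nonempty
        · have h2 : ¬ b ⊆ ed (I ∪ A) \ ed I := by
            intro h
            obtain ⟨e, he⟩ := hI
            rw [mem_inter] at he
            exact (mem_sdiff.1 (h he.1)).2 he.2
          simp only [ust, if_pos (show vs b ⊆ I ∪ A ∧ (vs b ∩ A).Nonempty ∧ (b ∩ ed I).Nonempty from
            ⟨hvs, hbA, hI⟩), hvA, if_neg h2, hvB, if_neg h3]
          ring
        · have h2 : b ⊆ ed (I ∪ A) \ ed I := by
            intro e he
            refine mem_sdiff.2 ⟨hb1 he, fun h => hI ⟨e, mem_inter.2 ⟨he, h⟩⟩⟩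
          have h4 : ¬ (vs b ⊆ I ∪ A ∧ (vs b ∩ A).Nonempty ∧ (b ∩ ed I).Nonempty) :=
            fun h => hI h.2.2
          simp only [ust, if_neg h4, hvA, if_pos h2, hvB, if_neg h3]
          ring
      · have hb1 : b ⊆ ed (I ∪ B) := by
          intro e he
          rcases mem_union.1 (hbG e he) with h | h
          · rw [mem_ed] at h ⊢
            refine ⟨fun v hv => ?_, h.2⟩
            rcases mem_union.1 (h.1 hv) with h' | h'
            · exact mem_union_left _ h'
            · exact absurd ⟨v, mem_inter.2 ⟨idn_mem_vs.2 ⟨e, he, hv⟩, h'⟩⟩ hbA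
          · exact h
        have h2 : ¬ b ⊆ ed (I ∪ A) \ ed I := by
          intro h
          obtain ⟨e, he⟩ := hne
          exact (Finset.disjoint_left.1 hPQ) (h he) (hb1 he)
        have h4 : ¬ (vs b ⊆ I ∪ A ∧ (vs b ∩ A).Nonempty ∧ (b ∩ ed I).Nonempty) :=
          fun h => hbA h.2.1
        simp only [ust, if_neg h4, hvA, if_neg h2, hvB, if_pos hb1]
        ring
  -- Step 4
  have h4 : sexp un G = ∑ h ∈ G.powerset, sexp (ust I A u) h *
      (sexp u ((G \ h) ∩ (ed (I ∪ A) \ ed I)) * sexp u ((G \ h) ∩ ed (I ∪ B))) := by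
    rw [sexp_congr hsplit, sexp_add]
    refine Finset.sum_congr rfl fun h _ => ?_
    congr 1
    refine idn_two u vA vB _ _ _ hPQ (sdiff_subset.trans hGsub) ?_ ?_ ?_ ?_
    · intro b hb _; simp only [hvA, if_pos hb]
    · intro b _ hb; simp only [hvA, if_neg hb]
    · intro b hb _; simp only [hvB, if_pos hb]
    · intro b _ hb; simp only [hvB, if_neg hb]
  rw [h4]
  -- Step 5
  have hsub : (ed (I ∪ A) \ g).powerset ⊆ G.powerset := by
    rw [powerset_mono]
    intro e he
    rw [mem_sdiff] at he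
    rw [hG, mem_sdiff, mem_sdiff]
    refine ⟨⟨ed_mono (by intro v hv; exact mem_union_left _ hv) he.1, he.2⟩, fun h => ?_⟩
    rw [hD, mem_sdiff] at h
    exact h.2 (mem_union_left _ he.1)
  rw [← Finset.sum_subset hsub]
  · refine Finset.sum_congr rfl fun h hh => ?_
    congr 2
    · congr 1
      ext e
      simp only [hG, hD, mem_inter, mem_sdiff, mem_union, not_and, not_not, not_or]
      constructor
      · rintro ⟨⟨⟨⟨h1, h2⟩, h3⟩, h4⟩, h5⟩
        exact ⟨⟨h5, h2⟩, h4⟩
      · rintro ⟨⟨h5, h2⟩, h4⟩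
        exact ⟨⟨⟨⟨ed_mono (by intro v hv; exact mem_union_left _ hv) h5.1, h2⟩,
          fun _ hn => absurd h5.1 hn⟩, h4⟩, h5⟩
    · congr 1
      ext e
      simp only [hG, hD, mem_inter, mem_sdiff, mem_union, not_and, not_not, not_or]
      constructor
      · rintro ⟨⟨⟨⟨h1, h2⟩, h3⟩, h4⟩, h5⟩
        exact ⟨⟨h5, h2⟩, h4⟩
      · rintro ⟨⟨h5, h2⟩, h4⟩
        have : I ∪ B ⊆ I ∪ A ∪ B := by
          intro v hv
          rcases mem_union.1 hv with h | h
          · exact mem_union_left _ (mem_union_left _ h)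
          · exact mem_union_right _ h
        exact ⟨⟨⟨⟨ed_mono this h5, h2⟩, fun _ _ => h5⟩, h4⟩, h5⟩
  · intro h hh hn
    rw [mem_powerset] at hh hn
    -- some edge of `h` is not in `ed (I ∪ A)`
    obtain ⟨e, he, hen⟩ : ∃ e ∈ h, e ∉ ed (I ∪ A) := by
      obtain ⟨e, he, hen⟩ := Finset.not_subset.1 hn
      refine ⟨e, he, fun h' => hen (mem_sdiff.2 ⟨h', ?_⟩)⟩
      have := hh he
      rw [hG, mem_sdiff, mem_sdiff] at this
      exact this.1.2
    have hz : sexp (ust I A u) h = 0 := by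
      refine sexp_eq_zero he fun b hb heb => ?_
      have hnot : ¬ (vs b ⊆ I ∪ A ∧ (vs b ∩ A).Nonempty ∧ (b ∩ ed I).Nonempty) := by
        rintro ⟨h1, -, -⟩
        apply hen
        rw [mem_ed]
        refine ⟨fun v hv => h1 (idn_mem_vs.2 ⟨e, heb, hv⟩), ?_⟩
        have h2 := hGsub (hh he)
        rcases mem_union.1 h2 with h2 | h2
        · exact (mem_ed.1 (mem_sdiff.1 h2).1).2
        · exact (mem_ed.1 h2).2
      simp only [ust, if_neg hnot]
    rw [hz, zero_mul]

end Pool.Agent.Lib.MP_0430e4_lc.L3
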