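import Pool.Agent.Lib.MP_0430e4_lc.L3.SMR

/-!
# MOB: Moebius transforms on the interval from `S₀` to `S₁`

PROOF. Pure algebra: `∑ (S ⊆ T ⊆ S₁) (-1) ^ |S₁ \ T| = [S = S₁]` (`Finset.sum_powerset_neg_one_pow_card`). `mob_inv`: interchange. `mob_mul`: both sides are determined by their sums over the intervals (`mob_inv`), or: insert `mob_inv`
for `f` and `g` in the left side: `f S * g S = ∑ S₂, S₃ ⊆ S`, i.e. `S₂ ∪ S₃ ⊆ S`. `mob_restrict`: the sum runs over `S ⊇ S₀ ∪ T`.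
-/

set_option autoImplicit false

namespace Pool.Agent.Lib.MP_0430e4_lc.L3

open Finset

variable {ι : Type*} [DecidableEq ι] {S₀ S₁ : Finset ι}

/-- The alternating sum over an interval. -/
theorem mob_alt (S₀ S₁ : Finset ι) (h : S₀ ⊆ S₁) :
    ∑ S ∈ S₁.powerset.filter (fun S => S₀ ⊆ S), (-1 : ℝ) ^ (S₁ \ S).card =
      if S₀ = S₁ then 1 else 0 := by
  have h1 : ∑ S ∈ S₁.powerset.filter (fun S => S₀ ⊆ S), (-1 : ℝ) ^ (S₁ \ S).card =
      ∑ R ∈ (S₁ \ S₀).powerset, (-1 : ℝ) ^ R.card := by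
    refine sum_nbij' (fun S => S₁ \ S) (fun R => S₁ \ R) ?_ ?_ ?_ ?_ ?_
    · intro S hS
      have := mem_filter.1 hS
      exact mem_powerset.2 (sdiff_subset_sdiff (Subset.refl _) this.2)
    · intro R hR
      have hR' := mem_powerset.1 hR
      refine mem_filter.2 ⟨mem_powerset.2 sdiff_subset, ?_⟩
      intro v hv
      refine mem_sdiff.2 ⟨h hv, fun hvR => ?_⟩
      exact (mem_sdiff.1 (hR' hvR)).2 hv
    · intro S hS
      have := mem_filter.1 hS
      exact Finset.sdiff_sdiff_eq_self (mem_powerset.1 this.1)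
    · intro R hR
      have hR' := mem_powerset.1 hR
      exact Finset.sdiff_sdiff_eq_self (hR'.trans sdiff_subset)
    · intro S _
      rfl
  rw [h1]
  have h2 := Finset.sum_powerset_neg_one_pow_card (x := S₁ \ S₀)
  have h3 : ∑ R ∈ (S₁ \ S₀).powerset, (-1 : ℝ) ^ R.card =
      ((∑ R ∈ (S₁ \ S₀).powerset, (-1 : ℤ) ^ R.card : ℤ) : ℝ) := by
    push_cast
    rfl
  rw [h3, h2]
  by_cases h4 : S₀ = S₁
  · rw [if_pos h4, if_pos (by rw [h4]; simp)]
    norm_num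
  · rw [if_neg h4, if_neg (fun h5 => h4 (Subset.antisymm h (sdiff_eq_empty_iff_subset.1 h5)))]
    norm_num

theorem mob_self (S₀ : Finset ι) (g : Finset ι → ℝ) : mob S₀ S₀ g = g S₀ := by
  unfold mob
  have : S₀.powerset.filter (fun S => S₀ ⊆ S) = {S₀} := by
    ext S
    simp only [mem_filter, mem_powerset, mem_singleton]
    exact ⟨fun h => Subset.antisymm h.1 h.2, fun h => by rw [h]; exact ⟨Subset.refl _, Subset.refl _⟩⟩
  rw [this, sum_singleton, sdiff_self]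
  simp

theorem mob_congr {g g' : Finset ι → ℝ} (h : ∀ S, S₀ ⊆ S → S ⊆ S₁ → g S = g' S) :
    mob S₀ S₁ g = mob S₀ S₁ g' := by
  unfold mob
  refine sum_congr rfl fun S hS => ?_
  have := mem_filter.1 hS
  rw [h S this.2 (mem_powerset.1 this.1)]

theorem mob_const (hS : S₀ ⊂ S₁) (c : ℝ) : mob S₀ S₁ (fun _ => c) = 0 := by
  unfold mob
  rw [← sum_mul, mob_alt _ _ hS.1, if_neg (ne_of_ssubset hS), zero_mul]

/-- The interval is a disjoint union: interchange of the two sums. -/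
theorem mob_swap (F : Finset ι → Finset ι → ℝ) :
    ∑ S ∈ S₁.powerset.filter (fun S => S₀ ⊆ S), ∑ T ∈ S.powerset.filter (fun T => S₀ ⊆ T), F S T =
      ∑ T ∈ S₁.powerset.filter (fun T => S₀ ⊆ T),
        ∑ S ∈ S₁.powerset.filter (fun S => T ⊆ S), F S T := by
  refine sum_comm' fun S T => ?_
  simp only [mem_filter, mem_powerset]
  constructor
  · rintro ⟨⟨a, b⟩, c, d⟩
    exact ⟨⟨a, c⟩, c.trans a, d⟩
  · rintro ⟨⟨a, c⟩, _, d⟩
    exact ⟨⟨a, d.trans c⟩, c, d⟩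

theorem mob_alt' (S₀ S₁ : Finset ι) (h : S₀ ⊆ S₁) :
    ∑ S ∈ S₁.powerset.filter (fun S => S₀ ⊆ S), (-1 : ℝ) ^ (S \ S₀).card =
      if S₀ = S₁ then 1 else 0 := by
  rw [← mob_alt S₀ S₁ h]
  refine sum_nbij' (fun S => S₁ \ (S \ S₀)) (fun S => S₁ \ (S \ S₀)) ?_ ?_ ?_ ?_ ?_
  · intro S hS
    refine mem_filter.2 ⟨mem_powerset.2 sdiff_subset, ?_⟩
    intro v hv
    refine mem_sdiff.2 ⟨h hv, fun hh => (mem_sdiff.1 hh).2 hv⟩
  · intro S hS
    refine mem_filter.2 ⟨mem_powerset.2 sdiff_subset, ?_⟩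
    intro v hv
    refine mem_sdiff.2 ⟨h hv, fun hh => (mem_sdiff.1 hh).2 hv⟩
  · intro S hS
    have h1 := mem_powerset.1 (mem_filter.1 hS).1
    have h2 := (mem_filter.1 hS).2
    ext v
    simp only [mem_sdiff]
    have := @h1 v
    have := @h2 v
    have := @h v
    tauto
  · intro S hS
    have h1 := mem_powerset.1 (mem_filter.1 hS).1
    have h2 := (mem_filter.1 hS).2
    ext v
    simp only [mem_sdiff]
    have := @h1 v
    have := @h2 v
    have := @h v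
    tauto
  · intro S hS
    have h1 := mem_powerset.1 (mem_filter.1 hS).1
    congr 2
    ext v
    simp only [mem_sdiff]
    have := @h1 v
    tauto

theorem mob_inv (hS : S₀ ⊆ S₁) (g : Finset ι → ℝ) :
    ∑ S ∈ S₁.powerset.filter (fun S => S₀ ⊆ S), mob S₀ S g = g S₁ := by
  unfold mob
  rw [mob_swap (fun S T => (-1) ^ (S \ T).card * g T)]
  have h1 : ∀ T ∈ S₁.powerset.filter (fun T => S₀ ⊆ T),
      ∑ S ∈ S₁.powerset.filter (fun S => T ⊆ S), (-1 : ℝ) ^ (S \ T).card * g T =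
        if T = S₁ then g T else 0 := by
    intro T hT
    rw [← sum_mul, mob_alt' _ _ (mem_powerset.1 (mem_filter.1 hT).1)]
    by_cases h : T = S₁
    · rw [if_pos h, if_pos h, one_mul]
    · rw [if_neg h, if_neg h, zero_mul]
  rw [sum_congr rfl h1, sum_ite_eq' _ S₁ g,
    if_pos (mem_filter.2 ⟨mem_powerset.2 (Subset.refl _), hS⟩)]

theorem mob_add (g g' : Finset ι → ℝ) :
    mob S₀ S₁ (fun S => g S + g' S) = mob S₀ S₁ g + mob S₀ S₁ g' := by
  unfold mob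
  rw [← sum_add_distrib]
  exact sum_congr rfl fun S _ => mul_add _ _ _

theorem mob_sum {κ : Type*} (s : Finset κ) (g : κ → Finset ι → ℝ) :
    mob S₀ S₁ (fun S => ∑ j ∈ s, g j S) = ∑ j ∈ s, mob S₀ S₁ (g j) := by
  unfold mob
  rw [sum_comm]
  exact sum_congr rfl fun S _ => mul_sum _ _ _

theorem mob_smul (c : ℝ) (g : Finset ι → ℝ) :
    mob S₀ S₁ (fun S => c * g S) = c * mob S₀ S₁ g := by
  unfold mob
  rw [mul_sum]
  exact sum_congr rfl fun S _ => by ring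

theorem mob_restrict (T : Finset ι) (hS : S₀ ⊆ S₁) (g : Finset ι → ℝ) :
    mob S₀ S₁ (fun S => if T ⊆ S then g S else 0) = if T ⊆ S₁ then mob (S₀ ∪ T) S₁ g else 0 := by
  unfold mob
  by_cases hT : T ⊆ S₁
  · rw [if_pos hT]
    have h1 : ∀ S ∈ S₁.powerset.filter (fun S => S₀ ⊆ S),
        (-1 : ℝ) ^ (S₁ \ S).card * (if T ⊆ S then g S else 0) =
          if T ⊆ S then (-1 : ℝ) ^ (S₁ \ S).card * g S else 0 := by
      intro S _
      by_cases h : T ⊆ S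
      · rw [if_pos h, if_pos h]
      · rw [if_neg h, if_neg h, mul_zero]
    rw [sum_congr rfl h1, ← sum_filter, filter_filter]
    refine sum_congr ?_ fun _ _ => rfl
    ext S
    simp only [mem_filter, mem_powerset, union_subset_iff]
  · rw [if_neg hT]
    refine sum_eq_zero fun S hS' => ?_
    have hn : ¬ T ⊆ S := fun h => hT (Subset.trans h (mem_powerset.1 (mem_filter.1 hS').1))
    simp only [if_neg hn, mul_zero]

/-- The pairs of sets with union `S₁`. -/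
def prs (S₀ S₁ : Finset ι) : Finset (Finset ι × Finset ι) :=
  (S₁.powerset ×ˢ S₁.powerset).filter fun p => S₀ ⊆ p.1 ∧ S₀ ⊆ p.2 ∧ p.1 ∪ p.2 = S₁

theorem mob_mul (hS : S₀ ⊆ S₁) (f g : Finset ι → ℝ) :
    mob S₀ S₁ (fun S => f S * g S) = ∑ p ∈ prs S₀ S₁, mob S₀ p.1 f * mob S₀ p.2 g := by
  have h1 : ∀ S ∈ S₁.powerset.filter (fun S => S₀ ⊆ S), f S * g S =
      ∑ p ∈ (S.powerset.filter (fun T => S₀ ⊆ T)) ×ˢ (S.powerset.filter (fun T => S₀ ⊆ T)),
        mob S₀ p.1 f * mob S₀ p.2 g := by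
    intro S hS'
    have h2 := (mem_filter.1 hS').2
    rw [← mob_inv h2 f, ← mob_inv h2 g, sum_mul_sum, sum_product]
  have h0 : mob S₀ S₁ (fun S => f S * g S) = ∑ S ∈ S₁.powerset.filter (fun S => S₀ ⊆ S),
      ∑ p ∈ (S.powerset.filter (fun T => S₀ ⊆ T)) ×ˢ (S.powerset.filter (fun T => S₀ ⊆ T)),
        (-1 : ℝ) ^ (S₁ \ S).card * (mob S₀ p.1 f * mob S₀ p.2 g) := by
    unfold mob
    refine sum_congr rfl fun S hS' => ?_
    have h3 := h1 S hS'
    unfold mob at h3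
    show (-1 : ℝ) ^ (S₁ \ S).card * (f S * g S) = _
    rw [h3, mul_sum]
  rw [h0]
  have h2 : ∑ S ∈ S₁.powerset.filter (fun S => S₀ ⊆ S),
      ∑ p ∈ (S.powerset.filter (fun T => S₀ ⊆ T)) ×ˢ (S.powerset.filter (fun T => S₀ ⊆ T)),
        (-1 : ℝ) ^ (S₁ \ S).card * (mob S₀ p.1 f * mob S₀ p.2 g) =
      ∑ p ∈ (S₁.powerset ×ˢ S₁.powerset).filter (fun p => S₀ ⊆ p.1 ∧ S₀ ⊆ p.2),
        ∑ S ∈ S₁.powerset.filter (fun S => p.1 ∪ p.2 ⊆ S),
          (-1 : ℝ) ^ (S₁ \ S).card * (mob S₀ p.1 f * mob S₀ p.2 g) := by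
    refine sum_comm' fun S p => ?_
    simp only [mem_filter, mem_powerset, mem_product, union_subset_iff]
    constructor
    · rintro ⟨⟨a, b⟩, ⟨c, d⟩, e, f⟩
      exact ⟨⟨a, c, e⟩, ⟨c.trans a, e.trans a⟩, d, f⟩
    · rintro ⟨⟨a, c, e⟩, ⟨_, _⟩, d, f⟩
      exact ⟨⟨a, d.trans c⟩, ⟨c, d⟩, e, f⟩
  rw [h2]
  have h3 : ∀ p ∈ (S₁.powerset ×ˢ S₁.powerset).filter (fun p => S₀ ⊆ p.1 ∧ S₀ ⊆ p.2),
      ∑ S ∈ S₁.powerset.filter (fun S => p.1 ∪ p.2 ⊆ S),
          (-1 : ℝ) ^ (S₁ \ S).card * (mob S₀ p.1 f * mob S₀ p.2 g) =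
        if p.1 ∪ p.2 = S₁ then mob S₀ p.1 f * mob S₀ p.2 g else 0 := by
    intro p hp
    have hp' := mem_product.1 (mem_filter.1 hp).1
    rw [← sum_mul, mob_alt _ _ (union_subset (mem_powerset.1 hp'.1) (mem_powerset.1 hp'.2))]
    by_cases h : p.1 ∪ p.2 = S₁
    · rw [if_pos h, if_pos h, one_mul]
    · rw [if_neg h, if_neg h, zero_mul]
  rw [sum_congr rfl h3, ← sum_filter, filter_filter]
  unfold prs
  refine sum_congr ?_ fun _ _ => rfl
  ext p
  simp only [mem_filter, and_assoc]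

theorem card_prs_le [Fintype ι] : (prs S₀ S₁).card ≤ 4 ^ Fintype.card ι := by
  have h1 : (prs S₀ S₁).card ≤ (univ : Finset (Finset ι × Finset ι)).card := card_le_univ _
  refine h1.trans (le_of_eq ?_)
  rw [card_univ, Fintype.card_prod, Fintype.card_finset, ← mul_pow]
  norm_num

/-- the transform of functions of configurations -/
theorem dep_mob {Γ : Type*} {g : (ι → Γ) → Finset ι → ℝ} (h : ∀ S ⊆ S₁, Dep S (fun x => g x S)) :
    Dep S₁ (fun x => mob S₀ S₁ (g x)) := by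
  intro x z hz
  refine mob_congr fun S _ hS => ?_
  exact h S hS x z fun v hv => hz v (hS hv)

end Pool.Agent.Lib.MP_0430e4_lc.L3
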