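import Pool.Agent.Lib.MP_0430e4_lc.L3.IDN
import Pool.Agent.Lib.MP_0430e4_lc.L3.MOB

/-!
# KEX: the expansion of the kernels

PROOF. Apply `idn` with `A' ⊆ A`, `B' ⊆ B` and divide by `sexp u (ed (I ∪ A')) * sexp u (ed (I ∪ B'))` (valid also if it is 0). For `g ⊆ ed (I ∪ A' ∪ B')`: `sexp (ucr A' B' u) g = sexp (ucr A B u) g` (`sexp_congr`), for `h ⊆ ed (I ∪ A')` the same for `ust`.
`((ed (I ∪ A') \ ed I) \ g) \ h = ed (I ∪ A') \ (ed I ∪ (g ∩ ed (I ∪ A)) ∪ h)` and `(ed (I ∪ B') \ g) \ h = ed (I ∪ B') \ ((g ∪ h) ∩ ed (I ∪ B))`. So with `g ⊆ ed (I ∪ A ∪ B)`, `h ⊆ ed (I ∪ A) \ g` the term appears for the pairs `A' ⊇ vs (g ∪ h) ∩ A`,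
`B' ⊇ vs g ∩ B`, and the sum over these `A'`, `B'` of the signs times the `rho` is the product of two `mob` (`S = I ∪ A'`). (Checked numerically.)
-/

set_option autoImplicit false

namespace Pool.Agent.Lib.MP_0430e4_lc.L3

open Finset

variable {ι : Type*} [Fintype ι] [DecidableEq ι]

omit [Fintype ι] in
/-- The Moebius transform on an interval above `I`. -/
lemma kex_mob {I A T : Finset ι} (hIA : Disjoint I A) (hT : T ⊆ A) (f : Finset ι → ℝ) :
    ∑ A' ∈ A.powerset, (-1) ^ (A \ A').card * (if T ⊆ A' then f (I ∪ A') else 0) =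
      mob (I ∪ T) (I ∪ A) f := by
  unfold mob
  simp only [mul_ite, mul_zero]
  rw [← Finset.sum_filter]
  refine Finset.sum_nbij' (fun A' => I ∪ A') (fun S => S \ I) ?_ ?_ ?_ ?_ ?_
  · intro A' hA'
    rw [mem_filter, mem_powerset] at hA' ⊢
    exact ⟨union_subset_union_right hA'.1, union_subset_union_right hA'.2⟩
  · intro S hS
    rw [mem_filter, mem_powerset] at hS ⊢
    refine ⟨?_, ?_⟩
    · intro v hv
      rw [mem_sdiff] at hv
      rcases mem_union.1 (hS.1 hv.1) with h | h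
      · exact absurd h hv.2
      · exact h
    · intro v hv
      rw [mem_sdiff]
      exact ⟨hS.2 (mem_union_right _ hv), fun h => (Finset.disjoint_left.1 hIA) h (hT hv)⟩
  · intro A' hA'
    rw [mem_filter, mem_powerset] at hA'
    ext v
    simp only [mem_sdiff, mem_union]
    constructor
    · rintro ⟨h | h, h2⟩
      · exact absurd h h2
      · exact h
    · intro h
      exact ⟨Or.inr h, fun h2 => (Finset.disjoint_left.1 hIA) h2 (hA'.1 h)⟩
  · intro S hS
    rw [mem_filter, mem_powerset] at hS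
    ext v
    simp only [mem_sdiff, mem_union]
    constructor
    · rintro (h | ⟨h, -⟩)
      · exact hS.2 (mem_union_left _ h)
      · exact h
    · intro h
      by_cases hv : v ∈ I
      · exact Or.inl hv
      · exact Or.inr ⟨h, hv⟩
  · intro A' hA'
    rw [mem_filter, mem_powerset] at hA'
    have : (I ∪ A) \ (I ∪ A') = A \ A' := by
      ext v
      simp only [mem_sdiff, mem_union, not_or]
      constructor
      · rintro ⟨h | h, h2, h3⟩
        · exact absurd h h2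
        · exact ⟨h, h3⟩
      · rintro ⟨h, h2⟩
        exact ⟨Or.inr h, fun h3 => (Finset.disjoint_left.1 hIA) h3 h, h2⟩
    rw [this]

/-- One conditional kernel as a sum over all `g`, `h`. -/
lemma kex_CC (u : Finset (Sym2 ι) → ℝ) {I A B A' B' : Finset ι} (hIA : Disjoint I A)
    (hIB : Disjoint I B) (hAB : Disjoint A B) (hA' : A' ⊆ A) (hB' : B' ⊆ B) :
    CC u I A' B' = sexp u (ed I) * ∑ g ∈ (ed (I ∪ A ∪ B)).powerset,
      ∑ h ∈ (ed (I ∪ A) \ g).powerset, sexp (ucr A B u) g * sexp (ust I A u) h *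
        ((if vs (g ∪ h) ∩ A ⊆ A' then rho u (ed I ∪ g ∩ ed (I ∪ A) ∪ h) (I ∪ A') else 0) *
        (if vs g ∩ B ⊆ B' then rho u ((g ∪ h) ∩ ed (I ∪ B)) (I ∪ B') else 0)) := by
  have hid := idn u (I := I) (A := A') (B := B') (hIA.mono_right hA') (hIB.mono_right hB')
    (hAB.mono hA' hB')
  have hCC : CC u I A' B' = sexp u (ed I) * (sexp u (ed (I ∪ A' ∪ B')) /
      (sexp u (ed (I ∪ A')) * sexp u (ed (I ∪ B')))) := by
    unfold CC; ring
  rw [hCC, hid, Finset.sum_div]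
  congr 1
  have hsub1 : I ∪ A' ∪ B' ⊆ I ∪ A ∪ B :=
    union_subset_union (union_subset_union_right hA') hB'
  have hsubA : I ∪ A' ⊆ I ∪ A := union_subset_union_right hA'
  have hsubB : I ∪ B' ⊆ I ∪ B := union_subset_union_right hB'
  -- vertices of graphs on the small sets
  have hvA : ∀ b : Finset (Sym2 ι), vs b ⊆ I ∪ A' ∪ B' → vs b ∩ A = vs b ∩ A' := by
    intro b hb
    ext v
    simp only [mem_inter]
    constructor
    · rintro ⟨h1, h2⟩
      refine ⟨h1, ?_⟩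
      rcases mem_union.1 (hb h1) with h | h
      · rcases mem_union.1 h with h | h
        · exact absurd h2 ((Finset.disjoint_left.1 hIA) h)
        · exact h
      · exact absurd (hB' h) ((Finset.disjoint_left.1 hAB) h2)
    · rintro ⟨h1, h2⟩; exact ⟨h1, hA' h2⟩
  have hvB : ∀ b : Finset (Sym2 ι), vs b ⊆ I ∪ A' ∪ B' → vs b ∩ B = vs b ∩ B' := by
    intro b hb
    ext v
    simp only [mem_inter]
    constructor
    · rintro ⟨h1, h2⟩
      refine ⟨h1, ?_⟩
      rcases mem_union.1 (hb h1) with h | h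
      · rcases mem_union.1 h with h | h
        · exact absurd h2 ((Finset.disjoint_left.1 hIB) h)
        · exact absurd h2 ((Finset.disjoint_left.1 hAB) (hA' h))
      · exact h
    · rintro ⟨h1, h2⟩; exact ⟨h1, hB' h2⟩
  have hcond1 : ∀ g ⊆ ed (I ∪ A ∪ B), ∀ h ⊆ ed (I ∪ A), (vs (g ∪ h) ∩ A ⊆ A' ∧ vs g ∩ B ⊆ B') ↔
      (g ⊆ ed (I ∪ A' ∪ B') ∧ h ⊆ ed (I ∪ A')) := by
    intro g hg h hh
    have hvg := vs_subset hg
    have hvh := vs_subset hh
    constructor
    · rintro ⟨h1, h2⟩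
      constructor
      · refine subset_ed (fun e he => (mem_ed.1 (hg he)).2) fun v hv => ?_
        have hv' := hvg hv
        rcases mem_union.1 hv' with h3 | h3
        · rcases mem_union.1 h3 with h3 | h3
          · exact mem_union_left _ (mem_union_left _ h3)
          · refine mem_union_left _ (mem_union_right _ (h1 (mem_inter.2 ⟨?_, h3⟩)))
            obtain ⟨e, he, hve⟩ := idn_mem_vs.1 hv
            exact idn_mem_vs.2 ⟨e, mem_union_left _ he, hve⟩
        · exact mem_union_right _ (h2 (mem_inter.2 ⟨hv, h3⟩))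
      · refine subset_ed (fun e he => (mem_ed.1 (hh he)).2) fun v hv => ?_
        rcases mem_union.1 (hvh hv) with h3 | h3
        · exact mem_union_left _ h3
        · refine mem_union_right _ (h1 (mem_inter.2 ⟨?_, h3⟩))
          obtain ⟨e, he, hve⟩ := idn_mem_vs.1 hv
          exact idn_mem_vs.2 ⟨e, mem_union_right _ he, hve⟩
    · rintro ⟨h1, h2⟩
      have hg' := vs_subset h1
      have hh' := vs_subset h2
      constructor
      · intro v hv
        rw [mem_inter] at hv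
        obtain ⟨e, he, hve⟩ := idn_mem_vs.1 hv.1
        rcases mem_union.1 he with he | he
        · have h3 : v ∈ vs g ∩ A := mem_inter.2 ⟨idn_mem_vs.2 ⟨e, he, hve⟩, hv.2⟩
          rw [hvA g hg'] at h3
          exact (mem_inter.1 h3).2
        · have h3 : v ∈ vs h ∩ A := mem_inter.2 ⟨idn_mem_vs.2 ⟨e, he, hve⟩, hv.2⟩
          rw [hvA h (hh'.trans subset_union_left)] at h3
          exact (mem_inter.1 h3).2
      · rw [hvB g hg']; exact inter_subset_right
  -- the terms agree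
  have hterm : ∀ g ⊆ ed (I ∪ A' ∪ B'), ∀ h ⊆ ed (I ∪ A') \ g,
      sexp (ucr A' B' u) g * sexp (ust I A' u) h * sexp u (((ed (I ∪ A') \ ed I) \ g) \ h) *
        sexp u ((ed (I ∪ B') \ g) \ h) / (sexp u (ed (I ∪ A')) * sexp u (ed (I ∪ B'))) =
      sexp (ucr A B u) g * sexp (ust I A u) h *
        ((if vs (g ∪ h) ∩ A ⊆ A' then rho u (ed I ∪ g ∩ ed (I ∪ A) ∪ h) (I ∪ A') else 0) *
        (if vs g ∩ B ⊆ B' then rho u ((g ∪ h) ∩ ed (I ∪ B)) (I ∪ B') else 0)) := by
    intro g hg h hh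
    have hg1 : g ⊆ ed (I ∪ A ∪ B) := hg.trans (ed_mono hsub1)
    have hh0 : h ⊆ ed (I ∪ A') := hh.trans sdiff_subset
    have hh1 : h ⊆ ed (I ∪ A) := hh0.trans (ed_mono hsubA)
    obtain ⟨hc1, hc2⟩ := (hcond1 g hg1 h hh1).2 ⟨hg, hh0⟩
    rw [if_pos hc1, if_pos hc2]
    have e1 : sexp (ucr A' B' u) g = sexp (ucr A B u) g := by
      refine sexp_congr fun b hb _ => ?_
      have hvb : vs b ⊆ I ∪ A' ∪ B' := vs_subset (hb.trans hg)
      have : Cr A' B' b ↔ Cr A B b := by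
        unfold Cr
        rw [hvA b hvb, hvB b hvb]
      unfold ucr
      simp only [this]
    have e2 : sexp (ust I A' u) h = sexp (ust I A u) h := by
      refine sexp_congr fun b hb _ => ?_
      have hvb : vs b ⊆ I ∪ A' := vs_subset (hb.trans hh0)
      have h1 : vs b ∩ A = vs b ∩ A' := hvA b (hvb.trans subset_union_left)
      unfold ust
      rw [h1]
      have h2 : vs b ⊆ I ∪ A := hvb.trans hsubA
      simp only [hvb, h2, true_and]
    have e3 : ((ed (I ∪ A') \ ed I) \ g) \ h = ed (I ∪ A') \ (ed I ∪ g ∩ ed (I ∪ A) ∪ h) := by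
      ext e
      simp only [mem_sdiff, mem_union, mem_inter, not_or, not_and]
      constructor
      · rintro ⟨⟨⟨h1, h2⟩, h3⟩, h4⟩
        exact ⟨h1, ⟨h2, fun h5 => absurd h5 h3⟩, h4⟩
      · rintro ⟨h1, ⟨h2, h3⟩, h4⟩
        exact ⟨⟨⟨h1, h2⟩, fun h5 => h3 h5 (ed_mono hsubA h1)⟩, h4⟩
    have e4 : (ed (I ∪ B') \ g) \ h = ed (I ∪ B') \ ((g ∪ h) ∩ ed (I ∪ B)) := by
      ext e
      simp only [mem_sdiff, mem_union, mem_inter, not_and]
      constructor
      · rintro ⟨⟨h1, h2⟩, h3⟩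
        refine ⟨h1, fun h4 => ?_⟩
        rcases h4 with h4 | h4
        · exact absurd h4 h2
        · exact absurd h4 h3
      · rintro ⟨h1, h2⟩
        have h3 := ed_mono hsubB h1
        exact ⟨⟨h1, fun h4 => h2 (Or.inl h4) h3⟩, fun h4 => h2 (Or.inr h4) h3⟩
    unfold rho
    rw [e1, e2, e3, e4]
    ring
  have hrw : ∀ g ∈ (ed (I ∪ A ∪ B)).powerset, (∑ h ∈ (ed (I ∪ A) \ g).powerset,
      sexp (ucr A B u) g * sexp (ust I A u) h *
        ((if vs (g ∪ h) ∩ A ⊆ A' then rho u (ed I ∪ g ∩ ed (I ∪ A) ∪ h) (I ∪ A') else 0) *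
        (if vs g ∩ B ⊆ B' then rho u ((g ∪ h) ∩ ed (I ∪ B)) (I ∪ B') else 0))) =
      if g ⊆ ed (I ∪ A' ∪ B') then ∑ h ∈ (ed (I ∪ A') \ g).powerset,
      sexp (ucr A B u) g * sexp (ust I A u) h *
        ((if vs (g ∪ h) ∩ A ⊆ A' then rho u (ed I ∪ g ∩ ed (I ∪ A) ∪ h) (I ∪ A') else 0) *
        (if vs g ∩ B ⊆ B' then rho u ((g ∪ h) ∩ ed (I ∪ B)) (I ∪ B') else 0)) else 0 := by
    intro g hg
    rw [mem_powerset] at hg
    by_cases hgg : g ⊆ ed (I ∪ A' ∪ B')
    · rw [if_pos hgg]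
      symm
      refine Finset.sum_subset ?_ ?_
      · rw [powerset_mono]
        exact sdiff_subset_sdiff (ed_mono hsubA) (le_refl _)
      · intro h hh hn
        rw [mem_powerset] at hh hn
        have hh1 : h ⊆ ed (I ∪ A) := hh.trans sdiff_subset
        have hnot : ¬ (vs (g ∪ h) ∩ A ⊆ A' ∧ vs g ∩ B ⊆ B') := by
          rw [hcond1 g hg h hh1]
          rintro ⟨-, h2⟩
          apply hn
          intro e he
          exact mem_sdiff.2 ⟨h2 he, (mem_sdiff.1 (hh he)).2⟩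
        by_cases hc : vs (g ∪ h) ∩ A ⊆ A'
        · rw [if_neg fun h' => hnot ⟨hc, h'⟩]; ring
        · rw [if_neg hc]; ring
    · rw [if_neg hgg]
      refine Finset.sum_eq_zero fun h hh => ?_
      rw [mem_powerset] at hh
      have hh1 : h ⊆ ed (I ∪ A) := hh.trans sdiff_subset
      have hnot : ¬ (vs (g ∪ h) ∩ A ⊆ A' ∧ vs g ∩ B ⊆ B') := by
        rw [hcond1 g hg h hh1]
        rintro ⟨h2, -⟩
        exact hgg h2
      by_cases hc : vs (g ∪ h) ∩ A ⊆ A'
      · rw [if_neg fun h' => hnot ⟨hc, h'⟩]; ring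
      · rw [if_neg hc]; ring
  rw [Finset.sum_congr rfl hrw]
  have hsubE : (ed (I ∪ A' ∪ B')).powerset ⊆ (ed (I ∪ A ∪ B)).powerset := by
    rw [powerset_mono]; exact ed_mono hsub1
  rw [← Finset.sum_subset hsubE]
  · refine Finset.sum_congr rfl fun g hg => ?_
    rw [mem_powerset] at hg
    rw [if_pos hg, Finset.sum_div]
    refine Finset.sum_congr rfl fun h hh => ?_
    rw [mem_powerset] at hh
    exact hterm g hg h hh
  · intro g _ hn
    rw [mem_powerset] at hn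
    rw [if_neg hn]

theorem kex (u : Finset (Sym2 ι) → ℝ) {I A B : Finset ι} (hIA : Disjoint I A) (hIB : Disjoint I B)
    (hAB : Disjoint A B) :
    KK u I A B = sexp u (ed I) * ∑ g ∈ (ed (I ∪ A ∪ B)).powerset, ∑ h ∈ (ed (I ∪ A) \ g).powerset,
      sexp (ucr A B u) g * sexp (ust I A u) h *
      mob (I ∪ vs (g ∪ h) ∩ A) (I ∪ A) (rho u (ed I ∪ g ∩ ed (I ∪ A) ∪ h)) *
      mob (I ∪ vs g ∩ B) (I ∪ B) (rho u ((g ∪ h) ∩ ed (I ∪ B))) := by
  unfold KK
  have h1 : ∀ A' ∈ A.powerset, ∀ B' ∈ B.powerset,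
      (-1 : ℝ) ^ ((A \ A').card + (B \ B').card) * CC u I A' B' =
      sexp u (ed I) * ∑ g ∈ (ed (I ∪ A ∪ B)).powerset,
      ∑ h ∈ (ed (I ∪ A) \ g).powerset, sexp (ucr A B u) g * sexp (ust I A u) h *
        (((-1) ^ (A \ A').card * (if vs (g ∪ h) ∩ A ⊆ A' then
          rho u (ed I ∪ g ∩ ed (I ∪ A) ∪ h) (I ∪ A') else 0)) *
        ((-1) ^ (B \ B').card * (if vs g ∩ B ⊆ B' then
          rho u ((g ∪ h) ∩ ed (I ∪ B)) (I ∪ B') else 0))) := by
    intro A' hA' B' hB'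
    rw [mem_powerset] at hA' hB'
    rw [kex_CC u hIA hIB hAB hA' hB', mul_left_comm, pow_add]
    congr 1
    rw [Finset.mul_sum]
    refine Finset.sum_congr rfl fun g _ => ?_
    rw [Finset.mul_sum]
    refine Finset.sum_congr rfl fun h _ => ?_
    ring
  rw [Finset.sum_congr rfl fun A' hA' => Finset.sum_congr rfl fun B' hB' => h1 A' hA' B' hB']
  simp only [← Finset.mul_sum]
  congr 1
  -- interchange
  have h2 : ∀ F : Finset ι → Finset ι → Finset (Sym2 ι) → Finset (Sym2 ι) → ℝ,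
      ∑ A' ∈ A.powerset, ∑ B' ∈ B.powerset, ∑ g ∈ (ed (I ∪ A ∪ B)).powerset,
        ∑ h ∈ (ed (I ∪ A) \ g).powerset, F A' B' g h =
      ∑ g ∈ (ed (I ∪ A ∪ B)).powerset, ∑ h ∈ (ed (I ∪ A) \ g).powerset,
        ∑ A' ∈ A.powerset, ∑ B' ∈ B.powerset, F A' B' g h := by
    intro F
    have e1 : ∀ A' ∈ A.powerset, ∑ B' ∈ B.powerset, ∑ g ∈ (ed (I ∪ A ∪ B)).powerset,
        ∑ h ∈ (ed (I ∪ A) \ g).powerset, F A' B' g h =
        ∑ g ∈ (ed (I ∪ A ∪ B)).powerset, ∑ h ∈ (ed (I ∪ A) \ g).powerset,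
          ∑ B' ∈ B.powerset, F A' B' g h := by
      intro A' _
      rw [Finset.sum_comm]
      refine Finset.sum_congr rfl fun g _ => ?_
      rw [Finset.sum_comm]
    rw [Finset.sum_congr rfl e1, Finset.sum_comm]
    refine Finset.sum_congr rfl fun g _ => ?_
    rw [Finset.sum_comm]
  rw [h2]
  refine Finset.sum_congr rfl fun g _ => Finset.sum_congr rfl fun h _ => ?_
  rw [← kex_mob hIA (T := vs (g ∪ h) ∩ A) inter_subset_right,
    ← kex_mob hIB (T := vs g ∩ B) inter_subset_right, mul_assoc (_ * _), Finset.sum_mul_sum,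
    Finset.mul_sum]
  refine Finset.sum_congr rfl fun A' _ => ?_
  rw [Finset.mul_sum]

end Pool.Agent.Lib.MP_0430e4_lc.L3
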