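import Pool.Agent.Lib.MP_0430e4_lc.L3.KSB

/-!
# THB: the bound for the blocks inside `I ∪ A` that contain an edge of `I`

PROOF. Expand `sexp (ust I A (u x)) h` over the partitions `π` of `h`: a product over the blocks; if all `ust` are not 0 each block contains an edge of `ed I` and meets `A` (so it has at least two edges), `vs b ⊆ I ∪ A`, and `Blk.bd` with `S₀ = I` gives `Bd I (I ∪ vs b) η`;
`bd_mul` block by block (`S₂ = I ∪ vs b` etc., `S₀' = I`), the constant is `η ^ |π| ≤ η` if `h ≠ ∅` (`η ≤ 1`), `I ∪ vs h ∩ A = I ∪ vs h` since `vs h ⊆ I ∪ A`; at most `2 ^ (2 ^ (m ^ 2))` partitions (`card_parts_le`, `bd_sum`). `h = ∅`: the value is 1, `bd_self`.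
-/

set_option autoImplicit false

namespace Pool.Agent.Lib.MP_0430e4_lc.L3

open Finset

theorem thb_mem_vs {ι : Type} [DecidableEq ι] {g : Finset (Sym2 ι)} {v : ι} :
    v ∈ vs g ↔ ∃ e ∈ g, v ∈ e := by
  unfold vs
  simp only [mem_biUnion, Sym2.mem_toFinset]

theorem thb_block {ι Γ : Type} [Fintype ι] [DecidableEq ι] [Fintype Γ] [DecidableEq Γ]
    {ok : Γ → Γ → Prop} {M η : ℝ} (hM : 0 < M) {u : (ι → Γ) → Finset (Sym2 ι) → ℝ}
    (hu : Blk ok M η u) {I A : Finset ι} (hIA : Disjoint I A) {b : Finset (Sym2 ι)}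
    (hb : b ⊆ ed (I ∪ A)) :
    Dep (I ∪ vs b ∩ A) (fun x => ust I A (u x) b) ∧
      Bd ok M I (I ∪ vs b ∩ A) η (fun x => ust I A (u x) b) := by
  by_cases hc : vs b ⊆ I ∪ A ∧ (vs b ∩ A).Nonempty ∧ (b ∩ ed I).Nonempty
  · have hs : vs b ⊆ I ∪ vs b ∩ A := by
      intro v hv
      rcases mem_union.1 (hc.1 hv) with h1 | h1
      · exact mem_union_left _ h1
      · exact mem_union_right _ (mem_inter.2 ⟨hv, h1⟩)
    have he : I ∪ vs b = I ∪ vs b ∩ A := by
      apply Subset.antisymm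
      · exact union_subset subset_union_left hs
      · exact union_subset_union (Subset.refl _) inter_subset_left
    have hfun : (fun x => ust I A (u x) b) = fun x => u x b := by
      funext x
      unfold ust
      rw [if_pos hc]
    rw [hfun]
    refine ⟨dep_mono (hu.dep b) hs, ?_⟩
    rw [← he]
    obtain ⟨e, heI⟩ := hc.2.2
    have heb : e ∈ b := (mem_inter.1 heI).1
    have heI2 := mem_ed.1 (mem_inter.1 heI).2
    have hnd : ∀ e ∈ b, ¬ e.IsDiag := fun e he => (mem_ed.1 (hb he)).2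
    refine hu.bd I b ?_ hnd ⟨e, heb, heI2.1⟩
    obtain ⟨v, hv⟩ := hc.2.1
    obtain ⟨hvb, hvA⟩ := mem_inter.1 hv
    obtain ⟨e', he'b, hve'⟩ := thb_mem_vs.1 hvb
    have hne : e ≠ e' := by
      rintro rfl
      have h1 : v ∈ e.toFinset := Sym2.mem_toFinset.2 hve'
      exact disjoint_left.1 hIA (heI2.1 h1) hvA
    exact one_lt_card.2 ⟨e, heb, e', he'b, hne⟩
  · have hfun : (fun x => ust I A (u x) b) = fun _ : ι → Γ => (0 : ℝ) := by
      funext x
      unfold ust
      rw [if_neg hc]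
    rw [hfun]
    exact ⟨fun _ _ _ => rfl, bd_zero hM _⟩

theorem thb_prod {ι Γ : Type} [Fintype ι] [DecidableEq ι] [Fintype Γ] [DecidableEq Γ]
    {ok : Γ → Γ → Prop} {M η : ℝ} (hM : 0 < M) {u : (ι → Γ) → Finset (Sym2 ι) → ℝ}
    (hu : Blk ok M η u) {I A : Finset ι} (hIA : Disjoint I A) (s : Finset (Finset (Sym2 ι)))
    (hs : ∀ b ∈ s, b ⊆ ed (I ∪ A)) :
    Dep (I ∪ s.biUnion (fun b => vs b ∩ A)) (fun x => ∏ b ∈ s, ust I A (u x) b) ∧
      Bd ok M I (I ∪ s.biUnion (fun b => vs b ∩ A)) (η ^ s.card)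
        (fun x => ∏ b ∈ s, ust I A (u x) b) := by
  induction s using Finset.induction_on with
  | empty =>
    simp only [prod_empty, biUnion_empty, union_empty, card_empty, pow_zero]
    refine ⟨fun _ _ _ => rfl, bd_self ?_⟩
    intro x _
    rw [abs_one]
  | insert b s hbs ih =>
    obtain ⟨d1, b1⟩ := ih fun b' hb' => hs b' (mem_insert_of_mem hb')
    obtain ⟨d2, b2⟩ := thb_block hM hu hIA (hs b (mem_insert_self _ _))
    have hset : (I ∪ vs b ∩ A) ∪ (I ∪ s.biUnion (fun b => vs b ∩ A)) =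
        I ∪ (insert b s).biUnion (fun b => vs b ∩ A) := by
      rw [biUnion_insert]
      ext v
      simp only [mem_union]
      tauto
    have hfun : (fun x => ∏ b' ∈ insert b s, ust I A (u x) b') =
        fun x => ust I A (u x) b * ∏ b' ∈ s, ust I A (u x) b' := by
      funext x
      rw [prod_insert hbs]
    rw [hfun, ← hset, card_insert_of_notMem hbs, pow_succ']
    refine ⟨?_, bd_mul hM d2 d1 b2 b1 subset_union_left⟩
    have d1' := dep_mono d1 (subset_union_right (s₁ := I ∪ vs b ∩ A))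
    have d2' := dep_mono d2 (subset_union_left (s₂ := I ∪ s.biUnion (fun b => vs b ∩ A)))
    intro x z hxz
    have e1 := d1' x z hxz
    have e2 := d2' x z hxz
    simp only at e1 e2 ⊢
    rw [e1, e2]

theorem theta_bd (m : ℕ) : ∃ C : ℝ, 1 ≤ C ∧
    ∀ {ι Γ : Type} [Fintype ι] [DecidableEq ι] [Fintype Γ] [DecidableEq Γ]
      (_ : Fintype.card ι ≤ m) {ok : Γ → Γ → Prop} {M η : ℝ} (_ : 0 < M) (_ : 0 ≤ η)
      (_ : η ≤ 1) {u : (ι → Γ) → Finset (Sym2 ι) → ℝ} (_ : Blk ok M η u)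
      (I A : Finset ι) (_ : Disjoint I A) (h : Finset (Sym2 ι)) (_ : h ⊆ ed (I ∪ A)),
      Bd ok M I (I ∪ vs h ∩ A) (if h = ∅ then 1 else C * η) (fun x => sexp (ust I A (u x)) h) := by
  refine ⟨2 ^ (2 ^ (m ^ 2)), one_le_pow₀ (by norm_num), ?_⟩
  intro ι Γ _ _ _ _ hm ok M η hM hη hη1 u hu I A hIA h hh
  by_cases h0 : h = ∅
  · subst h0
    rw [if_pos rfl]
    have e1 : vs (∅ : Finset (Sym2 ι)) = ∅ := by
      unfold vs
      exact biUnion_empty
    rw [e1, empty_inter, union_empty]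
    refine bd_self ?_
    intro x _
    rw [sexp_empty, abs_one]
  · rw [if_neg h0]
    have hsum : Bd ok M I (I ∪ vs h ∩ A) ((parts h).card * η)
        (fun x => ∑ π ∈ parts h, ∏ b ∈ π, ust I A (u x) b) := by
      refine bd_sum (parts h) hM hη ?_
      intro π hπ
      obtain ⟨hp1, _, hp3⟩ := mem_parts.1 hπ
      have hsub : ∀ b ∈ π, b ⊆ h := by
        intro b hb
        rw [← hp3]
        exact subset_biUnion_of_mem id hb
      obtain ⟨_, hB⟩ := thb_prod hM hu hIA π fun b hb => (hsub b hb).trans hh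
      have hset : π.biUnion (fun b => vs b ∩ A) = vs h ∩ A := by
        ext v
        simp only [mem_biUnion, mem_inter, thb_mem_vs]
        constructor
        · rintro ⟨b, hb, ⟨e, he, hve⟩, hvA⟩
          exact ⟨⟨e, hsub b hb he, hve⟩, hvA⟩
        · rintro ⟨⟨e, he, hve⟩, hvA⟩
          rw [← hp3, mem_biUnion] at he
          obtain ⟨b, hb, heb⟩ := he
          exact ⟨b, hb, ⟨e, heb, hve⟩, hvA⟩
      rw [hset] at hB
      have hπne : π.card ≠ 0 := by
        intro hc
        rw [card_eq_zero] at hc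
        rw [hc, biUnion_empty] at hp3
        exact h0 hp3.symm
      exact bd_mono hM hB (pow_nonneg hη _) (pow_le_of_le_one hη hη1 hπne)
    have hsum2 : Bd ok M I (I ∪ vs h ∩ A) ((parts h).card * η)
        (fun x => sexp (ust I A (u x)) h) := hsum
    refine bd_mono hM hsum2 (mul_nonneg (Nat.cast_nonneg _) hη) ?_
    apply mul_le_mul_of_nonneg_right _ hη
    have hcard : h.card ≤ m ^ 2 :=
      ((card_le_card hh).trans (card_ed_le _)).trans (Nat.pow_le_pow_left hm 2)
    calc ((parts h).card : ℝ) ≤ ((2 ^ (2 ^ h.card) : ℕ) : ℝ) := by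
          exact_mod_cast card_parts_le h
      _ ≤ ((2 ^ (2 ^ (m ^ 2)) : ℕ) : ℝ) := by
          exact_mod_cast Nat.pow_le_pow_right (by norm_num)
            (Nat.pow_le_pow_right (by norm_num) hcard)
      _ = 2 ^ (2 ^ (m ^ 2)) := by push_cast; rfl

end Pool.Agent.Lib.MP_0430e4_lc.L3
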