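import Pool.Agent.Lib.MP_0430e4_lc.L3.KBR
import Pool.Agent.Lib.MP_0430e4_lc.L3.KEX
import Pool.Agent.Lib.MP_0430e4_lc.L3.THB

/-!
# KBD: the bound for the kernels `KK`

PROOF. `kex`. `0 ≤ sexp (u x) (ed I) ≤ 2 ^ (m ^ 2)` (`sexp_bounds`; it depends only on the coordinates in `I`). At most `4 ^ (m ^ 2)` terms, bound each (with square roots / `(∑ a_j)^2 ≤ k ∑ a_j^2`). The term `g = h = ∅`: the last factor is `mob I (I ∪ B)` of
`rho u ∅ S = sexp u (ed S) / sexp u (ed S) = 1` on the good configurations (`q z ≠ 0`), so 0 (`mob_const`, `mob_congr`). Term `g ≠ ∅`: `kb_comp` with `A' = vs g ∩ A`, `B' = vs g ∩ B`, `G = sexp (ucr ..) g` (`Crh`),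
`a = sexp (ust ..) h * mob (..)`: `bd_mul` with `S₀ = I ∪ A'`, `S₂ = I ∪ A' ∪ (vs h ∩ A)` (`theta_bd`, `bd_union`), `S₃ = I ∪ A`, `S₀' = I ∪ vs (g ∪ h) ∩ A` (`ksb`), then `R = A \ A'`; `p y ≠ 0` implies that `y` is good on `I ∪ A`;
`b = mob (..)`: `ksb`, `bd_base`, `R = B \ B'`. The product of the constants is `η² (N/M)^(|A'|+|B'|) * C (N/M)^(|A \ A'|) * C (N/M)^(|B \ B'|)`. Term `g = ∅`, `h ≠ ∅`: `kb_comp` with `A' = B' = ∅`, `G = 1`, `c = 1`; the factor `η²` comes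
from `theta_bd` (`(h ∩ ed (I ∪ B)) ⊆ ed I`, so `ksb` with `S₀ = I` for `b`).
-/

set_option autoImplicit false

namespace Pool.Agent.Lib.MP_0430e4_lc.L3

open Finset

section

variable {ι Γ : Type} [Fintype ι] [DecidableEq ι] [Fintype Γ] [DecidableEq Γ]

theorem kbd_vs_mono {b g : Finset (Sym2 ι)} (h : b ⊆ g) : vs b ⊆ vs g :=
  biUnion_subset_biUnion_of_subset_left _ h

theorem kbd_mem_vs {g : Finset (Sym2 ι)} {e : Sym2 ι} (he : e ∈ g) : e.toFinset ⊆ vs g :=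
  subset_biUnion_of_mem Sym2.toFinset he

theorem kbd_vs_union (g h : Finset (Sym2 ι)) : vs (g ∪ h) = vs g ∪ vs h := by
  unfold vs
  rw [union_biUnion]

theorem kbd_vs_empty : vs (∅ : Finset (Sym2 ι)) = ∅ := by
  unfold vs
  rw [biUnion_empty]

theorem kbd_dep_sexp {v : (ι → Γ) → Finset (Sym2 ι) → ℝ} (g : Finset (Sym2 ι))
    (h : ∀ b, Dep (vs b) (fun x => v x b)) : Dep (vs g) (fun x => sexp (v x) g) :=
  fun x z hz => sexp_congr (fun b hb _ => h b x z (fun w hw => hz w (kbd_vs_mono hb hw)))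

theorem kbd_dep_ucr {u : (ι → Γ) → Finset (Sym2 ι) → ℝ} (hu : ∀ b, Dep (vs b) (fun x => u x b))
    (A B : Finset ι) (b : Finset (Sym2 ι)) : Dep (vs b) (fun x => ucr A B (u x) b) := by
  intro x z hz
  have := hu b x z hz
  simp only [ucr] at this ⊢
  rw [this]

theorem kbd_dep_ust {u : (ι → Γ) → Finset (Sym2 ι) → ℝ} (hu : ∀ b, Dep (vs b) (fun x => u x b))
    (I A : Finset ι) (b : Finset (Sym2 ι)) : Dep (vs b) (fun x => ust I A (u x) b) := by
  intro x z hz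
  have := hu b x z hz
  simp only [ust] at this ⊢
  rw [this]

theorem kbd_dep_mob {u : (ι → Γ) → Finset (Sym2 ι) → ℝ} (hu : ∀ b, Dep (vs b) (fun x => u x b))
    (S₀ S₁ : Finset ι) (F : Finset (Sym2 ι)) : Dep S₁ (fun x => mob S₀ S₁ (rho (u x) F)) := by
  refine dep_mob (g := fun x S => rho (u x) F S) (fun S _ => ?_)
  intro x z hz
  have h1 := dep_sexp hu (sdiff_subset (s := ed S) (t := F)) x z hz
  have h2 := dep_sexp hu (Subset.refl (ed S)) x z hz
  simp only [rho] at h1 h2 ⊢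
  rw [h1, h2]

variable {ok : Γ → Γ → Prop} {M η : ℝ} {u : (ι → Γ) → Finset (Sym2 ι) → ℝ} {I A B : Finset ι}

open Classical in
/-- from `Bd` to the hypotheses of the composition lemma -/
theorem kbd_use {c : ℝ} {a p : (ι → Γ) → ℝ} {A' : Finset ι} (hIA : Disjoint I A)
    (h : Bd ok M (I ∪ A') (I ∪ A) c a) (hp : ∀ z, p z ≠ 0 → gd ok z (I ∪ A)) (z : ι → Γ) :
    sm (A \ A') (fun y => if p y = 0 then 0 else a y ^ 2) z ≤
      c ^ 2 * ((Fintype.card Γ : ℝ) / M) ^ (A \ A').card := by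
  refine le_trans (sm_mono (fun y _ => ?_)) (h (A \ A') ?_ z)
  · by_cases h0 : p y = 0
    · rw [if_pos h0]
      split_ifs
      · positivity
      · exact le_rfl
    · rw [if_neg h0, if_pos (hp y h0)]
  · intro v hv
    rw [mem_sdiff] at hv ⊢
    refine ⟨mem_union_right _ hv.1, fun h => ?_⟩
    rcases mem_union.1 h with h | h
    · exact Finset.disjoint_left.1 hIA h hv.1
    · exact hv.2 h

theorem kbd_term {C₁ C₂ : ℝ} (hM : 0 < M) (hη : 0 ≤ η) (hη1 : η ≤ 1) (hC₁ : 1 ≤ C₁)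
    (hC₂ : 1 ≤ C₂) (hu : Blk ok M η u) (hC8 : 8 ^ ((Fintype.card ι) ^ 2) * 4 * η ≤ 1)
    (hIA : Disjoint I A) (hIB : Disjoint I B) (hAB : Disjoint A B) (hB : B.Nonempty)
    (hcr : Crh ok M η u I A B) (x : ι → Γ) (hx : gd ok x I)
    (hksb : ∀ S₀ S₁ : Finset ι, S₀ ⊆ S₁ → ∀ F : Finset (Sym2 ι), F ⊆ ed S₀ →
      Bd ok M S₀ S₁ C₁ (fun x => mob S₀ S₁ (rho (u x) F)))
    (hth : ∀ h : Finset (Sym2 ι), h ⊆ ed (I ∪ A) → Bd ok M I (I ∪ vs h ∩ A)
      (if h = ∅ then 1 else C₂ * η) (fun x => sexp (ust I A (u x)) h))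
    {p q : (ι → Γ) → ℝ} (hp : Ind B p) (hq : Ind A q)
    (hpg : ∀ z, p z ≠ 0 → gd ok z (I ∪ A)) (hqg : ∀ z, q z ≠ 0 → gd ok z (I ∪ B))
    {g h : Finset (Sym2 ι)} (hg : g ⊆ ed (I ∪ A ∪ B)) (hh : h ⊆ ed (I ∪ A)) :
    sm (A ∪ B) (fun z => sexp (ucr A B (u z)) g *
      (sexp (ust I A (u z)) h * mob (I ∪ vs (g ∪ h) ∩ A) (I ∪ A)
        (rho (u z) (ed I ∪ g ∩ ed (I ∪ A) ∪ h))) *
      mob (I ∪ vs g ∩ B) (I ∪ B) (rho (u z) ((g ∪ h) ∩ ed (I ∪ B))) * p z * q z) x ^ 2 ≤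
      (C₂ * C₁ ^ 2) ^ 2 * η ^ 2 * ((Fintype.card Γ : ℝ) / M) ^ (A.card + B.card) *
        (sm A (fun z => p z ^ 2) x * sm B (fun z => q z ^ 2) x) := by
  have hρ : 0 ≤ (Fintype.card Γ : ℝ) / M := by positivity
  have hP : 0 ≤ sm A (fun z => p z ^ 2) x := sm_nonneg (fun z => sq_nonneg _)
  have hQ : 0 ≤ sm B (fun z => q z ^ 2) x := sm_nonneg (fun z => sq_nonneg _)
  have hR : 0 ≤ (C₂ * C₁ ^ 2) ^ 2 * η ^ 2 * ((Fintype.card Γ : ℝ) / M) ^ (A.card + B.card) *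
        (sm A (fun z => p z ^ 2) x * sm B (fun z => q z ^ 2) x) := by positivity
  by_cases h00 : g = ∅ ∧ h = ∅
  · obtain ⟨rfl, rfl⟩ := h00
    have h0 : sm (A ∪ B) (fun z => sexp (ucr A B (u z)) ∅ *
      (sexp (ust I A (u z)) ∅ * mob (I ∪ vs (∅ ∪ ∅) ∩ A) (I ∪ A)
        (rho (u z) (ed I ∪ ∅ ∩ ed (I ∪ A) ∪ ∅))) *
      mob (I ∪ vs ∅ ∩ B) (I ∪ B) (rho (u z) ((∅ ∪ ∅) ∩ ed (I ∪ B))) * p z * q z) x =
        sm (A ∪ B) (fun _ => (0 : ℝ) * 0) x := by
      refine sm_congr (fun z _ => ?_)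
      by_cases hq0 : q z = 0
      · rw [hq0, mul_zero, mul_zero]
      · have hgz := hqg z hq0
        have h1 : mob (I ∪ vs ∅ ∩ B) (I ∪ B) (rho (u z) ((∅ ∪ ∅) ∩ ed (I ∪ B))) = 0 := by
          rw [kbd_vs_empty, empty_inter, union_empty, union_empty, empty_inter]
          have h2 : mob I (I ∪ B) (rho (u z) ∅) = mob I (I ∪ B) (fun _ => (1 : ℝ)) := by
            refine mob_congr (fun S _ hS => ?_)
            unfold rho
            rw [sdiff_empty]
            have := (sexp_bounds hη hu hC8 (gd_mono hgz hS) (Subset.refl (ed S))).1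
            exact div_self (ne_of_gt (lt_of_lt_of_le (by positivity) this))
          rw [h2]
          refine mob_const ?_ 1
          refine Finset.ssubset_iff_subset_ne.2 ⟨subset_union_left, fun h => ?_⟩
          obtain ⟨b, hb⟩ := hB
          have : b ∈ I := by
            rw [h]
            exact mem_union_right _ hb
          exact Finset.disjoint_left.1 hIB this hb
        rw [h1]
        ring
    rw [h0, sm_const_mul, zero_mul, zero_pow two_ne_zero]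
    exact hR
  -- the general case
  set A' := vs g ∩ A with hA'
  set B' := vs g ∩ B with hB'
  have hA'A : A' ⊆ A := inter_subset_right
  have hB'B : B' ⊆ B := inter_subset_right
  set a : (ι → Γ) → ℝ := fun z => sexp (ust I A (u z)) h * mob (I ∪ vs (g ∪ h) ∩ A) (I ∪ A)
        (rho (u z) (ed I ∪ g ∩ ed (I ∪ A) ∪ h)) with ha
  set b : (ι → Γ) → ℝ := fun z =>
    mob (I ∪ B') (I ∪ B) (rho (u z) ((g ∪ h) ∩ ed (I ∪ B))) with hb
  set G : (ι → Γ) → ℝ := fun z => sexp (ucr A B (u z)) g with hG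
  have hdG : Dep (vs g) G := kbd_dep_sexp g (kbd_dep_ucr hu.dep A B)
  have hvsh : vs h ⊆ I ∪ A := vs_subset hh
  have hdth : Dep (vs h) (fun z => sexp (ust I A (u z)) h) :=
    kbd_dep_sexp h (kbd_dep_ust hu.dep I A)
  have hda : Dep (I ∪ A) a := by
    intro y z hz
    have h1 := hdth y z (fun v hv => hz v (hvsh hv))
    have h2 := kbd_dep_mob hu.dep (I ∪ vs (g ∪ h) ∩ A) (I ∪ A)
      (ed I ∪ g ∩ ed (I ∪ A) ∪ h) y z hz
    simp only [ha] at h1 h2 ⊢
    rw [h1, h2]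
  have hdb : Dep (I ∪ B) b := kbd_dep_mob hu.dep _ _ _
  have hIG : Ind ((A \ A') ∪ (B \ B')) G := by
    refine ind_of_dep hdG ?_
    rw [Finset.disjoint_left]
    intro v hv hvg
    rcases mem_union.1 hv with h1 | h1
    · rw [mem_sdiff] at h1
      exact h1.2 (mem_inter.2 ⟨hvg, h1.1⟩)
    · rw [mem_sdiff] at h1
      exact h1.2 (mem_inter.2 ⟨hvg, h1.1⟩)
  have hIa : Ind B a := ind_of_dep hda (disjoint_union_right.2 ⟨hIB.symm, hAB.symm⟩)
  have hIb : Ind A b := ind_of_dep hdb (disjoint_union_right.2 ⟨hIA.symm, hAB⟩)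
  -- the bound for a
  set cθ : ℝ := if h = ∅ then 1 else C₂ * η with hcθ
  have hcθ0 : 0 ≤ cθ := by
    rw [hcθ]
    split_ifs
    · exact zero_le_one
    · positivity
  have hSa : I ∪ vs (g ∪ h) ∩ A ⊆ I ∪ A := union_subset_union_right inter_subset_right
  have hFa : ed I ∪ g ∩ ed (I ∪ A) ∪ h ⊆ ed (I ∪ vs (g ∪ h) ∩ A) := by
    refine union_subset (union_subset (ed_mono subset_union_left) ?_) ?_
    · intro e he
      rw [mem_inter] at he
      obtain ⟨he1, he2⟩ := mem_ed.1 he.2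
      refine mem_ed.2 ⟨fun v hv => ?_, he2⟩
      rcases mem_union.1 (he1 hv) with h1 | h1
      · exact mem_union_left _ h1
      · exact mem_union_right _ (mem_inter.2
          ⟨kbd_mem_vs (mem_union_left _ he.1) hv, h1⟩)
    · intro e he
      obtain ⟨he1, he2⟩ := mem_ed.1 (hh he)
      refine mem_ed.2 ⟨fun v hv => ?_, he2⟩
      rcases mem_union.1 (he1 hv) with h1 | h1
      · exact mem_union_left _ h1
      · exact mem_union_right _ (mem_inter.2
          ⟨kbd_mem_vs (mem_union_right _ he) hv, h1⟩)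
  have hBa : Bd ok M (I ∪ A') (I ∪ A) (cθ * C₁) a := by
    have h1 := bd_union hM (hth h hh) A'
    have h2 := hksb _ _ hSa _ hFa
    have h3 := bd_mul (S₀ := I ∪ A') (S₂ := I ∪ vs h ∩ A ∪ A') (S₃ := I ∪ A) hM
      (f := fun z => sexp (ust I A (u z)) h)
      (g := fun z => mob (I ∪ vs (g ∪ h) ∩ A) (I ∪ A) (rho (u z) (ed I ∪ g ∩ ed (I ∪ A) ∪ h)))
      (dep_mono hdth (fun v hv => by
        rcases mem_union.1 (hvsh hv) with h4 | h4
        · exact mem_union_left _ (mem_union_left _ h4)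
        · exact mem_union_left _ (mem_union_right _ (mem_inter.2 ⟨hv, h4⟩))))
      (kbd_dep_mob hu.dep _ _ _) h1 h2 (by
        rw [kbd_vs_union]
        intro v hv
        rcases mem_union.1 hv with h4 | h4
        · exact mem_union_left _ (mem_union_left _ h4)
        · rw [mem_inter, mem_union] at h4
          rcases h4.1 with h5 | h5
          · exact mem_union_left _ (mem_union_right _ (mem_inter.2 ⟨h5, h4.2⟩))
          · exact mem_union_right _ (mem_union_left _ (mem_union_right _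
              (mem_inter.2 ⟨h5, h4.2⟩))))
    have h4 : I ∪ vs h ∩ A ∪ A' ∪ (I ∪ A) = I ∪ A :=
      union_eq_right.2 (union_subset (union_subset_union_right inter_subset_right)
        (hA'A.trans subset_union_right))
    rw [h4] at h3
    exact h3
  -- the bound for b
  have hFb : (g ∪ h) ∩ ed (I ∪ B) ⊆ ed (I ∪ B') := by
    intro e he
    rw [mem_inter, mem_union] at he
    obtain ⟨he1, he2⟩ := mem_ed.1 he.2
    refine mem_ed.2 ⟨fun v hv => ?_, he2⟩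
    rcases mem_union.1 (he1 hv) with h1 | h1
    · exact mem_union_left _ h1
    · rcases he.1 with h2 | h2
      · exact mem_union_right _ (mem_inter.2 ⟨kbd_mem_vs h2 hv, h1⟩)
      · have h3 := (mem_ed.1 (hh h2)).1 hv
        rcases mem_union.1 h3 with h4 | h4
        · exact mem_union_left _ h4
        · exact absurd h1 (Finset.disjoint_left.1 hAB h4)
  have hBb : Bd ok M (I ∪ B') (I ∪ B) C₁ b :=
    hksb _ _ (union_subset_union_right hB'B) _ hFb
  -- the kernel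
  have hKB : ∃ c : ℝ, 0 ≤ c ∧ KB A' B' G c x ∧ c * cθ ^ 2 ≤
      C₂ ^ 2 * η ^ 2 * ((Fintype.card Γ : ℝ) / M) ^ (A'.card + B'.card) := by
    by_cases hg0 : g = ∅
    · have hh0 : h ≠ ∅ := fun h1 => h00 ⟨hg0, h1⟩
      have e1 : A' = ∅ := by rw [hA', hg0, kbd_vs_empty, empty_inter]
      have e2 : B' = ∅ := by rw [hB', hg0, kbd_vs_empty, empty_inter]
      refine ⟨1, zero_le_one, ?_, ?_⟩
      · rw [e1, e2]
        intro p' q' _ _
        rw [union_empty, sm_empty, sm_empty, sm_empty]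
        have e3 : G x = 1 := by
          rw [hG]
          simp only
          rw [hg0, sexp_empty]
        rw [e3]
        apply le_of_eq
        ring
      · rw [e1, e2, hcθ, if_neg hh0]
        simp only [card_empty, add_zero, pow_zero, mul_one, one_mul]
        apply le_of_eq
        ring
    · refine ⟨η ^ 2 * ((Fintype.card Γ : ℝ) / M) ^ (A'.card + B'.card), by positivity,
        hcr g (nonempty_iff_ne_empty.2 hg0) hg x hx, ?_⟩
      have h1 : cθ ≤ C₂ := by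
        rw [hcθ]
        split_ifs
        · exact hC₂
        · nlinarith
      have h2 : cθ ^ 2 ≤ C₂ ^ 2 := pow_le_pow_left₀ hcθ0 h1 2
      calc η ^ 2 * ((Fintype.card Γ : ℝ) / M) ^ (A'.card + B'.card) * cθ ^ 2
          ≤ η ^ 2 * ((Fintype.card Γ : ℝ) / M) ^ (A'.card + B'.card) * C₂ ^ 2 :=
            mul_le_mul_of_nonneg_left h2 (by positivity)
        _ = _ := by ring
  obtain ⟨c, hc0, hK, hcc⟩ := hKB
  have key := kb_comp hAB hA'A hB'B (G := G) (a := a) (b := b) (c := c)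
    (ca := (cθ * C₁) ^ 2 * ((Fintype.card Γ : ℝ) / M) ^ (A \ A').card)
    (cb := C₁ ^ 2 * ((Fintype.card Γ : ℝ) / M) ^ (B \ B').card) hc0 (by positivity)
    (by positivity) hIG hIa hIb hK hp hq
    (fun z _ => kbd_use hIA hBa hpg z) (fun z _ => kbd_use hIB hBb hqg z)
  refine key.trans (mul_le_mul_of_nonneg_right ?_ (by positivity))
  have e1 : A.card + B.card = (A'.card + B'.card) + (A \ A').card + (B \ B').card := by
    have h1 := card_sdiff_add_card_eq_card hA'A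
    have h2 := card_sdiff_add_card_eq_card hB'B
    omega
  rw [e1, pow_add, pow_add]
  calc c * ((cθ * C₁) ^ 2 * ((Fintype.card Γ : ℝ) / M) ^ (A \ A').card) *
        (C₁ ^ 2 * ((Fintype.card Γ : ℝ) / M) ^ (B \ B').card)
      = (c * cθ ^ 2) * (C₁ ^ 4 * (((Fintype.card Γ : ℝ) / M) ^ (A \ A').card *
        ((Fintype.card Γ : ℝ) / M) ^ (B \ B').card)) := by ring
    _ ≤ (C₂ ^ 2 * η ^ 2 * ((Fintype.card Γ : ℝ) / M) ^ (A'.card + B'.card)) *
        (C₁ ^ 4 * (((Fintype.card Γ : ℝ) / M) ^ (A \ A').card *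
        ((Fintype.card Γ : ℝ) / M) ^ (B \ B').card)) :=
        mul_le_mul_of_nonneg_right hcc (by positivity)
    _ = _ := by ring

end

theorem kbd (m : ℕ) : ∃ C : ℝ, 1 ≤ C ∧
    ∀ {ι Γ : Type} [Fintype ι] [DecidableEq ι] [Fintype Γ] [DecidableEq Γ]
      (_ : Fintype.card ι ≤ m) {ok : Γ → Γ → Prop} {M η : ℝ} (_ : 0 < M) (_ : 0 ≤ η)
      (_ : C * η ≤ 1) {u : (ι → Γ) → Finset (Sym2 ι) → ℝ} (_ : Blk ok M η u)
      {I A B : Finset ι} (_ : Disjoint I A) (_ : Disjoint I B) (_ : Disjoint A B)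
      (_ : A.Nonempty) (_ : B.Nonempty) (_ : Crh ok M η u I A B) (x : ι → Γ) (_ : gd ok x I)
      (p q : (ι → Γ) → ℝ) (_ : Ind B p) (_ : Ind A q)
      (_ : ∀ z, p z ≠ 0 → gd ok z (I ∪ A)) (_ : ∀ z, q z ≠ 0 → gd ok z (I ∪ B)),
      sm (A ∪ B) (fun z => KK (u z) I A B * p z * q z) x ^ 2 ≤
        (C * η) ^ 2 * ((Fintype.card Γ : ℝ) / M) ^ (A.card + B.card) *
          (sm A (fun z => p z ^ 2) x * sm B (fun z => q z ^ 2) x) := by
  obtain ⟨C₁, hC₁, hksb⟩ := ksb m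
  obtain ⟨C₂, hC₂, hth⟩ := theta_bd m
  set C₀ : ℝ := 2 ^ (m ^ 2) * 4 ^ (m ^ 2) * (C₂ * C₁ ^ 2) with hC₀
  have hC₀0 : 0 ≤ C₀ := by positivity
  have h8 : (0 : ℝ) ≤ 8 ^ (m ^ 2) * 4 := by positivity
  refine ⟨C₀ + C₁ + 8 ^ (m ^ 2) * 4, by linarith, ?_⟩
  intro ι Γ _ _ _ _ hm ok M η hM hη hCη u hu I A B hIA hIB hAB hA hB hcr x hx p q hp hq hpg hqg
  have hC₁η : C₁ * η ≤ 1 := by nlinarith
  have hη1 : η ≤ 1 := by nlinarith
  have hC8 : (8 : ℝ) ^ ((Fintype.card ι) ^ 2) * 4 * η ≤ 1 := by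
    have h3 : (8 : ℝ) ^ ((Fintype.card ι) ^ 2) ≤ 8 ^ (m ^ 2) :=
      pow_le_pow_right₀ (by norm_num) (Nat.pow_le_pow_left hm 2)
    have h4 : (8 : ℝ) ^ ((Fintype.card ι) ^ 2) * 4 * η ≤ 8 ^ (m ^ 2) * 4 * η :=
      mul_le_mul_of_nonneg_right (by linarith) hη
    have h5 : 0 ≤ C₀ * η := mul_nonneg hC₀0 hη
    have h6 : 0 ≤ C₁ * η := by positivity
    have h7 : (C₀ + C₁ + 8 ^ (m ^ 2) * 4) * η = C₀ * η + C₁ * η + 8 ^ (m ^ 2) * 4 * η := by ring
    linarith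
  have hρ : 0 ≤ (Fintype.card Γ : ℝ) / M := by positivity
  have hP : 0 ≤ sm A (fun z => p z ^ 2) x := sm_nonneg (fun z => sq_nonneg _)
  have hQ : 0 ≤ sm B (fun z => q z ^ 2) x := sm_nonneg (fun z => sq_nonneg _)
  set T : Finset (Sigma fun _ : Finset (Sym2 ι) => Finset (Sym2 ι)) :=
    (ed (I ∪ A ∪ B)).powerset.sigma (fun g => (ed (I ∪ A) \ g).powerset) with hT
  set tm : (Sigma fun _ : Finset (Sym2 ι) => Finset (Sym2 ι)) → (ι → Γ) → ℝ := fun t z =>
    sexp (ucr A B (u z)) t.1 *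
      (sexp (ust I A (u z)) t.2 * mob (I ∪ vs (t.1 ∪ t.2) ∩ A) (I ∪ A)
        (rho (u z) (ed I ∪ t.1 ∩ ed (I ∪ A) ∪ t.2))) *
      mob (I ∪ vs t.1 ∩ B) (I ∪ B) (rho (u z) ((t.1 ∪ t.2) ∩ ed (I ∪ B))) * p z * q z with htm
  have hedc : ∀ S : Finset ι, (ed S).card ≤ m ^ 2 := fun S =>
    (card_ed_le S).trans (Nat.pow_le_pow_left hm 2)
  have hTc : (T.card : ℝ) ≤ 4 ^ (m ^ 2) := by
    have h1 : T.card ≤ 4 ^ (m ^ 2) := by
      rw [hT, card_sigma]
      have h2 : ∀ g ∈ (ed (I ∪ A ∪ B)).powerset, ((ed (I ∪ A) \ g).powerset).card ≤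
          2 ^ (m ^ 2) := by
        intro g _
        rw [card_powerset]
        exact Nat.pow_le_pow_right (by norm_num) ((card_le_card sdiff_subset).trans (hedc _))
      refine (sum_le_card_nsmul _ _ _ h2).trans ?_
      rw [smul_eq_mul, card_powerset]
      calc 2 ^ (ed (I ∪ A ∪ B)).card * 2 ^ (m ^ 2) ≤ 2 ^ (m ^ 2) * 2 ^ (m ^ 2) :=
            Nat.mul_le_mul_right _ (Nat.pow_le_pow_right (by norm_num) (hedc _))
        _ = 4 ^ (m ^ 2) := by
            rw [← mul_pow]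
            norm_num
    exact_mod_cast h1
  have hmain : sm (A ∪ B) (fun z => KK (u z) I A B * p z * q z) x =
      sexp (u x) (ed I) * ∑ t ∈ T, sm (A ∪ B) (tm t) x := by
    rw [← sm_sum, ← sm_const_mul]
    refine sm_congr (fun z hz => ?_)
    have h1 : sexp (u z) (ed I) = sexp (u x) (ed I) := by
      refine dep_sexp hu.dep (Subset.refl (ed I)) x z (fun v hv => hz v (fun h2 => ?_))
      rcases mem_union.1 h2 with h3 | h3
      · exact Finset.disjoint_left.1 hIA hv h3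
      · exact Finset.disjoint_left.1 hIB hv h3
    rw [kex (u z) hIA hIB hAB, h1, hT, sum_sigma, mul_assoc, mul_assoc]
    congr 1
    rw [sum_mul]
    refine sum_congr rfl (fun g _ => ?_)
    rw [sum_mul]
    refine sum_congr rfl (fun h _ => ?_)
    rw [htm]
    simp only
    ring
  have hterm : ∀ t ∈ T, sm (A ∪ B) (tm t) x ^ 2 ≤
      (C₂ * C₁ ^ 2) ^ 2 * η ^ 2 * ((Fintype.card Γ : ℝ) / M) ^ (A.card + B.card) *
        (sm A (fun z => p z ^ 2) x * sm B (fun z => q z ^ 2) x) := by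
    intro t ht
    rw [hT, mem_sigma, mem_powerset, mem_powerset] at ht
    exact kbd_term hM hη hη1 hC₁ hC₂ hu hC8 hIA hIB hAB hB hcr x hx
      (fun S₀ S₁ hS F hF => hksb hm hM hη hC₁η hu S₀ S₁ hS F hF)
      (fun h hh => hth hm hM hη hη1 hu I A hIA h hh) hp hq hpg hqg ht.1
      (ht.2.trans sdiff_subset)
  set K : ℝ := (C₂ * C₁ ^ 2) ^ 2 * η ^ 2 * ((Fintype.card Γ : ℝ) / M) ^ (A.card + B.card) *
        (sm A (fun z => p z ^ 2) x * sm B (fun z => q z ^ 2) x) with hK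
  have hK0 : 0 ≤ K := by positivity
  have hs := sexp_bounds hη hu hC8 hx (Subset.refl (ed I))
  have hs0 : 0 ≤ sexp (u x) (ed I) := le_trans (by positivity) hs.1
  have hs1 : sexp (u x) (ed I) ≤ 2 ^ (m ^ 2) :=
    hs.2.trans (pow_le_pow_right₀ one_le_two (hedc I))
  have hsum : (∑ t ∈ T, sm (A ∪ B) (tm t) x) ^ 2 ≤ (4 ^ (m ^ 2)) ^ 2 * K := by
    refine (sq_sum_le_card_mul_sum_sq).trans ?_
    have h1 : ∑ t ∈ T, sm (A ∪ B) (tm t) x ^ 2 ≤ (4 ^ (m ^ 2)) * K := by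
      refine (sum_le_card_nsmul _ _ _ hterm).trans ?_
      rw [nsmul_eq_mul]
      exact mul_le_mul_of_nonneg_right hTc hK0
    calc (T.card : ℝ) * ∑ t ∈ T, sm (A ∪ B) (tm t) x ^ 2
        ≤ 4 ^ (m ^ 2) * (4 ^ (m ^ 2) * K) :=
          mul_le_mul hTc h1 (sum_nonneg fun _ _ => sq_nonneg _) (by positivity)
      _ = _ := by ring
  rw [hmain, mul_pow]
  calc sexp (u x) (ed I) ^ 2 * (∑ t ∈ T, sm (A ∪ B) (tm t) x) ^ 2
      ≤ (2 ^ (m ^ 2)) ^ 2 * ((4 ^ (m ^ 2)) ^ 2 * K) :=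
        mul_le_mul (pow_le_pow_left₀ hs0 hs1 2) hsum (sq_nonneg _) (by positivity)
    _ = (C₀ * η) ^ 2 * (((Fintype.card Γ : ℝ) / M) ^ (A.card + B.card) *
        (sm A (fun z => p z ^ 2) x * sm B (fun z => q z ^ 2) x)) := by
        rw [hK, hC₀]
        ring
    _ ≤ ((C₀ + C₁ + 8 ^ (m ^ 2) * 4) * η) ^ 2 *
        (((Fintype.card Γ : ℝ) / M) ^ (A.card + B.card) *
        (sm A (fun z => p z ^ 2) x * sm B (fun z => q z ^ 2) x)) := by
        refine mul_le_mul_of_nonneg_right (pow_le_pow_left₀ (by positivity) ?_ 2) (by positivity)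
        exact mul_le_mul_of_nonneg_right (by linarith) hη
    _ = _ := by ring

end Pool.Agent.Lib.MP_0430e4_lc.L3
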