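import Pool.Agent.Lib.MP_0430e4_lc.L3.TEN

/-!
# LOD: the local kernel (definitions)
-/

set_option autoImplicit false

namespace Pool.Agent.Lib.MP_0430e4_lc.L3

open Finset
open Lin (W wt sg)

variable {ι : Type*} [Fintype ι] [DecidableEq ι]

/-- The character of the set `P` of vertices. -/
def chp (P : Finset ι) (ξ : ι → ZMod 2) : ℝ := ∏ v ∈ P, sg (ξ v)

/-- Glueing. -/
def gl {Γ : Type*} (A B : Finset ι) (x : ι → Γ) (a : {v // v ∈ A} → Γ) (b : {v // v ∈ B} → Γ) :
    ι → Γ :=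
  fun v => if h : v ∈ A then a ⟨v, h⟩ else if h' : v ∈ B then b ⟨v, h'⟩ else x v

/-- The part of the local kernel that does not depend on the free vertices. -/
noncomputable def Pl (A B : Finset ι) (g : Finset (Sym2 ι)) (s : Finset (Sym2 ι) → ℂ)
    (ξ : ι → ZMod 2) : ℂ :=
  ∑ F ∈ g.powerset.filter (fun F => F.Nonempty ∧ par F ∩ A = ∅ ∧ par F ∩ B = ∅),
    s F * (chp (par F) ξ : ℂ)

end Pool.Agent.Lib.MP_0430e4_lc.L3
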