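import Pool.Agent.Lib.MP_0430e4_lc.L3.SMR
import Pool.Agent.Lib.MP_0430e4_lc.L3.LOD

/-!
# KBT: kernels in coordinates

PROOF. The configurations `z` with `z v = x v` for `v ∉ A ∪ B` are the `gl A B x a b` (bijection with the pairs `(a, b)`); `p (gl A B x a b)` does not depend on `b` if `Ind B p`.
Given `p : ({v // v ∈ A} → Γ) → ℝ` use the function `z ↦ p (fun v => z v)`.
-/

set_option autoImplicit false

namespace Pool.Agent.Lib.MP_0430e4_lc.L3

open Finset

variable {ι : Type*} [Fintype ι] [DecidableEq ι] {Γ : Type*} [Fintype Γ] [DecidableEq Γ]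

theorem sm_gl {A B : Finset ι} (hAB : Disjoint A B) (F : (ι → Γ) → ℝ) (x : ι → Γ) :
    sm (A ∪ B) F x = ∑ a : {v // v ∈ A} → Γ, ∑ b : {v // v ∈ B} → Γ, F (gl A B x a b) := by
  rw [← Fintype.sum_prod_type' (f := fun (a : {v // v ∈ A} → Γ) (b : {v // v ∈ B} → Γ) =>
    F (gl A B x a b))]
  unfold sm
  symm
  refine Finset.sum_bij' (fun ab _ => gl A B x ab.1 ab.2)
    (fun z _ => ((fun v => z v.1 : {v // v ∈ A} → Γ), (fun v => z v.1 : {v // v ∈ B} → Γ)))
    ?_ ?_ ?_ ?_ ?_
  · intro ab _
    refine mem_filter.2 ⟨mem_univ _, fun v hv => ?_⟩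
    have h1 : v ∉ A := fun h => hv (mem_union_left _ h)
    have h2 : v ∉ B := fun h => hv (mem_union_right _ h)
    simp only [gl, dif_neg h1, dif_neg h2]
  · intro z _
    exact mem_univ _
  · rintro ⟨a, b⟩ _
    refine Prod.ext (funext fun v => ?_) (funext fun v => ?_)
    · change gl A B x a b v.1 = a v
      simp only [gl, dif_pos v.2]
    · change gl A B x a b v.1 = b v
      have h1 : v.1 ∉ A := fun h => (Finset.disjoint_left.1 hAB h) v.2
      simp only [gl, dif_neg h1, dif_pos v.2]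
  · intro z hz
    funext v
    have hz' := (mem_filter.1 hz).2 v
    change gl A B x (fun v => z v.1) (fun v => z v.1) v = z v
    by_cases h1 : v ∈ A
    · simp only [gl, dif_pos h1]
    · by_cases h2 : v ∈ B
      · simp only [gl, dif_neg h1, dif_pos h2]
      · simp only [gl, dif_neg h1, dif_neg h2]
        refine (hz' fun h => ?_).symm
        rcases mem_union.1 h with h | h
        · exact h1 h
        · exact h2 h
  · intro ab _
    rfl

/-- one set of variables -/
def kbt_ex (A : Finset ι) (x : ι → Γ) (a : {v // v ∈ A} → Γ) : ι → Γ :=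
  fun v => if h : v ∈ A then a ⟨v, h⟩ else x v

theorem kbt_sm1 (A : Finset ι) (F : (ι → Γ) → ℝ) (x : ι → Γ) :
    sm A F x = ∑ a : {v // v ∈ A} → Γ, F (kbt_ex A x a) := by
  unfold sm
  symm
  refine Finset.sum_bij' (fun a _ => kbt_ex A x a) (fun z _ => (fun v => z v.1 : {v // v ∈ A} → Γ))
    ?_ ?_ ?_ ?_ ?_
  · intro a _
    refine mem_filter.2 ⟨mem_univ _, fun v hv => ?_⟩
    simp only [kbt_ex, dif_neg hv]
  · intro z _
    exact mem_univ _
  · intro a _
    funext v
    simp only [kbt_ex, dif_pos v.2]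
  · intro z hz
    funext v
    have hz' := (mem_filter.1 hz).2 v
    by_cases h1 : v ∈ A
    · simp only [kbt_ex, dif_pos h1]
    · simp only [kbt_ex, dif_neg h1]
      exact (hz' h1).symm
  · intro a _
    rfl

theorem kb_iff {A B : Finset ι} (hAB : Disjoint A B) (K : (ι → Γ) → ℝ) (c : ℝ) (x : ι → Γ) :
    KB A B K c x ↔ ∀ (p : ({v // v ∈ A} → Γ) → ℝ) (q : ({v // v ∈ B} → Γ) → ℝ),
      (∑ a, ∑ b, K (gl A B x a b) * p a * q b) ^ 2 ≤ c * ((∑ a, p a ^ 2) * ∑ b, q b ^ 2) := by
  constructor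
  · intro h p q
    have h1 := h (fun z => p (fun v => z v.1)) (fun z => q (fun v => z v.1)) (by
      intro y z hz
      refine congrArg p (funext fun v => hz _ fun hB => (Finset.disjoint_left.1 hAB v.2) hB)) (by
      intro y z hz
      refine congrArg q (funext fun v => hz _ fun hA => (Finset.disjoint_left.1 hAB hA) v.2))
    rw [sm_gl hAB, kbt_sm1, kbt_sm1] at h1
    have e1 : ∀ (a : {v // v ∈ A} → Γ) (b : {v // v ∈ B} → Γ),
        (fun v : {v // v ∈ A} => gl A B x a b v.1) = a := by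
      intro a b
      funext v
      simp only [gl, dif_pos v.2]
    have e2 : ∀ (a : {v // v ∈ A} → Γ) (b : {v // v ∈ B} → Γ),
        (fun v : {v // v ∈ B} => gl A B x a b v.1) = b := by
      intro a b
      funext v
      have h1 : v.1 ∉ A := fun h => (Finset.disjoint_left.1 hAB h) v.2
      simp only [gl, dif_neg h1, dif_pos v.2]
    have e3 : ∀ a : {v // v ∈ A} → Γ, (fun v : {v // v ∈ A} => kbt_ex A x a v.1) = a := by
      intro a
      funext v
      simp only [kbt_ex, dif_pos v.2]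
    have e4 : ∀ b : {v // v ∈ B} → Γ, (fun v : {v // v ∈ B} => kbt_ex B x b v.1) = b := by
      intro b
      funext v
      simp only [kbt_ex, dif_pos v.2]
    simp only [e1, e2, e3, e4] at h1
    exact h1
  · intro h P Q hP hQ
    have h1 := h (fun a => P (kbt_ex A x a)) (fun b => Q (kbt_ex B x b))
    rw [sm_gl hAB, kbt_sm1, kbt_sm1]
    have e1 : ∀ (a : {v // v ∈ A} → Γ) (b : {v // v ∈ B} → Γ),
        P (gl A B x a b) = P (kbt_ex A x a) := by
      intro a b
      refine hP _ _ fun v hv => ?_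
      by_cases h1 : v ∈ A
      · simp only [gl, kbt_ex, dif_pos h1]
      · simp only [gl, kbt_ex, dif_neg h1, dif_neg hv]
    have e2 : ∀ (a : {v // v ∈ A} → Γ) (b : {v // v ∈ B} → Γ),
        Q (gl A B x a b) = Q (kbt_ex B x b) := by
      intro a b
      refine hQ _ _ fun v hv => ?_
      by_cases h1 : v ∈ B
      · simp only [gl, kbt_ex, dif_neg hv, dif_pos h1]
      · simp only [gl, kbt_ex, dif_neg hv, dif_neg h1]
    simp only [e1, e2]
    exact h1

end Pool.Agent.Lib.MP_0430e4_lc.L3
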