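import Pool.Agent.Lib.MP_0430e4_lc.L3.KPR

/-!
# KLS: labelled sums times products of edge functions

PROOF. `Ls_chw`: for one labelling `C` the function at `e ∈ g'` is `chw (lab C e) * h e`; `OP` is invariant under multiplication with a character (`chw w (x + y) = chw w x * chw w y`), `|chw| = 1`, so `kpr` applies. `kn_sum`, `kn_smul`, `Ls_abs` (`∑ w, |f (wt w)| ≤ BV`, `1 ≤ BV`, `|g'| ≤ |g|`).
-/

set_option autoImplicit false

namespace Pool.Agent.Lib.MP_0430e4_lc.L3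

open Finset
open Lin (W wt chw evW EW al flat SymW)
open L2 (Ev OP)

variable {ι : Type*} [Fintype ι] [DecidableEq ι] {n : ℕ} {A B : Finset ι}

theorem kls_sq (w x : W n) : chw w x ^ 2 = 1 := by
  rw [← sq_abs, Lin.abs_chw, one_pow]

/-- `OP` is invariant under multiplication with a character -/
theorem kls_op {h : W n → ℝ} {ρ : ℝ} (hop : OP (V := Ev n) (fun x y => h ((x : W n) + (y : W n))) ρ)
    (w : W n) :
    OP (V := Ev n) (fun x y => chw w ((x : W n) + (y : W n)) * h ((x : W n) + (y : W n))) ρ := by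
  intro p r
  have h1 := hop (fun x => chw w (x : W n) * p x) (fun y => chw w (y : W n) * r y)
  have e1 : ∀ x : Ev n, (chw w (x : W n) * p x) ^ 2 = p x ^ 2 := by
    intro x
    rw [mul_pow, kls_sq, one_mul]
  have e2 : ∀ x : Ev n, (chw w (x : W n) * r x) ^ 2 = r x ^ 2 := by
    intro x
    rw [mul_pow, kls_sq, one_mul]
  simp only [e1, e2] at h1
  refine le_trans (le_of_eq ?_) h1
  congr 1
  refine sum_congr rfl fun x _ => sum_congr rfl fun y _ => ?_
  have e3 : chw w ((x : W n) + (y : W n)) = chw w (x : W n) * chw w (y : W n) := by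
    rw [Lin.chw_comm, Lin.chw_add, Lin.chw_comm (x : W n), Lin.chw_comm (y : W n)]
  change chw w ((x : W n) + (y : W n)) * h ((x : W n) + (y : W n)) * p x * r y = _
  rw [e3]
  ring

theorem kls (hAB : Disjoint A B) {g g' : Finset (Sym2 ι)} (hg : ∀ e ∈ g, ¬ e.IsDiag)
    (hg' : g' ⊆ g)
    (h : Sym2 ι → W n → ℝ) {s : Sym2 ι → ℝ} (hs : ∀ e ∈ g, 0 ≤ s e) {e₀ : Sym2 ι}
    (he₀ : e₀ ∈ xed A B g) {ρ : ℝ} (hρ : 0 ≤ ρ)
    (hb : ∀ e ∈ g, e ≠ e₀ → ∀ w ∈ evW n, |h e w| ≤ s e)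
    (hop : OP (V := Ev n) (fun x y => h e₀ ((x : W n) + (y : W n))) ρ)
    {f : ℕ → ℝ} {BV : ℝ} (hBV : 1 ≤ BV) (hf : ∑ w : W n, |f (wt w)| ≤ BV)
    {c : (Fin n → Finset (Sym2 ι)) → ℝ} {c₀ : ℝ} (hc₀ : 0 ≤ c₀) (hc : ∀ C, |c C| ≤ c₀)
    (x : ι → Ev n) :
    KN A B (fun z : ι → Ev n => Ls g' (fun _ => f) c (xe (vw z)) * ∏ e ∈ g, h e (xe (vw z) e))
      (c₀ * BV ^ g.card * (ρ * ∏ e ∈ g.erase e₀, s e)) x := by
  classical
  set r : ℝ := ρ * ∏ e ∈ g.erase e₀, s e with hr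
  have hr0 : 0 ≤ r := mul_nonneg hρ (prod_nonneg fun e he => hs e (mem_of_mem_erase he))
  set P := Fintype.piFinset (fun _ : Fin n => g'.powerset) with hP
  have h1 : ∀ C ∈ P, KN A B (fun z : ι → Ev n => ∏ e ∈ g,
      (if e ∈ g' then chw (lab C e) (xe (vw z) e) * h e (xe (vw z) e) else h e (xe (vw z) e)))
      r x := by
    intro C _
    refine kpr hAB hg (fun e w => if e ∈ g' then chw (lab C e) w * h e w else h e w) hs he₀ hρ
      ?_ ?_ x
    · intro e he hne w hw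
      split_ifs
      · rw [abs_mul, Lin.abs_chw, one_mul]
        exact hb e he hne w hw
      · exact hb e he hne w hw
    · by_cases h2 : e₀ ∈ g'
      · simp only [if_pos h2]
        exact kls_op hop _
      · simp only [if_neg h2]
        exact hop
  have h2 : KN A B (fun z : ι → Ev n => ∑ C ∈ P, (c C * ∏ e ∈ g', f (oc C {e})) * ∏ e ∈ g,
      (if e ∈ g' then chw (lab C e) (xe (vw z) e) * h e (xe (vw z) e) else h e (xe (vw z) e)))
      (∑ C ∈ P, |c C * ∏ e ∈ g', f (oc C {e})| * r) x :=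
    kn_sum P (fun C _ => mul_nonneg (abs_nonneg _) hr0) fun C hC => kn_smul (h1 C hC) _
  have h3 : ∑ C ∈ P, |c C * ∏ e ∈ g', f (oc C {e})| * r ≤ c₀ * BV ^ g.card * r := by
    rw [← sum_mul]
    refine mul_le_mul_of_nonneg_right ?_ hr0
    refine (Ls_abs g' (fun _ => f) hc).trans (mul_le_mul_of_nonneg_left ?_ hc₀)
    rw [prod_const]
    have h4 : 0 ≤ ∑ w : W n, |f (wt w)| := sum_nonneg fun _ _ => abs_nonneg _
    exact (pow_le_pow_left₀ h4 hf _).trans (pow_le_pow_right₀ hBV (card_le_card hg'))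
  refine kn_congr (kn_mono h2 (sum_nonneg fun C _ => mul_nonneg (abs_nonneg _) hr0) h3) ?_
  intro z _
  rw [Ls_chw, sum_mul]
  refine sum_congr rfl fun C _ => ?_
  have h5 : ∀ e ∈ g, (if e ∈ g' then chw (lab C e) (xe (vw z) e) * h e (xe (vw z) e)
      else h e (xe (vw z) e)) =
      (if e ∈ g' then chw (lab C e) (xe (vw z) e) else 1) * h e (xe (vw z) e) := by
    intro e _
    split_ifs
    · rfl
    · rw [one_mul]
  rw [prod_congr rfl h5, prod_mul_distrib, prod_ite_mem, inter_eq_right.2 hg']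
  ring

end Pool.Agent.Lib.MP_0430e4_lc.L3
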