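import Pool.Agent.Lib.MP_0430e4_lc.L3.Defs
import Pool.Agent.Lib.MP_0430e4_lc.Las.PSD

/-!
# PSE: the expansion of the moment form

PROOF. `kn_inv`: Moebius inversion in both variables. `pse`: insert the definition of `Sn`, exchange the sums: for `A ⊇ I ∪ A₁`, `B ⊇ I ∪ B₁` the powers of `u` are `u^|I| u^|A₁| u^(|A|-|I ∪ A₁|) u^|B₁| u^(|B|-|I ∪ B₁|) = u^(|A|+|B|-|I|)`; the sum over `A₁ ⊆ A \ I`, `B₁ ⊆ B \ I` of
`Kn w I A₁ B₁` is `Cn w I (A \ I) (B \ I)` (`kn_inv`), which is 0 unless `A ∩ B = I`, and `w A * w B / w I * Cn w I (A \ I) (B \ I) = w (A ∪ B)` for `A ∩ B = I` if `w (A ∪ B) ≠ 0` (heredity: then `w A`, `w B`, `w I ≠ 0`), and if `w (A ∪ B) = 0` both sides are 0.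
Only sets with at most `t` elements have `f ≠ 0`, so `|A ∪ B| ≤ 2 t`.
-/

set_option autoImplicit false

namespace Pool.Agent.Lib.MP_0430e4_lc.L3

open Finset

variable {V : Type*} [Fintype V] [DecidableEq V]

/-- The conditional kernel of a set function. -/
noncomputable def Cn (w : Finset V → ℝ) (I A B : Finset V) : ℝ :=
  if Disjoint A B then w (I ∪ A ∪ B) * w I / (w (I ∪ A) * w (I ∪ B)) else 0

/-- Its Moebius transform. -/
noncomputable def Kn (w : Finset V → ℝ) (I A B : Finset V) : ℝ :=
  ∑ A' ∈ A.powerset, ∑ B' ∈ B.powerset, (-1) ^ ((A \ A').card + (B \ B').card) * Cn w I A' B'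

/-- The conditional sums. -/
noncomputable def Sn (w : Finset V → ℝ) (u : ℝ) (f : Finset V → ℝ) (J : Finset V) : ℝ :=
  ∑ A ∈ univ.filter (fun A : Finset V => J ⊆ A), u ^ (A.card - J.card) * w A * f A

/-- the Moebius transform in one variable -/
noncomputable def pseM (g : Finset V → ℝ) (A : Finset V) : ℝ :=
  ∑ A' ∈ A.powerset, (-1) ^ (A \ A').card * g A'

theorem pseM_insert {a : V} {A : Finset V} (ha : a ∉ A) (g : Finset V → ℝ) :
    pseM g (insert a A) = - pseM g A + pseM (fun S => g (insert a S)) A := by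
  unfold pseM
  rw [sum_powerset_insert ha, ← sum_neg_distrib]
  refine congrArg₂ _ (sum_congr rfl fun t ht => ?_) (sum_congr rfl fun t ht => ?_)
  · have hat : a ∉ t := fun h => ha (mem_powerset.1 ht h)
    have h1 : (insert a A \ t).card = (A \ t).card + 1 := by
      rw [insert_sdiff_of_notMem _ hat, card_insert_of_notMem]
      exact fun h => ha (mem_sdiff.1 h).1
    rw [h1, pow_succ]
    ring
  · have h1 : insert a A \ insert a t = A \ t := by
      ext x
      simp only [mem_sdiff, mem_insert, not_or]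
      constructor
      · rintro ⟨h1 | h1, h2, h3⟩
        · exact absurd h1 h2
        · exact ⟨h1, h3⟩
      · rintro ⟨h1, h3⟩
        exact ⟨Or.inr h1, fun h => ha (h ▸ h1), h3⟩
    rw [h1]

theorem pse_inv1 (A : Finset V) : ∀ g : Finset V → ℝ, ∑ A' ∈ A.powerset, pseM g A' = g A := by
  induction A using Finset.induction_on with
  | empty =>
    intro g
    simp [pseM]
  | insert a A ha ih =>
    intro g
    rw [sum_powerset_insert ha]
    have h1 : ∑ t ∈ A.powerset, pseM g (insert a t) =
        ∑ t ∈ A.powerset, (- pseM g t + pseM (fun S => g (insert a S)) t) :=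
      sum_congr rfl fun t ht => pseM_insert (fun h => ha (mem_powerset.1 ht h)) g
    rw [h1, sum_add_distrib, sum_neg_distrib, ih g, ih]
    ring

theorem pse_kn (w : Finset V → ℝ) (I A B : Finset V) :
    Kn w I A B = pseM (fun A' => pseM (fun B' => Cn w I A' B') B) A := by
  unfold Kn pseM
  refine sum_congr rfl fun A' _ => ?_
  rw [mul_sum]
  refine sum_congr rfl fun B' _ => ?_
  rw [pow_add]
  ring

theorem pseM_sum {κ : Type*} (s : Finset κ) (g : κ → Finset V → ℝ) (A : Finset V) :
    ∑ j ∈ s, pseM (g j) A = pseM (fun A' => ∑ j ∈ s, g j A') A := by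
  unfold pseM
  rw [sum_comm]
  refine sum_congr rfl fun A' _ => ?_
  rw [mul_sum]

theorem kn_inv (w : Finset V → ℝ) (I A B : Finset V) :
    ∑ A' ∈ A.powerset, ∑ B' ∈ B.powerset, Kn w I A' B' = Cn w I A B := by
  have h1 : ∀ A', ∑ B' ∈ B.powerset, Kn w I A' B' = pseM (fun A'' => Cn w I A'' B) A' := by
    intro A'
    have h2 : ∀ B', Kn w I A' B' = pseM (fun A'' => pseM (fun B'' => Cn w I A'' B'') B') A' :=
      fun B' => pse_kn w I A' B'
    rw [sum_congr rfl fun B' _ => h2 B', pseM_sum]
    unfold pseM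
    refine sum_congr rfl fun A'' _ => ?_
    have h3 := pse_inv1 B (fun B'' => Cn w I A'' B'')
    unfold pseM at h3
    exact congrArg (fun z => (-1 : ℝ) ^ (A' \ A'').card * z) h3
  rw [sum_congr rfl fun A' _ => h1 A', pse_inv1]

/-- the inner transform -/
theorem pse_inner (w : Finset V → ℝ) {u : ℝ} (hu : 0 < u) (f : Finset V → ℝ) (I : Finset V)
    (g : Finset V → ℝ) :
    ∑ A ∈ univ.filter (fun A : Finset V => Disjoint I A), g A * (u ^ A.card * Sn w u f (I ∪ A)) =
      ∑ A ∈ univ.filter (fun A : Finset V => I ⊆ A),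
        (u ^ (A.card - I.card) * w A * f A) * ∑ A₁ ∈ (A \ I).powerset, g A₁ := by
  have h1 : ∀ A₁ ∈ univ.filter (fun A : Finset V => Disjoint I A),
      g A₁ * (u ^ A₁.card * Sn w u f (I ∪ A₁)) =
      ∑ A ∈ univ.filter (fun A : Finset V => I ∪ A₁ ⊆ A),
        (u ^ (A.card - I.card) * w A * f A) * g A₁ := by
    intro A₁ hA₁
    have hd := (mem_filter.1 hA₁).2
    unfold Sn
    rw [mul_sum, mul_sum]
    refine sum_congr rfl fun A hA => ?_
    have hsub := (mem_filter.1 hA).2
    have hc : (I ∪ A₁).card = I.card + A₁.card := card_union_of_disjoint hd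
    have hle : (I ∪ A₁).card ≤ A.card := card_le_card hsub
    have he : A.card - I.card = A₁.card + (A.card - (I ∪ A₁).card) := by omega
    rw [he, pow_add]
    ring
  rw [sum_congr rfl h1]
  rw [sum_comm' (t' := univ.filter (fun A : Finset V => I ⊆ A)) (s' := fun A => (A \ I).powerset)]
  · refine sum_congr rfl fun A _ => ?_
    rw [mul_sum]
  · intro A₁ A
    simp only [mem_filter, mem_univ, true_and, mem_powerset]
    constructor
    · rintro ⟨h1, h2⟩
      refine ⟨fun x hx => ?_, subset_union_left.trans h2⟩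
      exact mem_sdiff.2 ⟨h2 (mem_union_right _ hx), fun h => disjoint_left.1 h1 h hx⟩
    · rintro ⟨h1, h2⟩
      refine ⟨?_, union_subset h2 (h1.trans sdiff_subset)⟩
      rw [disjoint_left]
      exact fun x hx hx' => (mem_sdiff.1 (h1 hx')).2 hx

theorem pse {w : Finset V → ℝ} {t : ℕ} {u : ℝ} (hu : 0 < u)
    (hher : ∀ S S' : Finset V, S' ⊆ S → S.card ≤ 2 * t → w S ≠ 0 → w S' ≠ 0)
    {f : Finset V → ℝ} (hf : ∀ A : Finset V, t < A.card → f A = 0) :
    ∑ A, ∑ B, f A * f B * (u ^ (A ∪ B).card * w (A ∪ B)) =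
      ∑ I, u ^ I.card * (w I)⁻¹ *
        ∑ A ∈ univ.filter (fun A : Finset V => Disjoint I A),
          ∑ B ∈ univ.filter (fun B : Finset V => Disjoint I B),
            Kn w I A B * (u ^ A.card * Sn w u f (I ∪ A)) * (u ^ B.card * Sn w u f (I ∪ B)) := by
  classical
  -- the term
  set X : Finset V → Finset V → Finset V → ℝ := fun I A B =>
    u ^ I.card * (w I)⁻¹ * ((u ^ (A.card - I.card) * w A * f A) *
      ((u ^ (B.card - I.card) * w B * f B) * Cn w I (A \ I) (B \ I))) with hX
  have hin : ∀ I : Finset V, u ^ I.card * (w I)⁻¹ *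
        ∑ A ∈ univ.filter (fun A : Finset V => Disjoint I A),
          ∑ B ∈ univ.filter (fun B : Finset V => Disjoint I B),
            Kn w I A B * (u ^ A.card * Sn w u f (I ∪ A)) * (u ^ B.card * Sn w u f (I ∪ B)) =
      ∑ A, ∑ B, if I ⊆ A ∧ I ⊆ B then X I A B else 0 := by
    intro I
    have h1 : ∀ A : Finset V, ∑ B ∈ univ.filter (fun B : Finset V => Disjoint I B),
            Kn w I A B * (u ^ A.card * Sn w u f (I ∪ A)) * (u ^ B.card * Sn w u f (I ∪ B)) =
        (∑ B ∈ univ.filter (fun B : Finset V => I ⊆ B),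
          (u ^ (B.card - I.card) * w B * f B) * ∑ B₁ ∈ (B \ I).powerset, Kn w I A B₁) *
          (u ^ A.card * Sn w u f (I ∪ A)) := by
      intro A
      rw [← pse_inner w hu f I (fun B => Kn w I A B), sum_mul]
      refine sum_congr rfl fun B _ => ?_
      ring
    rw [sum_congr rfl fun A _ => h1 A, pse_inner w hu f I
      (fun A => ∑ B ∈ univ.filter (fun B : Finset V => I ⊆ B),
          (u ^ (B.card - I.card) * w B * f B) * ∑ B₁ ∈ (B \ I).powerset, Kn w I A B₁)]
    rw [mul_sum, sum_filter]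
    refine sum_congr rfl fun A _ => ?_
    by_cases hA : I ⊆ A
    · rw [if_pos hA, sum_comm, mul_sum, mul_sum, sum_filter]
      refine sum_congr rfl fun B _ => ?_
      by_cases hB : I ⊆ B
      · rw [if_pos hB, if_pos ⟨hA, hB⟩, ← mul_sum, kn_inv]
      · rw [if_neg hB, if_neg fun h => hB h.2]
    · rw [if_neg hA]
      symm
      refine sum_eq_zero fun B _ => ?_
      rw [if_neg fun h => hA h.1]
  rw [sum_congr rfl fun I _ => hin I]
  symm
  rw [sum_comm]
  refine sum_congr rfl fun A _ => ?_
  rw [sum_comm]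
  refine sum_congr rfl fun B _ => ?_
  rw [sum_eq_single (A ∩ B)]
  · rw [if_pos ⟨inter_subset_left, inter_subset_right⟩]
    by_cases hA : t < A.card
    · rw [hX]
      simp only [hf A hA]
      ring
    by_cases hB : t < B.card
    · rw [hX]
      simp only [hf B hB]
      ring
    have hcard : (A ∪ B).card ≤ 2 * t := (card_union_le A B).trans (by omega)
    have hdis : Disjoint (A \ (A ∩ B)) (B \ (A ∩ B)) := by
      rw [disjoint_left]
      intro x hx hx'
      rw [mem_sdiff] at hx hx'
      exact hx.2 (mem_inter.2 ⟨hx.1, hx'.1⟩)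
    have e1 : (A ∩ B) ∪ (A \ (A ∩ B)) = A := union_sdiff_of_subset inter_subset_left
    have e2 : (A ∩ B) ∪ (B \ (A ∩ B)) = B := union_sdiff_of_subset inter_subset_right
    have e3 : (A ∩ B) ∪ (A \ (A ∩ B)) ∪ (B \ (A ∩ B)) = A ∪ B := by
      rw [e1]
      ext x
      simp only [mem_union, mem_sdiff, mem_inter]
      tauto
    rw [hX]
    simp only
    unfold Cn
    rw [if_pos hdis, e3, e1, e2]
    by_cases h0 : w (A ∪ B) = 0
    · rw [h0]
      ring
    have hwA := hher _ _ (subset_union_left (s₁ := A) (s₂ := B)) hcard h0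
    have hwB := hher _ _ (subset_union_right (s₁ := A) (s₂ := B)) hcard h0
    have hwI := hher (A ∪ B) (A ∩ B) (inter_subset_left.trans subset_union_left) hcard h0
    have hc : (A ∪ B).card = (A ∩ B).card + (A.card - (A ∩ B).card) +
        (B.card - (A ∩ B).card) := by
      have h1 := card_union_add_card_inter A B
      have h2 := card_le_card (inter_subset_left (s₁ := A) (s₂ := B))
      have h3 := card_le_card (inter_subset_right (s₁ := A) (s₂ := B))
      omega
    rw [hc, pow_add, pow_add]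
    field_simp
  · intro I _ hI
    split_ifs with h
    · have hnd : ¬ Disjoint (A \ I) (B \ I) := by
        intro hd
        apply hI
        ext x
        constructor
        · intro hx
          exact mem_inter.2 ⟨h.1 hx, h.2 hx⟩
        · intro hx
          rw [mem_inter] at hx
          by_contra hxI
          exact disjoint_left.1 hd (mem_sdiff.2 ⟨hx.1, hxI⟩) (mem_sdiff.2 ⟨hx.2, hxI⟩)
      rw [hX]
      simp only
      unfold Cn
      rw [if_neg hnd]
      ring
    · rfl
  · intro h
    exact absurd (mem_univ _) h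

theorem kn_empty {w : Finset V → ℝ} {I : Finset V} (hI : w I ≠ 0) : Kn w I ∅ ∅ = 1 := by
  unfold Kn Cn
  simp only [powerset_empty, sum_singleton, Finset.sdiff_self, card_empty, add_zero, pow_zero, one_mul,
    union_empty, disjoint_empty_left, if_true]
  exact div_self (mul_ne_zero hI hI)

theorem pseM_one {A : Finset V} (hA : A.Nonempty) : pseM (fun _ => (1 : ℝ)) A = 0 := by
  obtain ⟨a, ha⟩ := hA
  rw [← insert_erase ha, pseM_insert (notMem_erase a A)]
  exact neg_add_cancel _

theorem kn_left {w : Finset V → ℝ} {I A : Finset V} (hA : A.Nonempty)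
    (h : ∀ A' ⊆ A, w (I ∪ A') ≠ 0) (hI : w I ≠ 0) : Kn w I A ∅ = 0 ∧ Kn w I ∅ A = 0 := by
  constructor
  · rw [← pseM_one hA]
    unfold Kn pseM
    refine sum_congr rfl fun A' hA' => ?_
    have h1 : Cn w I A' ∅ = 1 := by
      unfold Cn
      rw [if_pos (disjoint_empty_right _), union_empty, union_empty]
      exact div_self (mul_ne_zero (h A' (mem_powerset.1 hA')) hI)
    rw [powerset_empty, sum_singleton, h1, Finset.sdiff_self, card_empty, add_zero]
  · rw [← pseM_one hA]
    unfold Kn pseM
    rw [powerset_empty, sum_singleton]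
    refine sum_congr rfl fun A' hA' => ?_
    have h1 : Cn w I ∅ A' = 1 := by
      unfold Cn
      rw [if_pos (disjoint_empty_left _), union_empty, mul_comm (w I)]
      exact div_self (mul_ne_zero (h A' (mem_powerset.1 hA')) hI)
    rw [h1, Finset.sdiff_self, card_empty, zero_add]

end Pool.Agent.Lib.MP_0430e4_lc.L3
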