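import Pool.Agent.Lib.MP_0430e4_lc.L3.FNC
import Pool.Agent.Lib.MP_0430e4_lc.L3.PSE

/-!
# KNE: the kernels of sets and of tuples agree

PROOF. For subsets `A'' ⊆ A'`, `B'' ⊆ B'` with images `A₁`, `B₁`: if `A₁`, `B₁` are disjoint `z` is injective on `I' ∪ A'' ∪ B''` (`wt_map` with `κ = Ev n`, `τ = z`, `y v = (v : W n)`, `vw z = y ∘ z`), and all four weights agree; otherwise two vertices of `A''`, `B''` carry the same word, a bad pair
(`wt 0 = 0 < d`), so `CC = 0` by `wt_bad`, and `Cn = 0`. Reindex the powersets of `A'`, `B'` along the injection (`Finset.sum_bij`; `|A' \ A''| = |A \ A₁|`).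
-/

set_option autoImplicit false

namespace Pool.Agent.Lib.MP_0430e4_lc.L3

open Finset
open Lin (W wt sg evW)
open L2 (Ev)

/-- The weight of a set of even words. -/
noncomputable def ww {n : ℕ} (P : Pm n) (S : Finset (Ev n)) : ℝ :=
  sexp (ub P (fun v : Ev n => (v : W n))) (ed S)

theorem kne_reindex {α β : Type*} [DecidableEq α] [DecidableEq β] {z : α → β} {A : Finset α}
    (hz : Set.InjOn z A) (F : Finset β → ℝ) :
    ∑ S ∈ (A.image z).powerset, F S = ∑ S ∈ A.powerset, F (S.image z) := by
  symm
  refine Finset.sum_bij (fun S _ => S.image z) ?_ ?_ ?_ ?_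
  · intro S hS
    exact mem_powerset.2 (image_subset_image (mem_powerset.1 hS))
  · intro S hS S' hS' h
    have h1 := mem_powerset.1 hS
    have h2 := mem_powerset.1 hS'
    have h : S.image z = S'.image z := h
    ext a
    constructor
    · intro ha
      obtain ⟨a', ha', h3⟩ := mem_image.1 (h ▸ mem_image_of_mem z ha)
      rwa [← hz (h2 ha') (h1 ha) h3]
    · intro ha
      obtain ⟨a', ha', h3⟩ := mem_image.1 (h.symm ▸ mem_image_of_mem z ha)
      rwa [← hz (h1 ha') (h2 ha) h3]
  · intro S' hS'
    refine ⟨A.filter (fun a => z a ∈ S'), mem_powerset.2 (filter_subset _ _), ?_⟩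
    ext b
    rw [mem_image]
    constructor
    · rintro ⟨a, ha, rfl⟩
      exact (mem_filter.1 ha).2
    · intro hb
      obtain ⟨a, ha, rfl⟩ := mem_image.1 (mem_powerset.1 hS' hb)
      exact ⟨a, mem_filter.2 ⟨ha, hb⟩, rfl⟩
  · intro S _
    rfl

theorem kne_card {α β : Type*} [DecidableEq α] [DecidableEq β] {z : α → β} {A S : Finset α}
    (hz : Set.InjOn z A) (hS : S ⊆ A) : (A.image z \ S.image z).card = (A \ S).card := by
  rw [card_sdiff_of_subset (image_subset_image hS), card_sdiff_of_subset hS,
    card_image_of_injOn hz, card_image_of_injOn (hz.mono (by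
      intro a ha
      exact hS ha))]

theorem kne {ι : Type*} [Fintype ι] [DecidableEq ι] {n d : ℕ} (hd : 1 ≤ d) {P : Pm n}
    (hφ : ∀ w ∈ evW n, ¬ (d ≤ wt w ∧ wt w + d ≤ n) → P.φ w = -1 ∧ P.ψ w = -1)
    {I' A' B' : Finset ι} (hIA : Disjoint I' A') (hIB : Disjoint I' B') (hAB : Disjoint A' B')
    {z : ι → Ev n} (h1 : Set.InjOn z (I' ∪ A' : Finset ι)) (h2 : Set.InjOn z (I' ∪ B' : Finset ι)) :
    KK (ub P (vw z)) I' A' B' = Kn (ww P) (I'.image z) (A'.image z) (B'.image z) := by
  have hA : Set.InjOn z A' := h1.mono (by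
    intro a ha
    exact mem_union_right _ ha)
  have hB : Set.InjOn z B' := h2.mono (by
    intro a ha
    exact mem_union_right _ ha)
  have hw : ∀ T : Finset ι, Set.InjOn z T → ww P (T.image z) = sexp (ub P (vw z)) (ed T) := by
    intro T hT
    exact wt_map P hT (fun v : Ev n => (v : W n))
  unfold KK Kn
  rw [kne_reindex hA]
  refine sum_congr rfl fun A'' hA'' => ?_
  rw [kne_reindex hB]
  refine sum_congr rfl fun B'' hB'' => ?_
  rw [mem_powerset] at hA'' hB''
  rw [kne_card hA hA'', kne_card hB hB'']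
  congr 1
  unfold CC Cn
  rw [← image_union, ← image_union, ← image_union]
  have hIA'' : Set.InjOn z (I' ∪ A'' : Finset ι) := h1.mono (by
    intro a ha
    exact union_subset_union_right hA'' ha)
  have hIB'' : Set.InjOn z (I' ∪ B'' : Finset ι) := h2.mono (by
    intro a ha
    exact union_subset_union_right hB'' ha)
  have hI : Set.InjOn z I' := h1.mono (by
    intro a ha
    exact mem_union_left _ ha)
  by_cases hdis : Disjoint (A''.image z) (B''.image z)
  · rw [if_pos hdis]
    have hall : Set.InjOn z (I' ∪ A'' ∪ B'' : Finset ι) := by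
      intro a ha b hb hab
      rw [mem_coe, mem_union] at ha hb
      have hne : ∀ u ∈ A'', ∀ v ∈ B'', z u ≠ z v := by
        intro u hu v hv huv
        exact disjoint_left.1 hdis (mem_image_of_mem z hu) (huv ▸ mem_image_of_mem z hv)
      rcases ha with ha | ha
      · rcases hb with hb | hb
        · exact hIA'' ha hb hab
        · rcases mem_union.1 ha with ha' | ha'
          · exact hIB'' (mem_union_left _ ha') (mem_union_right _ hb) hab
          · exact absurd hab (hne a ha' b hb)
      · rcases hb with hb | hb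
        · rcases mem_union.1 hb with hb' | hb'
          · exact hIB'' (mem_union_right _ ha) (mem_union_left _ hb') hab
          · exact absurd hab.symm (hne b hb' a ha)
        · exact hIB'' (mem_union_right _ ha) (mem_union_right _ hb) hab
    rw [hw _ hall, hw _ hI, hw _ hIA'', hw _ hIB'']
  · rw [if_neg hdis]
    rw [disjoint_left] at hdis
    push Not at hdis
    obtain ⟨w, hwA, hwB⟩ := hdis
    obtain ⟨a, ha, haw⟩ := mem_image.1 hwA
    obtain ⟨b, hb, hbw⟩ := mem_image.1 hwB
    have hab : a ≠ b := by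
      rintro rfl
      exact disjoint_left.1 hAB (hA'' ha) (hB'' hb)
    have hbad : ¬ okw n d (z a) (z b) := by
      rintro ⟨h3, _⟩
      rw [haw, hbw, Lin.add_self_W] at h3
      have h4 : wt (0 : W n) = 0 := by
        unfold wt
        rw [card_eq_zero, filter_eq_empty_iff]
        intro i _ h
        exact h rfl
      omega
    have h0 : sexp (ub P (vw z)) (ed (I' ∪ A'' ∪ B'')) = 0 :=
      wt_bad hφ (mem_union_left _ (mem_union_right _ ha)) (mem_union_right _ hb) hab hbad
    rw [h0, zero_mul, zero_div]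

end Pool.Agent.Lib.MP_0430e4_lc.L3
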