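import Pool.Agent.Lib.MP_0430e4_lc.L3.PKA
import Pool.Agent.Lib.MP_0430e4_lc.L3.KBR

/-!
# KPR: products of edge functions with one small crossing edge

PROOF. `e₀ = s(a₀, b₀)`, `a₀ ∈ A`, `b₀ ∈ B`. For fixed values at the other vertices the product of the other factors is a function of `z a₀` times a function of `z b₀`, bounded together by `∏ s e` (no other edge contains both `a₀` and `b₀`),
`OP` for `h e₀` gives `(sum over z a₀, z b₀) ≤ N ρ ∏ s * √(∑ p²) * √(∑ q²)`; sum over the others with Cauchy-Schwarz (`sm_union`; `p` does not depend on `B`, `q` not on `A`): the factor `N ^ (|A| + |B| - 2)` under the square.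
-/

set_option autoImplicit false

namespace Pool.Agent.Lib.MP_0430e4_lc.L3

open Finset
open Lin (W wt chw evW EW al flat SymW)
open L2 (Ev OP)

variable {ι : Type*} [Fintype ι] [DecidableEq ι] {n : ℕ} {A B : Finset ι}

theorem kpr_sm_single {Γ : Type*} [Fintype Γ] [DecidableEq Γ] (a : ι) (G : (ι → Γ) → ℝ)
    (y : ι → Γ) : sm {a} G y = ∑ c : Γ, G (Function.update y a c) := by
  unfold sm
  symm
  refine sum_nbij' (fun c => Function.update y a c) (fun z => z a) ?_ ?_ ?_ ?_ ?_
  · intro c _
    simp only [mem_filter, mem_univ, true_and, mem_singleton]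
    intro v hv
    rw [Function.update_of_ne hv]
  · intro z _
    exact mem_univ _
  · intro c _
    simp
  · intro z hz
    simp only [mem_filter, mem_univ, true_and, mem_singleton] at hz
    funext v
    by_cases hv : v = a
    · subst hv
      simp
    · simp [Function.update_of_ne hv, hz v hv]
  · intro c _
    rfl

theorem kpr_xe_congr {x z : ι → Ev n} {e : Sym2 ι} (h : ∀ v ∈ e, z v = x v) :
    xe (vw z) e = xe (vw x) e := by
  induction e using Sym2.ind with
  | _ c d =>
    have h1 := h c (by simp)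
    have h2 := h d (by simp)
    simp only [xe, vw, Sym2.lift_mk, h1, h2]

/-- the sum over the two ends of the crossing edge -/
theorem kpr_pair {a b : ι} (hab : a ≠ b) {K : Ev n → Ev n → ℝ} {ρ : ℝ}
    (hop : OP (V := Ev n) K ρ) {P Q p q : (ι → Ev n) → ℝ} {sP sQ : ℝ}
    (hPb : Ind {b} P) (hQa : Ind {a} Q) (hpb : Ind {b} p) (hqa : Ind {a} q)
    (hP : ∀ z, |P z| ≤ sP) (hQ : ∀ z, |Q z| ≤ sQ) (y : ι → Ev n) :
    sm ({a} ∪ {b}) (fun z => K (z a) (z b) * P z * Q z * p z * q z) y ^ 2 ≤
      ((Fintype.card (Ev n) : ℝ) * (ρ * (sP * sQ))) ^ 2 *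
        (sm {a} (fun z => p z ^ 2) y * sm {b} (fun z => q z ^ 2) y) := by
  have hdis : Disjoint ({a} : Finset ι) {b} := disjoint_singleton.2 hab
  rw [sm_union hdis, kpr_sm_single, kpr_sm_single, kpr_sm_single]
  simp only [kpr_sm_single]
  have e1 : ∀ c d : Ev n, K (Function.update (Function.update y a c) b d a)
      (Function.update (Function.update y a c) b d b) *
      P (Function.update (Function.update y a c) b d) *
      Q (Function.update (Function.update y a c) b d) *
      p (Function.update (Function.update y a c) b d) *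
      q (Function.update (Function.update y a c) b d) =
      K c d * (P (Function.update y a c) * p (Function.update y a c)) *
        (Q (Function.update y b d) * q (Function.update y b d)) := by
    intro c d
    have f1 : ∀ v, v ∉ ({b} : Finset ι) → Function.update (Function.update y a c) b d v =
        Function.update y a c v := by
      intro v hv
      rw [mem_singleton] at hv
      rw [Function.update_of_ne hv]
    have f2 : ∀ v, v ∉ ({a} : Finset ι) → Function.update (Function.update y a c) b d v =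
        Function.update y b d v := by
      intro v hv
      rw [mem_singleton] at hv
      by_cases hvb : v = b
      · subst hvb
        simp
      · rw [Function.update_of_ne hvb, Function.update_of_ne hvb, Function.update_of_ne hv]
    rw [hPb _ _ f1, hpb _ _ f1, hQa _ _ f2, hqa _ _ f2]
    have g1 : Function.update (Function.update y a c) b d a = c := by
      rw [Function.update_of_ne hab, Function.update_self]
    have g2 : Function.update (Function.update y a c) b d b = d := Function.update_self ..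
    rw [g1, g2]
    ring
  have e2 := hop (fun c => P (Function.update y a c) * p (Function.update y a c))
    (fun d => Q (Function.update y b d) * q (Function.update y b d))
  rw [sum_congr rfl fun c _ => sum_congr rfl fun d _ => e1 c d]
  have hP2 : ∑ c : Ev n, (P (Function.update y a c) * p (Function.update y a c)) ^ 2 ≤
      sP ^ 2 * ∑ c : Ev n, p (Function.update y a c) ^ 2 := by
    rw [mul_sum]
    refine sum_le_sum fun c _ => ?_
    rw [mul_pow]
    apply mul_le_mul_of_nonneg_right _ (sq_nonneg _)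
    rw [← sq_abs (P _)]
    exact pow_le_pow_left₀ (abs_nonneg _) (hP _) 2
  have hQ2 : ∑ d : Ev n, (Q (Function.update y b d) * q (Function.update y b d)) ^ 2 ≤
      sQ ^ 2 * ∑ d : Ev n, q (Function.update y b d) ^ 2 := by
    rw [mul_sum]
    refine sum_le_sum fun c _ => ?_
    rw [mul_pow]
    apply mul_le_mul_of_nonneg_right _ (sq_nonneg _)
    rw [← sq_abs (Q _)]
    exact pow_le_pow_left₀ (abs_nonneg _) (hQ _) 2
  refine e2.trans ?_
  calc ((Fintype.card (Ev n) : ℝ) * ρ) ^ 2 *
        ((∑ c : Ev n, (P (Function.update y a c) * p (Function.update y a c)) ^ 2) *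
          ∑ d : Ev n, (Q (Function.update y b d) * q (Function.update y b d)) ^ 2) ≤
      ((Fintype.card (Ev n) : ℝ) * ρ) ^ 2 *
        ((sP ^ 2 * ∑ c : Ev n, p (Function.update y a c) ^ 2) *
          (sQ ^ 2 * ∑ d : Ev n, q (Function.update y b d) ^ 2)) := by
        apply mul_le_mul_of_nonneg_left _ (sq_nonneg _)
        exact mul_le_mul hP2 hQ2 (sum_nonneg fun _ _ => sq_nonneg _)
          (mul_nonneg (sq_nonneg _) (sum_nonneg fun _ _ => sq_nonneg _))
    _ = _ := by ring

theorem kpr_sm_abs {Γ : Type*} [Fintype Γ] [DecidableEq Γ] (R : Finset ι) (F : (ι → Γ) → ℝ)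
    (x : ι → Γ) : |sm R F x| ≤ sm R (fun z => |F z|) x := by
  unfold sm
  exact abs_sum_le_sum_abs _ _

theorem kpr (hAB : Disjoint A B) {g : Finset (Sym2 ι)} (hg : ∀ e ∈ g, ¬ e.IsDiag)
    (h : Sym2 ι → W n → ℝ) {s : Sym2 ι → ℝ} (hs : ∀ e ∈ g, 0 ≤ s e) {e₀ : Sym2 ι}
    (he₀ : e₀ ∈ xed A B g) {ρ : ℝ} (hρ : 0 ≤ ρ)
    (hb : ∀ e ∈ g, e ≠ e₀ → ∀ w ∈ evW n, |h e w| ≤ s e)
    (hop : OP (V := Ev n) (fun x y => h e₀ ((x : W n) + (y : W n))) ρ) (x : ι → Ev n) :
    KN A B (fun z : ι → Ev n => ∏ e ∈ g, h e (xe (vw z) e)) (ρ * ∏ e ∈ g.erase e₀, s e) x := by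
  classical
  have he0 := he₀
  unfold xed at he0
  rw [mem_filter] at he0
  obtain ⟨he₀g, ⟨a, ha⟩, ⟨b, hbb⟩⟩ := he0
  obtain ⟨hae, haA⟩ := mem_inter.1 ha
  obtain ⟨hbe, hbB⟩ := mem_inter.1 hbb
  rw [Sym2.mem_toFinset] at hae hbe
  have hab : a ≠ b := by
    rintro rfl
    exact disjoint_left.1 hAB haA hbB
  have hee : e₀ = s(a, b) := ((Sym2.mem_and_mem_iff hab).1 ⟨hae, hbe⟩)
  intro p q hp hq
  set N : ℝ := (Fintype.card (Ev n) : ℝ) with hN
  have hN0 : 0 ≤ N := Nat.cast_nonneg _
  set g₁ := (g.erase e₀).filter (fun e => b ∉ e) with hg₁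
  set g₂ := (g.erase e₀).filter (fun e => ¬ b ∉ e) with hg₂
  set P : (ι → Ev n) → ℝ := fun z => ∏ e ∈ g₁, h e (xe (vw z) e) with hPdef
  set Q : (ι → Ev n) → ℝ := fun z => ∏ e ∈ g₂, h e (xe (vw z) e) with hQdef
  set sP : ℝ := ∏ e ∈ g₁, s e with hsP
  set sQ : ℝ := ∏ e ∈ g₂, s e with hsQ
  have hsPQ : sP * sQ = ∏ e ∈ g.erase e₀, s e := by
    rw [hsP, hsQ, hg₁, hg₂, prod_filter_mul_prod_filter_not]
  have hsP0 : 0 ≤ sP := prod_nonneg fun e he => hs e (mem_of_mem_erase (mem_filter.1 he).1)
  have hsQ0 : 0 ≤ sQ := prod_nonneg fun e he => hs e (mem_of_mem_erase (mem_filter.1 he).1)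
  have hPb : Ind {b} P := by
    intro x z hxz
    simp only [hPdef]
    refine prod_congr rfl fun e he => ?_
    rw [kpr_xe_congr (x := x) (z := z)]
    intro v hv
    apply hxz
    rw [mem_singleton]
    rintro rfl
    exact (mem_filter.1 he).2 hv
  have hQa : Ind {a} Q := by
    intro x z hxz
    simp only [hQdef]
    refine prod_congr rfl fun e he => ?_
    rw [kpr_xe_congr (x := x) (z := z)]
    intro v hv
    apply hxz
    rw [mem_singleton]
    rintro rfl
    have h1 := mem_filter.1 he
    have h2 : b ∈ e := not_not.1 h1.2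
    have h3 : e = s(v, b) := (Sym2.mem_and_mem_iff hab).1 ⟨hv, h2⟩
    exact (mem_erase.1 h1.1).1 (h3.trans hee.symm)
  have hP : ∀ z, |P z| ≤ sP := by
    intro z
    simp only [hPdef, hsP]
    rw [abs_prod]
    refine prod_le_prod (fun _ _ => abs_nonneg _) fun e he => ?_
    have h1 := mem_erase.1 (mem_filter.1 he).1
    exact hb e h1.2 h1.1 _ (xe_even z e)
  have hQ : ∀ z, |Q z| ≤ sQ := by
    intro z
    simp only [hQdef, hsQ]
    rw [abs_prod]
    refine prod_le_prod (fun _ _ => abs_nonneg _) fun e he => ?_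
    have h1 := mem_erase.1 (mem_filter.1 he).1
    exact hb e h1.2 h1.1 _ (xe_even z e)
  have hpb : Ind {b} p := ind_mono hp (singleton_subset_iff.2 hbB)
  have hqa : Ind {a} q := ind_mono hq (singleton_subset_iff.2 haA)
  have hK : ∀ z : ι → Ev n, (∏ e ∈ g, h e (xe (vw z) e)) * p z * q z =
      h e₀ (((z a : Ev n) : W n) + ((z b : Ev n) : W n)) * P z * Q z * p z * q z := by
    intro z
    have h1 : ∏ e ∈ g, h e (xe (vw z) e) = h e₀ (xe (vw z) e₀) *
        ∏ e ∈ g.erase e₀, h e (xe (vw z) e) := (mul_prod_erase g _ he₀g).symm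
    have h2 : ∏ e ∈ g.erase e₀, h e (xe (vw z) e) = P z * Q z := by
      simp only [hPdef, hQdef, hg₁, hg₂]
      rw [prod_filter_mul_prod_filter_not]
    have h3 : xe (vw z) e₀ = ((z a : Ev n) : W n) + ((z b : Ev n) : W n) := by
      rw [hee]
      rfl
    rw [h1, h2, h3]
    ring
  set F : (ι → Ev n) → ℝ := fun z =>
    h e₀ (((z a : Ev n) : W n) + ((z b : Ev n) : W n)) * P z * Q z * p z * q z with hF
  set R : ℝ := ρ * ∏ e ∈ g.erase e₀, s e with hR
  have hR0 : 0 ≤ R := by
    rw [hR, ← hsPQ]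
    positivity
  set P2 : (ι → Ev n) → ℝ := fun y => sm {a} (fun z => p z ^ 2) y with hP2
  set Q2 : (ι → Ev n) → ℝ := fun y => sm {b} (fun z => q z ^ 2) y with hQ2
  have hP2n : ∀ y, 0 ≤ P2 y := fun y => sm_nonneg fun z => sq_nonneg _
  have hQ2n : ∀ y, 0 ≤ Q2 y := fun y => sm_nonneg fun z => sq_nonneg _
  have hpair : ∀ y, |sm ({a} ∪ {b}) F y| ≤ N * R * (Real.sqrt (P2 y) * Real.sqrt (Q2 y)) := by
    intro y
    have h1 := kpr_pair hab hop hPb hQa hpb hqa hP hQ y
    rw [hsPQ] at h1
    apply abs_le_of_sq_le_sq _ (by positivity)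
    refine h1.trans (le_of_eq ?_)
    have s1 := Real.sq_sqrt (hP2n y)
    have s2 := Real.sq_sqrt (hQ2n y)
    rw [mul_pow (N * R), mul_pow (Real.sqrt (P2 y)), s1, s2]
  -- the other vertices
  set A' := A.erase a with hA'
  set B' := B.erase b with hB'
  have hAB' : Disjoint A' B' := by
    rw [disjoint_left]
    intro v hv hv'
    exact disjoint_left.1 hAB (mem_of_mem_erase hv) (mem_of_mem_erase hv')
  have hset : A ∪ B = (A' ∪ B') ∪ ({a} ∪ {b}) := by
    ext v
    simp only [hA', hB', mem_union, mem_erase, mem_singleton]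
    by_cases h1 : v = a
    · subst h1
      simp [haA]
    · by_cases h2 : v = b
      · subst h2
        simp [hbB]
      · simp [h1, h2]
  have hdis : Disjoint (A' ∪ B') ({a} ∪ {b}) := by
    rw [disjoint_left]
    intro v hv hv'
    rw [mem_union, mem_singleton, mem_singleton] at hv'
    rcases hv' with rfl | rfl
    · rcases mem_union.1 hv with h1 | h1
      · exact (mem_erase.1 h1).1 rfl
      · exact disjoint_left.1 hAB haA (mem_of_mem_erase h1)
    · rcases mem_union.1 hv with h1 | h1
      · exact disjoint_left.1 hAB (mem_of_mem_erase h1) hbB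
      · exact (mem_erase.1 h1).1 rfl
  have hAa : A = A' ∪ {a} := by
    rw [hA', union_comm, ← insert_eq, insert_erase haA]
  have hBb : B = B' ∪ {b} := by
    rw [hB', union_comm, ← insert_eq, insert_erase hbB]
  have hdA : Disjoint A' {a} := by
    rw [disjoint_singleton_right, hA']
    exact notMem_erase _ _
  have hdB : Disjoint B' {b} := by
    rw [disjoint_singleton_right, hB']
    exact notMem_erase _ _
  have hP2sum : sm (A' ∪ B') P2 x = N ^ B'.card * sm A (fun z => p z ^ 2) x := by
    have i1 : Ind B' P2 := by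
      apply ind_sm_of
      intro y z hyz
      have : p z = p y := hp y z fun v hv => hyz v fun hv' => hv (mem_of_mem_erase hv')
      simp only [this]
    have i2 : ∀ y, sm B' P2 y = N ^ B'.card * P2 y := by
      intro y
      have h1 : sm B' P2 y = sm B' (fun z => P2 z * 1) y := by
        apply sm_congr
        intro z _
        rw [mul_one]
      rw [h1, sm_mul i1, sm_one, mul_comm]
    rw [sm_union hAB']
    have h2 : sm A' (fun z => sm B' P2 z) x = sm A' (fun z => N ^ B'.card * P2 z) x :=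
      sm_congr fun z _ => i2 z
    rw [h2, sm_const_mul, hP2]
    congr 1
    rw [← sm_union hdA, ← hAa]
  have hQ2sum : sm (A' ∪ B') Q2 x = N ^ A'.card * sm B (fun z => q z ^ 2) x := by
    have i1 : Ind A' Q2 := by
      apply ind_sm_of
      intro y z hyz
      have : q z = q y := hq y z fun v hv => hyz v fun hv' => hv (mem_of_mem_erase hv')
      simp only [this]
    have i2 : ∀ y, sm A' Q2 y = N ^ A'.card * Q2 y := by
      intro y
      have h1 : sm A' Q2 y = sm A' (fun z => Q2 z * 1) y := by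
        apply sm_congr
        intro z _
        rw [mul_one]
      rw [h1, sm_mul i1, sm_one, mul_comm]
    rw [union_comm, sm_union hAB'.symm]
    have h2 : sm B' (fun z => sm A' Q2 z) x = sm B' (fun z => N ^ A'.card * Q2 z) x :=
      sm_congr fun z _ => i2 z
    rw [h2, sm_const_mul, hQ2]
    congr 1
    rw [← sm_union hdB, ← hBb]
  have hmain : |sm (A ∪ B) F x| ≤ N * R *
      sm (A' ∪ B') (fun y => Real.sqrt (P2 y) * Real.sqrt (Q2 y)) x := by
    rw [hset, sm_union hdis]
    refine (kpr_sm_abs _ _ _).trans ?_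
    rw [← sm_const_mul]
    exact sm_mono fun z _ => hpair z
  have hcs := sm_cs (A' ∪ B') (fun y => Real.sqrt (P2 y)) (fun y => Real.sqrt (Q2 y)) x
  have hsq1 : sm (A' ∪ B') (fun z => Real.sqrt (P2 z) ^ 2) x = sm (A' ∪ B') P2 x :=
    sm_congr fun z _ => Real.sq_sqrt (hP2n z)
  have hsq2 : sm (A' ∪ B') (fun z => Real.sqrt (Q2 z) ^ 2) x = sm (A' ∪ B') Q2 x :=
    sm_congr fun z _ => Real.sq_sqrt (hQ2n z)
  rw [hsq1, hsq2, hP2sum, hQ2sum] at hcs
  have hgoal : sm (A ∪ B) (fun z => (∏ e ∈ g, h e (xe (vw z) e)) * p z * q z) x =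
      sm (A ∪ B) F x := sm_congr fun z _ => hK z
  rw [hgoal, ← sq_abs]
  have hcA : A.card = A'.card + 1 := by
    rw [hA', card_erase_of_mem haA]
    have := card_pos.2 ⟨a, haA⟩
    omega
  have hcB : B.card = B'.card + 1 := by
    rw [hB', card_erase_of_mem hbB]
    have := card_pos.2 ⟨b, hbB⟩
    omega
  calc |sm (A ∪ B) F x| ^ 2 ≤ (N * R *
        sm (A' ∪ B') (fun y => Real.sqrt (P2 y) * Real.sqrt (Q2 y)) x) ^ 2 :=
        pow_le_pow_left₀ (abs_nonneg _) hmain 2
    _ = (N * R) ^ 2 * sm (A' ∪ B') (fun y => Real.sqrt (P2 y) * Real.sqrt (Q2 y)) x ^ 2 := by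
        rw [mul_pow]
    _ ≤ (N * R) ^ 2 * (N ^ B'.card * sm A (fun z => p z ^ 2) x *
        (N ^ A'.card * sm B (fun z => q z ^ 2) x)) :=
        mul_le_mul_of_nonneg_left hcs (sq_nonneg _)
    _ = R ^ 2 * N ^ (A.card + B.card) *
        (sm A (fun z => p z ^ 2) x * sm B (fun z => q z ^ 2) x) := by
        rw [hcA, hcB]
        ring

end Pool.Agent.Lib.MP_0430e4_lc.L3
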