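import Pool.Agent.Lib.MP_0430e4_lc.L3.Defs

/-!
# SMR: rules for the partial sums

PROOF. All elementary. `sm_union`: for `z` with `z = x` outside `R ∪ S` let `y = z` on `R`, `y = x` elsewhere (so `y = x` outside `R`, `z = y` outside `S`): bijection. `sm_one`: the functions are determined by their
values on `R`. `sm_cs`: Cauchy-Schwarz.
-/

set_option autoImplicit false

namespace Pool.Agent.Lib.MP_0430e4_lc.L3

open Finset

variable {ι : Type*} [Fintype ι] [DecidableEq ι] {Γ : Type*} [Fintype Γ] [DecidableEq Γ]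

theorem sm_empty (F : (ι → Γ) → ℝ) (x : ι → Γ) : sm ∅ F x = F x := by
  unfold sm
  have : (univ.filter (fun z : ι → Γ => ∀ v, v ∉ (∅ : Finset ι) → z v = x v)) = {x} := by
    ext z
    simp only [mem_filter, mem_univ, true_and, mem_singleton, notMem_empty, not_false_eq_true,
      forall_const]
    exact ⟨fun h => funext h, fun h v => by rw [h]⟩
  rw [this, sum_singleton]

theorem sm_union {R S : Finset ι} (h : Disjoint R S) (F : (ι → Γ) → ℝ) (x : ι → Γ) :
    sm (R ∪ S) F x = sm R (fun z => sm S F z) x := by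
  unfold sm
  rw [← sum_biUnion]
  · refine sum_congr ?_ fun _ _ => rfl
    ext z
    simp only [mem_filter, mem_univ, true_and, mem_biUnion]
    constructor
    · intro hz
      refine ⟨fun v => if v ∈ R then z v else x v, ?_, ?_⟩
      · intro v hv
        simp [hv]
      · intro v hv
        by_cases hvR : v ∈ R
        · simp [hvR]
        · simp only [hvR, if_false]
          exact hz v (by simp [hvR, hv])
    · rintro ⟨y, hy, hz⟩ v hv
      rw [mem_union, not_or] at hv
      rw [hz v hv.2, hy v hv.1]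
  · intro y hy y' hy' hne
    simp only [coe_filter, mem_univ, true_and, Set.mem_ofPred_eq] at hy hy'
    rw [Function.onFun, disjoint_left]
    intro z hz hz'
    simp only [mem_filter, mem_univ, true_and] at hz hz'
    refine hne (funext fun v => ?_)
    by_cases hvR : v ∈ R
    · have hvS : v ∉ S := disjoint_left.1 h hvR
      rw [← hz v hvS, hz' v hvS]
    · rw [hy v hvR, hy' v hvR]

theorem sm_congr {R : Finset ι} {F G : (ι → Γ) → ℝ} {x : ι → Γ}
    (h : ∀ z, (∀ v, v ∉ R → z v = x v) → F z = G z) : sm R F x = sm R G x := by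
  unfold sm
  exact sum_congr rfl fun z hz => h z (mem_filter.1 hz).2

theorem sm_mono {R : Finset ι} {F G : (ι → Γ) → ℝ} {x : ι → Γ}
    (h : ∀ z, (∀ v, v ∉ R → z v = x v) → F z ≤ G z) : sm R F x ≤ sm R G x := by
  unfold sm
  exact sum_le_sum fun z hz => h z (mem_filter.1 hz).2

theorem sm_nonneg {R : Finset ι} {F : (ι → Γ) → ℝ} {x : ι → Γ} (h : ∀ z, 0 ≤ F z) :
    0 ≤ sm R F x := by
  unfold sm
  exact sum_nonneg fun z _ => h z

theorem sm_add (R : Finset ι) (F G : (ι → Γ) → ℝ) (x : ι → Γ) :
    sm R (fun z => F z + G z) x = sm R F x + sm R G x := by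
  unfold sm
  exact sum_add_distrib

theorem sm_sum {κ : Type*} (s : Finset κ) (R : Finset ι) (F : κ → (ι → Γ) → ℝ) (x : ι → Γ) :
    sm R (fun z => ∑ j ∈ s, F j z) x = ∑ j ∈ s, sm R (F j) x := by
  unfold sm
  exact sum_comm

theorem sm_mul {R : Finset ι} {F : (ι → Γ) → ℝ} (hF : Ind R F) (G : (ι → Γ) → ℝ) (x : ι → Γ) :
    sm R (fun z => F z * G z) x = F x * sm R G x := by
  unfold sm
  rw [mul_sum]
  refine sum_congr rfl fun z hz => ?_
  show F z * G z = F x * G z
  rw [hF x z (mem_filter.1 hz).2]

theorem sm_const_mul (R : Finset ι) (c : ℝ) (G : (ι → Γ) → ℝ) (x : ι → Γ) :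
    sm R (fun z => c * G z) x = c * sm R G x := by
  unfold sm
  rw [mul_sum]

theorem sm_one (R : Finset ι) (x : ι → Γ) :
    sm R (fun _ => (1 : ℝ)) x = (Fintype.card Γ : ℝ) ^ R.card := by
  have key : ∀ R : Finset ι, (univ.filter (fun z : ι → Γ => ∀ v, v ∉ R → z v = x v)).card =
      Fintype.card Γ ^ R.card := by
    intro R
    have h1 : (univ.filter (fun z : ι → Γ => ∀ v, v ∉ R → z v = x v)) =
        Fintype.piFinset (fun v => if v ∈ R then (univ : Finset Γ) else {x v}) := by
      ext z
      simp only [mem_filter, mem_univ, true_and, Fintype.mem_piFinset]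
      constructor
      · intro h v
        by_cases hv : v ∈ R
        · simp [hv]
        · simp [hv, h v hv]
      · intro h v hv
        have := h v
        simpa [hv] using this
    rw [h1, Fintype.card_piFinset]
    have h2 : ∀ v, (if v ∈ R then (univ : Finset Γ) else {x v}).card =
        if v ∈ R then Fintype.card Γ else 1 := by
      intro v
      by_cases hv : v ∈ R
      · simp [hv]
      · simp [hv]
    rw [prod_congr rfl fun v _ => h2 v, prod_ite_mem, univ_inter, prod_const]
  unfold sm
  rw [sum_const, key R, nsmul_eq_mul, mul_one, Nat.cast_pow]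

theorem sm_cs (R : Finset ι) (F G : (ι → Γ) → ℝ) (x : ι → Γ) :
    sm R (fun z => F z * G z) x ^ 2 ≤ sm R (fun z => F z ^ 2) x * sm R (fun z => G z ^ 2) x := by
  unfold sm
  exact sum_mul_sq_le_sq_mul_sq _ _ _

/-- the term `z = x` -/
theorem le_sm {R : Finset ι} {F : (ι → Γ) → ℝ} (h : ∀ z, 0 ≤ F z) (x : ι → Γ) :
    F x ≤ sm R F x := by
  unfold sm
  refine single_le_sum (f := F) (fun z _ => h z) ?_
  simp

theorem ind_sm (R : Finset ι) (F : (ι → Γ) → ℝ) : Ind R (fun x => sm R F x) := by
  intro x z h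
  unfold sm
  refine sum_congr ?_ fun _ _ => rfl
  ext y
  simp only [mem_filter, mem_univ, true_and]
  exact ⟨fun hy v hv => by rw [hy v hv, h v hv], fun hy v hv => by rw [hy v hv, h v hv]⟩

/-- a sum over other variables keeps the independence -/
theorem ind_sm_of {R S : Finset ι} {F : (ι → Γ) → ℝ} (h : Ind S F) : Ind S (fun x => sm R F x) := by
  intro x z hxz
  unfold sm
  have key : ∀ x z : ι → Γ, (∀ v, v ∉ S → z v = x v) → ∀ y : ι → Γ, (∀ v, v ∉ R → y v = x v) →
      ∃ y' : ι → Γ, (∀ v, v ∉ R → y' v = z v) ∧ (∀ v ∈ R, y' v = y v) ∧ F y' = F y := by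
    intro x z hxz y hy
    refine ⟨fun v => if v ∈ R then y v else z v, fun v hv => by simp [hv], fun v hv => by simp [hv],
      ?_⟩
    refine h y _ fun v hv => ?_
    by_cases hvR : v ∈ R
    · simp [hvR]
    · simp only [hvR, if_false]
      rw [hxz v hv, hy v hvR]
  refine sum_bij' (fun y _ => fun v => if v ∈ R then y v else x v)
    (fun y _ => fun v => if v ∈ R then y v else z v) ?_ ?_ ?_ ?_ ?_
  · intro y _
    simp only [mem_filter, mem_univ, true_and]
    intro v hv
    simp [hv]
  · intro y _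
    simp only [mem_filter, mem_univ, true_and]
    intro v hv
    simp [hv]
  · intro y hy
    have hy' := (mem_filter.1 hy).2
    funext v
    by_cases hv : v ∈ R
    · simp [hv]
    · simp [hv, hy' v hv]
  · intro y hy
    have hy' := (mem_filter.1 hy).2
    funext v
    by_cases hv : v ∈ R
    · simp [hv]
    · simp [hv, hy' v hv]
  · intro y hy
    have hy' := (mem_filter.1 hy).2
    refine (h y _ fun v hv => ?_).symm
    by_cases hvR : v ∈ R
    · simp [hvR]
    · simp only [hvR, if_false]
      rw [hy' v hvR, hxz v hv]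

theorem ind_of_dep {S R : Finset ι} {F : (ι → Γ) → ℝ} (h : Dep S F) (hd : Disjoint R S) :
    Ind R F := by
  intro x z hxz
  exact h x z fun v hv => hxz v fun hvR => disjoint_left.1 hd hvR hv

theorem dep_mono {S S' : Finset ι} {M : Type*} [AddCommMonoid M] {F : (ι → Γ) → M} (h : Dep S F)
    (hS : S ⊆ S') : Dep S' F := by
  intro x z hxz
  exact h x z fun v hv => hxz v (hS hv)

theorem ind_mono {S S' : Finset ι} {M : Type*} [AddCommMonoid M] {F : (ι → Γ) → M} (h : Ind S' F)
    (hS : S ⊆ S') : Ind S F := by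
  intro x z hxz
  exact h x z fun v hv => hxz v fun hvS => hv (hS hvS)

theorem ind_union {R S : Finset ι} {M : Type*} [AddCommMonoid M] {F : (ι → Γ) → M}
    (h1 : Ind R F) (h2 : Ind S F) : Ind (R ∪ S) F := by
  intro x z hxz
  have h3 := h1 x (fun v => if v ∈ R then z v else x v) (fun v hv => by simp [hv])
  have h4 := h2 (fun v => if v ∈ R then z v else x v) z (fun v hv => by
    by_cases hvR : v ∈ R
    · simp [hvR]
    · simp only [hvR, if_false]
      exact hxz v (by simp [hvR, hv]))
  rw [h4, h3]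

theorem gd_mono {ok : Γ → Γ → Prop} {x : ι → Γ} {S S' : Finset ι} (h : gd ok x S') (hS : S ⊆ S') :
    gd ok x S := by
  exact fun u hu v hv huv => h u (hS hu) v (hS hv) huv

theorem gd_congr {ok : Γ → Γ → Prop} {x z : ι → Γ} {S : Finset ι} (h : ∀ v ∈ S, z v = x v) :
    gd ok z S ↔ gd ok x S := by
  unfold gd
  constructor
  · intro hg u hu v hv huv
    rw [← h u hu, ← h v hv]
    exact hg u hu v hv huv
  · intro hg u hu v hv huv
    rw [h u hu, h v hv]
    exact hg u hu v hv huv

end Pool.Agent.Lib.MP_0430e4_lc.L3
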