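import Pool.Agent.Lib.MP_0430e4_lc.L3.SEXP
import Pool.Agent.Lib.MP_0430e4_lc.L3.SMR

/-!
# KSA: the weights are bounded on good configurations

PROOF. `abs_u_le`: `Blk.bd` with `S₀ = S₁ = vs b`, `R = ∅` (`sm_empty`). `one_edge`: strong induction on `G`: `sexp_rec` at `e`, `sexp u G = u {e} * sexp u (G \ {e}) + ∑ (e ∈ b ⊆ G, 2 ≤ |b|) u b * sexp u (G \ b)`;
`sexp u (G \ b) / sexp u (G \ {e})` is the inverse of a product of at most `m ^ 2` one-edge quotients (all of smaller graphs, each at least `1/4`), so at most `4 ^ (m ^ 2)`; at most `2 ^ (m ^ 2)` sets `b`, so the sum is at most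
`2 ^ (m ^ 2) * 4 ^ (m ^ 2) * η ≤ 1 / 4`. So `1/4 ≤ 1/2 - 1/4 ≤ sexp u G / sexp u (G \ {e}) ≤ 3/2 + 1/4`. `sexp_bounds`: product of the one-edge quotients. (`|ed univ| ≤ m ^ 2`.)
-/

set_option autoImplicit false

namespace Pool.Agent.Lib.MP_0430e4_lc.L3

open Finset

variable {ι : Type*} [Fintype ι] [DecidableEq ι] {Γ : Type*} [Fintype Γ] [DecidableEq Γ]
  {ok : Γ → Γ → Prop} {M η : ℝ} {u : (ι → Γ) → Finset (Sym2 ι) → ℝ}

theorem mem_ed {S : Finset ι} {e : Sym2 ι} : e ∈ ed S ↔ e.toFinset ⊆ S ∧ ¬ e.IsDiag := by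
  unfold ed
  rw [mem_filter, Finset.mem_sym2_iff]
  constructor
  · rintro ⟨h1, h2⟩
    refine ⟨fun v hv => h1 v ?_, h2⟩
    exact Sym2.mem_toFinset.1 hv
  · rintro ⟨h1, h2⟩
    exact ⟨fun v hv => h1 (Sym2.mem_toFinset.2 hv), h2⟩

theorem ed_mono {S S' : Finset ι} (h : S ⊆ S') : ed S ⊆ ed S' := by
  intro e he
  rw [mem_ed] at he ⊢
  exact ⟨he.1.trans h, he.2⟩

theorem vs_subset {S : Finset ι} {b : Finset (Sym2 ι)} (h : b ⊆ ed S) : vs b ⊆ S := by
  unfold vs
  rw [Finset.biUnion_subset]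
  intro e he
  exact (mem_ed.1 (h he)).1

theorem subset_ed {S : Finset ι} {b : Finset (Sym2 ι)} (hb : ∀ e ∈ b, ¬ e.IsDiag) (h : vs b ⊆ S) :
    b ⊆ ed S := by
  intro e he
  rw [mem_ed]
  refine ⟨?_, hb e he⟩
  refine Subset.trans ?_ h
  unfold vs
  exact Finset.subset_biUnion_of_mem Sym2.toFinset he

theorem card_ed_le (S : Finset ι) : (ed S).card ≤ (Fintype.card ι) ^ 2 := by
  have h1 : ed S ⊆ (univ : Finset (ι × ι)).image (fun p => s(p.1, p.2)) := by
    intro e _
    rw [mem_image]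
    induction e with
    | _ a b => exact ⟨(a, b), mem_univ _, rfl⟩
  refine (card_le_card h1).trans (card_image_le.trans ?_)
  rw [card_univ, Fintype.card_prod, sq]

theorem dep_sexp (hu : ∀ b, Dep (vs b) (fun x => u x b)) {S : Finset ι} {G : Finset (Sym2 ι)}
    (hG : G ⊆ ed S) : Dep S (fun x => sexp (u x) G) := by
  intro x z hz
  apply sexp_congr
  intro b hb _
  exact hu b x z (fun v hv => hz v (vs_subset (hb.trans hG) hv))

theorem abs_u_le (hη : 0 ≤ η) (hu : Blk ok M η u) {b : Finset (Sym2 ι)} (h2 : 2 ≤ b.card)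
    (hb : ∀ e ∈ b, ¬ e.IsDiag) {x : ι → Γ} (hx : gd ok x (vs b)) : |u x b| ≤ η := by
  have hne : b.Nonempty := by
    rw [← card_pos]
    omega
  obtain ⟨e, he⟩ := hne
  have h := hu.bd (vs b) b h2 hb ⟨e, he, by
    unfold vs
    exact Finset.subset_biUnion_of_mem Sym2.toFinset he⟩ ∅ (empty_subset _) x
  rw [sm_empty, card_empty, pow_zero, mul_one, Finset.union_idempotent, if_pos hx] at h
  exact abs_le_of_sq_le_sq h hη

/-- from all one-edge quotients of subgraphs to comparison of subgraphs -/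
theorem ksa_chain {v : Finset (Sym2 ι) → ℝ} {H : Finset (Sym2 ι)}
    (ih : ∀ G ⊆ H, ∀ e ∈ G, 0 < sexp v (G \ {e}) ∧ 1 / 4 * sexp v (G \ {e}) ≤ sexp v G) :
    ∀ (k : ℕ) (G : Finset (Sym2 ι)), G ⊆ H → ∀ H' ⊆ G, (G \ H').card = k →
      0 < sexp v H' ∧ sexp v H' ≤ 4 ^ k * sexp v G := by
  have hpos : ∀ G ⊆ H, 0 < sexp v G := by
    intro G hG
    rcases G.eq_empty_or_nonempty with rfl | ⟨e, he⟩
    · rw [sexp_empty]
      exact one_pos
    · obtain ⟨h1, h2⟩ := ih G hG e he
      linarith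
  intro k
  induction k with
  | zero =>
    intro G hG H' hH' hk
    have : H' = G := by
      rw [card_eq_zero, sdiff_eq_empty_iff_subset] at hk
      exact Subset.antisymm hH' hk
    subst this
    refine ⟨hpos _ hG, ?_⟩
    simp
  | succ k ihk =>
    intro G hG H' hH' hk
    have hne : (G \ H').Nonempty := by
      rw [← card_pos]
      omega
    obtain ⟨e, he⟩ := hne
    rw [mem_sdiff] at he
    have hsub : H' ⊆ G \ {e} := by
      intro f hf
      rw [mem_sdiff, mem_singleton]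
      refine ⟨hH' hf, ?_⟩
      rintro rfl
      exact he.2 hf
    have hc : ((G \ {e}) \ H').card = k := by
      have h1 : (G \ {e}) \ H' = (G \ H').erase e := by
        ext f
        simp only [mem_sdiff, mem_singleton, mem_erase]
        tauto
      rw [h1, card_erase_of_mem (mem_sdiff.2 he), hk]
      rfl
    obtain ⟨h1, h2⟩ := ihk (G \ {e}) (sdiff_subset.trans hG) H' hsub hc
    obtain ⟨h3, h4⟩ := ih G hG e he.1
    refine ⟨h1, h2.trans ?_⟩
    have h5 : sexp v (G \ {e}) ≤ 4 * sexp v G := by linarith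
    calc 4 ^ k * sexp v (G \ {e}) ≤ 4 ^ k * (4 * sexp v G) :=
          mul_le_mul_of_nonneg_left h5 (by positivity)
      _ = 4 ^ (k + 1) * sexp v G := by ring

/-- one edge -/
theorem one_edge (hη : 0 ≤ η) (hu : Blk ok M η u)
    (hC : 8 ^ ((Fintype.card ι) ^ 2) * 4 * η ≤ 1) {x : ι → Γ} {S : Finset ι} (hx : gd ok x S)
    {G : Finset (Sym2 ι)} (hG : G ⊆ ed S) {e : Sym2 ι} (he : e ∈ G) :
    0 < sexp (u x) (G \ {e}) ∧ 1 / 4 * sexp (u x) (G \ {e}) ≤ sexp (u x) G ∧
      sexp (u x) G ≤ 2 * sexp (u x) (G \ {e}) := by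
  induction G using Finset.strongInduction generalizing e with
  | H G ih =>
  set N := (Fintype.card ι) ^ 2 with hN
  have hss : G \ {e} ⊂ G := by
    refine ⟨sdiff_subset, fun h => ?_⟩
    have := h he
    rw [mem_sdiff, mem_singleton] at this
    exact this.2 rfl
  have hq : ∀ G' ⊆ G \ {e}, ∀ e' ∈ G', 0 < sexp (u x) (G' \ {e'}) ∧
      1 / 4 * sexp (u x) (G' \ {e'}) ≤ sexp (u x) G' := by
    intro G' hG' e' he'
    have h1 : G' ⊂ G := lt_of_le_of_lt hG' hss
    obtain ⟨h2, h3, -⟩ := ih G' h1 (h1.1.trans hG) he'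
    exact ⟨h2, h3⟩
  have hch := ksa_chain hq
  have hcardG : G.card ≤ N := (card_le_card hG).trans (card_ed_le S)
  have hH : 0 < sexp (u x) (G \ {e}) := (hch 0 (G \ {e}) (Subset.refl _) (G \ {e}) (Subset.refl _)
    (by simp)).1
  set s := sexp (u x) (G \ {e}) with hs
  -- the main term
  have hmem : ({e} : Finset (Sym2 ι)) ∈ G.powerset.filter (fun b => e ∈ b) := by
    rw [mem_filter, mem_powerset]
    exact ⟨singleton_subset_iff.2 he, mem_singleton_self e⟩
  have hrec := sexp_rec (u x) he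
  rw [← Finset.add_sum_erase _ _ hmem] at hrec
  have hrest : |∑ b ∈ (G.powerset.filter (fun b => e ∈ b)).erase {e},
      u x b * sexp (u x) (G \ b)| ≤ 1 / 4 * s := by
    have h1 : ∀ b ∈ (G.powerset.filter (fun b => e ∈ b)).erase {e},
        |u x b * sexp (u x) (G \ b)| ≤ η * (4 ^ N * s) := by
      intro b hb
      rw [mem_erase, mem_filter, mem_powerset] at hb
      obtain ⟨hb1, hb2, hb3⟩ := hb
      have hcard : 2 ≤ b.card := by
        by_contra hlt
        have hpos : 0 < b.card := card_pos.2 ⟨e, hb3⟩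
        have h1 : b.card = 1 := by omega
        rw [card_eq_one] at h1
        obtain ⟨f, rfl⟩ := h1
        rw [mem_singleton] at hb3
        exact hb1 (by rw [hb3])
      have hbS : b ⊆ ed S := hb2.trans hG
      have hub : |u x b| ≤ η := abs_u_le hη hu hcard (fun f hf => (mem_ed.1 (hbS hf)).2)
        (gd_mono hx (vs_subset hbS))
      have hsub : G \ b ⊆ G \ {e} := sdiff_subset_sdiff (Subset.refl _) (singleton_subset_iff.2 hb3)
      obtain ⟨h2, h3⟩ := hch _ (G \ {e}) (Subset.refl _) (G \ b) hsub rfl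
      have h4 : (4 : ℝ) ^ ((G \ {e}) \ (G \ b)).card ≤ 4 ^ N := by
        apply pow_le_pow_right₀ (by norm_num)
        exact (card_le_card (sdiff_subset.trans sdiff_subset)).trans hcardG
      have h5 : sexp (u x) (G \ b) ≤ 4 ^ N * s := h3.trans (mul_le_mul_of_nonneg_right h4 hH.le)
      rw [abs_mul, abs_of_pos h2]
      exact mul_le_mul hub h5 h2.le hη
    refine (Finset.abs_sum_le_sum_abs _ _).trans ((Finset.sum_le_sum h1).trans ?_)
    rw [Finset.sum_const, nsmul_eq_mul]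
    have h6 : (((G.powerset.filter (fun b => e ∈ b)).erase {e}).card : ℝ) ≤ 2 ^ N := by
      have h7 : ((G.powerset.filter (fun b => e ∈ b)).erase {e}).card ≤ 2 ^ G.card := by
        rw [← card_powerset]
        exact card_le_card ((erase_subset _ _).trans (filter_subset _ _))
      calc (((G.powerset.filter (fun b => e ∈ b)).erase {e}).card : ℝ) ≤ ((2 ^ G.card : ℕ) : ℝ) := by
            exact_mod_cast h7
        _ = (2 : ℝ) ^ G.card := by push_cast; rfl
        _ ≤ 2 ^ N := pow_le_pow_right₀ (by norm_num) hcardG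
    have h8 : (8 : ℝ) ^ N = 2 ^ N * 4 ^ N := by
      rw [← mul_pow]
      norm_num
    have h9 : 0 ≤ η * (4 ^ N * s) := by positivity
    calc (((G.powerset.filter (fun b => e ∈ b)).erase {e}).card : ℝ) * (η * (4 ^ N * s))
        ≤ 2 ^ N * (η * (4 ^ N * s)) := mul_le_mul_of_nonneg_right h6 h9
      _ = (8 ^ N * 4 * η) * (1 / 4 * s) := by
          rw [h8]
          ring
      _ ≤ 1 * (1 / 4 * s) := mul_le_mul_of_nonneg_right hC (by positivity)
      _ = 1 / 4 * s := one_mul _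
  obtain ⟨h1, h2⟩ := hu.one x S hx e (hG he)
  rw [abs_le] at hrest
  refine ⟨hH, ?_, ?_⟩
  · rw [hrec]
    nlinarith [hrest.1, hH, h1]
  · rw [hrec]
    nlinarith [hrest.2, hH, h2]

theorem sexp_bounds (hη : 0 ≤ η) (hu : Blk ok M η u)
    (hC : 8 ^ ((Fintype.card ι) ^ 2) * 4 * η ≤ 1) {x : ι → Γ} {S : Finset ι} (hx : gd ok x S)
    {G : Finset (Sym2 ι)} (hG : G ⊆ ed S) :
    (1 / 4) ^ G.card ≤ sexp (u x) G ∧ sexp (u x) G ≤ 2 ^ G.card := by
  induction G using Finset.strongInduction with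
  | H G ih =>
  rcases G.eq_empty_or_nonempty with rfl | ⟨e, he⟩
  · rw [sexp_empty]
    simp
  · have hss : G \ {e} ⊂ G := by
      refine ⟨sdiff_subset, fun h => ?_⟩
      have := h he
      rw [mem_sdiff, mem_singleton] at this
      exact this.2 rfl
    obtain ⟨h1, h2⟩ := ih (G \ {e}) hss (hss.1.trans hG)
    obtain ⟨-, h3, h4⟩ := one_edge hη hu hC hx hG he
    have hcard : G.card = (G \ {e}).card + 1 := by
      have h5 : G \ {e} = G.erase e := sdiff_singleton_eq_erase e G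
      rw [h5, card_erase_of_mem he]
      have : 0 < G.card := card_pos.2 ⟨e, he⟩
      omega
    rw [hcard, pow_succ, pow_succ]
    constructor
    · linarith
    · linarith

end Pool.Agent.Lib.MP_0430e4_lc.L3
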