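import Pool.Agent.Lib.MP_0430e4_lc.L3.BDR
import Pool.Agent.Lib.MP_0430e4_lc.L3.MOB

/-!
# KSI: products and inverses of families

PROOF. `bd_mob_mul`: `mob_mul`, `bd_mul` for every pair (`S₀' = S₀`), at most `4 ^ m` pairs (`bd_sum`); the constants are `4 ^ m * (c * c')`.
`bd_mob_inv`: let `f° S = mob S₀ S (f x)`, same for `h`. For `S₀ ⊂ S₁` and `x` good on `S₁`: `0 = mob S₀ S₁ (fun S => f x S * h x S) = ∑ (p : prs) f° p.1 * h° p.2` (`mob_const`, `mob_congr`). The pairs with `p.2 = S₁`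
give `(∑ p.1) f° p.1 * h° S₁ = f x S₁ * h° S₁` (`mob_inv`), so `h° S₁ = - h x S₁ * ∑ (p.2 ≠ S₁) f° p.1 * h° p.2`; there `p.1 ≠ S₀`. Induction on `|S₁ \ S₀|`: `c_0 = 4`, `c_{j+1} = 4 * 4 ^ m * max c 1 * c_j + c_j`.
-/

set_option autoImplicit false

namespace Pool.Agent.Lib.MP_0430e4_lc.L3

open Finset

theorem bd_mob_mul {ι : Type*} [Fintype ι] [DecidableEq ι] {Γ : Type*} [Fintype Γ] [DecidableEq Γ]
    {ok : Γ → Γ → Prop} {M : ℝ} (hM : 0 < M) {S₀ S₁ : Finset ι} (hS : S₀ ⊆ S₁)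
    {f g : (ι → Γ) → Finset ι → ℝ} {c c' : ℝ} (hc : 0 ≤ c) (hc' : 0 ≤ c')
    (hf : ∀ S, Dep S (fun x => f x S)) (hg : ∀ S, Dep S (fun x => g x S))
    (h : ∀ S, S₀ ⊆ S → S ⊆ S₁ → Bd ok M S₀ S c (fun x => mob S₀ S (f x)))
    (h' : ∀ S, S₀ ⊆ S → S ⊆ S₁ → Bd ok M S₀ S c' (fun x => mob S₀ S (g x))) :
    Bd ok M S₀ S₁ (4 ^ Fintype.card ι * (c * c')) (fun x => mob S₀ S₁ (fun S => f x S * g x S)) := by
  have key : Bd ok M S₀ S₁ ((prs S₀ S₁).card * (c * c'))
      (fun x => ∑ p ∈ prs S₀ S₁, mob S₀ p.1 (f x) * mob S₀ p.2 (g x)) := by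
    refine bd_sum (prs S₀ S₁) (F := fun p x => mob S₀ p.1 (f x) * mob S₀ p.2 (g x)) hM
      (mul_nonneg hc hc') ?_
    intro p hp
    rw [prs, mem_filter, mem_product, mem_powerset, mem_powerset] at hp
    obtain ⟨⟨h1, h2⟩, h3, h4, h5⟩ := hp
    have hb := bd_mul (S₀ := S₀) (S₀' := S₀) (S₂ := p.1) (S₃ := p.2) (ok := ok) hM
      (dep_mob (S₀ := S₀) (S₁ := p.1) (g := f) (fun S _ => hf S))
      (dep_mob (S₀ := S₀) (S₁ := p.2) (g := g) (fun S _ => hg S))
      (h p.1 h3 h1) (h' p.2 h4 h2) subset_union_left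
    rw [h5] at hb
    exact hb
  have key2 := bd_mono hM key (mul_nonneg (Nat.cast_nonneg _) (mul_nonneg hc hc'))
    (c' := 4 ^ Fintype.card ι * (c * c')) (by
      refine mul_le_mul_of_nonneg_right ?_ (mul_nonneg hc hc')
      exact_mod_cast card_prs_le (S₀ := S₀) (S₁ := S₁))
  refine bd_congr key2 ?_
  intro x _
  exact (mob_mul hS (f x) (g x)).symm

theorem bd_mob_inv (m : ℕ) (c : ℝ) (hc : 0 ≤ c) : ∃ C : ℝ, 1 ≤ C ∧
    ∀ {ι Γ : Type} [Fintype ι] [DecidableEq ι] [Fintype Γ] [DecidableEq Γ]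
      (_ : Fintype.card ι ≤ m) {ok : Γ → Γ → Prop} {M : ℝ} (_ : 0 < M) {S₀ : Finset ι}
      {f h : (ι → Γ) → Finset ι → ℝ}
      (_ : ∀ S, Dep S (fun x => f x S)) (_ : ∀ S, Dep S (fun x => h x S))
      (_ : ∀ x S, S₀ ⊆ S → gd ok x S → f x S * h x S = 1)
      (_ : ∀ x S, S₀ ⊆ S → gd ok x S → |h x S| ≤ 4)
      (_ : ∀ S, S₀ ⊂ S → Bd ok M S₀ S c (fun x => mob S₀ S (f x)))
      (S₁ : Finset ι), S₀ ⊆ S₁ → Bd ok M S₀ S₁ C (fun x => mob S₀ S₁ (h x)) := by
  have main : ∀ j : ℕ, ∃ C : ℝ, 4 ≤ C ∧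
    ∀ {ι Γ : Type} [Fintype ι] [DecidableEq ι] [Fintype Γ] [DecidableEq Γ]
      (_ : Fintype.card ι ≤ m) {ok : Γ → Γ → Prop} {M : ℝ} (_ : 0 < M) {S₀ : Finset ι}
      {f h : (ι → Γ) → Finset ι → ℝ}
      (_ : ∀ S, Dep S (fun x => f x S)) (_ : ∀ S, Dep S (fun x => h x S))
      (_ : ∀ x S, S₀ ⊆ S → gd ok x S → f x S * h x S = 1)
      (_ : ∀ x S, S₀ ⊆ S → gd ok x S → |h x S| ≤ 4)
      (_ : ∀ S, S₀ ⊂ S → Bd ok M S₀ S c (fun x => mob S₀ S (f x)))
      (S₁ : Finset ι), S₀ ⊆ S₁ → (S₁ \ S₀).card ≤ j →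
        Bd ok M S₀ S₁ C (fun x => mob S₀ S₁ (h x)) := by
    intro j
    induction j with
    | zero =>
      refine ⟨4, le_refl _, ?_⟩
      intro ι Γ _ _ _ _ _ ok M hM S₀ f h _ _ _ h4 _ S₁ hS hcard
      have hcard' : S₁ \ S₀ = ∅ := by
        rw [← card_eq_zero]
        omega
      have hSS : S₁ = S₀ := subset_antisymm (sdiff_eq_empty_iff_subset.1 hcard') hS
      subst hSS
      refine bd_self (c := 4) ?_
      intro x hx
      rw [mob_self]
      exact h4 x S₁ (subset_refl _) hx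
    | succ j ih =>
      obtain ⟨C, hC, ih⟩ := ih
      have hC0 : 0 ≤ C := by linarith
      have hpos : 0 ≤ 4 * ((4 : ℝ) ^ m * (c * C)) := by positivity
      refine ⟨4 * ((4 : ℝ) ^ m * (c * C)) + C, by linarith, ?_⟩
      intro ι Γ _ _ _ _ hm ok M hM S₀ f h hf hh hfh h4 hb S₁ hS hcard
      rcases eq_or_ssubset_of_subset hS with hSS | hSS
      · have hbd := ih hm hM hf hh hfh h4 hb S₁ hS (by
          rw [← hSS, sdiff_self]
          exact Nat.zero_le _)
        exact bd_mono hM hbd hC0 (by linarith)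
      · obtain ⟨Q, hQ⟩ : ∃ Q : Finset (Finset ι × Finset ι),
            Q = (prs S₀ S₁).filter (fun p => p.2 ≠ S₁) := ⟨_, rfl⟩
        have hQc : Q.card ≤ 4 ^ m := by
          rw [hQ]
          exact le_trans (card_filter_le _ _) (le_trans card_prs_le
              (Nat.pow_le_pow_right (by norm_num) hm))
        have key : Bd ok M S₀ S₁ ((Q.card : ℝ) * (c * C))
            (fun x => ∑ p ∈ Q, mob S₀ p.1 (f x) * mob S₀ p.2 (h x)) := by
          refine bd_sum Q (F := fun p x => mob S₀ p.1 (f x) * mob S₀ p.2 (h x)) hM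
            (mul_nonneg hc hC0) ?_
          intro p hp
          rw [hQ, mem_filter, prs, mem_filter, mem_product, mem_powerset, mem_powerset] at hp
          obtain ⟨⟨⟨h1, h2⟩, h3, h4', h5⟩, h6⟩ := hp
          have h7 : S₀ ⊂ p.1 := by
            rcases eq_or_ssubset_of_subset h3 with h8 | h8
            · exfalso
              apply h6
              rw [← h8, union_eq_right.2 h4'] at h5
              exact h5
            · exact h8
          have h9 : (p.2 \ S₀).card ≤ j := by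
            have h10 : p.2 \ S₀ ⊂ S₁ \ S₀ := by
              refine ⟨sdiff_subset_sdiff h2 (subset_refl _), ?_⟩
              intro h11
              apply h6
              refine subset_antisymm h2 ?_
              intro v hv
              by_cases hv0 : v ∈ S₀
              · exact h4' hv0
              · exact (mem_sdiff.1 (h11 (mem_sdiff.2 ⟨hv, hv0⟩))).1
            have := card_lt_card h10
            omega
          have hbb := bd_mul (S₀ := S₀) (S₀' := S₀) (S₂ := p.1) (S₃ := p.2) (ok := ok) hM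
            (dep_mob (S₀ := S₀) (S₁ := p.1) (g := f) (fun S _ => hf S))
            (dep_mob (S₀ := S₀) (S₁ := p.2) (g := h) (fun S _ => hh S))
            (hb p.1 h7) (ih hm hM hf hh hfh h4 hb p.2 h4' h9) subset_union_left
          rw [h5] at hbb
          exact hbb
        have key2 := bd_bdd (ok := ok) (C := 4) (G := fun x => - h x S₁) hM (by norm_num) key (by
          intro x hx
          rw [abs_neg]
          exact h4 x S₁ hS hx)
        have hcd : (Q.card : ℝ) ≤ 4 ^ m := by exact_mod_cast hQc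
        have key3 := bd_mono hM key2 (by positivity)
          (c' := 4 * ((4 : ℝ) ^ m * (c * C)) + C) (by
            have := mul_le_mul_of_nonneg_right hcd (mul_nonneg hc hC0)
            linarith)
        refine bd_congr key3 ?_
        intro x hx
        have e1 : mob S₀ S₁ (fun S => f x S * h x S) = 0 := by
          rw [mob_congr (g' := fun _ => (1 : ℝ))
            (fun S hS1 hS2 => hfh x S hS1 (gd_mono hx hS2))]
          exact mob_const hSS 1
        rw [mob_mul hS, ← sum_filter_add_sum_filter_not _ (fun p : Finset ι × Finset ι => p.2 ≠ S₁),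
          ← hQ] at e1
        have e2 : ∑ p ∈ (prs S₀ S₁).filter (fun p => ¬ p.2 ≠ S₁),
            mob S₀ p.1 (f x) * mob S₀ p.2 (h x) = f x S₁ * mob S₀ S₁ (h x) := by
          rw [← mob_inv hS (f x), sum_mul]
          refine sum_bij' (fun p _ => p.1) (fun S _ => (S, S₁)) ?_ ?_ ?_ ?_ ?_
          · intro p hp
            rw [mem_filter, prs, mem_filter, mem_product, mem_powerset, mem_powerset] at hp
            rw [mem_filter, mem_powerset]
            exact ⟨hp.1.1.1, hp.1.2.1⟩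
          · intro S hS'
            rw [mem_filter, mem_powerset] at hS'
            rw [mem_filter, prs, mem_filter, mem_product, mem_powerset, mem_powerset]
            refine ⟨⟨⟨hS'.1, subset_refl _⟩, hS'.2, hS, union_eq_right.2 hS'.1⟩, ?_⟩
            simp
          · intro p hp
            rw [mem_filter, not_ne_iff] at hp
            exact Prod.ext rfl hp.2.symm
          · intro S hS'
            rfl
          · intro p hp
            rw [mem_filter, not_ne_iff] at hp
            rw [hp.2]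
        rw [e2] at e1
        have e3 := hfh x S₁ hS hx
        have e4 : mob S₀ S₁ (h x) = (f x S₁ * h x S₁) * mob S₀ S₁ (h x) := by rw [e3, one_mul]
        show -h x S₁ * _ = mob S₀ S₁ (h x)
        rw [e4]
        linear_combination (-h x S₁) * e1
  obtain ⟨C, hC, hmain⟩ := main m
  refine ⟨C, by linarith, ?_⟩
  intro ι Γ _ _ _ _ hm ok M hM S₀ f h hf hh hfh h4 hb S₁ hS
  exact hmain hm hM hf hh hfh h4 hb S₁ hS (le_trans (card_le_univ _) hm)

end Pool.Agent.Lib.MP_0430e4_lc.L3
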