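import Pool.Agent.Lib.MP_0430e4_lc.L3.KSA
import Pool.Agent.Lib.MP_0430e4_lc.L3.KSI

/-!
# KSB: the conditional normalisations

PROOF. Induction over `N`: statement `P N`: there is `C_N` such that for all `G` with `(ed univ \ G).card ≤ N`, all `G' ⊇ G` and `S₀ ⊆ S₁` with `G' ⊆ ed S₀`:
`Bd ok M S₀ S₁ C_N (fun x => mob S₀ S₁ (fun S => sexp (u x) (ed S \ G') / sexp (u x) (ed S \ G)))`. (All denominators are positive on good configurations, `sexp_bounds`; use `bd_congr`.)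
If `G' = G` the quotient is 1 (`mob_const`, `mob_self`, `bd_self`, `bd_zero`). Otherwise take `e ∈ G' \ G`; the quotient is `h S * (sexp (u x) (ed S \ G') / sexp (u x) (ed S \ (G ∪ {e})))`, the second factor is covered by `P (N - 1)`, product rule
`bd_mob_mul`. `h S = sexp (u x) (ed S \ (G ∪ {e})) / sexp (u x) (ed S \ G) = 1 / f S`, and by `sexp_rec`
`f S = u x {e} + ∑ b, (if vs b ⊆ S then u x b * q b S else 0)`, the sum over `b` with `e ∈ b`, `2 ≤ |b|`, `b` without diagonal elements, `b ∩ G = ∅`, `q b S = sexp (u x) (ed S \ (G ∪ b)) / sexp (u x) (ed S \ (G ∪ {e}))`. For `S₀ ⊂ S`: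
`mob S₀ S f = ∑ b, if vs b ⊆ S then u x b * mob (S₀ ∪ vs b) S (q b) else 0` (`mob_const`, `mob_restrict`); `Bd (S₀ ∪ vs b) S C_{N-1}` for the last factor by `P (N - 1)` (with `G ∪ {e}`, `G ∪ b`, `S₀ ∪ vs b`), `Bd S₀ (S₀ ∪ vs b) η (u x b)` by
`Blk.bd` (`e ∈ b`, `e ∈ ed S₀`); `bd_mul`, at most `2 ^ (m ^ 2)` sets `b`. `|h S| ≤ 4` by `one_edge`. Then `bd_mob_inv`. For `N > m ^ 2` all `G` are covered. (`Dep`: `dep_sexp`, `dep_mob`; replace the quotients outside good
configurations by themselves, they are functions of the coordinates in `S` anyway.)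
-/

set_option autoImplicit false

namespace Pool.Agent.Lib.MP_0430e4_lc.L3

open Finset

theorem ksb_gd {ι Γ : Type} [Fintype ι] [DecidableEq ι] [Fintype Γ] [DecidableEq Γ]
    {ok : Γ → Γ → Prop} {x : ι → Γ} {S S' : Finset ι} (h : gd ok x S') (hS : S ⊆ S') :
    gd ok x S := fun a ha b hb hab => h a (hS ha) b (hS hb) hab

theorem ksb_dep {ι Γ : Type} {S S' : Finset ι} {F : (ι → Γ) → ℝ} [Fintype ι] [DecidableEq ι]
    [Fintype Γ] [DecidableEq Γ] (h : Dep S F) (hS : S ⊆ S') : Dep S' F :=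
  fun x z hz => h x z (fun v hv => hz v (hS hv))

theorem ksb_dep_div {ι Γ : Type} {S : Finset ι} {F G : (ι → Γ) → ℝ} [Fintype ι] [DecidableEq ι]
    [Fintype Γ] [DecidableEq Γ] (h : Dep S F) (h' : Dep S G) : Dep S (fun x => F x / G x) :=
  fun x z hz => by
    change F z / G z = F x / G x
    rw [h x z hz, h' x z hz]

/-- the quotient without removed edges -/
theorem ksb_one {ι Γ : Type} [Fintype ι] [DecidableEq ι] [Fintype Γ] [DecidableEq Γ]
    {ok : Γ → Γ → Prop} {M η : ℝ} (hM : 0 < M) (hη : 0 ≤ η)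
    {u : (ι → Γ) → Finset (Sym2 ι) → ℝ} (hu : Blk ok M η u)
    (hC : 8 ^ ((Fintype.card ι) ^ 2) * 4 * η ≤ 1) {S₀ S₁ : Finset ι} (hS : S₀ ⊆ S₁)
    (G : Finset (Sym2 ι)) : Bd ok M S₀ S₁ 1 (fun x => mob S₀ S₁
      (fun S => sexp (u x) (ed S \ G) / sexp (u x) (ed S \ G))) := by
  have h1 : ∀ x, gd ok x S₁ → mob S₀ S₁
      (fun S => sexp (u x) (ed S \ G) / sexp (u x) (ed S \ G)) =
      mob S₀ S₁ (fun _ => (1 : ℝ)) := by
    intro x hx
    refine mob_congr (fun S _ hS1 => ?_)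
    have := (sexp_bounds hη hu hC (ksb_gd hx hS1) (sdiff_subset (s := ed S) (t := G))).1
    exact div_self (ne_of_gt (lt_of_lt_of_le (by positivity) this))
  by_cases he : S₀ = S₁
  · subst he
    refine bd_self (fun x hx => ?_)
    rw [h1 x hx, mob_self, abs_one]
  · refine bd_congr (bd_zero hM 1) (fun x hx => ?_)
    rw [h1 x hx, mob_const (Finset.ssubset_iff_subset_ne.2 ⟨hS, he⟩)]

/-- expansion of the quotient at one edge -/
theorem ksb_exp {ι : Type} [Fintype ι] [DecidableEq ι] (v : Finset (Sym2 ι) → ℝ)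
    {G : Finset (Sym2 ι)} {e : Sym2 ι} {S : Finset ι} (he : e ∈ ed S) (heG : e ∉ G)
    (hne : sexp v (ed S \ insert e G) ≠ 0) :
    sexp v (ed S \ G) / sexp v (ed S \ insert e G) = v {e} +
      ∑ b ∈ (ed univ \ G).powerset.filter (fun b => e ∈ b ∧ b ≠ {e}),
        if vs b ⊆ S then v b * (sexp v (ed S \ (G ∪ b)) / sexp v (ed S \ insert e G)) else 0 := by
  have hm : e ∈ ed S \ G := mem_sdiff.2 ⟨he, heG⟩
  rw [sexp_rec v hm]
  have h1 : (ed S \ G).powerset.filter (fun b => e ∈ b) =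
      insert {e} ((ed univ \ G).powerset.filter
        (fun b => (e ∈ b ∧ b ≠ {e}) ∧ vs b ⊆ S)) := by
    ext b
    simp only [mem_filter, mem_powerset, mem_insert]
    constructor
    · rintro ⟨h1, h2⟩
      by_cases h3 : b = {e}
      · exact Or.inl h3
      · refine Or.inr ⟨?_, ⟨h2, h3⟩, vs_subset (h1.trans sdiff_subset)⟩
        exact h1.trans (sdiff_subset_sdiff (ed_mono (subset_univ S)) (Subset.refl G))
    · rintro (h1 | ⟨h1, ⟨h2, _⟩, h3⟩)
      · subst h1
        exact ⟨singleton_subset_iff.2 hm, mem_singleton_self e⟩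
      · refine ⟨fun a ha => mem_sdiff.2 ⟨?_, (mem_sdiff.1 (h1 ha)).2⟩, h2⟩
        exact subset_ed (fun c hc => (mem_ed.1 (mem_sdiff.1 (h1 hc)).1).2) h3 ha
  have h2 : ({e} : Finset (Sym2 ι)) ∉ (ed univ \ G).powerset.filter
      (fun b => (e ∈ b ∧ b ≠ {e}) ∧ vs b ⊆ S) := by
    rw [mem_filter]
    rintro ⟨_, ⟨_, h⟩, _⟩
    exact h rfl
  have e1 : (ed S \ G) \ {e} = ed S \ insert e G := by
    ext a
    simp only [mem_sdiff, mem_insert, mem_singleton]
    tauto
  rw [h1, sum_insert h2, e1, add_div, mul_div_assoc, div_self hne, mul_one]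
  congr 1
  rw [sum_div, ← filter_filter, sum_filter]
  refine sum_congr rfl (fun b _ => ?_)
  by_cases hb : vs b ⊆ S
  · rw [if_pos hb, if_pos hb, mul_div_assoc]
    congr 3
    ext a
    simp only [mem_sdiff, mem_union]
    tauto
  · rw [if_neg hb, if_neg hb]

theorem ksb_aux (m N : ℕ) : ∃ C : ℝ, 1 ≤ C ∧
    ∀ {ι Γ : Type} [Fintype ι] [DecidableEq ι] [Fintype Γ] [DecidableEq Γ]
      (_ : Fintype.card ι ≤ m) {ok : Γ → Γ → Prop} {M η : ℝ} (_ : 0 < M) (_ : 0 ≤ η)
      (_ : C * η ≤ 1) (_ : 8 ^ ((Fintype.card ι) ^ 2) * 4 * η ≤ 1)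
      {u : (ι → Γ) → Finset (Sym2 ι) → ℝ} (_ : Blk ok M η u)
      (S₀ S₁ : Finset ι) (_ : S₀ ⊆ S₁) (G G' : Finset (Sym2 ι)) (_ : G ⊆ G') (_ : G' ⊆ ed S₀)
      (_ : (ed (univ : Finset ι) \ G).card ≤ N),
      Bd ok M S₀ S₁ C (fun x => mob S₀ S₁
        (fun S => sexp (u x) (ed S \ G') / sexp (u x) (ed S \ G))) := by
  induction N with
  | zero =>
    refine ⟨1, le_rfl, ?_⟩
    intro ι Γ _ _ _ _ hm ok M η hM hη hC hC8 u hu S₀ S₁ hS G G' hG hG' hcard
    have h1 : ed (univ : Finset ι) ⊆ G :=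
      sdiff_eq_empty_iff_subset.1 (card_eq_zero.1 (Nat.le_zero.1 hcard))
    have h2 : G = G' := Subset.antisymm hG ((hG'.trans (ed_mono (subset_univ _))).trans h1)
    subst h2
    exact ksb_one hM hη hu hC8 hS G
  | succ N ih =>
    obtain ⟨C₁, hC₁, ih⟩ := ih
    obtain ⟨C₂, hC₂, hinv⟩ := bd_mob_inv m (2 ^ (m ^ 2)) (by positivity)
    refine ⟨4 ^ m * (C₂ * C₁), ?_, ?_⟩
    · have h4 : (1 : ℝ) ≤ 4 ^ m := one_le_pow₀ (by norm_num)
      have h5 : (1 : ℝ) ≤ C₂ * C₁ := by nlinarith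
      nlinarith
    intro ι Γ _ _ _ _ hm ok M η hM hη hC hC8 u hu S₀ S₁ hS G G' hG hG' hcard
    have h4m : (1 : ℝ) ≤ 4 ^ m := one_le_pow₀ (by norm_num)
    have hC21 : C₁ ≤ C₂ * C₁ := le_mul_of_one_le_left (by linarith) hC₂
    have hCC : C₁ ≤ 4 ^ m * (C₂ * C₁) := hC21.trans
      (le_mul_of_one_le_left (by linarith) h4m)
    have hC1η : C₁ * η ≤ 1 := (mul_le_mul_of_nonneg_right hCC hη).trans hC
    have h1C : (1 : ℝ) ≤ 4 ^ m * (C₂ * C₁) := hC₁.trans hCC
    by_cases hGG : G = G'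
    · subst hGG
      exact bd_mono hM (ksb_one hM hη hu hC8 hS G) zero_le_one h1C
    obtain ⟨e, heG', heG⟩ := exists_of_ssubset (Finset.ssubset_iff_subset_ne.2 ⟨hG, hGG⟩)
    have heS₀ : e ∈ ed S₀ := hG' heG'
    set G₁ : Finset (Sym2 ι) := insert e G with hG₁
    have hG₁' : G₁ ⊆ G' := insert_subset heG' hG
    have hcard₁ : (ed (univ : Finset ι) \ G₁).card ≤ N := by
      have h1 : ed (univ : Finset ι) \ G₁ = (ed univ \ G).erase e := by
        ext a
        simp only [hG₁, mem_sdiff, mem_insert, mem_erase]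
        tauto
      rw [h1, card_erase_of_mem (mem_sdiff.2 ⟨ed_mono (subset_univ _) heS₀, heG⟩)]
      omega
    have hpos : ∀ (G₂ : Finset (Sym2 ι)) (x : ι → Γ) (S : Finset ι), gd ok x S →
        0 < sexp (u x) (ed S \ G₂) := fun G₂ x S hx =>
      lt_of_lt_of_le (by positivity) (sexp_bounds hη hu hC8 hx sdiff_subset).1
    have hdep : ∀ (G₂ : Finset (Sym2 ι)) (S : Finset ι),
        Dep S (fun x => sexp (u x) (ed S \ G₂)) := fun G₂ S => dep_sexp hu.dep sdiff_subset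
    -- the second factor
    have hr : ∀ S, S₀ ⊆ S → S ⊆ S₁ → Bd ok M S₀ S C₁ (fun x => mob S₀ S
        (fun S => sexp (u x) (ed S \ G') / sexp (u x) (ed S \ G₁))) := fun S h1 _ =>
      ih hm hM hη hC1η hC8 hu S₀ S h1 G₁ G' hG₁' hG' hcard₁
    -- the inverse of the first factor
    have hf : ∀ S, S₀ ⊂ S → Bd ok M S₀ S (2 ^ (m ^ 2)) (fun x => mob S₀ S
        (fun S => sexp (u x) (ed S \ G) / sexp (u x) (ed S \ G₁))) := by
      intro S hSS
      set T := (ed (univ : Finset ι) \ G).powerset.filter (fun b => e ∈ b ∧ b ≠ {e}) with hT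
      have hTc : (T.card : ℝ) ≤ 2 ^ (m ^ 2) := by
        have h1 : T.card ≤ 2 ^ (m ^ 2) := by
          refine (card_filter_le _ _).trans ?_
          rw [card_powerset]
          refine Nat.pow_le_pow_right (by norm_num) ?_
          refine (card_le_card sdiff_subset).trans ((card_ed_le _).trans ?_)
          exact Nat.pow_le_pow_left hm 2
        exact_mod_cast h1
      have hterm : ∀ b ∈ T, Bd ok M S₀ S 1 (fun x => if vs b ⊆ S then
          u x b * mob (S₀ ∪ vs b) S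
            (fun S => sexp (u x) (ed S \ (G ∪ b)) / sexp (u x) (ed S \ G₁)) else 0) := by
        intro b hb
        rw [hT, mem_filter, mem_powerset] at hb
        obtain ⟨hb1, hb2, hb3⟩ := hb
        have hbd : ∀ c ∈ b, ¬ c.IsDiag := fun c hc =>
          (mem_ed.1 (mem_sdiff.1 (hb1 hc)).1).2
        have hb4 : 2 ≤ b.card := by
          by_contra hlt
          have h1 : b.card ≤ 1 := by omega
          exact hb3 (Finset.eq_singleton_iff_unique_mem.2 ⟨hb2, fun c hc =>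
            (card_le_one.1 h1) c hc e hb2⟩)
        by_cases hbS : vs b ⊆ S
        · have h1 := hu.bd S₀ b hb4 hbd ⟨e, hb2, (mem_ed.1 heS₀).1⟩
          have hSu : S₀ ∪ vs b ⊆ S := union_subset hSS.1 hbS
          have hGb : G ∪ b ⊆ ed (S₀ ∪ vs b) := by
            refine union_subset ((hG.trans hG').trans (ed_mono subset_union_left)) ?_
            exact subset_ed hbd subset_union_right
          have h2 := ih hm hM hη hC1η hC8 hu (S₀ ∪ vs b) S hSu G₁ (G ∪ b)
            (insert_subset (mem_union_right _ hb2) subset_union_left) hGb hcard₁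
          have h3 := bd_mul (S₂ := S₀ ∪ vs b) (S₃ := S) hM
            (ksb_dep (hu.dep b) subset_union_right)
            (dep_mob (S₀ := S₀ ∪ vs b) (S₁ := S)
              (g := fun x S => sexp (u x) (ed S \ (G ∪ b)) / sexp (u x) (ed S \ G₁))
              (fun S' _ => ksb_dep_div (hdep _ _) (hdep _ _))) h1 h2
            subset_union_right
          rw [union_eq_right.2 hSu] at h3
          have h4 := bd_mono hM h3 (by positivity) (show η * C₁ ≤ 1 by linarith)
          refine bd_congr h4 (fun x _ => ?_)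
          rw [if_pos hbS]
        · refine bd_congr (bd_zero hM 1) (fun x _ => ?_)
          rw [if_neg hbS]
      have hsum := bd_sum T hM zero_le_one hterm
      rw [mul_one] at hsum
      refine bd_congr (bd_mono hM hsum (Nat.cast_nonneg _) hTc) (fun x hx => ?_)
      have h5 : mob S₀ S (fun S => sexp (u x) (ed S \ G) / sexp (u x) (ed S \ G₁)) =
          mob S₀ S (fun S => u x {e} + ∑ b ∈ T, if vs b ⊆ S then
            u x b * (sexp (u x) (ed S \ (G ∪ b)) / sexp (u x) (ed S \ G₁)) else 0) := by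
        refine mob_congr (fun S' h1 h2 => ?_)
        exact ksb_exp (u x) (ed_mono h1 heS₀) heG (hpos G₁ x S' (ksb_gd hx h2)).ne'
      rw [h5, mob_add, mob_const hSS, zero_add, mob_sum]
      refine sum_congr rfl (fun b _ => ?_)
      rw [mob_restrict (vs b) hSS.1]
      by_cases hbS : vs b ⊆ S
      · rw [if_pos hbS, if_pos hbS, mob_smul]
      · rw [if_neg hbS, if_neg hbS]
    -- the first factor
    have hh : ∀ S, S₀ ⊆ S → S ⊆ S₁ → Bd ok M S₀ S C₂ (fun x => mob S₀ S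
        (fun S => sexp (u x) (ed S \ G₁) / sexp (u x) (ed S \ G))) := by
      intro S h1 _
      refine hinv hm hM (f := fun x S => sexp (u x) (ed S \ G) / sexp (u x) (ed S \ G₁))
        (h := fun x S => sexp (u x) (ed S \ G₁) / sexp (u x) (ed S \ G))
        (fun S' => ksb_dep_div (hdep _ _) (hdep _ _))
        (fun S' => ksb_dep_div (hdep _ _) (hdep _ _)) ?_ ?_ hf S h1
      · intro x S' _ hx
        have p1 := (hpos G x S' hx).ne'
        have p2 := (hpos G₁ x S' hx).ne'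
        field_simp
      · intro x S' hS' hx
        have p1 := hpos G x S' hx
        have p2 := hpos G₁ x S' hx
        have h2 := (one_edge hη hu hC8 hx (sdiff_subset (s := ed S') (t := G))
          (mem_sdiff.2 ⟨ed_mono hS' heS₀, heG⟩)).2.1
        have e1 : (ed S' \ G) \ {e} = ed S' \ G₁ := by
          ext a
          simp only [hG₁, mem_sdiff, mem_insert, mem_singleton]
          tauto
        rw [e1] at h2
        rw [abs_of_pos (div_pos p2 p1), div_le_iff₀ p1]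
        linarith
    have hprod := bd_mob_mul hM hS
      (f := fun x S => sexp (u x) (ed S \ G₁) / sexp (u x) (ed S \ G))
      (g := fun x S => sexp (u x) (ed S \ G') / sexp (u x) (ed S \ G₁))
      (c := C₂) (c' := C₁) (by linarith) (by linarith)
      (fun S' => ksb_dep_div (hdep _ _) (hdep _ _))
      (fun S' => ksb_dep_div (hdep _ _) (hdep _ _)) hh hr
    have hle : (4 : ℝ) ^ Fintype.card ι * (C₂ * C₁) ≤ 4 ^ m * (C₂ * C₁) :=
      mul_le_mul_of_nonneg_right (pow_le_pow_right₀ (by norm_num) hm) (by positivity)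
    refine bd_congr (bd_mono hM hprod (by positivity) hle) (fun x hx => ?_)
    refine mob_congr (fun S' h1 h2 => ?_)
    have p2 := (hpos G₁ x S' (ksb_gd hx h2)).ne'
    rw [mul_comm, div_mul_div_cancel₀ p2]

theorem ksb (m : ℕ) : ∃ C : ℝ, 1 ≤ C ∧
    ∀ {ι Γ : Type} [Fintype ι] [DecidableEq ι] [Fintype Γ] [DecidableEq Γ]
      (_ : Fintype.card ι ≤ m) {ok : Γ → Γ → Prop} {M η : ℝ} (_ : 0 < M) (_ : 0 ≤ η)
      (_ : C * η ≤ 1) {u : (ι → Γ) → Finset (Sym2 ι) → ℝ} (_ : Blk ok M η u)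
      (S₀ S₁ : Finset ι) (_ : S₀ ⊆ S₁) (F : Finset (Sym2 ι)) (_ : F ⊆ ed S₀),
      Bd ok M S₀ S₁ C (fun x => mob S₀ S₁ (rho (u x) F)) := by
  obtain ⟨C, hC, h⟩ := ksb_aux m (m ^ 2)
  refine ⟨C + 8 ^ (m ^ 2) * 4, ?_, ?_⟩
  · have : (0 : ℝ) ≤ 8 ^ (m ^ 2) * 4 := by positivity
    linarith
  intro ι Γ _ _ _ _ hm ok M η hM hη hCη u hu S₀ S₁ hS F hF
  have h0 : (0 : ℝ) ≤ 8 ^ (m ^ 2) * 4 := by positivity
  have h1 : C * η ≤ 1 := by nlinarith
  have h2 : (8 : ℝ) ^ ((Fintype.card ι) ^ 2) * 4 * η ≤ 1 := by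
    have h3 : (8 : ℝ) ^ ((Fintype.card ι) ^ 2) ≤ 8 ^ (m ^ 2) :=
      pow_le_pow_right₀ (by norm_num) (Nat.pow_le_pow_left hm 2)
    have h4 : (8 : ℝ) ^ ((Fintype.card ι) ^ 2) * 4 * η ≤ 8 ^ (m ^ 2) * 4 * η :=
      mul_le_mul_of_nonneg_right (by linarith) hη
    nlinarith
  have h5 := h hm hM hη h1 h2 hu S₀ S₁ hS ∅ F (empty_subset _) hF (by
    rw [sdiff_empty]
    exact (card_ed_le _).trans (Nat.pow_le_pow_left hm 2))
  refine bd_mono hM (bd_congr h5 (fun x _ => ?_)) (by linarith) (by linarith)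
  refine mob_congr (fun S _ _ => ?_)
  unfold rho
  rw [sdiff_empty]

end Pool.Agent.Lib.MP_0430e4_lc.L3
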