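import Pool.Agent.Lib.MP_0430e4_lc.L3.KLS

/-!
# KTA: replacing the functions `1 + ψ` in the crossing edges by 1

`S` is the set of the crossing edges that are single blocks, `g \ S` the union of the blocks with at least two edges.

PROOF. Expand `∏ e ∈ T, (1 + ψ) - 1 = ∑ (U ⊆ T nonempty), ∏ e ∈ U, ψ` (`T = xed A B g \ S`), for each `U` use `kls` with `g' = g \ S`, `e₀ ∈ U`, `h e = ψ` on `U`, `φ` on `S`, `1` elsewhere, `s e = 1 + Λ`; at most `2 ^ m` sets `U`. By `h3`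
`(1 + Λ) ^ (3 m) * Bn ^ m * ρ ≤ η * (√M)⁻¹ ^ (2 t)`, and `(√M)⁻¹ ^ (2 t) ≤ (√M)⁻¹ ^ (|A| + |B|)` (`M ≥ 1`).
-/

set_option autoImplicit false

namespace Pool.Agent.Lib.MP_0430e4_lc.L3

open Finset
open Lin (W wt chw evW EW al flat SymW)
open L2 (Ev OP)

variable {ι : Type*} [Fintype ι] [DecidableEq ι] {n : ℕ} {A B : Finset ι}
  {P : Pm n} {d : ℕ} {a : ℕ → ℝ} {ε D Λ ρ : ℝ} {KV Kx : ℕ} {m t : ℕ} {M η : ℝ} {Ks : ℕ → ℕ}

theorem kta_num {X M η : ℝ} {t s : ℕ} (hX : 0 ≤ X) (hM : 1 ≤ M) (hη : 0 ≤ η) (hs : s ≤ 2 * t)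
    (h : X ^ 2 * M ^ (2 * t) ≤ η ^ 2) : X ≤ η * (Real.sqrt M)⁻¹ ^ s := by
  have hM0 : 0 ≤ M := by linarith
  have hsq : 1 ≤ Real.sqrt M := Real.one_le_sqrt.2 hM
  have h1 : (X * Real.sqrt M ^ (2 * t)) ^ 2 ≤ η ^ 2 := by
    calc (X * Real.sqrt M ^ (2 * t)) ^ 2 = X ^ 2 * (Real.sqrt M ^ 2) ^ (2 * t) := by ring
      _ = X ^ 2 * M ^ (2 * t) := by rw [Real.sq_sqrt hM0]
      _ ≤ η ^ 2 := h
  have h2 : X * Real.sqrt M ^ (2 * t) ≤ η := (sq_le_sq₀ (by positivity) hη).1 h1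
  have h3 : X * Real.sqrt M ^ s ≤ η :=
    le_trans (mul_le_mul_of_nonneg_left (pow_le_pow_right₀ hsq hs) hX) h2
  rw [inv_pow, ← div_eq_mul_inv, le_div_iff₀ (by positivity)]
  exact h3

theorem kta_term (hP : Pk n P d a ε D Λ ρ KV Kx) (hN : Nk n m t P.k ε D Λ ρ M η KV Kx Ks)
    (hAB : Disjoint A B) (hA : A.card ≤ t) (hB : B.card ≤ t)
    {g : Finset (Sym2 ι)} (hg : ∀ e ∈ g, ¬ e.IsDiag) (hm : g.card ≤ m)
    {S : Finset (Sym2 ι)} (hS : S ⊆ xed A B g)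
    {c : (Fin n → Finset (Sym2 ι)) → ℝ} {c₀ : ℝ} (hc₀ : 0 ≤ c₀) (hc : ∀ C, |c C| ≤ c₀)
    {U : Finset (Sym2 ι)} (hU : U ⊆ xed A B g \ S) (hU0 : U.Nonempty)
    (x : ι → Ev n) :
    KN A B (fun z : ι → Ev n => Ls (g \ S) (fun _ => P.f) c (xe (vw z)) *
      (∏ e ∈ U, P.ψ (xe (vw z) e)) * ∏ e ∈ S, P.φ (xe (vw z) e))
      (c₀ * ((1 + Λ) ^ (2 * m))⁻¹ * η * (Real.sqrt M)⁻¹ ^ (A.card + B.card)) x := by
  classical
  have hM : 1 ≤ M := hN.M1
  have hBn := one_le_Bn n KV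
  have hΛ := hP.Λ1
  have hΛ1 : (1 : ℝ) ≤ 1 + Λ := by linarith
  have hρ := hP.ρ0
  have hxg : xed A B g ⊆ g := Finset.filter_subset _ _
  have hSg : S ⊆ g := hS.trans hxg
  have hUg : U ⊆ g := (hU.trans Finset.sdiff_subset).trans hxg
  have hUS : Disjoint U S := Finset.disjoint_of_subset_left hU Finset.sdiff_disjoint
  obtain ⟨e₀, he₀⟩ := hU0
  have hk := kls (A := A) (B := B) hAB hg (g' := g \ S) Finset.sdiff_subset
    (fun e w => if e ∈ U then P.ψ w else if e ∈ S then P.φ w else 1) (s := fun _ => 1 + Λ)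
    (fun _ _ => by positivity) (e₀ := e₀) (Finset.sdiff_subset (hU he₀)) (ρ := ρ) hρ
    (by
      intro e _ _ w hw
      split_ifs
      · exact (hP.abs_ψ hw).trans (by linarith)
      · exact (hP.abs_φ hw).trans hΛ1
      · rw [abs_one]; exact hΛ1)
    (by simpa [he₀] using hP.op)
    (f := P.f) (BV := Bn n KV) hBn hP.sum_f hc₀ hc x
  refine kn_mono (kn_congr hk ?_) ?_ ?_
  · intro z _
    have e1 : ∏ e ∈ g, (if e ∈ U then P.ψ (xe (vw z) e) else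
        if e ∈ S then P.φ (xe (vw z) e) else 1) =
        (∏ e ∈ U, P.ψ (xe (vw z) e)) * ∏ e ∈ S, P.φ (xe (vw z) e) := by
      rw [← Finset.prod_subset (Finset.union_subset hUg hSg), Finset.prod_union hUS]
      · congr 1
        · exact Finset.prod_congr rfl fun e he => by rw [if_pos he]
        · exact Finset.prod_congr rfl fun e he => by
            rw [if_neg (Finset.disjoint_right.1 hUS he), if_pos he]
      · intro e _ he
        rw [Finset.mem_union, not_or] at he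
        rw [if_neg he.1, if_neg he.2]
    rw [e1, mul_assoc]
  · have h1 : (0 : ℝ) ≤ ∏ e ∈ g.erase e₀, (1 + Λ) := Finset.prod_nonneg fun _ _ => by positivity
    positivity
  · have h0 : (1 + Λ) ^ (3 * m) * Bn n KV ^ m * ρ ≤ η * (Real.sqrt M)⁻¹ ^ (A.card + B.card) :=
      kta_num (by positivity) hM hN.η0 (by omega) hN.h3
    have h1 : ∏ e ∈ g.erase e₀, (1 + Λ) ≤ (1 + Λ) ^ m := by
      rw [Finset.prod_const]
      exact pow_le_pow_right₀ hΛ1 ((Finset.card_le_card (Finset.erase_subset _ _)).trans hm)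
    have h2 : Bn n KV ^ g.card ≤ Bn n KV ^ m := pow_le_pow_right₀ hBn hm
    have h3 : (1 + Λ) ^ (2 * m) * (Bn n KV ^ m * (ρ * (1 + Λ) ^ m)) ≤
        η * (Real.sqrt M)⁻¹ ^ (A.card + B.card) := by
      refine le_trans (le_of_eq ?_) h0
      have : (1 + Λ) ^ (3 * m) = (1 + Λ) ^ (2 * m) * (1 + Λ) ^ m := by
        rw [← pow_add]
        congr 1
        ring
      rw [this]
      ring
    have h4 : Bn n KV ^ m * (ρ * (1 + Λ) ^ m) ≤
        ((1 + Λ) ^ (2 * m))⁻¹ * (η * (Real.sqrt M)⁻¹ ^ (A.card + B.card)) := by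
      rw [le_inv_mul_iff₀ (by positivity)]
      exact h3
    calc c₀ * Bn n KV ^ g.card * (ρ * ∏ e ∈ g.erase e₀, (1 + Λ))
        ≤ c₀ * (Bn n KV ^ m * (ρ * (1 + Λ) ^ m)) := by
          rw [mul_assoc]
          refine mul_le_mul_of_nonneg_left ?_ hc₀
          refine mul_le_mul h2 (mul_le_mul_of_nonneg_left h1 hρ) ?_ (by positivity)
          exact mul_nonneg hρ (Finset.prod_nonneg fun _ _ => by positivity)
      _ ≤ c₀ * (((1 + Λ) ^ (2 * m))⁻¹ * (η * (Real.sqrt M)⁻¹ ^ (A.card + B.card))) :=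
          mul_le_mul_of_nonneg_left h4 hc₀
      _ = _ := by ring

theorem kta (hP : Pk n P d a ε D Λ ρ KV Kx) (hN : Nk n m t P.k ε D Λ ρ M η KV Kx Ks)
    (hAB : Disjoint A B) (hA : A.card ≤ t) (hB : B.card ≤ t)
    {g : Finset (Sym2 ι)} (hg : ∀ e ∈ g, ¬ e.IsDiag) (hm : g.card ≤ m)
    {S : Finset (Sym2 ι)} (hS : S ⊆ xed A B g)
    {c : (Fin n → Finset (Sym2 ι)) → ℝ} {c₀ : ℝ} (hc₀ : 0 ≤ c₀) (hc : ∀ C, |c C| ≤ c₀)
    (x : ι → Ev n) :
    KN A B (fun z : ι → Ev n => Ls (g \ S) (fun _ => P.f) c (xe (vw z)) *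
      ((∏ e ∈ xed A B g \ S, (1 + P.ψ (xe (vw z) e))) - 1) * ∏ e ∈ S, P.φ (xe (vw z) e))
      (2 ^ m * c₀ * ((1 + Λ) ^ (2 * m))⁻¹ * η * (Real.sqrt M)⁻¹ ^ (A.card + B.card)) x := by
  classical
  have hΛ := hP.Λ1
  have hη := hN.η0
  have hxg : xed A B g ⊆ g := Finset.filter_subset _ _
  have hsum := kn_sum (A := A) (B := B) (x := x) ((xed A B g \ S).powerset.erase ∅)
    (K := fun U (z : ι → Ev n) => Ls (g \ S) (fun _ => P.f) c (xe (vw z)) *
      (∏ e ∈ U, P.ψ (xe (vw z) e)) * ∏ e ∈ S, P.φ (xe (vw z) e))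
    (r := fun _ => c₀ * ((1 + Λ) ^ (2 * m))⁻¹ * η * (Real.sqrt M)⁻¹ ^ (A.card + B.card))
    (fun _ _ => by positivity)
    (fun U hU => kta_term hP hN hAB hA hB hg hm hS hc₀ hc
      (Finset.mem_powerset.1 (Finset.mem_of_mem_erase hU))
      (Finset.nonempty_iff_ne_empty.2 (Finset.ne_of_mem_erase hU)) x)
  refine kn_mono (kn_congr hsum ?_) ?_ ?_
  · intro z _
    rw [Finset.prod_one_add, ← Finset.add_sum_erase _ _ (Finset.empty_mem_powerset _),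
      Finset.prod_empty, add_sub_cancel_left, Finset.mul_sum, Finset.sum_mul]
  · exact Finset.sum_nonneg fun _ _ => by positivity
  · rw [Finset.sum_const, nsmul_eq_mul]
    have h1 : (((xed A B g \ S).powerset.erase ∅).card : ℝ) ≤ 2 ^ m := by
      have : ((xed A B g \ S).powerset.erase ∅).card ≤ 2 ^ m := by
        refine (Finset.card_le_card (Finset.erase_subset _ _)).trans ?_
        rw [Finset.card_powerset]
        exact Nat.pow_le_pow_right (by norm_num)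
          ((Finset.card_le_card (Finset.sdiff_subset.trans hxg)).trans hm)
      exact_mod_cast this
    calc _ ≤ 2 ^ m * (c₀ * ((1 + Λ) ^ (2 * m))⁻¹ * η * (Real.sqrt M)⁻¹ ^ (A.card + B.card)) :=
          mul_le_mul_of_nonneg_right h1 (by positivity)
      _ = _ := by ring

end Pool.Agent.Lib.MP_0430e4_lc.L3
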