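import Pool.Agent.Lib.MP_0430e4_lc.L3.KNE
import Pool.Agent.Lib.MP_0430e4_lc.L3.KBR
import Pool.Agent.Lib.MP_0430e4_lc.Las.SETB

/-!
# KTR: from set kernels to kernels of tuples

PROOF. `ww P I ≠ 0`, so all pairs of `I` are good (`wt_bad` with `x = id`). Enumerate `I` by `Fin i` (`x (inl j)`), choose for every `A` with `|A| = a` an enumeration `e A : Fin a → Ev n` (`Las.setb_enum`), `p z = F A` if `z ∘ inr ∘ inl = e A`, `A` its image, else 0 (`Las.setbP`),
same for `q`; `p z ≠ 0` (and `z = x` on the left part; put the indicator of this into `p`, or note that only such `z` occur and define `p` with the condition that `z` is good on `VI ∪ VA`) implies `ww P (I ∪ A) ≠ 0`, so `z` is good and injective on `VI ∪ VA` (`wt_bad`).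
`sm VA (p ^ 2) = ∑ A, F A ^ 2` (`Las.setbP_sq`), the form is the same (`Las.setbP_sum`, `kne`: `KK (ub P (vw z)) VI VA VB = Kn (ww P) I A B`), `sm_gl` may help. Apply `hKK`.
-/

set_option autoImplicit false

namespace Pool.Agent.Lib.MP_0430e4_lc.L3

open Finset
open Lin (W wt sg evW)
open L2 (Ev)

/-- The vertex sets. -/
def VI (i a b : ℕ) : Finset (Fin i ⊕ (Fin a ⊕ Fin b)) := univ.filter fun v => v.isLeft
def VA (i a b : ℕ) : Finset (Fin i ⊕ (Fin a ⊕ Fin b)) :=
  univ.filter fun v => ∃ j : Fin a, v = Sum.inr (Sum.inl j)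
def VB (i a b : ℕ) : Finset (Fin i ⊕ (Fin a ⊕ Fin b)) :=
  univ.filter fun v => ∃ j : Fin b, v = Sum.inr (Sum.inr j)

theorem ktr_mem_VI {i a b : ℕ} (v : Fin i ⊕ (Fin a ⊕ Fin b)) : v ∈ VI i a b ↔ v.isLeft := by
  simp [VI]

theorem ktr_inl {i a b : ℕ} (j : Fin i) : (Sum.inl j : Fin i ⊕ (Fin a ⊕ Fin b)) ∈ VI i a b := by
  simp [VI]

theorem ktr_A {i a b : ℕ} (j : Fin a) :
    (Sum.inr (Sum.inl j) : Fin i ⊕ (Fin a ⊕ Fin b)) ∈ VA i a b := by
  simp [VA]

theorem ktr_B {i a b : ℕ} (j : Fin b) :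
    (Sum.inr (Sum.inr j) : Fin i ⊕ (Fin a ⊕ Fin b)) ∈ VB i a b := by
  simp [VB]

theorem ktr_inl_A {i a b : ℕ} (j : Fin i) :
    (Sum.inl j : Fin i ⊕ (Fin a ⊕ Fin b)) ∉ VA i a b := by
  simp [VA]

theorem ktr_inl_B {i a b : ℕ} (j : Fin i) :
    (Sum.inl j : Fin i ⊕ (Fin a ⊕ Fin b)) ∉ VB i a b := by
  simp [VB]

theorem ktr_A_B {i a b : ℕ} (j : Fin a) :
    (Sum.inr (Sum.inl j) : Fin i ⊕ (Fin a ⊕ Fin b)) ∉ VB i a b := by
  simp [VB]

theorem ktr_B_A {i a b : ℕ} (j : Fin b) :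
    (Sum.inr (Sum.inr j) : Fin i ⊕ (Fin a ⊕ Fin b)) ∉ VA i a b := by
  simp [VA]

theorem ktr_A_I {i a b : ℕ} (j : Fin a) :
    (Sum.inr (Sum.inl j) : Fin i ⊕ (Fin a ⊕ Fin b)) ∉ VI i a b := by
  simp [VI]

theorem ktr_B_I {i a b : ℕ} (j : Fin b) :
    (Sum.inr (Sum.inr j) : Fin i ⊕ (Fin a ⊕ Fin b)) ∉ VI i a b := by
  simp [VI]

section sums

variable {Γ : Type*} [Fintype Γ] [DecidableEq Γ]

/-- the configuration with given parts -/
def ktrZ {i a b : ℕ} (xI : Fin i → Γ) (α : Fin a → Γ) (β : Fin b → Γ) :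
    Fin i ⊕ (Fin a ⊕ Fin b) → Γ := Sum.elim xI (Sum.elim α β)

theorem ktr_smA {i a b : ℕ} (F : (Fin i ⊕ (Fin a ⊕ Fin b) → Γ) → ℝ) (xI : Fin i → Γ)
    (α₀ : Fin a → Γ) (β₀ : Fin b → Γ) :
    sm (VA i a b) F (ktrZ xI α₀ β₀) = ∑ α : Fin a → Γ, F (ktrZ xI α β₀) := by
  classical
  unfold sm
  refine sum_nbij' (fun z j => z (Sum.inr (Sum.inl j))) (fun α => ktrZ xI α β₀) ?_ ?_ ?_ ?_ ?_
  · intro z _
    exact mem_univ _
  · intro α _
    refine mem_filter.2 ⟨mem_univ _, ?_⟩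
    rintro (j | j | j) hv
    · rfl
    · exact absurd (ktr_A j) hv
    · rfl
  · intro z hz
    have hz' := (mem_filter.1 hz).2
    funext v
    rcases v with j | j | j
    · exact (hz' _ (ktr_inl_A j)).symm
    · rfl
    · exact (hz' _ (ktr_B_A j)).symm
  · intro α _
    rfl
  · intro z hz
    have hz' := (mem_filter.1 hz).2
    congr 1
    funext v
    rcases v with j | j | j
    · exact hz' _ (ktr_inl_A j)
    · rfl
    · exact hz' _ (ktr_B_A j)

theorem ktr_smB {i a b : ℕ} (F : (Fin i ⊕ (Fin a ⊕ Fin b) → Γ) → ℝ) (xI : Fin i → Γ)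
    (α₀ : Fin a → Γ) (β₀ : Fin b → Γ) :
    sm (VB i a b) F (ktrZ xI α₀ β₀) = ∑ β : Fin b → Γ, F (ktrZ xI α₀ β) := by
  classical
  unfold sm
  refine sum_nbij' (fun z j => z (Sum.inr (Sum.inr j))) (fun β => ktrZ xI α₀ β) ?_ ?_ ?_ ?_ ?_
  · intro z _
    exact mem_univ _
  · intro β _
    refine mem_filter.2 ⟨mem_univ _, ?_⟩
    rintro (j | j | j) hv
    · rfl
    · rfl
    · exact absurd (ktr_B j) hv
  · intro z hz
    have hz' := (mem_filter.1 hz).2
    funext v
    rcases v with j | j | j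
    · exact (hz' _ (ktr_inl_B j)).symm
    · exact (hz' _ (ktr_A_B j)).symm
    · rfl
  · intro β _
    rfl
  · intro z hz
    have hz' := (mem_filter.1 hz).2
    congr 1
    funext v
    rcases v with j | j | j
    · exact hz' _ (ktr_inl_B j)
    · exact hz' _ (ktr_A_B j)
    · rfl

theorem ktr_disj (i a b : ℕ) : Disjoint (VA i a b) (VB i a b) := by
  rw [disjoint_left]
  rintro (j | j | j) h
  · exact absurd h (ktr_inl_A j)
  · exact ktr_A_B j
  · exact absurd h (ktr_B_A j)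

theorem ktr_disjIA (i a b : ℕ) : Disjoint (VI i a b) (VA i a b) := by
  rw [disjoint_left]
  rintro (j | j | j) h
  · exact ktr_inl_A j
  · exact absurd h (ktr_A_I j)
  · exact absurd h (ktr_B_I j)

theorem ktr_disjIB (i a b : ℕ) : Disjoint (VI i a b) (VB i a b) := by
  rw [disjoint_left]
  rintro (j | j | j) h
  · exact ktr_inl_B j
  · exact absurd h (ktr_A_I j)
  · exact absurd h (ktr_B_I j)

theorem ktr_smAB {i a b : ℕ} (F : (Fin i ⊕ (Fin a ⊕ Fin b) → Γ) → ℝ) (xI : Fin i → Γ)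
    (α₀ : Fin a → Γ) (β₀ : Fin b → Γ) :
    sm (VA i a b ∪ VB i a b) F (ktrZ xI α₀ β₀) =
      ∑ α : Fin a → Γ, ∑ β : Fin b → Γ, F (ktrZ xI α β) := by
  rw [sm_union (ktr_disj i a b), ktr_smA]
  exact sum_congr rfl fun α _ => ktr_smB _ _ _ _

end sums

/-- all pairs of words of a set of nonzero weight are good -/
theorem ktr_good {n d : ℕ} {P : Pm n}
    (hφ : ∀ w ∈ evW n, ¬ (d ≤ wt w ∧ wt w + d ≤ n) → P.φ w = -1 ∧ P.ψ w = -1)
    {S : Finset (Ev n)} (hS : ww P S ≠ 0) {u v : Ev n} (hu : u ∈ S) (hv : v ∈ S) (huv : u ≠ v) :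
    okw n d u v := by
  by_contra hbad
  exact hS (wt_bad hφ (x := fun v : Ev n => v) hu hv huv hbad)

theorem ktr_setbP {V : Type*} [Fintype V] [DecidableEq V] {a : ℕ} {e : Finset V → Fin a → V}
    {F : Finset V → ℝ} {α : Fin a → V} (h : Las.setbP e F α ≠ 0) :
    ∃ A ∈ powersetCard a (univ : Finset V), e A = α ∧ F A ≠ 0 := by
  unfold Las.setbP at h
  obtain ⟨A, hA, hne⟩ := exists_ne_zero_of_sum_ne_zero h
  by_cases h1 : e A = α
  · rw [if_pos h1] at hne
    exact ⟨A, hA, h1, hne⟩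
  · rw [if_neg h1] at hne
    exact absurd rfl hne

theorem ktr_sum_card {V : Type*} [Fintype V] [DecidableEq V] {a : ℕ} {F : Finset V → ℝ}
    {H : Finset V → ℝ} (hF : ∀ A, F A = 0 → H A = 0) (hc : ∀ A, F A ≠ 0 → A.card = a) :
    ∑ A, H A = ∑ A ∈ powersetCard a (univ : Finset V), H A := by
  symm
  refine sum_subset (subset_univ _) fun A _ hA => hF A ?_
  by_contra hne
  exact hA (mem_powersetCard.2 ⟨subset_univ _, hc A hne⟩)

theorem ktr {n d : ℕ} (hn : 0 < n) (hd : 1 ≤ d) {P : Pm n}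
    (hφ : ∀ w ∈ evW n, ¬ (d ≤ wt w ∧ wt w + d ≤ n) → P.φ w = -1 ∧ P.ψ w = -1)
    {I : Finset (Ev n)} (hI : ww P I ≠ 0) {i a b : ℕ} (hi : I.card = i) {c : ℝ}
    (hKK : ∀ x : Fin i ⊕ (Fin a ⊕ Fin b) → Ev n, gd (okw n d) x (VI i a b) →
      ∀ p q : (Fin i ⊕ (Fin a ⊕ Fin b) → Ev n) → ℝ, Ind (VB i a b) p → Ind (VA i a b) q →
      (∀ z, p z ≠ 0 → gd (okw n d) z (VI i a b ∪ VA i a b)) →
      (∀ z, q z ≠ 0 → gd (okw n d) z (VI i a b ∪ VB i a b)) →
      sm (VA i a b ∪ VB i a b)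
        (fun z => KK (ub P (vw z)) (VI i a b) (VA i a b) (VB i a b) * p z * q z) x ^ 2 ≤
        c * (sm (VA i a b) (fun z => p z ^ 2) x * sm (VB i a b) (fun z => q z ^ 2) x))
    (F G : Finset (Ev n) → ℝ)
    (hF : ∀ A, F A ≠ 0 → A.card = a ∧ Disjoint I A ∧ ww P (I ∪ A) ≠ 0)
    (hG : ∀ B, G B ≠ 0 → B.card = b ∧ Disjoint I B ∧ ww P (I ∪ B) ≠ 0) :
    (∑ A, ∑ B, Kn (ww P) I A B * F A * G B) ^ 2 ≤ c * ((∑ A, F A ^ 2) * ∑ B, G B ^ 2) := by
  classical
  haveI : Nonempty (Ev n) := ⟨⟨0, by simp [evW]⟩⟩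
  obtain ⟨eI, heI⟩ := Las.setb_enum (V := Ev n) i
  obtain ⟨e, he⟩ := Las.setb_enum (V := Ev n) a
  obtain ⟨e', he'⟩ := Las.setb_enum (V := Ev n) b
  have hIm : I ∈ powersetCard i (univ : Finset (Ev n)) := mem_powersetCard.2 ⟨subset_univ _, hi⟩
  obtain ⟨hxinj, hxmem⟩ := heI I hIm
  set xI : Fin i → Ev n := eI I with hxI
  have hAm : ∀ A, F A ≠ 0 → A ∈ powersetCard a (univ : Finset (Ev n)) := fun A hA =>
    mem_powersetCard.2 ⟨subset_univ _, (hF A hA).1⟩
  have hBm : ∀ B, G B ≠ 0 → B ∈ powersetCard b (univ : Finset (Ev n)) := fun B hB =>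
    mem_powersetCard.2 ⟨subset_univ _, (hG B hB).1⟩
  set o : Ev n := Classical.arbitrary (Ev n) with ho
  set x : Fin i ⊕ (Fin a ⊕ Fin b) → Ev n := ktrZ xI (fun _ => o) (fun _ => o) with hx
  set p : (Fin i ⊕ (Fin a ⊕ Fin b) → Ev n) → ℝ := fun z =>
    if (∀ j, z (Sum.inl j) = xI j) then Las.setbP e F (fun j => z (Sum.inr (Sum.inl j))) else 0
    with hp
  set q : (Fin i ⊕ (Fin a ⊕ Fin b) → Ev n) → ℝ := fun z =>
    if (∀ j, z (Sum.inl j) = xI j) then Las.setbP e' G (fun j => z (Sum.inr (Sum.inr j))) else 0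
    with hq
  have hpZ : ∀ α β, p (ktrZ xI α β) = Las.setbP e F α := by
    intro α β
    show (if (∀ j, xI j = xI j) then _ else _) = _
    rw [if_pos (fun _ => rfl)]
    rfl
  have hqZ : ∀ α β, q (ktrZ xI α β) = Las.setbP e' G β := by
    intro α β
    show (if (∀ j, xI j = xI j) then _ else _) = _
    rw [if_pos (fun _ => rfl)]
    rfl
  have hgI : gd (okw n d) x (VI i a b) := by
    rintro (j | j | j) hu (k | k | k) hv huv
    · refine ktr_good hφ hI ((hxmem _).2 ⟨j, rfl⟩) ((hxmem _).2 ⟨k, rfl⟩) ?_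
      intro h
      exact huv (congrArg Sum.inl (hxinj h))
    · exact absurd hv (ktr_A_I k)
    · exact absurd hv (ktr_B_I k)
    · exact absurd hu (ktr_A_I j)
    · exact absurd hu (ktr_A_I j)
    · exact absurd hu (ktr_A_I j)
    · exact absurd hu (ktr_B_I j)
    · exact absurd hu (ktr_B_I j)
    · exact absurd hu (ktr_B_I j)
  have hpI : Ind (VB i a b) p := by
    intro y z hyz
    show (if (∀ j, z (Sum.inl j) = xI j) then
        Las.setbP e F (fun j => z (Sum.inr (Sum.inl j))) else 0) =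
      (if (∀ j, y (Sum.inl j) = xI j) then
        Las.setbP e F (fun j => y (Sum.inr (Sum.inl j))) else 0)
    have h1 : ∀ j, z (Sum.inl j) = y (Sum.inl j) := fun j => hyz _ (ktr_inl_B j)
    have h2 : (fun j => z (Sum.inr (Sum.inl j))) = fun j => y (Sum.inr (Sum.inl j)) :=
      funext fun j => hyz _ (ktr_A_B j)
    simp only [h1, h2]
  have hqI : Ind (VA i a b) q := by
    intro y z hyz
    show (if (∀ j, z (Sum.inl j) = xI j) then
        Las.setbP e' G (fun j => z (Sum.inr (Sum.inr j))) else 0) =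
      (if (∀ j, y (Sum.inl j) = xI j) then
        Las.setbP e' G (fun j => y (Sum.inr (Sum.inr j))) else 0)
    have h1 : ∀ j, z (Sum.inl j) = y (Sum.inl j) := fun j => hyz _ (ktr_inl_A j)
    have h2 : (fun j => z (Sum.inr (Sum.inr j))) = fun j => y (Sum.inr (Sum.inr j)) :=
      funext fun j => hyz _ (ktr_B_A j)
    simp only [h1, h2]
  have hsupp : ∀ z, p z ≠ 0 → (∀ j, z (Sum.inl j) = xI j) ∧ ∃ A ∈ powersetCard a
      (univ : Finset (Ev n)), (e A = fun j => z (Sum.inr (Sum.inl j))) ∧ F A ≠ 0 := by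
    intro z hz
    by_cases h1 : ∀ j, z (Sum.inl j) = xI j
    · have hz2 : Las.setbP e F (fun j => z (Sum.inr (Sum.inl j))) ≠ 0 := by
        intro h2
        apply hz
        show (if (∀ j, z (Sum.inl j) = xI j) then _ else _) = _
        rw [if_pos h1]
        exact h2
      exact ⟨h1, ktr_setbP hz2⟩
    · exfalso
      apply hz
      show (if (∀ j, z (Sum.inl j) = xI j) then _ else _) = _
      rw [if_neg h1]
  have hsuppq : ∀ z, q z ≠ 0 → (∀ j, z (Sum.inl j) = xI j) ∧ ∃ B ∈ powersetCard b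
      (univ : Finset (Ev n)), (e' B = fun j => z (Sum.inr (Sum.inr j))) ∧ G B ≠ 0 := by
    intro z hz
    by_cases h1 : ∀ j, z (Sum.inl j) = xI j
    · have hz2 : Las.setbP e' G (fun j => z (Sum.inr (Sum.inr j))) ≠ 0 := by
        intro h2
        apply hz
        show (if (∀ j, z (Sum.inl j) = xI j) then _ else _) = _
        rw [if_pos h1]
        exact h2
      exact ⟨h1, ktr_setbP hz2⟩
    · exfalso
      apply hz
      show (if (∀ j, z (Sum.inl j) = xI j) then _ else _) = _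
      rw [if_neg h1]
  -- injectivity and goodness on `VI ∪ VA`
  have hinjA : ∀ (z : Fin i ⊕ (Fin a ⊕ Fin b) → Ev n) (A : Finset (Ev n)),
      A ∈ powersetCard a (univ : Finset (Ev n)) → Disjoint I A → (∀ j, z (Sum.inl j) = xI j) →
      (e A = fun j => z (Sum.inr (Sum.inl j))) →
      Set.InjOn z (VI i a b ∪ VA i a b : Finset _) := by
    intro z A hA hdis h1 h2 u hu v hv huv
    have hIz : ∀ j, z (Sum.inl j) ∈ I := fun j => by rw [h1 j]; exact (hxmem _).2 ⟨j, rfl⟩
    have hAz : ∀ j, z (Sum.inr (Sum.inl j)) ∈ A := fun j => by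
      rw [← congrFun h2 j]; exact ((he A hA).2 _).2 ⟨j, rfl⟩
    rw [mem_coe, mem_union] at hu hv
    rcases u with j | j | j
    · rcases v with k | k | k
      · rw [h1, h1] at huv
        rw [hxinj huv]
      · exact absurd (hAz k) (disjoint_left.1 hdis (huv ▸ hIz j))
      · rcases hv with hv | hv
        · exact absurd hv (ktr_B_I k)
        · exact absurd hv (ktr_B_A k)
    · rcases v with k | k | k
      · exact absurd (hAz j) (disjoint_left.1 hdis (huv.symm ▸ hIz k))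
      · have h3 : e A j = e A k := by rw [congrFun h2 j, congrFun h2 k]; exact huv
        rw [(he A hA).1 h3]
      · rcases hv with hv | hv
        · exact absurd hv (ktr_B_I k)
        · exact absurd hv (ktr_B_A k)
    · rcases hu with hu | hu
      · exact absurd hu (ktr_B_I j)
      · exact absurd hu (ktr_B_A j)
  have hinjB : ∀ (z : Fin i ⊕ (Fin a ⊕ Fin b) → Ev n) (B : Finset (Ev n)),
      B ∈ powersetCard b (univ : Finset (Ev n)) → Disjoint I B → (∀ j, z (Sum.inl j) = xI j) →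
      (e' B = fun j => z (Sum.inr (Sum.inr j))) →
      Set.InjOn z (VI i a b ∪ VB i a b : Finset _) := by
    intro z B hB hdis h1 h2 u hu v hv huv
    have hIz : ∀ j, z (Sum.inl j) ∈ I := fun j => by rw [h1 j]; exact (hxmem _).2 ⟨j, rfl⟩
    have hBz : ∀ j, z (Sum.inr (Sum.inr j)) ∈ B := fun j => by
      rw [← congrFun h2 j]; exact ((he' B hB).2 _).2 ⟨j, rfl⟩
    rw [mem_coe, mem_union] at hu hv
    rcases u with j | j | j
    · rcases v with k | k | k
      · rw [h1, h1] at huv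
        rw [hxinj huv]
      · rcases hv with hv | hv
        · exact absurd hv (ktr_A_I k)
        · exact absurd hv (ktr_A_B k)
      · exact absurd (hBz k) (disjoint_left.1 hdis (huv ▸ hIz j))
    · rcases hu with hu | hu
      · exact absurd hu (ktr_A_I j)
      · exact absurd hu (ktr_A_B j)
    · rcases v with k | k | k
      · exact absurd (hBz j) (disjoint_left.1 hdis (huv.symm ▸ hIz k))
      · rcases hv with hv | hv
        · exact absurd hv (ktr_A_I k)
        · exact absurd hv (ktr_A_B k)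
      · have h3 : e' B j = e' B k := by rw [congrFun h2 j, congrFun h2 k]; exact huv
        rw [(he' B hB).1 h3]
  have hmemA : ∀ (z : Fin i ⊕ (Fin a ⊕ Fin b) → Ev n) (A : Finset (Ev n)),
      A ∈ powersetCard a (univ : Finset (Ev n)) → (∀ j, z (Sum.inl j) = xI j) →
      (e A = fun j => z (Sum.inr (Sum.inl j))) → ∀ u ∈ VI i a b ∪ VA i a b, z u ∈ I ∪ A := by
    intro z A hA h1 h2 u hu
    rcases u with j | j | j
    · exact mem_union_left _ (by rw [h1 j]; exact (hxmem _).2 ⟨j, rfl⟩)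
    · exact mem_union_right _ (by rw [← congrFun h2 j]; exact ((he A hA).2 _).2 ⟨j, rfl⟩)
    · rcases mem_union.1 hu with hu | hu
      · exact absurd hu (ktr_B_I j)
      · exact absurd hu (ktr_B_A j)
  have hmemB : ∀ (z : Fin i ⊕ (Fin a ⊕ Fin b) → Ev n) (B : Finset (Ev n)),
      B ∈ powersetCard b (univ : Finset (Ev n)) → (∀ j, z (Sum.inl j) = xI j) →
      (e' B = fun j => z (Sum.inr (Sum.inr j))) → ∀ u ∈ VI i a b ∪ VB i a b, z u ∈ I ∪ B := by
    intro z B hB h1 h2 u hu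
    rcases u with j | j | j
    · exact mem_union_left _ (by rw [h1 j]; exact (hxmem _).2 ⟨j, rfl⟩)
    · rcases mem_union.1 hu with hu | hu
      · exact absurd hu (ktr_A_I j)
      · exact absurd hu (ktr_A_B j)
    · exact mem_union_right _ (by rw [← congrFun h2 j]; exact ((he' B hB).2 _).2 ⟨j, rfl⟩)
  have hgp : ∀ z, p z ≠ 0 → gd (okw n d) z (VI i a b ∪ VA i a b) := by
    intro z hz u hu v hv huv
    obtain ⟨h1, A, hA, h2, hFA⟩ := hsupp z hz
    obtain ⟨_, hdis, hww⟩ := hF A hFA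
    refine ktr_good hφ hww (hmemA z A hA h1 h2 u hu) (hmemA z A hA h1 h2 v hv) ?_
    intro h
    exact huv (hinjA z A hA hdis h1 h2 (mem_coe.2 hu) (mem_coe.2 hv) h)
  have hgq : ∀ z, q z ≠ 0 → gd (okw n d) z (VI i a b ∪ VB i a b) := by
    intro z hz u hu v hv huv
    obtain ⟨h1, B, hB, h2, hGB⟩ := hsuppq z hz
    obtain ⟨_, hdis, hww⟩ := hG B hGB
    refine ktr_good hφ hww (hmemB z B hB h1 h2 u hu) (hmemB z B hB h1 h2 v hv) ?_
    intro h
    exact huv (hinjB z B hB hdis h1 h2 (mem_coe.2 hu) (mem_coe.2 hv) h)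
  have key := hKK x hgI p q hpI hqI hgp hgq
  rw [hx, ktr_smA, ktr_smB, ktr_smAB] at key
  simp only [hpZ, hqZ] at key
  rw [Las.setbP_sq he, Las.setbP_sq he'] at key
  rw [ktr_sum_card (F := F) (H := fun A => F A ^ 2) (a := a) (fun A hA => by simp [hA])
    (fun A hA => (hF A hA).1), ktr_sum_card (F := G) (H := fun B => G B ^ 2) (a := b)
    (fun B hB => by simp [hB]) (fun B hB => (hG B hB).1)]
  have hform : ∑ A, ∑ B, Kn (ww P) I A B * F A * G B =
      ∑ α : Fin a → Ev n, ∑ β : Fin b → Ev n,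
        KK (ub P (vw (ktrZ xI α β))) (VI i a b) (VA i a b) (VB i a b) * Las.setbP e F α *
          Las.setbP e' G β := by
    have h6 : ∀ α : Fin a → Ev n, ∑ β : Fin b → Ev n,
        KK (ub P (vw (ktrZ xI α β))) (VI i a b) (VA i a b) (VB i a b) * Las.setbP e F α *
          Las.setbP e' G β = (∑ B ∈ powersetCard b (univ : Finset (Ev n)),
            KK (ub P (vw (ktrZ xI α (e' B)))) (VI i a b) (VA i a b) (VB i a b) * G B) *
              Las.setbP e F α := by
      intro α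
      rw [← Las.setbP_sum e' G (fun β => KK (ub P (vw (ktrZ xI α β))) (VI i a b) (VA i a b)
        (VB i a b)), sum_mul]
      exact sum_congr rfl fun β _ => by ring
    rw [sum_congr rfl fun α _ => h6 α]
    rw [Las.setbP_sum e F (fun α => ∑ B ∈ powersetCard b (univ : Finset (Ev n)),
      KK (ub P (vw (ktrZ xI α (e' B)))) (VI i a b) (VA i a b) (VB i a b) * G B)]
    rw [ktr_sum_card (F := F) (H := fun A => ∑ B, Kn (ww P) I A B * F A * G B) (a := a)
      (fun A hA => by simp [hA]) (fun A hA => (hF A hA).1)]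
    refine sum_congr rfl fun A hA => ?_
    by_cases hFA : F A = 0
    · simp [hFA]
    rw [ktr_sum_card (F := G) (H := fun B => Kn (ww P) I A B * F A * G B) (a := b)
      (fun B hB => by simp [hB]) (fun B hB => (hG B hB).1), sum_mul]
    refine sum_congr rfl fun B hB => ?_
    by_cases hGB : G B = 0
    · simp [hGB]
    obtain ⟨_, hdA, _⟩ := hF A hFA
    obtain ⟨_, hdB, _⟩ := hG B hGB
    have h1 : Set.InjOn (ktrZ xI (e A) (e' B)) (VI i a b ∪ VA i a b : Finset _) :=
      hinjA _ A hA hdA (fun _ => rfl) rfl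
    have h2 : Set.InjOn (ktrZ xI (e A) (e' B)) (VI i a b ∪ VB i a b : Finset _) :=
      hinjB _ B hB hdB (fun _ => rfl) rfl
    have h3 := kne hd hφ (ktr_disjIA i a b) (ktr_disjIB i a b) (ktr_disj i a b) h1 h2
    have hIim : (VI i a b).image (ktrZ xI (e A) (e' B)) = I := by
      ext w
      rw [mem_image, hxmem w]
      constructor
      · rintro ⟨v, hv, rfl⟩
        rcases v with j | j | j
        · exact ⟨j, rfl⟩
        · exact absurd hv (ktr_A_I j)
        · exact absurd hv (ktr_B_I j)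
      · rintro ⟨j, rfl⟩
        exact ⟨Sum.inl j, ktr_inl j, rfl⟩
    have hAim : (VA i a b).image (ktrZ xI (e A) (e' B)) = A := by
      ext w
      rw [mem_image, (he A hA).2 w]
      constructor
      · rintro ⟨v, hv, rfl⟩
        rcases v with j | j | j
        · exact absurd hv (ktr_inl_A j)
        · exact ⟨j, rfl⟩
        · exact absurd hv (ktr_B_A j)
      · rintro ⟨j, rfl⟩
        exact ⟨Sum.inr (Sum.inl j), ktr_A j, rfl⟩
    have hBim : (VB i a b).image (ktrZ xI (e A) (e' B)) = B := by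
      ext w
      rw [mem_image, (he' B hB).2 w]
      constructor
      · rintro ⟨v, hv, rfl⟩
        rcases v with j | j | j
        · exact absurd hv (ktr_inl_B j)
        · exact absurd hv (ktr_A_B j)
        · exact ⟨j, rfl⟩
      · rintro ⟨j, rfl⟩
        exact ⟨Sum.inr (Sum.inr j), ktr_B j, rfl⟩
    rw [hIim, hAim, hBim] at h3
    rw [h3]
    ring
  rw [hform]
  exact key


end Pool.Agent.Lib.MP_0430e4_lc.L3
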