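import Pool.Agent.Lib.MP_0430e4_lc.Las.KERC
import Pool.Agent.Lib.MP_0430e4_lc.L2.TRN

/-!
# LEN: monotonicity of the levels in the length and the distance

PROOF. `las_anti_d`: a feasible `y` for `d'` is feasible for `d ≤ d'`; `csSup_le_csSup` with `Las.las_bdd`, nonempty (or `csSup_le` and `le_csSup`). `las_len`: given feasible `y` for length `n`, embed words by `J x = Fin.snoc x false` (or `Fin.cons false x`),
`y' S = if S ⊆ image then y (preimage) else 0`; exactly as in `L2.las_ge_ev` (file L2/TRN.lean), distances are preserved.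
-/

set_option autoImplicit false

namespace Pool.Agent.Lib.MP_0430e4_lc.L3

open Finset Filter

theorem len_nonempty (t n d : ℕ) :
    {s : ℝ | ∃ y : Finset (Fin n → Bool) → ℝ, y ∅ = 1 ∧
      (∀ S : Finset (Fin n → Bool), (∃ u ∈ S, ∃ v ∈ S, u ≠ v ∧ hammingDist u v < d) → y S = 0) ∧
      Las.MomPos t y ∧ s = ∑ x, y {x}}.Nonempty := by
  classical
  refine ⟨_, fun S => if S ⊆ ∅ then 1 else 0, by simp, ?_, Las.triv_momPos_indicator t ∅, rfl⟩
  rintro S ⟨u, hu, -, -, -, -⟩
  exact if_neg fun h => by simpa using h hu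

theorem las_anti_d {t n d d' : ℕ} (ht : 1 ≤ t) (h : d ≤ d') : Las.las t n d' ≤ Las.las t n d := by
  refine csSup_le (len_nonempty t n d') ?_
  rintro s ⟨y, h0, hd, hy, rfl⟩
  refine le_csSup (Las.las_bdd ht n d) ⟨y, h0, ?_, hy, rfl⟩
  rintro S ⟨u, hu, v, hv, huv, hdist⟩
  exact hd S ⟨u, hu, v, hv, huv, hdist.trans_le h⟩

/-- the embedding of the words of length `n` -/
def lenJ {n : ℕ} (x : Fin n → Bool) : Fin (n + 1) → Bool := Fin.cons false x

theorem lenJ_inj {n : ℕ} : Function.Injective (lenJ (n := n)) := by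
  intro x y h
  funext i
  have h1 := congrFun h i.succ
  simpa [lenJ] using h1

theorem lenJ_dist {n : ℕ} (x y : Fin n → Bool) :
    hammingDist (lenJ x) (lenJ y) = hammingDist x y := by
  unfold hammingDist lenJ
  rw [← card_image_of_injective (univ.filter fun i => x i ≠ y i) (Fin.succ_injective n)]
  refine congrArg card ?_
  ext i
  refine Fin.cases ?_ (fun j => ?_) i
  · simp only [mem_filter, mem_univ, true_and, Fin.cons_zero, ne_eq, not_true_eq_false, mem_image,
      false_iff, not_exists, not_and]
    intro x _ h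
    exact Fin.succ_ne_zero x h
  · simp only [mem_filter, mem_univ, true_and, Fin.cons_succ, mem_image, Fin.succ_inj,
      exists_eq_right]

/-- the words of length `n` whose image is in `S` -/
def lenP {n : ℕ} (S : Finset (Fin (n + 1) → Bool)) : Finset (Fin n → Bool) :=
  univ.filter fun x => lenJ x ∈ S

theorem lenP_image {n : ℕ} (A : Finset (Fin n → Bool)) : lenP (A.image lenJ) = A := by
  ext x
  unfold lenP
  rw [mem_filter, mem_image]
  constructor
  · rintro ⟨_, z, hz, hzx⟩
    rw [← lenJ_inj hzx]
    exact hz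
  · intro hx
    exact ⟨mem_univ _, x, hx, rfl⟩

theorem lenP_card {n : ℕ} (S : Finset (Fin (n + 1) → Bool)) : (lenP S).card ≤ S.card := by
  rw [← card_image_of_injective _ lenJ_inj]
  apply card_le_card
  intro u hu
  obtain ⟨x, hx, rfl⟩ := mem_image.1 hu
  unfold lenP at hx
  exact (mem_filter.1 hx).2

theorem lenP_union {n : ℕ} (S T : Finset (Fin (n + 1) → Bool)) :
    lenP (S ∪ T) = lenP S ∪ lenP T := by
  unfold lenP
  rw [← filter_or]
  congr 1
  funext x
  rw [mem_union]

theorem las_len {t : ℕ} (ht : 1 ≤ t) (n d : ℕ) : Las.las t n d ≤ Las.las t (n + 1) d := by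
  classical
  refine csSup_le (len_nonempty t n d) ?_
  rintro s ⟨y, h0, hd, hy, rfl⟩
  set im : Finset (Fin (n + 1) → Bool) := univ.image (lenJ (n := n)) with him
  set y' : Finset (Fin (n + 1) → Bool) → ℝ := fun S => if S ⊆ im then y (lenP S) else 0 with hy'
  have hyim : ∀ A : Finset (Fin n → Bool), y' (A.image lenJ) = y A := by
    intro A
    rw [hy']
    simp only
    rw [if_pos, lenP_image]
    rw [him]
    exact image_subset_image (subset_univ _)
  have hsum : ∑ x, y {x} = ∑ x, y' {x} := by
    have h1 : ∑ x ∈ im, y' {x} = ∑ x, y' {x} := by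
      apply sum_subset (subset_univ _)
      intro x _ hx
      rw [hy']
      simp only
      rw [if_neg]
      intro h
      exact hx (h (mem_singleton_self _))
    rw [← h1, him, sum_image (fun x _ z _ h => lenJ_inj h)]
    refine sum_congr rfl fun x _ => ?_
    rw [← hyim {x}, image_singleton]
  unfold Las.las
  refine le_csSup (Las.las_bdd ht (n + 1) d) ⟨y', ?_, ?_, ?_, hsum⟩
  · have := hyim ∅
    rw [image_empty] at this
    rw [this, h0]
  · rintro S ⟨u, hu, v, hv, huv, hdist⟩
    rw [hy']
    simp only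
    split_ifs with hS
    · obtain ⟨x, _, rfl⟩ := mem_image.1 (hS hu)
      obtain ⟨z, _, rfl⟩ := mem_image.1 (hS hv)
      apply hd
      refine ⟨x, ?_, z, ?_, fun h => huv (by rw [h]), ?_⟩
      · unfold lenP
        exact mem_filter.2 ⟨mem_univ _, hu⟩
      · unfold lenP
        exact mem_filter.2 ⟨mem_univ _, hv⟩
      · rw [← lenJ_dist]
        exact hdist
    · rfl
  · intro f
    have h1 := Las.triv_form hy
      (fun A : {A : Finset (Fin (n + 1) → Bool) // A ∈ Las.small (Fin (n + 1) → Bool) t} =>
        lenP A.1)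
      (fun A => by
        have := A.2
        unfold Las.small at this
        exact (lenP_card _).trans (mem_filter.1 this).2)
      (fun A => if A.1 ⊆ im then f A.1 else 0)
    refine h1.trans_eq ?_
    rw [← sum_coe_sort (Las.small (Fin (n + 1) → Bool) t)
      (fun A => ∑ B ∈ Las.small (Fin (n + 1) → Bool) t, f A * f B * y' (A ∪ B))]
    refine sum_congr rfl fun A _ => ?_
    rw [← sum_coe_sort (Las.small (Fin (n + 1) → Bool) t) (fun B => f A.1 * f B * y' (A.1 ∪ B))]
    refine sum_congr rfl fun B _ => ?_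
    rw [hy']
    simp only
    rw [lenP_union]
    by_cases hA : A.1 ⊆ im
    · by_cases hB : B.1 ⊆ im
      · rw [if_pos hA, if_pos hB, if_pos (union_subset hA hB)]
      · rw [if_neg hB, if_neg (fun h => hB (subset_union_right.trans h))]
        ring
    · rw [if_neg hA, if_neg (fun h => hA (subset_union_left.trans h))]
      ring

end Pool.Agent.Lib.MP_0430e4_lc.L3
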