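import Pool.Agent.Lib.MP_0430e4_lc.L3.LOD
import Pool.Agent.Lib.MP_0430e4_lc.Lin.LV1

/-!
# LOC: the norm of the local kernel

PROOF. Let `F` run over the subsets of `g`. In the orthogonal bases of the characters `χ_R`, `R ⊆ A`, of `A → ZMod 2` (`∑ a, χ_R a ^ 2 = 2 ^ |A|`) and `χ_S`, `S ⊆ B`, the kernel
is `∑ R S, m R S * χ_R a * χ_S b`, `m R S = ∑ (F : par F ∩ A = R, par F ∩ B = S) s F * chp (par F \ (A ∪ B)) ξ`, `m ∅ ∅ = 1 + Pl`. With `p̂ R = ∑ a, p a * χ_R a` Parseval gives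
`∑ R, ‖p̂ R‖ ^ 2 = 2 ^ |A| * ∑ a, ‖p a‖ ^ 2`, the form is `∑ R S, m R S * p̂ R * q̂ S`. Its matrix: `|m ∅ S|` (`S ≠ ∅`) sums to at most `ε / 4` (value `vl = 1`, at most `2 ^ |g|` sets `F`),
`|m R ∅|` (`R ≠ ∅`) sums to at most `ε / 4`, the rest sums to at most `1 / 4`, and `‖Pl‖ ≤ ε / 4`, so `‖1 + Pl‖ ≥ 3 / 4`. With `P₀ = ‖p̂ ∅‖`, `P₁ ^ 2 = ∑ (R ≠ ∅) ‖p̂ R‖ ^ 2`, same for `q`, `u = ‖1 + Pl‖ ≥ 3 / 4`:
`‖form‖ ≤ u P₀ Q₀ + (ε / 4) (P₀ Q₁ + P₁ Q₀) + (1 / 4) P₁ Q₁ ≤ (u + ε ^ 2) √(P₀² + P₁²) √(Q₀² + Q₁²)`: use `(ε/4)(P₀ Q₁ + P₁ Q₀) ≤ √(ε² P₀² + P₁²/16) √(ε² Q₀² + Q₁²/16)` (Cauchy-Schwarz for `(ε P₀, P₁/4)`, `(Q₁/4, ε Q₀)`), then Cauchy-Schwarz for the three terms,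
`u P₀² + P₁²/4 + ε² P₀² + P₁²/16 ≤ (u + ε²) (P₀² + P₁²)`.
-/

set_option autoImplicit false

namespace Pool.Agent.Lib.MP_0430e4_lc.L3

open Finset
open Lin (W wt sg)

variable {ι : Type*} [Fintype ι] [DecidableEq ι]

/-- `BN K c`: the bilinear form with kernel `K` on `ℓ²(α) × ℓ²(β)` has norm at most `c`. -/
def BN {α β : Type*} [Fintype α] [Fintype β] (K : α → β → ℂ) (c : ℝ) : Prop :=
  0 ≤ c ∧ ∀ (p : α → ℂ) (q : β → ℂ), ‖∑ a, ∑ b, K a b * p a * q b‖ ≤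
    c * Real.sqrt (∑ a, ‖p a‖ ^ 2) * Real.sqrt (∑ b, ‖q b‖ ^ 2)

theorem tens_dual {β : Type*} [Fintype β] (u : β → ℂ) {c : ℝ}
    (h : ∀ q : β → ℂ, ‖∑ b, u b * q b‖ ≤ c * Real.sqrt (∑ b, ‖q b‖ ^ 2)) :
    ∑ b, ‖u b‖ ^ 2 ≤ c ^ 2 := by
  have h1 := h (fun b => (starRingEnd ℂ) (u b))
  have h2 : ∑ b, u b * (starRingEnd ℂ) (u b) = ((∑ b, ‖u b‖ ^ 2 : ℝ) : ℂ) := by
    push_cast
    refine sum_congr rfl fun b _ => ?_
    rw [Complex.mul_conj, Complex.normSq_eq_norm_sq]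
    push_cast
    rfl
  have h3 : ∀ b, ‖(starRingEnd ℂ) (u b)‖ = ‖u b‖ := fun b => RCLike.norm_conj _
  rw [h2, Complex.norm_real, Real.norm_eq_abs,
    abs_of_nonneg (sum_nonneg fun b _ => by positivity)] at h1
  simp only [h3] at h1
  set S := ∑ b, ‖u b‖ ^ 2 with hS
  have hS0 : 0 ≤ S := sum_nonneg fun b _ => by positivity
  have h4 : Real.sqrt S * Real.sqrt S ≤ c * Real.sqrt S := by
    rw [Real.mul_self_sqrt hS0]
    exact h1
  rcases eq_or_lt_of_le (Real.sqrt_nonneg S) with h5 | h5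
  · have : S = 0 := (Real.sqrt_eq_zero hS0).1 h5.symm
    rw [this]
    positivity
  · have h6 : Real.sqrt S ≤ c := le_of_mul_le_mul_right h4 h5
    calc S = Real.sqrt S ^ 2 := (Real.sq_sqrt hS0).symm
      _ ≤ c ^ 2 := pow_le_pow_left₀ (Real.sqrt_nonneg S) h6 2

/-- The vector form of `BN`. -/
theorem BN.vec {α β : Type*} [Fintype α] [Fintype β] {K : α → β → ℂ} {c : ℝ} (h : BN K c)
    (p : α → ℂ) : ∑ b, ‖∑ a, K a b * p a‖ ^ 2 ≤ c ^ 2 * ∑ a, ‖p a‖ ^ 2 := by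
  have h1 := tens_dual (fun b => ∑ a, K a b * p a)
    (c := c * Real.sqrt (∑ a, ‖p a‖ ^ 2)) (by
      intro q
      refine le_trans (le_of_eq ?_) (h.2 p q)
      congr 1
      rw [sum_comm]
      refine sum_congr rfl fun b _ => ?_
      rw [sum_mul])
  rw [mul_pow, Real.sq_sqrt (sum_nonneg fun a _ => by positivity)] at h1
  exact h1

theorem BN.mono {α β : Type*} [Fintype α] [Fintype β] {K : α → β → ℂ} {c d : ℝ} (hK : BN K c)
    (h : c ≤ d) : BN K d := by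
  refine ⟨hK.1.trans h, fun p q => (hK.2 p q).trans ?_⟩
  gcongr

theorem bn_iff {X Y : Type*} [Fintype X] [Fintype Y] {K : X → Y → ℂ} {c : ℝ} :
    BN K c ↔ 0 ≤ c ∧ Bl K c := by
  unfold BN Bl
  refine and_congr_right fun hc => forall_congr' fun p => forall_congr' fun q => ?_
  have hp : 0 ≤ ∑ x, ‖p x‖ ^ 2 := sum_nonneg fun _ _ => sq_nonneg _
  have hq : 0 ≤ ∑ y, ‖q y‖ ^ 2 := sum_nonneg fun _ _ => sq_nonneg _
  have h1 : (c * Real.sqrt (∑ x, ‖p x‖ ^ 2) * Real.sqrt (∑ y, ‖q y‖ ^ 2)) ^ 2 =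
      c ^ 2 * ((∑ x, ‖p x‖ ^ 2) * ∑ y, ‖q y‖ ^ 2) := by
    rw [mul_pow, mul_pow, Real.sq_sqrt hp, Real.sq_sqrt hq]
    ring
  rw [← h1]
  constructor
  · intro h
    exact pow_le_pow_left₀ (norm_nonneg _) h 2
  · intro h
    exact (abs_le_of_sq_le_sq' h (by positivity)).2

theorem Bl.bn {X Y : Type*} [Fintype X] [Fintype Y] {K : X → Y → ℂ} {c : ℝ} (h : Bl K c)
    (hc : 0 ≤ c) : BN K c := bn_iff.2 ⟨hc, h⟩

theorem BN.bl {X Y : Type*} [Fintype X] [Fintype Y] {K : X → Y → ℂ} {c : ℝ} (h : BN K c) :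
    Bl K c := (bn_iff.1 h).2

theorem loc_two {a ρ x x' y y' : ℝ} (ha : 3 / 4 ≤ a) (hρ : 0 ≤ ρ) (hρ1 : ρ ≤ 1 / 4)
    (hx : 0 ≤ x) (hx' : 0 ≤ x') (hy : 0 ≤ y) (hy' : 0 ≤ y') :
    a * x * y + ρ * x * y' + ρ * x' * y + 1 / 4 * x' * y' ≤
      (a + 2 * ρ ^ 2) * Real.sqrt (x ^ 2 + x' ^ 2) * Real.sqrt (y ^ 2 + y' ^ 2) := by
  have q : ∀ u v : ℝ, 0 ≤ u → 0 ≤ v → a * u ^ 2 + 2 * ρ * u * v + 1 / 4 * v ^ 2 ≤
      (a + 2 * ρ ^ 2) * (u ^ 2 + v ^ 2) := by
    intro u v hu hv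
    have h1 : 0 ≤ 1 / 2 * (v - 2 * ρ * u) ^ 2 := by positivity
    have h2 : 0 ≤ (a - 3 / 4) * v ^ 2 := mul_nonneg (by linarith) (sq_nonneg _)
    have h3 : 0 ≤ 2 * ρ ^ 2 * v ^ 2 := by positivity
    have e : (a + 2 * ρ ^ 2) * (u ^ 2 + v ^ 2) - (a * u ^ 2 + 2 * ρ * u * v + 1 / 4 * v ^ 2) =
        1 / 2 * (v - 2 * ρ * u) ^ 2 + (a - 3 / 4) * v ^ 2 + 2 * ρ ^ 2 * v ^ 2 := by ring
    linarith
  set T := a * x * y + ρ * x * y' + ρ * x' * y + 1 / 4 * x' * y' with hT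
  have hT0 : 0 ≤ T := by positivity
  have hP : ∀ u v : ℝ, 0 ≤ u → 0 ≤ v → 0 ≤ a * u ^ 2 + 2 * ρ * u * v + 1 / 4 * v ^ 2 := by
    intro u v hu hv
    have : 0 ≤ a := by linarith
    positivity
  have h1 : T ^ 2 ≤ (a * x ^ 2 + 2 * ρ * x * x' + 1 / 4 * x' ^ 2) *
      (a * y ^ 2 + 2 * ρ * y * y' + 1 / 4 * y' ^ 2) := by
    have e : (a * x ^ 2 + 2 * ρ * x * x' + 1 / 4 * x' ^ 2) *
      (a * y ^ 2 + 2 * ρ * y * y' + 1 / 4 * y' ^ 2) - T ^ 2 =
      (a / 4 - ρ ^ 2) * (x * y' - x' * y) ^ 2 := by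
      rw [hT]
      ring
    have h2 : 0 ≤ a / 4 - ρ ^ 2 := by nlinarith
    have := mul_nonneg h2 (sq_nonneg (x * y' - x' * y))
    linarith
  have h2 : T ^ 2 ≤ ((a + 2 * ρ ^ 2) * (x ^ 2 + x' ^ 2)) *
      ((a + 2 * ρ ^ 2) * (y ^ 2 + y' ^ 2)) :=
    h1.trans (mul_le_mul (q x x' hx hx') (q y y' hy hy') (hP y y' hy hy')
      ((hP x x' hx hx').trans (q x x' hx hx')))
  have h3 : 0 ≤ a + 2 * ρ ^ 2 := by positivity
  have h4 : ((a + 2 * ρ ^ 2) * Real.sqrt (x ^ 2 + x' ^ 2) * Real.sqrt (y ^ 2 + y' ^ 2)) ^ 2 =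
      ((a + 2 * ρ ^ 2) * (x ^ 2 + x' ^ 2)) * ((a + 2 * ρ ^ 2) * (y ^ 2 + y' ^ 2)) := by
    rw [mul_pow, mul_pow, Real.sq_sqrt (by positivity), Real.sq_sqrt (by positivity)]
    ring
  rw [← h4] at h2
  exact abs_le_of_sq_le_sq' h2 (by positivity) |>.2

/-- A matrix dominated by its entry `(i₀, k₀)`. -/
theorem BN.core {I K : Type*} [Fintype I] [DecidableEq I] [Fintype K] [DecidableEq K]
    {M : I → K → ℂ} (i₀ : I) (k₀ : K) {a ρ : ℝ} (ha : 3 / 4 ≤ a) (hρ : 0 ≤ ρ) (hρ1 : ρ ≤ 1 / 4)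
    (h00 : ‖M i₀ k₀‖ ≤ a) (h1 : ∑ k ∈ univ.erase k₀, ‖M i₀ k‖ ≤ ρ)
    (h2 : ∑ i ∈ univ.erase i₀, ‖M i k₀‖ ≤ ρ)
    (h3 : ∑ i ∈ univ.erase i₀, ∑ k ∈ univ.erase k₀, ‖M i k‖ ≤ 1 / 4) :
    BN M (a + 2 * ρ ^ 2) := by
  refine ⟨by positivity, fun p q => ?_⟩
  set x := ‖p i₀‖ with hx
  set y := ‖q k₀‖ with hy
  set x' := Real.sqrt (∑ i ∈ univ.erase i₀, ‖p i‖ ^ 2) with hx'
  set y' := Real.sqrt (∑ k ∈ univ.erase k₀, ‖q k‖ ^ 2) with hy'
  have bx : ∀ i ∈ univ.erase i₀, ‖p i‖ ≤ x' := fun i hi =>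
    Real.le_sqrt_of_sq_le (single_le_sum (f := fun i => ‖p i‖ ^ 2)
      (fun _ _ => sq_nonneg _) hi)
  have by' : ∀ k ∈ univ.erase k₀, ‖q k‖ ≤ y' := fun k hk =>
    Real.le_sqrt_of_sq_le (single_le_sum (f := fun k => ‖q k‖ ^ 2)
      (fun _ _ => sq_nonneg _) hk)
  have hx0 : 0 ≤ x := norm_nonneg _
  have hy0 : 0 ≤ y := norm_nonneg _
  have hx0' : 0 ≤ x' := Real.sqrt_nonneg _
  have hy0' : 0 ≤ y' := Real.sqrt_nonneg _
  have sx : ∑ i, ‖p i‖ ^ 2 = x ^ 2 + x' ^ 2 := by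
    rw [hx', Real.sq_sqrt (sum_nonneg fun _ _ => sq_nonneg _), ← add_sum_erase _ _ (mem_univ i₀)]
  have sy : ∑ k, ‖q k‖ ^ 2 = y ^ 2 + y' ^ 2 := by
    rw [hy', Real.sq_sqrt (sum_nonneg fun _ _ => sq_nonneg _), ← add_sum_erase _ _ (mem_univ k₀)]
  rw [sx, sy]
  refine le_trans ?_ (loc_two ha hρ hρ1 hx0 hx0' hy0 hy0')
  have e1 : ∑ i, ∑ k, M i k * p i * q k = M i₀ k₀ * p i₀ * q k₀ +
      ∑ k ∈ univ.erase k₀, M i₀ k * p i₀ * q k + (∑ i ∈ univ.erase i₀, M i k₀ * p i * q k₀ +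
      ∑ i ∈ univ.erase i₀, ∑ k ∈ univ.erase k₀, M i k * p i * q k) := by
    rw [← add_sum_erase _ _ (mem_univ i₀), ← add_sum_erase _ _ (mem_univ k₀),
      ← sum_add_distrib]
    congr 1
    refine sum_congr rfl fun i _ => ?_
    rw [← add_sum_erase _ _ (mem_univ k₀)]
  have t1 : ‖M i₀ k₀ * p i₀ * q k₀‖ ≤ a * x * y := by
    rw [norm_mul, norm_mul]
    gcongr
  have t2 : ‖∑ k ∈ univ.erase k₀, M i₀ k * p i₀ * q k‖ ≤ ρ * x * y' := by
    calc _ ≤ ∑ k ∈ univ.erase k₀, ‖M i₀ k‖ * (x * y') := by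
          refine (norm_sum_le _ _).trans (sum_le_sum fun k hk => ?_)
          rw [norm_mul, norm_mul, mul_assoc]
          exact mul_le_mul_of_nonneg_left (mul_le_mul_of_nonneg_left (by' k hk) hx0)
            (norm_nonneg _)
      _ ≤ ρ * (x * y') := by
          rw [← sum_mul]
          exact mul_le_mul_of_nonneg_right h1 (mul_nonneg hx0 hy0')
      _ = ρ * x * y' := by ring
  have t3 : ‖∑ i ∈ univ.erase i₀, M i k₀ * p i * q k₀‖ ≤ ρ * x' * y := by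
    calc _ ≤ ∑ i ∈ univ.erase i₀, ‖M i k₀‖ * (x' * y) := by
          refine (norm_sum_le _ _).trans (sum_le_sum fun i hi => ?_)
          rw [norm_mul, norm_mul, mul_assoc]
          exact mul_le_mul_of_nonneg_left (mul_le_mul_of_nonneg_right (bx i hi) hy0)
            (norm_nonneg _)
      _ ≤ ρ * (x' * y) := by
          rw [← sum_mul]
          exact mul_le_mul_of_nonneg_right h2 (mul_nonneg hx0' hy0)
      _ = ρ * x' * y := by ring
  have t4 : ‖∑ i ∈ univ.erase i₀, ∑ k ∈ univ.erase k₀, M i k * p i * q k‖ ≤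
      1 / 4 * x' * y' := by
    calc _ ≤ ∑ i ∈ univ.erase i₀, ∑ k ∈ univ.erase k₀, ‖M i k‖ * (x' * y') := by
          refine (norm_sum_le _ _).trans (sum_le_sum fun i hi => ?_)
          refine (norm_sum_le _ _).trans (sum_le_sum fun k hk => ?_)
          rw [norm_mul, norm_mul, mul_assoc]
          exact mul_le_mul_of_nonneg_left (mul_le_mul (bx i hi) (by' k hk) (norm_nonneg _) hx0')
            (norm_nonneg _)
      _ ≤ 1 / 4 * (x' * y') := by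
          simp_rw [← sum_mul]
          exact mul_le_mul_of_nonneg_right h3 (mul_nonneg hx0' hy0')
      _ = 1 / 4 * x' * y' := by ring
  rw [e1]
  calc _ ≤ ‖M i₀ k₀ * p i₀ * q k₀‖ + ‖∑ k ∈ univ.erase k₀, M i₀ k * p i₀ * q k‖ +
        (‖∑ i ∈ univ.erase i₀, M i k₀ * p i * q k₀‖ +
        ‖∑ i ∈ univ.erase i₀, ∑ k ∈ univ.erase k₀, M i k * p i * q k‖) :=
        (norm_add_le _ _).trans (add_le_add (norm_add_le _ _) (norm_add_le _ _))
    _ ≤ _ := by linarith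

/-- Change of basis by Bessel systems. -/
theorem BN.basis {α β I K : Type*} [Fintype α] [Fintype β] [Fintype I] [Fintype K]
    {M : I → K → ℂ} {m : ℝ} (hM : BN M m) (e : I → α → ℂ) (f : K → β → ℂ) {s t : ℝ}
    (hs : 0 ≤ s) (ht : 0 ≤ t)
    (he : ∀ p : α → ℂ, ∑ i, ‖∑ x, e i x * p x‖ ^ 2 ≤ s ^ 2 * ∑ x, ‖p x‖ ^ 2)
    (hf : ∀ q : β → ℂ, ∑ k, ‖∑ y, f k y * q y‖ ^ 2 ≤ t ^ 2 * ∑ y, ‖q y‖ ^ 2) :
    BN (fun x y => ∑ i, ∑ k, M i k * e i x * f k y) (m * (s * t)) := by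
  refine ⟨mul_nonneg hM.1 (mul_nonneg hs ht), fun p q => ?_⟩
  have e1 : ∑ x, ∑ y, (∑ i, ∑ k, M i k * e i x * f k y) * p x * q y =
      ∑ i, ∑ k, M i k * (∑ x, e i x * p x) * (∑ y, f k y * q y) := by
    simp_rw [sum_mul, mul_sum, sum_mul]
    rw [sum_congr rfl fun x _ => sum_comm]
    rw [sum_comm]
    refine sum_congr rfl fun i _ => ?_
    rw [sum_congr rfl fun x _ => sum_comm]
    rw [sum_comm]
    refine sum_congr rfl fun k _ => ?_
    rw [sum_comm]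
    refine sum_congr rfl fun y _ => sum_congr rfl fun x _ => ?_
    ring
  rw [e1]
  refine (hM.2 _ _).trans ?_
  have h1 : Real.sqrt (∑ i, ‖∑ x, e i x * p x‖ ^ 2) ≤ s * Real.sqrt (∑ x, ‖p x‖ ^ 2) := by
    refine (Real.sqrt_le_sqrt (he p)).trans (le_of_eq ?_)
    rw [Real.sqrt_mul (by positivity), Real.sqrt_sq hs]
  have h2 : Real.sqrt (∑ k, ‖∑ y, f k y * q y‖ ^ 2) ≤ t * Real.sqrt (∑ y, ‖q y‖ ^ 2) := by
    refine (Real.sqrt_le_sqrt (hf q)).trans (le_of_eq ?_)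
    rw [Real.sqrt_mul (by positivity), Real.sqrt_sq ht]
  calc _ ≤ m * (s * Real.sqrt (∑ x, ‖p x‖ ^ 2)) * (t * Real.sqrt (∑ y, ‖q y‖ ^ 2)) := by
        have := hM.1
        gcongr
    _ = _ := by ring

theorem loc_sg_add (a b : ZMod 2) : sg (a + b) = sg a * sg b := Lin.lv_sg_add a b

theorem loc_sg_mul_self (a : ZMod 2) : sg a * sg a = 1 := by
  unfold sg
  split_ifs <;> norm_num

theorem loc_sg_abs (a : ZMod 2) : |sg a| = 1 := by
  unfold sg
  split_ifs <;> norm_num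

theorem chb_eq {a b : ZMod 2} : 1 + sg a * sg b = if a = b then 2 else 0 := by
  have h : ∀ a b : ZMod 2, (a = 0 ↔ b = 0) ↔ a = b := by decide
  unfold sg
  by_cases ha : a = 0 <;> by_cases hb : b = 0
  · rw [if_pos ha, if_pos hb, if_pos ((h a b).1 (by simp [ha, hb]))]
    norm_num
  · rw [if_pos ha, if_neg hb, if_neg (fun hh => by have := (h a b).2 hh; simp [ha, hb] at this)]
    norm_num
  · rw [if_neg ha, if_pos hb, if_neg (fun hh => by have := (h a b).2 hh; simp [ha, hb] at this)]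
    norm_num
  · rw [if_neg ha, if_neg hb, if_pos ((h a b).1 (by simp [ha, hb]))]
    norm_num

theorem chp_abs {α : Type*} (P : Finset α) (x : α → ZMod 2) : |chp P x| = 1 := by
  unfold chp
  rw [abs_prod]
  exact prod_eq_one fun v _ => loc_sg_abs _

theorem chp_orth {α : Type*} [Fintype α] [DecidableEq α] (x y : α → ZMod 2) :
    ∑ P : Finset α, chp P x * chp P y = if x = y then 2 ^ Fintype.card α else 0 := by
  have h1 : ∀ P : Finset α, chp P x * chp P y = ∏ v ∈ P, (sg (x v) * sg (y v)) := by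
    intro P
    unfold chp
    rw [prod_mul_distrib]
  have h2 := Finset.prod_one_add (s := (univ : Finset α)) (f := fun v => sg (x v) * sg (y v))
  rw [powerset_univ] at h2
  rw [sum_congr rfl fun P _ => h1 P, ← h2]
  rw [prod_congr rfl fun v _ => chb_eq]
  by_cases h : x = y
  · rw [if_pos h, prod_congr rfl fun v _ => if_pos (congrFun h v), prod_const, card_univ]
  · rw [if_neg h]
    obtain ⟨v, hv⟩ := Function.ne_iff.1 h
    exact prod_eq_zero (mem_univ v) (if_neg hv)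

/-- Parseval's identity. -/
theorem chp_parseval {α : Type*} [Fintype α] [DecidableEq α] (p : (α → ZMod 2) → ℂ) :
    ∑ P : Finset α, ‖∑ x, (chp P x : ℂ) * p x‖ ^ 2 = 2 ^ Fintype.card α * ∑ x, ‖p x‖ ^ 2 := by
  have key : ((∑ P : Finset α, ‖∑ x, (chp P x : ℂ) * p x‖ ^ 2 : ℝ) : ℂ) =
      ((2 ^ Fintype.card α * ∑ x, ‖p x‖ ^ 2 : ℝ) : ℂ) := by
    push_cast
    have h1 : ∀ P : Finset α, ((‖∑ x, (chp P x : ℂ) * p x‖ : ℝ) : ℂ) ^ 2 =
        ∑ x, ∑ y, ((chp P x * chp P y : ℝ) : ℂ) * (p x * (starRingEnd ℂ) (p y)) := by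
      intro P
      rw [← Complex.mul_conj', map_sum, sum_mul_sum]
      refine sum_congr rfl fun x _ => sum_congr rfl fun y _ => ?_
      rw [map_mul, Complex.conj_ofReal]
      push_cast
      ring
    rw [sum_congr rfl fun P _ => h1 P, sum_comm, mul_sum]
    refine sum_congr rfl fun x _ => ?_
    rw [sum_comm]
    have h2 : ∀ y, ∑ P : Finset α, ((chp P x * chp P y : ℝ) : ℂ) * (p x * (starRingEnd ℂ) (p y)) =
        (if x = y then 2 ^ Fintype.card α else 0) * (p x * (starRingEnd ℂ) (p y)) := by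
      intro y
      rw [← sum_mul, ← Complex.ofReal_sum, chp_orth]
      split_ifs <;> simp
    rw [sum_congr rfl fun y _ => h2 y]
    simp only [ite_mul, zero_mul]
    rw [sum_ite_eq, if_pos (mem_univ x), Complex.mul_conj']
  exact_mod_cast key

/-- The trace of a set of vertices on `A`. -/
def trc (A P : Finset ι) : Finset {v // v ∈ A} := univ.filter fun v => (v : ι) ∈ P

theorem chp_gl {A B : Finset ι} (hAB : Disjoint A B) (P : Finset ι) (x₀ : ι → ZMod 2)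
    (a : {v // v ∈ A} → ZMod 2) (b : {v // v ∈ B} → ZMod 2) :
    chp P (gl A B x₀ a b) = chp (P \ (A ∪ B)) x₀ * chp (trc A P) a * chp (trc B P) b := by
  unfold chp
  have h1 : ∏ v ∈ trc A P, sg (a v) = ∏ v ∈ P ∩ A, sg (gl A B x₀ a b v) := by
    rw [← prod_coe_sort (P ∩ A)]
    refine prod_bij' (fun v hv => ⟨(v : ι), ?_⟩) (fun v _ => ⟨(v : ι), ?_⟩) ?_ ?_ ?_ ?_ ?_
    · exact mem_inter.2 ⟨(mem_filter.1 hv).2, v.2⟩
    · exact (mem_inter.1 v.2).2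
    · intro v _
      exact mem_univ _
    · intro v _
      unfold trc
      exact mem_filter.2 ⟨mem_univ _, (mem_inter.1 v.2).1⟩
    · intro v _
      rfl
    · intro v _
      rfl
    · intro v _
      simp only [gl, v.2, dif_pos]
  have h2 : ∏ v ∈ trc B P, sg (b v) = ∏ v ∈ P ∩ B, sg (gl A B x₀ a b v) := by
    rw [← prod_coe_sort (P ∩ B)]
    refine prod_bij' (fun v hv => ⟨(v : ι), ?_⟩) (fun v _ => ⟨(v : ι), ?_⟩) ?_ ?_ ?_ ?_ ?_
    · exact mem_inter.2 ⟨(mem_filter.1 hv).2, v.2⟩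
    · exact (mem_inter.1 v.2).2
    · intro v _
      exact mem_univ _
    · intro v _
      unfold trc
      exact mem_filter.2 ⟨mem_univ _, (mem_inter.1 v.2).1⟩
    · intro v _
      rfl
    · intro v _
      rfl
    · intro v _
      have : (v : ι) ∉ A := fun h => disjoint_left.1 hAB h v.2
      simp only [gl, this, v.2, dif_pos, dif_neg, not_false_eq_true]
  have h3 : ∏ v ∈ P \ (A ∪ B), sg (x₀ v) = ∏ v ∈ P \ (A ∪ B), sg (gl A B x₀ a b v) := by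
    refine prod_congr rfl fun v hv => ?_
    have hv' := (mem_sdiff.1 hv).2
    rw [mem_union, not_or] at hv'
    simp only [gl, hv'.1, hv'.2, dif_neg, not_false_eq_true]
  rw [h1, h2, h3, ← prod_union, ← prod_union]
  · refine prod_congr ?_ fun _ _ => rfl
    ext v
    simp only [mem_union, mem_sdiff, mem_inter]
    tauto
  · rw [disjoint_left]
    intro v hv hv'
    simp only [mem_union, mem_sdiff, mem_inter] at hv hv'
    rcases hv with h | h
    · exact h.2 (Or.inr hv'.2)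
    · exact disjoint_left.1 hAB h.2 hv'.2
  · rw [disjoint_left]
    intro v hv hv'
    simp only [mem_union, mem_sdiff, mem_inter] at hv hv'
    exact hv.2 (Or.inl hv'.2)

theorem trc_eq_empty {A P : Finset ι} : trc A P = ∅ ↔ P ∩ A = ∅ := by
  unfold trc
  rw [filter_eq_empty_iff, ← disjoint_iff_inter_eq_empty, disjoint_left]
  constructor
  · intro h v hv hvA
    exact h (mem_univ (⟨v, hvA⟩ : {v // v ∈ A})) hv
  · intro h v _ hv
    exact h hv v.2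

/-- The matrix of the local kernel. -/
noncomputable def locM {T : Type*} [Fintype T] (A B : Finset ι) (par : T → Finset ι)
    (y : ι → ZMod 2) (s : T → ℂ) (P : Finset {v // v ∈ A}) (Q : Finset {v // v ∈ B}) : ℂ :=
  ∑ F ∈ univ.filter (fun F => trc A (par F) = P ∧ trc B (par F) = Q),
    s F * ((chp (par F \ (A ∪ B)) y : ℝ) : ℂ)

theorem locM_sum {T : Type*} [Fintype T] {A B : Finset ι} (hAB : Disjoint A B)
    (par : T → Finset ι) (y : ι → ZMod 2) (s : T → ℂ) (a : {v // v ∈ A} → ZMod 2)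
    (b : {v // v ∈ B} → ZMod 2) :
    ∑ F, s F * ((chp (par F) (gl A B y a b) : ℝ) : ℂ) =
      ∑ P, ∑ Q, locM A B par y s P Q * ((chp P a : ℝ) : ℂ) * ((chp Q b : ℝ) : ℂ) := by
  have h1 : ∀ P : Finset {v // v ∈ A}, ∀ Q : Finset {v // v ∈ B},
      locM A B par y s P Q * ((chp P a : ℝ) : ℂ) * ((chp Q b : ℝ) : ℂ) =
      ∑ F ∈ univ.filter (fun F => trc A (par F) = P ∧ trc B (par F) = Q),
        s F * ((chp (par F) (gl A B y a b) : ℝ) : ℂ) := by
    intro P Q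
    unfold locM
    rw [sum_mul, sum_mul]
    refine sum_congr rfl fun F hF => ?_
    have h := (mem_filter.1 hF).2
    rw [chp_gl hAB, h.1, h.2]
    push_cast
    ring
  rw [sum_congr rfl fun P _ => sum_congr rfl fun Q _ => h1 P Q]
  rw [← sum_fiberwise_of_maps_to (s := (univ : Finset T))
    (t := (univ : Finset (Finset {v // v ∈ A}))) (g := fun F => trc A (par F))
    (fun _ _ => mem_univ _)]
  refine sum_congr rfl fun P _ => ?_
  rw [← sum_fiberwise_of_maps_to (s := univ.filter fun F => trc A (par F) = P)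
    (t := (univ : Finset (Finset {v // v ∈ B}))) (g := fun F => trc B (par F))
    (fun _ _ => mem_univ _)]
  refine sum_congr rfl fun Q _ => ?_
  rw [filter_filter]

theorem locM_norm_le {T : Type*} [Fintype T] {A B : Finset ι}
    (par : T → Finset ι) (y : ι → ZMod 2) (s : T → ℂ) (P : Finset {v // v ∈ A})
    (Q : Finset {v // v ∈ B}) :
    ‖locM A B par y s P Q‖ ≤
      ∑ F ∈ univ.filter (fun F => trc A (par F) = P ∧ trc B (par F) = Q), ‖s F‖ := by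
  unfold locM
  refine (norm_sum_le _ _).trans (sum_le_sum fun F _ => ?_)
  rw [norm_mul, Complex.norm_real, Real.norm_eq_abs, chp_abs, mul_one]

/-- Sums of entries of the local matrix. -/
theorem locM_sum_le {T : Type*} [Fintype T] [DecidableEq T] {A B : Finset ι}
    (par : T → Finset ι) (y : ι → ZMod 2) (s : T → ℂ) (SP : Finset (Finset {v // v ∈ A}))
    (SQ : Finset (Finset {v // v ∈ B})) {c : ℝ} (hc : 0 ≤ c)
    (h : ∀ F, trc A (par F) ∈ SP → trc B (par F) ∈ SQ → ‖s F‖ ≤ c) :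
    ∑ P ∈ SP, ∑ Q ∈ SQ, ‖locM A B par y s P Q‖ ≤ (Fintype.card T : ℝ) * c := by
  have h1 : ∑ P ∈ SP, ∑ Q ∈ SQ, ‖locM A B par y s P Q‖ ≤
      ∑ P ∈ SP, ∑ Q ∈ SQ, ∑ F ∈ univ.filter (fun F => trc A (par F) = P ∧ trc B (par F) = Q),
        ‖s F‖ :=
    sum_le_sum fun P _ => sum_le_sum fun Q _ => locM_norm_le par y s P Q
  refine h1.trans ?_
  have h2 : ∑ P ∈ SP, ∑ Q ∈ SQ, ∑ F ∈ univ.filter (fun F => trc A (par F) = P ∧
      trc B (par F) = Q), ‖s F‖ =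
      ∑ F ∈ univ.filter (fun F => trc A (par F) ∈ SP ∧ trc B (par F) ∈ SQ), ‖s F‖ := by
    rw [← sum_fiberwise_of_maps_to (s := univ.filter (fun F => trc A (par F) ∈ SP ∧
        trc B (par F) ∈ SQ)) (t := SP) (g := fun F => trc A (par F))
      (fun F hF => ((mem_filter.1 hF).2).1)]
    refine sum_congr rfl fun P hP => ?_
    rw [← sum_fiberwise_of_maps_to (s := (univ.filter (fun F => trc A (par F) ∈ SP ∧
        trc B (par F) ∈ SQ)).filter fun F => trc A (par F) = P) (t := SQ)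
      (g := fun F => trc B (par F))
      (fun F hF => ((mem_filter.1 (mem_filter.1 hF).1).2).2)]
    refine sum_congr rfl fun Q hQ => ?_
    refine sum_congr ?_ fun _ _ => rfl
    ext F
    simp only [mem_filter, mem_univ, true_and]
    constructor
    · rintro ⟨h1, h2⟩
      exact ⟨⟨⟨by rw [h1]; exact hP, by rw [h2]; exact hQ⟩, h1⟩, h2⟩
    · rintro ⟨⟨_, h1⟩, h2⟩
      exact ⟨h1, h2⟩
  rw [h2]
  calc _ ≤ ∑ F ∈ univ.filter (fun F => trc A (par F) ∈ SP ∧ trc B (par F) ∈ SQ), c :=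
        sum_le_sum fun F hF => h F ((mem_filter.1 hF).2).1 ((mem_filter.1 hF).2).2
    _ ≤ ∑ F : T, c := sum_le_sum_of_subset_of_nonneg (filter_subset _ _) fun _ _ _ => hc
    _ = _ := by rw [sum_const, nsmul_eq_mul, card_univ]

/-- The local kernel. -/
theorem local_core {T : Type*} [Fintype T] [DecidableEq T] {A B : Finset ι} (hAB : Disjoint A B)
    (par : T → Finset ι) (t₀ : T) (h0 : par t₀ = ∅) (y : ι → ZMod 2) (s : T → ℂ) {ε r : ℝ}
    (hε : 0 ≤ ε) (hε1 : ε ≤ 1) (hr0 : 0 ≤ r) (hr : (Fintype.card T : ℝ) * r ≤ 1 / 4)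
    (hs0 : ‖s t₀‖ = 1) (hs1 : ∀ F ≠ t₀, ‖s F‖ ≤ r)
    (hs2 : ∀ F ≠ t₀, par F ∩ A = ∅ ∨ par F ∩ B = ∅ → ‖s F‖ ≤ r * ε) :
    BN (fun (a : {v // v ∈ A} → ZMod 2) (b : {v // v ∈ B} → ZMod 2) =>
        ∑ F, s F * ((chp (par F) (gl A B y a b) : ℝ) : ℂ))
      ((‖s t₀ + ∑ F ∈ univ.filter (fun F => F ≠ t₀ ∧ par F ∩ A = ∅ ∧ par F ∩ B = ∅),
            s F * ((chp (par F) y : ℝ) : ℂ)‖ + 2 * (ε / 4) ^ 2) *
        (Real.sqrt (2 ^ A.card) * Real.sqrt (2 ^ B.card))) := by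
  have hcard : (0 : ℝ) ≤ Fintype.card T := Nat.cast_nonneg _
  set p : ℂ := ∑ F ∈ univ.filter (fun F => F ≠ t₀ ∧ par F ∩ A = ∅ ∧ par F ∩ B = ∅),
    s F * ((chp (par F) y : ℝ) : ℂ) with hp
  -- the entry `(∅, ∅)`
  have hM00 : locM A B par y s ∅ ∅ = s t₀ + p := by
    unfold locM
    have e1 : (univ.filter fun F => trc A (par F) = ∅ ∧ trc B (par F) = ∅) =
        insert t₀ (univ.filter fun F => F ≠ t₀ ∧ par F ∩ A = ∅ ∧ par F ∩ B = ∅) := by
      ext F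
      simp only [mem_filter, mem_univ, true_and, mem_insert, trc_eq_empty]
      constructor
      · intro h
        by_cases hF : F = t₀
        · exact Or.inl hF
        · exact Or.inr ⟨hF, h⟩
      · rintro (h | h)
        · rw [h, h0]
          simp
        · exact h.2
    rw [e1, sum_insert (by simp), h0, hp]
    congr 1
    · unfold chp
      simp
    · refine sum_congr rfl fun F hF => ?_
      obtain ⟨_, h1, h2⟩ := (mem_filter.1 hF).2
      congr 3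
      rw [Finset.sdiff_eq_self_iff_disjoint, disjoint_iff_inter_eq_empty,
        inter_union_distrib_left, h1, h2, empty_union]
  have hpn : ‖p‖ ≤ ε / 4 := by
    calc ‖p‖ ≤ ∑ F ∈ univ.filter (fun F => F ≠ t₀ ∧ par F ∩ A = ∅ ∧ par F ∩ B = ∅), r * ε := by
          refine (norm_sum_le _ _).trans (sum_le_sum fun F hF => ?_)
          rw [norm_mul, Complex.norm_real, Real.norm_eq_abs, chp_abs, mul_one]
          obtain ⟨h1, h2, _⟩ := (mem_filter.1 hF).2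
          exact hs2 F h1 (Or.inl h2)
      _ ≤ ∑ F : T, r * ε := sum_le_sum_of_subset_of_nonneg (filter_subset _ _) fun _ _ _ =>
          mul_nonneg hr0 hε
      _ = (Fintype.card T : ℝ) * r * ε := by
          rw [sum_const, nsmul_eq_mul, card_univ]
          ring
      _ ≤ 1 / 4 * ε := mul_le_mul_of_nonneg_right hr hε
      _ = ε / 4 := by ring
  have hlow : 3 / 4 ≤ ‖locM A B par y s ∅ ∅‖ := by
    rw [hM00]
    have h1 : ‖s t₀‖ ≤ ‖s t₀ + p‖ + ‖p‖ := by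
      have := norm_sub_le (s t₀ + p) p
      rwa [add_sub_cancel_right] at this
    rw [hs0] at h1
    linarith
  have hcr : (Fintype.card T : ℝ) * (r * ε) ≤ ε / 4 := by
    calc (Fintype.card T : ℝ) * (r * ε) = (Fintype.card T : ℝ) * r * ε := by ring
      _ ≤ 1 / 4 * ε := mul_le_mul_of_nonneg_right hr hε
      _ = ε / 4 := by ring
  have hrow : ∑ k ∈ univ.erase ∅, ‖locM A B par y s ∅ k‖ ≤ ε / 4 := by
    have h := locM_sum_le (A := A) (B := B) par y s {∅} (univ.erase ∅) (c := r * ε)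
      (mul_nonneg hr0 hε) ?_
    · rw [sum_singleton] at h
      exact h.trans hcr
    · intro F h1 h2
      rw [mem_singleton, trc_eq_empty] at h1
      refine hs2 F ?_ (Or.inl h1)
      rintro rfl
      rw [h0] at h2
      exact (mem_erase.1 h2).1 (trc_eq_empty.2 (by simp))
  have hcol : ∑ i ∈ univ.erase ∅, ‖locM A B par y s i ∅‖ ≤ ε / 4 := by
    have h := locM_sum_le (A := A) (B := B) par y s (univ.erase ∅) {∅} (c := r * ε)
      (mul_nonneg hr0 hε) ?_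
    · simp only [sum_singleton] at h
      exact h.trans hcr
    · intro F h1 h2
      rw [mem_singleton, trc_eq_empty] at h2
      refine hs2 F ?_ (Or.inr h2)
      rintro rfl
      rw [h0] at h1
      exact (mem_erase.1 h1).1 (trc_eq_empty.2 (by simp))
  have hrest : ∑ i ∈ univ.erase ∅, ∑ k ∈ univ.erase ∅, ‖locM A B par y s i k‖ ≤ 1 / 4 := by
    refine (locM_sum_le (A := A) (B := B) par y s (univ.erase ∅) (univ.erase ∅) (c := r) hr0
      ?_).trans hr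
    intro F h1 _
    refine hs1 F ?_
    rintro rfl
    rw [h0] at h1
    exact (mem_erase.1 h1).1 (trc_eq_empty.2 (by simp))
  have hcore := BN.core (M := locM A B par y s) ∅ ∅ (ρ := ε / 4) hlow (by positivity)
    (by linarith) le_rfl hrow hcol hrest
  have hb := hcore.basis (fun (P : Finset {v // v ∈ A}) (a : {v // v ∈ A} → ZMod 2) =>
      ((chp P a : ℝ) : ℂ)) (fun (Q : Finset {v // v ∈ B}) (b : {v // v ∈ B} → ZMod 2) =>
      ((chp Q b : ℝ) : ℂ)) (s := Real.sqrt (2 ^ A.card)) (t := Real.sqrt (2 ^ B.card))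
    (Real.sqrt_nonneg _) (Real.sqrt_nonneg _)
    (fun q => by
      rw [chp_parseval, Real.sq_sqrt (by positivity), Fintype.card_coe])
    (fun q => by
      rw [chp_parseval, Real.sq_sqrt (by positivity), Fintype.card_coe])
  have e1 : (fun (a : {v // v ∈ A} → ZMod 2) (b : {v // v ∈ B} → ZMod 2) =>
      ∑ F, s F * ((chp (par F) (gl A B y a b) : ℝ) : ℂ)) = fun a b =>
      ∑ P, ∑ Q, locM A B par y s P Q * ((chp P a : ℝ) : ℂ) * ((chp Q b : ℝ) : ℂ) := by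
    funext a b
    exact locM_sum hAB par y s a b
  rw [e1]
  rw [hM00] at hb
  exact hb

theorem loc_vl_left {A B : Finset ι} {F : Finset (Sym2 ι)} (h : par F ∩ A = ∅ ∨ par F ∩ B = ∅) :
    1 ≤ vl A B F := by
  unfold vl
  split_ifs with h1 h2 h3 h4 <;> first | omega | (rcases h with h | h <;> simp_all)

theorem pow_vl_le {A B : Finset ι} {F : Finset (Sym2 ι)} {ε : ℝ} (hε : 0 ≤ ε) (hε1 : ε ≤ 1)
    (h : par F ∩ A = ∅ ∨ par F ∩ B = ∅) : ε ^ vl A B F ≤ ε := by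
  have h1 := pow_le_pow_of_le_one hε hε1 (loc_vl_left h)
  rwa [pow_one] at h1

theorem loc_par_empty : par (∅ : Finset (Sym2 ι)) = ∅ := by
  unfold par vs
  rw [biUnion_empty, filter_empty]

theorem loc_norm {A B : Finset ι} (hAB : Disjoint A B) {g : Finset (Sym2 ι)}
    {s : Finset (Sym2 ι) → ℂ} (h0 : s ∅ = 1) {ε : ℝ} (hε : 0 ≤ ε) (hε1 : ε ≤ 1)
    (hs : ∀ F ⊆ g, F.Nonempty → ‖s F‖ ≤ (1 / 2) ^ (g.card + 2) * ε ^ vl A B F)
    (ξ : ι → ZMod 2) :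
    Bl (fun (a : {v // v ∈ A} → ZMod 2) (b : {v // v ∈ B} → ZMod 2) =>
      ∑ F ∈ g.powerset, s F * (chp (par F) (gl A B ξ a b) : ℂ))
      ((‖1 + Pl A B g s ξ‖ + ε ^ 2) * Real.sqrt 2 ^ (A.card + B.card)) := by
  classical
  set r : ℝ := (1 / 2) ^ (g.card + 2) with hr
  have hr0 : 0 ≤ r := by positivity
  have hc : ((Fintype.card {F // F ∈ g.powerset} : ℕ) : ℝ) * r ≤ 1 / 4 := by
    rw [Fintype.card_coe, card_powerset, hr, pow_add]
    push_cast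
    rw [← mul_assoc, ← mul_pow]
    norm_num
  have h1 := local_core (T := {F // F ∈ g.powerset}) hAB (fun F => par F.1)
    ⟨∅, mem_powerset.2 (empty_subset _)⟩ loc_par_empty ξ (fun F => s F.1) hε hε1 hr0 hc
    (by simp only [h0, norm_one])
    (fun F hF => by
      have h2 : F.1.Nonempty := by
        rw [nonempty_iff_ne_empty]
        intro h
        exact hF (Subtype.ext h)
      exact (hs F.1 (mem_powerset.1 F.2) h2).trans
        ((mul_le_mul_of_nonneg_left (pow_le_one₀ hε hε1) hr0).trans (le_of_eq (mul_one _))))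
    (fun F hF h3 => by
      have h2 : F.1.Nonempty := by
        rw [nonempty_iff_ne_empty]
        intro h
        exact hF (Subtype.ext h)
      exact (hs F.1 (mem_powerset.1 F.2) h2).trans
        (mul_le_mul_of_nonneg_left (pow_vl_le hε hε1 h3) hr0))
  have e1 : (fun (a : {v // v ∈ A} → ZMod 2) (b : {v // v ∈ B} → ZMod 2) =>
      ∑ F ∈ g.powerset, s F * (chp (par F) (gl A B ξ a b) : ℂ)) = fun a b =>
      ∑ F : {F // F ∈ g.powerset}, s F.1 * ((chp (par F.1) (gl A B ξ a b) : ℝ) : ℂ) := by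
    funext a b
    exact (sum_coe_sort g.powerset (fun F => s F * ((chp (par F) (gl A B ξ a b) : ℝ) : ℂ))).symm
  rw [e1]
  have e2 : s ∅ + ∑ F ∈ (univ : Finset {F // F ∈ g.powerset}).filter
      (fun F => F ≠ ⟨∅, mem_powerset.2 (empty_subset _)⟩ ∧ par F.1 ∩ A = ∅ ∧ par F.1 ∩ B = ∅),
      s F.1 * ((chp (par F.1) ξ : ℝ) : ℂ) = 1 + Pl A B g s ξ := by
    rw [h0]
    congr 1
    unfold Pl
    refine sum_bij (fun F _ => F.1) ?_ ?_ ?_ ?_
    · intro F hF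
      obtain ⟨h2, h3, h4⟩ := (mem_filter.1 hF).2
      refine mem_filter.2 ⟨F.2, ?_, h3, h4⟩
      rw [nonempty_iff_ne_empty]
      intro h
      exact h2 (Subtype.ext h)
    · intro F _ F' _ h
      exact Subtype.ext h
    · intro F hF
      obtain ⟨h2, h3, h4, h5⟩ := mem_filter.1 hF
      refine ⟨⟨F, h2⟩, mem_filter.2 ⟨mem_univ _, ?_, h4, h5⟩, rfl⟩
      intro h
      exact h3.ne_empty (congrArg Subtype.val h)
    · intro F _
      rfl
  rw [e2] at h1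
  have e3 : Real.sqrt (2 ^ A.card) * Real.sqrt (2 ^ B.card) =
      Real.sqrt 2 ^ (A.card + B.card) := by
    rw [pow_add, Real.sqrt_eq_rpow, Real.sqrt_eq_rpow, Real.sqrt_eq_rpow, ← Real.rpow_natCast,
      ← Real.rpow_natCast, ← Real.rpow_natCast, ← Real.rpow_natCast, ← Real.rpow_mul (by norm_num),
      ← Real.rpow_mul (by norm_num), ← Real.rpow_mul (by norm_num),
      ← Real.rpow_mul (by norm_num), mul_comm (A.card : ℝ), mul_comm (B.card : ℝ)]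
  rw [e3] at h1
  refine (h1.mono ?_).bl
  refine mul_le_mul_of_nonneg_right ?_ (by positivity)
  nlinarith [sq_nonneg ε]

end Pool.Agent.Lib.MP_0430e4_lc.L3
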