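import Pool.Agent.Lib.MP_0430e4_lc.L3.TYP
import Pool.Agent.Lib.MP_0430e4_lc.L3.COLK

/-!
# NRA: the coefficients of a labelled sum

PROOF. `exists_perm`: the fibres of `C` and `C'` over every `F` have the same number of elements (for `F = ∅`: complement), so there is a bijection between the fibres. `oc_eq`: definition of `oc`.
`oc_comp`: `card_bij`. `chp_par`: `xe z s(u,v) i = z u i + z v i`, `sg (a + b) = sg a * sg b` (`Lin.lv_sg_add`); induction on `F` or: the product over `e ∈ F` and the two ends of `e` of `sg (z v i)` is the product over `v` of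
`sg (z v i) ^ (dl F v).card`, and `sg a ^ 2 = 1`.
`coef_bound`: write `τ F = cn C F`. `oc C {e} = ∑ F ∋ e, τ F`, `|f e (oc C {e})| ≤ (D ε) ^ (oc C {e})`, `∑ e ∈ g, oc C {e} = ∑ F, |F| τ F ≤ m K` since `oc C {e} < K` (if the product of the `f` is not 0),
`∑ (F ≠ ∅) τ F ≤ ∑ F, |F| τ F`, `2 ^ (g.card + 2) ≤ 2 ^ (m + 2)`, and `∏ F, ε ^ (|F| τ F) / ε ^ (vl F τ F) = ε ^ cost` as integer power, `(ε ^ cost) ^ 2 ≤ ε ^ θ` for `θ ≤ 2 cost`, `ε ≤ 1`.
-/

set_option autoImplicit false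

namespace Pool.Agent.Lib.MP_0430e4_lc.L3

open Finset
open Lin (W wt sg)

theorem nra_cn_sum {κ : Type*} [DecidableEq κ] {n : ℕ} (G : Finset κ) {C : Fin n → κ}
    (hC : ∀ i, C i ∈ G) : ∑ F ∈ G, cn C F = n := by
  have h := Finset.card_eq_sum_card_fiberwise (s := (univ : Finset (Fin n))) (t := G) (f := C)
    (fun i _ => hC i)
  rw [card_univ, Fintype.card_fin] at h
  exact h.symm

theorem nra_cn_eq {κ : Type*} [DecidableEq κ] {n : ℕ} (G : Finset κ) (o : κ) {C C' : Fin n → κ}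
    (hC : ∀ i, C i ∈ G) (hC' : ∀ i, C' i ∈ G) (h : ∀ F ∈ G.erase o, cn C F = cn C' F) (F : κ) :
    cn C F = cn C' F := by
  by_cases hF : F ∈ G
  · by_cases ho : F = o
    · subst ho
      have h1 := nra_cn_sum G hC
      have h2 := nra_cn_sum G hC'
      rw [← Finset.add_sum_erase G _ hF] at h1 h2
      have h3 : ∑ x ∈ G.erase F, cn C x = ∑ x ∈ G.erase F, cn C' x := Finset.sum_congr rfl h
      omega
    · exact h F (mem_erase.2 ⟨ho, hF⟩)
  · unfold cn
    have e1 : (univ.filter fun i => C i = F) = ∅ := by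
      refine filter_eq_empty_iff.2 (fun i _ hi => hF ?_)
      rw [← hi]
      exact hC i
    have e2 : (univ.filter fun i => C' i = F) = ∅ := by
      refine filter_eq_empty_iff.2 (fun i _ hi => hF ?_)
      rw [← hi]
      exact hC' i
    rw [e1, e2]

theorem exists_perm {κ : Type*} [DecidableEq κ] {n : ℕ} (G : Finset κ) (o : κ) {C C' : Fin n → κ}
    (hC : ∀ i, C i ∈ G) (hC' : ∀ i, C' i ∈ G) (h : ∀ F ∈ G.erase o, cn C F = cn C' F) :
    ∃ σ : Equiv.Perm (Fin n), C' = C ∘ σ := by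
  have h1 : ∀ F, Nonempty ({i // C' i = F} ≃ {i // C i = F}) := by
    intro F
    refine Fintype.card_eq.1 ?_
    rw [Fintype.card_subtype, Fintype.card_subtype]
    exact (nra_cn_eq G o hC hC' h F).symm
  let e : ∀ F, {i // C' i = F} ≃ {i // C i = F} := fun F => (h1 F).some
  let σ : Fin n ≃ Fin n := (Equiv.sigmaFiberEquiv C').symm.trans
    ((Equiv.sigmaCongrRight e).trans (Equiv.sigmaFiberEquiv C))
  refine ⟨σ, funext fun i => ?_⟩
  have : C (σ i) = C' i := (e (C' i) ⟨i, rfl⟩).2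
  exact this.symm

theorem oc_eq {κ : Type*} [DecidableEq κ] {n : ℕ} (C : Fin n → Finset κ) (e : κ) :
    oc C {e} = (univ.filter fun i => e ∈ C i).card := by
  unfold oc
  congr 1
  refine filter_congr (fun i _ => ?_)
  by_cases h : e ∈ C i
  · rw [inter_singleton_of_mem h, card_singleton]
    simp [h]
  · rw [inter_singleton_of_notMem h, card_empty]
    simp [h]

theorem oc_comp {κ : Type*} [DecidableEq κ] {n : ℕ} (C : Fin n → Finset κ) (J : Finset κ)
    (σ : Equiv.Perm (Fin n)) : oc (C ∘ σ) J = oc C J := by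
  unfold oc
  rw [card_filter, card_filter]
  exact Equiv.sum_comp σ (fun i => if Odd (C i ∩ J).card then 1 else 0)

theorem nra_sg_add (a b : ZMod 2) : sg (a + b) = sg a * sg b := by
  have h : ∀ a : ZMod 2, a = 0 ∨ a = 1 := by decide
  rcases h a with rfl | rfl <;> rcases h b with rfl | rfl
  · simp [sg]
  · simp [sg]
  · simp [sg]
  · have h2 : (1 : ZMod 2) + 1 = 0 := by decide
    rw [h2]
    simp [sg]

theorem nra_sg_sq (a : ZMod 2) : sg a * sg a = 1 := by
  unfold sg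
  split_ifs <;> norm_num

theorem nra_pow (a : ZMod 2) (k : ℕ) : sg a ^ k = if Odd k then sg a else 1 := by
  have h2 : sg a ^ 2 = 1 := by rw [sq]; exact nra_sg_sq a
  by_cases h : Odd k
  · rw [if_pos h]
    obtain ⟨l, rfl⟩ := h
    rw [pow_succ, pow_mul, h2, one_pow, one_mul]
  · rw [if_neg h]
    obtain ⟨l, hl⟩ := Nat.not_odd_iff_even.1 h
    rw [hl, ← two_mul, pow_mul, h2, one_pow]

theorem nra_xe {ι : Type*} [DecidableEq ι] {n : ℕ} (z : ι → W n) {e : Sym2 ι}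
    (he : ¬ e.IsDiag) (i : Fin n) : sg (xe z e i) = ∏ v ∈ e.toFinset, sg (z v i) := by
  induction e using Sym2.ind with
  | _ a b =>
    have hab : a ≠ b := fun h => he (Sym2.mk_isDiag_iff.2 h)
    have e1 : s(a, b).toFinset = {a, b} := by
      ext v
      simp
    rw [e1, prod_pair hab]
    change sg ((z a + z b) i) = _
    rw [Pi.add_apply, nra_sg_add]

theorem chp_par {ι : Type*} [Fintype ι] [DecidableEq ι] {n : ℕ} (z : ι → W n)
    {F : Finset (Sym2 ι)} (hF : ∀ e ∈ F, ¬ e.IsDiag) (i : Fin n) :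
    ∏ e ∈ F, sg (xe z e i) = chp (par F) (fun v => z v i) := by
  have h1 : ∏ e ∈ F, sg (xe z e i) = ∏ e ∈ F, ∏ v ∈ e.toFinset, sg (z v i) :=
    prod_congr rfl (fun e he => nra_xe z (hF e he) i)
  have h2 : ∏ e ∈ F, ∏ v ∈ e.toFinset, sg (z v i) =
      ∏ v ∈ vs F, ∏ _e ∈ dl F v, sg (z v i) := by
    refine Finset.prod_comm' (fun e v => ?_)
    unfold vs dl
    rw [mem_filter, mem_biUnion, Sym2.mem_toFinset]
    constructor
    · rintro ⟨a, b⟩
      exact ⟨⟨a, b⟩, e, a, Sym2.mem_toFinset.2 b⟩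
    · rintro ⟨⟨a, b⟩, _⟩
      exact ⟨a, b⟩
  rw [h1, h2]
  unfold chp par
  rw [prod_filter]
  refine prod_congr rfl (fun v _ => ?_)
  rw [prod_const, nra_pow]

theorem nra_zpow {κ : Type*} [DecidableEq κ] (s : Finset κ) {ε : ℝ} (hε : ε ≠ 0) (k : κ → ℤ) :
    ∏ i ∈ s, ε ^ k i = ε ^ ∑ i ∈ s, k i := by
  induction s using Finset.induction_on with
  | empty => simp
  | insert a s ha ih => rw [prod_insert ha, sum_insert ha, ih, zpow_add₀ hε]

theorem coef_bound {ι : Type*} [Fintype ι] [DecidableEq ι] {n : ℕ} {A B : Finset ι}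
    {g : Finset (Sym2 ι)} {m : ℕ} (hm : g.card ≤ m)
    {ε D c₀ : ℝ} (hε : 0 < ε) (hε1 : ε ≤ 1) (hD : 1 ≤ D) (hc₀ : 0 ≤ c₀) {K : ℕ}
    {f : Sym2 ι → ℕ → ℝ} {c : (Fin n → Finset (Sym2 ι)) → ℝ}
    (hf : ∀ e ∈ g, ∀ j, |f e j| ≤ (D * ε) ^ j) (hf0 : ∀ e ∈ g, ∀ j, K ≤ j → f e j = 0)
    (hc : ∀ C, |c C| ≤ c₀) {θ : ℕ}
    (hθ : ∀ C : Fin n → Finset (Sym2 ι), (∀ i, C i ⊆ g) → c C ≠ 0 →
      (∀ e ∈ g, f e (oc C {e}) ≠ 0) → (θ : ℤ) ≤ 2 * cost A B C)
    {C : Fin n → Finset (Sym2 ι)} (hC : ∀ i, C i ⊆ g) :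
    (|c C * ∏ e ∈ g, f e (oc C {e})| *
      ∏ F ∈ g.powerset.erase ∅, (2 ^ (g.card + 2) / ε ^ vl A B F) ^ cn C F) ^ 2 ≤
    (c₀ * (D * 2 ^ (m + 2)) ^ (m * K)) ^ 2 * ε ^ θ := by
  have hD0 : 0 < D := by linarith
  have hR : 0 ≤ (c₀ * (D * 2 ^ (m + 2)) ^ (m * K)) ^ 2 * ε ^ θ := by positivity
  by_cases hcz : c C = 0
  · rw [hcz, zero_mul, abs_zero, zero_mul, zero_pow two_ne_zero]
    exact hR
  by_cases hfz : ∀ e ∈ g, f e (oc C {e}) ≠ 0
  swap
  · push Not at hfz
    obtain ⟨e, he, h0⟩ := hfz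
    rw [prod_eq_zero he h0, mul_zero, abs_zero, zero_mul, zero_pow two_ne_zero]
    exact hR
  have hcost := hθ C hC hcz hfz
  have hoc : ∀ e ∈ g, oc C {e} ≤ K := by
    intro e he
    by_contra hlt
    exact hfz e he (hf0 e he _ (by omega))
  set s : ℕ := ∑ e ∈ g, oc C {e} with hs
  have hsK : s ≤ m * K := by
    rw [hs]
    refine (Finset.sum_le_card_nsmul _ _ _ hoc).trans ?_
    rw [smul_eq_mul]
    exact Nat.mul_le_mul_right _ hm
  have hs2 : s = ∑ i, (C i).card := by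
    rw [hs]
    have h1 : ∀ e ∈ g, oc C {e} = ∑ i, if e ∈ C i then 1 else 0 := by
      intro e _
      rw [oc_eq, card_filter]
    rw [sum_congr rfl h1, sum_comm]
    refine sum_congr rfl (fun i _ => ?_)
    rw [← sum_filter, sum_const, smul_eq_mul, mul_one]
    congr 1
    ext e
    rw [mem_filter]
    exact ⟨fun h => h.2, fun h => ⟨hC i h, h⟩⟩
  -- the product of the coefficients
  have hP : |c C * ∏ e ∈ g, f e (oc C {e})| ≤ c₀ * ∏ i, (D * ε) ^ (C i).card := by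
    rw [abs_mul, abs_prod]
    refine mul_le_mul (hc C) ?_ (prod_nonneg fun _ _ => abs_nonneg _) hc₀
    refine (prod_le_prod (fun _ _ => abs_nonneg _) (fun e he => hf e he _)).trans ?_
    rw [prod_pow_eq_pow_sum, prod_pow_eq_pow_sum, ← hs2]
  -- the second product
  set h : Finset (Sym2 ι) → ℝ := fun F =>
    if F = ∅ then 1 else 2 ^ (g.card + 2) / ε ^ vl A B F with hh
  have hQ : ∏ F ∈ g.powerset.erase ∅, (2 ^ (g.card + 2) / ε ^ vl A B F) ^ cn C F =
      ∏ i, h (C i) := by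
    have h1 := Finset.prod_fiberwise_of_maps_to (s := (univ : Finset (Fin n)))
      (t := g.powerset) (g := C) (fun i _ => mem_powerset.2 (hC i)) (fun i => h (C i))
    rw [← h1]
    have h2 : ∀ F ∈ g.powerset, ∏ i ∈ univ with C i = F, h (C i) = h F ^ cn C F := by
      intro F _
      rw [prod_congr rfl (fun i hi => by rw [(mem_filter.1 hi).2] : ∀ i ∈ univ.filter
        (fun i => C i = F), h (C i) = h F), prod_const]
      rfl
    rw [prod_congr rfl h2, ← mul_prod_erase g.powerset _ (empty_mem_powerset g)]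
    have h3 : h ∅ = 1 := by rw [hh]; simp
    rw [h3, one_pow, one_mul]
    refine prod_congr rfl (fun F hF => ?_)
    rw [hh]
    simp only
    rw [if_neg (ne_of_mem_erase hF)]
  have hh0 : ∀ F, 0 ≤ h F := by
    intro F
    rw [hh]
    simp only
    split_ifs <;> positivity
  have hfac : ∀ i, (D * ε) ^ (C i).card * h (C i) ≤
      (D * 2 ^ (m + 2)) ^ (C i).card * ε ^ kap A B (C i) := by
    intro i
    by_cases h0 : C i = ∅
    · rw [h0, hh]
      simp [kap]
    · have hne : 1 ≤ (C i).card := card_pos.2 (nonempty_iff_ne_empty.2 h0)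
      rw [hh]
      simp only
      rw [if_neg h0]
      unfold kap
      rw [if_neg h0, zpow_sub₀ hε.ne', zpow_natCast, zpow_natCast, mul_pow, mul_pow D]
      have h2 : (2 : ℝ) ^ (g.card + 2) ≤ (2 ^ (m + 2)) ^ (C i).card := by
        calc (2 : ℝ) ^ (g.card + 2) ≤ 2 ^ (m + 2) :=
              pow_le_pow_right₀ one_le_two (by omega)
          _ ≤ (2 ^ (m + 2)) ^ (C i).card := by
              refine le_self_pow₀ (one_le_pow₀ one_le_two) (by omega)
      have e1 : D ^ (C i).card * ε ^ (C i).card * (2 ^ (g.card + 2) / ε ^ vl A B (C i)) =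
          (D ^ (C i).card * (ε ^ (C i).card / ε ^ vl A B (C i))) * 2 ^ (g.card + 2) := by ring
      have e2 : D ^ (C i).card * (2 ^ (m + 2)) ^ (C i).card *
          (ε ^ (C i).card / ε ^ vl A B (C i)) =
          (D ^ (C i).card * (ε ^ (C i).card / ε ^ vl A B (C i))) *
            (2 ^ (m + 2)) ^ (C i).card := by ring
      rw [e1, e2]
      exact mul_le_mul_of_nonneg_left h2 (by positivity)
  have hD1 : 1 ≤ D * 2 ^ (m + 2) := by
    have : (1 : ℝ) ≤ 2 ^ (m + 2) := one_le_pow₀ one_le_two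
    nlinarith
  have hmain : |c C * ∏ e ∈ g, f e (oc C {e})| *
      ∏ F ∈ g.powerset.erase ∅, (2 ^ (g.card + 2) / ε ^ vl A B F) ^ cn C F ≤
      c₀ * (D * 2 ^ (m + 2)) ^ (m * K) * ε ^ cost A B C := by
    rw [hQ]
    calc |c C * ∏ e ∈ g, f e (oc C {e})| * ∏ i, h (C i)
        ≤ c₀ * (∏ i, (D * ε) ^ (C i).card) * ∏ i, h (C i) :=
          mul_le_mul_of_nonneg_right hP (prod_nonneg fun _ _ => hh0 _)
      _ = c₀ * ∏ i, ((D * ε) ^ (C i).card * h (C i)) := by rw [prod_mul_distrib]; ring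
      _ ≤ c₀ * ∏ i, ((D * 2 ^ (m + 2)) ^ (C i).card * ε ^ kap A B (C i)) := by
          refine mul_le_mul_of_nonneg_left (prod_le_prod (fun i _ => ?_) (fun i _ => hfac i)) hc₀
          exact mul_nonneg (by positivity) (hh0 _)
      _ = c₀ * (D * 2 ^ (m + 2)) ^ s * ε ^ cost A B C := by
          rw [prod_mul_distrib, prod_pow_eq_pow_sum, nra_zpow _ hε.ne', hs2]
          unfold cost
          ring
      _ ≤ c₀ * (D * 2 ^ (m + 2)) ^ (m * K) * ε ^ cost A B C := by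
          refine mul_le_mul_of_nonneg_right (mul_le_mul_of_nonneg_left ?_ hc₀)
            (zpow_nonneg hε.le _)
          exact pow_le_pow_right₀ hD1 hsK
  have h0 : 0 ≤ |c C * ∏ e ∈ g, f e (oc C {e})| *
      ∏ F ∈ g.powerset.erase ∅, (2 ^ (g.card + 2) / ε ^ vl A B F) ^ cn C F := by positivity
  refine (pow_le_pow_left₀ h0 hmain 2).trans ?_
  rw [mul_pow _ (ε ^ cost A B C)]
  refine mul_le_mul_of_nonneg_left ?_ (by positivity)
  rw [← zpow_natCast (ε ^ cost A B C), ← zpow_mul, ← zpow_natCast ε θ]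
  refine zpow_le_zpow_right_of_le_one₀ hε hε1 ?_
  push_cast
  linarith

end Pool.Agent.Lib.MP_0430e4_lc.L3
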