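import Pool.Agent.Lib.MP_0430e4_lc.L3.NRA
import Pool.Agent.Lib.MP_0430e4_lc.L3.KBT

/-!
# NRM: the norm lemma for labelled sums

PROOF. `kb_iff`. Group the labellings `C ∈ Fintype.piFinset (fun _ => g.powerset)` by their type `F ↦ cn C F` (`F ∈ g.powerset.erase ∅`; values at most `n`, so at most `(n + 1) ^ (2 ^ g.card)` types). For one type the number
`c C * ∏ e ∈ g, f e (oc C {e})` is constant (`exists_perm`, `hperm`, `oc_comp`); by `chp_par` the rest is the kernel of `typ_norm` with `ξ i v = x v i` (`(gl A B x a b v) i = gl A B (ξ i) (a' i) (b' i) v` with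
`a' i v = a v i`: transposition), `∑ i, sg (x u i) * sg (x v i) = n - 2 * wt (x u + x v)`. Real `p`, `q` are complex functions. So the norm of one type is at most (`coef_bound`)
`c₀ * (D * 2 ^ (m + 2)) ^ (m * K) * ε ^ (θ / 2) * exp (5 ε² n) * √2 ^ (n (|A| + |B|))`; triangle inequality (`bl_sum`).
-/

set_option autoImplicit false

namespace Pool.Agent.Lib.MP_0430e4_lc.L3

open Finset
open Lin (W wt sg)

/-- The constant of the norm lemma. -/
noncomputable def Lc (n m K : ℕ) (D ε : ℝ) : ℝ :=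
  ((n : ℝ) + 1) ^ (2 ^ m) * (D * 2 ^ (m + 2)) ^ (m * K) * Real.exp (5 * ε ^ 2 * n)

theorem nrm_sg (a b : ZMod 2) : sg a * sg b = 1 - 2 * (if a + b ≠ 0 then 1 else 0) := by
  have h : ∀ a b : ZMod 2, (a = 0 ↔ b = 0) ↔ a + b = 0 := by decide
  unfold sg
  by_cases ha : a = 0 <;> by_cases hb : b = 0
  · rw [if_pos ha, if_pos hb, if_neg (not_not.2 ((h a b).1 (by simp [ha, hb])))]
    norm_num
  · rw [if_pos ha, if_neg hb, if_pos fun hh => by have := (h a b).2 hh; simp [ha, hb] at this]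
    norm_num
  · rw [if_neg ha, if_pos hb, if_pos fun hh => by have := (h a b).2 hh; simp [ha, hb] at this]
    norm_num
  · rw [if_neg ha, if_neg hb, if_neg (not_not.2 ((h a b).1 (by simp [ha, hb])))]
    norm_num

theorem sum_sg {n : ℕ} (a b : W n) :
    ∑ i, sg (a i) * sg (b i) = (n : ℝ) - 2 * wt (a + b) := by
  have h1 : ∀ i, sg (a i) * sg (b i) = 1 - 2 * (if (a + b) i ≠ 0 then (1 : ℝ) else 0) :=
    fun i => nrm_sg (a i) (b i)
  rw [sum_congr rfl fun i _ => h1 i, sum_sub_distrib, ← mul_sum, sum_boole]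
  simp [wt]

section

variable {ι : Type*} [Fintype ι] [DecidableEq ι]

/-- The type of a labelling. -/
def nrm_tp (g : Finset (Sym2 ι)) {n : ℕ} (C : Fin n → Finset (Sym2 ι)) : Finset (Sym2 ι) → ℕ :=
  fun F => if F ∈ g.powerset.erase ∅ then cn C F else 0

theorem nrm_tp_eq (g : Finset (Sym2 ι)) {n : ℕ} (C C' : Fin n → Finset (Sym2 ι)) :
    nrm_tp g C = nrm_tp g C' ↔ ∀ F ∈ g.powerset.erase ∅, cn C F = nrm_tp g C' F := by
  constructor
  · intro h F hF
    rw [← h]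
    simp only [nrm_tp, hF, if_true]
  · intro h
    funext F
    by_cases hF : F ∈ g.powerset.erase ∅
    · rw [← h F hF]
      simp only [nrm_tp, hF, if_true]
    · simp only [nrm_tp, hF, if_false]

theorem nrm_card (g : Finset (Sym2 ι)) {m : ℕ} (hm : g.card ≤ m) (n : ℕ) :
    ((Fintype.piFinset fun _ : Fin n => g.powerset).image (nrm_tp g)).card ≤
      (n + 1) ^ (2 ^ m) := by
  classical
  have h1 : (Fintype.piFinset fun _ : Fin n => g.powerset).image (nrm_tp g) ⊆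
      Fintype.piFinset fun F : Finset (Sym2 ι) =>
        if F ∈ g.powerset.erase ∅ then range (n + 1) else {0} := by
    intro τ hτ
    obtain ⟨C, _, rfl⟩ := mem_image.1 hτ
    rw [Fintype.mem_piFinset]
    intro F
    by_cases hF : F ∈ g.powerset.erase ∅
    · simp only [nrm_tp, hF, if_true]
      rw [mem_range, Nat.lt_succ_iff]
      refine (card_filter_le _ _).trans ?_
      rw [card_univ, Fintype.card_fin]
    · simp only [nrm_tp, hF, if_false, mem_singleton]
  refine (card_le_card h1).trans ?_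
  rw [Fintype.card_piFinset]
  have h2 : ∀ F : Finset (Sym2 ι), (if F ∈ g.powerset.erase ∅ then range (n + 1) else {0}).card =
      if F ∈ g.powerset.erase ∅ then n + 1 else 1 := by
    intro F
    split_ifs <;> simp
  rw [prod_congr rfl fun F _ => h2 F, prod_ite, prod_const, prod_const_one, mul_one]
  refine Nat.pow_le_pow_right (Nat.succ_pos n) ?_
  have h3 : (univ.filter fun F : Finset (Sym2 ι) => F ∈ g.powerset.erase ∅) =
      g.powerset.erase ∅ := by
    ext F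
    simp
  rw [h3]
  refine (card_le_card (erase_subset _ _)).trans ?_
  rw [card_powerset]
  exact Nat.pow_le_pow_right (by norm_num) hm

theorem nrm_gl {n : ℕ} (A B : Finset ι) (x : ι → W n) (a : {v // v ∈ A} → W n)
    (b : {v // v ∈ B} → W n) (v : ι) (i : Fin n) :
    gl A B x a b v i = gl A B (fun v => x v i) (fun v => a v i) (fun v => b v i) v := by
  unfold gl
  split_ifs <;> rfl

end

theorem nrm {ι : Type*} [Fintype ι] [DecidableEq ι] {n : ℕ} {A B : Finset ι}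
    (hAB : Disjoint A B) {g : Finset (Sym2 ι)} (hg : ∀ e ∈ g, ¬ e.IsDiag) {m : ℕ}
    (hm : g.card ≤ m)
    {ε D c₀ : ℝ} (hε : 0 < ε) (hε1 : ε ≤ 1) (hD : 1 ≤ D) (hc₀ : 0 ≤ c₀) {K : ℕ}
    {f : Sym2 ι → ℕ → ℝ} {c : (Fin n → Finset (Sym2 ι)) → ℝ}
    (hf : ∀ e ∈ g, ∀ j, |f e j| ≤ (D * ε) ^ j) (hf0 : ∀ e ∈ g, ∀ j, K ≤ j → f e j = 0)
    (hc : ∀ C, |c C| ≤ c₀) (hperm : ∀ C (σ : Equiv.Perm (Fin n)), c (C ∘ σ) = c C) {θ : ℕ}
    (hθ : ∀ C : Fin n → Finset (Sym2 ι), (∀ i, C i ⊆ g) → c C ≠ 0 →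
      (∀ e ∈ g, f e (oc C {e}) ≠ 0) → (θ : ℤ) ≤ 2 * cost A B C)
    (x : ι → W n)
    (hx : ∀ u ∈ vs g, ∀ v ∈ vs g, u ∉ A ∪ B → v ∉ A ∪ B → u ≠ v →
      |(n : ℝ) - 2 * wt (x u + x v)| ≤ 2 * ε * n) :
    KB A B (fun z : ι → W n => Ls g f c (xe z))
      ((c₀ * Lc n m K D ε) ^ 2 * ε ^ θ * ((2 : ℝ) ^ n) ^ (A.card + B.card)) x := by
  classical
  set S : Finset (Fin n → Finset (Sym2 ι)) := Fintype.piFinset fun _ : Fin n => g.powerset with hS
  have hSm : ∀ C ∈ S, ∀ i, C i ⊆ g := fun C hC i => mem_powerset.1 (Fintype.mem_piFinset.1 hC i)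
  set w : (Fin n → Finset (Sym2 ι)) → ℝ := fun C => c C * ∏ e ∈ g, f e (oc C {e}) with hw
  set T : Finset (Finset (Sym2 ι) → ℕ) := S.image (nrm_tp g) with hT
  set P : ℝ := c₀ * (D * 2 ^ (m + 2)) ^ (m * K) * Real.sqrt (ε ^ θ) with hP
  have hεθ : 0 ≤ ε ^ θ := (pow_pos hε θ).le
  have hP0 : 0 ≤ P := by positivity
  set E : ℝ := P * (Real.exp (5 * ε ^ 2 * n) * Real.sqrt 2 ^ (n * (A.card + B.card))) with hE
  have hE0 : 0 ≤ E := by positivity
  -- one type
  have key : ∀ τ ∈ T, Bl (X := {v // v ∈ A} → W n) (Y := {v // v ∈ B} → W n)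
      (fun a b => ∑ C ∈ S.filter (fun C => nrm_tp g C = τ),
        ((w C * ∏ i, chp (par (C i)) (fun v => gl A B x a b v i) : ℝ) : ℂ)) E := by
    intro τ hτ
    obtain ⟨C₀, hC₀, rfl⟩ := mem_image.1 hτ
    have ht := typ_norm hAB g hε hε1 (fun i v => x v i) (n := n) (fun u hu v hv hu' hv' huv => by
      have := hx u hu v hv hu' hv' huv
      rwa [← sum_sg] at this) (nrm_tp g C₀)
    have ht2 := ten_equiv (K' := fun (a : {v // v ∈ A} → W n) (b : {v // v ∈ B} → W n) =>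
      ∑ C ∈ (Fintype.piFinset fun _ : Fin n => g.powerset).filter
        (fun C => ∀ F ∈ g.powerset.erase ∅, cn C F = nrm_tp g C₀ F),
          ∏ i, (chp (par (C i)) (gl A B (fun v => x v i) (fun v => a v i) (fun v => b v i)) : ℂ))
      (Equiv.piComm fun (_ : {v // v ∈ A}) (_ : Fin n) => ZMod 2)
      (Equiv.piComm fun (_ : {v // v ∈ B}) (_ : Fin n) => ZMod 2) (fun _ _ => rfl) ht
    have ht3 := bl_smul ht2 (w C₀ : ℂ)
    have hfil : S.filter (fun C => nrm_tp g C = nrm_tp g C₀) =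
        (Fintype.piFinset fun _ : Fin n => g.powerset).filter
        (fun C => ∀ F ∈ g.powerset.erase ∅, cn C F = nrm_tp g C₀ F) := by
      refine filter_congr fun C _ => ?_
      exact nrm_tp_eq g C C₀
    have hker : (fun (a : {v // v ∈ A} → W n) (b : {v // v ∈ B} → W n) =>
        ∑ C ∈ S.filter (fun C => nrm_tp g C = nrm_tp g C₀),
        ((w C * ∏ i, chp (par (C i)) (fun v => gl A B x a b v i) : ℝ) : ℂ)) =
        fun a b => (w C₀ : ℂ) * ∑ C ∈ (Fintype.piFinset fun _ : Fin n => g.powerset).filter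
        (fun C => ∀ F ∈ g.powerset.erase ∅, cn C F = nrm_tp g C₀ F),
          ∏ i, (chp (par (C i)) (gl A B (fun v => x v i) (fun v => a v i) (fun v => b v i)) :
            ℂ) := by
      funext a b
      rw [hfil, mul_sum]
      refine sum_congr rfl fun C hC => ?_
      have hC1 := (mem_filter.1 hC).1
      have hC2 := (mem_filter.1 hC).2
      obtain ⟨σ, hσ⟩ := exists_perm g.powerset ∅ (C := C₀) (C' := C)
        (fun i => Fintype.mem_piFinset.1 hC₀ i) (fun i => Fintype.mem_piFinset.1 hC1 i)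
        (fun F hF => by
          rw [hC2 F hF]
          simp only [nrm_tp, hF, if_true])
      have hwC : w C = w C₀ := by
        simp only [hw]
        rw [hσ, hperm]
        congr 1
        refine prod_congr rfl fun e _ => ?_
        rw [oc_comp]
      rw [hwC]
      push_cast
      congr 1
      refine prod_congr rfl fun i _ => ?_
      congr 2
      funext v
      exact nrm_gl A B x a b v i
    rw [hker]
    refine bl_mono ht3 (by positivity) ?_
    have hcb := coef_bound (A := A) (B := B) hm hε hε1 hD hc₀ hf hf0 hc hθ (hSm C₀ hC₀)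
    have hprod : ∏ F ∈ g.powerset.erase ∅, (2 ^ (g.card + 2) / ε ^ vl A B F) ^ nrm_tp g C₀ F =
        ∏ F ∈ g.powerset.erase ∅, (2 ^ (g.card + 2) / ε ^ vl A B F) ^ cn C₀ F := by
      refine prod_congr rfl fun F hF => ?_
      simp only [nrm_tp, hF, if_true]
    rw [hprod, Complex.norm_real, Real.norm_eq_abs, hE]
    rw [mul_assoc (∏ F ∈ g.powerset.erase ∅, (2 ^ (g.card + 2) / ε ^ vl A B F) ^ cn C₀ F),
      ← mul_assoc |w C₀|]
    refine mul_le_mul_of_nonneg_right ?_ (by positivity)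
    rw [hP]
    refine abs_le_of_sq_le_sq' ?_ (by positivity) |>.2
    rw [mul_pow (c₀ * (D * 2 ^ (m + 2)) ^ (m * K)), Real.sq_sqrt hεθ]
    exact hcb
  have hsum := bl_sum T (c := fun _ => E) (fun _ _ => hE0) key
  rw [sum_const, nsmul_eq_mul] at hsum
  have hLs : ∀ z : ι → W n, Ls g f c (xe z) =
      ∑ τ ∈ T, ∑ C ∈ S.filter (fun C => nrm_tp g C = τ),
        w C * ∏ i, chp (par (C i)) (fun v => z v i) := by
    intro z
    rw [sum_fiberwise_of_maps_to (fun C hC => mem_image_of_mem _ hC)]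
    unfold Ls
    refine sum_congr rfl fun C hC => ?_
    simp only [hw]
    congr 1
    refine prod_congr rfl fun i _ => ?_
    exact chp_par z (fun e he => hg e (hSm C hC i he)) i
  rw [kb_iff hAB]
  intro p q
  have h1 := hsum (fun a => (p a : ℂ)) (fun b => (q b : ℂ))
  have h2 : ∑ a : {v // v ∈ A} → W n, ∑ b : {v // v ∈ B} → W n,
      (∑ τ ∈ T, ∑ C ∈ S.filter (fun C => nrm_tp g C = τ),
        ((w C * ∏ i, chp (par (C i)) (fun v => gl A B x a b v i) : ℝ) : ℂ)) * (p a : ℂ) *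
          (q b : ℂ) =
      ((∑ a, ∑ b, Ls g f c (xe (gl A B x a b)) * p a * q b : ℝ) : ℂ) := by
    push_cast
    refine sum_congr rfl fun a _ => sum_congr rfl fun b _ => ?_
    rw [hLs]
    push_cast
    rfl
  rw [h2, Complex.norm_real, Real.norm_eq_abs, sq_abs] at h1
  have h3 : ∑ a : {v // v ∈ A} → W n, ‖(p a : ℂ)‖ ^ 2 = ∑ a, p a ^ 2 :=
    sum_congr rfl fun a _ => by rw [Complex.norm_real, Real.norm_eq_abs, sq_abs]
  have h4 : ∑ b : {v // v ∈ B} → W n, ‖(q b : ℂ)‖ ^ 2 = ∑ b, q b ^ 2 :=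
    sum_congr rfl fun b _ => by rw [Complex.norm_real, Real.norm_eq_abs, sq_abs]
  rw [h3, h4] at h1
  refine h1.trans (mul_le_mul_of_nonneg_right ?_ ?_)
  · have hcard : (T.card : ℝ) ≤ ((n : ℝ) + 1) ^ (2 ^ m) := by
      have := nrm_card g hm n
      calc (T.card : ℝ) ≤ (((n + 1) ^ (2 ^ m) : ℕ) : ℝ) := by exact_mod_cast this
        _ = _ := by push_cast; ring
    have h5 : (T.card : ℝ) * E ≤ ((n : ℝ) + 1) ^ (2 ^ m) * E :=
      mul_le_mul_of_nonneg_right hcard hE0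
    have h6 : 0 ≤ (T.card : ℝ) * E := by positivity
    refine (pow_le_pow_left₀ h6 h5 2).trans (le_of_eq ?_)
    have h7 : Real.sqrt (ε ^ θ) ^ 2 = ε ^ θ := Real.sq_sqrt hεθ
    have h8 : (Real.sqrt 2 ^ (n * (A.card + B.card))) ^ 2 = ((2 : ℝ) ^ n) ^ (A.card + B.card) := by
      rw [← pow_mul, mul_comm _ 2, pow_mul, Real.sq_sqrt (by norm_num), ← pow_mul]
    rw [hE, hP]
    unfold Lc
    calc (((n : ℝ) + 1) ^ 2 ^ m * (c₀ * (D * 2 ^ (m + 2)) ^ (m * K) * √(ε ^ θ) *
          (Real.exp (5 * ε ^ 2 * ↑n) * √2 ^ (n * (A.card + B.card))))) ^ 2 =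
          (c₀ * (((n : ℝ) + 1) ^ 2 ^ m * (D * 2 ^ (m + 2)) ^ (m * K) *
          Real.exp (5 * ε ^ 2 * ↑n))) ^ 2 * (√(ε ^ θ) ^ 2) *
          ((√2 ^ (n * (A.card + B.card))) ^ 2) := by ring
      _ = _ := by rw [h7, h8]
  · exact mul_nonneg (sum_nonneg fun _ _ => sq_nonneg _) (sum_nonneg fun _ _ => sq_nonneg _)

end Pool.Agent.Lib.MP_0430e4_lc.L3
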