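import Pool.Agent.Lib.MP_0430e4_lc.L3.POK
import Pool.Agent.Lib.MP_0430e4_lc.Lin.NUM
import Pool.Agent.Lib.MP_0430e4_lc.Lin.NEAR

/-!
# NUB: binomial coefficients at the thresholds

PROOF. `nua_Bn`: `Lin.sum_choose_le` with `N0 = ⌊c ε² n⌋₊ ≥ 1`, `x ↦ x (1 + log (n / x))` is increasing for `x ≤ n`: at most `c ε² n (1 + log (1 / (c ε²)))`. Second part: `Lin.choose_ge_pow` with `a = ⌊c ε² n⌋₊ + 1 ≥ c ε² n`, `x ↦ x log (n / x)` is increasing for
`x ≤ n / e`, so `a * log (n / a) ≥ c ε² n * log (1 / (c ε²))`.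
-/

set_option autoImplicit false

namespace Pool.Agent.Lib.MP_0430e4_lc.L3

open Finset Filter

/-- The threshold constants. -/
noncomputable def cj (m t j : ℕ) : ℝ := 40 * m * t * 6 ^ j

/-- The lower threshold. -/
noncomputable def kk (ζ ε : ℝ) (n : ℕ) : ℕ :=
  ⌊(1 - ζ / 2) * (Tensor.ell (1 / 2 - ε) * Real.log 2 / Real.log (1 / ε)) * n⌋₊

/-- The size. -/
noncomputable def MM (ζ ε : ℝ) (n : ℕ) : ℝ :=
  Real.exp (n * ((1 - ζ) * (Tensor.ell (1 / 2 - ε) * Real.log 2)))

/-- The thresholds. -/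
noncomputable def Kt (c ε : ℝ) (n : ℕ) : ℕ := ⌊c * ε ^ 2 * n⌋₊

theorem nub_log {c ε x n : ℝ} (hc : 0 < c) (hε : 0 < ε) (hn : 0 < n) (hx : x = c * ε ^ 2 * n) :
    Real.log (n / x) = 2 * Real.log (1 / ε) - Real.log c := by
  have h1 : n / x = (c * ε ^ 2)⁻¹ := by
    rw [hx]
    field_simp
  rw [h1, Real.log_inv, Real.log_mul hc.ne' (by positivity), Real.log_pow, one_div, Real.log_inv]
  push_cast
  ring

theorem nub_up {n x K : ℝ} (hK : 0 < K) (hKx : K ≤ x) (hxn : x ≤ n) :
    K * (1 + Real.log (n / K)) ≤ x * (1 + Real.log (n / x)) := by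
  have hx : 0 < x := lt_of_lt_of_le hK hKx
  have hn : 0 < n := lt_of_lt_of_le hx hxn
  have h1 : Real.log (n / K) = Real.log (n / x) + Real.log (x / K) := by
    rw [← Real.log_mul (by positivity) (by positivity)]
    congr 1
    field_simp
  have h2 : Real.log (x / K) ≤ x / K - 1 := Real.log_le_sub_one_of_pos (by positivity)
  have h3 : K * Real.log (x / K) ≤ x - K := by
    have := mul_le_mul_of_nonneg_left h2 hK.le
    have h4 : K * (x / K - 1) = x - K := by
      field_simp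
    linarith
  have h5 : 0 ≤ Real.log (n / x) := Real.log_nonneg (by rw [le_div_iff₀ hx, one_mul]; exact hxn)
  have h6 : K * Real.log (n / x) ≤ x * Real.log (n / x) := mul_le_mul_of_nonneg_right hKx h5
  rw [h1]
  nlinarith

theorem nub_lo {n x a : ℝ} (hx : 2 ≤ x) (hxa : x ≤ a) (hax : a ≤ x + 1) (hxn : x ≤ n) :
    x * Real.log (n / x) - 2 ≤ a * Real.log (n / a) := by
  have hx0 : 0 < x := by linarith
  have ha : 0 < a := by linarith
  have hn : 0 < n := lt_of_lt_of_le hx0 hxn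
  have h1 : Real.log (n / a) = Real.log (n / x) - Real.log (a / x) := by
    rw [← Real.log_div (by positivity) (by positivity)]
    congr 1
    field_simp
  have h2 : Real.log (a / x) ≤ a / x - 1 := Real.log_le_sub_one_of_pos (by positivity)
  have h3 : a * Real.log (a / x) ≤ 2 := by
    refine (mul_le_mul_of_nonneg_left h2 ha.le).trans ?_
    have h4 : a * (a / x - 1) = a * (a - x) / x := by
      field_simp
    rw [h4, div_le_iff₀ hx0]
    nlinarith
  have h5 : 0 ≤ Real.log (n / x) := Real.log_nonneg (by rw [le_div_iff₀ hx0, one_mul]; exact hxn)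
  have h6 : x * Real.log (n / x) ≤ a * Real.log (n / x) := mul_le_mul_of_nonneg_right hxa h5
  rw [h1]
  linarith

theorem nua_Bn {c : ℝ} (hc : 0 < c) : ∃ C ε₀ : ℝ, 0 < C ∧ 0 < ε₀ ∧ ∀ ε : ℝ, 0 < ε → ε < ε₀ →
    ∀ᶠ n : ℕ in atTop,
      Bn n (Kt c ε n) ≤ Real.exp (ε ^ 2 * n * (2 * c * Real.log (1 / ε) + C)) ∧
      Real.exp (ε ^ 2 * n * (2 * c * Real.log (1 / ε) - C)) ≤ n.choose (Kt c ε n + 1) := by
  refine ⟨c * (1 + |Real.log c|), min 1 (1 / (4 * c)), by positivity,
    lt_min one_pos (by positivity), ?_⟩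
  intro ε hε hε0
  have h1 : ε < 1 := lt_of_lt_of_le hε0 (min_le_left _ _)
  have h2 : ε < 1 / (4 * c) := lt_of_lt_of_le hε0 (min_le_right _ _)
  have h3 : c * ε ^ 2 ≤ 1 / 4 := by
    have h4 : ε ^ 2 ≤ ε := by nlinarith
    have h5 : c * ε ≤ 1 / 4 := by
      rw [lt_div_iff₀ (by positivity)] at h2
      linarith
    nlinarith
  have h6 : Tendsto (fun n : ℕ => c * ε ^ 2 * (n : ℝ)) atTop atTop :=
    tendsto_natCast_atTop_atTop.const_mul_atTop (by positivity)
  filter_upwards [h6.eventually_ge_atTop 4, eventually_ge_atTop 4] with n hx4 hn4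
  have hn : (4 : ℝ) ≤ n := by exact_mod_cast hn4
  have hn0 : (0 : ℝ) < n := by linarith
  set x : ℝ := c * ε ^ 2 * n with hx
  have hxn : x ≤ n / 4 := by
    rw [hx]
    nlinarith
  have hKx : (Kt c ε n : ℝ) ≤ x := Nat.floor_le (by positivity)
  have hxK : x < Kt c ε n + 1 := Nat.lt_floor_add_one _
  have hK1 : 1 ≤ Kt c ε n := by
    have : (1 : ℝ) < Kt c ε n + 1 := by linarith
    have h7 : 1 < Kt c ε n + 1 := by exact_mod_cast this
    omega
  have hK2 : 2 * Kt c ε n ≤ n := by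
    have : (2 * (Kt c ε n : ℝ)) ≤ n := by linarith
    exact_mod_cast this
  have hlog := nub_log hc hε hn0 hx
  have habs := neg_abs_le (Real.log c)
  have habs2 := le_abs_self (Real.log c)
  have he : 0 < ε ^ 2 * n := by positivity
  constructor
  · refine (Lin.sum_choose_le hK1 hK2).trans (Real.exp_le_exp.2 ?_)
    refine (nub_up (by exact_mod_cast hK1) hKx (by linarith)).trans ?_
    rw [hlog, hx]
    have h8 : c * ε ^ 2 * n * (1 + (2 * Real.log (1 / ε) - Real.log c)) =
        ε ^ 2 * n * (2 * c * Real.log (1 / ε) + c * (1 - Real.log c)) := by ring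
    rw [h8]
    apply mul_le_mul_of_nonneg_left _ he.le
    have h9 : c * (1 - Real.log c) ≤ c * (1 + |Real.log c|) :=
      mul_le_mul_of_nonneg_left (by linarith) hc.le
    linarith
  · refine le_trans (Real.exp_le_exp.2 ?_)
      (Lin.choose_ge_pow (n := n) (a := Kt c ε n + 1) (by omega) (by omega))
    push_cast
    refine le_trans ?_ (nub_lo (n := n) (x := x) (a := (Kt c ε n : ℝ) + 1) (by linarith) hxK.le
      (by linarith) (by linarith))
    rw [hlog, hx]
    have h8 : c * ε ^ 2 * n * (2 * Real.log (1 / ε) - Real.log c) =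
        ε ^ 2 * n * (2 * c * Real.log (1 / ε) - c * Real.log c) := by ring
    rw [h8]
    have h9 : c * Real.log c ≤ c * |Real.log c| := mul_le_mul_of_nonneg_left habs2 hc.le
    have h10 : (2 : ℝ) ≤ ε ^ 2 * n * c := by
      have : ε ^ 2 * n * c = x := by rw [hx]; ring
      linarith
    nlinarith

end Pool.Agent.Lib.MP_0430e4_lc.L3
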