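import Pool.Agent.Lib.MP_0430e4_lc.L3.NUB

/-!
# NUK: numerical conditions, low part

PROOF. `l = log (1/ε)`, `L = ell (1/2 - ε) * log 2`, `ε² l ≤ L ≤ 3 ε² l` (`Lin.ell_near`). `nul_k`: `kk ≤ (L / l) n ≤ 3 ε² n`, so `2 t kk ≤ 6 t ε² n ≤ ⌊8 t ε² n⌋₊` for large `n`. `kk ≥ (1 - ζ/2) (L / l) n - 1`, so `ε ^ kk ≤ exp (- (1 - ζ/2) L n + l)`,
`MM * ε ^ kk ≤ exp (- (ζ/2) L n + l)`. `nul_h`: `2 * kk / 3 ≥ (2 * kk - 2) / 3` (real), `ε ^ (2 * kk / 3) ≤ exp (- (2/3) (1 - ζ/2) L n + 2 l)`, and `log (Lc ^ 2 (1 + Λ) ^ (6 m)) ≤ 2 ^ (m + 1) log (n + 1) + 2 m (c ε² n + 1) log (D 2 ^ (m + 2)) + 10 ε² n + 6 m (CL ε² n + 1)`.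
Since `L ≥ ε² l` and `l` is large (depending on `ζ, m, c, D, CL`), the terms with `ε² n` are at most `(ζ/4) L n`, so the total exponent is at most `- (ζ/4) L n + O (log n)`, for fixed `ε` it tends to `- ∞`.
-/

set_option autoImplicit false

namespace Pool.Agent.Lib.MP_0430e4_lc.L3

open Finset Filter

theorem nuk_ev {a C y : ℝ} (ha : 0 < a) : ∀ᶠ n : ℕ in atTop,
    C * Real.log ((n : ℝ) + 1) ≤ a * n + y := by
  have h1 : ∀ᶠ x : ℝ in atTop, ‖Real.log x‖ ≤ a / (2 * (|C| + 1)) * ‖x‖ :=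
    Real.isLittleO_log_id_atTop.bound (by positivity)
  have h2 : Tendsto (fun n : ℕ => (n : ℝ) + 1) atTop atTop :=
    tendsto_atTop_add_const_right _ _ tendsto_natCast_atTop_atTop
  have h3 : Tendsto (fun n : ℕ => a / 2 * (n : ℝ)) atTop atTop :=
    tendsto_natCast_atTop_atTop.const_mul_atTop (by positivity)
  filter_upwards [h2.eventually h1, h3.eventually_ge_atTop (a / 2 - y)] with n h4 h5
  rw [Real.norm_eq_abs, Real.norm_eq_abs] at h4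
  have hn : (0 : ℝ) < (n : ℝ) + 1 := by positivity
  rw [abs_of_pos hn] at h4
  have h6 : C * Real.log ((n : ℝ) + 1) ≤ |C| * |Real.log ((n : ℝ) + 1)| := by
    rw [← abs_mul]
    exact le_abs_self _
  have h7 : |C| * |Real.log ((n : ℝ) + 1)| ≤ |C| * (a / (2 * (|C| + 1)) * ((n : ℝ) + 1)) :=
    mul_le_mul_of_nonneg_left h4 (abs_nonneg C)
  have h8 : |C| * (a / (2 * (|C| + 1)) * ((n : ℝ) + 1)) ≤ a / 2 * ((n : ℝ) + 1) := by
    have h9 : |C| * (a / (2 * (|C| + 1))) ≤ a / 2 := by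
      have h10 : 0 ≤ |C| := abs_nonneg C
      rw [mul_div_assoc', div_le_div_iff₀ (by positivity) two_pos]
      nlinarith
    calc |C| * (a / (2 * (|C| + 1)) * ((n : ℝ) + 1)) =
          |C| * (a / (2 * (|C| + 1))) * ((n : ℝ) + 1) := by ring
      _ ≤ _ := mul_le_mul_of_nonneg_right h9 hn.le
  linarith

theorem nuk_pow {ε : ℝ} (hε : 0 < ε) (k : ℕ) :
    ε ^ k = Real.exp (-(k * Real.log (1 / ε))) := by
  have h1 : -((k : ℝ) * Real.log (1 / ε)) = k * Real.log ε := by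
    rw [one_div, Real.log_inv]
    ring
  rw [h1, Real.exp_nat_mul, Real.exp_log hε]

theorem nuk_kk {ζ ε : ℝ} (n : ℕ) {L : ℝ} (hL : L = Tensor.ell (1 / 2 - ε) * Real.log 2)
    (hl : 0 < Real.log (1 / ε)) :
    (1 - ζ / 2) * L * n - Real.log (1 / ε) ≤ kk ζ ε n * Real.log (1 / ε) := by
  have h1 : (1 - ζ / 2) * (L / Real.log (1 / ε)) * n < (kk ζ ε n : ℝ) + 1 := by
    unfold kk
    rw [← hL]
    exact Nat.lt_floor_add_one _
  have h2 := mul_le_mul_of_nonneg_right h1.le hl.le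
  have h3 : (1 - ζ / 2) * (L / Real.log (1 / ε)) * n * Real.log (1 / ε) = (1 - ζ / 2) * L * n := by
    field_simp
  rw [h3] at h2
  linarith

theorem nuk_Mk {ζ ε : ℝ} (n : ℕ) {L : ℝ} (hL : L = Tensor.ell (1 / 2 - ε) * Real.log 2)
    (hε : 0 < ε) (hl : 0 < Real.log (1 / ε)) :
    MM ζ ε n * ε ^ kk ζ ε n ≤ Real.exp (-(ζ / 2 * L * n) + Real.log (1 / ε)) := by
  have h1 := nuk_kk (ζ := ζ) n hL hl
  rw [nuk_pow hε]
  unfold MM
  rw [← Real.exp_add, ← hL]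
  apply Real.exp_le_exp.2
  nlinarith

theorem nuk_k3 {ζ ε : ℝ} (n : ℕ) {L : ℝ} (hL : L = Tensor.ell (1 / 2 - ε) * Real.log 2)
    (hε : 0 < ε) (hl : 0 < Real.log (1 / ε)) (hL0 : 0 ≤ L) (hζ1 : ζ ≤ 1 / 2) :
    ε ^ (2 * kk ζ ε n / 3) ≤ Real.exp (-(ζ / 2 * L * n) + 2 * Real.log (1 / ε)) := by
  have h1 := nuk_kk (ζ := ζ) n hL hl
  rw [nuk_pow hε]
  apply Real.exp_le_exp.2
  have h2 : 2 * kk ζ ε n ≤ 3 * (2 * kk ζ ε n / 3) + 2 := by omega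
  have h3 : (2 : ℝ) * kk ζ ε n ≤ 3 * ((2 * kk ζ ε n / 3 : ℕ) : ℝ) + 2 := by exact_mod_cast h2
  have h4 := mul_le_mul_of_nonneg_right h3 hl.le
  have h5 : 0 ≤ L * n := by positivity
  nlinarith

theorem nuk_A {n m : ℕ} {ε D c CL : ℝ} (hε : 0 < ε) (hD : 1 ≤ D) (hc : 0 < c) (hCL : 0 < CL) :
    (Lc n m (Kt c ε n + 1) D ε * (1 + Real.exp (CL * ε ^ 2 * n)) ^ (3 * m)) ^ 2 ≤
      Real.exp (2 ^ (m + 1) * Real.log ((n : ℝ) + 1) +
        ε ^ 2 * n * (2 * m * c * Real.log (D * 2 ^ (m + 2)) + 10 + 6 * m * CL) +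
        (2 * m * Real.log (D * 2 ^ (m + 2)) + 6 * m)) := by
  have hn1 : (0 : ℝ) < (n : ℝ) + 1 := by positivity
  have h2p : (1 : ℝ) ≤ 2 ^ (m + 2) := one_le_pow₀ (by norm_num)
  have hE1 : 1 ≤ D * 2 ^ (m + 2) := by nlinarith
  have hE : 0 ≤ Real.log (D * 2 ^ (m + 2)) := Real.log_nonneg hE1
  have hE0 : 0 < D * 2 ^ (m + 2) := by linarith
  have hy : 0 ≤ CL * ε ^ 2 * n := by positivity
  have hKt : (Kt c ε n : ℝ) ≤ c * ε ^ 2 * n := Nat.floor_le (by positivity)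
  have e1 : ((n : ℝ) + 1) ^ (2 ^ m) = Real.exp (2 ^ m * Real.log ((n : ℝ) + 1)) := by
    have : (2 : ℝ) ^ m * Real.log ((n : ℝ) + 1) = ((2 ^ m : ℕ) : ℝ) * Real.log ((n : ℝ) + 1) := by
      push_cast
      ring
    rw [this, Real.exp_nat_mul, Real.exp_log hn1]
  have e2 : (D * 2 ^ (m + 2)) ^ (m * (Kt c ε n + 1)) ≤
      Real.exp (m * (c * ε ^ 2 * n + 1) * Real.log (D * 2 ^ (m + 2))) := by
    have h1 : (D * 2 ^ (m + 2)) ^ (m * (Kt c ε n + 1)) =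
        Real.exp (((m * (Kt c ε n + 1) : ℕ) : ℝ) * Real.log (D * 2 ^ (m + 2))) := by
      rw [Real.exp_nat_mul, Real.exp_log hE0]
    rw [h1]
    apply Real.exp_le_exp.2
    push_cast
    apply mul_le_mul_of_nonneg_right _ hE
    apply mul_le_mul_of_nonneg_left _ (Nat.cast_nonneg m)
    linarith
  have e3 : (1 + Real.exp (CL * ε ^ 2 * n)) ^ (3 * m) ≤
      Real.exp (3 * m * (CL * ε ^ 2 * n + 1)) := by
    have h1 : 1 + Real.exp (CL * ε ^ 2 * n) ≤ Real.exp (CL * ε ^ 2 * n + 1) := by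
      rw [Real.exp_add]
      have h2 := Real.add_one_le_exp (1 : ℝ)
      have h3 := Real.one_le_exp hy
      nlinarith
    have h2 : Real.exp (3 * m * (CL * ε ^ 2 * n + 1)) =
        Real.exp (CL * ε ^ 2 * n + 1) ^ (3 * m) := by
      rw [← Real.exp_nat_mul]
      push_cast
      ring_nf
    rw [h2]
    exact pow_le_pow_left₀ (by positivity) h1 _
  have h5 : Lc n m (Kt c ε n + 1) D ε * (1 + Real.exp (CL * ε ^ 2 * n)) ^ (3 * m) ≤
      Real.exp (2 ^ m * Real.log ((n : ℝ) + 1) +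
        m * (c * ε ^ 2 * n + 1) * Real.log (D * 2 ^ (m + 2)) + 5 * ε ^ 2 * n +
        3 * m * (CL * ε ^ 2 * n + 1)) := by
    unfold Lc
    rw [e1, Real.exp_add, Real.exp_add, Real.exp_add]
    apply mul_le_mul _ e3 (by positivity) (by positivity)
    apply mul_le_mul_of_nonneg_right _ (Real.exp_pos _).le
    exact mul_le_mul_of_nonneg_left e2 (Real.exp_pos _).le
  have h6 : 0 ≤ Lc n m (Kt c ε n + 1) D ε * (1 + Real.exp (CL * ε ^ 2 * n)) ^ (3 * m) := by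
    unfold Lc
    positivity
  refine (pow_le_pow_left₀ h6 h5 2).trans ?_
  rw [← Real.exp_nat_mul]
  apply Real.exp_le_exp.2
  apply le_of_eq
  push_cast
  ring

theorem nuk_end {m : ℕ} {ζ η CL D c ε L : ℝ} (hζ : 0 < ζ) (hη : 0 < η) (hCL : 0 < CL)
    (hD : 1 ≤ D) (hc : 0 < c) (hε : 0 < ε)
    (hl : 2 / ζ * (2 * m * c * Real.log (D * 2 ^ (m + 2)) + 10 + 6 * m * CL + 1) ≤
      Real.log (1 / ε)) (hL : ε ^ 2 * Real.log (1 / ε) ≤ L) :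
    ∀ᶠ n : ℕ in atTop, ∀ X : ℝ, 0 ≤ X → X ≤ Real.exp (-(ζ / 2 * L * n) + 2 * Real.log (1 / ε)) →
      (Lc n m (Kt c ε n + 1) D ε * (1 + Real.exp (CL * ε ^ 2 * n)) ^ (3 * m)) ^ 2 * X ≤ η ^ 2 := by
  set E := Real.log (D * 2 ^ (m + 2)) with hE
  set l := Real.log (1 / ε) with hl'
  have h1 := nuk_ev (a := ε ^ 2) (C := 2 ^ (m + 1))
    (y := Real.log (η ^ 2) - (2 * m * E + 6 * m) - 2 * l) (by positivity)
  filter_upwards [h1] with n h2 X hX0 hX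
  refine (mul_le_mul (nuk_A hε hD hc hCL) hX hX0 (Real.exp_pos _).le).trans ?_
  rw [← Real.exp_add, ← hE]
  have h3 : Real.exp (Real.log (η ^ 2)) = η ^ 2 := Real.exp_log (by positivity)
  rw [← h3]
  apply Real.exp_le_exp.2
  have hn : (0 : ℝ) ≤ n := Nat.cast_nonneg n
  have h4 : 2 * m * c * E + 10 + 6 * m * CL + 1 ≤ ζ / 2 * l := by
    have := mul_le_mul_of_nonneg_left hl (by positivity : 0 ≤ ζ / 2)
    have h5 : ζ / 2 * (2 / ζ * (2 * m * c * E + 10 + 6 * m * CL + 1)) =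
        2 * m * c * E + 10 + 6 * m * CL + 1 := by
      field_simp
    linarith
  have h6 : ε ^ 2 * n * (2 * m * c * E + 10 + 6 * m * CL + 1) ≤ ε ^ 2 * n * (ζ / 2 * l) :=
    mul_le_mul_of_nonneg_left h4 (by positivity)
  have h7 : ζ / 2 * n * (ε ^ 2 * l) ≤ ζ / 2 * n * L := mul_le_mul_of_nonneg_left hL (by positivity)
  nlinarith

theorem nuk_large (B : ℝ) : ∃ ε₀ : ℝ, 0 < ε₀ ∧ ε₀ < 1 ∧ ∀ ε : ℝ, 0 < ε → ε < ε₀ →
    B ≤ Real.log (1 / ε) ∧ 0 < Real.log (1 / ε) := by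
  refine ⟨Real.exp (-(|B| + 1)), Real.exp_pos _, ?_, ?_⟩
  · rw [Real.exp_lt_one_iff]
    have := abs_nonneg B
    linarith
  · intro ε h0 h1
    have h2 : |B| + 1 ≤ Real.log (1 / ε) := by
      rw [one_div, Real.log_inv]
      have := Real.log_le_log h0 h1.le
      rw [Real.log_exp] at this
      linarith
    have h3 := le_abs_self B
    have h4 := abs_nonneg B
    exact ⟨by linarith, by linarith⟩

theorem nul_k (t : ℕ) {ζ : ℝ} (hζ : 0 < ζ) (hζ1 : ζ ≤ 1 / 2) :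
    ∃ ε₀ : ℝ, 0 < ε₀ ∧ ∀ ε : ℝ, 0 < ε → ε < ε₀ → ∀ᶠ n : ℕ in atTop,
      2 * t * kk ζ ε n ≤ Kt (8 * t) ε n ∧ MM ζ ε n * ε ^ kk ζ ε n ≤ 1 ∧ 1 ≤ MM ζ ε n := by
  obtain ⟨e1, he1, -, hnear⟩ := Lin.ell_near
  obtain ⟨e2, he2, -, hlarge⟩ := nuk_large 0
  refine ⟨min e1 e2, lt_min he1 he2, ?_⟩
  intro ε hε hε0
  obtain ⟨hL1, hL2⟩ := hnear ε hε (lt_of_lt_of_le hε0 (min_le_left _ _))
  obtain ⟨-, hl⟩ := hlarge ε hε (lt_of_lt_of_le hε0 (min_le_right _ _))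
  set L := Tensor.ell (1 / 2 - ε) * Real.log 2 with hL
  set l := Real.log (1 / ε) with hl'
  have hL0 : 0 < L := lt_of_lt_of_le (by positivity) hL1
  have h3 : Tendsto (fun n : ℕ => ζ / 2 * L * (n : ℝ)) atTop atTop :=
    tendsto_natCast_atTop_atTop.const_mul_atTop (by positivity)
  have h4 : Tendsto (fun n : ℕ => 2 * ε ^ 2 * (n : ℝ)) atTop atTop :=
    tendsto_natCast_atTop_atTop.const_mul_atTop (by positivity)
  filter_upwards [h3.eventually_ge_atTop l, h4.eventually_ge_atTop 1] with n h5 h6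
  have hn : (0 : ℝ) ≤ n := Nat.cast_nonneg n
  refine ⟨?_, ?_, ?_⟩
  · rcases Nat.eq_zero_or_pos t with h0 | h0
    · rw [h0]
      simp
    · have ht : (1 : ℝ) ≤ t := by exact_mod_cast h0
      unfold Kt
      apply Nat.le_floor
      push_cast
      have h7 : (kk ζ ε n : ℝ) ≤ (1 - ζ / 2) * (L / l) * n := by
        apply Nat.floor_le
        have : 0 ≤ 1 - ζ / 2 := by linarith
        positivity
      have h8 : (1 - ζ / 2) * (L / l) * n ≤ 3 * ε ^ 2 * n := by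
        apply mul_le_mul_of_nonneg_right _ hn
        have h9 : L / l ≤ 3 * ε ^ 2 := by
          rw [div_le_iff₀ hl]
          linarith
        have h10 : 0 ≤ L / l := by positivity
        nlinarith
      have h11 : (kk ζ ε n : ℝ) ≤ 3 * ε ^ 2 * n := h7.trans h8
      have h12 : 0 ≤ ε ^ 2 * n := by positivity
      nlinarith
  · refine (nuk_Mk n hL hε hl).trans ?_
    rw [Real.exp_le_one_iff]
    linarith
  · unfold MM
    rw [← hL]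
    apply Real.one_le_exp
    have : 0 ≤ 1 - ζ := by linarith
    positivity

theorem nul_h (m : ℕ) {ζ η CL D c : ℝ} (hζ : 0 < ζ) (hζ1 : ζ ≤ 1 / 2)
    (hη : 0 < η) (hCL : 0 < CL) (hD : 1 ≤ D) (hc : 0 < c) :
    ∃ ε₀ : ℝ, 0 < ε₀ ∧ ∀ ε : ℝ, 0 < ε → ε < ε₀ → ∀ᶠ n : ℕ in atTop,
      (Lc n m (Kt c ε n + 1) D ε * (1 + Real.exp (CL * ε ^ 2 * n)) ^ (3 * m)) ^ 2 *
        (MM ζ ε n * ε ^ kk ζ ε n) ≤ η ^ 2 ∧
      (Lc n m (Kt c ε n + 1) D ε * (1 + Real.exp (CL * ε ^ 2 * n)) ^ (3 * m)) ^ 2 *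
        ε ^ (2 * kk ζ ε n / 3) ≤ η ^ 2 := by
  obtain ⟨e1, he1, -, hnear⟩ := Lin.ell_near
  obtain ⟨e2, he2, -, hlarge⟩ :=
    nuk_large (2 / ζ * (2 * m * c * Real.log (D * 2 ^ (m + 2)) + 10 + 6 * m * CL + 1))
  refine ⟨min e1 e2, lt_min he1 he2, ?_⟩
  intro ε hε hε0
  obtain ⟨hL1, hL2⟩ := hnear ε hε (lt_of_lt_of_le hε0 (min_le_left _ _))
  obtain ⟨hl1, hl⟩ := hlarge ε hε (lt_of_lt_of_le hε0 (min_le_right _ _))
  have hL0 : 0 < Tensor.ell (1 / 2 - ε) * Real.log 2 := lt_of_lt_of_le (by positivity) hL1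
  filter_upwards [nuk_end (m := m) hζ hη hCL hD hc hε hl1 hL1] with n h
  constructor
  · apply h
    · unfold MM
      positivity
    · refine (nuk_Mk n rfl hε hl).trans (Real.exp_le_exp.2 ?_)
      linarith
  · apply h _ (by positivity)
    exact nuk_k3 n rfl hε hl hL0.le hζ1

end Pool.Agent.Lib.MP_0430e4_lc.L3
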