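import Pool.Agent.Lib.MP_0430e4_lc.L3.PSF
import Pool.Agent.Lib.MP_0430e4_lc.L3.DAT
import Pool.Agent.Lib.MP_0430e4_lc.L3.LEN
import Pool.Agent.Lib.MP_0430e4_lc.Exact.INP

/-!
# OUT: the theorem

PROOF. `out_even`: `psf` gives `η₀`, `dat` with `η = η₀`. `out_near`: for odd `n` use `n - 1` and `δ' > δ` close to `δ`: `⌈δ n⌉₊ ≤ ⌈δ' (n - 1)⌉₊` for large `n`, so `las t n ⌈δ n⌉₊ ≥ las t (n - 1) ⌈δ n⌉₊ ≥ las t (n - 1) ⌈δ' (n - 1)⌉₊` (`las_len`, `las_anti_d`), and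
`(n - 1) (1 - ζ/2) ell δ' ≥ n (1 - ζ) ell δ` for large `n` when `(1 - ζ/2) ell δ' > (1 - ζ) ell δ` (continuity of `ell`, `Exact.ell_continuousAt`, `ell δ > 0`). `out_lp`: as `L2.las_ge_lp` (file L2/LPC.lean).
-/

set_option autoImplicit false

namespace Pool.Agent.Lib.MP_0430e4_lc.L3

open Finset Filter Topology

theorem out_even {t : ℕ} (ht : 1 ≤ t) {ζ : ℝ} (hζ : 0 < ζ) (hζ1 : ζ ≤ 1 / 2) :
    ∃ δ₀ : ℝ, 0 < δ₀ ∧ δ₀ < 1 / 2 ∧ ∀ δ : ℝ, δ₀ < δ → δ < 1 / 2 → ∀ᶠ n : ℕ in atTop, Even n →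
      (2 : ℝ) ^ ((n : ℝ) * ((1 - ζ) * Tensor.ell δ)) ≤ Las.las t n ⌈δ * n⌉₊ := by
  obtain ⟨η₀, hη₀, hpsf⟩ := psf t ht
  obtain ⟨ε₀, hε₀, hε₁, hdat⟩ := dat t ht hζ hζ1 hη₀
  refine ⟨1 / 2 - ε₀, by linarith, by linarith, fun δ h1 h2 => ?_⟩
  have h3 := hdat (1 / 2 - δ) (by linarith) (by linarith)
  rw [sub_sub_cancel] at h3
  filter_upwards [h3] with n hn hev
  obtain ⟨P, a, D, Λ, ρ, KV, Kx, Ks, hP, hN⟩ := hn hev
  have h4 := hpsf hP hN le_rfl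
  refine le_trans (le_of_eq ?_) h4
  unfold MM
  rw [Real.rpow_def_of_pos (by norm_num), sub_sub_cancel]
  congr 1
  ring

theorem out_near {t : ℕ} (ht : 1 ≤ t) {ζ : ℝ} (hζ : 0 < ζ) (hζ1 : ζ ≤ 1 / 2) :
    ∃ δ₀ : ℝ, 0 < δ₀ ∧ δ₀ < 1 / 2 ∧ ∀ δ : ℝ, δ₀ < δ → δ < 1 / 2 → ∀ᶠ n : ℕ in atTop,
      (2 : ℝ) ^ ((n : ℝ) * ((1 - ζ) * Tensor.ell δ)) ≤ Las.las t n ⌈δ * n⌉₊ := by
  obtain ⟨δ₀, h0, h1, hev⟩ := out_even ht (half_pos hζ) (by linarith)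
  obtain ⟨ε₁, hε₁, hε₁1, hnear⟩ := Lin.ell_near
  refine ⟨max δ₀ (1 / 2 - ε₁), lt_max_of_lt_left h0, max_lt h1 (by linarith), fun δ hδ1 hδ2 => ?_⟩
  have hδ3 : δ₀ < δ := lt_of_le_of_lt (le_max_left _ _) hδ1
  have hδ4 : 1 / 2 - ε₁ < δ := lt_of_le_of_lt (le_max_right _ _) hδ1
  have hδ0 : 0 < δ := by linarith
  have hell : 0 < Tensor.ell δ := by
    have e1 := (hnear (1 / 2 - δ) (by linarith) (by linarith)).1
    rw [sub_sub_cancel] at e1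
    have e2 : 0 < (1 / 2 - δ) ^ 2 * Real.log (1 / (1 / 2 - δ)) := by
      apply mul_pos (pow_pos (by linarith) 2)
      apply Real.log_pos
      rw [lt_div_iff₀ (by linarith)]
      linarith
    have e3 : 0 < Real.log 2 := Real.log_pos (by norm_num)
    have e4 := lt_of_lt_of_le e2 e1
    exact pos_of_mul_pos_left e4 e3.le
  -- a slightly larger distance
  have hcont : Tendsto (fun x => (1 - ζ / 2) * Tensor.ell x) (𝓝[>] δ)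
      (𝓝 ((1 - ζ / 2) * Tensor.ell δ)) :=
    ((Exact.ell_continuousAt hδ0).tendsto.mono_left nhdsWithin_le_nhds).const_mul _
  have hlt : (1 - ζ) * Tensor.ell δ < (1 - ζ / 2) * Tensor.ell δ := by nlinarith
  have hIoo : ∀ᶠ x in 𝓝[>] δ, x ∈ Set.Ioo δ (1 / 2) := Ioo_mem_nhdsGT hδ2
  obtain ⟨δ', hδ', hell'⟩ := (hIoo.and (hcont.eventually_const_lt hlt)).exists
  have hg1 := hev δ' (by linarith [hδ'.1]) hδ'.2
  have hg0 := hev δ hδ3 hδ2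
  have hg1' : ∀ᶠ n : ℕ in atTop, Even (n - 1) →
      (2 : ℝ) ^ (((n - 1 : ℕ) : ℝ) * ((1 - ζ / 2) * Tensor.ell δ')) ≤
        Las.las t (n - 1) ⌈δ' * ((n - 1 : ℕ) : ℝ)⌉₊ :=
    (tendsto_sub_atTop_nat 1).eventually hg1
  have e1 : ∀ᶠ n : ℕ in atTop, δ' ≤ (n : ℝ) * (δ' - δ) :=
    (tendsto_natCast_atTop_atTop.atTop_mul_const (by linarith [hδ'.1])).eventually_ge_atTop _
  have e2 : ∀ᶠ n : ℕ in atTop, (1 - ζ / 2) * Tensor.ell δ' ≤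
      (n : ℝ) * ((1 - ζ / 2) * Tensor.ell δ' - (1 - ζ) * Tensor.ell δ) :=
    (tendsto_natCast_atTop_atTop.atTop_mul_const (by linarith)).eventually_ge_atTop _
  filter_upwards [hg0, hg1', e1, e2, eventually_ge_atTop 1] with n a0 a1 a2 a3 a4
  rcases Nat.even_or_odd n with hn | hn
  · refine le_trans ?_ (a0 hn)
    apply Real.rpow_le_rpow_of_exponent_le (by norm_num)
    have : 0 ≤ (n : ℝ) := Nat.cast_nonneg n
    exact mul_le_mul_of_nonneg_left hlt.le this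
  · obtain ⟨m, hm⟩ : ∃ m, n = m + 1 := ⟨n - 1, by omega⟩
    have hme : Even (n - 1) := by
      obtain ⟨r, hr⟩ := hn
      exact ⟨r, by omega⟩
    have hcast : ((n - 1 : ℕ) : ℝ) = (n : ℝ) - 1 := by
      rw [Nat.cast_sub a4, Nat.cast_one]
    have b1 := a1 hme
    have b2 : ⌈δ * n⌉₊ ≤ ⌈δ' * ((n - 1 : ℕ) : ℝ)⌉₊ := by
      apply Nat.ceil_le_ceil
      rw [hcast]
      linarith
    have b3 : Las.las t (n - 1) ⌈δ' * ((n - 1 : ℕ) : ℝ)⌉₊ ≤ Las.las t (n - 1) ⌈δ * n⌉₊ :=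
      las_anti_d ht b2
    have b4 : Las.las t (n - 1) ⌈δ * n⌉₊ ≤ Las.las t n ⌈δ * n⌉₊ := by
      have := las_len ht (n - 1) ⌈δ * n⌉₊
      rwa [Nat.sub_add_cancel a4] at this
    refine le_trans ?_ (b1.trans (b3.trans b4))
    apply Real.rpow_le_rpow_of_exponent_le (by norm_num)
    rw [hcast]
    linarith

theorem out_lp {t : ℕ} (ht : 1 ≤ t) {ζ : ℝ} (hζ : 0 < ζ) :
    ∃ δ₀ : ℝ, δ₀ < 1 / 2 ∧ ∀ δ : ℝ, δ₀ < δ → δ < 1 / 2 → ∃ n0 : ℕ, ∀ n ≥ n0,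
      Impr.lpBound n ⌈δ * n⌉₊ ^ (1 - ζ) ≤ Las.las t n ⌈δ * n⌉₊ := by
  obtain ⟨z, hz⟩ : ∃ z, z = min ζ (1 / 2) := ⟨_, rfl⟩
  have hz0 : 0 < z := by
    rw [hz]
    exact lt_min hζ (by norm_num)
  have hz1 : z ≤ 1 / 2 := by
    rw [hz]
    exact min_le_right _ _
  have hz2 : z ≤ ζ := by
    rw [hz]
    exact min_le_left _ _
  obtain ⟨δ₀, h0, h1, hmain⟩ := out_near ht (half_pos hz0) (by linarith)
  obtain ⟨ε₁, hε₁, hε₁1, hnear⟩ := Lin.ell_near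
  refine ⟨max δ₀ (1 / 2 - ε₁), max_lt h1 (by linarith), fun δ hδ1 hδ2 => ?_⟩
  have hδ3 : δ₀ < δ := lt_of_le_of_lt (le_max_left _ _) hδ1
  have hδ4 : 1 / 2 - ε₁ < δ := lt_of_le_of_lt (le_max_right _ _) hδ1
  have hδ0 : 0 < δ := by linarith
  have hell : 0 < Tensor.ell δ := by
    have e1 := (hnear (1 / 2 - δ) (by linarith) (by linarith)).1
    rw [sub_sub_cancel] at e1
    have e2 : 0 < (1 / 2 - δ) ^ 2 * Real.log (1 / (1 / 2 - δ)) := by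
      apply mul_pos (pow_pos (by linarith) 2)
      apply Real.log_pos
      rw [lt_div_iff₀ (by linarith)]
      linarith
    have e3 : 0 < Real.log 2 := Real.log_pos (by norm_num)
    have e4 := lt_of_lt_of_le e2 e1
    exact pos_of_mul_pos_left e4 e3.le
  have hten := Exact.fin_tendsto Exact.inputs hδ0 hδ2
  have hev : ∀ᶠ n : ℕ in atTop, Exact.lpRate δ n < Tensor.ell δ + z / 2 * Tensor.ell δ :=
    hten.eventually (gt_mem_nhds (by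
      have := mul_pos (half_pos hz0) hell
      linarith))
  rw [← eventually_atTop]
  filter_upwards [hev, hmain δ hδ3 hδ2, eventually_ge_atTop 1] with n hn1 hn2 hn3
  have hnR : (0 : ℝ) < n := by exact_mod_cast hn3
  have hLP := Impr.one_le_lpBound n ⌈δ * n⌉₊
  have hLP0 : 0 < Impr.lpBound n ⌈δ * n⌉₊ := by linarith
  refine le_trans ?_ hn2
  have e1 : Impr.lpBound n ⌈δ * n⌉₊ ^ (1 - ζ) ≤ Impr.lpBound n ⌈δ * n⌉₊ ^ (1 - z) :=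
    Real.rpow_le_rpow_of_exponent_le hLP (by linarith)
  refine e1.trans ?_
  unfold Exact.lpRate at hn1
  rw [div_lt_iff₀ hnR] at hn1
  have e2 : Impr.lpBound n ⌈δ * n⌉₊ ≤
      (2 : ℝ) ^ ((Tensor.ell δ + z / 2 * Tensor.ell δ) * n) := by
    rw [← Real.logb_le_iff_le_rpow (by norm_num) hLP0]
    exact hn1.le
  calc Impr.lpBound n ⌈δ * n⌉₊ ^ (1 - z)
      ≤ ((2 : ℝ) ^ ((Tensor.ell δ + z / 2 * Tensor.ell δ) * n)) ^ (1 - z) :=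
        Real.rpow_le_rpow hLP0.le e2 (by linarith)
    _ = (2 : ℝ) ^ ((Tensor.ell δ + z / 2 * Tensor.ell δ) * n * (1 - z)) := by
        rw [← Real.rpow_mul (by norm_num)]
    _ ≤ (2 : ℝ) ^ ((n : ℝ) * ((1 - z / 2) * Tensor.ell δ)) := by
        apply Real.rpow_le_rpow_of_exponent_le (by norm_num)
        have e3 : (1 + z / 2) * (1 - z) ≤ 1 - z / 2 := by nlinarith
        have e4 : 0 ≤ (n : ℝ) * Tensor.ell δ := by positivity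
        nlinarith

end Pool.Agent.Lib.MP_0430e4_lc.L3
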