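import Pool.Agent.Lib.MP_0430e4_lc.L3.POK
import Pool.Agent.Lib.MP_0430e4_lc.L3.LSX

/-!
# PKA: simple consequences of `Pk`

PROOF. `abs_φ`: bad words -1. `abs_coef`: `|al φ w| ≤ EW |φ| ≤ 1`, so `|a j| ≤ 1` for `j ≤ n`. `sum_f`: `∑ w, |f (wt w)| = ∑ j, C(n,j) |f j| ≤ ∑ j < KV, C(n,j)`. `f_le`: `f j = a j` for `j < KV ≤ Kx`. `single_flat`: `Ls_single`, definition of `flat`.
`sharp_op`: `L2.al_sharp_le`, `L2.op_of_al`. `okw_abs`: `d ≤ wt`, `wt + d ≤ n`, `band`. `Lc_mono`: monotone in `K`.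
-/

set_option autoImplicit false

namespace Pool.Agent.Lib.MP_0430e4_lc.L3

open Finset
open Lin (W wt chw evW EW al flat SymW)
open L2 (Ev OP)

variable {n : ℕ} {P : Pm n} {d : ℕ} {a : ℕ → ℝ} {ε D Λ ρ : ℝ} {KV Kx : ℕ}

theorem Pk.abs_φ (h : Pk n P d a ε D Λ ρ KV Kx) {w : W n} (hw : w ∈ evW n) : |P.φ w| ≤ 1 := by
  by_cases hg : d ≤ wt w ∧ wt w + d ≤ n
  · have h1 := (h.good w hw hg.1 hg.2).1
    linarith
  · rw [(h.bad w hw hg).1]
    norm_num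

theorem Pk.abs_ψ (h : Pk n P d a ε D Λ ρ KV Kx) {w : W n} (hw : w ∈ evW n) : |P.ψ w| ≤ Λ := by
  by_cases hg : d ≤ wt w ∧ wt w + d ≤ n
  · exact (h.good w hw hg.1 hg.2).2
  · rw [(h.bad w hw hg).2, abs_neg, abs_one]
    exact h.Λ1

theorem Pk.abs_one_ψ (h : Pk n P d a ε D Λ ρ KV Kx) {w : W n} (hw : w ∈ evW n) :
    |1 + P.ψ w| ≤ 1 + Λ := by
  have h1 := abs_add_le 1 (P.ψ w)
  have h2 := h.abs_ψ hw
  rw [abs_one] at h1
  linarith

theorem pka_exists_wt {n j : ℕ} (hj : j ≤ n) : ∃ w : W n, wt w = j := by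
  classical
  obtain ⟨s, hs⟩ := exists_subset_card_eq (s := (univ : Finset (Fin n))) (n := j)
    (by rw [card_univ, Fintype.card_fin]; exact hj)
  refine ⟨fun i => if i ∈ s then 1 else 0, ?_⟩
  unfold wt
  rw [← hs.2]
  congr 1
  ext i
  simp

theorem Pk.abs_a (h : Pk n P d a ε D Λ ρ KV Kx) {j : ℕ} (hj : j ≤ n) : |a j| ≤ 1 := by
  obtain ⟨w, hw⟩ := pka_exists_wt hj
  have h1 := h.coef w
  rw [hw] at h1
  rw [← h1]
  refine (Lin.abs_al_le _ _).trans ?_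
  rw [← Lin.EW_const h.n0 (1 : ℝ)]
  exact Lin.EW_mono fun x hx => h.abs_φ hx

theorem Pk.f_le (h : Pk n P d a ε D Λ ρ KV Kx) (j : ℕ) : |P.f j| ≤ (D * ε) ^ j := by
  rw [h.f j]
  have h0 : 0 ≤ D * ε := mul_nonneg (zero_le_one.trans h.D1) h.ε0.le
  split_ifs with hj
  · exact h.a1 j (hj.le.trans h.KVx)
  · rw [abs_zero]
    exact pow_nonneg h0 j

theorem Pk.f_zero (h : Pk n P d a ε D Λ ρ KV Kx) {j : ℕ} (hj : Kx + 1 ≤ j) : P.f j = 0 := by
  rw [h.f j, if_neg]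
  have := h.KVx
  omega

theorem Pk.f_low (h : Pk n P d a ε D Λ ρ KV Kx) {j : ℕ} (hj : P.f j ≠ 0) : P.k ≤ j ∧ j < KV := by
  rw [h.f j] at hj
  by_cases h1 : j < KV
  · rw [if_pos h1] at hj
    refine ⟨?_, h1⟩
    by_contra h2
    exact hj (h.a0 j (not_le.1 h2))
  · rw [if_neg h1] at hj
    exact absurd rfl hj

theorem Pk.sum_f (h : Pk n P d a ε D Λ ρ KV Kx) : ∑ w : W n, |P.f (wt w)| ≤ Bn n KV := by
  classical
  have h1 : Bn n KV = ∑ w : W n, if wt w ≤ KV then (1 : ℝ) else 0 := by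
    rw [← sum_filter, sum_const, nsmul_eq_mul, mul_one, Lin.card_wt_le]
    unfold Bn
    push_cast
    rfl
  rw [h1]
  refine sum_le_sum fun w _ => ?_
  rw [h.f]
  split_ifs with h2 h3 h3
  · have h4 := h.KVx
    have h5 := h.Kx2
    exact h.abs_a (by omega)
  · omega
  · rw [abs_zero]
    exact zero_le_one
  · rw [abs_zero]

theorem one_le_Bn (n K : ℕ) : 1 ≤ Bn n K := by
  unfold Bn
  have h1 : ((n.choose 0 : ℕ) : ℝ) ≤ ∑ q ∈ range (K + 1), (n.choose q : ℝ) :=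
    single_le_sum (f := fun q => (n.choose q : ℝ)) (fun q _ => Nat.cast_nonneg _)
      (mem_range.2 (Nat.succ_pos K))
  simpa using h1

theorem Pk.abs_flat (h : Pk n P d a ε D Λ ρ KV Kx) {K : ℕ} (hK : K ≤ n) (w : W n) :
    |flat K P.φ w| ≤ Bn n K := by
  classical
  unfold flat
  refine (abs_sum_le_sum_abs _ _).trans ?_
  have h1 : Bn n K = ∑ w ∈ univ.filter (fun w : W n => wt w ≤ K), (1 : ℝ) := by
    rw [sum_const, nsmul_eq_mul, mul_one, Lin.card_wt_le]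
    unfold Bn
    push_cast
    rfl
  rw [h1]
  refine sum_le_sum fun v hv => ?_
  rw [abs_mul, Lin.abs_chw, mul_one, h.coef v]
  exact h.abs_a (((mem_filter.1 hv).2).trans hK)

theorem Pk.sharp_op (h : Pk n P d a ε D Λ ρ KV Kx) {K : ℕ} (hK : K ≤ Kx) :
    OP (V := Ev n) (fun x y => P.φ ((x : W n) + (y : W n)) - flat K P.φ ((x : W n) + (y : W n)))
      (2 / Real.sqrt (n.choose (K + 1))) := by
  have h1 : EW (fun x => P.φ x ^ 2) ≤ 1 := by
    rw [← Lin.EW_const h.n0 (1 : ℝ)]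
    refine Lin.EW_mono fun x hx => ?_
    have h2 := h.abs_φ hx
    rw [← sq_abs]
    nlinarith [abs_nonneg (P.φ x)]
  have h3 := h.Kx2
  exact L2.op_of_al h.n0 (fun w => P.φ w - flat K P.φ w)
    (fun w => L2.al_sharp_le h.n0 h.sym h1 (by omega) w)

theorem Pk.single_flat (h : Pk n P d a ε D Λ ρ KV Kx) {ι : Type*} [DecidableEq ι] (e : Sym2 ι)
    (K : ℕ) (X : Sym2 ι → W n) :
    flat K P.φ (X e) = Ls {e} (fun _ j => if j ≤ K then a j else 0) (fun _ => 1) X := by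
  classical
  rw [Ls_single]
  unfold flat
  rw [sum_filter]
  refine sum_congr rfl fun w _ => ?_
  split_ifs with h1
  · rw [h.coef w]
  · rw [zero_mul]

theorem Pk.okw_abs (h : Pk n P d a ε D Λ ρ KV Kx) {x y : Ev n} (hxy : okw n d x y) :
    |(n : ℝ) - 2 * wt ((x : W n) + (y : W n))| ≤ 2 * ε * n := by
  obtain ⟨h1, h2⟩ := hxy
  have h3 : (d : ℝ) ≤ wt ((x : W n) + (y : W n)) := by exact_mod_cast h1
  have h4 : (wt ((x : W n) + (y : W n)) : ℝ) + d ≤ n := by exact_mod_cast h2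
  have h5 := h.band
  rw [abs_le]
  constructor <;> linarith

theorem one_le_Lc {n m K : ℕ} {D ε : ℝ} (hD : 1 ≤ D) : 1 ≤ Lc n m K D ε := by
  unfold Lc
  have h1 : (1 : ℝ) ≤ ((n : ℝ) + 1) ^ (2 ^ m) :=
    one_le_pow₀ (by have : (0 : ℝ) ≤ n := Nat.cast_nonneg n
                    linarith)
  have h2 : (1 : ℝ) ≤ (D * 2 ^ (m + 2)) ^ (m * K) := by
    refine one_le_pow₀ ?_
    have h3 : (1 : ℝ) ≤ 2 ^ (m + 2) := one_le_pow₀ (by norm_num)
    nlinarith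
  have h4 : (1 : ℝ) ≤ Real.exp (5 * ε ^ 2 * n) := by
    apply Real.one_le_exp
    positivity
  have h5 : (1 : ℝ) ≤ ((n : ℝ) + 1) ^ (2 ^ m) * (D * 2 ^ (m + 2)) ^ (m * K) := by
    nlinarith
  nlinarith

theorem xe_even {ι : Type*} (z : ι → Ev n) (e : Sym2 ι) : xe (vw z) e ∈ evW n := by
  induction e using Sym2.ind with
  | _ u v =>
    have hu := (z u).2
    have hv := (z v).2
    unfold evW at hu hv ⊢
    rw [mem_filter] at hu hv ⊢
    refine ⟨mem_univ _, ?_⟩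
    show ∑ i, ((z u : W n) + (z v : W n)) i = 0
    simp only [Pi.add_apply, sum_add_distrib]
    rw [hu.2, hv.2, add_zero]

theorem okw_symm {x y : Ev n} (h : okw n d x y) : okw n d y x := by
  unfold okw at h ⊢
  rw [add_comm (y : W n) (x : W n)]
  exact h

end Pool.Agent.Lib.MP_0430e4_lc.L3
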