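import Pool.Agent.Lib.MP_0430e4_lc.L3.NRE
import Pool.Agent.Lib.MP_0430e4_lc.L2.OPB

/-!
# POK: the data for fixed `n` (definitions)
-/

set_option autoImplicit false

namespace Pool.Agent.Lib.MP_0430e4_lc.L3

open Finset
open Lin (W wt chw evW EW al flat SymW)
open L2 (Ev OP)

/-- The number of words of weight at most `K`. -/
noncomputable def Bn (n K : ℕ) : ℝ := ∑ q ∈ range (K + 1), (n.choose q : ℝ)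

/-- The facts on the functions `φ`, `ψ`: `a j` are the coefficients of `φ`, `P.k` the lower
threshold, `KV` the upper threshold of `P.f`, `Kx` a bound for all thresholds, `ρ` the norm of `ψ`. -/
structure Pk (n : ℕ) (P : Pm n) (d : ℕ) (a : ℕ → ℝ) (ε D Λ ρ : ℝ) (KV Kx : ℕ) : Prop where
  n0 : 0 < n
  ε0 : 0 < ε
  ε1 : ε ≤ 1
  D1 : 1 ≤ D
  Λ1 : 1 ≤ Λ
  ρ0 : 0 ≤ ρ
  d1 : 1 ≤ d
  band : (n : ℝ) - 2 * d ≤ 2 * ε * n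
  bad : ∀ w ∈ evW n, ¬ (d ≤ wt w ∧ wt w + d ≤ n) → P.φ w = -1 ∧ P.ψ w = -1
  good : ∀ w ∈ evW n, d ≤ wt w → wt w + d ≤ n → |P.φ w| ≤ 1 / 2 ∧ |P.ψ w| ≤ Λ
  sym : SymW P.φ
  coef : ∀ w, al P.φ w = a (wt w)
  a0 : ∀ j < P.k, a j = 0
  a1 : ∀ j ≤ Kx, |a j| ≤ (D * ε) ^ j
  f : ∀ j, P.f j = if j < KV then a j else 0
  KVx : KV ≤ Kx
  Kx2 : 2 * Kx + 2 ≤ n
  op : OP (V := Ev n) (fun x y => P.ψ ((x : W n) + (y : W n))) ρ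

/-- The numerical conditions. -/
structure Nk (n m t k : ℕ) (ε D Λ ρ M η : ℝ) (KV Kx : ℕ) (Ks : ℕ → ℕ) : Prop where
  M1 : 1 ≤ M
  η0 : 0 ≤ η
  kv : 2 * t * k ≤ KV
  ks : ∀ j < m, KV ≤ Ks j ∧ Ks j ≤ Kx
  mek : M * ε ^ k ≤ 1
  h1 : (Lc n m (Kx + 1) D ε * (1 + Λ) ^ (3 * m)) ^ 2 * (M * ε ^ k) ≤ η ^ 2
  h2 : (Lc n m (Kx + 1) D ε * (1 + Λ) ^ (3 * m)) ^ 2 * ε ^ (2 * k / 3) ≤ η ^ 2
  h3 : ((1 + Λ) ^ (3 * m) * Bn n KV ^ m * ρ) ^ 2 * M ^ (2 * t) ≤ η ^ 2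
  h4 : ∀ j < m, ((1 + Λ) ^ (3 * m) * Bn n KV ^ m * (∏ i ∈ range j, Bn n (Ks i)) *
    (2 / Real.sqrt (n.choose (Ks j + 1)))) ^ 2 * M ^ (2 * t) ≤ η ^ 2

end Pool.Agent.Lib.MP_0430e4_lc.L3
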