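import Pool.Agent.Lib.MP_0430e4_lc.L3.LOD

/-!
# PRD: the product of the local norms

PROOF. `‖P i‖ ≤ ε / 4` (`P i = Pl A B g s (ξ i)`; at most `2 ^ |g|` sets, `vl ≥ 1` since `par F ∩ A = ∅`). `‖1 + P‖² = 1 + 2 Re P + ‖P‖² ≤ exp (2 Re P + ‖P‖²)`, `‖1 + P‖ + ε² ≤ ‖1 + P‖ * exp (2 ε²)` (`‖1 + P‖ ≥ 3/4`).
`∑ i, Re (P i) ≤ ‖∑ i, P i‖ ≤ ∑ F, ‖s F‖ * |∑ i, chp (par F) (ξ i)|`: this is at most `(1/4) ε * 2 ε n` for the `F` with `(par F).card = 2` (`par F = {u, v}`, `u, v ∈ vs F ⊆ vs g`, not in `A ∪ B`, `vl = 1`) plus `(1/4) ε² n` for the others (`vl = 2`). Sum of all exponents: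
`(1/2 + 1/4 + 1/32 + 2) ε² n ≤ 5 ε² n`.
-/

set_option autoImplicit false

namespace Pool.Agent.Lib.MP_0430e4_lc.L3

open Finset
open Lin (W wt sg)

variable {ι : Type*} [Fintype ι] [DecidableEq ι]

theorem prd_chp_abs (P : Finset ι) (x : ι → ZMod 2) : |chp P x| = 1 := by
  unfold chp
  rw [abs_prod]
  refine prod_eq_one fun v _ => ?_
  unfold sg
  split_ifs <;> norm_num

theorem prd_vl_left {A B : Finset ι} {F : Finset (Sym2 ι)} (h : par F ∩ A = ∅ ∨ par F ∩ B = ∅) :
    1 ≤ vl A B F := by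
  unfold vl
  split_ifs with h1 h2 h3 h4 <;> first | omega | (rcases h with h | h <;> simp_all)

theorem prd_pow_vl_le {A B : Finset ι} {F : Finset (Sym2 ι)} {ε : ℝ} (hε : 0 ≤ ε) (hε1 : ε ≤ 1)
    (h : par F ∩ A = ∅ ∨ par F ∩ B = ∅) : ε ^ vl A B F ≤ ε := by
  have h1 := pow_le_pow_of_le_one hε hε1 (prd_vl_left h)
  rwa [pow_one] at h1

theorem prd {A B : Finset ι} {g : Finset (Sym2 ι)}
    {s : Finset (Sym2 ι) → ℂ} {ε : ℝ} (hε : 0 ≤ ε) (hε1 : ε ≤ 1)
    (hs : ∀ F ⊆ g, F.Nonempty → ‖s F‖ ≤ (1 / 2) ^ (g.card + 2) * ε ^ vl A B F) {n : ℕ}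
    (ξ : Fin n → ι → ZMod 2)
    (hp : ∀ u ∈ vs g, ∀ v ∈ vs g, u ∉ A ∪ B → v ∉ A ∪ B → u ≠ v →
      |∑ i, sg (ξ i u) * sg (ξ i v)| ≤ 2 * ε * n) :
    ∏ i, (‖1 + Pl A B g s (ξ i)‖ + ε ^ 2) ≤ Real.exp (5 * ε ^ 2 * n) := by
  classical
  set r : ℝ := (1 / 2) ^ (g.card + 2) with hr
  have hr0 : 0 ≤ r := by positivity
  have hc : ((g.powerset.card : ℕ) : ℝ) * r ≤ 1 / 4 := by
    rw [card_powerset, hr, pow_add]
    push_cast
    rw [← mul_assoc, ← mul_pow]
    norm_num
  have hP : ∀ i, ‖Pl A B g s (ξ i)‖ ≤ ε / 4 := by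
    intro i
    unfold Pl
    calc _ ≤ ∑ F ∈ g.powerset.filter (fun F => F.Nonempty ∧ par F ∩ A = ∅ ∧ par F ∩ B = ∅),
          r * ε := by
          refine (norm_sum_le _ _).trans (sum_le_sum fun F hF => ?_)
          obtain ⟨h1, h2, h3, h4⟩ := mem_filter.1 hF
          rw [norm_mul, Complex.norm_real, Real.norm_eq_abs, prd_chp_abs, mul_one]
          exact (hs F (mem_powerset.1 h1) h2).trans
            (mul_le_mul_of_nonneg_left (prd_pow_vl_le hε hε1 (Or.inl h3)) hr0)
      _ ≤ ∑ F ∈ g.powerset, r * ε :=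
          sum_le_sum_of_subset_of_nonneg (filter_subset _ _) fun _ _ _ => mul_nonneg hr0 hε
      _ = (g.powerset.card : ℝ) * r * ε := by
          rw [sum_const, nsmul_eq_mul]
          ring
      _ ≤ 1 / 4 * ε := mul_le_mul_of_nonneg_right hc hε
      _ = ε / 4 := by ring
  have h1 : ∀ i, ‖1 + Pl A B g s (ξ i)‖ + ε ^ 2 ≤
      Real.exp ((Pl A B g s (ξ i)).re + 2 * ε ^ 2) := by
    intro i
    set p := Pl A B g s (ξ i) with hp'
    have h1 : ‖1 + p‖ ^ 2 = 1 + ‖p‖ ^ 2 + 2 * p.re := by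
      rw [← Complex.normSq_eq_norm_sq, Complex.normSq_add, Complex.normSq_eq_norm_sq,
        Complex.normSq_eq_norm_sq, norm_one, one_pow]
      congr 2
      simp only [Complex.mul_re, Complex.one_re, Complex.one_im, Complex.conj_re,
        Complex.conj_im]
      ring
    have h2 : ‖1 + p‖ ≤ (1 + ‖1 + p‖ ^ 2) / 2 := by nlinarith [sq_nonneg (1 - ‖1 + p‖)]
    have h3 : ‖p‖ ^ 2 ≤ (ε / 4) ^ 2 := pow_le_pow_left₀ (norm_nonneg _) (hP i) 2
    have h4 : ‖1 + p‖ + ε ^ 2 ≤ p.re + 2 * ε ^ 2 + 1 := by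
      rw [h1] at h2
      nlinarith [sq_nonneg ε]
    exact h4.trans (Real.add_one_le_exp _)
  have h2 : ∏ i, (‖1 + Pl A B g s (ξ i)‖ + ε ^ 2) ≤
      ∏ i, Real.exp ((Pl A B g s (ξ i)).re + 2 * ε ^ 2) :=
    prod_le_prod (fun i _ => by positivity) fun i _ => h1 i
  refine h2.trans ?_
  rw [← Real.exp_sum]
  refine Real.exp_le_exp.2 ?_
  rw [sum_add_distrib, sum_const, card_univ, Fintype.card_fin, nsmul_eq_mul, ← Complex.re_sum]
  have h3 : (∑ i, Pl A B g s (ξ i)).re ≤ ε ^ 2 * n / 2 := by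
    refine (Complex.re_le_norm _).trans ?_
    have e1 : ∑ i, Pl A B g s (ξ i) =
        ∑ F ∈ g.powerset.filter (fun F => F.Nonempty ∧ par F ∩ A = ∅ ∧ par F ∩ B = ∅),
          s F * ((∑ i, chp (par F) (ξ i) : ℝ) : ℂ) := by
      unfold Pl
      rw [sum_comm]
      refine sum_congr rfl fun F _ => ?_
      push_cast
      rw [mul_sum]
    rw [e1]
    calc _ ≤ ∑ F ∈ g.powerset.filter (fun F => F.Nonempty ∧ par F ∩ A = ∅ ∧ par F ∩ B = ∅),
          r * (2 * ε ^ 2 * n) := by
          refine (norm_sum_le _ _).trans (sum_le_sum fun F hF => ?_)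
          obtain ⟨h4, h5, h6, h7⟩ := mem_filter.1 hF
          have h4' := mem_powerset.1 h4
          have hsF := hs F h4' h5
          rw [norm_mul, Complex.norm_real, Real.norm_eq_abs]
          by_cases h8 : (par F).card = 2
          · obtain ⟨u, v, huv, hpar⟩ := card_eq_two.1 h8
            have hvl : vl A B F = 1 := by
              unfold vl
              rw [if_pos ⟨h6, h7, h8⟩]
            rw [hvl, pow_one] at hsF
            have hu : u ∈ par F := by
              rw [hpar]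
              exact mem_insert_self _ _
            have hv : v ∈ par F := by
              rw [hpar]
              exact mem_insert_of_mem (mem_singleton_self _)
            have hsub : ∀ w ∈ par F, w ∈ vs g ∧ w ∉ A ∪ B := by
              intro w hw
              refine ⟨?_, ?_⟩
              · have hw' := (mem_filter.1 (show w ∈ (vs F).filter _ from hw)).1
                unfold vs at hw' ⊢
                exact biUnion_subset_biUnion_of_subset_left _ h4' hw'
              · intro h9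
                rcases mem_union.1 h9 with h9 | h9
                · have : w ∈ par F ∩ A := mem_inter.2 ⟨hw, h9⟩
                  rw [h6] at this
                  exact notMem_empty _ this
                · have : w ∈ par F ∩ B := mem_inter.2 ⟨hw, h9⟩
                  rw [h7] at this
                  exact notMem_empty _ this
            have hq := hp u (hsub u hu).1 v (hsub v hv).1 (hsub u hu).2 (hsub v hv).2 huv
            have e2 : ∑ i, chp (par F) (ξ i) = ∑ i, sg (ξ i u) * sg (ξ i v) := by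
              refine sum_congr rfl fun i _ => ?_
              unfold chp
              rw [hpar, prod_pair huv]
            rw [e2]
            calc ‖s F‖ * |∑ i, sg (ξ i u) * sg (ξ i v)| ≤ (r * ε) * (2 * ε * n) :=
                  mul_le_mul hsF hq (abs_nonneg _) (mul_nonneg hr0 hε)
              _ = r * (2 * ε ^ 2 * n) := by ring
          · have hvl : vl A B F = 2 := by
              unfold vl
              rw [if_neg (fun h => h8 h.2.2), if_pos h6, if_pos h7]
            rw [hvl] at hsF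
            have hq : |∑ i, chp (par F) (ξ i)| ≤ n := by
              refine (abs_sum_le_sum_abs _ _).trans ?_
              rw [sum_congr rfl fun i _ => prd_chp_abs (par F) (ξ i), sum_const, card_univ,
                Fintype.card_fin, nsmul_eq_mul, mul_one]
            calc ‖s F‖ * |∑ i, chp (par F) (ξ i)| ≤ (r * ε ^ 2) * n :=
                  mul_le_mul hsF hq (abs_nonneg _) (mul_nonneg hr0 (sq_nonneg _))
              _ ≤ r * (2 * ε ^ 2 * n) := by
                  have : 0 ≤ r * ε ^ 2 * n := by positivity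
                  linarith
      _ ≤ ∑ F ∈ g.powerset, r * (2 * ε ^ 2 * n) :=
          sum_le_sum_of_subset_of_nonneg (filter_subset _ _) fun _ _ _ => by positivity
      _ = (g.powerset.card : ℝ) * r * (2 * ε ^ 2 * n) := by
          rw [sum_const, nsmul_eq_mul]
          ring
      _ ≤ 1 / 4 * (2 * ε ^ 2 * n) := mul_le_mul_of_nonneg_right hc (by positivity)
      _ = ε ^ 2 * n / 2 := by ring
  have h4 : 0 ≤ ε ^ 2 * n := by positivity
  linarith

end Pool.Agent.Lib.MP_0430e4_lc.L3
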