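import Pool.Agent.Lib.MP_0430e4_lc.L3.PSE

/-!
# PSK: positive semidefiniteness from the kernels

PROOF. Compare `Las.momPos`, `L2.momPos_graph`. Let `u = M / N`, replace `f` by its restriction to `|A| ≤ t`, `S = Sn w u f`; `S J = 0` if `|J| > t` or `w J = 0` (heredity). Use `pse`. Only `I` with `w I ≠ 0` matter, and `A`, `B` with `w (I ∪ A) ≠ 0`, `w (I ∪ B) ≠ 0`.
The pairs `(∅, ∅)` give `S I ^ 2` (`kn_empty`), the pairs with exactly one empty set 0 (`kn_left`). For `a, b ≥ 1` the sum over `|A| = a`, `|B| = b` is at least `- R * (Y a + Y b) / 2`, `Y a = ∑ (|A| = a) u ^ a * S (I ∪ A) ^ 2`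
(`hK` with `P A = u^|A| S (I ∪ A)` if `|A| = a` and `A` is disjoint from `I`, `Las.abs_le_of_sq_le_mul`; `(N u) = M`). So the form is at least `∑ J, u^|J| S J ^ 2 * (1 / w J - t * R * ∑ (I ⊆ J, w I ≠ 0) 1 / w I) ≥ 0` (reindex `J = I ∪ A`, `Las.sum_disjoint`), as
`1 / w J ≥ 1 / c₂` and `t * R * 2 ^ t / c₁ ≤ 1 / c₂`.
-/

set_option autoImplicit false

namespace Pool.Agent.Lib.MP_0430e4_lc.L3

open Finset
open Las (small MomPos)

variable {V : Type*} [Fintype V] [DecidableEq V]

omit [Fintype V] in
theorem psk_moebius (h : Finset V → ℝ) (A : Finset V) :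
    ∑ A₁ ∈ A.powerset, ∑ A' ∈ A₁.powerset, (-1) ^ (A₁ \ A').card * h A' = h A := by
  have h1 : ∑ A₁ ∈ A.powerset, ∑ A' ∈ A₁.powerset, (-1) ^ (A₁ \ A').card * h A' =
      ∑ A' ∈ A.powerset, ∑ D ∈ (A \ A').powerset, (-1) ^ D.card * h A' := by
    rw [sum_sigma', sum_sigma']
    refine sum_nbij' (fun x => ⟨x.2, x.1 \ x.2⟩) (fun x => ⟨x.1 ∪ x.2, x.1⟩) ?_ ?_ ?_ ?_ ?_
    · rintro ⟨A₁, A'⟩ hx
      simp only [mem_sigma, mem_powerset] at hx ⊢
      exact ⟨hx.2.trans hx.1, sdiff_subset_sdiff hx.1 subset_rfl⟩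
    · rintro ⟨A', D⟩ hx
      simp only [mem_sigma, mem_powerset] at hx ⊢
      exact ⟨union_subset hx.1 (hx.2.trans sdiff_subset), subset_union_left⟩
    · rintro ⟨A₁, A'⟩ hx
      simp only [mem_sigma, mem_powerset] at hx
      simp only [union_sdiff_of_subset hx.2]
    · rintro ⟨A', D⟩ hx
      simp only [mem_sigma, mem_powerset] at hx
      have : Disjoint A' D := disjoint_of_subset_right hx.2 disjoint_sdiff
      simp only [union_sdiff_cancel_left this]
    · rintro ⟨A₁, A'⟩ _
      rfl
  rw [h1]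
  have h2 : ∀ A' ∈ A.powerset, ∑ D ∈ (A \ A').powerset, (-1 : ℝ) ^ D.card * h A' =
      if A' = A then h A else 0 := by
    intro A' hA'
    rw [← sum_mul]
    have h3 := Finset.sum_powerset_neg_one_pow_card (x := A \ A')
    have h4 : ∑ D ∈ (A \ A').powerset, (-1 : ℝ) ^ D.card = if A \ A' = ∅ then 1 else 0 := by
      have := congrArg (fun z : ℤ => (z : ℝ)) h3
      push_cast at this
      rw [this]
    rw [h4]
    by_cases hh : A' = A
    · rw [if_pos hh, hh, sdiff_self]
      simp
    · rw [if_neg hh, if_neg, zero_mul]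
      intro h5
      exact hh (subset_antisymm (mem_powerset.1 hA') (sdiff_eq_empty_iff_subset.1 h5))
  rw [sum_congr rfl h2, sum_ite_eq', if_pos (mem_powerset_self A)]

omit [Fintype V] in
theorem psk_kn_sum (W : Finset V → ℝ) (I A B : Finset V) :
    ∑ A₁ ∈ A.powerset, ∑ B₁ ∈ B.powerset, Kn W I A₁ B₁ = Cn W I A B := by
  have h1 : ∀ A₁ : Finset V, ∑ B₁ ∈ B.powerset, Kn W I A₁ B₁ =
      ∑ A' ∈ A₁.powerset, (-1) ^ (A₁ \ A').card * Cn W I A' B := by
    intro A₁
    unfold Kn
    rw [sum_comm]
    refine sum_congr rfl fun A' _ => ?_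
    have := psk_moebius (fun B' => (-1 : ℝ) ^ (A₁ \ A').card * Cn W I A' B') B
    rw [← this]
    refine sum_congr rfl fun B₁ _ => sum_congr rfl fun B' _ => ?_
    ring
  rw [sum_congr rfl fun A₁ _ => h1 A₁]
  exact psk_moebius (fun A' => Cn W I A' B) A

omit [Fintype V] in
theorem psk_kn_empty_left (W : Finset V → ℝ) {I : Finset V} (B : Finset V)
    (hI : W I ≠ 0) (hB : ∀ B' ⊆ B, W (I ∪ B') ≠ 0) :
    Kn W I ∅ B = if B = ∅ then 1 else 0 := by
  unfold Kn
  rw [powerset_empty, sum_singleton]
  have h1 : ∀ B' ∈ B.powerset, (-1 : ℝ) ^ (((∅ : Finset V) \ ∅).card + (B \ B').card) *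
      Cn W I ∅ B' = (-1) ^ (B \ B').card := by
    intro B' hB'
    unfold Cn
    rw [if_pos (disjoint_empty_left _), union_empty, sdiff_self]
    have h2 := hB B' (mem_powerset.1 hB')
    rw [show W (I ∪ B') * W I / (W I * W (I ∪ B')) = 1 by field_simp]
    simp
  rw [sum_congr rfl h1]
  have h2 : ∑ B' ∈ B.powerset, (-1 : ℝ) ^ (B \ B').card = ∑ D ∈ B.powerset, (-1 : ℝ) ^ D.card := by
    refine sum_nbij' (fun D => B \ D) (fun D => B \ D) ?_ ?_ ?_ ?_ ?_
    · intro D _
      exact mem_powerset.2 sdiff_subset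
    · intro D _
      exact mem_powerset.2 sdiff_subset
    · intro D hD
      exact Finset.sdiff_sdiff_eq_self (mem_powerset.1 hD)
    · intro D hD
      exact Finset.sdiff_sdiff_eq_self (mem_powerset.1 hD)
    · intro D _
      rfl
  rw [h2]
  have h3 := Finset.sum_powerset_neg_one_pow_card (x := B)
  have := congrArg (fun z : ℤ => (z : ℝ)) h3
  push_cast at this
  rw [this]

omit [Fintype V] in
theorem psk_kn_symm (W : Finset V → ℝ) (I A B : Finset V) : Kn W I A B = Kn W I B A := by
  unfold Kn
  rw [sum_comm]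
  refine sum_congr rfl fun B' _ => sum_congr rfl fun A' _ => ?_
  have : Cn W I A' B' = Cn W I B' A' := by
    unfold Cn
    by_cases h : Disjoint A' B'
    · rw [if_pos h, if_pos h.symm, union_assoc, union_comm A' B', ← union_assoc,
        mul_comm (W (I ∪ A'))]
    · rw [if_neg h, if_neg (fun hh => h hh.symm)]
  rw [this]
  ring

/-- The function `f W` restricted to good small sets. -/
noncomputable def pskG (good : Finset V → Prop) (W : Finset V → ℝ) (t : ℕ) (f : Finset V → ℝ)
    (A : Finset V) : ℝ := by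
  classical exact if good A ∧ A.card ≤ t then f A * W A else 0

/-- The conditional sums. -/
noncomputable def pskS (good : Finset V → Prop) (W : Finset V → ℝ) (t : ℕ) (u : ℝ)
    (f : Finset V → ℝ) (J : Finset V) : ℝ :=
  ∑ A ∈ univ.filter (fun A : Finset V => J ⊆ A), u ^ (A.card - J.card) * pskG good W t f A

theorem pskS_zero {good : Finset V → Prop} (hher : ∀ S T : Finset V, T ⊆ S → good S → good T)
    (W : Finset V → ℝ) (t : ℕ) (u : ℝ) (f : Finset V → ℝ) {J : Finset V}
    (hJ : ¬ (good J ∧ J.card ≤ t)) : pskS good W t u f J = 0 := by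
  unfold pskS
  refine sum_eq_zero fun A hA => ?_
  unfold pskG
  rw [if_neg, mul_zero]
  rintro ⟨h1, h2⟩
  have hJA := (mem_filter.1 hA).2
  exact hJ ⟨hher A J hJA h1, (card_le_card hJA).trans h2⟩

theorem pskS_shift (good : Finset V → Prop) (W : Finset V → ℝ) (t : ℕ) (u : ℝ)
    (f : Finset V → ℝ) {I A₁ : Finset V} (hI : Disjoint I A₁) :
    u ^ A₁.card * pskS good W t u f (I ∪ A₁) =
      ∑ A ∈ univ.filter (fun A : Finset V => I ⊆ A ∧ A₁ ⊆ A \ I),
        u ^ (A.card - I.card) * pskG good W t f A := by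
  unfold pskS
  rw [mul_sum]
  refine sum_congr ?_ fun A hA => ?_
  · ext A
    simp only [mem_filter, mem_univ, true_and]
    rw [union_subset_iff]
    refine and_congr_right fun _ => ?_
    constructor
    · intro h x hx
      exact mem_sdiff.2 ⟨h hx, fun hxI => disjoint_left.1 hI hxI hx⟩
    · intro h
      exact h.trans sdiff_subset
  · have hA' := (mem_filter.1 hA).2
    have h1 : (I ∪ A₁).card = I.card + A₁.card := card_union_of_disjoint hI
    have h2 : (I ∪ A₁).card ≤ A.card := card_le_card (union_subset hA'.1 (hA'.2.trans sdiff_subset))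
    rw [← mul_assoc, ← pow_add]
    congr 2
    omega

/-- The main identity. -/
theorem psk_identity {good : Finset V → Prop} [DecidablePred good]
    (hher : ∀ S T : Finset V, T ⊆ S → good S → good T)
    {W : Finset V → ℝ} (hW0 : ∀ S, ¬ good S → W S = 0) {t : ℕ}
    (hW1 : ∀ S, good S → S.card ≤ t → W S ≠ 0) (u : ℝ) (f : Finset V → ℝ) :
    ∑ A ∈ small V t, ∑ B ∈ small V t, f A * f B * (u ^ (A ∪ B).card * W (A ∪ B)) =
      ∑ I ∈ univ.filter good, u ^ I.card / W I *
        ∑ A₁ ∈ univ.filter (fun A : Finset V => Disjoint I A),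
          ∑ B₁ ∈ univ.filter (fun B : Finset V => Disjoint I B),
            Kn W I A₁ B₁ * (u ^ A₁.card * pskS good W t u f (I ∪ A₁)) *
              (u ^ B₁.card * pskS good W t u f (I ∪ B₁)) := by
  classical
  -- the inner sums
  have h1 : ∀ I : Finset V, ∑ A₁ ∈ univ.filter (fun A : Finset V => Disjoint I A),
          ∑ B₁ ∈ univ.filter (fun B : Finset V => Disjoint I B),
            Kn W I A₁ B₁ * (u ^ A₁.card * pskS good W t u f (I ∪ A₁)) *
              (u ^ B₁.card * pskS good W t u f (I ∪ B₁)) =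
      ∑ A ∈ univ.filter (fun A : Finset V => I ⊆ A), ∑ B ∈ univ.filter (fun B : Finset V => I ⊆ B),
        (u ^ (A.card - I.card) * pskG good W t f A) * (u ^ (B.card - I.card) * pskG good W t f B) *
          Cn W I (A \ I) (B \ I) := by
    intro I
    have e1 : ∀ A₁ ∈ univ.filter (fun A : Finset V => Disjoint I A),
        ∀ B₁ ∈ univ.filter (fun B : Finset V => Disjoint I B),
        Kn W I A₁ B₁ * (u ^ A₁.card * pskS good W t u f (I ∪ A₁)) *
              (u ^ B₁.card * pskS good W t u f (I ∪ B₁)) =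
        ∑ A, ∑ B, if (I ⊆ A ∧ A₁ ⊆ A \ I) ∧ (I ⊆ B ∧ B₁ ⊆ B \ I) then
          (u ^ (A.card - I.card) * pskG good W t f A) * (u ^ (B.card - I.card) * pskG good W t f B) *
            Kn W I A₁ B₁ else 0 := by
      intro A₁ hA₁ B₁ hB₁
      rw [pskS_shift good W t u f (mem_filter.1 hA₁).2, pskS_shift good W t u f (mem_filter.1 hB₁).2,
        mul_assoc, sum_mul_sum, mul_sum, sum_filter]
      refine sum_congr rfl fun A _ => ?_
      split_ifs with hA
      · rw [mul_sum, sum_filter]
        refine sum_congr rfl fun B _ => ?_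
        by_cases hB : I ⊆ B ∧ B₁ ⊆ B \ I
        · rw [if_pos hB, if_pos ⟨hA, hB⟩]
          ring
        · rw [if_neg hB, if_neg fun h => hB h.2]
      · rw [sum_eq_zero]
        intro B _
        rw [if_neg fun h => hA h.1]
    rw [sum_congr rfl fun A₁ hA₁ => sum_congr rfl fun B₁ hB₁ => e1 A₁ hA₁ B₁ hB₁]
    -- exchange
    rw [sum_congr rfl fun A₁ _ => sum_comm, sum_comm]
    rw [sum_filter]
    refine sum_congr rfl fun A _ => ?_
    rw [sum_congr rfl fun A₁ _ => sum_comm, sum_comm]
    split_ifs with hA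
    · rw [sum_filter]
      refine sum_congr rfl fun B _ => ?_
      split_ifs with hB
      · rw [← psk_kn_sum, mul_sum]
        have hs : ∀ X : Finset V, (X \ I).powerset =
            (univ.filter (fun A : Finset V => Disjoint I A)).filter fun A₁ => A₁ ⊆ X \ I := by
          intro X
          ext A₁
          simp only [mem_powerset, mem_filter, mem_univ, true_and]
          constructor
          · intro h
            exact ⟨disjoint_of_subset_right h disjoint_sdiff, h⟩
          · exact fun h => h.2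
        rw [hs A, sum_filter (fun A₁ => A₁ ⊆ A \ I)]
        refine sum_congr rfl fun A₁ _ => ?_
        split_ifs with hA₁
        · rw [mul_sum, hs B, sum_filter (fun B₁ => B₁ ⊆ B \ I)]
          refine sum_congr rfl fun B₁ _ => ?_
          by_cases hB₁ : B₁ ⊆ B \ I
          · rw [if_pos hB₁, if_pos ⟨⟨hA, hA₁⟩, hB, hB₁⟩]
          · rw [if_neg hB₁, if_neg fun h => hB₁ h.2.2]
        · refine sum_eq_zero fun B₁ _ => ?_
          rw [if_neg fun h => hA₁ h.1.2]
      · refine sum_eq_zero fun A₁ _ => sum_eq_zero fun B₁ _ => ?_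
        rw [if_neg fun h => hB h.2.1]
    · refine sum_eq_zero fun B _ => sum_eq_zero fun A₁ _ => sum_eq_zero fun B₁ _ => ?_
      rw [if_neg fun h => hA h.1.1]
  have h3 : ∑ I ∈ univ.filter good, u ^ I.card / W I *
        ∑ A₁ ∈ univ.filter (fun A : Finset V => Disjoint I A),
          ∑ B₁ ∈ univ.filter (fun B : Finset V => Disjoint I B),
            Kn W I A₁ B₁ * (u ^ A₁.card * pskS good W t u f (I ∪ A₁)) *
              (u ^ B₁.card * pskS good W t u f (I ∪ B₁)) =
      ∑ I ∈ univ.filter good, u ^ I.card / W I *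
      ∑ A ∈ univ.filter (fun A : Finset V => I ⊆ A), ∑ B ∈ univ.filter (fun B : Finset V => I ⊆ B),
        (u ^ (A.card - I.card) * pskG good W t f A) * (u ^ (B.card - I.card) * pskG good W t f B) *
          Cn W I (A \ I) (B \ I) := sum_congr rfl fun I _ => by rw [h1 I]
  rw [h3]
  -- exchange the sums over `I` and `A`, `B`
  have h2 : ∑ I ∈ univ.filter good, u ^ I.card / W I *
      ∑ A ∈ univ.filter (fun A : Finset V => I ⊆ A), ∑ B ∈ univ.filter (fun B : Finset V => I ⊆ B),
        (u ^ (A.card - I.card) * pskG good W t f A) * (u ^ (B.card - I.card) * pskG good W t f B) *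
          Cn W I (A \ I) (B \ I) =
      ∑ A, ∑ B, ∑ I ∈ univ.filter good, if I ⊆ A ∧ I ⊆ B then u ^ I.card / W I *
        ((u ^ (A.card - I.card) * pskG good W t f A) * (u ^ (B.card - I.card) * pskG good W t f B) *
          Cn W I (A \ I) (B \ I)) else 0 := by
    rw [sum_congr rfl fun A _ => sum_comm, sum_comm]
    refine sum_congr rfl fun I _ => ?_
    rw [mul_sum, sum_filter]
    refine sum_congr rfl fun A _ => ?_
    split_ifs with hA
    · rw [mul_sum, sum_filter]
      refine sum_congr rfl fun B _ => ?_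
      by_cases hB : I ⊆ B
      · rw [if_pos hB, if_pos ⟨hA, hB⟩]
      · rw [if_neg hB, if_neg fun h => hB h.2]
    · rw [sum_eq_zero]
      intro B _
      rw [if_neg fun h => hA h.1]
  rw [h2]
  unfold small
  rw [sum_filter]
  refine sum_congr rfl fun A _ => ?_
  split_ifs with hA
  · rw [sum_filter]
    refine sum_congr rfl fun B _ => ?_
    split_ifs with hB
    · by_cases hgA : good A
      · by_cases hgB : good B
        · have hgI : good (A ∩ B) := hher A _ inter_subset_left hgA
          have hz : ∀ I ∈ univ.filter good, I ≠ A ∩ B → (if I ⊆ A ∧ I ⊆ B then u ^ I.card / W I *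
              ((u ^ (A.card - I.card) * pskG good W t f A) *
                (u ^ (B.card - I.card) * pskG good W t f B) *
                Cn W I (A \ I) (B \ I)) else 0) = 0 := by
            intro I _ hI
            split_ifs with h
            · have hnd : ¬ Disjoint (A \ I) (B \ I) := by
                intro hd
                apply hI
                refine subset_antisymm (subset_inter h.1 h.2) fun x hx => ?_
                by_contra hxI
                exact disjoint_left.1 hd (mem_sdiff.2 ⟨(mem_inter.1 hx).1, hxI⟩)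
                  (mem_sdiff.2 ⟨(mem_inter.1 hx).2, hxI⟩)
              unfold Cn
              rw [if_neg hnd]
              ring
            · rfl
          rw [sum_eq_single (A ∩ B) hz (fun h => absurd (mem_filter.2 ⟨mem_univ _, hgI⟩) h),
            if_pos ⟨inter_subset_left, inter_subset_right⟩]
          have hd : Disjoint (A \ (A ∩ B)) (B \ (A ∩ B)) := by
            rw [disjoint_left]
            intro x hx hx'
            rw [mem_sdiff] at hx hx'
            exact hx.2 (mem_inter.2 ⟨hx.1, hx'.1⟩)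
          have e1 : A ∩ B ∪ A \ (A ∩ B) = A := by
            rw [union_sdiff_of_subset inter_subset_left]
          have e2 : A ∩ B ∪ B \ (A ∩ B) = B := by
            rw [union_sdiff_of_subset inter_subset_right]
          have e3 : A ∩ B ∪ A \ (A ∩ B) ∪ B \ (A ∩ B) = A ∪ B := by
            rw [e1]
            ext x
            simp only [mem_union, mem_sdiff, mem_inter]
            tauto
          unfold Cn pskG
          rw [if_pos hd, e3, e1, e2, if_pos ⟨hgA, hA⟩, if_pos ⟨hgB, hB⟩]
          have w1 := hW1 A hgA hA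
          have w2 := hW1 B hgB hB
          have w3 := hW1 _ hgI ((card_le_card inter_subset_left).trans hA)
          have hc : (A ∪ B).card = (A ∩ B).card + (A.card - (A ∩ B).card) +
              (B.card - (A ∩ B).card) := by
            have c1 := card_union_add_card_inter A B
            have c2 := card_le_card (inter_subset_left (s₁ := A) (s₂ := B))
            have c3 := card_le_card (inter_subset_right (s₁ := A) (s₂ := B))
            omega
          rw [hc, pow_add, pow_add]
          field_simp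
        · have hU : ¬ good (A ∪ B) := fun h => hgB (hher _ _ subset_union_right h)
          rw [hW0 _ hU, mul_zero, mul_zero]
          symm
          refine sum_eq_zero fun I _ => ?_
          split_ifs
          · unfold pskG
            rw [if_neg (fun h : good B ∧ _ => hgB h.1)]
            ring
          · rfl
      · have hU : ¬ good (A ∪ B) := fun h => hgA (hher _ _ subset_union_left h)
        rw [hW0 _ hU, mul_zero, mul_zero]
        symm
        refine sum_eq_zero fun I _ => ?_
        split_ifs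
        · unfold pskG
          rw [if_neg (fun h : good A ∧ _ => hgA h.1)]
          ring
        · rfl
    · symm
      refine sum_eq_zero fun I _ => ?_
      split_ifs
      · unfold pskG
        rw [if_neg (fun h : good B ∧ _ => hB h.2)]
        ring
      · rfl
  · symm
    refine sum_eq_zero fun B _ => sum_eq_zero fun I _ => ?_
    split_ifs
    · unfold pskG
      rw [if_neg (fun h : good A ∧ _ => hA h.2)]
      ring
    · rfl

/-- The sets `A` of size `a`, disjoint from `I`, with `I ∪ A` good. -/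
def pskT (good : Finset V → Prop) [DecidablePred good] (I : Finset V) (a : ℕ) : Finset (Finset V) :=
  univ.filter fun A => Disjoint I A ∧ A.card = a ∧ good (I ∪ A)

theorem psk_m_split {good : Finset V → Prop} [DecidablePred good] {t : ℕ} {I : Finset V}
    (F : Finset V → ℝ) (hF : ∀ A, ¬ (good (I ∪ A) ∧ (I ∪ A).card ≤ t) → F A = 0) :
    ∑ A ∈ univ.filter (fun A : Finset V => Disjoint I A), F A =
      F ∅ + ∑ a ∈ Icc 1 t, ∑ A ∈ pskT good I a, F A := by
  have h0 : (∅ : Finset V) ∈ univ.filter (fun A : Finset V => Disjoint I A) :=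
    mem_filter.2 ⟨mem_univ _, disjoint_empty_right _⟩
  rw [← add_sum_erase _ _ h0]
  congr 1
  have h1 : ∑ A ∈ (univ.filter (fun A : Finset V => Disjoint I A)).erase ∅, F A =
      ∑ A ∈ univ.filter (fun A : Finset V => Disjoint I A ∧ good (I ∪ A) ∧ A.card ∈ Icc 1 t),
        F A := by
    symm
    refine sum_subset ?_ ?_
    · intro A hA
      obtain ⟨h1, _, h3⟩ := (mem_filter.1 hA).2
      refine mem_erase.2 ⟨?_, mem_filter.2 ⟨mem_univ _, h1⟩⟩
      rintro rfl
      simp at h3
    · intro A hA hA'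
      obtain ⟨h1, h2⟩ := mem_erase.1 hA
      have h3 := (mem_filter.1 h2).2
      refine hF A ?_
      rintro ⟨h4, h5⟩
      apply hA'
      refine mem_filter.2 ⟨mem_univ _, h3, h4, ?_⟩
      rw [card_union_of_disjoint h3] at h5
      have h6 : 0 < A.card := card_pos.2 (nonempty_iff_ne_empty.2 h1)
      rw [mem_Icc]
      omega
  rw [h1, ← sum_fiberwise_of_maps_to (s := univ.filter (fun A : Finset V => Disjoint I A ∧
    good (I ∪ A) ∧ A.card ∈ Icc 1 t)) (t := Icc 1 t) (g := card)
    (fun A hA => (mem_filter.1 hA).2.2.2)]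
  refine sum_congr rfl fun a ha => ?_
  refine sum_congr ?_ fun _ _ => rfl
  unfold pskT
  ext A
  simp only [mem_filter, mem_univ, true_and]
  constructor
  · rintro ⟨⟨h1, h2, _⟩, h4⟩
    exact ⟨h1, h4, h2⟩
  · rintro ⟨h1, h2, h3⟩
    exact ⟨⟨h1, h3, h2 ▸ ha⟩, h2⟩

theorem psk_m_inner {good : Finset V → Prop} [DecidablePred good]
    (hher : ∀ S T : Finset V, T ⊆ S → good S → good T)
    {W : Finset V → ℝ} {t : ℕ} (hW1 : ∀ S, good S → S.card ≤ t → W S ≠ 0)
    {N M R : ℝ} (hN : 0 < N) (hM : 0 < M) (hR : 0 ≤ R) {I : Finset V} (hI : good I)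
    (hIt : I.card ≤ t)
    (hK : ∀ a b, 1 ≤ a → 1 ≤ b → I.card + a ≤ t → I.card + b ≤ t →
      ∀ p q : Finset V → ℝ, |∑ A ∈ pskT good I a, ∑ B ∈ pskT good I b, Kn W I A B * p A * q B| ≤
        R * Real.sqrt ((N / M) ^ a * ∑ A ∈ pskT good I a, p A ^ 2) *
          Real.sqrt ((N / M) ^ b * ∑ B ∈ pskT good I b, q B ^ 2)) (f : Finset V → ℝ) :
    pskS good W t (M / N) f I ^ 2 - R * t *
        ∑ A ∈ univ.filter (fun A : Finset V => Disjoint I A),
          (M / N) ^ A.card * pskS good W t (M / N) f (I ∪ A) ^ 2 ≤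
      ∑ A₁ ∈ univ.filter (fun A : Finset V => Disjoint I A),
          ∑ B₁ ∈ univ.filter (fun B : Finset V => Disjoint I B),
            Kn W I A₁ B₁ * ((M / N) ^ A₁.card * pskS good W t (M / N) f (I ∪ A₁)) *
              ((M / N) ^ B₁.card * pskS good W t (M / N) f (I ∪ B₁)) := by
  set u : ℝ := M / N with hu
  have hu0 : 0 < u := by positivity
  set x : Finset V → ℝ := fun A => u ^ A.card * pskS good W t u f (I ∪ A) with hx
  have hx0 : ∀ A, ¬ (good (I ∪ A) ∧ (I ∪ A).card ≤ t) → x A = 0 := by
    intro A hA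
    rw [hx]
    simp only
    rw [pskS_zero hher W t u f hA, mul_zero]
  have e1 : ∑ A₁ ∈ univ.filter (fun A : Finset V => Disjoint I A),
          ∑ B₁ ∈ univ.filter (fun B : Finset V => Disjoint I B), Kn W I A₁ B₁ * x A₁ * x B₁ =
      pskS good W t u f I ^ 2 + ∑ a ∈ Icc 1 t, ∑ b ∈ Icc 1 t,
        ∑ A ∈ pskT good I a, ∑ B ∈ pskT good I b, Kn W I A B * x A * x B := by
    rw [psk_m_split (t := t) (good := good) (I := I) (fun A₁ => ∑ B₁ ∈ univ.filter
      (fun B : Finset V => Disjoint I B), Kn W I A₁ B₁ * x A₁ * x B₁) (fun A hA => by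
        simp only [hx0 A hA, mul_zero, zero_mul, sum_const_zero])]
    have hxe : x ∅ = pskS good W t u f I := by
      rw [hx]
      simp
    have hKe : ∀ B, good (I ∪ B) → (I ∪ B).card ≤ t → Kn W I ∅ B = if B = ∅ then 1 else 0 := by
      intro B h1 h2
      refine psk_kn_empty_left W B (hW1 I hI hIt) fun B' hB' => ?_
      have h3 : I ∪ B' ⊆ I ∪ B := union_subset_union_right hB'
      exact hW1 _ (hher _ _ h3 h1) ((card_le_card h3).trans h2)
    congr 1
    · rw [psk_m_split (t := t) (good := good) (I := I) (fun B₁ => Kn W I ∅ B₁ * x ∅ * x B₁)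
        (fun B hB => by simp only [hx0 B hB, mul_zero])]
      rw [hKe ∅ (by rwa [union_empty]) (by rwa [union_empty]), if_pos rfl, hxe, one_mul, ← sq]
      rw [add_eq_left]
      refine sum_eq_zero fun b hb => sum_eq_zero fun B hB => ?_
      by_cases hBt : (I ∪ B).card ≤ t
      · obtain ⟨_, h2, h3⟩ := (mem_filter.1 hB).2
        rw [hKe B h3 hBt, if_neg]
        · ring
        · rintro rfl
          rw [mem_Icc] at hb
          simp at h2
          omega
      · rw [hx0 B fun h => hBt h.2, mul_zero]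
    · refine sum_congr rfl fun a ha => ?_
      conv_rhs => rw [sum_comm]
      refine sum_congr rfl fun A hA => ?_
      rw [psk_m_split (t := t) (good := good) (I := I) (fun B₁ => Kn W I A B₁ * x A * x B₁)
        (fun B hB => by simp only [hx0 B hB, mul_zero])]
      rw [psk_kn_symm W I A ∅]
      by_cases hAt : (I ∪ A).card ≤ t
      · obtain ⟨_, h2, h3⟩ := (mem_filter.1 hA).2
        rw [hKe A h3 hAt, if_neg]
        · ring
        · rintro rfl
          rw [mem_Icc] at ha
          simp at h2
          omega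
      · rw [hx0 A fun h => hAt h.2]
        simp
  rw [e1]
  set Y : ℕ → ℝ := fun a => ∑ A ∈ pskT good I a, pskS good W t u f (I ∪ A) ^ 2 with hY
  have hY0 : ∀ a, 0 ≤ Y a := fun a => sum_nonneg fun _ _ => sq_nonneg _
  have hT : ∀ a ∈ Icc 1 t, ∀ b ∈ Icc 1 t,
      -(R * ((u ^ a * Y a + u ^ b * Y b) / 2)) ≤
        ∑ A ∈ pskT good I a, ∑ B ∈ pskT good I b, Kn W I A B * x A * x B := by
    intro a ha b hb
    rw [mem_Icc] at ha hb
    have hpos : 0 ≤ R * ((u ^ a * Y a + u ^ b * Y b) / 2) := by
      have := hY0 a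
      have := hY0 b
      positivity
    by_cases hat : I.card + a ≤ t
    · by_cases hbt : I.card + b ≤ t
      · have h1 := hK a b ha.1 hb.1 hat hbt x x
        have hs : ∀ c, (N / M) ^ c * ∑ A ∈ pskT good I c, x A ^ 2 = u ^ c * Y c := by
          intro c
          have e : ∀ A ∈ pskT good I c, x A ^ 2 = u ^ c * u ^ c * pskS good W t u f (I ∪ A) ^ 2 := by
            intro A hA
            rw [hx]
            simp only
            rw [((mem_filter.1 hA).2).2.1]
            ring
          rw [sum_congr rfl e, ← mul_sum, ← mul_assoc, ← mul_assoc, ← mul_pow]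
          have : N / M * u = 1 := by
            rw [hu]
            field_simp
          rw [this, one_pow, one_mul]
        rw [hs, hs] at h1
        have h2 : Real.sqrt (u ^ a * Y a) * Real.sqrt (u ^ b * Y b) ≤
            (u ^ a * Y a + u ^ b * Y b) / 2 := by
          have s1 := Real.sq_sqrt (mul_nonneg (pow_pos hu0 a).le (hY0 a))
          have s2 := Real.sq_sqrt (mul_nonneg (pow_pos hu0 b).le (hY0 b))
          nlinarith [sq_nonneg (Real.sqrt (u ^ a * Y a) - Real.sqrt (u ^ b * Y b))]
        have h3 := (abs_le.1 h1).1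
        have h4 := mul_le_mul_of_nonneg_left h2 hR
        rw [← mul_assoc] at h4
        linarith
      · have : ∑ A ∈ pskT good I a, ∑ B ∈ pskT good I b, Kn W I A B * x A * x B = 0 := by
          refine sum_eq_zero fun A _ => sum_eq_zero fun B hB => ?_
          obtain ⟨h1, h2, _⟩ := (mem_filter.1 hB).2
          rw [hx0 B, mul_zero]
          rintro ⟨_, h4⟩
          rw [card_union_of_disjoint h1, h2] at h4
          exact hbt h4
        rw [this]
        linarith
    · have : ∑ A ∈ pskT good I a, ∑ B ∈ pskT good I b, Kn W I A B * x A * x B = 0 := by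
        refine sum_eq_zero fun A hA => sum_eq_zero fun B _ => ?_
        obtain ⟨h1, h2, _⟩ := (mem_filter.1 hA).2
        rw [hx0 A, mul_zero, zero_mul]
        rintro ⟨_, h4⟩
        rw [card_union_of_disjoint h1, h2] at h4
        exact hat h4
      rw [this]
      linarith
  have hsum : -(R * t * ∑ a ∈ Icc 1 t, u ^ a * Y a) ≤ ∑ a ∈ Icc 1 t, ∑ b ∈ Icc 1 t,
      ∑ A ∈ pskT good I a, ∑ B ∈ pskT good I b, Kn W I A B * x A * x B := by
    refine le_trans (le_of_eq ?_) (sum_le_sum fun a ha => sum_le_sum fun b hb => hT a ha b hb)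
    have c1 : ((Icc 1 t).card : ℝ) = t := by
      rw [Nat.card_Icc]
      simp
    have h1 : ∀ a ∈ Icc 1 t, ∑ b ∈ Icc 1 t, -(R * ((u ^ a * Y a + u ^ b * Y b) / 2)) =
        -(R / 2) * (t * (u ^ a * Y a)) - R / 2 * ∑ b ∈ Icc 1 t, u ^ b * Y b := by
      intro a _
      have : ∀ b ∈ Icc 1 t, -(R * ((u ^ a * Y a + u ^ b * Y b) / 2)) =
          -(R / 2) * (u ^ a * Y a) - R / 2 * (u ^ b * Y b) := fun b _ => by ring
      rw [sum_congr rfl this, sum_sub_distrib, sum_const, nsmul_eq_mul, c1, ← mul_sum]
      ring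
    rw [sum_congr rfl h1, sum_sub_distrib, sum_const, nsmul_eq_mul, c1, ← mul_sum, ← mul_sum]
    ring
  have hD : ∑ a ∈ Icc 1 t, u ^ a * Y a ≤
      ∑ A ∈ univ.filter (fun A : Finset V => Disjoint I A),
        u ^ A.card * pskS good W t u f (I ∪ A) ^ 2 := by
    rw [psk_m_split (t := t) (good := good) (I := I)
      (fun A => u ^ A.card * pskS good W t u f (I ∪ A) ^ 2) (fun A hA => by
        simp only [pskS_zero hher W t u f hA]
        ring)]
    have h1 : ∀ a ∈ Icc 1 t, u ^ a * Y a =
        ∑ A ∈ pskT good I a, u ^ A.card * pskS good W t u f (I ∪ A) ^ 2 := by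
      intro a _
      rw [hY]
      simp only
      rw [mul_sum]
      refine sum_congr rfl fun A hA => ?_
      rw [((mem_filter.1 hA).2).2.1]
    rw [sum_congr rfl h1]
    have : 0 ≤ u ^ (∅ : Finset V).card * pskS good W t u f (I ∪ ∅) ^ 2 := by positivity
    linarith
  have h5 := mul_le_mul_of_nonneg_left hD (mul_nonneg hR (Nat.cast_nonneg t))
  linarith

/-- **The positivity criterion.** -/
theorem psk_kernel [Nonempty V] {good : Finset V → Prop} [DecidablePred good]
    (hher : ∀ S T : Finset V, T ⊆ S → good S → good T)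
    {W : Finset V → ℝ} (hW0 : ∀ S, ¬ good S → W S = 0) {t : ℕ} {w₀ w₁ M R : ℝ} (hw₀ : 0 < w₀)
    (hWl : ∀ S, good S → S.card ≤ t → w₀ ≤ W S) (hWu : ∀ S, good S → S.card ≤ t → W S ≤ w₁)
    (hM : 0 < M) (hR : 0 ≤ R)
    (hK : ∀ I a b, good I → 1 ≤ a → 1 ≤ b → I.card + a ≤ t → I.card + b ≤ t →
      ∀ p q : Finset V → ℝ, |∑ A ∈ pskT good I a, ∑ B ∈ pskT good I b, Kn W I A B * p A * q B| ≤
        R * Real.sqrt ((Fintype.card V / M) ^ a * ∑ A ∈ pskT good I a, p A ^ 2) *
          Real.sqrt ((Fintype.card V / M) ^ b * ∑ B ∈ pskT good I b, q B ^ 2))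
    (hfin : R * t * 2 ^ t * w₁ ≤ w₀) :
    MomPos t (fun S : Finset V => (M / Fintype.card V) ^ S.card * W S) := by
  classical
  intro f
  have hN : (0 : ℝ) < Fintype.card V := by exact_mod_cast Fintype.card_pos
  set N : ℝ := (Fintype.card V : ℝ) with hNd
  set u : ℝ := M / N with hu
  have hu0 : 0 < u := by positivity
  have hW1 : ∀ S, good S → S.card ≤ t → W S ≠ 0 := fun S h1 h2 =>
    (lt_of_lt_of_le hw₀ (hWl S h1 h2)).ne'
  rw [psk_identity hher hW0 hW1 u f]
  set E : Finset V → ℝ := fun J => u ^ J.card * pskS good W t u f J ^ 2 with hE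
  have hE0 : ∀ J, 0 ≤ E J := fun J => by
    rw [hE]
    positivity
  have hEz : ∀ J, ¬ (good J ∧ J.card ≤ t) → E J = 0 := fun J hJ => by
    rw [hE]
    simp only [pskS_zero hher W t u f hJ]
    ring
  -- the bound for one `I`
  have hb : ∀ I ∈ univ.filter good, E I / w₁ - R * t / w₀ *
      ∑ A ∈ univ.filter (fun A : Finset V => Disjoint I A), E (I ∪ A) ≤
      u ^ I.card / W I *
        ∑ A₁ ∈ univ.filter (fun A : Finset V => Disjoint I A),
          ∑ B₁ ∈ univ.filter (fun B : Finset V => Disjoint I B),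
            Kn W I A₁ B₁ * (u ^ A₁.card * pskS good W t u f (I ∪ A₁)) *
              (u ^ B₁.card * pskS good W t u f (I ∪ B₁)) := by
    intro I hI
    have hI1 := (mem_filter.1 hI).2
    have hsum0 : 0 ≤ ∑ A ∈ univ.filter (fun A : Finset V => Disjoint I A), E (I ∪ A) :=
      sum_nonneg fun A _ => hE0 _
    by_cases hIt : I.card ≤ t
    · have h1 := psk_m_inner hher hW1 hN hM hR hI1 hIt (fun a b ha hb hat hbt p q =>
        hK I a b hI1 ha hb hat hbt p q) f
      have hWI : 0 < W I := lt_of_lt_of_le hw₀ (hWl I hI1 hIt)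
      have h2 := mul_le_mul_of_nonneg_left h1 (div_nonneg (pow_pos hu0 I.card).le hWI.le)
      refine le_trans ?_ h2
      rw [mul_sub]
      have e1 : u ^ I.card / W I * pskS good W t u f I ^ 2 = E I / W I := by
        rw [hE]
        ring
      have e2 : u ^ I.card / W I * (R * t * ∑ A ∈ univ.filter (fun A : Finset V => Disjoint I A),
          u ^ A.card * pskS good W t u f (I ∪ A) ^ 2) =
          R * t / W I * ∑ A ∈ univ.filter (fun A : Finset V => Disjoint I A), E (I ∪ A) := by
        have : ∑ A ∈ univ.filter (fun A : Finset V => Disjoint I A), E (I ∪ A) =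
            u ^ I.card * ∑ A ∈ univ.filter (fun A : Finset V => Disjoint I A),
              u ^ A.card * pskS good W t u f (I ∪ A) ^ 2 := by
          rw [mul_sum]
          refine sum_congr rfl fun A hA => ?_
          rw [hE]
          simp only
          rw [card_union_of_disjoint (mem_filter.1 hA).2, pow_add]
          ring
        rw [this]
        ring
      rw [e1, e2]
      have h3 : E I / w₁ ≤ E I / W I :=
        div_le_div_of_nonneg_left (hE0 I) hWI (hWu I hI1 hIt)
      have h4 : R * t / W I ≤ R * t / w₀ :=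
        div_le_div_of_nonneg_left (mul_nonneg hR (Nat.cast_nonneg t)) hw₀ (hWl I hI1 hIt)
      have h5 := mul_le_mul_of_nonneg_right h4 hsum0
      linarith
    · have hz : ∀ A, E (I ∪ A) = 0 := fun A => hEz _ fun h =>
        hIt ((card_le_card subset_union_left).trans h.2)
      have hz' : ∀ A, pskS good W t u f (I ∪ A) = 0 := fun A => pskS_zero hher W t u f fun h =>
        hIt ((card_le_card subset_union_left).trans h.2)
      have hEI : E I = 0 := hEz _ fun h => hIt h.2
      simp only [hz, hz', hEI, sum_const_zero, mul_zero, zero_div, sub_zero, le_refl]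
  refine le_trans ?_ (sum_le_sum hb)
  rw [sum_sub_distrib, ← sum_div, ← mul_sum]
  -- the total
  have hfirst : ∑ I ∈ univ.filter good, E I = ∑ J, E J := by
    rw [sum_filter]
    refine sum_congr rfl fun J _ => ?_
    split_ifs with h
    · rfl
    · exact (hEz J fun hh => h hh.1).symm
  have hsecond : ∑ I ∈ univ.filter good,
      ∑ A ∈ univ.filter (fun A : Finset V => Disjoint I A), E (I ∪ A) ≤ 2 ^ t * ∑ J, E J := by
    calc _ ≤ ∑ I : Finset V, ∑ A ∈ univ.filter (fun A : Finset V => Disjoint I A), E (I ∪ A) :=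
          sum_le_sum_of_subset_of_nonneg (filter_subset _ _) fun _ _ _ =>
            sum_nonneg fun A _ => hE0 _
      _ = ∑ I : Finset V, ∑ J ∈ univ.filter (fun J : Finset V => I ⊆ J), E J := by
          refine sum_congr rfl fun I _ => ?_
          refine sum_nbij' (fun A => I ∪ A) (fun J => J \ I) ?_ ?_ ?_ ?_ ?_
          · intro A _
            exact mem_filter.2 ⟨mem_univ _, subset_union_left⟩
          · intro J _
            exact mem_filter.2 ⟨mem_univ _, disjoint_sdiff⟩
          · intro A hA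
            exact union_sdiff_cancel_left (mem_filter.1 hA).2
          · intro J hJ
            exact union_sdiff_of_subset (mem_filter.1 hJ).2
          · intro A _
            rfl
      _ = ∑ J : Finset V, ∑ I ∈ J.powerset, E J := by
          simp_rw [sum_filter]
          rw [sum_comm]
          refine sum_congr rfl fun J _ => ?_
          rw [← sum_filter]
          refine sum_congr ?_ fun _ _ => rfl
          ext I
          simp
      _ ≤ ∑ J : Finset V, 2 ^ t * E J := by
          refine sum_le_sum fun J _ => ?_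
          rw [sum_const, card_powerset, nsmul_eq_mul]
          push_cast
          by_cases hJ : good J ∧ J.card ≤ t
          · exact mul_le_mul_of_nonneg_right
              (pow_le_pow_right₀ (by norm_num) hJ.2) (hE0 J)
          · rw [hEz J hJ, mul_zero, mul_zero]
      _ = 2 ^ t * ∑ J, E J := by rw [mul_sum]
  rw [hfirst]
  have hS : 0 ≤ ∑ J, E J := sum_nonneg fun J _ => hE0 J
  have h6 := mul_le_mul_of_nonneg_left hsecond
    (div_nonneg (mul_nonneg hR (Nat.cast_nonneg t)) hw₀.le : 0 ≤ R * t / w₀)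
  rcases eq_or_lt_of_le hS with h0 | h0
  · rw [← h0] at h6 ⊢
    rw [mul_zero, mul_zero] at h6
    rw [zero_div]
    linarith
  · -- there is a good small set
    have hw₁ : 0 < w₁ := by
      obtain ⟨J, _, hJ⟩ := exists_ne_zero_of_sum_ne_zero h0.ne'
      by_cases hJg : good J ∧ J.card ≤ t
      · exact lt_of_lt_of_le hw₀ ((hWl J hJg.1 hJg.2).trans (hWu J hJg.1 hJg.2))
      · exact absurd (hEz J hJg) hJ
    have h7 : R * t / w₀ * 2 ^ t ≤ 1 / w₁ := by
      rw [div_mul_eq_mul_div, div_le_div_iff₀ hw₀ hw₁]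
      linarith
    have h8 := mul_le_mul_of_nonneg_right h7 hS
    have h9 : (∑ J, E J) / w₁ = 1 / w₁ * ∑ J, E J := by ring
    rw [h9]
    linarith

theorem psk [Nonempty V] {w : Finset V → ℝ} {t : ℕ} {M R c₁ c₂ : ℝ} (hM : 0 < M) (hR : 0 ≤ R)
    (hc₁ : 0 < c₁) (hc₂ : 0 < c₂)
    (hher : ∀ S S' : Finset V, S' ⊆ S → S.card ≤ 2 * t → w S ≠ 0 → w S' ≠ 0)
    (hw : ∀ S : Finset V, S.card ≤ t → w S ≠ 0 → c₁ ≤ w S ∧ w S ≤ c₂)
    (hK : ∀ (I : Finset V) (a b : ℕ), 1 ≤ a → 1 ≤ b → I.card + a ≤ t → I.card + b ≤ t → w I ≠ 0 →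
      ∀ P Q : Finset V → ℝ, (∀ A, P A ≠ 0 → A.card = a ∧ Disjoint I A ∧ w (I ∪ A) ≠ 0) →
        (∀ B, Q B ≠ 0 → B.card = b ∧ Disjoint I B ∧ w (I ∪ B) ≠ 0) →
        (∑ A, ∑ B, Kn w I A B * P A * Q B) ^ 2 ≤
          R ^ 2 * ((Fintype.card V : ℝ) / M) ^ (a + b) * ((∑ A, P A ^ 2) * ∑ B, Q B ^ 2))
    (hc : t * 2 ^ t * R * c₂ ≤ c₁) :
    Las.MomPos t (fun S : Finset V => (M / Fintype.card V) ^ S.card * w S) := by
  classical
  set N : ℝ := (Fintype.card V : ℝ) with hN
  have hNpos : (0 : ℝ) < N := by
    rw [hN]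
    exact_mod_cast Fintype.card_pos
  set W : Finset V → ℝ := fun S => if S.card ≤ 2 * t then w S else 0 with hW
  set good : Finset V → Prop := fun S => S.card ≤ 2 * t ∧ w S ≠ 0 with hgood
  have hWw : ∀ S : Finset V, S.card ≤ 2 * t → W S = w S := fun S hS => by
    rw [hW]
    simp only
    rw [if_pos hS]
  have her : ∀ S T : Finset V, T ⊆ S → good S → good T := fun S T hT hS =>
    ⟨(card_le_card hT).trans hS.1, hher S T hT hS.1 hS.2⟩
  have hW0 : ∀ S, ¬ good S → W S = 0 := by
    intro S hS
    rw [hW]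
    simp only
    split_ifs with h
    · by_contra hh
      exact hS ⟨h, hh⟩
    · rfl
  have hWl : ∀ S, good S → S.card ≤ t → c₁ ≤ W S := fun S h1 h2 => by
    rw [hWw S h1.1]
    exact (hw S h2 h1.2).1
  have hWu : ∀ S, good S → S.card ≤ t → W S ≤ c₂ := fun S h1 h2 => by
    rw [hWw S h1.1]
    exact (hw S h2 h1.2).2
  have hKn : ∀ I A B : Finset V, I.card + A.card ≤ t → B.card ≤ t → Kn W I A B = Kn w I A B := by
    intro I A B h1 h2
    unfold Kn
    refine sum_congr rfl fun A' hA' => sum_congr rfl fun B' hB' => ?_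
    have hA := card_le_card (mem_powerset.1 hA')
    have hB := card_le_card (mem_powerset.1 hB')
    have c1 := card_union_le I A'
    have c2 := card_union_le (I ∪ A') B'
    have c3 := card_union_le I B'
    unfold Cn
    rw [hWw (I ∪ A' ∪ B') (by omega), hWw I (by omega), hWw (I ∪ A') (by omega),
      hWw (I ∪ B') (by omega)]
  have hK' : ∀ I a b, good I → 1 ≤ a → 1 ≤ b → I.card + a ≤ t → I.card + b ≤ t →
      ∀ p q : Finset V → ℝ, |∑ A ∈ pskT good I a, ∑ B ∈ pskT good I b, Kn W I A B * p A * q B| ≤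
        R * Real.sqrt ((Fintype.card V / M) ^ a * ∑ A ∈ pskT good I a, p A ^ 2) *
          Real.sqrt ((Fintype.card V / M) ^ b * ∑ B ∈ pskT good I b, q B ^ 2) := by
    intro I a b hI ha hb hat hbt p q
    set P : Finset V → ℝ := fun A => if A ∈ pskT good I a then p A else 0 with hP
    set Q : Finset V → ℝ := fun B => if B ∈ pskT good I b then q B else 0 with hQ
    have hPs : ∀ A, P A ≠ 0 → A.card = a ∧ Disjoint I A ∧ w (I ∪ A) ≠ 0 := by
      intro A hA
      rw [hP] at hA
      simp only [ne_eq, ite_eq_right_iff, not_forall] at hA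
      obtain ⟨h1, _⟩ := hA
      obtain ⟨h2, h3, h4⟩ := (mem_filter.1 h1).2
      exact ⟨h3, h2, h4.2⟩
    have hQs : ∀ B, Q B ≠ 0 → B.card = b ∧ Disjoint I B ∧ w (I ∪ B) ≠ 0 := by
      intro B hB
      rw [hQ] at hB
      simp only [ne_eq, ite_eq_right_iff, not_forall] at hB
      obtain ⟨h1, _⟩ := hB
      obtain ⟨h2, h3, h4⟩ := (mem_filter.1 h1).2
      exact ⟨h3, h2, h4.2⟩
    have h1 := hK I a b ha hb hat hbt hI.2 P Q hPs hQs
    have e1 : ∑ A, ∑ B, Kn w I A B * P A * Q B =
        ∑ A ∈ pskT good I a, ∑ B ∈ pskT good I b, Kn W I A B * p A * q B := by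
      have : ∀ A, ∑ B, Kn w I A B * P A * Q B = if A ∈ pskT good I a then
          ∑ B ∈ pskT good I b, Kn W I A B * p A * q B else 0 := by
        intro A
        split_ifs with hA
        · have h3 : ∀ B, Kn w I A B * P A * Q B =
              if B ∈ pskT good I b then Kn W I A B * p A * q B else 0 := by
            intro B
            rw [hP, hQ]
            simp only
            rw [if_pos hA]
            split_ifs with hB
            · rw [hKn I A B]
              · rw [((mem_filter.1 hA).2).2.1]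
                exact hat
              · rw [((mem_filter.1 hB).2).2.1]
                omega
            · rw [mul_zero]
          rw [sum_congr rfl fun B _ => h3 B, ← sum_filter]
          refine sum_congr ?_ fun _ _ => rfl
          ext B
          simp
        · refine sum_eq_zero fun B _ => ?_
          rw [hP]
          simp only
          rw [if_neg hA, mul_zero, zero_mul]
      rw [sum_congr rfl fun A _ => this A, ← sum_filter]
      refine sum_congr ?_ fun _ _ => rfl
      ext A
      simp
    have e2 : ∑ A, P A ^ 2 = ∑ A ∈ pskT good I a, p A ^ 2 := by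
      have : ∀ A, P A ^ 2 = if A ∈ pskT good I a then p A ^ 2 else 0 := by
        intro A
        rw [hP]
        simp only
        split_ifs
        · rfl
        · ring
      rw [sum_congr rfl fun A _ => this A, ← sum_filter]
      refine sum_congr ?_ fun _ _ => rfl
      ext A
      simp
    have e3 : ∑ B, Q B ^ 2 = ∑ B ∈ pskT good I b, q B ^ 2 := by
      have : ∀ B, Q B ^ 2 = if B ∈ pskT good I b then q B ^ 2 else 0 := by
        intro B
        rw [hQ]
        simp only
        split_ifs
        · rfl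
        · ring
      rw [sum_congr rfl fun B _ => this B, ← sum_filter]
      refine sum_congr ?_ fun _ _ => rfl
      ext B
      simp
    rw [e1, e2, e3] at h1
    have hX : 0 ≤ (N / M) ^ a * ∑ A ∈ pskT good I a, p A ^ 2 :=
      mul_nonneg (by positivity) (sum_nonneg fun _ _ => sq_nonneg _)
    have hY : 0 ≤ (N / M) ^ b * ∑ B ∈ pskT good I b, q B ^ 2 :=
      mul_nonneg (by positivity) (sum_nonneg fun _ _ => sq_nonneg _)
    refine abs_le_of_sq_le_sq ?_ (by positivity)
    refine h1.trans (le_of_eq ?_)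
    rw [mul_pow, mul_pow, Real.sq_sqrt hX, Real.sq_sqrt hY, pow_add]
    ring
  have hfin : R * t * 2 ^ t * c₂ ≤ c₁ := by linarith
  have h1 := psk_kernel her hW0 hc₁ hWl hWu hM hR hK' hfin
  intro f
  refine (h1 f).trans (le_of_eq ?_)
  refine sum_congr rfl fun A hA => sum_congr rfl fun B hB => ?_
  have hA' : A.card ≤ t := by
    unfold small at hA
    exact (mem_filter.1 hA).2
  have hB' : B.card ≤ t := by
    unfold small at hB
    exact (mem_filter.1 hB).2
  have c1 := card_union_le A B
  simp only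
  rw [hWw (A ∪ B) (by omega)]

end Pool.Agent.Lib.MP_0430e4_lc.L3
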