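import Pool.Agent.Lib.MP_0430e4_lc.L3.CRH
import Pool.Agent.Lib.MP_0430e4_lc.L3.BDP
import Pool.Agent.Lib.MP_0430e4_lc.L3.KBD
import Pool.Agent.Lib.MP_0430e4_lc.L3.KTR
import Pool.Agent.Lib.MP_0430e4_lc.L3.PSK
import Pool.Agent.Lib.MP_0430e4_lc.L2.TRN

/-!
# PSF: the pseudo-moments for fixed `n`

PROOF. `m = (2 t) ^ 2`. Let `C₀` be the maximum of the constants of `bdp m`, `crh m t ht`, `kbd (2 t)` and `8 ^ m * 4`; `c₁ = (1/4) ^ m`, `c₂ = 2 ^ m`. `η₀` small: `C₀ ^ 2 * η₀ ≤ 1`, `t * 2 ^ t * (C₀ ^ 2 * η₀) * c₂ ≤ c₁`.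
`ww_bounds`: for `|S| ≤ 2 t` good write `S` as the image of `Fin |S|` (`wt_map`), `sexp_bounds` with `ι = Fin |S|`, `Blk` from `bdp`. `ww S ≠ 0` implies that `S` is good (`wt_bad`), so heredity. `psk` with `w = ww P`, `R = C₀ ^ 2 * η`: `hK` from `ktr` with
`ι = Fin i ⊕ (Fin a ⊕ Fin b)` (`i = |I|`, at most `2 t` vertices), `kbd` with `u z = ub P (vw z)` (`Crh` by `crh`), both with `C₀ η` in the place of `η`. `las_ge_ev` with `y S = (M / N) ^ |S| * ww P S`: `ww P ∅ = 1`, `ww P {x} = 1` (`ed {x} = ∅`),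
`y S = 0` if two words of `S` have distance less than `d` (`wt_bad`), `∑ x, y {x} = M`.
-/

set_option autoImplicit false

namespace Pool.Agent.Lib.MP_0430e4_lc.L3

open Finset
open Lin (W wt chw evW EW al flat SymW)
open L2 (Ev OP)

theorem psf_blk {ι Γ : Type} [Fintype ι] [DecidableEq ι] [Fintype Γ] [DecidableEq Γ]
    {ok : Γ → Γ → Prop} {M η η' : ℝ} {u : (ι → Γ) → Finset (Sym2 ι) → ℝ} (hM : 0 < M)
    (h : Blk ok M η u) (h0 : 0 ≤ η) (hη : η ≤ η') : Blk ok M η' u :=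
  ⟨h.symm, h.dep, h.one, fun S₀ b h1 h2 h3 => bd_mono hM (h.bd S₀ b h1 h2 h3) h0 hη⟩

theorem psf_crh {ι Γ : Type} [Fintype ι] [DecidableEq ι] [Fintype Γ] [DecidableEq Γ]
    {ok : Γ → Γ → Prop} {M η η' : ℝ} {u : (ι → Γ) → Finset (Sym2 ι) → ℝ} {I A B : Finset ι}
    (hM : 0 < M)
    (h : Crh ok M η u I A B) (h0 : 0 ≤ η) (hη : η ≤ η') : Crh ok M η' u I A B := by
  intro g hg hgs x hx
  refine kb_mono (h g hg hgs x hx) ?_
  have h1 : η ^ 2 ≤ η' ^ 2 := pow_le_pow_left₀ h0 hη 2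
  exact mul_le_mul_of_nonneg_right h1 (by positivity)

theorem psf_ed_empty {ι : Type*} [DecidableEq ι] : ed (∅ : Finset ι) = ∅ := by
  unfold ed
  simp

theorem psf_ed_single {ι : Type*} [Fintype ι] [DecidableEq ι] (x : ι) : ed ({x} : Finset ι) = ∅ := by
  rw [eq_empty_iff_forall_notMem]
  intro e he
  rw [mem_ed] at he
  obtain ⟨h1, h2⟩ := he
  induction e with
  | _ a b =>
    apply h2
    have ha : a ∈ ({x} : Finset ι) := h1 (by simp)
    have hb : b ∈ ({x} : Finset ι) := h1 (by simp)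
    rw [mem_singleton] at ha hb
    rw [ha, hb]
    simp

/-- the weights of good sets -/
theorem psf_bounds {n : ℕ} {P : Pm n} {d : ℕ} {M η : ℝ} {t : ℕ} (hη : 0 ≤ η)
    (hu : ∀ s : ℕ, s ≤ 2 * t → Blk (okw n d) M η (fun (z : Fin s → Ev n) b => ub P (vw z) b))
    (hC : 8 ^ ((2 * t) ^ 2) * 4 * η ≤ 1) {S : Finset (Ev n)} (hS : S.card ≤ 2 * t)
    (hgood : ∀ u ∈ S, ∀ v ∈ S, u ≠ v → okw n d u v) :
    (1 / 4) ^ ((2 * t) ^ 2) ≤ ww P S ∧ ww P S ≤ 2 ^ ((2 * t) ^ 2) := by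
  classical
  obtain ⟨x, hx⟩ : ∃ x : Fin S.card → Ev n, x = fun j => ((S.equivFin.symm j : {v // v ∈ S}) : Ev n) :=
    ⟨_, rfl⟩
  have hinj : Function.Injective x := by
    intro i j hij
    rw [hx] at hij
    exact S.equivFin.symm.injective (Subtype.ext hij)
  have him : (univ : Finset (Fin S.card)).image x = S := by
    ext v
    rw [mem_image]
    constructor
    · rintro ⟨j, _, rfl⟩
      rw [hx]
      exact (S.equivFin.symm j).2
    · intro hv
      refine ⟨S.equivFin ⟨v, hv⟩, mem_univ _, ?_⟩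
      rw [hx]
      simp
  have e1 : ww P S = sexp (ub P (vw x)) (ed univ) := by
    unfold ww
    conv_lhs => rw [← him]
    exact wt_map P (hinj.injOn) (fun v : Ev n => (v : W n))
  have hgd : gd (okw n d) x univ := by
    intro i _ j _ hij
    refine hgood _ ?_ _ ?_ (fun h => hij (hinj h))
    · rw [← him]
      exact mem_image_of_mem _ (mem_univ _)
    · rw [← him]
      exact mem_image_of_mem _ (mem_univ _)
  have hcard : (Fintype.card (Fin S.card)) ^ 2 ≤ (2 * t) ^ 2 := by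
    rw [Fintype.card_fin]
    exact Nat.pow_le_pow_left hS 2
  have hC' : 8 ^ ((Fintype.card (Fin S.card)) ^ 2) * 4 * η ≤ 1 := by
    refine le_trans ?_ hC
    have : (8 : ℝ) ^ ((Fintype.card (Fin S.card)) ^ 2) ≤ 8 ^ ((2 * t) ^ 2) :=
      pow_le_pow_right₀ (by norm_num) hcard
    gcongr
  have h1 := sexp_bounds hη (hu _ hS) hC' hgd (Subset.refl (ed (univ : Finset (Fin S.card))))
  have h2 : (ed (univ : Finset (Fin S.card))).card ≤ (2 * t) ^ 2 := (card_ed_le _).trans hcard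
  rw [e1]
  refine ⟨le_trans ?_ h1.1, h1.2.trans ?_⟩
  · exact pow_le_pow_of_le_one (by norm_num) (by norm_num) h2
  · exact pow_le_pow_right₀ (by norm_num) h2

theorem psf_VI_VA (i a b : ℕ) : Disjoint (VI i a b) (VA i a b) := by
  rw [disjoint_left]
  intro v hv hv'
  unfold VI at hv
  unfold VA at hv'
  obtain ⟨j, rfl⟩ := (mem_filter.1 hv').2
  simp at hv

theorem psf_VI_VB (i a b : ℕ) : Disjoint (VI i a b) (VB i a b) := by
  rw [disjoint_left]
  intro v hv hv'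
  unfold VI at hv
  unfold VB at hv'
  obtain ⟨j, rfl⟩ := (mem_filter.1 hv').2
  simp at hv

theorem psf_VA_VB (i a b : ℕ) : Disjoint (VA i a b) (VB i a b) := by
  rw [disjoint_left]
  intro v hv hv'
  unfold VA at hv
  unfold VB at hv'
  obtain ⟨j, rfl⟩ := (mem_filter.1 hv').2
  obtain ⟨j', hj'⟩ := (mem_filter.1 hv).2
  simp at hj'

theorem psf_card_VA (i a b : ℕ) : (VA i a b).card = a := by
  have : VA i a b = univ.image (fun j : Fin a => (Sum.inr (Sum.inl j) : Fin i ⊕ (Fin a ⊕ Fin b))) := by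
    ext v
    unfold VA
    simp only [mem_filter, mem_univ, true_and, mem_image]
    exact ⟨fun ⟨j, hj⟩ => ⟨j, hj.symm⟩, fun ⟨j, hj⟩ => ⟨j, hj.symm⟩⟩
  rw [this, card_image_of_injective _ (fun j j' h => by simpa using h), card_univ, Fintype.card_fin]

theorem psf_card_VB (i a b : ℕ) : (VB i a b).card = b := by
  have : VB i a b = univ.image (fun j : Fin b => (Sum.inr (Sum.inr j) : Fin i ⊕ (Fin a ⊕ Fin b))) := by
    ext v
    unfold VB
    simp only [mem_filter, mem_univ, true_and, mem_image]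
    exact ⟨fun ⟨j, hj⟩ => ⟨j, hj.symm⟩, fun ⟨j, hj⟩ => ⟨j, hj.symm⟩⟩
  rw [this, card_image_of_injective _ (fun j j' h => by simpa using h), card_univ, Fintype.card_fin]

theorem psf (t : ℕ) (ht : 1 ≤ t) : ∃ η₀ : ℝ, 0 < η₀ ∧
    ∀ {n : ℕ} {P : Pm n} {d : ℕ} {a : ℕ → ℝ} {ε D Λ ρ : ℝ} {KV Kx : ℕ}
      (_ : Pk n P d a ε D Λ ρ KV Kx) {M η : ℝ} {Ks : ℕ → ℕ}
      (_ : Nk n ((2 * t) ^ 2) t P.k ε D Λ ρ M η KV Kx Ks) (_ : η ≤ η₀),
      M ≤ Las.las t n d := by
  classical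
  obtain ⟨C₁, hC₁, H₁⟩ := bdp ((2 * t) ^ 2)
  obtain ⟨C₂, hC₂, H₂⟩ := crh ((2 * t) ^ 2) t ht
  obtain ⟨C₃, hC₃, H₃⟩ := kbd (2 * t)
  obtain ⟨m, hm⟩ : ∃ m, m = (2 * t) ^ 2 := ⟨_, rfl⟩
  obtain ⟨C₀, hC₀⟩ : ∃ C₀, C₀ = C₁ + C₂ := ⟨_, rfl⟩
  have hC₀1 : 1 ≤ C₀ := by linarith
  have htR : (1 : ℝ) ≤ t := by exact_mod_cast ht
  obtain ⟨E, hE⟩ : ∃ E : ℝ, E = 8 ^ m * 4 + C₃ + t * 2 ^ t * C₃ * 2 ^ m * 4 ^ m := ⟨_, rfl⟩
  have hE1 : 0 < E := by
    rw [hE]
    positivity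
  refine ⟨1 / (C₀ * E), by positivity, ?_⟩
  intro n P d a ε D Λ ρ KV Kx hP M η Ks hN hη
  have hM : 0 < M := lt_of_lt_of_le one_pos hN.M1
  obtain ⟨η', hη'⟩ : ∃ η', η' = C₀ * η := ⟨_, rfl⟩
  have hη0 := hN.η0
  have hη'0 : 0 ≤ η' := by
    rw [hη']
    positivity
  have hEη : E * η' ≤ 1 := by
    rw [hη']
    have h1 := (le_div_iff₀ (by positivity)).1 hη
    calc E * (C₀ * η) = η * (C₀ * E) := by ring
      _ ≤ 1 := h1
  have hEa : (8 : ℝ) ^ m * 4 * η' ≤ 1 := by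
    refine le_trans (mul_le_mul_of_nonneg_right ?_ hη'0) hEη
    rw [hE]
    have : 0 ≤ (t : ℝ) * 2 ^ t * C₃ * 2 ^ m * 4 ^ m := by positivity
    linarith
  have hEb : C₃ * η' ≤ 1 := by
    refine le_trans (mul_le_mul_of_nonneg_right ?_ hη'0) hEη
    rw [hE]
    have h1 : 0 ≤ (t : ℝ) * 2 ^ t * C₃ * 2 ^ m * 4 ^ m := by positivity
    have h2 : (0 : ℝ) ≤ 8 ^ m * 4 := by positivity
    linarith
  have hEc : t * 2 ^ t * C₃ * 2 ^ m * 4 ^ m * η' ≤ 1 := by
    refine le_trans (mul_le_mul_of_nonneg_right ?_ hη'0) hEη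
    rw [hE]
    have h2 : (0 : ℝ) ≤ 8 ^ m * 4 := by positivity
    linarith
  have hblk : ∀ {ι : Type} [Fintype ι] [DecidableEq ι], Fintype.card ι ≤ 2 * t →
      Blk (okw n d) M η' (fun (z : ι → Ev n) b => ub P (vw z) b) := by
    intro ι _ _ hι
    refine psf_blk hM (H₁ (Nat.pow_le_pow_left hι 2) hP hN) (by positivity) ?_
    rw [hη', hC₀]
    exact mul_le_mul_of_nonneg_right (by linarith) hη0
  have hgood : ∀ S : Finset (Ev n), ww P S ≠ 0 → ∀ u ∈ S, ∀ v ∈ S, u ≠ v → okw n d u v := by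
    intro S hS u hu v hv huv
    by_contra hbad
    exact hS (wt_bad (x := fun v : Ev n => v) hP.bad hu hv huv hbad)
  have hbds : ∀ S : Finset (Ev n), S.card ≤ 2 * t →
      (∀ u ∈ S, ∀ v ∈ S, u ≠ v → okw n d u v) → (1 / 4) ^ m ≤ ww P S ∧ ww P S ≤ 2 ^ m := by
    intro S hS hgS
    rw [hm]
    refine psf_bounds hη'0 (fun s hs => hblk (ι := Fin s) (by rwa [Fintype.card_fin])) ?_ hS hgS
    rw [← hm]
    exact hEa
  have hNe : Nonempty (Ev n) := ⟨⟨0, by
    unfold evW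
    simp⟩⟩
  have hNR : (0 : ℝ) < Fintype.card (Ev n) := by exact_mod_cast Fintype.card_pos
  have hmom : Las.MomPos t (fun S : Finset (Ev n) => (M / Fintype.card (Ev n)) ^ S.card * ww P S) := by
    refine psk (R := C₃ * η') (c₁ := (1 / 4) ^ m) (c₂ := 2 ^ m) hM (by positivity) (by positivity)
      (by positivity) ?_ ?_ ?_ ?_
    · intro S S' hS hc hw
      have h1 := hbds S' ((card_le_card hS).trans hc)
        (fun u hu v hv => hgood S hw u (hS hu) v (hS hv))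
      have h2 : (0 : ℝ) < (1 / 4) ^ m := by positivity
      exact (lt_of_lt_of_le h2 h1.1).ne'
    · intro S hS hw
      exact hbds S (by omega) (hgood S hw)
    · intro I a' b' ha hb hIa hIb hI F G hF hG
      refine ktr hP.n0 hP.d1 hP.bad hI rfl ?_ F G hF hG
      intro x hx p q hp hq hp' hq'
      have hcard : Fintype.card (Fin I.card ⊕ (Fin a' ⊕ Fin b')) ≤ 2 * t := by
        simp only [Fintype.card_sum, Fintype.card_fin]
        omega
      have hcr : Crh (okw n d) M η' (fun (z : Fin I.card ⊕ (Fin a' ⊕ Fin b') → Ev n) b =>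
          ub P (vw z) b) (VI I.card a' b') (VA I.card a' b') (VB I.card a' b') := by
        refine psf_crh hM (H₂ (Nat.pow_le_pow_left hcard 2) hP hN (psf_VI_VA _ _ _)
          (psf_VI_VB _ _ _) (psf_VA_VB _ _ _) ?_ ?_) (by positivity) ?_
        · rw [psf_card_VA]
          omega
        · rw [psf_card_VB]
          omega
        · rw [hη', hC₀]
          exact mul_le_mul_of_nonneg_right (by linarith) hη0
      have hk := H₃ hcard hM hη'0 hEb (hblk hcard) (psf_VI_VA _ _ _) (psf_VI_VB _ _ _)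
        (psf_VA_VB _ _ _) (card_pos.1 (by rw [psf_card_VA]; omega))
        (card_pos.1 (by rw [psf_card_VB]; omega)) hcr x hx p q hp hq hp' hq'
      rw [psf_card_VA, psf_card_VB] at hk
      exact hk
    · have h4 : (4 : ℝ) ^ m * (1 / 4) ^ m = 1 := by
        rw [← mul_pow]
        norm_num
      have h5 : (0 : ℝ) < 4 ^ m := by positivity
      have h6 : (4 : ℝ) ^ m * (t * 2 ^ t * (C₃ * η') * 2 ^ m) ≤ 4 ^ m * (1 / 4) ^ m := by
        rw [h4]
        calc (4 : ℝ) ^ m * (t * 2 ^ t * (C₃ * η') * 2 ^ m) =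
            t * 2 ^ t * C₃ * 2 ^ m * 4 ^ m * η' := by ring
          _ ≤ 1 := hEc
      exact le_of_mul_le_mul_left h6 h5
  have hlas := L2.las_ge_ev (d := d) ht _ ?_ ?_ hmom
  · refine le_trans (le_of_eq ?_) hlas
    have e1 : ∀ x : Ev n, (M / Fintype.card (Ev n)) ^ ({x} : Finset (Ev n)).card * ww P {x} =
        M / Fintype.card (Ev n) := by
      intro x
      unfold ww
      rw [psf_ed_single, sexp_empty, card_singleton, pow_one, mul_one]
    rw [sum_congr rfl fun x _ => e1 x, sum_const, card_univ, nsmul_eq_mul]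
    field_simp
  · show (M / Fintype.card (Ev n)) ^ (∅ : Finset (Ev n)).card * ww P ∅ = 1
    unfold ww
    rw [psf_ed_empty, sexp_empty, card_empty, pow_zero, mul_one]
  · rintro S ⟨u, hu, v, hv, huv, hw⟩
    show (M / Fintype.card (Ev n)) ^ S.card * ww P S = 0
    have : ww P S = 0 := by
      by_contra h
      have := hgood S h u hu v hv huv
      unfold okw at this
      omega
    rw [this, mul_zero]

end Pool.Agent.Lib.MP_0430e4_lc.L3
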