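import Pool.Agent.Lib.MP_0430e4_lc.L3.Defs

/-!
# SEXP: set exponentials

PROOF. `sexp_rec`: sort the partitions `π` of `g` by the block `b` that contains `e` (bijection of the partitions with block `b`
and the partitions of `g \ b`: erase / insert `b`). `sexp_unique`: strong induction on `g'` with `sexp_rec`. `sexp_add`: `sexp_unique`
for `c g = ∑ X ⊆ g, sexp v X * sexp v' (g \ X)` (split by `e ∈ X` or `e ∈ g \ X`). `sexp_ind`: `sexp_unique`. `abs_sexp_le`: at most
`2 ^ (2 ^ g.card)` partitions, each has at most `g.card` blocks.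
-/

set_option autoImplicit false

namespace Pool.Agent.Lib.MP_0430e4_lc.L3

open Finset

variable {ε : Type*} [DecidableEq ε]

theorem mem_parts {g : Finset ε} {π : Finset (Finset ε)} : π ∈ parts g ↔
    ∅ ∉ π ∧ (∀ b ∈ π, ∀ b' ∈ π, b ≠ b' → Disjoint b b') ∧ π.biUnion id = g := by
  unfold parts
  rw [mem_filter, mem_powerset]
  constructor
  · exact fun h => h.2
  · intro h
    refine ⟨?_, h⟩
    intro b hb
    rw [mem_powerset, ← h.2.2]
    exact subset_biUnion_of_mem id hb

theorem mem_parts' {g : Finset ε} {π : Finset (Finset ε)} : π ∈ parts g ↔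
    (∀ b ∈ π, b ⊆ g) ∧ ∅ ∉ π ∧ (∀ a ∈ π, ∀ b ∈ π, a ≠ b → Disjoint a b) ∧
      ∀ e ∈ g, ∃ b ∈ π, e ∈ b := by
  rw [mem_parts]
  constructor
  · rintro ⟨h1, h2, h3⟩
    refine ⟨?_, h1, h2, ?_⟩
    · intro b hb
      rw [← h3]
      exact subset_biUnion_of_mem id hb
    · intro e he
      rw [← h3, mem_biUnion] at he
      exact he
  · rintro ⟨h1, h2, h3, h4⟩
    refine ⟨h2, h3, ?_⟩
    ext e
    rw [mem_biUnion]
    constructor
    · rintro ⟨b, hb, he⟩
      exact h1 b hb he
    · exact h4 e

theorem parts_empty : parts (∅ : Finset ε) = {∅} := by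
  ext π
  rw [mem_parts', mem_singleton]
  constructor
  · rintro ⟨h1, h2, _, _⟩
    refine eq_empty_of_forall_notMem fun b hb => ?_
    have := subset_empty.1 (h1 b hb)
    rw [this] at hb
    exact h2 hb
  · rintro rfl
    simp

theorem sexp_empty (v : Finset ε → ℝ) : sexp v ∅ = 1 := by
  unfold sexp
  rw [parts_empty, sum_singleton, prod_empty]

/-- The recursion formula (S2). -/
theorem sexp_rec (v : Finset ε → ℝ) {g : Finset ε} {e : ε} (he : e ∈ g) :
    sexp v g = ∑ b ∈ g.powerset.filter (fun b => e ∈ b), v b * sexp v (g \ b) := by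
  unfold sexp
  simp_rw [mul_sum]
  rw [sum_sigma']
  symm
  refine sum_bij (fun x _ => insert x.1 x.2) ?_ ?_ ?_ ?_
  · rintro ⟨b, π⟩ hx
    rw [mem_sigma] at hx
    obtain ⟨hb, hπ⟩ := hx
    simp only at hb hπ ⊢
    obtain ⟨hb1, hb2⟩ := mem_filter.1 hb
    rw [mem_powerset] at hb1
    obtain ⟨h1, h2, h3, h4⟩ := mem_parts'.1 hπ
    rw [mem_parts']
    refine ⟨?_, ?_, ?_, ?_⟩
    · intro c hc
      rcases mem_insert.1 hc with rfl | hc
      · exact hb1
      · exact (h1 c hc).trans sdiff_subset
    · intro h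
      rcases mem_insert.1 h with h | h
      · rw [← h] at hb2
        exact notMem_empty _ hb2
      · exact h2 h
    · intro c hc d hd hcd
      have hbd : ∀ d ∈ π, Disjoint b d := fun d hd =>
        disjoint_of_subset_right (h1 d hd) disjoint_sdiff
      rcases mem_insert.1 hc with hc' | hc'
      · rcases mem_insert.1 hd with hd' | hd'
        · exact absurd (hc'.trans hd'.symm) hcd
        · rw [hc']
          exact hbd d hd'
      · rcases mem_insert.1 hd with hd' | hd'
        · rw [hd']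
          exact (hbd c hc').symm
        · exact h3 c hc' d hd' hcd
    · intro x hx
      by_cases hxb : x ∈ b
      · exact ⟨b, mem_insert_self _ _, hxb⟩
      · obtain ⟨c, hc, hxc⟩ := h4 x (mem_sdiff.2 ⟨hx, hxb⟩)
        exact ⟨c, mem_insert_of_mem hc, hxc⟩
  · rintro ⟨b, π⟩ hx ⟨b', π'⟩ hx' h
    rw [mem_sigma] at hx hx'
    obtain ⟨hb, hπ⟩ := hx
    obtain ⟨hb', hπ'⟩ := hx'
    simp only at hb hπ hb' hπ' h
    obtain ⟨h1, h2, _, _⟩ := mem_parts'.1 hπ
    obtain ⟨h1', h2', _, _⟩ := mem_parts'.1 hπ'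
    have hn : ∀ c ∈ π, e ∉ c := fun c hc hec =>
      (mem_sdiff.1 (h1 c hc hec)).2 (mem_filter.1 hb).2
    have hn' : ∀ c ∈ π', e ∉ c := fun c hc hec =>
      (mem_sdiff.1 (h1' c hc hec)).2 (mem_filter.1 hb').2
    have hbb : b = b' := by
      have h5 : b ∈ insert b' π' := h ▸ mem_insert_self b π
      rcases mem_insert.1 h5 with h5 | h5
      · exact h5
      · exact absurd (mem_filter.1 hb).2 (hn' b h5)
    subst hbb
    have hbn : b ∉ π := fun h => hn b h (mem_filter.1 hb).2
    have hbn' : b ∉ π' := fun h => hn' b h (mem_filter.1 hb').2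
    have : π = π' := by
      rw [← erase_insert hbn, h, erase_insert hbn']
    rw [this]
  · intro π hπ
    obtain ⟨h1, h2, h3, h4⟩ := mem_parts'.1 hπ
    obtain ⟨b, hb, heb⟩ := h4 e he
    refine ⟨⟨b, π.erase b⟩, ?_, ?_⟩
    · rw [mem_sigma]
      refine ⟨mem_filter.2 ⟨mem_powerset.2 (h1 b hb), heb⟩, ?_⟩
      rw [mem_parts']
      refine ⟨?_, ?_, ?_, ?_⟩
      · intro c hc
        obtain ⟨hc1, hc2⟩ := mem_erase.1 hc
        intro x hx
        exact mem_sdiff.2 ⟨h1 c hc2 hx, fun hxb => disjoint_left.1 (h3 c hc2 b hb hc1) hx hxb⟩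
      · exact fun h => h2 (mem_erase.1 h).2
      · intro c hc d hd hcd
        exact h3 c (mem_erase.1 hc).2 d (mem_erase.1 hd).2 hcd
      · intro x hx
        obtain ⟨hx1, hx2⟩ := mem_sdiff.1 hx
        obtain ⟨c, hc, hxc⟩ := h4 x hx1
        refine ⟨c, mem_erase.2 ⟨?_, hc⟩, hxc⟩
        rintro rfl
        exact hx2 hxc
    · exact insert_erase hb
  · rintro ⟨b, π⟩ hx
    rw [mem_sigma] at hx
    obtain ⟨hb, hπ⟩ := hx
    simp only at hb hπ ⊢
    obtain ⟨h1, _, _, _⟩ := mem_parts'.1 hπ
    rw [prod_insert]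
    intro h
    exact (mem_sdiff.1 (h1 b h (mem_filter.1 hb).2)).2 (mem_filter.1 hb).2

theorem sexp_congr {v w : Finset ε → ℝ} {g : Finset ε} (h : ∀ b ⊆ g, b.Nonempty → v b = w b) :
    sexp v g = sexp w g := by
  unfold sexp
  refine sum_congr rfl fun π hπ => prod_congr rfl fun b hb => ?_
  obtain ⟨h1, h2, _, _⟩ := mem_parts'.1 hπ
  refine h b (h1 b hb) (nonempty_iff_ne_empty.2 ?_)
  rintro rfl
  exact h2 hb

/-- The addition formula (S3). -/
theorem sexp_add (v w : Finset ε → ℝ) (g : Finset ε) :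
    sexp (fun b => v b + w b) g = ∑ X ∈ g.powerset, sexp v X * sexp w (g \ X) := by
  induction g using Finset.strongInduction with
  | H g ih =>
    rcases g.eq_empty_or_nonempty with rfl | ⟨e, he⟩
    · rw [powerset_empty, sum_singleton, Finset.sdiff_self, sexp_empty, sexp_empty, sexp_empty,
        mul_one]
    · rw [sexp_rec _ he]
      have hlt : ∀ b ∈ g.powerset.filter (fun b => e ∈ b), g \ b ⊂ g := by
        intro b hb
        rw [Finset.ssubset_iff_subset_ne]
        refine ⟨sdiff_subset, fun h => ?_⟩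
        have : e ∈ g \ b := by
          rw [h]
          exact he
        exact (mem_sdiff.1 this).2 (mem_filter.1 hb).2
      rw [sum_congr rfl fun b hb => by rw [ih (g \ b) (hlt b hb)]]
      -- split the sum over `X` according to `e ∈ X`
      rw [← sum_filter_add_sum_filter_not g.powerset (fun X => e ∈ X)]
      have r1 : ∀ X ∈ g.powerset.filter (fun X => e ∈ X), sexp v X * sexp w (g \ X) =
          ∑ b ∈ X.powerset.filter (fun b => e ∈ b), v b * sexp v (X \ b) * sexp w (g \ X) := by
        intro X hX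
        rw [sexp_rec v (mem_filter.1 hX).2, sum_mul]
      have r2 : ∀ X ∈ g.powerset.filter (fun X => ¬ e ∈ X), sexp v X * sexp w (g \ X) =
          ∑ b ∈ (g \ X).powerset.filter (fun b => e ∈ b),
            sexp v X * (w b * sexp w ((g \ X) \ b)) := by
        intro X hX
        rw [sexp_rec w (mem_sdiff.2 ⟨he, (mem_filter.1 hX).2⟩), mul_sum]
      rw [sum_congr rfl r1, sum_congr rfl r2]
      simp_rw [add_mul, mul_sum]
      rw [sum_add_distrib]
      congr 1
      · rw [sum_sigma', sum_sigma']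
        refine sum_nbij' (fun x => ⟨x.1 ∪ x.2, x.1⟩) (fun x => ⟨x.2, x.1 \ x.2⟩) ?_ ?_ ?_ ?_ ?_
        · rintro ⟨b, Y⟩ hx
          simp only [mem_sigma, mem_filter, mem_powerset] at hx ⊢
          obtain ⟨⟨h1, h2⟩, h3⟩ := hx
          exact ⟨⟨union_subset h1 (h3.trans sdiff_subset), mem_union_left _ h2⟩,
            subset_union_left, h2⟩
        · rintro ⟨X, b⟩ hx
          simp only [mem_sigma, mem_filter, mem_powerset] at hx ⊢
          obtain ⟨⟨h1, _⟩, h3, h4⟩ := hx
          exact ⟨⟨h3.trans h1, h4⟩, sdiff_subset_sdiff h1 subset_rfl⟩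
        · rintro ⟨b, Y⟩ hx
          simp only [mem_sigma, mem_filter, mem_powerset] at hx
          have hd : Disjoint b Y := disjoint_of_subset_right hx.2 disjoint_sdiff
          simp only [union_sdiff_cancel_left hd]
        · rintro ⟨X, b⟩ hx
          simp only [mem_sigma, mem_filter, mem_powerset] at hx
          simp only [union_sdiff_of_subset hx.2.1]
        · rintro ⟨b, Y⟩ hx
          simp only [mem_sigma, mem_filter, mem_powerset] at hx
          have hd : Disjoint b Y := disjoint_of_subset_right hx.2 disjoint_sdiff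
          simp only [union_sdiff_cancel_left hd]
          have : (g \ b) \ Y = g \ (b ∪ Y) := by
            ext x
            simp only [mem_sdiff, mem_union]
            tauto
          rw [this]
          ring
      · rw [sum_sigma', sum_sigma']
        refine sum_nbij' (fun x => ⟨x.2, x.1⟩) (fun x => ⟨x.2, x.1⟩) ?_ ?_ ?_ ?_ ?_
        · rintro ⟨b, X⟩ hx
          simp only [mem_sigma, mem_filter, mem_powerset] at hx ⊢
          obtain ⟨⟨h1, h2⟩, h3⟩ := hx
          refine ⟨⟨h3.trans sdiff_subset, fun h => (mem_sdiff.1 (h3 h)).2 h2⟩, ?_, h2⟩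
          intro x hx
          exact mem_sdiff.2 ⟨h1 hx, fun h => (mem_sdiff.1 (h3 h)).2 hx⟩
        · rintro ⟨X, b⟩ hx
          simp only [mem_sigma, mem_filter, mem_powerset] at hx ⊢
          obtain ⟨⟨h1, h2⟩, h3, h4⟩ := hx
          refine ⟨⟨h3.trans sdiff_subset, h4⟩, ?_⟩
          intro x hx
          exact mem_sdiff.2 ⟨h1 hx, fun h => (mem_sdiff.1 (h3 h)).2 hx⟩
        · rintro ⟨b, X⟩ _
          rfl
        · rintro ⟨X, b⟩ _
          rfl
        · rintro ⟨b, X⟩ _
          simp only
          have : (g \ b) \ X = (g \ X) \ b := by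
            ext x
            simp only [mem_sdiff]
            tauto
          rw [this]
          ring

/-- Uniqueness of the logarithm, on the subsets of `g`. -/
theorem sexp_log_unique {v w : Finset ε → ℝ} {g : Finset ε}
    (h : ∀ b ⊆ g, sexp v b = sexp w b) : ∀ b ⊆ g, b.Nonempty → v b = w b := by
  intro b
  induction b using Finset.strongInduction with
  | H b ih =>
    rintro hb ⟨e, he⟩
    have h1 := h b hb
    rw [sexp_rec v he, sexp_rec w he] at h1
    have hbm : b ∈ b.powerset.filter (fun b' => e ∈ b') := mem_filter.2 ⟨mem_powerset_self b, he⟩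
    rw [← add_sum_erase _ _ hbm, ← add_sum_erase _ _ hbm, Finset.sdiff_self, sexp_empty,
      sexp_empty, mul_one, mul_one] at h1
    have h2 : ∑ c ∈ (b.powerset.filter (fun b' => e ∈ b')).erase b, v c * sexp v (b \ c) =
        ∑ c ∈ (b.powerset.filter (fun b' => e ∈ b')).erase b, w c * sexp w (b \ c) := by
      refine sum_congr rfl fun c hc => ?_
      obtain ⟨h3, h4⟩ := mem_erase.1 hc
      obtain ⟨h5, h6⟩ := mem_filter.1 h4
      rw [mem_powerset] at h5
      rw [ih c (Finset.ssubset_iff_subset_ne.2 ⟨h5, h3⟩) (h5.trans hb) ⟨e, h6⟩,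
        h (b \ c) (sdiff_subset.trans hb)]
    rw [h2] at h1
    exact add_right_cancel h1

/-- The blocks of a partition other than `{g}` are smaller than `g`. -/
theorem parts_lt {g : Finset ε} {π : Finset (Finset ε)} (hπ : π ∈ parts g) (hg : π ≠ {g})
    {b : Finset ε} (hb : b ∈ π) : b.card < g.card := by
  obtain ⟨h1, h2, h3, h4⟩ := mem_parts'.1 hπ
  refine card_lt_card (Finset.ssubset_iff_subset_ne.2 ⟨h1 b hb, ?_⟩)
  rintro rfl
  apply hg
  refine eq_singleton_iff_unique_mem.2 ⟨hb, fun c hc => ?_⟩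
  by_contra hcb
  have h5 := h3 c hc b hb hcb
  have h6 : c = ∅ := by
    have := (disjoint_of_subset_right (h1 c hc) h5)
    exact disjoint_self_iff_empty c |>.1 this
  rw [h6] at hc
  exact h2 hc

theorem sexp_unique {v c : Finset ε → ℝ} {g : Finset ε} (h0 : c ∅ = 1)
    (h : ∀ g' ⊆ g, g'.Nonempty → ∃ e ∈ g',
      c g' = ∑ b ∈ g'.powerset.filter (fun b => e ∈ b), v b * c (g' \ b)) : c g = sexp v g := by
  have key : ∀ g' : Finset ε, g' ⊆ g → c g' = sexp v g' := by
    intro g'
    induction g' using Finset.strongInduction with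
    | H g' ih =>
      intro hg'
      rcases g'.eq_empty_or_nonempty with rfl | hne
      · rw [h0, sexp_empty]
      · obtain ⟨e, he, h1⟩ := h g' hg' hne
        rw [h1, sexp_rec v he]
        refine sum_congr rfl fun b hb => ?_
        rw [ih (g' \ b) ?_ (sdiff_subset.trans hg')]
        rw [Finset.ssubset_iff_subset_ne]
        refine ⟨sdiff_subset, fun h => ?_⟩
        have : e ∈ g' \ b := by
          rw [h]
          exact he
        exact (mem_sdiff.1 this).2 (mem_filter.1 hb).2
  exact key g subset_rfl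

/-- an element that is in no block of nonzero weight -/
theorem sexp_eq_zero {v : Finset ε → ℝ} {g : Finset ε} {e : ε} (he : e ∈ g)
    (h : ∀ b ⊆ g, e ∈ b → v b = 0) : sexp v g = 0 := by
  rw [sexp_rec v he]
  refine sum_eq_zero fun b hb => ?_
  obtain ⟨h1, h2⟩ := mem_filter.1 hb
  rw [h b (mem_powerset.1 h1) h2, zero_mul]

theorem sexp_ind (X g : Finset ε) :
    sexp (fun b => if b.card = 1 ∧ b ⊆ X then (1 : ℝ) else 0) g = if g ⊆ X then 1 else 0 := by
  symm
  refine sexp_unique (c := fun g => if g ⊆ X then (1 : ℝ) else 0) ?_ ?_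
  · simp
  · intro g' _ hne
    obtain ⟨e, he⟩ := hne
    refine ⟨e, he, ?_⟩
    have hm : ({e} : Finset ε) ∈ g'.powerset.filter (fun b => e ∈ b) :=
      mem_filter.2 ⟨mem_powerset.2 (singleton_subset_iff.2 he), mem_singleton_self e⟩
    rw [sum_eq_single_of_mem _ hm]
    · simp only [card_singleton, true_and, singleton_subset_iff]
      by_cases h1 : g' ⊆ X
      · rw [if_pos h1, if_pos (h1 he), if_pos (sdiff_subset.trans h1), one_mul]
      · rw [if_neg h1]
        by_cases h2 : e ∈ X
        · rw [if_pos h2, if_neg, mul_zero]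
          intro h3
          apply h1
          intro x hx
          by_cases hxe : x = e
          · rw [hxe]
            exact h2
          · exact h3 (mem_sdiff.2 ⟨hx, fun h => hxe (mem_singleton.1 h)⟩)
        · rw [if_neg h2, zero_mul]
    · intro b hb hbe
      have h4 : b.card ≠ 1 := by
        intro h4
        obtain ⟨x, hx⟩ := card_eq_one.1 h4
        have h5 := (mem_filter.1 hb).2
        rw [hx, mem_singleton] at h5
        rw [hx, h5] at hbe
        exact hbe rfl
      rw [if_neg (fun h => h4 h.1), zero_mul]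

theorem exists_part {v : Finset ε → ℝ} {g : Finset ε} (h : sexp v g ≠ 0) :
    ∃ π ∈ parts g, ∀ b ∈ π, v b ≠ 0 := by
  unfold sexp at h
  obtain ⟨π, hπ, h1⟩ := exists_ne_zero_of_sum_ne_zero h
  exact ⟨π, hπ, fun b hb => prod_ne_zero_iff.1 h1 b hb⟩

theorem card_le_of_parts {g : Finset ε} {π : Finset (Finset ε)} (hπ : π ∈ parts g) :
    π.card ≤ g.card := by
  obtain ⟨h1, h2, h3, _⟩ := mem_parts'.1 hπ
  have h5 : (π.biUnion id).card = ∑ b ∈ π, b.card :=
    card_biUnion fun a ha b hb hab => h3 a ha b hb hab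
  have h6 : π.biUnion id ⊆ g := by
    intro x hx
    obtain ⟨b, hb, hxb⟩ := mem_biUnion.1 hx
    exact h1 b hb hxb
  have h7 : π.card ≤ ∑ b ∈ π, b.card := by
    rw [card_eq_sum_ones]
    refine sum_le_sum fun b hb => ?_
    rw [Nat.one_le_iff_ne_zero, Ne, card_eq_zero]
    rintro rfl
    exact h2 hb
  rw [← h5] at h7
  exact h7.trans (card_le_card h6)

theorem card_parts_le (g : Finset ε) : (parts g).card ≤ 2 ^ (2 ^ g.card) := by
  unfold parts
  refine (card_filter_le _ _).trans ?_
  rw [card_powerset, card_powerset]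

/-- A crude bound for set exponentials. -/
theorem abs_sexp_le {v : Finset ε → ℝ} {g : Finset ε} {c : ℝ} (hc : 1 ≤ c)
    (h : ∀ b ⊆ g, b.Nonempty → |v b| ≤ c) : |sexp v g| ≤ 2 ^ (2 ^ g.card) * c ^ g.card := by
  unfold sexp
  calc _ ≤ ∑ π ∈ parts g, c ^ g.card := by
        refine (abs_sum_le_sum_abs _ _).trans (sum_le_sum fun π hπ => ?_)
        obtain ⟨h1, h2, _, _⟩ := mem_parts'.1 hπ
        rw [abs_prod]
        calc _ ≤ ∏ b ∈ π, c := prod_le_prod (fun _ _ => abs_nonneg _) fun b hb => by
              refine h b (h1 b hb) (nonempty_iff_ne_empty.2 ?_)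
              rintro rfl
              exact h2 hb
          _ = c ^ π.card := by rw [prod_const]
          _ ≤ c ^ g.card := pow_le_pow_right₀ hc (card_le_of_parts hπ)
    _ = ((parts g).card : ℝ) * c ^ g.card := by rw [sum_const, nsmul_eq_mul]
    _ ≤ 2 ^ 2 ^ g.card * c ^ g.card := by
        refine mul_le_mul_of_nonneg_right ?_ (by positivity)
        exact_mod_cast card_parts_le g

end Pool.Agent.Lib.MP_0430e4_lc.L3
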