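import Pool.Agent.Lib.MP_0430e4_lc.L3.COLK

/-!
# STEP: adding a minimal conflict

PROOF. See /team-store/L3_PROOF.md, (C4), (C5). `nw J Q v` is the set `N₁` of the edges of `J \ Q` whose other end is a vertex of `A ∪ B` not in `vs Q`.
`step`: with `a = {i : |C i ∩ (J \ N₁)| odd}` (at least `k` elements since `J \ N₁` is a nonempty proper subset of `J`; if `N₁ = ∅` only monotonicity is needed),
`b = {i : |C i ∩ N₁| odd}`, `oc C J = |a ∆ b| < k`, so `|b \ a| < |b ∩ a|`. For every column `F = C i ∩ Q`, `F₁ = C i ∩ N₁`, `F₂ = C i ∩ (J \ Q \ N₁)` `kap_step` gives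
`kap (C i ∩ (Q ∪ J)) - kap (C i ∩ Q) ≥ |F₁| - [F ∪ F₂ = ∅]` if `F₁ ≠ ∅`, `≥ 0` otherwise. If `i ∈ a` then `F ∪ F₂ ≠ ∅`. So
`2 (difference) - m_i ≥ m_i - 2 + 2 [i ∈ a]` if `m_i = |F₁| ≥ 1`: this is `≥ 1` for `i ∈ a ∩ b`, `≥ -1` for `i ∈ b \ a`, `≥ 0` for even `m_i ≥ 2`. The sum of the `m_i` is
`∑ e ∈ N₁, oc C {e} ≥ k |N₁|` and the new vertices in `A ∪ B` are the other ends of the edges in `N₁`.
`step_mixed`: the same with `kap_mixed` (columns with `C i ∩ Q = ∅`) and `kap_step` (other columns).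
-/

set_option autoImplicit false

namespace Pool.Agent.Lib.MP_0430e4_lc.L3

open Finset

variable {ι : Type*} [DecidableEq ι] {n : ℕ}

/-- The edges of `J \ Q` with a new end. -/
def nw (A B : Finset ι) (J Q : Finset (Sym2 ι)) (v : ι) : Finset (Sym2 ι) :=
  (J \ Q).filter fun e => (e.toFinset.filter fun w => w ≠ v ∧ w ∈ A ∪ B ∧ w ∉ vs Q).Nonempty

theorem step_col_split {C : Finset (Sym2 ι)} {Q J N : Finset (Sym2 ι)} (hN : N ⊆ J \ Q) :
    C ∩ (Q ∪ J) = C ∩ Q ∪ (C ∩ N ∪ C ∩ ((J \ Q) \ N)) := by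
  ext e
  have h := @hN e
  simp only [mem_inter, mem_union, mem_sdiff] at h ⊢
  by_cases h1 : e ∈ N
  · have := h h1
    tauto
  · tauto

theorem step_other {A B : Finset ι} {J Q : Finset (Sym2 ι)} {v : ι} (hv : ∀ e ∈ J, v ∈ e)
    {e : Sym2 ι} (he : e ∈ nw A B J Q v) {w : ι} (hw : w ∈ e) (hwv : w ≠ v) :
    w ∈ A ∪ B ∧ w ∉ vs Q := by
  obtain ⟨he1, u, hu⟩ := mem_filter.1 he
  obtain ⟨hu1, hu2, hu3, hu4⟩ := mem_filter.1 hu
  rw [Sym2.mem_toFinset] at hu1
  have hve := hv e (mem_sdiff.1 he1).1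
  have h1 := (Sym2.mem_and_mem_iff hu2).1 ⟨hu1, hve⟩
  rw [h1, Sym2.mem_iff] at hw
  rcases hw with hw | hw
  · rw [hw]; exact ⟨hu3, hu4⟩
  · exact absurd hw hwv

/-- the number of new vertices is at most the number of edges with a new end -/
theorem step_new_card {A B : Finset ι} {J Q : Finset (Sym2 ι)} {v : ι} (hv : ∀ e ∈ J, v ∈ e)
    (hvQ : v ∈ vs Q ∨ v ∉ A ∪ B) :
    ((vs (Q ∪ J) \ vs Q) ∩ (A ∪ B)).card ≤ (nw A B J Q v).card := by
  apply card_le_card_of_injOn (fun w => s(v, w))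
  · intro w hw
    rw [mem_coe, mem_inter, mem_sdiff] at hw
    obtain ⟨⟨hw1, hw2⟩, hw3⟩ := hw
    obtain ⟨e, he, hwe⟩ := mem_vs.1 hw1
    have heQ : e ∉ Q := fun h => hw2 (mem_vs.2 ⟨e, h, hwe⟩)
    have heJ : e ∈ J := by
      rcases mem_union.1 he with h | h
      · exact absurd h heQ
      · exact h
    have hwv : w ≠ v := by
      rintro rfl
      rcases hvQ with h | h
      · exact hw2 h
      · exact h hw3
    have hes : e = s(v, w) := by
      rw [Sym2.eq_swap]
      exact (Sym2.mem_and_mem_iff hwv).1 ⟨hwe, hv e heJ⟩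
    show s(v, w) ∈ nw A B J Q v
    rw [← hes]
    exact mem_filter.2 ⟨mem_sdiff.2 ⟨heJ, heQ⟩, w,
      mem_filter.2 ⟨Sym2.mem_toFinset.2 hwe, hwv, hw3, hw2⟩⟩
  · intro w _ w' _ h
    exact Sym2.congr_right.1 h

theorem step_sum_lab {n : ℕ} (C : Fin n → Finset (Sym2 ι)) (N : Finset (Sym2 ι)) :
    ∑ i, (C i ∩ N).card = ∑ e ∈ N, oc C {e} := by
  have h1 : ∀ i, (C i ∩ N).card = ∑ e ∈ N, if e ∈ C i then 1 else 0 := by
    intro i
    rw [inter_comm, ← filter_mem_eq_inter, card_filter]
  rw [sum_congr rfl (fun i _ => h1 i), sum_comm]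
  refine sum_congr rfl fun e _ => ?_
  rw [← card_filter]
  unfold oc
  congr 1
  ext i
  simp only [mem_filter, mem_univ, true_and]
  by_cases h : e ∈ C i
  · simp [h]
  · simp [h]

theorem step_lab {n k : ℕ} {C : Fin n → Finset (Sym2 ι)} {N : Finset (Sym2 ι)}
    (h : ∀ e ∈ N, k ≤ oc C {e}) : k * N.card ≤ ∑ i, (C i ∩ N).card := by
  rw [step_sum_lab, mul_comm, ← smul_eq_mul]
  exact card_nsmul_le_sum _ _ _ h

/-- parities -/
theorem step_odd {C X Y J : Finset (Sym2 ι)} (hd : Disjoint X Y) (hu : X ∪ Y = J) :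
    Odd (C ∩ J).card ↔ (Odd (C ∩ X).card ∧ ¬ Odd (C ∩ Y).card) ∨
      (¬ Odd (C ∩ X).card ∧ Odd (C ∩ Y).card) := by
  have h1 : (C ∩ J).card = (C ∩ X).card + (C ∩ Y).card := by
    rw [← hu, inter_union_distrib_left]
    exact card_union_of_disjoint
      (disjoint_of_subset_left inter_subset_right (disjoint_of_subset_right inter_subset_right hd))
  rw [h1, Nat.odd_add, ← Nat.not_odd_iff_even]
  tauto

theorem step_cards {n : ℕ} (p q : Fin n → Prop) [DecidablePred p] [DecidablePred q] :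
    ((univ.filter p).card : ℤ) = ∑ i, ((if p i ∧ q i then 1 else 0) + (if p i ∧ ¬ q i then 1 else 0) : ℤ) := by
  rw [card_filter]
  push_cast
  refine sum_congr rfl fun i _ => ?_
  by_cases h1 : p i <;> by_cases h2 : q i <;> simp [h1, h2]

theorem step_oc {n : ℕ} {C : Fin n → Finset (Sym2 ι)} {X Y J : Finset (Sym2 ι)}
    (hd : Disjoint X Y) (hu : X ∪ Y = J) :
    (oc C J : ℤ) = ∑ i, ((if Odd (C i ∩ X).card ∧ ¬ Odd (C i ∩ Y).card then 1 else 0) +
      (if Odd (C i ∩ Y).card ∧ ¬ Odd (C i ∩ X).card then 1 else 0) : ℤ) := by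
  unfold oc
  rw [card_filter]
  push_cast
  refine sum_congr rfl fun i _ => ?_
  rw [if_congr (step_odd (C := C i) hd hu) rfl rfl]
  by_cases h1 : Odd (C i ∩ X).card <;> by_cases h2 : Odd (C i ∩ Y).card <;> simp [h1, h2]

theorem step {A B : Finset ι} (hAB : Disjoint A B) {k : ℕ} {C : Fin n → Finset (Sym2 ι)}
    (hC : ∀ i, ∀ e ∈ C i, ¬ e.IsDiag) {Q J : Finset (Sym2 ι)} {v : ι} (hJ : Conf k C v J)
    (hJd : ∀ e ∈ J, ¬ e.IsDiag) (hlab : ∀ e ∈ J, k ≤ oc C {e}) (hx : xed A B (J \ Q) = ∅)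
    (hv : v ∈ vs Q ∨ v ∉ A ∪ B) (hold : (J \ nw A B J Q v).Nonempty) :
    2 * cost A B (fun i => C i ∩ Q) + k * ((vs (Q ∪ J) \ vs Q) ∩ (A ∪ B)).card ≤
      2 * cost A B (fun i => C i ∩ (Q ∪ J)) := by
  obtain ⟨hJ1, hJ2, hJ3, hJ4⟩ := hJ
  set N := nw A B J Q v with hN
  have hNJQ : N ⊆ J \ Q := filter_subset _ _
  have hNJ : N ⊆ J := hNJQ.trans sdiff_subset
  have hd : Disjoint (J \ N) N := sdiff_disjoint
  have hu : (J \ N) ∪ N = J := sdiff_union_of_subset hNJ
  -- columns
  have hcol : ∀ i, (((C i ∩ N).card : ℤ) +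
      ((if Odd (C i ∩ (J \ N)).card ∧ Odd (C i ∩ N).card then 1 else 0) -
        (if Odd (C i ∩ N).card ∧ ¬ Odd (C i ∩ (J \ N)).card then 1 else 0)) ≤
      2 * kap A B (C i ∩ (Q ∪ J)) - 2 * kap A B (C i ∩ Q)) := by
    intro i
    have hF1 : ∀ e ∈ C i ∩ Q, ¬ e.IsDiag := fun e he => hC i e (mem_inter.1 he).1
    have hsub : C i ∩ N ∪ C i ∩ ((J \ Q) \ N) ⊆ J \ Q := by
      refine union_subset (inter_subset_right.trans hNJQ) (inter_subset_right.trans sdiff_subset)
    have hk := kap_step hAB (F := C i ∩ Q) (N₁ := C i ∩ N) (N₂ := C i ∩ ((J \ Q) \ N)) (v := v)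
      hF1 (fun e he => ⟨hJ1 e (mem_sdiff.1 (hsub he)).1, hJd e (mem_sdiff.1 (hsub he)).1⟩)
      (by
        rw [← subset_empty, ← hx]
        exact filter_subset_filter _ hsub)
      (disjoint_of_subset_left inter_subset_right (disjoint_of_subset_right hsub disjoint_sdiff))
      (disjoint_of_subset_left inter_subset_right
        (disjoint_of_subset_right inter_subset_right disjoint_sdiff))
      (by
        intro e he w hw hwv
        have h1 := step_other hJ1 (mem_inter.1 he).2 hw hwv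
        refine ⟨h1.1, ?_, ?_⟩
        · intro h2
          obtain ⟨e', he', hwe'⟩ := mem_vs.1 h2
          exact h1.2 (mem_vs.2 ⟨e', (mem_inter.1 he').2, hwe'⟩)
        · intro h2
          obtain ⟨e', he', hwe'⟩ := mem_vs.1 h2
          have h3 := mem_sdiff.1 (mem_inter.1 he').2
          exact h3.2 (mem_filter.2 ⟨h3.1, w, mem_filter.2 ⟨Sym2.mem_toFinset.2 hwe', hwv, h1⟩⟩))
    rw [← step_col_split hNJQ] at hk
    obtain ⟨hk1, hk2⟩ := hk
    rcases (C i ∩ N).eq_empty_or_nonempty with h0 | h0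
    · rw [h0]
      simp only [card_empty, Nat.not_odd_zero, and_false, false_and, if_false]
      push_cast
      linarith
    · have hk3 := hk2 h0
      have hpos : 1 ≤ (C i ∩ N).card := card_pos.2 h0
      by_cases ha : Odd (C i ∩ (J \ N)).card
      · have hne : ¬ (C i ∩ Q ∪ C i ∩ ((J \ Q) \ N) = ∅) := by
          intro h
          have hz : C i ∩ (J \ N) = ∅ := by
            rw [← subset_empty, ← h]
            intro e he
            rw [mem_inter, mem_sdiff] at he
            rw [mem_union, mem_inter, mem_inter, mem_sdiff, mem_sdiff]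
            tauto
          rw [hz] at ha
          simp at ha
        rw [if_neg hne] at hk3
        simp only [ha, not_true_eq_false, and_false, if_false, true_and]
        split_ifs <;> push_cast <;> omega
      · simp only [ha, false_and, if_false, not_false_eq_true, and_true]
        by_cases hb : Odd (C i ∩ N).card
        · simp only [hb, if_true]
          split_ifs at hk3 <;> omega
        · simp only [hb, if_false]
          have h2 : 2 ≤ (C i ∩ N).card := by
            rw [Nat.not_odd_iff_even] at hb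
            obtain ⟨r, hr⟩ := hb
            omega
          split_ifs at hk3 <;> omega
  have hsum := sum_le_sum (fun i (_ : i ∈ (univ : Finset (Fin n))) => hcol i)
  rw [sum_add_distrib, sum_sub_distrib, sum_sub_distrib, ← mul_sum, ← mul_sum] at hsum
  have hnew := step_new_card (A := A) (B := B) (Q := Q) hJ1 hv
  rw [← hN] at hnew
  have hlab' := step_lab (N := N) (fun e he => hlab e (hNJ he))
  have h1 : (k : ℤ) * ((vs (Q ∪ J) \ vs Q) ∩ (A ∪ B)).card ≤ ∑ i, ((C i ∩ N).card : ℤ) := by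
    have : k * ((vs (Q ∪ J) \ vs Q) ∩ (A ∪ B)).card ≤ ∑ i, (C i ∩ N).card :=
      (Nat.mul_le_mul_left k hnew).trans hlab'
    exact_mod_cast this
  have h2 : ∑ i, (if Odd (C i ∩ N).card ∧ ¬ Odd (C i ∩ (J \ N)).card then 1 else 0 : ℤ) ≤
      ∑ i, (if Odd (C i ∩ (J \ N)).card ∧ Odd (C i ∩ N).card then 1 else 0 : ℤ) := by
    rcases N.eq_empty_or_nonempty with h0 | h0
    · rw [h0]
      simp
    · have hss : J \ N ⊂ J := by
        refine ssubset_of_subset_of_ne sdiff_subset ?_
        intro h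
        obtain ⟨e, he⟩ := h0
        have := hNJ he
        rw [← h] at this
        exact (mem_sdiff.1 this).2 he
      have h3 := hJ4 _ hss hold
      have h4 : (oc C (J \ N) : ℤ) = _ :=
        step_cards (fun i => Odd (C i ∩ (J \ N)).card) (fun i => Odd (C i ∩ N).card)
      have h5 := step_oc (C := C) hd hu
      rw [sum_add_distrib] at h4 h5
      have h6 : (oc C J : ℤ) < k := by exact_mod_cast hJ3
      have h7 : (k : ℤ) ≤ oc C (J \ N) := by exact_mod_cast h3
      linarith
  show 2 * ∑ i, kap A B (C i ∩ Q) + _ ≤ 2 * ∑ i, kap A B (C i ∩ (Q ∪ J))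
  linarith

theorem step_mixed {A B : Finset ι} (hAB : Disjoint A B) {k : ℕ} {C : Fin n → Finset (Sym2 ι)}
    (hC : ∀ i, ∀ e ∈ C i, ¬ e.IsDiag) {Q J : Finset (Sym2 ι)} {v : ι} (hJ : Conf k C v J)
    (hJd : ∀ e ∈ J, ¬ e.IsDiag) (hlab : ∀ e ∈ J, k ≤ oc C {e}) (hd : Disjoint J Q)
    (hv : v ∉ A ∪ B) (hnew : ∀ e ∈ J, ∀ w ∈ e, w ≠ v → w ∈ A ∪ B ∧ w ∉ vs Q)
    (hA : ∃ e ∈ J, (e.toFinset ∩ A).Nonempty) (hB : ∃ e ∈ J, (e.toFinset ∩ B).Nonempty) :
    2 * cost A B (fun i => C i ∩ Q) + k * ((vs (Q ∪ J) \ vs Q) ∩ (A ∪ B)).card ≤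
      2 * cost A B (fun i => C i ∩ (Q ∪ J)) := by
  obtain ⟨hJ1, hJ2, hJ3, hJ4⟩ := hJ
  -- the other end
  have hend : ∀ e ∈ J, ∃ w, e = s(v, w) ∧ w ≠ v ∧ (w ∈ A ∨ w ∈ B) := by
    intro e he
    obtain ⟨w, hw⟩ := hJ1 e he
    have hwe : w ∈ e := by rw [hw]; exact Sym2.mem_mk_right _ _
    have hwv : w ≠ v := by
      rintro rfl
      exact hJd e he (by rw [hw]; exact rfl)
    exact ⟨w, hw, hwv, mem_union.1 (hnew e he w hwe hwv).1⟩
  have hvA : v ∉ A := fun h => hv (mem_union_left _ h)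
  have hvB : v ∉ B := fun h => hv (mem_union_right _ h)
  have hmeet : ∀ S : Finset ι, v ∉ S → ∀ w, ((s(v, w) : Sym2 ι).toFinset ∩ S).Nonempty ↔ w ∈ S := by
    intro S hS w
    constructor
    · rintro ⟨u, hu⟩
      rw [mem_inter, Sym2.mem_toFinset, Sym2.mem_iff] at hu
      rcases hu with ⟨rfl | rfl, h⟩
      · exact absurd h hS
      · exact h
    · intro h
      exact ⟨w, mem_inter.2 ⟨Sym2.mem_toFinset.2 (Sym2.mem_mk_right _ _), h⟩⟩
  set X := J.filter fun e => (e.toFinset ∩ A).Nonempty with hX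
  set Y := J.filter fun e => (e.toFinset ∩ B).Nonempty with hY
  have hXY : Disjoint X Y := by
    rw [disjoint_left]
    intro e he he'
    obtain ⟨w, hw, -, -⟩ := hend e (mem_filter.1 he).1
    have h1 := (mem_filter.1 he).2
    have h2 := (mem_filter.1 he').2
    rw [hw, hmeet A hvA] at h1
    rw [hw, hmeet B hvB] at h2
    exact disjoint_left.1 hAB h1 h2
  have hu : X ∪ Y = J := by
    ext e
    rw [mem_union, mem_filter, mem_filter]
    constructor
    · rintro (h | h) <;> exact h.1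
    · intro he
      obtain ⟨w, hw, -, hwAB⟩ := hend e he
      rcases hwAB with h | h
      · exact Or.inl ⟨he, by rw [hw]; exact (hmeet A hvA w).2 h⟩
      · exact Or.inr ⟨he, by rw [hw]; exact (hmeet B hvB w).2 h⟩
  have hXne : X.Nonempty := by
    obtain ⟨e, he, h⟩ := hA
    exact ⟨e, mem_filter.2 ⟨he, h⟩⟩
  have hYne : Y.Nonempty := by
    obtain ⟨e, he, h⟩ := hB
    exact ⟨e, mem_filter.2 ⟨he, h⟩⟩
  have hxJ : xed A B J = ∅ := by
    rw [← subset_empty]
    intro e he
    have h := mem_filter.1 he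
    exact absurd (mem_filter.2 ⟨h.1, h.2.2⟩) (disjoint_left.1 hXY (mem_filter.2 ⟨h.1, h.2.1⟩))
  have hsdJ : J \ Q = J := sdiff_eq_self_of_disjoint hd
  have hcol : ∀ i, (((C i ∩ J).card : ℤ) +
      (((if Odd (C i ∩ X).card ∧ Odd (C i ∩ Y).card then 1 else 0) +
        (if Odd (C i ∩ Y).card ∧ Odd (C i ∩ X).card then 1 else 0)) -
      ((if Odd (C i ∩ X).card ∧ ¬ Odd (C i ∩ Y).card then 1 else 0) +
        (if Odd (C i ∩ Y).card ∧ ¬ Odd (C i ∩ X).card then 1 else 0))) ≤
      2 * kap A B (C i ∩ (Q ∪ J)) - 2 * kap A B (C i ∩ Q)) := by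
    intro i
    have hcJ : (C i ∩ J).card = (C i ∩ X).card + (C i ∩ Y).card := by
      rw [← hu, inter_union_distrib_left]
      exact card_union_of_disjoint (disjoint_of_subset_left inter_subset_right
        (disjoint_of_subset_right inter_subset_right hXY))
    have hoddpos : ∀ m : ℕ, Odd m → 1 ≤ m := fun m hm => hm.pos
    rcases (C i ∩ J).eq_empty_or_nonempty with h0 | h0
    · have h1 : C i ∩ (Q ∪ J) = C i ∩ Q := by
        rw [inter_union_distrib_left, h0, union_empty]
      rw [h1, h0]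
      rw [h0, card_empty] at hcJ
      have h2 : (C i ∩ X).card = 0 := by omega
      have h3 : (C i ∩ Y).card = 0 := by omega
      rw [h2, h3]
      simp
    · have hpos : 1 ≤ (C i ∩ J).card := card_pos.2 h0
      rcases (C i ∩ Q).eq_empty_or_nonempty with hQ0 | hQ0
      · have h1 : C i ∩ (Q ∪ J) = C i ∩ J := by
          rw [inter_union_distrib_left, hQ0, empty_union]
        have hm := kap_mixed hAB (F := C i ∩ J) (v := v) hv
          (fun e he => ⟨hJ1 e (mem_inter.1 he).2, hJd e (mem_inter.1 he).2⟩)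
          (fun e he w hw hwv => (hnew e (mem_inter.1 he).2 w hw hwv).1) h0
        have hfA : (C i ∩ J).filter (fun e => (e.toFinset ∩ A).Nonempty) = C i ∩ X := by
          rw [hX, ← inter_filter]
        have hfB : (C i ∩ J).filter (fun e => (e.toFinset ∩ B).Nonempty) = C i ∩ Y := by
          rw [hY, ← inter_filter]
        rw [hfA, hfB] at hm
        have hk0 : kap A B (∅ : Finset (Sym2 ι)) = 0 := by simp [kap]
        rw [h1, hm, hQ0, hk0]
        rcases (C i ∩ X).eq_empty_or_nonempty with hX0 | hX0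
        · rw [hX0, card_empty] at hcJ
          rw [hX0]
          have hY0 : ¬ (C i ∩ Y = ∅) := by
            intro h
            rw [h, card_empty] at hcJ
            omega
          rw [if_pos rfl, if_neg hY0]
          simp only [card_empty, Nat.not_odd_zero, false_and, and_false, if_false,
            not_false_eq_true, and_true]
          by_cases hb : Odd (C i ∩ Y).card
          · simp only [hb, if_true]
            omega
          · simp only [hb, if_false]
            rw [Nat.not_odd_iff_even] at hb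
            obtain ⟨r, hr⟩ := hb
            omega
        · rw [if_neg (nonempty_iff_ne_empty.1 hX0)]
          have hXp : 1 ≤ (C i ∩ X).card := card_pos.2 hX0
          rcases (C i ∩ Y).eq_empty_or_nonempty with hY0 | hY0
          · rw [hY0, card_empty] at hcJ
            rw [hY0, if_pos rfl]
            simp only [card_empty, Nat.not_odd_zero, false_and, and_false, if_false,
              not_false_eq_true, and_true]
            by_cases hb : Odd (C i ∩ X).card
            · simp only [hb, if_true]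
              omega
            · simp only [hb, if_false]
              rw [Nat.not_odd_iff_even] at hb
              obtain ⟨r, hr⟩ := hb
              omega
          · rw [if_neg (nonempty_iff_ne_empty.1 hY0)]
            have hYp : 1 ≤ (C i ∩ Y).card := card_pos.2 hY0
            split_ifs <;> omega
      · have hk := kap_step hAB (F := C i ∩ Q) (N₁ := C i ∩ J) (N₂ := ∅) (v := v)
          (fun e he => hC i e (mem_inter.1 he).1)
          (by
            rw [union_empty]
            exact fun e he => ⟨hJ1 e (mem_inter.1 he).2, hJd e (mem_inter.1 he).2⟩)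
          (by
            rw [union_empty, ← subset_empty, ← hxJ]
            exact filter_subset_filter _ inter_subset_right)
          (by
            rw [union_empty]
            exact disjoint_of_subset_left inter_subset_right
              (disjoint_of_subset_right inter_subset_right hd.symm))
          (disjoint_empty_right _)
          (by
            intro e he w hw hwv
            have h1 := hnew e (mem_inter.1 he).2 w hw hwv
            refine ⟨h1.1, ?_, by simp [vs]⟩
            intro h2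
            obtain ⟨e', he', hwe'⟩ := mem_vs.1 h2
            exact h1.2 (mem_vs.2 ⟨e', (mem_inter.1 he').2, hwe'⟩))
        have hk2 := hk.2 h0
        rw [union_empty, union_empty, if_neg (nonempty_iff_ne_empty.1 hQ0),
          ← inter_union_distrib_left] at hk2
        have hodd2 : Odd (C i ∩ X).card ∧ Odd (C i ∩ Y).card → 2 ≤ (C i ∩ J).card := by
          rintro ⟨h1, h2⟩
          have := h1.pos
          have := h2.pos
          omega
        by_cases hb : Odd (C i ∩ X).card ∧ Odd (C i ∩ Y).card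
        · have h2 := hodd2 hb
          simp only [hb.1, hb.2, not_true_eq_false, and_self, and_false, if_true, if_false]
          omega
        · have hb' : ¬ (Odd (C i ∩ Y).card ∧ Odd (C i ∩ X).card) := fun h => hb ⟨h.2, h.1⟩
          rw [if_neg hb, if_neg hb']
          split_ifs <;> omega
  have hsum := sum_le_sum (fun i (_ : i ∈ (univ : Finset (Fin n))) => hcol i)
  rw [sum_add_distrib, sum_sub_distrib, sum_sub_distrib, ← mul_sum, ← mul_sum, sum_add_distrib,
    ← step_oc hXY hu] at hsum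
  have hnwJ : nw A B J Q v ⊆ J := (filter_subset _ _).trans sdiff_subset
  have hnc := step_new_card (A := A) (B := B) (Q := Q) hJ1 (Or.inr hv)
  have hlab' := step_lab (N := J) hlab
  have h1 : (k : ℤ) * ((vs (Q ∪ J) \ vs Q) ∩ (A ∪ B)).card ≤ ∑ i, ((C i ∩ J).card : ℤ) := by
    have : k * ((vs (Q ∪ J) \ vs Q) ∩ (A ∪ B)).card ≤ ∑ i, (C i ∩ J).card :=
      (Nat.mul_le_mul_left k (hnc.trans (card_le_card hnwJ))).trans hlab'
    exact_mod_cast this
  have hXs : X ⊂ J := by
    refine ssubset_of_subset_of_ne (filter_subset _ _) ?_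
    intro h
    obtain ⟨e, he⟩ := hYne
    have h2 : e ∈ J := (mem_filter.1 he).1
    rw [← h] at h2
    exact disjoint_left.1 hXY h2 he
  have hYs : Y ⊂ J := by
    refine ssubset_of_subset_of_ne (filter_subset _ _) ?_
    intro h
    obtain ⟨e, he⟩ := hXne
    have h2 : e ∈ J := (mem_filter.1 he).1
    rw [← h] at h2
    exact disjoint_left.1 hXY he h2
  have h3 := hJ4 _ hXs hXne
  have h3' := hJ4 _ hYs hYne
  have h4 : (oc C X : ℤ) = _ :=
    step_cards (fun i => Odd (C i ∩ X).card) (fun i => Odd (C i ∩ Y).card)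
  have h4' : (oc C Y : ℤ) = _ :=
    step_cards (fun i => Odd (C i ∩ Y).card) (fun i => Odd (C i ∩ X).card)
  have h5 := step_oc (C := C) hXY hu
  rw [sum_add_distrib] at h4 h4' h5
  have h6 : (oc C J : ℤ) < k := by exact_mod_cast hJ3
  have h7 : (k : ℤ) ≤ oc C X := by exact_mod_cast h3
  have h7' : (k : ℤ) ≤ oc C Y := by exact_mod_cast h3'
  show 2 * ∑ i, kap A B (C i ∩ Q) + _ ≤ 2 * ∑ i, kap A B (C i ∩ (Q ∪ J))
  linarith

theorem step_edge {A B : Finset ι} (hAB : Disjoint A B) {C : Fin n → Finset (Sym2 ι)}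
    (hC : ∀ i, ∀ e ∈ C i, ¬ e.IsDiag) {Q : Finset (Sym2 ι)} {e : Sym2 ι} (he : ¬ e.IsDiag)
    (hx : xed A B {e} = ∅) :
    cost A B (fun i => C i ∩ Q) ≤ cost A B (fun i => C i ∩ (Q ∪ {e})) := by
  unfold cost
  refine sum_le_sum fun i _ => ?_
  show kap A B (C i ∩ Q) ≤ kap A B (C i ∩ (Q ∪ {e}))
  rw [inter_union_distrib_left]
  refine colk_add hAB (fun x h => hC i x (mem_inter.1 h).1) (fun x h => hC i x (mem_inter.1 h).1) ?_
  rw [← subset_empty, ← hx]
  exact filter_subset_filter _ inter_subset_right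

end Pool.Agent.Lib.MP_0430e4_lc.L3
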