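import Pool.Agent.Lib.MP_0430e4_lc.L3.Defs

/-!
# TEN: tensor products of bilinear forms

PROOF. `bl_op`: take `q y = conj (∑ x, K x y * p x)`. `bl_tensor`: induction on `n`. For `n + 1` write `x = Fin.cons x₀ x'`, `y = Fin.cons y₀ y'`. Put
`T x₀ y' = ∑ x', (∏ i, K i.succ (x' i) (y' i)) * P (x₀, x')`; by `bl_op` for the product of the last `n` factors
`∑ y', ‖T x₀ y'‖ ^ 2 ≤ c' ^ 2 * ∑ x', ‖P (x₀, x')‖ ^ 2` for every `x₀`. The form is `∑ y', ∑ x₀, ∑ y₀, K 0 x₀ y₀ * T x₀ y' * Q (y₀, y')`; for fixed `y'` the norm of the inner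
sum is at most `c₀ * √(∑ x₀, ‖T x₀ y'‖ ^ 2) * √(∑ y₀, ‖Q (y₀, y')‖ ^ 2)`; Cauchy-Schwarz for the sum over `y'`. `bl_sum`: triangle inequality (square roots).
-/

set_option autoImplicit false

namespace Pool.Agent.Lib.MP_0430e4_lc.L3

open Finset

/-- The norm of the bilinear form with kernel `K` is at most `c`. -/
def Bl {X Y : Type*} [Fintype X] [Fintype Y] (K : X → Y → ℂ) (c : ℝ) : Prop :=
  ∀ (p : X → ℂ) (q : Y → ℂ), ‖∑ x, ∑ y, K x y * p x * q y‖ ^ 2 ≤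
    c ^ 2 * ((∑ x, ‖p x‖ ^ 2) * ∑ y, ‖q y‖ ^ 2)

theorem ten_sqrt {a c b : ℝ} (hc : 0 ≤ c) (hb : 0 ≤ b) (ha : 0 ≤ a) (h : a ^ 2 ≤ c ^ 2 * b) :
    a ≤ c * Real.sqrt b := by
  have h1 : a = Real.sqrt (a ^ 2) := (Real.sqrt_sq ha).symm
  rw [h1]
  refine (Real.sqrt_le_sqrt h).trans ?_
  rw [Real.sqrt_mul (sq_nonneg c), Real.sqrt_sq hc]

theorem bl_op {X Y : Type*} [Fintype X] [Fintype Y] {K : X → Y → ℂ} {c : ℝ} (h : Bl K c)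
    (p : X → ℂ) : ∑ y, ‖∑ x, K x y * p x‖ ^ 2 ≤ c ^ 2 * ∑ x, ‖p x‖ ^ 2 := by
  set T : Y → ℂ := fun y => ∑ x, K x y * p x with hT
  set S : ℝ := ∑ y, ‖T y‖ ^ 2 with hS
  have hS0 : 0 ≤ S := Finset.sum_nonneg fun _ _ => sq_nonneg _
  have hP0 : 0 ≤ ∑ x, ‖p x‖ ^ 2 := Finset.sum_nonneg fun _ _ => sq_nonneg _
  have h1 := h p (fun y => (starRingEnd ℂ) (T y))
  have h2 : ∑ x, ∑ y, K x y * p x * (starRingEnd ℂ) (T y) = (S : ℂ) := by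
    rw [Finset.sum_comm, hS, Complex.ofReal_sum]
    refine Finset.sum_congr rfl fun y _ => ?_
    rw [← Finset.sum_mul]
    show T y * (starRingEnd ℂ) (T y) = _
    rw [Complex.mul_conj, Complex.normSq_eq_norm_sq]
  have h3 : ∑ y, ‖(starRingEnd ℂ) (T y)‖ ^ 2 = S := by
    rw [hS]
    refine Finset.sum_congr rfl fun y _ => ?_
    rw [RCLike.norm_conj]
  rw [h2, h3, Complex.norm_real, Real.norm_eq_abs, sq_abs] at h1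
  show S ≤ _
  rcases hS0.eq_or_lt with h0 | h0
  · rw [← h0]
    positivity
  · have h4 : S * S ≤ (c ^ 2 * ∑ x, ‖p x‖ ^ 2) * S := by
      calc S * S = S ^ 2 := by ring
        _ ≤ _ := h1
        _ = _ := by ring
    exact le_of_mul_le_mul_right h4 h0

theorem ten_prod {X₁ X₂ Y₁ Y₂ : Type*} [Fintype X₁] [Fintype X₂] [Fintype Y₁] [Fintype Y₂]
    {K₁ : X₁ → Y₁ → ℂ} {K₂ : X₂ → Y₂ → ℂ} {c₁ c₂ : ℝ} (h₁ : Bl K₁ c₁) (h₂ : Bl K₂ c₂)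
    (hc₁ : 0 ≤ c₁) :
    Bl (fun (x : X₁ × X₂) (y : Y₁ × Y₂) => K₁ x.1 y.1 * K₂ x.2 y.2) (c₁ * c₂) := by
  intro P Q
  set T : X₁ → Y₂ → ℂ := fun x₁ y₂ => ∑ x₂, K₂ x₂ y₂ * P (x₁, x₂) with hT
  have hTle : ∀ x₁, ∑ y₂, ‖T x₁ y₂‖ ^ 2 ≤ c₂ ^ 2 * ∑ x₂, ‖P (x₁, x₂)‖ ^ 2 := fun x₁ =>
    bl_op h₂ fun x₂ => P (x₁, x₂)
  set F : Y₂ → ℂ := fun y₂ => ∑ x₁, ∑ y₁, K₁ x₁ y₁ * T x₁ y₂ * Q (y₁, y₂) with hF
  set A : Y₂ → ℝ := fun y₂ => ∑ x₁, ‖T x₁ y₂‖ ^ 2 with hA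
  set B : Y₂ → ℝ := fun y₂ => ∑ y₁, ‖Q (y₁, y₂)‖ ^ 2 with hB
  have hA0 : ∀ y₂, 0 ≤ A y₂ := fun y₂ => Finset.sum_nonneg fun _ _ => sq_nonneg _
  have hB0 : ∀ y₂, 0 ≤ B y₂ := fun y₂ => Finset.sum_nonneg fun _ _ => sq_nonneg _
  have hFle : ∀ y₂, ‖F y₂‖ ≤ c₁ * (Real.sqrt (A y₂) * Real.sqrt (B y₂)) := by
    intro y₂
    rw [← Real.sqrt_mul (hA0 y₂)]
    exact ten_sqrt hc₁ (mul_nonneg (hA0 y₂) (hB0 y₂)) (norm_nonneg _)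
      (h₁ (fun x₁ => T x₁ y₂) fun y₁ => Q (y₁, y₂))
  have e1 : ∑ x : X₁ × X₂, ∑ y : Y₁ × Y₂, K₁ x.1 y.1 * K₂ x.2 y.2 * P x * Q y = ∑ y₂, F y₂ := by
    simp only [hF, hT, Fintype.sum_prod_type, Finset.mul_sum, Finset.sum_mul]
    have s1 : ∀ x₁ : X₁, ∑ x₂ : X₂, ∑ y₁ : Y₁, ∑ y₂ : Y₂,
        K₁ x₁ y₁ * K₂ x₂ y₂ * P (x₁, x₂) * Q (y₁, y₂) =
        ∑ y₂ : Y₂, ∑ y₁ : Y₁, ∑ x₂ : X₂, K₁ x₁ y₁ * K₂ x₂ y₂ * P (x₁, x₂) * Q (y₁, y₂) := by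
      intro x₁
      rw [Finset.sum_comm]
      rw [Finset.sum_comm (s := (univ : Finset Y₂))]
      refine Finset.sum_congr rfl fun y₁ _ => ?_
      rw [Finset.sum_comm]
    rw [Finset.sum_congr rfl fun x₁ _ => s1 x₁, Finset.sum_comm]
    refine Finset.sum_congr rfl fun y₂ _ => Finset.sum_congr rfl fun x₁ _ =>
      Finset.sum_congr rfl fun y₁ _ => Finset.sum_congr rfl fun x₂ _ => ?_
    ring
  have e2 : ‖∑ y₂, F y₂‖ ≤ c₁ * ∑ y₂, Real.sqrt (A y₂) * Real.sqrt (B y₂) := by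
    rw [Finset.mul_sum]
    exact (norm_sum_le _ _).trans (Finset.sum_le_sum fun y₂ _ => hFle y₂)
  have e3 : (∑ y₂, Real.sqrt (A y₂) * Real.sqrt (B y₂)) ^ 2 ≤ (∑ y₂, A y₂) * ∑ y₂, B y₂ := by
    refine (Finset.sum_mul_sq_le_sq_mul_sq _ _ _).trans (le_of_eq ?_)
    congr 1
    · exact Finset.sum_congr rfl fun y₂ _ => Real.sq_sqrt (hA0 y₂)
    · exact Finset.sum_congr rfl fun y₂ _ => Real.sq_sqrt (hB0 y₂)
  have e4 : ∑ y₂, A y₂ ≤ c₂ ^ 2 * ∑ x : X₁ × X₂, ‖P x‖ ^ 2 := by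
    rw [hA, Finset.sum_comm, Fintype.sum_prod_type, Finset.mul_sum]
    exact Finset.sum_le_sum fun x₁ _ => hTle x₁
  have e5 : ∑ y₂, B y₂ = ∑ y : Y₁ × Y₂, ‖Q y‖ ^ 2 := by
    rw [hB, Finset.sum_comm, Fintype.sum_prod_type]
  have hBs : 0 ≤ ∑ y₂, B y₂ := Finset.sum_nonneg fun y₂ _ => hB0 y₂
  rw [e1, ← e5]
  calc ‖∑ y₂, F y₂‖ ^ 2 ≤ (c₁ * ∑ y₂, Real.sqrt (A y₂) * Real.sqrt (B y₂)) ^ 2 :=
        pow_le_pow_left₀ (norm_nonneg _) e2 2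
    _ = c₁ ^ 2 * (∑ y₂, Real.sqrt (A y₂) * Real.sqrt (B y₂)) ^ 2 := by ring
    _ ≤ c₁ ^ 2 * ((∑ y₂, A y₂) * ∑ y₂, B y₂) := mul_le_mul_of_nonneg_left e3 (sq_nonneg _)
    _ ≤ c₁ ^ 2 * ((c₂ ^ 2 * ∑ x : X₁ × X₂, ‖P x‖ ^ 2) * ∑ y₂, B y₂) :=
        mul_le_mul_of_nonneg_left (mul_le_mul_of_nonneg_right e4 hBs) (sq_nonneg _)
    _ = _ := by ring

theorem ten_equiv {X X' Y Y' : Type*} [Fintype X] [Fintype Y] [Fintype X'] [Fintype Y']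
    {K : X → Y → ℂ} {K' : X' → Y' → ℂ} {c : ℝ} (e : X' ≃ X) (f : Y' ≃ Y)
    (hK : ∀ x y, K' x y = K (e x) (f y)) (h : Bl K c) : Bl K' c := by
  intro p q
  have h1 := h (fun x => p (e.symm x)) (fun y => q (f.symm y))
  have e1 : ∑ x, ∑ y, K x y * p (e.symm x) * q (f.symm y) = ∑ x, ∑ y, K' x y * p x * q y := by
    rw [← e.sum_comp]
    refine Finset.sum_congr rfl fun x _ => ?_
    rw [← f.sum_comp]
    refine Finset.sum_congr rfl fun y _ => ?_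
    rw [hK, Equiv.symm_apply_apply, Equiv.symm_apply_apply]
  have e2 : ∑ x, ‖p (e.symm x)‖ ^ 2 = ∑ x, ‖p x‖ ^ 2 := e.symm.sum_comp fun x => ‖p x‖ ^ 2
  have e3 : ∑ y, ‖q (f.symm y)‖ ^ 2 = ∑ y, ‖q y‖ ^ 2 := f.symm.sum_comp fun y => ‖q y‖ ^ 2
  rw [e1, e2, e3] at h1
  exact h1

theorem bl_tensor {X Y : Type*} [Fintype X] [Fintype Y] (n : ℕ) {K : Fin n → X → Y → ℂ}
    {c : Fin n → ℝ} (hc : ∀ i, 0 ≤ c i) (h : ∀ i, Bl (K i) (c i)) :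
    Bl (X := Fin n → X) (Y := Fin n → Y) (fun x y => ∏ i, K i (x i) (y i)) (∏ i, c i) := by
  induction n with
  | zero =>
    intro p q
    simp only [Finset.univ_eq_empty, Finset.prod_empty, one_mul, Fintype.sum_unique, one_pow,
      norm_mul, mul_pow]
    exact le_refl _
  | succ n ih =>
    have h1 := ten_prod (h 0) (ih (K := fun i => K i.succ) (c := fun i => c i.succ)
      (fun i => hc i.succ) (fun i => h i.succ)) (hc 0)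
    rw [Fin.prod_univ_succ]
    refine ten_equiv (Fin.consEquiv fun _ => X).symm (Fin.consEquiv fun _ => Y).symm ?_ h1
    intro x y
    rw [Fin.prod_univ_succ]
    rfl

theorem bl_sum {X Y κ : Type*} [Fintype X] [Fintype Y] (s : Finset κ) {K : κ → X → Y → ℂ}
    {c : κ → ℝ} (hc : ∀ j ∈ s, 0 ≤ c j) (h : ∀ j ∈ s, Bl (K j) (c j)) :
    Bl (fun x y => ∑ j ∈ s, K j x y) (∑ j ∈ s, c j) := by
  intro p q
  set M : ℝ := (∑ x, ‖p x‖ ^ 2) * ∑ y, ‖q y‖ ^ 2 with hM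
  have hM0 : 0 ≤ M := mul_nonneg (Finset.sum_nonneg fun _ _ => sq_nonneg _)
    (Finset.sum_nonneg fun _ _ => sq_nonneg _)
  have e1 : ∑ x, ∑ y, (∑ j ∈ s, K j x y) * p x * q y =
      ∑ j ∈ s, ∑ x, ∑ y, K j x y * p x * q y := by
    rw [Finset.sum_comm (s := s)]
    refine Finset.sum_congr rfl fun x _ => ?_
    rw [Finset.sum_comm (s := s)]
    refine Finset.sum_congr rfl fun y _ => ?_
    rw [Finset.sum_mul, Finset.sum_mul]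
  have e2 : ‖∑ j ∈ s, ∑ x, ∑ y, K j x y * p x * q y‖ ≤ (∑ j ∈ s, c j) * Real.sqrt M := by
    rw [Finset.sum_mul]
    exact (norm_sum_le _ _).trans (Finset.sum_le_sum fun j hj =>
      ten_sqrt (hc j hj) hM0 (norm_nonneg _) (h j hj p q))
  rw [e1]
  calc ‖∑ j ∈ s, ∑ x, ∑ y, K j x y * p x * q y‖ ^ 2
      ≤ ((∑ j ∈ s, c j) * Real.sqrt M) ^ 2 := pow_le_pow_left₀ (norm_nonneg _) e2 2
    _ = _ := by rw [mul_pow, Real.sq_sqrt hM0]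

theorem bl_smul {X Y : Type*} [Fintype X] [Fintype Y] {K : X → Y → ℂ} {c : ℝ} (h : Bl K c)
    (a : ℂ) : Bl (fun x y => a * K x y) (‖a‖ * c) := by
  intro p q
  have e1 : ∑ x, ∑ y, a * K x y * p x * q y = a * ∑ x, ∑ y, K x y * p x * q y := by
    rw [Finset.mul_sum]
    refine Finset.sum_congr rfl fun x _ => ?_
    rw [Finset.mul_sum]
    refine Finset.sum_congr rfl fun y _ => ?_
    ring
  rw [e1, norm_mul, mul_pow, mul_pow, mul_assoc]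
  exact mul_le_mul_of_nonneg_left (h p q) (sq_nonneg _)

theorem bl_mono {X Y : Type*} [Fintype X] [Fintype Y] {K : X → Y → ℂ} {c c' : ℝ} (h : Bl K c)
    (hc : 0 ≤ c) (hcc : c ≤ c') : Bl K c' := by
  intro p q
  refine (h p q).trans (mul_le_mul_of_nonneg_right (pow_le_pow_left₀ hc hcc 2) ?_)
  exact mul_nonneg (Finset.sum_nonneg fun _ _ => sq_nonneg _)
    (Finset.sum_nonneg fun _ _ => sq_nonneg _)

end Pool.Agent.Lib.MP_0430e4_lc.L3
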