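import Pool.Agent.Lib.MP_0430e4_lc.L3.LOC
import Pool.Agent.Lib.MP_0430e4_lc.L3.PRD
import Pool.Agent.Lib.MP_0430e4_lc.L3.DFT

/-!
# TYP: the norm of the sum over the labellings of one type

PROOF. If `τ F > n` for some `F ∈ g.powerset.erase ∅` the sum is empty. Otherwise (change `τ` outside to 0) `dft` with `G = g.powerset`, `o = ∅`, `a i F = chp (par F) (gl A B (ξ i) (a i) (b i))`,
`ρ F = (1/2) ^ (g.card + 2) * ε ^ vl A B F`. For every `θ` the kernel `∏ i, ∑ F, ..` has norm at most `∏ i, (‖1 + Pl‖ + ε ^ 2) * √2 ^ (|A| + |B|) ≤ exp (5 ε² n) * √2 ^ (n (|A| + |B|))` by `loc_norm`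
(with `s F = if F = ∅ then 1 else ρ F * stdAddChar (θ F)`, `par ∅ = ∅`), `bl_tensor`, `prd`. Then `bl_smul`, `bl_sum`: the average over `θ` of numbers of modulus one times these kernels.
-/

set_option autoImplicit false

namespace Pool.Agent.Lib.MP_0430e4_lc.L3

open Finset
open Lin (W wt sg)

theorem typ_avg {X Y κ : Type*} [Fintype X] [Fintype Y] [Fintype κ] [DecidableEq κ] {n : ℕ}
    (K : (κ → ZMod (n + 1)) → X → Y → ℂ) (u : (κ → ZMod (n + 1)) → ℂ) (hu : ∀ θ, ‖u θ‖ = 1)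
    {c : ℝ} (hc : 0 ≤ c) (h : ∀ θ, Bl (K θ) c) (z : ℂ) :
    Bl (fun x y => z * (((n : ℂ) + 1) ^ Fintype.card κ)⁻¹ * ∑ θ, u θ * K θ x y) (‖z‖ * c) := by
  have h1 : ∀ θ, Bl (fun x y => u θ * K θ x y) c := by
    intro θ
    have h2 := bl_smul (h θ) (u θ)
    rwa [hu θ, one_mul] at h2
  have h2 := bl_sum (univ : Finset (κ → ZMod (n + 1))) (K := fun θ x y => u θ * K θ x y)
    (c := fun _ => c) (fun _ _ => hc) (fun θ _ => h1 θ)
  have h3 := bl_smul h2 (z * (((n : ℂ) + 1) ^ Fintype.card κ)⁻¹)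
  have h4 : ‖z * (((n : ℂ) + 1) ^ Fintype.card κ)⁻¹‖ *
      ∑ _θ : κ → ZMod (n + 1), c = ‖z‖ * c := by
    have h5 : ‖(n : ℂ) + 1‖ = (n : ℝ) + 1 := by
      have : ((n : ℂ) + 1) = ((n + 1 : ℕ) : ℂ) := by
        push_cast
        rfl
      rw [this, Complex.norm_natCast]
      push_cast
      rfl
    rw [norm_mul, norm_inv, norm_pow, h5, sum_const, card_univ, Fintype.card_fun, ZMod.card,
      nsmul_eq_mul]
    push_cast
    have h6 : ((n : ℝ) + 1) ^ Fintype.card κ ≠ 0 := by positivity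
    field_simp
  rw [h4] at h3
  exact h3

variable {ι : Type*} [Fintype ι] [DecidableEq ι]

theorem typ_ker {A B : Finset ι} (hAB : Disjoint A B) {g : Finset (Sym2 ι)} {ε : ℝ} (hε : 0 < ε)
    (hε1 : ε ≤ 1) {n : ℕ} (ξ : Fin n → ι → ZMod 2)
    (hp : ∀ u ∈ vs g, ∀ v ∈ vs g, u ∉ A ∪ B → v ∉ A ∪ B → u ≠ v →
      |∑ i, sg (ξ i u) * sg (ξ i v)| ≤ 2 * ε * n) {s : Finset (Sym2 ι) → ℂ} (h0 : s ∅ = 1)
    (hs : ∀ F ⊆ g, F.Nonempty → ‖s F‖ ≤ (1 / 2) ^ (g.card + 2) * ε ^ vl A B F) :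
    Bl (X := Fin n → {v // v ∈ A} → ZMod 2) (Y := Fin n → {v // v ∈ B} → ZMod 2)
      (fun a b => ∏ i, ∑ F ∈ g.powerset, s F * (chp (par F) (gl A B (ξ i) (a i) (b i)) : ℂ))
      (Real.exp (5 * ε ^ 2 * n) * Real.sqrt 2 ^ (n * (A.card + B.card))) := by
  have h1 := bl_tensor (X := {v // v ∈ A} → ZMod 2) (Y := {v // v ∈ B} → ZMod 2) n
    (K := fun i a b => ∑ F ∈ g.powerset, s F * (chp (par F) (gl A B (ξ i) a b) : ℂ))
    (c := fun i => (‖1 + Pl A B g s (ξ i)‖ + ε ^ 2) * Real.sqrt 2 ^ (A.card + B.card))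
    (fun i => by positivity) (fun i => loc_norm hAB h0 hε.le hε1 hs (ξ i))
  refine bl_mono h1 (prod_nonneg fun i _ => by positivity) ?_
  rw [prod_mul_distrib, prod_const, card_univ, Fintype.card_fin, ← pow_mul,
    mul_comm (A.card + B.card) n]
  exact mul_le_mul_of_nonneg_right (prd hε.le hε1 hs ξ hp) (by positivity)

theorem typ_norm {A B : Finset ι} (hAB : Disjoint A B) (g : Finset (Sym2 ι)) {ε : ℝ} (hε : 0 < ε)
    (hε1 : ε ≤ 1) {n : ℕ} (ξ : Fin n → ι → ZMod 2)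
    (hp : ∀ u ∈ vs g, ∀ v ∈ vs g, u ∉ A ∪ B → v ∉ A ∪ B → u ≠ v →
      |∑ i, sg (ξ i u) * sg (ξ i v)| ≤ 2 * ε * n) (τ : Finset (Sym2 ι) → ℕ) :
    Bl (X := Fin n → {v // v ∈ A} → ZMod 2) (Y := Fin n → {v // v ∈ B} → ZMod 2)
      (fun a b => ∑ C ∈ (Fintype.piFinset fun _ : Fin n => g.powerset).filter
        (fun C => ∀ F ∈ g.powerset.erase ∅, cn C F = τ F),
          ∏ i, (chp (par (C i)) (gl A B (ξ i) (a i) (b i)) : ℂ))
      ((∏ F ∈ g.powerset.erase ∅, (2 ^ (g.card + 2) / ε ^ vl A B F) ^ τ F) *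
        Real.exp (5 * ε ^ 2 * n) * Real.sqrt 2 ^ (n * (A.card + B.card))) := by
  by_cases hτ : ∀ F ∈ g.powerset.erase ∅, τ F ≤ n
  · obtain ⟨τ', hτ1, hτ2⟩ : ∃ τ' : Finset (Sym2 ι) → ℕ, (∀ F, τ' F ≤ n) ∧
        ∀ F ∈ g.powerset.erase ∅, τ' F = τ F := by
      refine ⟨fun F => if F ∈ g.powerset.erase ∅ then τ F else 0, ?_, ?_⟩
      · intro F
        simp only
        split_ifs with h
        · exact hτ F h
        · exact Nat.zero_le _
      · intro F hF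
        simp only
        rw [if_pos hF]
    obtain ⟨ρ, hρ'⟩ : ∃ ρ : Finset (Sym2 ι) → ℝ,
        ∀ F, ρ F = (1 / 2) ^ (g.card + 2) * ε ^ vl A B F := ⟨_, fun _ => rfl⟩
    have hρ : ∀ F, 0 < ρ F := fun F => by
      rw [hρ']
      positivity
    have hker : ∀ θ : Finset (Sym2 ι) → ZMod (n + 1),
        Bl (X := Fin n → {v // v ∈ A} → ZMod 2) (Y := Fin n → {v // v ∈ B} → ZMod 2)
        (fun a b => ∏ i, ∑ F ∈ g.powerset,
          (if F = ∅ then 1 else (ρ F : ℂ) * ZMod.stdAddChar (θ F)) *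
            (chp (par F) (gl A B (ξ i) (a i) (b i)) : ℂ))
        (Real.exp (5 * ε ^ 2 * n) * Real.sqrt 2 ^ (n * (A.card + B.card))) := by
      intro θ
      refine typ_ker hAB hε hε1 ξ hp (if_pos rfl) fun F _ hF => ?_
      rw [if_neg hF.ne_empty, norm_mul, norm_char, mul_one, Complex.norm_real, Real.norm_eq_abs,
        abs_of_nonneg (hρ F).le, hρ']
    have hu : ∀ θ : Finset (Sym2 ι) → ZMod (n + 1),
        ‖∏ F ∈ g.powerset.erase ∅,
          (ZMod.stdAddChar (-(θ F * (τ' F : ZMod (n + 1)))) : ℂ)‖ = 1 := by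
      intro θ
      rw [norm_prod]
      exact prod_eq_one fun F _ => norm_char _
    have hfin := typ_avg _ _ hu (by positivity) hker
      (∏ F ∈ g.powerset.erase ∅, ((ρ F : ℂ)⁻¹) ^ τ' F)
    have e1 : (fun (a : Fin n → {v // v ∈ A} → ZMod 2) (b : Fin n → {v // v ∈ B} → ZMod 2) =>
        ∑ C ∈ (Fintype.piFinset fun _ : Fin n => g.powerset).filter
          (fun C => ∀ F ∈ g.powerset.erase ∅, cn C F = τ F),
            ∏ i, (chp (par (C i)) (gl A B (ξ i) (a i) (b i)) : ℂ)) = fun a b =>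
        (∏ F ∈ g.powerset.erase ∅, ((ρ F : ℂ)⁻¹) ^ τ' F) *
        (((n : ℂ) + 1) ^ Fintype.card (Finset (Sym2 ι)))⁻¹ * ∑ θ : Finset (Sym2 ι) → ZMod (n + 1),
          (∏ F ∈ g.powerset.erase ∅,
          (ZMod.stdAddChar (-(θ F * (τ' F : ZMod (n + 1)))) : ℂ)) * ∏ i, ∑ F ∈ g.powerset,
          (if F = ∅ then 1 else (ρ F : ℂ) * ZMod.stdAddChar (θ F)) *
            (chp (par F) (gl A B (ξ i) (a i) (b i)) : ℂ) := by
      funext a b
      have h1 := dft g.powerset (empty_mem_powerset g) (n := n)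
        (fun i F => (chp (par F) (gl A B (ξ i) (a i) (b i)) : ℂ)) hρ hτ1
      rw [← h1]
      refine sum_congr ?_ fun _ _ => rfl
      refine filter_congr fun C _ => forall₂_congr fun F hF => ?_
      rw [hτ2 F hF]
    rw [e1]
    have h3 : ‖∏ F ∈ g.powerset.erase ∅, ((ρ F : ℂ)⁻¹) ^ τ' F‖ =
        ∏ F ∈ g.powerset.erase ∅, (2 ^ (g.card + 2) / ε ^ vl A B F) ^ τ F := by
      rw [norm_prod]
      refine prod_congr rfl fun F hF => ?_
      rw [norm_pow, norm_inv, Complex.norm_real, Real.norm_eq_abs, abs_of_nonneg (hρ F).le,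
        hτ2 F hF, hρ', mul_inv, one_div, inv_pow, inv_inv, div_eq_mul_inv]
    rw [h3, ← mul_assoc] at hfin
    exact hfin
  · push Not at hτ
    obtain ⟨F, hF, hF'⟩ := hτ
    have e1 : ((Fintype.piFinset fun _ : Fin n => g.powerset).filter
        (fun C => ∀ F ∈ g.powerset.erase ∅, cn C F = τ F)) = ∅ := by
      refine filter_eq_empty_iff.2 fun C _ h => ?_
      have h1 : cn C F ≤ n := by
        unfold cn
        refine (card_filter_le _ _).trans ?_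
        simp
      rw [h F hF] at h1
      omega
    rw [e1]
    simp only [sum_empty]
    intro p q
    simp only [zero_mul, sum_const_zero, norm_zero]
    rw [zero_pow two_ne_zero]
    exact mul_nonneg (sq_nonneg _) (mul_nonneg (sum_nonneg fun _ _ => sq_nonneg _)
      (sum_nonneg fun _ _ => sq_nonneg _))

end Pool.Agent.Lib.MP_0430e4_lc.L3
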